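import Pool.Agent.Lib.MP_496a9e_al.Q.A0

section

/-!
# A2: adapted bases
-/

namespace Pool.Agent.RG

open Matrix

universe u

variable {G : Type u} {N : ℕ} {S : RData G N}

/-- The matrices as a Euclidean space. -/
private noncomputable def A2_T (N : ℕ) : Mat N ≃ₗ[ℝ] EuclideanSpace ℝ (Fin N × Fin N) where
  toFun X := WithLp.toLp 2 fun p => X p.1 p.2
  invFun x := Matrix.of fun i j => x (i, j)
  map_add' X Y := by
    ext p
    rfl
  map_smul' c X := by
    ext p
    rfl
  left_inv X := by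
    ext i j
    rfl
  right_inv x := by
    ext p
    rfl

private theorem A2_inner (X Y : Mat N) : inner ℝ (A2_T N X) (A2_T N Y) = (Xᵀ * Y).trace := by
  rw [PiLp.inner_apply, Fintype.sum_prod_type, Matrix.trace, Finset.sum_comm]
  refine Finset.sum_congr rfl fun j _ => ?_
  rw [Matrix.diag_apply, Matrix.mul_apply]
  refine Finset.sum_congr rfl fun i _ => ?_
  rw [Matrix.transpose_apply]
  change inner ℝ (X i j) (Y i j) = X i j * Y i j
  rw [real_inner_eq_re_inner]
  simp [mul_comm]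

/-- The symmetric matrices in the Lie algebra. -/
private def A2_p (S : RData G N) : Submodule ℝ (Mat N) where
  carrier := {X | X ∈ S.alg ∧ Xᵀ = X}
  add_mem' := by
    rintro a b ⟨ha, ha'⟩ ⟨hb, hb'⟩
    refine ⟨S.alg.add_mem ha hb, ?_⟩
    rw [Matrix.transpose_add, ha', hb']
  zero_mem' := ⟨S.alg.zero_mem, Matrix.transpose_zero⟩
  smul_mem' := by
    rintro c a ⟨ha, ha'⟩
    refine ⟨S.alg.smul_mem c ha, ?_⟩
    rw [Matrix.transpose_smul, ha']

private theorem A2_mem_p {S : RData G N} {X : Mat N} : X ∈ A2_p S ↔ X ∈ S.alg ∧ Xᵀ = X := Iff.rfl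

private theorem A2_basis (S : RData G N) : ∃ (D : ℕ) (b : Fin D → Mat N), (∀ i, b i ∈ A2_p S) ∧
    (∀ i j, ((b i)ᵀ * b j).trace = if i = j then 1 else 0) ∧
    ∀ X ∈ A2_p S, X ∈ Submodule.span ℝ (Set.range b) := by
  classical
  set q : Submodule ℝ (EuclideanSpace ℝ (Fin N × Fin N)) :=
    (A2_p S).map (A2_T N).toLinearMap with hq
  let B := stdOrthonormalBasis ℝ q
  refine ⟨Module.finrank ℝ q, fun i => (A2_T N).symm (B i : EuclideanSpace ℝ (Fin N × Fin N)),
    ?_, ?_, ?_⟩
  · intro i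
    obtain ⟨X, hX, hXB⟩ := Submodule.mem_map.1 (B i).2
    have h : (A2_T N).symm (B i : EuclideanSpace ℝ (Fin N × Fin N)) = X := by
      rw [← hXB]
      exact (A2_T N).symm_apply_apply X
    change (A2_T N).symm (B i : EuclideanSpace ℝ (Fin N × Fin N)) ∈ A2_p S
    rw [h]
    exact hX
  · intro i j
    rw [← A2_inner, LinearEquiv.apply_symm_apply, LinearEquiv.apply_symm_apply]
    have h := orthonormal_iff_ite.1 B.orthonormal i j
    rw [Submodule.coe_inner] at h
    exact h
  · intro X hX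
    have hm : A2_T N X ∈ q := Submodule.mem_map_of_mem hX
    have h := B.sum_repr ⟨A2_T N X, hm⟩
    have h2 := congrArg (fun x : q => (A2_T N).symm (x : EuclideanSpace ℝ (Fin N × Fin N))) h
    simp only [LinearEquiv.symm_apply_apply, Submodule.coe_sum, Submodule.coe_smul,
      map_sum, map_smul] at h2
    rw [← h2]
    refine Submodule.sum_mem _ fun i _ => Submodule.smul_mem _ _ ?_
    exact Submodule.subset_span ⟨i, rfl⟩

/-- Skew and symmetric matrices are orthogonal. -/
private theorem A2_orth {X Y : Mat N} (hX : Xᵀ = -X) (hY : Yᵀ = Y) :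
    (Xᵀ * Y).trace = 0 ∧ (Yᵀ * X).trace = 0 := by
  have h1 : (Xᵀ * Y).trace = (Yᵀ * X).trace := by
    rw [← Matrix.trace_transpose, Matrix.transpose_mul, Matrix.transpose_transpose]
  have h2 : (Yᵀ * X).trace = -(Xᵀ * Y).trace := by
    rw [hX, hY, Matrix.trace_mul_comm, Matrix.neg_mul, Matrix.trace_neg, neg_neg]
  constructor
  · linarith
  · linarith

/-- PROOF. `⟨X, Y⟩ = tr(Xᵀ Y)` is an inner product on the finite dimensional space `p = {X ∈ alg | Xᵀ = X}`; take an orthonormal basis `b' : Fin D' → Mat N` of `p` (e.g. transport along `Mat N ≃ EuclideanSpace ℝ (Fin N × Fin N)` and use `stdOrthonormalBasis` of a submodule, or Gram-Schmidt). Put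
`e = Fin.append b b'` on `Fin (D + D')`, `σ = Fin.castAddEmb`. Skew and symmetric matrices are orthogonal: `tr(Xᵀ Y) = -tr(X Y)` and `= tr(Yᵀ X) = tr (Y X)`. Span: `X = (X - Xᵀ)/2 + (X + Xᵀ)/2`, both in `alg` (`htr`). -/
theorem exists_adapted (htr : ∀ X ∈ S.alg, Xᵀ ∈ S.alg) {D : ℕ} {b : Fin D → Mat N}
    (hb : IsBasisK S b) :
    ∃ (d : ℕ) (e : Fin d → Mat N) (σ : Fin D ↪ Fin d), IsAd S e (Finset.univ.map σ) ∧
      ∀ j, e (σ j) = b j := by
  obtain ⟨D', b', hp, ho, hs⟩ := A2_basis S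
  refine ⟨D + D', Fin.append b b', Fin.castAddEmb D', ⟨?_, ?_, ?_, ?_, ?_⟩, ?_⟩
  · intro i
    refine Fin.addCases (fun i => ?_) (fun i => ?_) i
    · rw [Fin.append_left]
      exact hb.mem i
    · rw [Fin.append_right]
      exact (hp i).1
  · intro i j
    refine Fin.addCases (fun i => ?_) (fun i => ?_) i <;>
      refine Fin.addCases (fun j => ?_) (fun j => ?_) j
    · rw [Fin.append_left, Fin.append_left, hb.orth]
      simp [Fin.ext_iff]
    · rw [Fin.append_left, Fin.append_right, (A2_orth (hb.skew i) (hp j).2).1, if_neg]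
      intro h
      have := congrArg Fin.val h
      rw [Fin.val_castAdd, Fin.val_natAdd] at this
      have := i.2
      omega
    · rw [Fin.append_left, Fin.append_right, (A2_orth (hb.skew j) (hp i).2).2, if_neg]
      intro h
      have := congrArg Fin.val h
      rw [Fin.val_castAdd, Fin.val_natAdd] at this
      have := j.2
      omega
    · rw [Fin.append_right, Fin.append_right, ho]
      simp [Fin.ext_iff]
  · intro X hX
    have hr1 : Submodule.span ℝ (Set.range b) ≤ Submodule.span ℝ (Set.range (Fin.append b b')) := by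
      refine Submodule.span_mono ?_
      rintro _ ⟨i, rfl⟩
      exact ⟨Fin.castAdd D' i, Fin.append_left _ _ _⟩
    have hr2 : Submodule.span ℝ (Set.range b') ≤ Submodule.span ℝ (Set.range (Fin.append b b')) := by
      refine Submodule.span_mono ?_
      rintro _ ⟨i, rfl⟩
      exact ⟨Fin.natAdd D i, Fin.append_right _ _ _⟩
    have hX' := htr X hX
    have h1 : X = (1 / 2 : ℝ) • (X - Xᵀ) + (1 / 2 : ℝ) • (X + Xᵀ) := by
      rw [← smul_add, sub_add_add_cancel, smul_add, ← add_smul]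
      norm_num
    rw [h1]
    refine Submodule.add_mem _ (Submodule.smul_mem _ _ (hr1 (hb.span _ ?_ ?_)))
      (Submodule.smul_mem _ _ (hr2 (hs _ ⟨?_, ?_⟩)))
    · exact S.alg.sub_mem hX hX'
    · rw [Matrix.transpose_sub, Matrix.transpose_transpose, neg_sub]
    · exact S.alg.add_mem hX hX'
    · rw [Matrix.transpose_add, Matrix.transpose_transpose, add_comm]
  · intro i hi
    obtain ⟨j, _, rfl⟩ := Finset.mem_map.1 hi
    change (Fin.append b b' (Fin.castAdd D' j))ᵀ = -(Fin.append b b' (Fin.castAdd D' j))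
    rw [Fin.append_left]
    exact hb.skew j
  · intro i
    refine Fin.addCases (fun i => ?_) (fun i => ?_) i
    · intro h
      exact absurd (Finset.mem_map.2 ⟨i, Finset.mem_univ i, rfl⟩) h
    · intro _
      rw [Fin.append_right]
      exact (hp i).2
  · intro j
    change Fin.append b b' (Fin.castAdd D' j) = b j
    rw [Fin.append_left]

end Pool.Agent.RG
end

section

/-!
# A1: `φ(exp X)` is the matrix exponential
-/

namespace Pool.Agent.RG

open Matrix

universe u

variable {G : Type u} [Group G] [TopologicalSpace G] {N : ℕ} {S : RData G N}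

/-- PROOF. `exp_add X 0 0`: `exp 0 = exp 0 * exp 0`. -/
theorem exp_zero' (hS : IsRed S) : S.exp 0 = 1 := by
  have h := hS.exp_add 0 S.alg.zero_mem 0 0
  rw [smul_zero, smul_zero] at h
  exact (mul_eq_left.1 h.symm)

/-- PROOF. `exp_add X 1 (-1)`. -/
theorem exp_neg' (hS : IsRed S) {X : Mat N} (hX : X ∈ S.alg) : S.exp (-X) = (S.exp X)⁻¹ := by
  have h := hS.exp_add X hX 1 (-1)
  rw [add_neg_cancel, zero_smul, one_smul, neg_smul, one_smul, exp_zero' hS] at h
  exact eq_inv_of_mul_eq_one_right h.symm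

open scoped Matrix.Norms.Operator in
/-- PROOF. `γ t = φ (exp (t • X))` satisfies `γ (s+t) = γ s * γ t`, `γ 0 = 1`, and each entry is differentiable at `0` with derivative `X i j`; so `γ` has derivative `γ t * X` at every `t` (entrywise, `γ (t+s) = γ t γ s`; work in a normed algebra structure on matrices, e.g.
`open scoped Matrix.Norms.Operator` or entrywise with `hasDerivAt_pi`). Then `t ↦ γ t * exp(-t X)` has derivative `γ t X exp(-tX) - γ t X exp(-tX) = 0` (`hasDerivAt_exp_smul_const`), so it is constant `= 1`, and `γ 1 = exp X`. -/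
theorem phi_exp (hS : IsRed S) {X : Mat N} (hX : X ∈ S.alg) :
    S.φ (S.exp X) = NormedSpace.exp X := by
  obtain ⟨γ, hγ⟩ : ∃ γ : ℝ → Mat N, γ = fun t => S.φ (S.exp (t • X)) := ⟨_, rfl⟩
  have hγ0 : HasDerivAt γ X 0 := by
    rw [hγ]
    exact hasDerivAt_pi.2 fun i => hasDerivAt_pi.2 fun j => hS.exp_der X hX i j
  have hadd : ∀ s t, γ (s + t) = γ s * γ t := by
    intro s t
    rw [hγ]
    simp only []
    rw [hS.exp_add X hX, hS.mul]
  have hone : γ 0 = 1 := by
    rw [hγ]
    simp only []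
    rw [zero_smul, exp_zero' hS, hS.one]
  have hder : ∀ t, HasDerivAt γ (γ t * X) t := by
    intro t
    have h1 : HasDerivAt (fun s => γ (s - t)) X t := by
      apply HasDerivAt.comp_sub_const t t
      rw [sub_self]
      exact hγ0
    have h2 : HasDerivAt (fun s => γ t * γ (s - t)) (γ t * X) t := h1.const_mul (γ t)
    have h3 : (fun s => γ t * γ (s - t)) = γ := by
      funext s
      rw [← hadd, add_sub_cancel]
    rwa [h3] at h2
  obtain ⟨δ, hδ⟩ : ∃ δ : ℝ → Mat N, δ = fun t => γ t * NormedSpace.exp (t • (-X)) := ⟨_, rfl⟩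
  have hδd : ∀ t, HasDerivAt δ 0 t := by
    intro t
    have h1 := (hder t).mul (hasDerivAt_exp_smul_const' (-X) t)
    have h2 : γ t * X * NormedSpace.exp (t • -X) + γ t * (-X * NormedSpace.exp (t • -X)) = 0 := by
      rw [neg_mul, mul_neg, mul_assoc]
      exact add_neg_cancel _
    rw [hδ]
    exact h1.congr_deriv h2
  have hc := is_const_of_deriv_eq_zero (f := δ) (fun t => (hδd t).differentiableAt)
    (fun t => (hδd t).deriv) 1 0
  rw [hδ] at hc
  simp only [one_smul, zero_smul, NormedSpace.exp_zero, mul_one] at hc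
  rw [hone] at hc
  have h5 : NormedSpace.exp (-X) * NormedSpace.exp X = 1 := by
    rw [← Matrix.exp_add_of_commute _ _ (Commute.neg_left (Commute.refl X)), neg_add_cancel,
      NormedSpace.exp_zero]
  have h6 : γ 1 = NormedSpace.exp X := by
    calc γ 1 = γ 1 * (NormedSpace.exp (-X) * NormedSpace.exp X) := by rw [h5, mul_one]
      _ = NormedSpace.exp X := by rw [← mul_assoc, hc, one_mul]
  rw [← h6, hγ]
  simp only [one_smul]

end Pool.Agent.RG
end

section

/-!
# A3a: coordinates and norms of matrices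
-/

namespace Pool.Agent.RG

open Matrix

universe u

variable {G : Type u} {N : ℕ} {S : RData G N} {d : ℕ} {e : Fin d → Mat N} {kI : Finset (Fin d)}

/-- PROOF. Definition. -/
theorem hat_add (e : Fin d → Mat N) (Y Z : Ed d) : hat e (Y + Z) = hat e Y + hat e Z := by
  unfold hat
  rw [← Finset.sum_add_distrib]
  refine Finset.sum_congr rfl fun i _ => ?_
  rw [PiLp.add_apply, add_smul]

/-- PROOF. Definition. -/
theorem hat_smul (e : Fin d → Mat N) (a : ℝ) (Y : Ed d) : hat e (a • Y) = a • hat e Y := by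
  unfold hat
  rw [Finset.smul_sum]
  refine Finset.sum_congr rfl fun i _ => ?_
  rw [PiLp.smul_apply, smul_eq_mul, mul_smul]

/-- PROOF. Finite sum of continuous functions. -/
theorem hat_cont (e : Fin d → Mat N) : Continuous (hat e) := by
  unfold hat
  refine continuous_finset_sum _ fun i _ => ?_
  exact Continuous.smul (EuclideanSpace.proj i : Ed d →L[ℝ] ℝ).continuous continuous_const

/-- PROOF. Definition. -/
theorem hat_eb (e : Fin d → Mat N) (i : Fin d) : hat e (eb i) = e i := by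
  unfold hat eb
  rw [Finset.sum_eq_single i]
  · rw [PiLp.single_apply, if_pos rfl, one_smul]
  · intro j _ hj
    rw [PiLp.single_apply, if_neg hj, zero_smul]
  · intro hi
    exact absurd (Finset.mem_univ i) hi

/-- PROOF. `Submodule.sum_mem`. -/
theorem hat_mem (h : IsAd S e kI) (Y : Ed d) : hat e Y ∈ S.alg := by
  unfold hat
  exact Submodule.sum_mem _ fun i _ => Submodule.smul_mem _ _ (h.mem i)

/-- PROOF. Definition, linearity of the trace. -/
theorem crd_add (e : Fin d → Mat N) (X Z : Mat N) : crd e (X + Z) = crd e X + crd e Z := by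
  unfold crd
  ext j
  simp only [PiLp.add_apply]
  rw [Matrix.mul_add, Matrix.trace_add]

/-- PROOF. Definition. -/
theorem crd_smul (e : Fin d → Mat N) (a : ℝ) (X : Mat N) : crd e (a • X) = a • crd e X := by
  unfold crd
  ext j
  simp only [PiLp.smul_apply]
  rw [Matrix.mul_smul, Matrix.trace_smul]

/-- PROOF. Continuity of the trace of a product. -/
theorem crd_cont (e : Fin d → Mat N) : Continuous (crd e) := by
  unfold crd
  refine (PiLp.continuous_toLp 2 _).comp (continuous_pi fun j => ?_)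
  exact (continuous_const.matrix_mul continuous_id).matrix_trace

/-- PROOF. `tr(e_jᵀ Σ Y_i e_i) = Y_j`. -/
theorem crd_hat (h : IsAd S e kI) (Y : Ed d) : crd e (hat e Y) = Y := by
  ext j
  unfold crd hat
  simp only []
  rw [Matrix.mul_sum, Matrix.trace_sum, Finset.sum_eq_single j]
  · rw [Matrix.mul_smul, Matrix.trace_smul, h.orth, if_pos rfl, smul_eq_mul, mul_one]
  · intro i _ hij
    rw [Matrix.mul_smul, Matrix.trace_smul, h.orth, if_neg fun h' => hij h'.symm, smul_zero]
  · intro hj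
    exact absurd (Finset.mem_univ j) hj

/-- PROOF. `X` is in the span: `X = Σ a_i e_i = hat a` (`mem_span_range_iff_exists_fun`), so `crd X = a`. -/
theorem hat_crd (h : IsAd S e kI) {X : Mat N} (hX : X ∈ S.alg) : hat e (crd e X) = X := by
  obtain ⟨a, ha⟩ := (Submodule.mem_span_range_iff_exists_fun ℝ).1 (h.span X hX)
  have h1 : hat e (WithLp.toLp 2 a : Ed d) = X := ha
  rw [← h1, crd_hat h]

/-- PROOF. `tr((hat Y)ᵀ hat Y) = Σ Y_i Y_j δ_ij = ‖Y‖²`. -/
theorem frob_hat (h : IsAd S e kI) (Y : Ed d) : frob (hat e Y) = ‖Y‖ := by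
  unfold frob
  rw [EuclideanSpace.norm_eq]
  congr 1
  have h1 : (hat e Y)ᵀ * hat e Y = ∑ i, ∑ j, (Y i * Y j) • ((e i)ᵀ * e j) := by
    unfold hat
    rw [Matrix.transpose_sum, Finset.sum_mul]
    refine Finset.sum_congr rfl fun i _ => ?_
    rw [Finset.mul_sum]
    refine Finset.sum_congr rfl fun j _ => ?_
    rw [Matrix.transpose_smul, Matrix.smul_mul, Matrix.mul_smul, smul_smul]
  rw [h1, Matrix.trace_sum]
  refine Finset.sum_congr rfl fun i _ => ?_
  rw [Matrix.trace_sum, Finset.sum_eq_single i]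
  · rw [Matrix.trace_smul, h.orth, if_pos rfl, smul_eq_mul, mul_one, Real.norm_eq_abs, sq_abs, sq]
  · intro j _ hij
    rw [Matrix.trace_smul, h.orth, if_neg fun h' => hij h'.symm, smul_zero]
  · intro hj
    exact absurd (Finset.mem_univ i) hj

end Pool.Agent.RG
end

section

/-!
# A3b: coordinates and norms of matrices
-/

namespace Pool.Agent.RG

open Matrix

universe u

variable {G : Type u} {N : ℕ} {S : RData G N} {d : ℕ} {e : Fin d → Mat N} {kI : Finset (Fin d)}

private theorem A3b_trace (X : Mat N) : (Xᵀ * X).trace = ∑ i, ∑ j, X i j ^ 2 := by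
  unfold Matrix.trace
  simp only [Matrix.diag_apply, Matrix.mul_apply, Matrix.transpose_apply]
  rw [Finset.sum_comm]
  exact Finset.sum_congr rfl fun i _ => Finset.sum_congr rfl fun j _ => (sq _).symm

private theorem A3b_nonneg (X : Mat N) : 0 ≤ ∑ i, ∑ j, X i j ^ 2 :=
  Finset.sum_nonneg fun _ _ => Finset.sum_nonneg fun _ _ => sq_nonneg _

private theorem A3b_frob (X : Mat N) : frob X ^ 2 = ∑ i, ∑ j, X i j ^ 2 := by
  unfold frob
  rw [A3b_trace, Real.sq_sqrt (A3b_nonneg X)]

private theorem A3b_frob_nonneg (X : Mat N) : 0 ≤ frob X := Real.sqrt_nonneg _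

private theorem A3b_opn_tr (X : Mat N) : opn Xᵀ = opn X := by
  unfold opn
  have h : Xᵀ = star X := by
    rw [Matrix.star_eq_conjTranspose, Matrix.conjTranspose_eq_transpose_of_trivial]
  rw [h, map_star, ContinuousLinearMap.star_eq_adjoint, LinearIsometryEquiv.norm_map]

private theorem A3b_frob_tr (X : Mat N) : frob Xᵀ = frob X := by
  have h : frob Xᵀ ^ 2 = frob X ^ 2 := by
    rw [A3b_frob, A3b_frob, Finset.sum_comm]
    rfl
  exact (sq_eq_sq₀ (A3b_frob_nonneg _) (A3b_frob_nonneg _)).1 h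

private theorem A3b_apply (X : Mat N) (v : Ed N) (i : Fin N) :
    (Matrix.toEuclideanCLM (n := Fin N) (𝕜 := ℝ) X v) i = ∑ j, X i j * v j := rfl

private theorem A3b_norm_sq (v : Ed N) : ‖v‖ ^ 2 = ∑ i, v i ^ 2 := by
  rw [EuclideanSpace.norm_sq_eq]
  exact Finset.sum_congr rfl fun i _ => by rw [Real.norm_eq_abs, sq_abs]

/-- PROOF. Norm of a composition (`toEuclideanCLM` is multiplicative). -/
theorem opn_mul (X Y : Mat N) : opn (X * Y) ≤ opn X * opn Y := by
  unfold opn
  rw [map_mul]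
  exact norm_mul_le _ _

/-- PROOF. `toEuclideanCLM` maps `1` to the identity. -/
theorem opn_one : opn (1 : Mat N) ≤ 1 := by
  unfold opn
  rw [map_one]
  exact ContinuousLinearMap.norm_id_le

/-- PROOF. `0 ≤ ‖·‖`. -/
theorem opn_nonneg (X : Mat N) : 0 ≤ opn X := by
  exact norm_nonneg _

/-- PROOF. `toEuclideanCLM` is a linear map between finite dimensional spaces, hence continuous. -/
theorem opn_cont : Continuous (opn : Mat N → ℝ) := by
  have h : Continuous fun X : Mat N => Matrix.toEuclideanCLM (n := Fin N) (𝕜 := ℝ) X :=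
    LinearMap.continuous_of_finiteDimensional
      ({ toFun := fun X => Matrix.toEuclideanCLM (n := Fin N) (𝕜 := ℝ) X
         map_add' := fun X Y => map_add _ X Y
         map_smul' := fun a X => map_smul _ a X } :
        Mat N →ₗ[ℝ] (EuclideanSpace ℝ (Fin N) →L[ℝ] EuclideanSpace ℝ (Fin N)))
  exact h.norm

/-- PROOF. If `Xᵀ X = 1` then `‖X v‖ = ‖v‖`. -/
theorem opn_orth {X : Mat N} (h : Xᵀ * X = 1) : opn X ≤ 1 := by
  have h1 : opn X * opn X ≤ 1 := by
    unfold opn
    rw [← CStarRing.norm_star_mul_self, ← map_star, ← map_mul, Matrix.star_eq_conjTranspose,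
      Matrix.conjTranspose_eq_transpose_of_trivial, h]
    exact opn_one
  nlinarith [opn_nonneg X]

/-- PROOF. `‖X v‖² = Σ_i (Σ_j X_ij v_j)² ≤ Σ_ij X_ij² ‖v‖²` (Cauchy-Schwarz), `tr(XᵀX) = Σ X_ij²`. -/
theorem opn_le_frob (X : Mat N) : opn X ≤ frob X := by
  unfold opn
  refine ContinuousLinearMap.opNorm_le_bound _ (A3b_frob_nonneg X) fun v => ?_
  refine abs_le_of_sq_le_sq' ?_ (mul_nonneg (A3b_frob_nonneg X) (norm_nonneg _)) |>.2
  rw [mul_pow, A3b_frob, A3b_norm_sq, A3b_norm_sq, Finset.sum_mul]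
  refine Finset.sum_le_sum fun i _ => ?_
  rw [A3b_apply]
  exact Finset.sum_mul_sq_le_sq_mul_sq _ _ _

/-- PROOF. Columns: `frob(X Y)² = Σ_j ‖X Y e_j‖² ≤ (opn X)² Σ_j ‖Y e_j‖²`. -/
theorem frob_mul_le (X Y : Mat N) : frob (X * Y) ≤ opn X * frob Y := by
  refine abs_le_of_sq_le_sq' ?_ (mul_nonneg (opn_nonneg X) (A3b_frob_nonneg Y)) |>.2
  rw [mul_pow, A3b_frob, A3b_frob, Finset.sum_comm, Finset.sum_comm (f := fun i j => Y i j ^ 2),
    Finset.mul_sum]
  refine Finset.sum_le_sum fun j _ => ?_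
  obtain ⟨y, hy⟩ : ∃ y : Ed N, y = WithLp.toLp 2 fun i => Y i j := ⟨_, rfl⟩
  have h1 : ‖Matrix.toEuclideanCLM (n := Fin N) (𝕜 := ℝ) X y‖ ≤ opn X * ‖y‖ :=
    ContinuousLinearMap.le_opNorm _ _
  have h2 := pow_le_pow_left₀ (norm_nonneg _) h1 2
  rw [mul_pow, A3b_norm_sq, A3b_norm_sq] at h2
  have h3 : ∀ i, (Matrix.toEuclideanCLM (n := Fin N) (𝕜 := ℝ) X y) i = (X * Y) i j := by
    intro i
    rw [A3b_apply, Matrix.mul_apply, hy]
  have h4 : ∀ i, y i = Y i j := by
    intro i
    rw [hy]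
  simp only [h3, h4] at h2
  exact h2

/-- PROOF. Transpose: `frob Xᵀ = frob X`, `opn Xᵀ = opn X` (adjoint) and `frob_mul_le`. -/
theorem frob_mul_le' (X Y : Mat N) : frob (X * Y) ≤ frob X * opn Y := by
  rw [← A3b_frob_tr (X * Y), Matrix.transpose_mul, mul_comm, ← A3b_opn_tr Y, ← A3b_frob_tr X]
  exact frob_mul_le _ _

/-- PROOF. `frob X² = Σ_j ‖X e_j‖² ≤ N (opn X)²`. -/
theorem frob_le_opn (X : Mat N) : frob X ≤ Real.sqrt N * opn X := by
  have h1 := frob_mul_le X 1
  rw [mul_one] at h1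
  have h2 : frob (1 : Mat N) = Real.sqrt N := by
    unfold frob
    rw [Matrix.transpose_one, mul_one, Matrix.trace_one, Fintype.card_fin]
  rw [h2, mul_comm] at h1
  exact h1

end Pool.Agent.RG
end

section

/-!
# A3c: coordinates and norms of matrices
-/

namespace Pool.Agent.RG

open Matrix

universe u

variable {G : Type u} {N : ℕ} {S : RData G N} {d : ℕ} {e : Fin d → Mat N} {kI : Finset (Fin d)}

section A3cAux

open scoped Matrix.Norms.L2Operator

private theorem A3c_exp_le (X : Matrix (Fin N) (Fin N) ℝ) :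
    ‖NormedSpace.exp X‖ ≤ Real.exp ‖X‖ := by
  have h1 : ‖(1 : Matrix (Fin N) (Fin N) ℝ)‖ ≤ 1 := opn_one
  have hs : HasSum (fun n : ℕ => ((n.factorial : ℝ)⁻¹ • ‖X‖ ^ n : ℝ)) (Real.exp ‖X‖) := by
    rw [Real.exp_eq_exp_ℝ]
    exact NormedSpace.exp_series_hasSum_exp' (𝕂 := ℝ) (‖X‖)
  have hb : ∀ n : ℕ, ‖((n.factorial : ℝ)⁻¹ • X ^ n : Matrix (Fin N) (Fin N) ℝ)‖ ≤
      (n.factorial : ℝ)⁻¹ • ‖X‖ ^ n := by
    intro n
    rw [norm_smul, Real.norm_of_nonneg (by positivity), smul_eq_mul]
    refine mul_le_mul_of_nonneg_left ?_ (by positivity)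
    rcases Nat.eq_zero_or_pos n with h | h
    · subst h
      simpa using h1
    · exact norm_pow_le' X h
  rw [NormedSpace.exp_eq_tsum ℝ]
  exact tsum_of_norm_bounded hs hb

private theorem A3c_conj (U : unitary (Matrix (Fin N) (Fin N) ℝ)) (D : Matrix (Fin N) (Fin N) ℝ) :
    ‖(U : Matrix (Fin N) (Fin N) ℝ) * D * (star U : Matrix (Fin N) (Fin N) ℝ)‖ = ‖D‖ := by
  rw [← Unitary.coe_star, CStarRing.norm_mul_coe_unitary, CStarRing.norm_coe_unitary_mul]

private theorem A3c_exp_conj (U : unitary (Matrix (Fin N) (Fin N) ℝ))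
    (D : Matrix (Fin N) (Fin N) ℝ) :
    NormedSpace.exp ((U : Matrix (Fin N) (Fin N) ℝ) * D * (star U : Matrix (Fin N) (Fin N) ℝ)) =
      (U : Matrix (Fin N) (Fin N) ℝ) * NormedSpace.exp D *
        (star U : Matrix (Fin N) (Fin N) ℝ) := by
  have h := Matrix.exp_units_conj (𝔸 := ℝ) (Unitary.toUnits U) D
  simpa using h

private theorem A3c_main {X : Matrix (Fin N) (Fin N) ℝ} (h : X.IsHermitian) :
    Real.exp ‖X‖ ≤ max 1 (max ‖NormedSpace.exp X‖ ‖NormedSpace.exp (-X)‖) := by
  set U := h.eigenvectorUnitary with hU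
  set l := h.eigenvalues with hl
  have hX : X = (U : Matrix (Fin N) (Fin N) ℝ) * diagonal l *
      (star U : Matrix (Fin N) (Fin N) ℝ) := by
    have h2 := h.spectral_theorem
    rw [Unitary.conjStarAlgAut_apply] at h2
    exact h2
  have hX' : -X = (U : Matrix (Fin N) (Fin N) ℝ) * diagonal (-l) *
      (star U : Matrix (Fin N) (Fin N) ℝ) := by
    rw [show diagonal (-l) = -diagonal l from (diagonal_neg l).symm, mul_neg, neg_mul, ← hX]
  have h1 : ‖X‖ = ‖l‖ := by
    rw [hX, A3c_conj, l2_opNorm_diagonal]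
  have h2 : ‖NormedSpace.exp X‖ = ‖NormedSpace.exp l‖ := by
    rw [hX, A3c_exp_conj, A3c_conj, exp_diagonal, l2_opNorm_diagonal]
  have h3 : ‖NormedSpace.exp (-X)‖ = ‖NormedSpace.exp (-l)‖ := by
    rw [hX', A3c_exp_conj, A3c_conj, exp_diagonal, l2_opNorm_diagonal]
  rw [h1, h2, h3]
  rcases Nat.eq_zero_or_pos N with h0 | h0
  · subst h0
    have : ‖l‖ = 0 := by
      rw [Subsingleton.elim l 0, norm_zero]
    rw [this, Real.exp_zero]
    exact le_max_left _ _
  · have : Nonempty (Fin N) := ⟨⟨0, h0⟩⟩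
    obtain ⟨i, hi⟩ := Finite.exists_max (fun i => ‖l i‖)
    have h4 : ‖l‖ ≤ ‖l i‖ := (pi_norm_le_iff_of_nonneg (norm_nonneg _)).2 hi
    have h5 : ∀ m : Fin N → ℝ, Real.exp (m i) ≤ ‖NormedSpace.exp m‖ := by
      intro m
      have h6 := norm_le_pi_norm (NormedSpace.exp m) i
      rw [Pi.coe_exp, ← Real.exp_eq_exp_ℝ] at h6
      exact (le_abs_self _).trans h6
    refine (Real.exp_le_exp.2 h4).trans ?_
    rw [Real.norm_eq_abs]
    rcases le_total 0 (l i) with hp | hp
    · rw [abs_of_nonneg hp]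
      exact (h5 l).trans ((le_max_left _ _).trans (le_max_right _ _))
    · rw [abs_of_nonpos hp]
      exact (h5 (-l)).trans ((le_max_right _ _).trans (le_max_right _ _))

end A3cAux

/-- PROOF. `toEuclideanCLM` is an algebra isomorphism, continuous, so it maps `exp X` to `exp` of the image (`NormedSpace.map_exp`-type lemma, or power series), and `‖exp T‖ ≤ exp ‖T‖` for an operator with `‖1‖ ≤ 1`
(`NormedSpace.norm_exp_le`-type: sum of the series, `norm_tsum_le_tsum_norm`, `‖T^n / n!‖ ≤ ‖T‖^n / n!`). -/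
theorem opn_exp_le (X : Mat N) : opn (NormedSpace.exp X) ≤ Real.exp (opn X) :=
  A3c_exp_le X

/-- For a symmetric matrix the exponential of `X` or of `-X` is as large as possible.
PROOF. If `N = 0`, `opn X = 0`, and `exp 0 = 1 ≤ max 1 ..`. Otherwise let `T = toEuclideanCLM X`, self-adjoint; there is a unit vector `v` and `λ` with `T v = λ v`, `|λ| = ‖T‖` (the unit sphere is compact; `IsSelfAdjoint`, Rayleigh quotient; or the spectral theorem `LinearMap.IsSymmetric.eigenvectorBasis` and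
`‖T‖ = max |eigenvalue|`). Then `exp(X) v = e^λ v` and `exp(-X) v = e^(-λ) v`, so one of the norms is `≥ e^|λ|`. -/
theorem exp_opn_le {X : Mat N} (h : Xᵀ = X) :
    Real.exp (opn X) ≤ max 1 (max (opn (NormedSpace.exp X)) (opn (NormedSpace.exp (-X)))) := by
  have h1 : (X : Matrix (Fin N) (Fin N) ℝ).IsHermitian := by
    rw [Matrix.IsHermitian, Matrix.conjTranspose_eq_transpose_of_trivial]
    exact h
  exact A3c_main h1

end Pool.Agent.RG
end
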