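import Mathlib
import Pool.Agent.Lib.MP_496a9e_al.Q.Core

section

/-!
# B2: an equicontinuous translation invariant space of functions on a compact group is finite
dimensional
-/

namespace Pool.Agent.RG

open MeasureTheory Topology Filter Set
open scoped ComplexConjugate

universe u

/-- the variance inequality -/
private theorem B2_var {K : Type u} [TopologicalSpace K] [CompactSpace K] [MeasurableSpace K]
    [BorelSpace K] (μ : Measure K) [IsFiniteMeasure μ] {w : K → ℝ} (hw : Continuous w)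
    (hw0 : ∀ x, 0 ≤ w x) (hw1 : ∫ x, w x ∂μ = 1) {g : K → ℂ} (hg : Continuous g) :
    ‖∫ x, (w x : ℂ) * g x ∂μ‖ ^ 2 ≤ ∫ x, w x * ‖g x‖ ^ 2 ∂μ := by
  set m : ℂ := ∫ x, (w x : ℂ) * g x ∂μ with hm
  have hI : ∀ {E : Type} [NormedAddCommGroup E] (f : K → E), Continuous f → Integrable f μ :=
    fun f hf => hf.integrable_of_hasCompactSupport (HasCompactSupport.of_compactSpace f)
  have h0 : 0 ≤ ∫ x, w x * ‖g x - m‖ ^ 2 ∂μ :=
    integral_nonneg fun x => mul_nonneg (hw0 x) (sq_nonneg _)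
  have hpt : ∀ x, w x * ‖g x - m‖ ^ 2 =
      w x * ‖g x‖ ^ 2 - 2 * (conj m * ((w x : ℂ) * g x)).re + ‖m‖ ^ 2 * w x := by
    intro x
    have h1 : ‖g x - m‖ ^ 2 = ‖g x‖ ^ 2 - 2 * (conj m * g x).re + ‖m‖ ^ 2 := by
      rw [← Complex.normSq_eq_norm_sq, ← Complex.normSq_eq_norm_sq, ← Complex.normSq_eq_norm_sq,
        Complex.normSq_sub]
      have : (g x * conj m).re = (conj m * g x).re := by rw [mul_comm]
      rw [this]
      ring
    have h2 : (conj m * ((w x : ℂ) * g x)).re = w x * (conj m * g x).re := by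
      have : conj m * ((w x : ℂ) * g x) = (w x : ℂ) * (conj m * g x) := by ring
      rw [this, Complex.re_ofReal_mul]
    rw [h1, h2]
    ring
  have c1 : Continuous fun x => w x * ‖g x‖ ^ 2 := hw.mul (hg.norm.pow 2)
  have c2 : Continuous fun x => conj m * ((w x : ℂ) * g x) :=
    continuous_const.mul ((Complex.continuous_ofReal.comp hw).mul hg)
  have c3 : Continuous fun x => 2 * (conj m * ((w x : ℂ) * g x)).re :=
    continuous_const.mul (Complex.continuous_re.comp c2)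
  have c4 : Continuous fun x => ‖m‖ ^ 2 * w x := continuous_const.mul hw
  have e1 : ∫ x, w x * ‖g x - m‖ ^ 2 ∂μ =
      ∫ x, w x * ‖g x‖ ^ 2 ∂μ - 2 * ‖m‖ ^ 2 + ‖m‖ ^ 2 := by
    simp_rw [hpt]
    have a1 : ∫ x, (w x * ‖g x‖ ^ 2 - 2 * (conj m * ((w x : ℂ) * g x)).re +
        ‖m‖ ^ 2 * w x) ∂μ =
        ∫ x, (w x * ‖g x‖ ^ 2 - 2 * (conj m * ((w x : ℂ) * g x)).re) ∂μ +
          ∫ x, ‖m‖ ^ 2 * w x ∂μ := integral_add ((hI _ c1).sub (hI _ c3)) (hI _ c4)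
    have a2 : ∫ x, (w x * ‖g x‖ ^ 2 - 2 * (conj m * ((w x : ℂ) * g x)).re) ∂μ =
        ∫ x, w x * ‖g x‖ ^ 2 ∂μ - ∫ x, 2 * (conj m * ((w x : ℂ) * g x)).re ∂μ :=
      integral_sub (hI _ c1) (hI _ c3)
    rw [a1, a2, integral_const_mul, integral_const_mul, hw1]
    have e2 : ∫ x, (conj m * ((w x : ℂ) * g x)).re ∂μ = ‖m‖ ^ 2 := by
      have e3 : ∫ x, (conj m * ((w x : ℂ) * g x)).re ∂μ =
          (∫ x, conj m * ((w x : ℂ) * g x) ∂μ).re := by
        exact integral_re (hI _ c2)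
      rw [e3, integral_const_mul, ← hm, mul_comm, Complex.mul_conj, Complex.ofReal_re,
        Complex.normSq_eq_norm_sq]
    rw [e2]
    ring
  rw [e1] at h0
  linarith

/-- the mean over translates is not small -/
private theorem B2_mean {K : Type u} [Group K] [TopologicalSpace K] [IsTopologicalGroup K]
    [CompactSpace K] [T2Space K] [SecondCountableTopology K] [MeasurableSpace K] [BorelSpace K]
    (μ : Measure K) [IsFiniteMeasure μ] {w : K → ℝ} (hw : Continuous w)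
    (hw0 : ∀ x, 0 ≤ w x) (hw1 : ∫ x, w x ∂μ = 1) {U : Set K} (hwU : ∀ x, x ∉ U → w x = 0)
    {f : K → ℂ} (hf : Continuous f)
    (h : ∀ x ∈ U, ∫ k, ‖f (k * x) - f k‖ ^ 2 ∂μ ≤ 1 / 4 * ∫ k, ‖f k‖ ^ 2 ∂μ)
    (hA : Continuous fun k => ∫ x, (w x : ℂ) * f (k * x) ∂μ) :
    1 / 4 * ∫ k, ‖f k‖ ^ 2 ∂μ ≤ ∫ k, ‖∫ x, (w x : ℂ) * f (k * x) ∂μ‖ ^ 2 ∂μ := by
  have hI : ∀ {E : Type} [NormedAddCommGroup E] (f : K → E), Continuous f → Integrable f μ :=
    fun f hf => hf.integrable_of_hasCompactSupport (HasCompactSupport.of_compactSpace f)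
  have hD : ∀ k, ‖∫ x, (w x : ℂ) * f (k * x) ∂μ - f k‖ ^ 2 ≤
      ∫ x, w x * ‖f (k * x) - f k‖ ^ 2 ∂μ := by
    intro k
    have h1 : Continuous fun x => f (k * x) - f k :=
      (hf.comp (continuous_const.mul continuous_id)).sub continuous_const
    have h2 := B2_var μ hw hw0 hw1 h1
    have h3 : ∫ x, (w x : ℂ) * (f (k * x) - f k) ∂μ =
        ∫ x, (w x : ℂ) * f (k * x) ∂μ - f k := by
      simp_rw [mul_sub]
      rw [integral_sub]
      · congr 1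
        rw [integral_mul_const, integral_complex_ofReal, hw1]
        simp
      · exact hI _ ((Complex.continuous_ofReal.comp hw).mul
          (hf.comp (continuous_const.mul continuous_id)))
      · exact hI _ ((Complex.continuous_ofReal.comp hw).mul continuous_const)
    rwa [h3] at h2
  have hc2 : Continuous fun q : K × K => w q.2 * ‖f (q.1 * q.2) - f q.1‖ ^ 2 :=
    (hw.comp continuous_snd).mul ((((hf.comp (continuous_fst.mul continuous_snd)).sub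
      (hf.comp continuous_fst)).norm).pow 2)
  have hInt2 : Integrable (fun q : K × K => w q.2 * ‖f (q.1 * q.2) - f q.1‖ ^ 2) (μ.prod μ) :=
    hc2.integrable_of_hasCompactSupport (HasCompactSupport.of_compactSpace _)
  have hF : ∫ k, ∫ x, w x * ‖f (k * x) - f k‖ ^ 2 ∂μ ∂μ =
      ∫ x, ∫ k, w x * ‖f (k * x) - f k‖ ^ 2 ∂μ ∂μ :=
    integral_integral_swap hInt2
  have hG : ∫ x, ∫ k, w x * ‖f (k * x) - f k‖ ^ 2 ∂μ ∂μ ≤
      1 / 4 * ∫ k, ‖f k‖ ^ 2 ∂μ := by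
    have h1 : ∀ x, ∫ k, w x * ‖f (k * x) - f k‖ ^ 2 ∂μ ≤
        w x * (1 / 4 * ∫ k, ‖f k‖ ^ 2 ∂μ) := by
      intro x
      rw [integral_const_mul]
      by_cases hx : x ∈ U
      · exact mul_le_mul_of_nonneg_left (h x hx) (hw0 x)
      · rw [hwU x hx, zero_mul, zero_mul]
    have h2 : Integrable (fun x => ∫ k, w x * ‖f (k * x) - f k‖ ^ 2 ∂μ) μ :=
      hInt2.integral_prod_right
    have h3 : Integrable (fun x => w x * (1 / 4 * ∫ k, ‖f k‖ ^ 2 ∂μ)) μ :=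
      hI _ (hw.mul continuous_const)
    refine (integral_mono h2 h3 h1).trans ?_
    rw [integral_mul_const, hw1, one_mul]
  have hDc : Continuous fun k => ‖∫ x, (w x : ℂ) * f (k * x) ∂μ - f k‖ ^ 2 :=
    ((hA.sub hf).norm).pow 2
  have hDI : ∫ k, ‖∫ x, (w x : ℂ) * f (k * x) ∂μ - f k‖ ^ 2 ∂μ ≤
      1 / 4 * ∫ k, ‖f k‖ ^ 2 ∂μ := by
    refine (integral_mono (hI _ hDc) hInt2.integral_prod_left hD).trans ?_
    rw [hF]
    exact hG
  have hpt : ∀ k, ‖f k‖ ^ 2 ≤ 2 * ‖∫ x, (w x : ℂ) * f (k * x) ∂μ‖ ^ 2 +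
      2 * ‖∫ x, (w x : ℂ) * f (k * x) ∂μ - f k‖ ^ 2 := by
    intro k
    set a := ∫ x, (w x : ℂ) * f (k * x) ∂μ
    have h1 : ‖f k‖ ≤ ‖a‖ + ‖a - f k‖ := by
      have : f k = a - (a - f k) := by ring
      calc ‖f k‖ = ‖a - (a - f k)‖ := by rw [← this]
        _ ≤ _ := norm_sub_le _ _
    nlinarith [norm_nonneg a, norm_nonneg (a - f k), norm_nonneg (f k),
      sq_nonneg (‖a‖ - ‖a - f k‖)]
  have hAc : Continuous fun k => ‖∫ x, (w x : ℂ) * f (k * x) ∂μ‖ ^ 2 := hA.norm.pow 2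
  have hfc : Continuous fun k => ‖f k‖ ^ 2 := hf.norm.pow 2
  have hfin : ∫ k, ‖f k‖ ^ 2 ∂μ ≤ 2 * ∫ k, ‖∫ x, (w x : ℂ) * f (k * x) ∂μ‖ ^ 2 ∂μ +
      2 * ∫ k, ‖∫ x, (w x : ℂ) * f (k * x) ∂μ - f k‖ ^ 2 ∂μ := by
    rw [← integral_const_mul, ← integral_const_mul, ← integral_add
      ((hI _ hAc).const_mul 2) ((hI _ hDc).const_mul 2)]
    exact integral_mono (hI _ hfc) (((hI _ hAc).const_mul 2).add ((hI _ hDc).const_mul 2)) hpt
  linarith

/-- PROOF. Let `h : K → ℝ` be continuous, `h ≥ 0`, supported in `U` (take an open subset of it), `∫ h dμ = 1` (Urysohn: `exists_continuous_zero_one_of_isClosed` or `exists_continuousMap_one_of_isCompact_subset_isOpen`, `h` is positive on a nonempty open set, so its integral is positive; normalize). For `f ∈ F` put `(A f)(k) = ∫ h(x) f(k x) dμ(x)`.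
(1) `‖A f - f‖₂ ≤ ‖f‖₂ / 2`: `A f (k) - f(k) = ∫ h(x) (f(k x) - f(k)) dμ(x)`, so `|A f(k) - f(k)|² ≤ ∫ h(x) |f(k x) - f(k)|² dμ(x)` (Jensen or Cauchy-Schwarz with `∫ h = 1`), integrate over `k` (Fubini, everything is continuous on compact spaces): `≤ ∫ h(x) (1/4) ‖f‖₂² dμ(x)`. Hence `‖A f‖₂ ≥ ‖f‖₂ / 2`.
(2) `A f(k) = ∫ h(k⁻¹ y) f(y) dμ(y)` (left invariance). If `f_1..f_m ∈ F` are orthonormal in `L²(μ)`, Bessel's inequality for the vector `h_k = h(k⁻¹ ·)` gives `Σ_i |A f_i (k)|² ≤ ‖h_k‖₂² = ‖h‖₂²`. Integrate over `k`: `m / 4 ≤ Σ ‖A f_i‖₂² ≤ μ(K) ‖h‖₂²`. So the number of orthonormal elements in `F` is bounded. Since `‖f‖₂ = 0`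
implies `f = 0` for continuous `f` (`hpos`), `F` embeds in `L²(μ)`, every finite dimensional subspace of `F` has an orthonormal basis (Gram-Schmidt), hence dimension `≤ 4 μ(K) ‖h‖₂²`; so `F` is finite dimensional (`Module.finite_of_rank_le`-type: `finiteDimensional_of_linearIndependent_card_le`, e.g. by contradiction: an infinite dimensional space contains linearly independent families of any finite size:
`Module.Finite` iff rank `< ℵ₀`, `exists_linearIndependent..`). -/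
theorem fd_of_equi {K : Type u} [Group K] [TopologicalSpace K] [IsTopologicalGroup K]
    [CompactSpace K] [T2Space K] [SecondCountableTopology K] [MeasurableSpace K] [BorelSpace K]
    (μ : Measure K)
    [IsFiniteMeasure μ] [μ.IsMulLeftInvariant]
    (hpos : ∀ U : Set K, IsOpen U → U.Nonempty → μ U ≠ 0) (F : Submodule ℂ C(K, ℂ)) (U : Set K)
    (hU : U ∈ 𝓝 (1 : K))
    (h : ∀ x ∈ U, ∀ f ∈ F, ∫ k, ‖f (k * x) - f k‖ ^ 2 ∂μ ≤ 1 / 4 * ∫ k, ‖f k‖ ^ 2 ∂μ) :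
    FiniteDimensional ℂ F := by
  have : μ.IsOpenPosMeasure := ⟨fun V hV hne => hpos V hV hne⟩
  have hI : ∀ {E : Type} [NormedAddCommGroup E] (f : K → E), Continuous f → Integrable f μ :=
    fun f hf => hf.integrable_of_hasCompactSupport (HasCompactSupport.of_compactSpace f)
  -- the bump function
  obtain ⟨w, hw, hw0, hw1, hwU⟩ : ∃ w : K → ℝ, Continuous w ∧ (∀ x, 0 ≤ w x) ∧
      ∫ x, w x ∂μ = 1 ∧ ∀ x, x ∉ U → w x = 0 := by
    have hd : Disjoint (interior U)ᶜ ({1} : Set K) := by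
      rw [Set.disjoint_singleton_right, Set.mem_compl_iff, not_not]
      exact mem_interior_iff_mem_nhds.mpr hU
    obtain ⟨φ, h0, h1, h2⟩ := exists_continuous_zero_one_of_isClosed
      (isOpen_interior.isClosed_compl : IsClosed (interior U)ᶜ) (isClosed_singleton : IsClosed ({1} : Set K)) hd
    have hφ1 : φ 1 = 1 := h1 (Set.mem_singleton _)
    have hc : 0 < ∫ x, φ x ∂μ :=
      φ.continuous.integral_pos_of_hasCompactSupport_nonneg_nonzero
        (HasCompactSupport.of_compactSpace _) (fun x => (h2 x).1) (x := 1) (by rw [hφ1]; norm_num)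
    refine ⟨fun x => (∫ x, φ x ∂μ)⁻¹ * φ x, continuous_const.mul φ.continuous,
      fun x => mul_nonneg (inv_nonneg.mpr hc.le) (h2 x).1, ?_, fun x hx => ?_⟩
    · rw [integral_const_mul]
      exact inv_mul_cancel₀ hc.ne'
    · have : φ x = 0 := h0 (fun hx' => hx (interior_subset hx'))
      simp only [this, mul_zero]
  -- the mean
  have hAc : ∀ f : K → ℂ, Continuous f →
      Continuous fun k => ∫ x, (w x : ℂ) * f (k * x) ∂μ := by
    intro f hf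
    have h1 : Continuous (Function.uncurry fun k x : K => (w x : ℂ) * f (k * x)) :=
      (Complex.continuous_ofReal.comp (hw.comp continuous_snd)).mul
        (hf.comp (continuous_fst.mul continuous_snd))
    have h2 := continuous_parametric_integral_of_continuous (μ := μ) h1
      (isCompact_univ : IsCompact (Set.univ : Set K))
    simpa only [Measure.restrict_univ] using h2
  set B : ℝ := ∫ x, ‖(w x : ℂ)‖ ^ 2 ∂μ with hB
  -- bound for finite dimensional subspaces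
  set T : C(K, ℂ) →L[ℂ] Lp ℂ 2 μ := ContinuousMap.toLp 2 μ ℂ with hT
  have hTinj : Function.Injective T := ContinuousMap.toLp_injective μ
  have key : ∀ s : Finset F, LinearIndependent ℂ ((↑) : ↥(s : Set F) → F) →
      (s.card : ℝ) * (1 / 4) ≤ μ.real Set.univ * B := by
    intro s hs
    set v : ↥(s : Set F) → Lp ℂ 2 μ := fun i => T ((i : F) : C(K, ℂ)) with hv
    have hvl : LinearIndependent ℂ v := by
      have h1 : LinearIndependent ℂ (fun i : ↥(s : Set F) => (T.toLinearMap ∘ₗ F.subtype) (i : F)) :=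
        hs.map' (T.toLinearMap ∘ₗ F.subtype) (LinearMap.ker_eq_bot.mpr (by
          intro a b hab
          exact Subtype.ext (hTinj hab)))
      exact h1
    set G := Submodule.span ℂ (Set.range v) with hG
    have : FiniteDimensional ℂ G := FiniteDimensional.span_of_finite ℂ (Set.finite_range v)
    have hdim : Module.finrank ℂ G = s.card := by
      rw [hG, finrank_span_eq_card hvl]
      simp
    have hGF : ∀ g ∈ G, ∃ f ∈ F, T f = g := by
      have h1 : G ≤ F.map T.toLinearMap := by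
        rw [hG, Submodule.span_le]
        rintro _ ⟨i, rfl⟩
        exact ⟨((i : F) : C(K, ℂ)), (i : F).2, rfl⟩
      intro g hg
      obtain ⟨f, hf, hfg⟩ := h1 hg
      exact ⟨f, hf, hfg⟩
    let ob := stdOrthonormalBasis ℂ G
    have hob : Orthonormal ℂ (fun i => ((ob i : G) : Lp ℂ 2 μ)) :=
      ob.orthonormal.comp_linearIsometry G.subtypeₗᵢ
    choose φ hφF hφT using fun i => hGF (ob i) (ob i).2
    have hnorm : ∀ i, ∫ k, ‖φ i k‖ ^ 2 ∂μ = 1 := by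
      intro i
      have h1 : inner ℂ (T (φ i)) (T (φ i)) = (1 : ℂ) := by
        rw [hφT i, inner_self_eq_norm_sq_to_K, hob.1 i]
        simp
      rw [hT, ContinuousMap.inner_toLp] at h1
      have h2 : ∀ x, φ i x * conj (φ i x) = ((‖φ i x‖ ^ 2 : ℝ) : ℂ) := by
        intro x
        rw [Complex.mul_conj, Complex.normSq_eq_norm_sq]
      simp_rw [h2] at h1
      rw [integral_complex_ofReal] at h1
      exact_mod_cast h1
    have hbes : ∀ k, ∑ i, ‖∫ x, (w x : ℂ) * φ i (k * x) ∂μ‖ ^ 2 ≤ B := by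
      intro k
      let hk : C(K, ℂ) := ⟨fun y => (w (k⁻¹ * y) : ℂ),
        Complex.continuous_ofReal.comp (hw.comp (continuous_const.mul continuous_id))⟩
      have h1 := hob.sum_inner_products_le (T hk) (s := Finset.univ)
      have h2 : ∀ i, inner ℂ ((ob i : G) : Lp ℂ 2 μ) (T hk) =
          conj (∫ x, (w x : ℂ) * φ i (k * x) ∂μ) := by
        intro i
        rw [← hφT i, hT, ContinuousMap.inner_toLp, ← integral_conj]
        have h3 := integral_mul_left_eq_self (μ := μ)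
          (fun y => hk y * conj (φ i y)) k
        rw [← h3]
        refine integral_congr_ae (Filter.Eventually.of_forall fun x => ?_)
        show (w (k⁻¹ * (k * x)) : ℂ) * conj (φ i (k * x)) = conj ((w x : ℂ) * φ i (k * x))
        rw [inv_mul_cancel_left, map_mul (starRingEnd ℂ), Complex.conj_ofReal]
      have h4 : ‖T hk‖ ^ 2 = B := by
        have h5 : inner ℂ (T hk) (T hk) = ((‖T hk‖ ^ 2 : ℝ) : ℂ) := by
          rw [inner_self_eq_norm_sq_to_K]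
          push_cast
          rfl
        rw [hT, ContinuousMap.inner_toLp] at h5
        have h6 : ∀ x, hk x * conj (hk x) = ((‖hk x‖ ^ 2 : ℝ) : ℂ) := by
          intro x
          rw [Complex.mul_conj, Complex.normSq_eq_norm_sq]
        simp_rw [h6] at h5
        rw [integral_complex_ofReal] at h5
        have h7 : ∫ x, ‖hk x‖ ^ 2 ∂μ = B := by
          have h8 := integral_mul_left_eq_self (μ := μ) (fun y => ‖(w y : ℂ)‖ ^ 2) k⁻¹
          exact h8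
        rw [h7] at h5
        exact_mod_cast h5.symm
      rw [h4] at h1
      refine le_trans (le_of_eq ?_) h1
      refine Finset.sum_congr rfl fun i _ => ?_
      rw [h2 i, Complex.norm_conj]
    have hlow : ∀ i, 1 / 4 ≤ ∫ k, ‖∫ x, (w x : ℂ) * φ i (k * x) ∂μ‖ ^ 2 ∂μ := by
      intro i
      have h1 := B2_mean μ hw hw0 hw1 hwU (φ i).continuous (fun x hx => h x hx (φ i) (hφF i))
        (hAc _ (φ i).continuous)
      rwa [hnorm i, mul_one] at h1
    have hint : ∀ i ∈ (Finset.univ : Finset (Fin (Module.finrank ℂ G))),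
        Integrable (fun k => ‖∫ x, (w x : ℂ) * φ i (k * x) ∂μ‖ ^ 2) μ := fun i _ =>
      hI _ ((hAc _ (φ i).continuous).norm.pow 2)
    calc (s.card : ℝ) * (1 / 4) = ∑ i : Fin (Module.finrank ℂ G), (1 / 4 : ℝ) := by
          rw [Finset.sum_const, Finset.card_univ, Fintype.card_fin, hdim, nsmul_eq_mul]
      _ ≤ ∑ i : Fin (Module.finrank ℂ G), ∫ k, ‖∫ x, (w x : ℂ) * φ i (k * x) ∂μ‖ ^ 2 ∂μ :=
          Finset.sum_le_sum fun i _ => hlow i
      _ = ∫ k, ∑ i : Fin (Module.finrank ℂ G), ‖∫ x, (w x : ℂ) * φ i (k * x) ∂μ‖ ^ 2 ∂μ :=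
          (integral_finsetSum _ hint).symm
      _ ≤ ∫ k, B ∂μ := integral_mono (integrable_finsetSum _ hint) (integrable_const _) hbes
      _ = μ.real Set.univ * B := by rw [integral_const, smul_eq_mul]
  -- conclusion
  by_contra hnf
  rw [FiniteDimensional, ← Module.rank_lt_aleph0_iff, not_lt] at hnf
  obtain ⟨n, hn⟩ := exists_nat_gt (4 * (μ.real Set.univ * B))
  have h1 : (n : Cardinal) ≤ Module.rank ℂ F := (Cardinal.natCast_lt_aleph0 (n := n)).le.trans hnf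
  obtain ⟨s, hs, hli⟩ := le_rank_iff_exists_linearIndependent_finset.mp h1
  have h2 := key s hli
  rw [hs] at h2
  linarith

end Pool.Agent.RG
end

section

/-!
# D2a: orthogonality of the eigenspaces of the Casimir operator of `K`
-/

namespace Pool.Agent.RG

open MeasureTheory Topology Filter Set
open scoped InnerProductSpace

universe u v

/-- The operators `X_i`, `i ∈ kI`, are skew-symmetric for the form `⟪T u, T v⟫`. -/
def Ksk {G : Type u} {d : ℕ} (c : Core G d) {V : Type v} [AddCommGroup V] [Module ℂ V] {H : Type u}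
    [NormedAddCommGroup H] [InnerProductSpace ℂ H] (L : Ed d →ₗ[ℝ] (V →ₗ[ℂ] V))
    (T : V →ₗ[ℂ] H) : Prop :=
  ∀ i ∈ c.kI, ∀ u v : V, ⟪T (L (eb i) u), T v⟫_ℂ + ⟪T u, T (L (eb i) v)⟫_ℂ = 0

/-- PROOF. Let `i ∈ kI`. For every real `t` the element `k = ex (t • eb i)` lies in `K` (`hc.K_ex`), so
`M k = 1 = M k⁻¹` (`hc.M_K`, `hc.M_inv`) and `‖J (π k e)‖ ≤ ‖J e‖` and, applying this to `k⁻¹ = ex (-t • eb i)` and `π k e`,
`‖J e‖ ≤ ‖J (π k e)‖`; hence `‖J (π k e)‖ = ‖J e‖` for all `e`. By polarization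
(`inner_eq_sum_norm_sq_div_four` or the isometry property) `⟪J π k e, J π k e'⟫ = ⟪J e, J e'⟫`. So
`t ↦ ⟪J (π (ex (t • eb i)) (ι u)), J (π (ex (t • eb i)) (ι v))⟫` is constant; its derivative at `0` is
`⟪J (ι (L (eb i) u)), J (ι v)⟫ + ⟪J (ι u), J (ι (L (eb i) v))⟫` by `R.der` (use `HasDerivAt.inner`), so this is `0`
(`HasDerivAt.unique` with `hasDerivAt_const`). -/
theorem Cal.ksk {G : Type u} [Group G] [TopologicalSpace G] {d : ℕ} {c : Core G d} {A : ℕ}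
    (hc : IsCore c) (R : Cal.{u, v} c A) : Ksk c R.L (R.J.toLinearMap.comp R.ι) := by
  intro i hi u v
  have hn : ∀ (t : ℝ) (e : R.E), ‖R.J (R.π (c.ex (t • eb i)) e)‖ = ‖R.J e‖ := by
    intro t e
    have hk := hc.K_ex i hi t
    have h1 := R.temp (c.ex (t • eb i)) e
    rw [hc.M_K _ hk, one_pow, one_mul] at h1
    have hk' := hc.K_inv _ hk
    have h2 := R.temp (c.ex (t • eb i))⁻¹ (R.π (c.ex (t • eb i)) e)
    rw [hc.M_K _ hk', one_pow, one_mul, ← R.mul, inv_mul_cancel, R.one] at h2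
    exact le_antisymm h1 h2
  have hin : ∀ (t : ℝ) (e e' : R.E),
      ⟪R.J (R.π (c.ex (t • eb i)) e), R.J (R.π (c.ex (t • eb i)) e')⟫_ℂ =
        ⟪R.J e, R.J e'⟫_ℂ := by
    intro t e e'
    rw [inner_eq_sum_norm_sq_div_four, inner_eq_sum_norm_sq_div_four]
    simp only [← map_add, ← map_sub, ← map_smul, hn]
  have h0 : c.ex ((0 : ℝ) • eb i) = 1 := by
    have h := hc.ex_add (eb i) 0 0
    rw [add_zero] at h
    exact left_eq_mul.1 h
  have hd : ∀ w : R.V, HasDerivAt (fun t : ℝ => R.J (R.π (c.ex (t • eb i)) (R.ι w)))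
      (R.J (R.ι (R.L (eb i) w))) 0 := fun w =>
    (R.J.restrictScalars ℝ).hasFDerivAt.comp_hasDerivAt (0 : ℝ) (R.der (eb i) w)
  have h1 := (hd u).inner ℂ (hd v)
  have h2 : HasDerivAt (fun t : ℝ => ⟪R.J (R.π (c.ex (t • eb i)) (R.ι u)),
      R.J (R.π (c.ex (t • eb i)) (R.ι v))⟫_ℂ) 0 0 := by
    simp only [hin]
    exact hasDerivAt_const _ _
  have h3 := h1.unique h2
  rw [h0, R.one, R.one] at h3
  show ⟪R.J (R.ι (R.L (eb i) u)), R.J (R.ι v)⟫_ℂ + ⟪R.J (R.ι u), R.J (R.ι (R.L (eb i) v))⟫_ℂ = 0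
  rw [add_comm]
  exact h3

variable {G : Type u} {d : ℕ} {c : Core G d} {V : Type v} [AddCommGroup V] [Module ℂ V]
  {H : Type u} [NormedAddCommGroup H] [InnerProductSpace ℂ H] {L : Ed d →ₗ[ℝ] (V →ₗ[ℂ] V)}
  {T : V →ₗ[ℂ] H}

/-- PROOF. `casK c L = -Σ_{i ∈ kI} X_i X_i`; move `X_i` twice to the other side with `Ksk`. -/
theorem Ksk.symm (h : Ksk c L T) (u v : V) :
    ⟪T (casK c L u), T v⟫_ℂ = ⟪T u, T (casK c L v)⟫_ℂ := by
  have h1 : ∀ i ∈ c.kI, ⟪T (L (eb i) (L (eb i) u)), T v⟫_ℂ =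
      ⟪T u, T (L (eb i) (L (eb i) v))⟫_ℂ := fun i hi => by
    have a1 := h i hi (L (eb i) u) v
    have a2 := h i hi u (L (eb i) v)
    linear_combination a1 - a2
  unfold casK
  simp only [LinearMap.neg_apply, LinearMap.sum_apply, LinearMap.comp_apply, map_neg, map_sum,
    inner_neg_left, inner_neg_right, sum_inner, inner_sum]
  rw [Finset.sum_congr rfl h1]

/-- PROOF. `⟪T (casK c L v), T v⟫ = -Σ ⟪T X_i X_i v, T v⟫ = Σ ⟪T X_i v, T X_i v⟫`. -/
theorem Ksk.energy (h : Ksk c L T) (v : V) :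
    ⟪T (casK c L v), T v⟫_ℂ = ((∑ i ∈ c.kI, ‖T (L (eb i) v)‖ ^ 2 : ℝ) : ℂ) := by
  have h1 : ∀ i ∈ c.kI, ⟪T (L (eb i) (L (eb i) v)), T v⟫_ℂ =
      -((‖T (L (eb i) v)‖ ^ 2 : ℝ) : ℂ) := fun i hi => by
    have a1 := h i hi (L (eb i) v) v
    have a2 := inner_self_eq_norm_sq_to_K (𝕜 := ℂ) (T (L (eb i) v))
    rw [a2] at a1
    push_cast
    exact eq_neg_of_add_eq_zero_left a1
  unfold casK
  simp only [LinearMap.neg_apply, LinearMap.sum_apply, LinearMap.comp_apply, map_neg, map_sum,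
    inner_neg_left, sum_inner]
  rw [Finset.sum_congr rfl h1, Finset.sum_neg_distrib, neg_neg]
  push_cast
  rfl

/-- MULTIPLIERS. `f` gives finitely many eigenvectors `f r` of `casK` for the real eigenvalues `r`; if
`|a r| ≤ |b r|` then `‖T Σ a_r f_r‖ ≤ ‖T Σ b_r f_r‖`.
PROOF. For `r ≠ s`: `r ⟪T f_r, T f_s⟫ = ⟪T casK f_r, T f_s⟫ = ⟪T f_r, T casK f_s⟫ = s ⟪T f_r, T f_s⟫` (real `r, s`; `Ksk.symm`), so
`⟪T f_r, T f_s⟫ = 0`. By Pythagoras `‖T Σ a_r f_r‖^2 = Σ |a_r|^2 ‖T f_r‖^2`. -/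
theorem Ksk.mult_le (h : Ksk c L T) (f : ℝ →₀ V) (hf : ∀ r : ℝ, casK c L (f r) = (r : ℂ) • f r)
    (a b : ℝ → ℝ) (hab : ∀ r ∈ f.support, |a r| ≤ |b r|) :
    ‖T (f.sum fun r x => (a r : ℂ) • x)‖ ≤ ‖T (f.sum fun r x => (b r : ℂ) • x)‖ := by
  have hort : ∀ r s : ℝ, r ≠ s → ⟪T (f r), T (f s)⟫_ℂ = 0 := by
    intro r s hrs
    have h1 := h.symm (f r) (f s)
    rw [hf, hf, map_smul, map_smul, inner_smul_left, inner_smul_right, Complex.conj_ofReal] at h1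
    have h2 : ((r : ℂ) - s) * ⟪T (f r), T (f s)⟫_ℂ = 0 := by linear_combination h1
    rcases mul_eq_zero.1 h2 with h3 | h3
    · exact absurd (by exact_mod_cast sub_eq_zero.1 h3) hrs
    · exact h3
  have key : ∀ a : ℝ → ℝ, ‖T (f.sum fun r x => (a r : ℂ) • x)‖ ^ 2 =
      ∑ r ∈ f.support, |a r| ^ 2 * ‖T (f r)‖ ^ 2 := by
    intro a
    have h1 := inner_self_eq_norm_sq_to_K (𝕜 := ℂ) (T (f.sum fun r x => (a r : ℂ) • x))
    have h2 : ⟪T (f.sum fun r x => (a r : ℂ) • x), T (f.sum fun r x => (a r : ℂ) • x)⟫_ℂ =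
        ((∑ r ∈ f.support, |a r| ^ 2 * ‖T (f r)‖ ^ 2 : ℝ) : ℂ) := by
      unfold Finsupp.sum
      rw [map_sum, sum_inner]
      push_cast
      refine Finset.sum_congr rfl fun r hr => ?_
      rw [inner_sum, Finset.sum_eq_single r]
      · rw [map_smul, inner_smul_left, inner_smul_right, Complex.conj_ofReal,
          inner_self_eq_norm_sq_to_K, ← mul_assoc, ← Complex.ofReal_mul, ← abs_mul_abs_self]
        push_cast
        simp only [sq]
        rfl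
      · intro s _ hs
        rw [map_smul, map_smul, inner_smul_left, inner_smul_right, hort r s (Ne.symm hs)]
        ring
      · intro hr'
        exact absurd hr hr'
    rw [h2] at h1
    have h3 : ((‖T (f.sum fun r x => (a r : ℂ) • x)‖ ^ 2 : ℝ) : ℂ) =
      ((∑ r ∈ f.support, |a r| ^ 2 * ‖T (f r)‖ ^ 2 : ℝ) : ℂ) := by
      rw [h1]
      push_cast
      rfl
    exact_mod_cast h3
  refine (sq_le_sq₀ (norm_nonneg _) (norm_nonneg _)).1 ?_
  rw [key, key]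
  refine Finset.sum_le_sum fun r hr => mul_le_mul_of_nonneg_right ?_ (sq_nonneg _)
  exact pow_le_pow_left₀ (abs_nonneg _) (hab r hr) 2

end Pool.Agent.RG
end

section

/-!
# D1a: the energy estimate for a tempered map
-/

namespace Pool.Agent.RG

open MeasureTheory Topology Filter Set
open scoped InnerProductSpace

universe u v

variable {G : Type u} [Group G] [TopologicalSpace G] {d : ℕ} {c : Core G d} {A : ℕ}

private theorem D1a_ex_zero (hc : IsCore c) : c.ex 0 = 1 := by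
  have h := hc.ex_add 0 0 0
  simp only [add_zero, zero_smul] at h
  exact (mul_eq_left.mp h.symm)

private theorem D1a_up (hc : IsCore c) (R : Cal.{u, v} c A) (Y : Ed d) (v : R.V) :
    (⟪R.J (R.ι v), R.J (R.ι (R.L Y v))⟫_ℂ).re ≤ A * ‖Y‖ * ‖R.J (R.ι v)‖ ^ 2 := by
  set x : R.H := R.J (R.ι v) with hx
  set y : R.H := R.J (R.ι (R.L Y v)) with hy
  have hder : HasDerivAt (fun t : ℝ => R.J (R.π (c.ex (t • Y)) (R.ι v))) y 0 :=
    ((R.J).restrictScalars ℝ).hasFDerivAt.comp_hasDerivAt (0 : ℝ) (R.der Y v)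
  let _ : InnerProductSpace ℝ R.H := InnerProductSpace.rclikeToReal ℂ R.H
  have hval : R.J (R.π (c.ex ((0 : ℝ) • Y)) (R.ι v)) = x := by
    rw [zero_smul, D1a_ex_zero hc, R.one]
  have hf : HasDerivAt (fun t : ℝ => ‖R.J (R.π (c.ex (t • Y)) (R.ι v))‖ ^ 2)
      (2 * ⟪x, y⟫_ℝ) 0 := by
    have h := hder.norm_sq
    rw [hval] at h
    exact h
  have hre : ⟪x, y⟫_ℝ = (⟪x, y⟫_ℂ).re := rfl
  -- the upper bound `g`
  have hg : HasDerivAt (fun t : ℝ => Real.exp (2 * A * ‖Y‖ * t) * ‖x‖ ^ 2)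
      (2 * A * ‖Y‖ * ‖x‖ ^ 2) 0 := by
    have h1 : HasDerivAt (fun t : ℝ => 2 * A * ‖Y‖ * t) (2 * A * ‖Y‖) 0 := by
      simpa using (hasDerivAt_id (0 : ℝ)).const_mul (2 * A * ‖Y‖ : ℝ)
    have h2 := (h1.exp).mul_const (‖x‖ ^ 2)
    simpa using h2
  have hle : ∀ t : ℝ, 0 ≤ t → ‖R.J (R.π (c.ex (t • Y)) (R.ι v))‖ ^ 2 ≤
      Real.exp (2 * A * ‖Y‖ * t) * ‖x‖ ^ 2 := by
    intro t ht
    have h1 := R.temp (c.ex (t • Y)) (R.ι v)
    have h2 : c.M (c.ex (t • Y)) ^ A ≤ Real.exp (A * ‖Y‖ * t) := by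
      have h3 := hc.M_ex (t • Y)
      have h4 : (0 : ℝ) ≤ c.M (c.ex (t • Y)) := zero_le_one.trans (hc.M_ge _)
      calc c.M (c.ex (t • Y)) ^ A ≤ (Real.exp ‖t • Y‖) ^ A := pow_le_pow_left₀ h4 h3 A
        _ = Real.exp (A * ‖Y‖ * t) := by
          rw [← Real.exp_nat_mul, norm_smul, Real.norm_of_nonneg ht]
          congr 1
          ring
    have h5 : ‖R.J (R.π (c.ex (t • Y)) (R.ι v))‖ ≤ Real.exp (A * ‖Y‖ * t) * ‖x‖ :=
      h1.trans (mul_le_mul_of_nonneg_right h2 (norm_nonneg _))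
    calc ‖R.J (R.π (c.ex (t • Y)) (R.ι v))‖ ^ 2 ≤ (Real.exp (A * ‖Y‖ * t) * ‖x‖) ^ 2 :=
          pow_le_pow_left₀ (norm_nonneg _) h5 2
      _ = Real.exp (2 * A * ‖Y‖ * t) * ‖x‖ ^ 2 := by
          rw [mul_pow, ← Real.exp_nat_mul]
          congr 2
          push_cast
          ring
  -- the difference `g - f` is nonnegative for `t ≥ 0` and vanishes at `0`
  have hd : HasDerivAt (fun t : ℝ => Real.exp (2 * A * ‖Y‖ * t) * ‖x‖ ^ 2 -
      ‖R.J (R.π (c.ex (t • Y)) (R.ι v))‖ ^ 2) (2 * A * ‖Y‖ * ‖x‖ ^ 2 - 2 * ⟪x, y⟫_ℝ) 0 :=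
    hg.sub hf
  have hnn : 0 ≤ 2 * A * ‖Y‖ * ‖x‖ ^ 2 - 2 * ⟪x, y⟫_ℝ := by
    have ht := hd.tendsto_slope_zero_right
    refine ge_of_tendsto ht ?_
    filter_upwards [self_mem_nhdsWithin] with t ht
    have ht' : (0 : ℝ) < t := ht
    have h0 : Real.exp (2 * A * ‖Y‖ * 0) * ‖x‖ ^ 2 -
      ‖R.J (R.π (c.ex ((0 : ℝ) • Y)) (R.ι v))‖ ^ 2 = 0 := by
      rw [hval]; simp
    rw [h0, sub_zero, zero_add, smul_eq_mul]
    exact mul_nonneg (inv_nonneg.mpr ht'.le) (sub_nonneg.mpr (hle t ht'.le))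
  rw [hre] at hnn
  linarith

/-- First order: the real part of `⟨J X v, J v⟩` is bounded.
PROOF. Put `f t = ‖J (π (ex (t • Y)) (ι v))‖^2`. By `R.der Y v` and continuity of `J` the curve
`t ↦ J (π (ex (t • Y)) (ι v))` has derivative `J (ι (L Y v))` at `0`, so `f` has derivative
`2 Re ⟪J (ι v), J (ι (L Y v))⟫` at `0` (`HasDerivAt.norm_sq` or `HasDerivAt.inner` over `ℝ`; use
`ex 0 = 1`, `R.one`; `ex 0 = 1` follows from `ex_add 0 0`). By `R.temp` and `hc.M_ex`,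
`f t ≤ g t := exp (2 * A * |t| * ‖Y‖) * ‖J (ι v)‖^2`, with equality at `t = 0`.
So for `t > 0`: `(f t - f 0)/t ≤ (exp(2 A t ‖Y‖) - 1)/t * ‖J ι v‖^2`; let `t → 0+`: `f'(0) ≤ 2 A ‖Y‖ ‖J ι v‖^2`.
Apply this to `-Y` for the lower bound (`L (-Y) = - L Y`). -/
theorem re_inner_le (hc : IsCore c) (R : Cal.{u, v} c A) (Y : Ed d) (v : R.V) :
    |(⟪R.J (R.ι v), R.J (R.ι (R.L Y v))⟫_ℂ).re| ≤ A * ‖Y‖ * ‖R.J (R.ι v)‖ ^ 2 := by
  rw [abs_le]
  constructor
  · have h := D1a_up hc R (-Y) v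
    rw [map_neg, LinearMap.neg_apply, map_neg, map_neg, inner_neg_right, Complex.neg_re,
      norm_neg] at h
    linarith
  · exact D1a_up hc R Y v

private theorem D1a_opt {X a p r : ℝ} (ha : 0 ≤ a) (hp : 0 ≤ p) (hr : 0 ≤ r)
    (h : ∀ t : ℝ, 0 < t → X ≤ a * (t ^ 2 * p ^ 2 + (t⁻¹) ^ 2 * r ^ 2)) : X ≤ 2 * a * p * r := by
  have key : ∀ ε : ℝ, 0 < ε → X ≤ 2 * a * (p + ε) * (r + ε) := by
    intro ε hε
    have hp' : 0 < p + ε := by linarith
    have hr' : 0 < r + ε := by linarith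
    set t := Real.sqrt ((r + ε) / (p + ε)) with ht
    have htpos : 0 < t := Real.sqrt_pos.mpr (div_pos hr' hp')
    have ht2 : t ^ 2 = (r + ε) / (p + ε) := Real.sq_sqrt (div_pos hr' hp').le
    have h1 := h t htpos
    rw [inv_pow, ht2, inv_div] at h1
    have h2 : (r + ε) / (p + ε) * p ^ 2 ≤ (p + ε) * (r + ε) := by
      have h3 : p ^ 2 ≤ (p + ε) ^ 2 := by nlinarith
      calc (r + ε) / (p + ε) * p ^ 2 ≤ (r + ε) / (p + ε) * (p + ε) ^ 2 :=
            mul_le_mul_of_nonneg_left h3 (div_pos hr' hp').le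
        _ = (p + ε) * (r + ε) := by field_simp
    have h4 : (p + ε) / (r + ε) * r ^ 2 ≤ (p + ε) * (r + ε) := by
      have h3 : r ^ 2 ≤ (r + ε) ^ 2 := by nlinarith
      calc (p + ε) / (r + ε) * r ^ 2 ≤ (p + ε) / (r + ε) * (r + ε) ^ 2 :=
            mul_le_mul_of_nonneg_left h3 (div_pos hp' hr').le
        _ = (p + ε) * (r + ε) := by field_simp
    have h5 : a * ((r + ε) / (p + ε) * p ^ 2 + (p + ε) / (r + ε) * r ^ 2) ≤
        a * ((p + ε) * (r + ε) + (p + ε) * (r + ε)) :=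
      mul_le_mul_of_nonneg_left (add_le_add h2 h4) ha
    linarith
  have hc : Tendsto (fun ε : ℝ => 2 * a * (p + ε) * (r + ε)) (𝓝[>] 0)
      (𝓝 (2 * a * (p + 0) * (r + 0))) := by
    have : Continuous (fun ε : ℝ => 2 * a * (p + ε) * (r + ε)) := by fun_prop
    exact this.continuousAt.tendsto.mono_left nhdsWithin_le_nhds
  rw [add_zero, add_zero] at hc
  refine ge_of_tendsto hc ?_
  filter_upwards [self_mem_nhdsWithin] with ε hε
  exact key ε hε

private theorem D1a_re {V H : Type*} [AddCommGroup V] [Module ℂ V] [NormedAddCommGroup H]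
    [InnerProductSpace ℂ H] (T : V →ₗ[ℂ] H) (L : V →ₗ[ℂ] V) {a : ℝ}
    (h : ∀ x : V, |(⟪T x, T (L x)⟫_ℂ).re| ≤ a * ‖T x‖ ^ 2) (u w : V) :
    (⟪T (L u), T w⟫_ℂ + ⟪T u, T (L w)⟫_ℂ).re ≤ a * (‖T u‖ ^ 2 + ‖T w‖ ^ 2) := by
  have e1 : (⟪T (L u), T w⟫_ℂ).re = (⟪T w, T (L u)⟫_ℂ).re := inner_re_symm (𝕜 := ℂ) _ _
  have hp := (abs_le.mp (h (u + w))).2
  have hm := (abs_le.mp (h (u - w))).1
  simp only [map_add, map_sub, inner_add_left, inner_add_right, inner_sub_left, inner_sub_right,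
    Complex.add_re, Complex.sub_re] at hp hm
  have hpar := parallelogram_law_with_norm ℂ (T u) (T w)
  have hpar' : a * ‖T u + T w‖ ^ 2 + a * ‖T u - T w‖ ^ 2 =
      a * (2 * (‖T u‖ ^ 2 + ‖T w‖ ^ 2)) := by
    rw [← mul_add, hpar]
  rw [Complex.add_re, e1]
  linarith

private theorem D1a_abs {V H : Type*} [AddCommGroup V] [Module ℂ V] [NormedAddCommGroup H]
    [InnerProductSpace ℂ H] (T : V →ₗ[ℂ] H) (L : V →ₗ[ℂ] V) {a : ℝ} (ha : 0 ≤ a)
    (h : ∀ x : V, |(⟪T x, T (L x)⟫_ℂ).re| ≤ a * ‖T x‖ ^ 2) (u w : V) :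
    ‖⟪T (L u), T w⟫_ℂ + ⟪T u, T (L w)⟫_ℂ‖ ≤ a * (‖T u‖ ^ 2 + ‖T w‖ ^ 2) := by
  set B := ⟪T (L u), T w⟫_ℂ + ⟪T u, T (L w)⟫_ℂ with hB
  by_cases h0 : B = 0
  · rw [h0, norm_zero]
    positivity
  · have hn : (‖B‖ : ℂ) ≠ 0 := by
      exact_mod_cast norm_ne_zero_iff.mpr h0
    set θ : ℂ := (starRingEnd ℂ) B / ‖B‖ with hθ
    have hθn : ‖θ‖ = 1 := by
      rw [hθ, norm_div, RCLike.norm_conj, Complex.norm_real, norm_norm,
        div_self (norm_ne_zero_iff.mpr h0)]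
    have hθB : θ * B = (‖B‖ : ℂ) := by
      rw [hθ, div_mul_eq_mul_div, ← Complex.normSq_eq_conj_mul_self, Complex.normSq_eq_norm_sq]
      push_cast
      field_simp
    have h1 := D1a_re T L h u (θ • w)
    have h2 : ⟪T (L u), T (θ • w)⟫_ℂ + ⟪T u, T (L (θ • w))⟫_ℂ = (‖B‖ : ℂ) := by
      rw [map_smul, map_smul, map_smul, inner_smul_right, inner_smul_right, ← mul_add, ← hB, hθB]
    rw [h2, Complex.ofReal_re, map_smul, norm_smul, hθn, one_mul] at h1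
    exact h1

/-- Polarization.
PROOF. Put `T w = J (ι w)` (ℂ-linear) and `H(u,w) = ⟪T (L Y u), T w⟫ + ⟪T u, T (L Y w)⟫`; this is
sesquilinear and hermitian, and `H(w,w) = 2 Re ⟪T w, T (L Y w)⟫`, so `|H(w,w)| ≤ 2 A ‖Y‖ ‖T w‖^2` by
`re_inner_le`. Polarization: `4 H(u,w)` is the sum over `k = 0,1,2,3` of `i^k H(u + i^k w, u + i^k w)` up to
conjugating the coefficients (check the convention: `inner` is conjugate linear in the first variable), so
`|H(u,w)| ≤ (1/4) 2 A ‖Y‖ Σ_k ‖T u + i^k T w‖^2 = 2 A ‖Y‖ (‖T u‖^2 + ‖T w‖^2)` (parallelogram law twice).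
Replace `u` by `s u` and `w` by `s⁻¹ w` (`s > 0` real): `|H(u,w)| ≤ 2 A ‖Y‖ (s^2 ‖T u‖^2 + s^-2 ‖T w‖^2)` for all `s > 0`;
if both norms are positive take `s^2 = ‖T w‖ / ‖T u‖`; if one of them vanishes let `s → 0` or `s → ∞` (then `H = 0`). -/
theorem polar_le (hc : IsCore c) (R : Cal.{u, v} c A) (Y : Ed d) (u w : R.V) :
    ‖⟪R.J (R.ι (R.L Y u)), R.J (R.ι w)⟫_ℂ + ⟪R.J (R.ι u), R.J (R.ι (R.L Y w))⟫_ℂ‖ ≤
      4 * A * ‖Y‖ * ‖R.J (R.ι u)‖ * ‖R.J (R.ι w)‖ := by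
  let T : R.V →ₗ[ℂ] R.H := R.J.toLinearMap.comp R.ι
  have ha : (0 : ℝ) ≤ A * ‖Y‖ := by positivity
  have hT : ∀ x : R.V, |(⟪T x, T (R.L Y x)⟫_ℂ).re| ≤ A * ‖Y‖ * ‖T x‖ ^ 2 :=
    fun x => re_inner_le hc R Y x
  have key : ∀ t : ℝ, 0 < t → ‖⟪T (R.L Y u), T w⟫_ℂ + ⟪T u, T (R.L Y w)⟫_ℂ‖ ≤
      A * ‖Y‖ * (t ^ 2 * ‖T u‖ ^ 2 + (t⁻¹) ^ 2 * ‖T w‖ ^ 2) := by
    intro t ht
    have h1 := D1a_abs T (R.L Y) ha hT ((t : ℂ) • u) (((t⁻¹ : ℝ) : ℂ) • w)
    have htc : (t : ℂ) ≠ 0 := by exact_mod_cast ht.ne'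
    have h2 : ⟪T (R.L Y ((t : ℂ) • u)), T (((t⁻¹ : ℝ) : ℂ) • w)⟫_ℂ +
        ⟪T ((t : ℂ) • u), T (R.L Y (((t⁻¹ : ℝ) : ℂ) • w))⟫_ℂ =
        ⟪T (R.L Y u), T w⟫_ℂ + ⟪T u, T (R.L Y w)⟫_ℂ := by
      simp only [map_smul, inner_smul_left, inner_smul_right, Complex.conj_ofReal]
      push_cast
      field_simp
    rw [h2] at h1
    simp only [map_smul, norm_smul, Complex.norm_real, Real.norm_of_nonneg ht.le,
      Real.norm_of_nonneg (inv_pos.mpr ht).le, mul_pow] at h1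
    exact h1
  have h3 := D1a_opt ha (norm_nonneg (T u)) (norm_nonneg (T w)) key
  have h4 : 0 ≤ A * ‖Y‖ * ‖T u‖ * ‖T w‖ := by positivity
  calc ‖⟪R.J (R.ι (R.L Y u)), R.J (R.ι w)⟫_ℂ + ⟪R.J (R.ι u), R.J (R.ι (R.L Y w))⟫_ℂ‖
      ≤ 2 * (A * ‖Y‖) * ‖T u‖ * ‖T w‖ := h3
    _ ≤ 4 * A * ‖Y‖ * ‖T u‖ * ‖T w‖ := by nlinarith [h4]

end Pool.Agent.RG
end

section

/-!
# H3: the recursion
-/

namespace Pool.Agent.RG

open MeasureTheory Topology Filter Set

universe u v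

/-- A seminorm on a finite dimensional space is bounded by every norm. -/
theorem H3_bound' {U : Type v} [AddCommGroup U] [Module ℂ U] [FiniteDimensional ℂ U]
    (P Q : Seminorm ℂ U) (hQ : ∀ v, Q v = 0 → v = 0) :
    ∃ C : ℝ, 0 ≤ C ∧ ∀ v, P v ≤ C * Q v := by
  let nU : Norm U := ⟨fun x => Q x⟩
  have core : NormedSpace.Core ℂ U :=
    { norm_nonneg := fun x => apply_nonneg Q x
      norm_smul := fun c x => map_smul_eq_mul Q c x
      norm_triangle := fun x y => map_add_le_add Q x y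
      norm_eq_zero_iff := fun x => ⟨fun h => hQ _ h, fun h => by
        show Q x = 0
        rw [h]
        exact map_zero Q⟩ }
  let _ : NormedAddCommGroup U := NormedAddCommGroup.ofCore core
  let _ : NormedSpace ℂ U := NormedSpace.ofCore core
  let b := Module.finBasis ℂ U
  let f : U →L[ℂ] (Fin (Module.finrank ℂ U) → ℂ) :=
    LinearMap.toContinuousLinearMap b.equivFun.toLinearMap
  refine ⟨(∑ i, P (b i)) * ‖f‖, mul_nonneg (Finset.sum_nonneg fun i _ => apply_nonneg P _)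
    (norm_nonneg _), fun v => ?_⟩
  have h1 : v = ∑ i, b.equivFun v i • b i := (b.sum_equivFun v).symm
  have h2 : ∀ i, ‖b.equivFun v i‖ ≤ ‖f‖ * Q v := by
    intro i
    have e1 : ‖b.equivFun v i‖ ≤ ‖f v‖ := norm_le_pi_norm (f v) i
    exact e1.trans (f.le_opNorm v)
  have h3 : P v ≤ ∑ i, ‖b.equivFun v i‖ * P (b i) := by
    conv_lhs => rw [h1]
    refine (Finset.le_sum_of_subadditive P (map_zero P).le (map_add_le_add P) _ _).trans ?_
    exact Finset.sum_le_sum fun i _ => (map_smul_eq_mul P _ _).le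
  refine h3.trans ?_
  rw [Finset.sum_mul, Finset.sum_mul]
  refine Finset.sum_le_sum fun i _ => ?_
  have := mul_le_mul_of_nonneg_right (h2 i) (apply_nonneg P (b i))
  linarith

/-- A seminorm on a finite dimensional subspace is bounded by every norm. -/
theorem H3_bound {V : Type v} [AddCommGroup V] [Module ℂ V] (U : Submodule ℂ V)
    [FiniteDimensional ℂ U] (P Q : Seminorm ℂ V) (hQ : ∀ v, Q v = 0 → v = 0) :
    ∃ C : ℝ, 0 ≤ C ∧ ∀ v ∈ U, P v ≤ C * Q v := by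
  obtain ⟨C, hC, h⟩ := H3_bound' (P.comp U.subtype) (Q.comp U.subtype)
    (fun v hv => Subtype.ext (hQ _ hv))
  exact ⟨C, hC, fun v hv => h ⟨v, hv⟩⟩

/-- POLYNOMIAL GROWTH of `P/Q` on `Vle (2^j)`, abstract form.
PROOF. On the finite dimensional space `U_j = Vle T (2^j)` the seminorm `Q` is a norm (`hQ`), so there is a constant `C` with `P v ≤ C Q v` on `U_j`; let `Φ_j` be the infimum of these (nonnegative) constants; `P v ≤ Φ_j Q v` on `U_j`. Let `2^(j+1) ≥ n₁` and `u ∈ U_{j+1}`. With the data from `hs` (`n = 2^(j+1)`, `n/2 = 2^j`), `u = r + Σ p_j`: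
`P u ≤ Σ_i a_i P (w_i) + P r ≤ Φ_j Σ a_i Q (w_i) + Φ_{j+1} Q r ≤ (C₂ Φ_j + Φ_{j+1}/4) Q u`. Hence `Φ_{j+1} ≤ C₂ Φ_j + Φ_{j+1}/4`, `Φ_{j+1} ≤ 2 C₂ Φ_j ≤ (2 C₂ + 1) Φ_j` for `j ≥ j₁`. Therefore `Φ_j ≤ C (2 C₂ + 1)^j` with `C = max_{i ≤ j₁} Φ_i`. -/
theorem growth {V : Type v} [AddCommGroup V] [Module ℂ V] (T : V →ₗ[ℂ] V)
    (hfin : ∀ R : ℝ, FiniteDimensional ℂ (Vle T R)) (P Q : Seminorm ℂ V)
    (hQ : ∀ v, Q v = 0 → v = 0) (C₂ n₁ : ℝ) (hC : 0 ≤ C₂)
    (hs : ∀ n : ℝ, n₁ ≤ n → ∀ u ∈ Vle T n, ∃ (q : ℕ) (a : Fin q → ℝ) (w s : Fin q → V),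
      (∀ j, 0 ≤ a j) ∧ (∀ j, w j ∈ Vle T (n / 2)) ∧ (∀ j, s j ∈ Vle T n) ∧
      (∀ j, P (s j) ≤ a j * P (w j)) ∧ (∑ j, a j * Q (w j) ≤ C₂ * Q u) ∧
      Q (u - ∑ j, s j) ≤ 1 / 4 * Q u) :
    ∃ C : ℝ, 0 ≤ C ∧ ∀ j : ℕ, ∀ v ∈ Vle T (2 ^ j), P v ≤ C * (2 * C₂ + 1) ^ j * Q v := by
  classical
  let S : ℕ → Set ℝ := fun j => {C : ℝ | 0 ≤ C ∧ ∀ v ∈ Vle T (2 ^ j), P v ≤ C * Q v}
  have hne : ∀ j, (S j).Nonempty := by
    intro j
    have := hfin (2 ^ j)
    obtain ⟨C, hC, h⟩ := H3_bound (Vle T (2 ^ j)) P Q hQ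
    exact ⟨C, hC, h⟩
  have hbdd : ∀ j, BddBelow (S j) := fun j => ⟨0, fun C hC => hC.1⟩
  let Φ : ℕ → ℝ := fun j => sInf (S j)
  have hΦ0 : ∀ j, 0 ≤ Φ j := fun j => le_csInf (hne j) fun C hC => hC.1
  have hΦ : ∀ j, ∀ v ∈ Vle T (2 ^ j), P v ≤ Φ j * Q v := by
    intro j v hv
    rcases (apply_nonneg Q v).eq_or_lt with h | h
    · have : v = 0 := hQ v h.symm
      rw [this, map_zero, map_zero, mul_zero]
    · rw [← div_le_iff₀ h]
      refine le_csInf (hne j) fun C hC => ?_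
      rw [div_le_iff₀ h]
      exact hC.2 v hv
  have hΦle : ∀ j, ∀ C ∈ S j, Φ j ≤ C := fun j C hC => csInf_le (hbdd j) hC
  have hstep : ∀ j : ℕ, n₁ ≤ 2 ^ (j + 1) → Φ (j + 1) ≤ (2 * C₂ + 1) * Φ j := by
    intro j hj
    have hmem : C₂ * Φ j + Φ (j + 1) / 4 ∈ S (j + 1) := by
      refine ⟨add_nonneg (mul_nonneg hC (hΦ0 j)) (div_nonneg (hΦ0 _) (by norm_num)),
        fun u hu => ?_⟩
      obtain ⟨q, a, w, s, ha, hw, hs1, hPs, hsum, hr⟩ := hs (2 ^ (j + 1)) hj u hu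
      have hw' : ∀ i, w i ∈ Vle T (2 ^ j) := by
        intro i
        have e : (2 : ℝ) ^ (j + 1) / 2 = 2 ^ j := by
          rw [pow_succ]
          ring
        have := hw i
        rwa [e] at this
      have hrm : u - ∑ i, s i ∈ Vle T (2 ^ (j + 1)) :=
        Submodule.sub_mem _ hu (Submodule.sum_mem _ fun i _ => hs1 i)
      have h1 : P u ≤ P (u - ∑ i, s i) + ∑ i, P (s i) := by
        have e : u = (u - ∑ i, s i) + ∑ i, s i := by abel
        calc P u = P ((u - ∑ i, s i) + ∑ i, s i) := by rw [← e]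
          _ ≤ P (u - ∑ i, s i) + P (∑ i, s i) := map_add_le_add P _ _
          _ ≤ P (u - ∑ i, s i) + ∑ i, P (s i) := 
            add_le_add le_rfl (Finset.le_sum_of_subadditive P (map_zero P).le (map_add_le_add P) _ _)
      have h2 : P (u - ∑ i, s i) ≤ Φ (j + 1) * (1 / 4 * Q u) :=
        (hΦ _ _ hrm).trans (mul_le_mul_of_nonneg_left hr (hΦ0 _))
      have h3 : ∑ i, P (s i) ≤ Φ j * (C₂ * Q u) := by
        calc ∑ i, P (s i) ≤ ∑ i, Φ j * (a i * Q (w i)) := by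
              refine Finset.sum_le_sum fun i _ => (hPs i).trans ?_
              have := mul_le_mul_of_nonneg_left (hΦ _ _ (hw' i)) (ha i)
              linarith
          _ = Φ j * ∑ i, a i * Q (w i) := by rw [Finset.mul_sum]
          _ ≤ Φ j * (C₂ * Q u) := mul_le_mul_of_nonneg_left hsum (hΦ0 j)
      linarith
    have h1 := hΦle _ _ hmem
    have h2 := hΦ0 j
    have h3 := mul_nonneg hC h2
    nlinarith
  obtain ⟨j₁, hj₁⟩ : ∃ j₁ : ℕ, n₁ ≤ 2 ^ j₁ := by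
    obtain ⟨m, hm⟩ := pow_unbounded_of_one_lt n₁ (one_lt_two)
    exact ⟨m, hm.le⟩
  have hC0 : 0 ≤ ∑ i ∈ Finset.range (j₁ + 1), Φ i := Finset.sum_nonneg fun i _ => hΦ0 i
  have hK1 : 1 ≤ 2 * C₂ + 1 := by linarith
  refine ⟨∑ i ∈ Finset.range (j₁ + 1), Φ i, hC0, ?_⟩
  have key : ∀ j : ℕ, Φ j ≤ (∑ i ∈ Finset.range (j₁ + 1), Φ i) * (2 * C₂ + 1) ^ j := by
    intro j
    induction j with
    | zero =>
      rw [pow_zero, mul_one]
      exact Finset.single_le_sum (f := Φ) (fun i _ => hΦ0 i)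
        (Finset.mem_range.2 (Nat.succ_pos _))
    | succ j ih =>
      by_cases hj : j + 1 ≤ j₁
      · have h1 : Φ (j + 1) ≤ ∑ i ∈ Finset.range (j₁ + 1), Φ i :=
          Finset.single_le_sum (f := Φ) (fun i _ => hΦ0 i) (Finset.mem_range.2 (by omega))
        refine h1.trans (le_mul_of_one_le_right hC0 (one_le_pow₀ hK1))
      · have h1 : n₁ ≤ 2 ^ (j + 1) :=
          hj₁.trans (pow_le_pow_right₀ (by norm_num) (by omega))
        refine (hstep j h1).trans ?_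
        have := mul_le_mul_of_nonneg_left ih (by linarith : 0 ≤ 2 * C₂ + 1)
        rw [pow_succ]
        linarith
  intro j v hv
  exact (hΦ j v hv).trans (mul_le_mul_of_nonneg_right (key j) (apply_nonneg Q v))

end Pool.Agent.RG
end
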