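import Pool.Agent.Lib.MP_496a9e_al.Q.E0
import Pool.Agent.Lib.MP_496a9e_al.Q.Core
import Pool.Agent.Lib.MP_496a9e_al.Mg.G006

section

/-!
# E3: basic properties of the operators `Op`
-/

namespace Pool.Agent.RG

open MeasureTheory Topology Filter Set

universe u v

variable {G : Type u} [Group G] [TopologicalSpace G] {d : ℕ} {c : Core G d} {A : ℕ}
  {χ : Ed d → ℝ} {κ : Fin d → Fin d → Ed d → ℝ}

private theorem E3_cs (hχ : IsCut c χ κ) {E : Type v} [NormedAddCommGroup E]
    [NormedSpace ℂ E] {n : ℝ} (hn : 1 ≤ n) (h : Ed d → ℂ) (g : Ed d → E) :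
    HasCompactSupport fun Y : Ed d => (((χ (n⁻¹ • Y) : ℝ) : ℂ) * h Y) • g Y := by
  have hn0 : 0 < n := zero_lt_one.trans_le hn
  refine HasCompactSupport.intro (isCompact_closedBall (0 : Ed d) n) ?_
  intro Y hY
  have h1 : n < ‖Y‖ := by
    simpa using hY
  have h2 : 1 ≤ ‖n⁻¹ • Y‖ := by
    rw [norm_smul, Real.norm_eq_abs, abs_of_pos (inv_pos.2 hn0), inv_mul_eq_div,
      one_le_div hn0]
    exact h1.le
  change (((χ (n⁻¹ • Y) : ℝ) : ℂ) * h Y) • g Y = 0
  rw [hχ.χ_supp _ h2]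
  simp

private theorem E3_cont (hc : IsCore c) (hχ : IsCut c χ κ) {E : Type v} [NormedAddCommGroup E]
    [NormedSpace ℂ E] {π : G → E →L[ℂ] E} (hcont : Continuous fun z : G × E => π z.1 z.2)
    {n : ℝ} {h : Ed d → ℂ} (hh : Continuous h) (e : E) :
    Continuous fun Y : Ed d => (((χ (n⁻¹ • Y) : ℝ) : ℂ) * h Y) • π (c.ex (n⁻¹ • Y)) e := by
  have h1 : Continuous fun Y : Ed d => π (c.ex (n⁻¹ • Y)) e :=
    hcont.comp ((hc.ex_cont.comp (continuous_const_smul _)).prodMk continuous_const)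
  have h2 : Continuous fun Y : Ed d => ((χ (n⁻¹ • Y) : ℝ) : ℂ) :=
    Complex.continuous_ofReal.comp (hχ.χ_smooth.continuous.comp (continuous_const_smul _))
  exact (h2.mul hh).smul h1

/-- PROOF. The integrand is continuous (`h` continuous, `χ`, `ex` continuous, joint continuity `hcont`) and vanishes for `‖Y‖ ≥ n` (`χ_supp`): continuous with compact support
(`Continuous.integrable_of_hasCompactSupport`). -/
theorem Op_integrable (hc : IsCore c) (hχ : IsCut c χ κ) {E : Type v} [NormedAddCommGroup E]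
    [NormedSpace ℂ E] {π : G → E →L[ℂ] E} (hcont : Continuous fun z : G × E => π z.1 z.2)
    {n : ℝ} (hn : 1 ≤ n) {h : Ed d → ℂ} (hh : Continuous h) (e : E) :
    Integrable fun Y : Ed d => (((χ (n⁻¹ • Y) : ℝ) : ℂ) * h Y) • π (c.ex (n⁻¹ • Y)) e :=
  (E3_cont hc hχ hcont hh e).integrable_of_hasCompactSupport (E3_cs hχ hn h _)

/-- PROOF. `integral_add` and `Op_integrable`. -/
theorem Op_add (hc : IsCore c) (hχ : IsCut c χ κ) {E : Type v} [NormedAddCommGroup E]
    [NormedSpace ℂ E] {π : G → E →L[ℂ] E} (hcont : Continuous fun z : G × E => π z.1 z.2)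
    {n : ℝ} (hn : 1 ≤ n) {h h' : Ed d → ℂ} (hh : Continuous h) (hh' : Continuous h') (e : E) :
    Op c χ π n (fun Y => h Y + h' Y) e = Op c χ π n h e + Op c χ π n h' e := by
  unfold Op
  rw [← integral_add (Op_integrable hc hχ hcont hn hh e) (Op_integrable hc hχ hcont hn hh' e)]
  refine integral_congr_ae (Eventually.of_forall fun Y => ?_)
  simp only [mul_add, add_smul]

/-- PROOF. `integral_smul`. -/
theorem Op_smul {E : Type v} [NormedAddCommGroup E]
    [NormedSpace ℂ E] {π : G → E →L[ℂ] E} {n : ℝ} (a : ℂ) (h : Ed d → ℂ) (e : E) :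
    Op c χ π n (fun Y => a * h Y) e = a • Op c χ π n h e := by
  unfold Op
  rw [← integral_smul]
  refine integral_congr_ae (Eventually.of_forall fun Y => ?_)
  simp only [smul_smul]
  congr 1
  ring

/-- PROOF. Induction on the finset, `Op_add` (and `Op c χ π n 0 e = 0`). -/
theorem Op_sum (hc : IsCore c) (hχ : IsCut c χ κ) {E : Type v} [NormedAddCommGroup E]
    [NormedSpace ℂ E] {π : G → E →L[ℂ] E} (hcont : Continuous fun z : G × E => π z.1 z.2)
    {n : ℝ} (hn : 1 ≤ n) {S : Type} (s : Finset S) {h : S → Ed d → ℂ}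
    (hh : ∀ i, Continuous (h i)) (e : E) :
    Op c χ π n (fun Y => ∑ i ∈ s, h i Y) e = ∑ i ∈ s, Op c χ π n (h i) e := by
  unfold Op
  rw [← integral_finset_sum s fun i _ => Op_integrable hc hχ hcont hn (hh i) e]
  refine integral_congr_ae (Eventually.of_forall fun Y => ?_)
  simp only [Finset.mul_sum, Finset.sum_smul]

/-- `Op` as a function of the vector is linear and continuous.
PROOF. Linearity: `integral_add`, `integral_smul` with `Op_integrable`. Continuity: it is bounded: `‖π (ex (Y/n)) e‖ ≤ B M^A₁ ‖e‖ ≤ |B| exp(A₁) ‖e‖` on the support (`IsRp.bound`, `M_ex`, `‖Y/n‖ ≤ 1`), so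
`‖Op h e‖ ≤ |B| exp(A₁) (∫_{‖Y‖ ≤ n} ‖h‖) ‖e‖` (`h` continuous, so integrable on the ball). -/
theorem Op_clm (hc : IsCore c) (hχ : IsCut c χ κ) {E : Type v} [NormedAddCommGroup E]
    [NormedSpace ℂ E] [CompleteSpace E] {π : G → E →L[ℂ] E} {A₁ : ℕ} (hπ : IsRp c A₁ π)
    {n : ℝ} (hn : 1 ≤ n) {h : Ed d → ℂ} (hh : Continuous h) :
    ∃ F : E →L[ℂ] E, ∀ e, F e = Op c χ π n h e := by
  obtain ⟨B, hB⟩ := hπ.bound
  have hn0 : 0 < n := zero_lt_one.trans_le hn
  let F0 : E →ₗ[ℂ] E :=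
    { toFun := Op c χ π n h
      map_add' := fun e e' => by
        unfold Op
        rw [← integral_add (Op_integrable hc hχ hπ.cont hn hh e)
          (Op_integrable hc hχ hπ.cont hn hh e')]
        refine integral_congr_ae (Eventually.of_forall fun Y => ?_)
        simp only [map_add, smul_add]
      map_smul' := fun a e => by
        unfold Op
        rw [RingHom.id_apply, ← integral_smul]
        refine integral_congr_ae (Eventually.of_forall fun Y => ?_)
        simp only [map_smul]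
        rw [smul_comm] }
  have hgi : Integrable fun Y : Ed d =>
      (((χ (n⁻¹ • Y) : ℝ) : ℂ) * h Y) • (1 : ℂ) := by
    have h1 : Continuous fun Y : Ed d => (((χ (n⁻¹ • Y) : ℝ) : ℂ) * h Y) • (1 : ℂ) :=
      ((Complex.continuous_ofReal.comp
        (hχ.χ_smooth.continuous.comp (continuous_const_smul _))).mul hh).smul continuous_const
    exact h1.integrable_of_hasCompactSupport (E3_cs hχ hn h _)
  refine ⟨F0.mkContinuous ((∫ Y : Ed d, ‖(((χ (n⁻¹ • Y) : ℝ) : ℂ) * h Y) • (1 : ℂ)‖) *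
    (|B| * Real.exp 1 ^ A₁)) ?_, fun e => rfl⟩
  intro e
  change ‖Op c χ π n h e‖ ≤ _
  unfold Op
  refine (norm_integral_le_integral_norm _).trans ?_
  rw [mul_assoc, ← integral_mul_const]
  refine integral_mono (Op_integrable hc hχ hπ.cont hn hh e).norm (hgi.norm.mul_const _) ?_
  intro Y
  change ‖(((χ (n⁻¹ • Y) : ℝ) : ℂ) * h Y) • π (c.ex (n⁻¹ • Y)) e‖ ≤
    ‖(((χ (n⁻¹ • Y) : ℝ) : ℂ) * h Y) • (1 : ℂ)‖ * (|B| * Real.exp 1 ^ A₁ * ‖e‖)
  rw [norm_smul, norm_smul, norm_one, mul_one]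
  by_cases hz : 1 ≤ ‖n⁻¹ • Y‖
  · rw [hχ.χ_supp _ hz]
    simp
  · have hz' : ‖n⁻¹ • Y‖ ≤ 1 := (not_le.1 hz).le
    refine mul_le_mul_of_nonneg_left ?_ (norm_nonneg _)
    have h1 : c.M (c.ex (n⁻¹ • Y)) ^ A₁ ≤ Real.exp 1 ^ A₁ :=
      pow_le_pow_left₀ (zero_le_one.trans (hc.M_ge _))
        ((hc.M_ex _).trans (Real.exp_le_exp.2 hz')) A₁
    have h0 : 0 ≤ c.M (c.ex (n⁻¹ • Y)) ^ A₁ := pow_nonneg (zero_le_one.trans (hc.M_ge _)) _
    calc ‖π (c.ex (n⁻¹ • Y)) e‖ ≤ B * c.M (c.ex (n⁻¹ • Y)) ^ A₁ * ‖e‖ := hB _ _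
      _ ≤ |B| * c.M (c.ex (n⁻¹ • Y)) ^ A₁ * ‖e‖ := by
          apply mul_le_mul_of_nonneg_right _ (norm_nonneg _)
          exact mul_le_mul_of_nonneg_right (le_abs_self B) h0
      _ ≤ |B| * Real.exp 1 ^ A₁ * ‖e‖ := by
          apply mul_le_mul_of_nonneg_right _ (norm_nonneg _)
          exact mul_le_mul_of_nonneg_left h1 (abs_nonneg B)

private theorem E3_J_int (R : Cal.{u, v} c A) {F : Ed d → R.E} (hF : Integrable F)
    {g : Ed d → ℝ} (hg : Integrable g) (h : ∀ Y, ‖R.J (F Y)‖ ≤ g Y) :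
    ‖R.J (∫ Y, F Y)‖ ≤ ∫ Y, g Y := by
  rw [← R.J.integral_comp_comm hF]
  refine (norm_integral_le_integral_norm _).trans ?_
  exact integral_mono (R.J.integrable_comp hF).norm hg h

/-- BOUND.
PROOF. `J` commutes with the integral (`ContinuousLinearMap.integral_comp_comm`, `Op_integrable`), `‖∫ f‖ ≤ ∫ ‖f‖`, `0 ≤ χ ≤ 1`, `‖J (π (ex (Y/n)) e)‖ ≤ M(ex (Y/n))^A ‖J e‖ ≤ exp(A) ‖J e‖` where
`χ (Y/n) ≠ 0` (then `‖Y/n‖ ≤ 1`). -/
theorem Op_norm (hc : IsCore c) (hχ : IsCut c χ κ) (R : Cal.{u, v} c A) {n : ℝ} (hn : 1 ≤ n)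
    {h : Ed d → ℂ} (hh : Continuous h) (hi : Integrable h) (e : R.E) :
    ‖R.J (Op c χ R.π n h e)‖ ≤ Real.exp A * (∫ Y, ‖h Y‖) * ‖R.J e‖ := by
  unfold Op
  have h1 := E3_J_int R (Op_integrable hc hχ R.cont hn hh e)
    (g := fun Y => ‖h Y‖ * (Real.exp A * ‖R.J e‖)) (hi.norm.mul_const _) ?_
  · refine h1.trans (le_of_eq ?_)
    rw [integral_mul_const]
    ring
  · intro Y
    rw [map_smul, norm_smul, norm_mul, Complex.norm_real, Real.norm_eq_abs,
      abs_of_nonneg (hχ.χ_nonneg _)]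
    by_cases hz : 1 ≤ ‖n⁻¹ • Y‖
    · rw [hχ.χ_supp _ hz, zero_mul, zero_mul]
      positivity
    · have hz' : ‖n⁻¹ • Y‖ ≤ 1 := (not_le.1 hz).le
      have h1 : c.M (c.ex (n⁻¹ • Y)) ^ A ≤ Real.exp A := by
        have h2 : Real.exp (A : ℝ) = Real.exp 1 ^ A := by
          rw [← Real.exp_nat_mul, mul_one]
        rw [h2]
        exact pow_le_pow_left₀ (zero_le_one.trans (hc.M_ge _))
          ((hc.M_ex _).trans (Real.exp_le_exp.2 hz')) A
      have h3 : ‖R.J (R.π (c.ex (n⁻¹ • Y)) e)‖ ≤ Real.exp A * ‖R.J e‖ :=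
        (R.temp _ _).trans (mul_le_mul_of_nonneg_right h1 (norm_nonneg _))
      exact mul_le_mul (mul_le_of_le_one_left (norm_nonneg _) (hχ.χ_le _)) h3
        (norm_nonneg _) (norm_nonneg _)

/-- A slightly more general bound: vector-valued integrands.
PROOF. As `Op_norm`. -/
theorem J_int_le (R : Cal.{u, v} c A) {F : Ed d → R.E} (hF : Integrable F) {g : Ed d → ℝ}
    (hg : Integrable g) (h : ∀ Y, ‖R.J (F Y)‖ ≤ g Y) : ‖R.J (∫ Y, F Y)‖ ≤ ∫ Y, g Y :=
  E3_J_int R hF hg h

end Pool.Agent.RG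
end

section

/-!
# E8a: derivatives of `Op(h) v` on the left
-/

namespace Pool.Agent.RG

open MeasureTheory Topology Filter Set
open scoped SchwartzMap

universe u v

/-- the word `β` with every letter twisted by `ad g` -/
noncomputable def wda {G : Type u} {d : ℕ} {V : Type v} [AddCommGroup V] [Module ℂ V]
    (c : Core G d) (L : Ed d →ₗ[ℝ] (V →ₗ[ℂ] V)) (g : G) : List (Fin d) → (V →ₗ[ℂ] V)
  | [] => LinearMap.id
  | i :: β => (L (c.ad g (eb i))).comp (wda c L g β)

/-- the coefficients of a twisted word -/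
noncomputable def wcf {G : Type u} {d : ℕ} (c : Core G d) (g : G) :
    List (Fin d) → List (Fin d) → ℝ
  | [], [] => 1
  | i :: β, j :: γ => (c.ad g (eb i)) j * wcf c g β γ
  | _, _ => 0

/-- `∫ χ(Y/n) h(Y) π(exp(Y/n)) ι (β twisted by exp(-Y/n)) v dY`, the word `β` applied on the left to
`Op(h) v` -/
noncomputable def OpW {G : Type u} [Group G] [TopologicalSpace G] {d : ℕ} {c : Core G d} {A : ℕ}
    (χ : Ed d → ℝ) (R : Cal.{u, v} c A) (n : ℝ) (h : Ed d → ℂ) (β : List (Fin d)) (v : R.V) :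
    R.E :=
  ∫ Y : Ed d, (((χ (n⁻¹ • Y) : ℝ) : ℂ) * h Y) •
    R.π (c.ex (n⁻¹ • Y)) (R.ι (wda c R.L (c.ex (-(n⁻¹ • Y))) β v))

variable {G : Type u} [Group G] [TopologicalSpace G] {d : ℕ} {c : Core G d} {A : ℕ}
  {χ : Ed d → ℝ} {κ : Fin d → Fin d → Ed d → ℝ}

private theorem E8a_sum (Y : Ed d) : ∑ j, Y j • (eb j : Ed d) = Y := by
  have h := (EuclideanSpace.basisFun (Fin d) ℝ).sum_repr Y
  simpa [eb, EuclideanSpace.basisFun_apply] using h

private theorem E8a_L {V : Type v} [AddCommGroup V] [Module ℂ V] (L : Ed d →ₗ[ℝ] (V →ₗ[ℂ] V))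
    (Y : Ed d) (w : V) : L Y w = ∑ j, ((Y j : ℝ) : ℂ) • L (eb j) w := by
  conv_lhs => rw [← E8a_sum Y]
  rw [map_sum, LinearMap.sum_apply]
  refine Finset.sum_congr rfl fun j _ => ?_
  rw [map_smul, LinearMap.smul_apply, Complex.coe_smul]

/-- Expansion of a twisted word.
PROOF. Induction on `β`: `L (ad g e_i) w = Σ_j (ad g e_i)_j L e_j w`; reindex `Fin (k+1) → Fin d` by `Fin.consEquiv`/`Fin.cons` (`Fin.consPiProd`, `Fintype.sum_equiv`), `List.ofFn (Fin.cons j γ) = j :: List.ofFn γ`. -/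
theorem wda_eq {V : Type v} [AddCommGroup V] [Module ℂ V] (L : Ed d →ₗ[ℝ] (V →ₗ[ℂ] V)) (g : G)
    (β : List (Fin d)) (v : V) :
    wda c L g β v = ∑ γ : Fin β.length → Fin d,
      ((wcf c g β (List.ofFn γ) : ℝ) : ℂ) • wd L (List.ofFn γ) v := by
  induction β with
  | nil =>
    simp [wda, wcf, wd]
  | cons i β ih =>
    have h1 : wda c L g (i :: β) v = L (c.ad g (eb i)) (wda c L g β v) := rfl
    have h2 : ∑ γ : Fin (i :: β).length → Fin d,
        ((wcf c g (i :: β) (List.ofFn γ) : ℝ) : ℂ) • wd L (List.ofFn γ) v =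
        ∑ γ : Fin (β.length + 1) → Fin d,
        ((wcf c g (i :: β) (List.ofFn γ) : ℝ) : ℂ) • wd L (List.ofFn γ) v := rfl
    rw [h1, h2, ← (Fin.consEquiv (fun _ : Fin (β.length + 1) => Fin d)).sum_comp,
      Fintype.sum_prod_type, ih, E8a_L]
    refine Finset.sum_congr rfl fun j _ => ?_
    rw [map_sum, Finset.smul_sum]
    refine Finset.sum_congr rfl fun γ _ => ?_
    have h3 : List.ofFn ((Fin.consEquiv (fun _ : Fin (β.length + 1) => Fin d)) (j, γ)) =
        j :: List.ofFn γ := by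
      rw [List.ofFn_succ]
      rfl
    rw [h3]
    have h4 : wcf c g (i :: β) (j :: List.ofFn γ) =
        (c.ad g (eb i)) j * wcf c g β (List.ofFn γ) := rfl
    have h5 : wd L (j :: List.ofFn γ) v = L (eb j) (wd L (List.ofFn γ) v) := rfl
    rw [h4, h5, map_smul, smul_smul]
    push_cast
    rfl

/-- PROOF. Continuity of `g ↦ ad g` and of the coordinates; induction on `β`, `γ`. -/
theorem wcf_cont (hc : IsCore c) (β γ : List (Fin d)) : Continuous fun g : G => wcf c g β γ := by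
  induction β generalizing γ with
  | nil =>
    cases γ with
    | nil => exact continuous_const
    | cons j γ => exact continuous_const
  | cons i β ih =>
    cases γ with
    | nil => exact continuous_const
    | cons j γ =>
      have h1 : Continuous fun g : G => (c.ad g (eb i)) j :=
        (EuclideanSpace.proj (𝕜 := ℝ) j).continuous.comp (hc.ad_cont.clm_apply continuous_const)
      exact h1.mul (ih γ)

/-- PROOF. `wda 1 = wd`. -/
theorem OpW_nil (R : Cal.{u, v} c A) (n : ℝ) (h : Ed d → ℂ) (v : R.V) :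
    OpW χ R n h [] v = Op c χ R.π n h (R.ι v) := by
  rfl

/-- The twisted words are controlled by the words.
PROOF. `wda_eq`, triangle inequality; `C = Σ_γ |wcf g β γ|`, `R.temp x`. -/
theorem wda_bound (A : ℕ) (x g : G) (β : List (Fin d)) :
    ∃ C : ℝ, 0 ≤ C ∧ ∀ (R : Cal.{u, v} c A) (v : R.V) (T : ℝ),
      (∀ γ : List (Fin d), γ.length = β.length → ‖R.J (R.ι (wd R.L γ v))‖ ≤ T) →
      ‖R.J (R.π x (R.ι (wda c R.L g β v)))‖ ≤ C * T := by
  refine ⟨∑ γ : Fin β.length → Fin d, |wcf c g β (List.ofFn γ)| * |c.M x ^ A|,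
    Finset.sum_nonneg fun γ _ => mul_nonneg (abs_nonneg _) (abs_nonneg _), ?_⟩
  intro R v T hT
  rw [wda_eq, map_sum, map_sum, map_sum, Finset.sum_mul]
  refine (norm_sum_le _ _).trans (Finset.sum_le_sum fun γ _ => ?_)
  rw [map_smul, map_smul, map_smul, norm_smul, Complex.norm_real, Real.norm_eq_abs, mul_assoc]
  refine mul_le_mul_of_nonneg_left ?_ (abs_nonneg _)
  refine (R.temp x _).trans ?_
  refine (mul_le_mul_of_nonneg_right (le_abs_self _) (norm_nonneg _)).trans ?_
  exact mul_le_mul_of_nonneg_left (hT _ (by simp)) (abs_nonneg _)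

end Pool.Agent.RG
end

section

/-!
# D2b: orthogonality of the eigenspaces of the Casimir operator of `K`
-/

namespace Pool.Agent.RG

open MeasureTheory Topology Filter Set
open scoped InnerProductSpace

universe u v

variable {G : Type u} {d : ℕ} {c : Core G d} {V : Type v} [AddCommGroup V] [Module ℂ V]
  {H : Type u} [NormedAddCommGroup H] [InnerProductSpace ℂ H] {L : Ed d →ₗ[ℝ] (V →ₗ[ℂ] V)}
  {T : V →ₗ[ℂ] H}

private theorem D2b_exists (p : ℝ → Prop) {v : V}
    (hv : v ∈ ⨆ (r : ℝ) (_ : p r), Module.End.eigenspace (casK c L) (r : ℂ)) :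
    ∃ f : ℝ →₀ V, (∀ r : ℝ, casK c L (f r) = (r : ℂ) • f r) ∧ (∀ r ∈ f.support, p r) ∧
      v = f.sum fun _ x => x := by
  obtain ⟨f, hf, hs⟩ := (Submodule.mem_iSup_iff_exists_finsupp _ _).1 hv
  have h0 : ∀ r, ¬ p r → f r = 0 := fun r hr => by
    have h1 := hf r
    rw [iSup_neg hr] at h1
    exact (Submodule.mem_bot ℂ).1 h1
  refine ⟨f, fun r => ?_, fun r hr => ?_, hs.symm⟩
  · by_cases hr : p r
    · have h1 := hf r
      rw [iSup_pos hr] at h1
      exact Module.End.mem_eigenspace_iff.1 h1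
    · rw [h0 r hr, map_zero, smul_zero]
  · by_contra h
    exact (Finsupp.mem_support_iff.1 hr) (h0 r h)

private theorem D2b_orth (h : Ksk c L T) {u v : V} {r s : ℝ} (hu : casK c L u = (r : ℂ) • u)
    (hv : casK c L v = (s : ℂ) • v) (hrs : r ≠ s) : ⟪T u, T v⟫_ℂ = 0 := by
  have h1 := h.symm u v
  rw [hu, hv, map_smul, map_smul, inner_smul_left, inner_smul_right, Complex.conj_ofReal] at h1
  have h2 : ((r : ℂ) - s) * ⟪T u, T v⟫_ℂ = 0 := by linear_combination h1
  rcases mul_eq_zero.1 h2 with h3 | h3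
  · exact absurd (by exact_mod_cast sub_eq_zero.1 h3) hrs
  · exact h3

private theorem D2b_pow {v : V} {r : ℝ} (l : ℕ) (hv : casK c L v = (r : ℂ) • v) :
    ((casK c L) ^ l) v = (r : ℂ) ^ l • v := by
  induction l with
  | zero => simp
  | succ l ih => rw [pow_succ', Module.End.mul_apply, ih, map_smul, hv, smul_smul, ← pow_succ]

/-- Every vector is a finite sum of eigenvectors.
PROOF. `htop`; `Submodule.mem_iSup_iff_exists_finsupp` or `Submodule.iSup_induction`: eigenvectors are fine (`Finsupp.single`),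
sums: add the finitely supported functions (`Finsupp.sum_add_index'`). -/
theorem exists_eig (htop : ⨆ r : ℝ, Module.End.eigenspace (casK c L) (r : ℂ) = ⊤) (v : V) :
    ∃ f : ℝ →₀ V, (∀ r : ℝ, casK c L (f r) = (r : ℂ) • f r) ∧ v = f.sum fun _ x => x := by
  have hv : v ∈ ⨆ r : ℝ, Module.End.eigenspace (casK c L) (r : ℂ) := by
    rw [htop]
    exact Submodule.mem_top
  obtain ⟨f, hf, hs⟩ := (Submodule.mem_iSup_iff_exists_finsupp _ _).1 hv
  exact ⟨f, fun r => Module.End.mem_eigenspace_iff.1 (hf r), hs.symm⟩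

/-- PROOF. `Vle` is the supremum of the eigenspaces with `r ≤ R^2`: as in `exists_eig`, with `f` supported on
`{r | r ≤ R^2}`. -/
theorem exists_eig_le {R : ℝ} {v : V} (hv : v ∈ Vle (casK c L) R) :
    ∃ f : ℝ →₀ V, (∀ r : ℝ, casK c L (f r) = (r : ℂ) • f r) ∧ (∀ r ∈ f.support, r ≤ R ^ 2) ∧
      v = f.sum fun _ x => x := by
  exact D2b_exists (fun r => r ≤ R ^ 2) hv

/-- PROOF. Same for `Vgt`. -/
theorem exists_eig_gt {R : ℝ} {v : V} (hv : v ∈ Vgt (casK c L) R) :
    ∃ f : ℝ →₀ V, (∀ r : ℝ, casK c L (f r) = (r : ℂ) • f r) ∧ (∀ r ∈ f.support, R ^ 2 < r) ∧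
      v = f.sum fun _ x => x := by
  exact D2b_exists (fun r => R ^ 2 < r) hv

/-- `casK` is bounded by `n²` on `Vle n`.
PROOF. `exists_eig_le`; eigenvectors `f r ≠ 0` have `r ≥ 0` (`hn`), so `|r| ≤ n^2` on the support; apply
`mult_le` with `a r = r` and `b r = n^2` (then `Σ b_r f_r = n^2 • v` and `casK v = Σ r f_r`). -/
theorem Ksk.casK_le (hn : ∀ (r : ℝ) (v : V), casK c L v = (r : ℂ) • v → v ≠ 0 → 0 ≤ r)
    (h : Ksk c L T) {n : ℝ} {v : V} (hv : v ∈ Vle (casK c L) n) :
    ‖T (casK c L v)‖ ≤ n ^ 2 * ‖T v‖ := by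
  obtain ⟨f, hf, hs, rfl⟩ := exists_eig_le hv
  have h1 := h.mult_le f hf (fun r => r) (fun _ => n ^ 2) fun r hr => by
    have h2 := hn r (f r) (hf r) (Finsupp.mem_support_iff.1 hr)
    show |r| ≤ |n ^ 2|
    rw [abs_of_nonneg h2, abs_of_nonneg (sq_nonneg n)]
    exact hs r hr
  have e1 : casK c L (f.sum fun _ x => x) = f.sum fun r x => (r : ℂ) • x := by
    unfold Finsupp.sum
    rw [map_sum]
    exact Finset.sum_congr rfl fun r _ => hf r
  have e2 : (f.sum fun _ x => ((n ^ 2 : ℝ) : ℂ) • x) = ((n ^ 2 : ℝ) : ℂ) • f.sum fun _ x => x := by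
    unfold Finsupp.sum
    rw [Finset.smul_sum]
  rw [e1]
  refine h1.trans (le_of_eq ?_)
  rw [e2, map_smul, norm_smul, Complex.norm_real, Real.norm_of_nonneg (sq_nonneg n)]

/-- Orthogonal projections are contractions.
PROOF. Eigenvectors for different real eigenvalues are orthogonal (see `mult_le`), so `⟪T u, T v⟫ = 0` by `exists_eig_le` and
`exists_eig_gt`, and Pythagoras. (Alternatively add the two finitely supported functions and use `mult_le`.) -/
theorem Ksk.le_add (h : Ksk c L T) {R : ℝ} {u v : V} (hu : u ∈ Vle (casK c L) R)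
    (hv : v ∈ Vgt (casK c L) R) : ‖T u‖ ≤ ‖T (u + v)‖ ∧ ‖T v‖ ≤ ‖T (u + v)‖ := by
  obtain ⟨f, hf, hfs, rfl⟩ := exists_eig_le hu
  obtain ⟨g, hg, hgs, rfl⟩ := exists_eig_gt hv
  have h0 : ⟪T (f.sum fun _ x => x), T (g.sum fun _ x => x)⟫_ℂ = 0 := by
    unfold Finsupp.sum
    rw [map_sum, map_sum, sum_inner]
    refine Finset.sum_eq_zero fun r hr => ?_
    rw [inner_sum]
    refine Finset.sum_eq_zero fun s hs => ?_
    exact D2b_orth h (hf r) (hg s) (ne_of_lt ((hfs r hr).trans_lt (hgs s hs)))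
  have h1 := norm_add_sq_eq_norm_sq_add_norm_sq_of_inner_eq_zero (𝕜 := ℂ) _ _ h0
  rw [← map_add] at h1
  constructor
  · refine (mul_self_le_mul_self_iff (norm_nonneg _) (norm_nonneg _)).2 ?_
    rw [h1]
    exact le_add_of_nonneg_right (mul_self_nonneg _)
  · refine (mul_self_le_mul_self_iff (norm_nonneg _) (norm_nonneg _)).2 ?_
    rw [h1]
    exact le_add_of_nonneg_left (mul_self_nonneg _)

/-- Powers of `casK` are large on `Vgt m`.
PROOF. `exists_eig_gt`; `(casK ^ l) v = Σ r^l f_r`; `|m^(2l)| ≤ |r^l|` for `r > m^2`; `mult_le`. -/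
theorem Ksk.pow_le (h : Ksk c L T) {m : ℝ} (l : ℕ) {v : V} (hv : v ∈ Vgt (casK c L) m) :
    m ^ (2 * l) * ‖T v‖ ≤ ‖T (((casK c L) ^ l) v)‖ := by
  obtain ⟨f, hf, hs, rfl⟩ := exists_eig_gt hv
  have h1 := h.mult_le f hf (fun _ => m ^ (2 * l)) (fun r => r ^ l) fun r hr => by
    show |m ^ (2 * l)| ≤ |r ^ l|
    have h2 := hs r hr
    have h3 : |m ^ 2| ≤ |r| := by
      rw [abs_of_nonneg (sq_nonneg m), abs_of_nonneg ((sq_nonneg m).trans h2.le)]
      exact h2.le
    rw [pow_mul, abs_pow (m ^ 2) l, abs_pow r l]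
    exact pow_le_pow_left₀ (abs_nonneg _) h3 l
  have e1 : ((casK c L) ^ l) (f.sum fun _ x => x) = f.sum fun r x => ((r ^ l : ℝ) : ℂ) • x := by
    unfold Finsupp.sum
    rw [map_sum]
    refine Finset.sum_congr rfl fun r _ => ?_
    push_cast
    exact D2b_pow l (hf r)
  have e2 : (f.sum fun _ x => ((m ^ (2 * l) : ℝ) : ℂ) • x) =
      ((m ^ (2 * l) : ℝ) : ℂ) • f.sum fun _ x => x := by
    unfold Finsupp.sum
    rw [Finset.smul_sum]
  rw [e1]
  refine (le_of_eq ?_).trans h1
  have h3 : 0 ≤ m ^ (2 * l) := by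
    rw [pow_mul]
    exact pow_nonneg (sq_nonneg m) l
  rw [e2, map_smul, norm_smul, Complex.norm_real, Real.norm_of_nonneg h3]

/-- PROOF. The eigenspaces for different eigenvalues are independent (`Module.End.eigenspaces_iSupIndep`), composed with the
injective map `ℝ → ℂ`; `Vle ⊔ Vgt = ⊤` by `htop` and `r ≤ R^2 ∨ R^2 < r`; disjoint by independence
(`iSupIndep.disjoint_biSup` for disjoint index sets). -/
theorem isCompl_Vle (htop : ⨆ r : ℝ, Module.End.eigenspace (casK c L) (r : ℂ) = ⊤) (R : ℝ) :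
    IsCompl (Vle (casK c L) R) (Vgt (casK c L) R) := by
  have hind : iSupIndep fun r : ℝ => Module.End.eigenspace (casK c L) (r : ℂ) :=
    (Module.End.eigenspaces_iSupIndep (casK c L)).comp Complex.ofReal_injective
  constructor
  · have h1 := hind.disjoint_biSup_biSup (s := {r | r ≤ R ^ 2}) (t := {r | R ^ 2 < r})
      (Set.disjoint_left.2 fun r h1 h2 => absurd (show R ^ 2 < r from h2) (not_lt_of_ge h1))
    exact h1
  · rw [codisjoint_iff, eq_top_iff, ← htop]
    refine iSup_le fun r => ?_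
    rcases le_or_gt r (R ^ 2) with h | h
    · exact le_sup_of_le_left (le_iSup₂_of_le r h le_rfl)
    · exact le_sup_of_le_right (le_iSup₂_of_le r h le_rfl)

/-- PROOF. `biSup_mono`. -/
theorem Vle_mono {T : V →ₗ[ℂ] V} {R R' : ℝ} (h0 : 0 ≤ R) (h : R ≤ R') : Vle T R ≤ Vle T R' := by
  refine biSup_mono fun r hr => ?_
  exact hr.trans (pow_le_pow_left₀ h0 h 2)

/-- PROOF. `exists_eig`: take `R` with `R^2 ≥ r` for all `r` in the finite support (and `R ≥ 0`). -/
theorem exists_mem_Vle (htop : ⨆ r : ℝ, Module.End.eigenspace (casK c L) (r : ℂ) = ⊤) (v : V) :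
    ∃ R₀ : ℝ, 0 ≤ R₀ ∧ ∀ R : ℝ, R₀ ≤ R → v ∈ Vle (casK c L) R := by
  obtain ⟨f, hf, rfl⟩ := exists_eig htop v
  refine ⟨1 + ∑ r ∈ f.support, |r|, by positivity, fun R hR => ?_⟩
  refine Submodule.sum_mem _ fun r hr => ?_
  have h1 : |r| ≤ ∑ r ∈ f.support, |r| := Finset.single_le_sum (fun _ _ => abs_nonneg _) hr
  have h2 : 0 ≤ ∑ r ∈ f.support, |r| := Finset.sum_nonneg fun _ _ => abs_nonneg _
  have h3 : r ≤ R ^ 2 := by nlinarith [le_abs_self r]
  exact (le_iSup₂_of_le r h3 le_rfl : Module.End.eigenspace (casK c L) (r : ℂ) ≤ _)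
    (Module.End.mem_eigenspace_iff.2 (hf r))

/-- An endomorphism that commutes with `casK` preserves `Vle`.
PROOF. It maps eigenvectors to eigenvectors; `iSup₂_le`/`Submodule.map_iSup` or `exists_eig_le`. -/
theorem map_Vle {S : V →ₗ[ℂ] V} (hS : ∀ v, S (casK c L v) = casK c L (S v)) {R : ℝ} {v : V}
    (hv : v ∈ Vle (casK c L) R) : S v ∈ Vle (casK c L) R := by
  obtain ⟨f, hf, hs, rfl⟩ := exists_eig_le hv
  unfold Finsupp.sum
  rw [map_sum]
  refine Submodule.sum_mem _ fun r hr => ?_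
  refine (le_iSup₂_of_le r (hs r hr) le_rfl : Module.End.eigenspace (casK c L) (r : ℂ) ≤ _)
    (Module.End.mem_eigenspace_iff.2 ?_)
  rw [← hS, hf, map_smul]

end Pool.Agent.RG
end

section

/-! D2: orthogonality of the eigenspaces of the Casimir operator of `K` -/
end

section

/-!
# B1a: `K`-invariant inner products of matrix coefficients
-/

namespace Pool.Agent.RG

open MeasureTheory Topology Filter Set
open scoped InnerProductSpace ComplexConjugate

universe u v

/-- `K` as a subgroup. -/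
def Kgrp {G : Type u} [Group G] [TopologicalSpace G] {d : ℕ} {c : Core G d} (hc : IsCore c) :
    Subgroup G where
  carrier := c.K
  mul_mem' := fun ha hb => hc.K_mul _ ha _ hb
  one_mem' := hc.K_one
  inv_mem' := fun ha => hc.K_inv _ ha

variable {G : Type u} [Group G] [TopologicalSpace G] [IsTopologicalGroup G] [T2Space G] {d : ℕ}
  {c : Core G d} {V : Type v} [AddCommGroup V] [Module ℂ V] {L : Ed d →ₗ[ℝ] (V →ₗ[ℂ] V)}
  {act : G → V →ₗ[ℂ] V}

/-- PROOF. `hc.K_compact`, `isCompact_iff_compactSpace`. -/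
theorem Kgrp_compact (hc : IsCore c) : CompactSpace (Kgrp hc) := by
  have h : IsCompact ((Kgrp hc : Subgroup G) : Set G) := hc.K_compact
  exact isCompact_iff_compactSpace.mp h

/-- A finite Borel measure on `K`, invariant under left and right translations, positive on nonempty open sets.
PROOF. Haar measure on the compact group `K` (`MeasureTheory.Measure.haar`, `borel` σ-algebra); a compact group is unimodular: the right translates of Haar measure are again left Haar measures with the same total mass (`MeasureTheory.Measure.IsHaarMeasure`, uniqueness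
`isMulLeftInvariant_eq_smul`; or Mathlib's instance for compact groups); or symmetrize. -/
theorem exists_haarK (hc : IsCore c) [MeasurableSpace (Kgrp hc)] [BorelSpace (Kgrp hc)] :
    ∃ μ : Measure (Kgrp hc), IsFiniteMeasure μ ∧ μ.IsMulRightInvariant ∧ μ.IsMulLeftInvariant ∧
      ∀ U : Set (Kgrp hc), IsOpen U → U.Nonempty → μ U ≠ 0 := by
  have hcs := Kgrp_compact hc
  let μ : Measure (Kgrp hc) := Measure.haar
  have hfin : IsFiniteMeasure μ := inferInstance
  have hr : μ.IsMulRightInvariant := by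
    refine ⟨fun g => ?_⟩
    have h1 : IsFiniteMeasure (Measure.map (· * g) μ) := inferInstance
    have h2 := Measure.isMulInvariant_eq_smul_of_compactSpace (Measure.map (· * g) μ) μ
    have h3 : (Measure.map (· * g) μ) univ = μ univ := by
      rw [Measure.map_apply (measurable_mul_const g) MeasurableSet.univ, preimage_univ]
    have h4 : (Measure.haarScalarFactor (Measure.map (· * g) μ) μ : ENNReal) * μ univ =
        μ univ := by
      rw [h2] at h3
      exact h3
    have h5 : μ univ ≠ 0 := by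
      have h6 : (univ : Set (Kgrp hc)).Nonempty := ⟨1, mem_univ _⟩
      exact (isOpen_univ.measure_pos μ h6).ne'
    have h7 : μ univ ≠ ⊤ := measure_ne_top μ univ
    have h8 : (Measure.haarScalarFactor (Measure.map (· * g) μ) μ : ENNReal) = 1 := by
      have h9 : (Measure.haarScalarFactor (Measure.map (· * g) μ) μ : ENNReal) * μ univ =
          1 * μ univ := by rw [h4, one_mul]
      exact (ENNReal.mul_left_inj h5 h7).mp h9
    have h10 : Measure.haarScalarFactor (Measure.map (· * g) μ) μ = 1 := by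
      exact_mod_cast h8
    rw [h2, h10, one_smul]
  exact ⟨μ, hfin, hr, inferInstance, fun U hU hne => (hU.measure_pos μ hne).ne'⟩

/-- PROOF. Continuity on `K` (`hK.cont`), restricted to the subtype. -/
theorem coefK_cont (hc : IsCore c) (hK : IsKm c L act) (l : V →ₗ[ℂ] ℂ) (v : V) :
    Continuous fun k : Kgrp hc => l (act (k : G) v) := by
  exact continuousOn_iff_continuous_restrict.mp (hK.cont v l)

end Pool.Agent.RG
end

section

/-!
# B1b: `K`-invariant inner products of matrix coefficients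
-/

namespace Pool.Agent.RG

open MeasureTheory Topology Filter Set
open scoped InnerProductSpace ComplexConjugate

universe u v

variable {G : Type u} [Group G] [TopologicalSpace G] [IsTopologicalGroup G] [T2Space G] {d : ℕ}
  {c : Core G d} {V : Type v} [AddCommGroup V] [Module ℂ V] {L : Ed d →ₗ[ℝ] (V →ₗ[ℂ] V)}
  {act : G → V →ₗ[ℂ] V}

/-- the pairing as a linear functional of the first vector -/
private noncomputable def B1b_lam (hc : IsCore c) (hK : IsKm c L act)
    [MeasurableSpace (Kgrp hc)] [BorelSpace (Kgrp hc)] (μ : Measure (Kgrp hc)) [IsFiniteMeasure μ]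
    (l l' : V →ₗ[ℂ] ℂ) (v : V) : V →ₗ[ℂ] ℂ where
  toFun a := ∫ k : Kgrp hc, l (act (k : G) a) * conj (l' (act (k : G) v)) ∂μ
  map_add' a b := by
    have : CompactSpace (Kgrp hc) := Kgrp_compact hc
    have hI : ∀ x : V, Integrable
        (fun k : Kgrp hc => l (act (k : G) x) * conj (l' (act (k : G) v))) μ := fun x =>
      ((coefK_cont hc hK l x).mul (Complex.continuous_conj.comp
        (coefK_cont hc hK l' v))).integrable_of_hasCompactSupport
        (HasCompactSupport.of_compactSpace _)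
    rw [← integral_add (hI a) (hI b)]
    refine integral_congr_ae (Filter.Eventually.of_forall fun k => ?_)
    show l (act (k : G) (a + b)) * conj (l' (act (k : G) v)) = _
    rw [map_add, map_add, add_mul]
  map_smul' r a := by
    rw [RingHom.id_apply, smul_eq_mul, ← integral_const_mul]
    refine integral_congr_ae (Filter.Eventually.of_forall fun k => ?_)
    show l (act (k : G) (r • a)) * conj (l' (act (k : G) v)) = _
    rw [map_smul, map_smul, smul_eq_mul, mul_assoc]

private theorem B1b_inv (hc : IsCore c) (hK : IsKm c L act)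
    [MeasurableSpace (Kgrp hc)] [BorelSpace (Kgrp hc)] (μ : Measure (Kgrp hc)) [IsFiniteMeasure μ]
    [μ.IsMulRightInvariant] (l l' : V →ₗ[ℂ] ℂ) (a v : V) {x : G} (hx : x ∈ c.K) :
    B1b_lam hc hK μ l l' (act x v) (act x a) = B1b_lam hc hK μ l l' v a := by
  show ∫ k : Kgrp hc, l (act (k : G) (act x a)) * conj (l' (act (k : G) (act x v))) ∂μ =
    ∫ k : Kgrp hc, l (act (k : G) a) * conj (l' (act (k : G) v)) ∂μ
  have h1 := integral_mul_right_eq_self (μ := μ)
    (fun k : Kgrp hc => l (act (k : G) a) * conj (l' (act (k : G) v))) (⟨x, hx⟩ : Kgrp hc)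
  rw [← h1]
  refine integral_congr_ae (Filter.Eventually.of_forall fun k => ?_)
  show l (act (k : G) (act x a)) * conj (l' (act (k : G) (act x v))) =
    l (act ((k : G) * x) a) * conj (l' (act ((k : G) * x) v))
  rw [hK.act_mul _ k.2 _ hx, hK.act_mul _ k.2 _ hx]

private theorem B1b_conj (hc : IsCore c) (hK : IsKm c L act)
    [MeasurableSpace (Kgrp hc)] [BorelSpace (Kgrp hc)] (μ : Measure (Kgrp hc)) [IsFiniteMeasure μ]
    (l l' : V →ₗ[ℂ] ℂ) (a v : V) :
    B1b_lam hc hK μ l l' v a = conj (B1b_lam hc hK μ l' l a v) := by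
  show ∫ k : Kgrp hc, l (act (k : G) a) * conj (l' (act (k : G) v)) ∂μ =
    conj (∫ k : Kgrp hc, l' (act (k : G) v) * conj (l (act (k : G) a)) ∂μ)
  rw [← integral_conj]
  refine integral_congr_ae (Filter.Eventually.of_forall fun k => ?_)
  show l (act (k : G) a) * conj (l' (act (k : G) v)) =
    conj (l' (act (k : G) v) * conj (l (act (k : G) a)))
  rw [map_mul (starRingEnd ℂ), Complex.conj_conj, mul_comm]

/-- SKEW-SYMMETRY.
PROOF. Let `F t = ∫ l (act k (act (ex (t Y)) u)) conj (l' (act k (act (ex (t Y)) v))) dμ(k)`. By right invariance and `act (k * ex(tY)) = act k ∘ act (ex (tY))`, `F` is constant. Let `W` be the span of the translates of `u` (finite dimensional, basis `w_a`), `act (ex (tY)) u = Σ_a φ_a(t) w_a` with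
`φ_a(t) = f_a (act (ex (tY)) u)` for linear functionals `f_a : V → ℂ` extending the coordinate functionals on `W` (`hK.cont`, `hK.diff`: `φ_a` is differentiable at `0` with derivative `f_a (L Y u)`; also `L Y u ∈ W`, because every functional vanishing on `W` vanishes at `L Y u`); the same for `v` (`W'`, `w'_b`, `ψ_b`).
So `F t = Σ_{a,b} φ_a(t) conj(ψ_b(t)) ∫ l (act k w_a) conj (l' (act k w'_b)) dμ` and `0 = F'(0) = Σ_ab (φ_a'(0) conj ψ_b(0) + φ_a(0) conj ψ_b'(0)) ∫ ..`, which is the claim (`Σ_a φ_a'(0) w_a = L Y u`). -/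
theorem coefK_skew (hc : IsCore c) (hK : IsKm c L act) [MeasurableSpace (Kgrp hc)]
    [BorelSpace (Kgrp hc)] (μ : Measure (Kgrp hc)) [IsFiniteMeasure μ] [μ.IsMulRightInvariant]
    (Y : Ed d) (hY : ∀ i ∉ c.kI, Y i = 0) (l l' : V →ₗ[ℂ] ℂ) (u v : V) :
    (∫ k : Kgrp hc, l (act (k : G) (L Y u)) * conj (l' (act (k : G) v)) ∂μ) +
      ∫ k : Kgrp hc, l (act (k : G) u) * conj (l' (act (k : G) (L Y v))) ∂μ = 0 := by
  have hex : ∀ t : ℝ, c.ex (t • Y) ∈ c.K := by
    intro t
    refine hc.K_ex' _ fun i hi => ?_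
    rw [PiLp.smul_apply, hY i hi, smul_zero]
  have hex0 : c.ex ((0 : ℝ) • Y) = 1 := by
    have h1 := hc.ex_add Y 0 0
    rw [add_zero] at h1
    exact (mul_eq_left (a := c.ex ((0 : ℝ) • Y))).mp h1.symm
  have hinv : ∀ t : ℝ, ∀ w : V, act (c.ex ((-t) • Y)) (act (c.ex (t • Y)) w) = w := by
    intro t w
    rw [← hK.act_mul _ (hex _) _ (hex _), ← hc.ex_add, neg_add_cancel, hex0, hK.act_one]
  have hφ := hK.diff Y hY u (B1b_lam hc hK μ l l' v)
  have hψ := hK.diff (-Y) (fun i hi => by rw [PiLp.neg_apply, hY i hi, neg_zero]) v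
    (B1b_lam hc hK μ l' l u)
  have heq : (fun t : ℝ => B1b_lam hc hK μ l l' v (act (c.ex (t • Y)) u)) =
      fun t : ℝ => conj (B1b_lam hc hK μ l' l u (act (c.ex (t • (-Y))) v)) := by
    funext t
    have h1 : t • (-Y) = (-t) • Y := by rw [smul_neg, neg_smul]
    rw [← B1b_inv hc hK μ l l' (act (c.ex (t • Y)) u) v (hex (-t)), hinv t u, B1b_conj, h1]
  have hψ' : HasDerivAt (fun t : ℝ => conj (B1b_lam hc hK μ l' l u (act (c.ex (t • (-Y))) v)))
      (conj (B1b_lam hc hK μ l' l u (L (-Y) v))) 0 := hψ.star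
  rw [heq] at hφ
  have hun := hφ.unique hψ'
  rw [← B1b_conj] at hun
  have hneg : B1b_lam hc hK μ l l' (L (-Y) v) u =
      -∫ k : Kgrp hc, l (act (k : G) u) * conj (l' (act (k : G) (L Y v))) ∂μ := by
    show ∫ k : Kgrp hc, l (act (k : G) u) * conj (l' (act (k : G) (L (-Y) v))) ∂μ = _
    rw [← integral_neg]
    refine integral_congr_ae (Filter.Eventually.of_forall fun k => ?_)
    show l (act (k : G) u) * conj (l' (act (k : G) (L (-Y) v))) =
      -(l (act (k : G) u) * conj (l' (act (k : G) (L Y v))))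
    rw [map_neg L, LinearMap.neg_apply, map_neg, map_neg, map_neg, mul_neg]
  rw [hneg] at hun
  have hun' : (∫ k : Kgrp hc, l (act (k : G) (L Y u)) * conj (l' (act (k : G) v)) ∂μ) =
      -∫ k : Kgrp hc, l (act (k : G) u) * conj (l' (act (k : G) (L Y v))) ∂μ := hun
  rw [hun', neg_add_cancel]

end Pool.Agent.RG
end

section

/-!
# B1c: `K`-invariant inner products of matrix coefficients
-/

namespace Pool.Agent.RG

open MeasureTheory Topology Filter Set
open scoped InnerProductSpace ComplexConjugate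

universe u v

variable {G : Type u} [Group G] [TopologicalSpace G] [IsTopologicalGroup G] [T2Space G] {d : ℕ}
  {c : Core G d} {V : Type v} [AddCommGroup V] [Module ℂ V] {L : Ed d →ₗ[ℝ] (V →ₗ[ℂ] V)}
  {act : G → V →ₗ[ℂ] V}

private noncomputable def B1c_coef (hc : IsCore c) (hK : IsKm c L act) (l : V →ₗ[ℂ] ℂ) :
    V →ₗ[ℂ] C(Kgrp hc, ℂ) where
  toFun v := ⟨fun k => l (act (k : G) v), coefK_cont hc hK l v⟩
  map_add' u v := by ext k; simp
  map_smul' a v := by ext k; simp

/-- A separating family of maps to Hilbert spaces for which the `X_i`, `i ∈ kI`, are skew-symmetric.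
PROOF. `H = L²(K, μ)` (`Lp ℂ 2 μ`, `exists_haarK`), `T l v = ` the class of `k ↦ l (act k v)` (continuous on the compact group, so in `L²`). `Ksk`: `coefK_skew` with `Y = eb i` and `l' = l` (`L2.inner_def`; the inner product of `Lp` is conjugate linear in the first variable, so take complex conjugates). Separation: if `T l v = 0` then
the continuous function `k ↦ l (act k v)` vanishes a.e., hence everywhere (`μ` is positive on open sets), in particular at `k = 1`. -/
theorem exists_T (hc : IsCore c) (hK : IsKm c L act) :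
    ∃ (H : Type u) (_ : NormedAddCommGroup H) (_ : InnerProductSpace ℂ H)
      (T : (V →ₗ[ℂ] ℂ) → V →ₗ[ℂ] H), (∀ l, Ksk c L (T l)) ∧ ∀ l v, T l v = 0 → l v = 0 := by
  letI : MeasurableSpace (Kgrp hc) := borel _
  haveI : BorelSpace (Kgrp hc) := ⟨rfl⟩
  haveI : CompactSpace (Kgrp hc) := Kgrp_compact hc
  obtain ⟨μ, hfin, hri, hli, hpos⟩ := exists_haarK hc
  haveI := hfin
  haveI := hri
  haveI : μ.IsOpenPosMeasure := ⟨fun U hU hne => hpos U hU hne⟩
  refine ⟨Lp ℂ 2 μ, inferInstance, inferInstance,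
    fun l => (ContinuousMap.toLp (E := ℂ) 2 μ ℂ).toLinearMap.comp (B1c_coef hc hK l), ?_, ?_⟩
  · intro l i hi u v
    have hY : ∀ j ∉ c.kI, (eb i : Ed d) j = 0 := by
      intro j hj
      have : j ≠ i := fun h => hj (h ▸ hi)
      simp [eb, this]
    have h1 := coefK_skew hc hK μ (eb i) hY l l v u
    simp only [LinearMap.comp_apply, ContinuousLinearMap.coe_coe]
    rw [ContinuousMap.inner_toLp, ContinuousMap.inner_toLp, add_comm]
    exact h1
  · intro l v h
    simp only [LinearMap.comp_apply, ContinuousLinearMap.coe_coe] at h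
    have h2 : B1c_coef hc hK l v = 0 := by
      apply ContinuousMap.toLp_injective (E := ℂ) (p := 2) (𝕜 := ℂ) μ
      rw [h, map_zero]
    have h3 : B1c_coef hc hK l v (1 : Kgrp hc) = 0 := by rw [h2]; rfl
    have h4 : l (act (1 : G) v) = 0 := h3
    rwa [hK.act_one] at h4

end Pool.Agent.RG
end
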