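import Pool.Agent.Lib.MP_496a9e_al.Mg.G001
import Pool.Agent.Lib.MP_496a9e_al.Mg.G005

section

/-! A3: coordinates and norms of matrices -/
end

section

/-!
# A4a: the function `M` and the group `K`
-/

namespace Pool.Agent.RG

open Matrix

universe u

variable {G : Type u} [Group G] [TopologicalSpace G] [IsTopologicalGroup G] {N : ℕ}
  {S : RData G N}

/-- PROOF. `φ x * φ x⁻¹ = φ 1 = 1`. -/
theorem phi_inv (hS : IsRed S) (x : G) : S.φ x * S.φ x⁻¹ = 1 ∧ S.φ x⁻¹ * S.φ x = 1 := by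
  constructor
  · rw [← hS.mul, mul_inv_cancel, hS.one]
  · rw [← hS.mul, inv_mul_cancel, hS.one]

/-- PROOF. `φ k⁻¹ = (φ k)ᵀ`. -/
theorem phi_K_inv (hS : IsRed S) {k : G} (hk : k ∈ S.K) : S.φ k⁻¹ = (S.φ k)ᵀ := by
  have h1 : (S.φ k)ᵀ * S.φ k = 1 := hk
  have h2 := (phi_inv hS k).1
  calc S.φ k⁻¹ = 1 * S.φ k⁻¹ := (one_mul _).symm
    _ = ((S.φ k)ᵀ * S.φ k) * S.φ k⁻¹ := by rw [h1]
    _ = (S.φ k)ᵀ * (S.φ k * S.φ k⁻¹) := mul_assoc _ _ _
    _ = (S.φ k)ᵀ := by rw [h2, mul_one]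

/-- PROOF. `opn 1 ≤ 1`. -/
theorem Mf_one (hS : IsRed S) : S.Mf 1 = 1 := by
  unfold RData.Mf
  rw [inv_one, hS.one, max_self, max_eq_left opn_one]

/-- PROOF. `opn (φ x φ y) ≤ opn (φ x) opn (φ y)`, `(x y)⁻¹ = y⁻¹ x⁻¹`; `max 1 (max a b)` is submultiplicative. -/
theorem Mf_mul (hS : IsRed S) (x y : G) : S.Mf (x * y) ≤ S.Mf x * S.Mf y := by
  have hx1 : (1 : ℝ) ≤ S.Mf x := le_max_left _ _
  have hy1 : (1 : ℝ) ≤ S.Mf y := le_max_left _ _
  have hx2 : opn (S.φ x) ≤ S.Mf x := (le_max_left _ _).trans (le_max_right _ _)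
  have hx3 : opn (S.φ x⁻¹) ≤ S.Mf x := (le_max_right _ _).trans (le_max_right _ _)
  have hy2 : opn (S.φ y) ≤ S.Mf y := (le_max_left _ _).trans (le_max_right _ _)
  have hy3 : opn (S.φ y⁻¹) ≤ S.Mf y := (le_max_right _ _).trans (le_max_right _ _)
  refine max_le ?_ (max_le ?_ ?_)
  · calc (1 : ℝ) = 1 * 1 := (one_mul 1).symm
      _ ≤ S.Mf x * S.Mf y := mul_le_mul hx1 hy1 zero_le_one (zero_le_one.trans hx1)
  · rw [hS.mul]
    exact (opn_mul _ _).trans (mul_le_mul hx2 hy2 (opn_nonneg _) (zero_le_one.trans hx1))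
  · rw [_root_.mul_inv_rev, hS.mul, mul_comm (S.Mf x)]
    exact (opn_mul _ _).trans (mul_le_mul hy3 hx3 (opn_nonneg _) (zero_le_one.trans hy1))

/-- PROOF. `max_comm`, `inv_inv`. -/
theorem Mf_inv (x : G) : S.Mf x⁻¹ = S.Mf x := by
  unfold RData.Mf
  rw [inv_inv, max_comm (opn (S.φ x⁻¹))]

/-- PROOF. `le_max_left`. -/
theorem Mf_ge (x : G) : 1 ≤ S.Mf x := le_max_left _ _

/-- PROOF. Continuity of `φ`, `opn`, inversion. -/
theorem Mf_cont (hS : IsRed S) : Continuous S.Mf := by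
  have h1 : Continuous fun x => opn (S.φ x) := opn_cont.comp hS.cont
  have h2 : Continuous fun x : G => opn (S.φ x⁻¹) := h1.comp continuous_inv
  exact continuous_const.max (h1.max h2)

/-- PROOF. `opn_orth` for `φ k` and `φ k⁻¹ = (φ k)ᵀ`. -/
theorem Mf_K (hS : IsRed S) {k : G} (hk : k ∈ S.K) : S.Mf k = 1 := by
  have h1 : (S.φ k)ᵀ * S.φ k = 1 := hk
  have h2 : opn (S.φ k) ≤ 1 := opn_orth h1
  have h3 : opn (S.φ k⁻¹) ≤ 1 := by
    apply opn_orth
    rw [phi_K_inv hS hk, transpose_transpose]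
    exact mul_eq_one_comm.1 h1
  unfold RData.Mf
  exact max_eq_left (max_le h2 h3)

/-- PROOF. `φ 1 = 1`. -/
theorem K_one (hS : IsRed S) : (1 : G) ∈ S.K := by
  show (S.φ 1)ᵀ * S.φ 1 = 1
  rw [hS.one, transpose_one, one_mul]

/-- PROOF. Orthogonal matrices. -/
theorem K_mul (hS : IsRed S) {k l : G} (hk : k ∈ S.K) (hl : l ∈ S.K) : k * l ∈ S.K := by
  have h1 : (S.φ k)ᵀ * S.φ k = 1 := hk
  have h2 : (S.φ l)ᵀ * S.φ l = 1 := hl
  show (S.φ (k * l))ᵀ * S.φ (k * l) = 1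
  rw [hS.mul, transpose_mul]
  calc (S.φ l)ᵀ * (S.φ k)ᵀ * (S.φ k * S.φ l) = (S.φ l)ᵀ * ((S.φ k)ᵀ * S.φ k) * S.φ l := by
        simp only [mul_assoc]
    _ = 1 := by rw [h1, mul_one, h2]

/-- PROOF. Orthogonal matrices. -/
theorem K_inv (hS : IsRed S) {k : G} (hk : k ∈ S.K) : k⁻¹ ∈ S.K := by
  have h1 : (S.φ k)ᵀ * S.φ k = 1 := hk
  show (S.φ k⁻¹)ᵀ * S.φ k⁻¹ = 1
  rw [phi_K_inv hS hk, transpose_transpose]
  exact mul_eq_one_comm.1 h1

end Pool.Agent.RG
end

section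

/-!
# A4b: the function `M` and the group `K`
-/

namespace Pool.Agent.RG

open Matrix

universe u

variable {G : Type u} [Group G] [TopologicalSpace G] [IsTopologicalGroup G] {N : ℕ}
  {S : RData G N}

private theorem A4b_frob_nonneg (X : Mat N) : 0 ≤ frob X := Real.sqrt_nonneg _

private theorem A4b_frob_neg (X : Mat N) : frob (-X) = frob X := by
  simp [frob]

private theorem A4b_Mf (hS : IsRed S) {X : Mat N} (hX : X ∈ S.alg) :
    S.Mf (S.exp X) = max 1 (max (opn (NormedSpace.exp X)) (opn (NormedSpace.exp (-X)))) := by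
  rw [RData.Mf, ← exp_neg' hS hX, phi_exp hS hX, phi_exp hS (S.alg.neg_mem hX)]

/-- PROOF. `φ (exp X) = exp X`, `φ (exp X)⁻¹ = exp(-X)`; `opn_exp_le`, `opn_le_frob`. -/
theorem Mf_exp (hS : IsRed S) {X : Mat N} (hX : X ∈ S.alg) :
    S.Mf (S.exp X) ≤ Real.exp (frob X) := by
  rw [A4b_Mf hS hX]
  refine max_le ?_ (max_le ?_ ?_)
  · exact Real.one_le_exp (A4b_frob_nonneg X)
  · exact (opn_exp_le X).trans (Real.exp_le_exp.2 (opn_le_frob X))
  · refine (opn_exp_le (-X)).trans (Real.exp_le_exp.2 ?_)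
    rw [← A4b_frob_neg X]
    exact opn_le_frob (-X)

/-- PROOF. `exp(X)ᵀ exp(X) = exp(Xᵀ) exp(X) = exp(-X) exp(X) = 1` (`Matrix.exp_transpose`). -/
theorem K_exp (hS : IsRed S) {X : Mat N} (hX : X ∈ S.alg) (h : Xᵀ = -X) : S.exp X ∈ S.K := by
  change (S.φ (S.exp X))ᵀ * S.φ (S.exp X) = 1
  have h1 : (S.φ (S.exp X))ᵀ = S.φ (S.exp X)⁻¹ := by
    rw [← exp_neg' hS hX, phi_exp hS hX, phi_exp hS (S.alg.neg_mem hX), ← Matrix.exp_transpose, h]
  rw [h1]
  exact (phi_inv hS (S.exp X)).2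

/-- GROWTH along the Cartan decomposition.
PROOF. `x = k * exp X`, `X` symmetric (`hS.cartan`). `exp X = k⁻¹ x`, so `Mf (exp X) ≤ Mf k⁻¹ * Mf x = Mf x`. And `Mf (exp X) ≥ exp (opn X) ≥ exp (frob X / √N)` by `exp_opn_le`, `frob_le_opn` (`φ (exp X)⁻¹ = exp (-X)`); take `a = 1 / √(N+1)` (this also covers `N = 0`). -/
theorem cartan_growth (hS : IsRed S) : ∃ a : ℝ, 0 < a ∧ ∀ x : G, ∃ k ∈ S.K, ∃ X ∈ S.alg,
    x = k * S.exp X ∧ Real.exp (a * frob X) ≤ S.Mf x := by
  refine ⟨1 / Real.sqrt (N + 1), by positivity, fun x => ?_⟩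
  obtain ⟨k, hk, X, hX, hXt, hx⟩ := hS.cartan x
  refine ⟨k, hk, X, hX, hx, ?_⟩
  have h1 : S.Mf (S.exp X) ≤ S.Mf x := by
    have h2 : S.exp X = k⁻¹ * x := by rw [hx]; group
    have h3 := Mf_mul hS k⁻¹ x
    rw [Mf_inv, Mf_K hS hk, one_mul, ← h2] at h3
    exact h3
  refine le_trans ?_ h1
  rw [A4b_Mf hS hX]
  refine le_trans (Real.exp_le_exp.2 ?_) (exp_opn_le hXt)
  have h4 : frob X ≤ Real.sqrt (N + 1) * opn X := by
    refine (frob_le_opn X).trans (mul_le_mul_of_nonneg_right ?_ (opn_nonneg X))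
    exact Real.sqrt_le_sqrt (by linarith)
  have h5 : (0 : ℝ) < Real.sqrt (N + 1) := by positivity
  rw [one_div, inv_mul_le_iff₀ h5]
  exact h4

/-- PROOF. `K = φ⁻¹(orthogonal matrices)`; it is compact by `hS.compact`. `opn (φ x) ≤ Mf x`, `opn (φ x⁻¹) ≤ Mf x`, `frob_mul_le`, `frob_mul_le'`. -/
theorem frob_conj (hS : IsRed S) (x : G) (X : Mat N) :
    frob (S.φ x * X * S.φ x⁻¹) ≤ S.Mf x ^ 2 * frob X := by
  have h1 : opn (S.φ x) ≤ S.Mf x := (le_max_left _ _).trans (le_max_right _ _)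
  have h2 : opn (S.φ x⁻¹) ≤ S.Mf x := (le_max_right _ _).trans (le_max_right _ _)
  have h0 : 0 ≤ frob X := A4b_frob_nonneg X
  have h3 : 0 ≤ S.Mf x := zero_le_one.trans (le_max_left _ _)
  calc frob (S.φ x * X * S.φ x⁻¹) ≤ frob (S.φ x * X) * opn (S.φ x⁻¹) := frob_mul_le' _ _
    _ ≤ (opn (S.φ x) * frob X) * opn (S.φ x⁻¹) :=
        mul_le_mul_of_nonneg_right (frob_mul_le _ _) (opn_nonneg _)
    _ ≤ (S.Mf x * frob X) * S.Mf x :=
        mul_le_mul (mul_le_mul_of_nonneg_right h1 h0) h2 (opn_nonneg _) (mul_nonneg h3 h0)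
    _ = S.Mf x ^ 2 * frob X := by ring

end Pool.Agent.RG
end

section

/-! A4: the function `M` and the group `K` -/
end

section

/-!
# A5a: the adjoint representation in coordinates
-/

namespace Pool.Agent.RG

open Matrix Topology

universe u

variable {G : Type u} [Group G] [TopologicalSpace G] [IsTopologicalGroup G] {N : ℕ}
  {S : RData G N} {d : ℕ} {e : Fin d → Mat N} {kI : Finset (Fin d)}

private theorem A5a_crd_zero (e : Fin d → Mat N) : crd e (0 : Mat N) = 0 := by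
  have h := crd_smul e 0 0
  rwa [zero_smul, zero_smul] at h

private theorem A5a_crd_sum (e : Fin d → Mat N) (s : Finset (Fin d)) (f : Fin d → Mat N) :
    crd e (∑ i ∈ s, f i) = ∑ i ∈ s, crd e (f i) := by
  classical
  induction s using Finset.induction_on with
  | empty => rw [Finset.sum_empty, Finset.sum_empty, A5a_crd_zero]
  | insert a s ha ih => rw [Finset.sum_insert ha, Finset.sum_insert ha, crd_add, ih]

/-- PROOF. Definition; linearity of `crd`. -/
theorem ad_apply (x : G) (Y : Ed d) :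
    (coreOf S e kI).ad x Y = crd e (S.φ x * hat e Y * S.φ x⁻¹) := by
  have h1 : (coreOf S e kI).ad x Y = ∑ i, Y i • crd e (S.φ x * e i * S.φ x⁻¹) := by
    unfold coreOf
    simp only []
    rw [ContinuousLinearMap.sum_apply]
    rfl
  have h2 : S.φ x * hat e Y * S.φ x⁻¹ = ∑ i, Y i • (S.φ x * e i * S.φ x⁻¹) := by
    unfold hat
    rw [Finset.mul_sum, Finset.sum_mul]
    refine Finset.sum_congr rfl fun i _ => ?_
    rw [Matrix.mul_smul, Matrix.smul_mul]
  rw [h1, h2, A5a_crd_sum]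
  exact Finset.sum_congr rfl fun i _ => (crd_smul e _ _).symm

/-- PROOF. `hat_crd`, `hS.ad_mem`. -/
theorem hat_ad (hS : IsRed S) (h : IsAd S e kI) (x : G) (Y : Ed d) :
    hat e ((coreOf S e kI).ad x Y) = S.φ x * hat e Y * S.φ x⁻¹ := by
  rw [ad_apply, hat_crd h (hS.ad_mem x _ (hat_mem h Y))]

/-- PROOF. `hat_smul`, `hS.exp_add`. -/
theorem core_ex_add (hS : IsRed S) (h : IsAd S e kI) (Y : Ed d) (s t : ℝ) :
    (coreOf S e kI).ex ((s + t) • Y) = (coreOf S e kI).ex (s • Y) * (coreOf S e kI).ex (t • Y) := by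
  show S.exp (hat e ((s + t) • Y)) = S.exp (hat e (s • Y)) * S.exp (hat e (t • Y))
  rw [hat_smul, hat_smul, hat_smul, hS.exp_add _ (hat_mem h Y)]

/-- PROOF. `hat` is continuous with values in `alg`, `hS.exp_cont`. -/
theorem core_ex_cont (hS : IsRed S) (h : IsAd S e kI) : Continuous (coreOf S e kI).ex := by
  show Continuous fun Y => S.exp (hat e Y)
  exact hS.exp_cont.comp_continuous (hat_cont e) fun Y => hat_mem h Y

/-- PROOF. For `U ∈ 𝓝 0` let `U' = {X | crd e X ∈ U}`, a neighborhood of `0` (`crd` is continuous, `crd 0 = 0`). `exp '' (U' ∩ alg) ∈ 𝓝 1` and it is contained in `ex '' U` (`X = hat (crd X)`). -/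
theorem core_ex_open (hS : IsRed S) (h : IsAd S e kI) (U : Set (Ed d)) (hU : U ∈ 𝓝 (0 : Ed d)) :
    (coreOf S e kI).ex '' U ∈ 𝓝 (1 : G) := by
  have hU' : {X : Mat N | crd e X ∈ U} ∈ 𝓝 (0 : Mat N) := by
    have h1 : Filter.Tendsto (crd e) (𝓝 0) (𝓝 (crd e 0)) := (crd_cont e).tendsto 0
    rw [A5a_crd_zero] at h1
    exact h1 hU
  refine Filter.mem_of_superset (hS.exp_open _ hU') ?_
  rintro _ ⟨X, ⟨hX, hXa⟩, rfl⟩
  refine ⟨crd e X, hX, ?_⟩
  show S.exp (hat e (crd e X)) = S.exp X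
  rw [hat_crd h hXa]

/-- PROOF. `hat_ad`, `hS.ad_exp`. -/
theorem core_conj (hS : IsRed S) (h : IsAd S e kI) (x : G) (Y : Ed d) :
    (coreOf S e kI).ex ((coreOf S e kI).ad x Y) = x * (coreOf S e kI).ex Y * x⁻¹ := by
  show S.exp (hat e ((coreOf S e kI).ad x Y)) = x * S.exp (hat e Y) * x⁻¹
  rw [hat_ad hS h, hS.ad_exp x _ (hat_mem h Y)]

/-- PROOF. `ad_apply`, `φ 1 = 1`, `crd_hat`. -/
theorem core_ad_one (hS : IsRed S) (h : IsAd S e kI) :
    (coreOf S e kI).ad 1 = ContinuousLinearMap.id ℝ (Ed d) := by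
  ext1 Y
  rw [ad_apply, inv_one, hS.one, one_mul, mul_one, crd_hat h]
  rfl

/-- PROOF. `ad_apply`, `hat_ad`, `φ (x y) = φ x φ y`. -/
theorem core_ad_mul (hS : IsRed S) (h : IsAd S e kI) (x y : G) :
    (coreOf S e kI).ad (x * y) = ((coreOf S e kI).ad x).comp ((coreOf S e kI).ad y) := by
  ext1 Y
  rw [ContinuousLinearMap.comp_apply, ad_apply, ad_apply x, hat_ad hS h, _root_.mul_inv_rev, hS.mul, hS.mul]
  congr 1
  simp only [mul_assoc]

end Pool.Agent.RG
end

section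

/-!
# E8b: derivatives of `Op(h) v` on the left
-/

namespace Pool.Agent.RG

open MeasureTheory Topology Filter Set
open scoped SchwartzMap

universe u v

variable {G : Type u} [Group G] [TopologicalSpace G] {d : ℕ} {c : Core G d} {A : ℕ}
  {χ : Ed d → ℝ} {κ : Fin d → Fin d → Ed d → ℝ}

/-- the vectors `ι (β twisted) v` depend continuously on `Y` -/
private theorem E8b_cont (hc : IsCore c) (R : Cal.{u, v} c A) (n : ℝ) (β : List (Fin d))
    (v : R.V) :
    Continuous fun Y : Ed d =>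
      R.π (c.ex (n⁻¹ • Y)) (R.ι (wda c R.L (c.ex (-(n⁻¹ • Y))) β v)) := by
  have h1 : Continuous fun Y : Ed d => R.ι (wda c R.L (c.ex (-(n⁻¹ • Y))) β v) := by
    have h2 : (fun Y : Ed d => R.ι (wda c R.L (c.ex (-(n⁻¹ • Y))) β v)) = fun Y : Ed d =>
        ∑ γ : Fin β.length → Fin d, ((wcf c (c.ex (-(n⁻¹ • Y))) β (List.ofFn γ) : ℝ) : ℂ) •
          R.ι (wd R.L (List.ofFn γ) v) := by
      funext Y
      rw [wda_eq, map_sum]
      simp only [map_smul]
    rw [h2]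
    refine continuous_finsetSum _ (fun γ _ => ?_)
    have h3 : Continuous fun Y : Ed d => wcf c (c.ex (-(n⁻¹ • Y))) β (List.ofFn γ) :=
      (wcf_cont hc β (List.ofFn γ)).comp (hc.ex_cont.comp (by fun_prop))
    exact (Complex.continuous_ofReal.comp h3).smul continuous_const
  have h4 : Continuous fun Y : Ed d => c.ex (n⁻¹ • Y) := hc.ex_cont.comp (by fun_prop)
  exact R.cont.comp (h4.prodMk h1)

/-- LEFT DERIVATIVE.
PROOF. `π (ex (t • e_i)) (OpW h β v) = ∫ χ h π (ex (t e_i)) π (g_Y) (ι w_Y) dY`, `g_Y = ex (Y/n)`, `w_Y = wda (g_Y⁻¹) β v` (`ex (-Z) = (ex Z)⁻¹`). By `der_left` (translated to time `t`)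
`t ↦ π (ex (t e_i)) π (g_Y) (ι w_Y)` has derivative `π (ex (t e_i)) π (g_Y) (ι (L (ad g_Y⁻¹ e_i) w_Y))`, i.e. the integrand of `OpW h (i :: β) v` at `t = 0`. With `wda_eq`, `wcf_cont` and joint
continuity of `π` this derivative is continuous in `(t, Y)` and the integrand has compact support in `Y`, so it is bounded for `|t| ≤ 1`: differentiate under the integral
(`hasDerivAt_integral_of_dominated_loc_of_deriv_le`). -/
theorem OpW_der (hc : IsCore c) (hχ : IsCut c χ κ) (R : Cal.{u, v} c A) {n : ℝ} (hn : 1 ≤ n)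
    {h : Ed d → ℂ} (hh : Continuous h) (i : Fin d) (β : List (Fin d)) (v : R.V) :
    HasDerivAt (fun t : ℝ => R.π (c.ex (t • eb i)) (OpW χ R n h β v))
      (OpW χ R n h (i :: β) v) 0 := by
  have hn0 : 0 < n := lt_of_lt_of_le one_pos hn
  set a : Ed d → ℂ := fun Y => ((χ (n⁻¹ • Y) : ℝ) : ℂ) * h Y with ha
  have hac : Continuous a := by
    have h1 : Continuous fun Y : Ed d => χ (n⁻¹ • Y) :=
      hχ.χ_smooth.continuous.comp (by fun_prop)
    exact (Complex.continuous_ofReal.comp h1).mul hh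
  have ha0 : ∀ Y : Ed d, Y ∉ Metric.closedBall (0 : Ed d) n → a Y = 0 := by
    intro Y hY
    rw [Metric.mem_closedBall, dist_zero_right, not_le] at hY
    have h1 : 1 ≤ ‖n⁻¹ • Y‖ := by
      rw [norm_smul, norm_inv, Real.norm_of_nonneg hn0.le, inv_mul_eq_div, le_div_iff₀ hn0,
        one_mul]
      exact hY.le
    simp [ha, hχ.χ_supp _ h1]
  set W : List (Fin d) → Ed d → R.E := fun β Y =>
    R.π (c.ex (n⁻¹ • Y)) (R.ι (wda c R.L (c.ex (-(n⁻¹ • Y))) β v)) with hW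
  have hWc : ∀ β, Continuous (W β) := fun β => E8b_cont hc R n β v
  have hint : ∀ β, Integrable fun Y => a Y • W β Y := by
    intro β
    apply (hac.smul (hWc β)).integrable_of_hasCompactSupport
    apply HasCompactSupport.intro (isCompact_closedBall (0 : Ed d) n)
    intro Y hY
    simp [ha0 Y hY]
  have hexc : Continuous fun t : ℝ => c.ex (t • (eb i : Ed d)) := hc.ex_cont.comp (by fun_prop)
  have hF'c : Continuous fun p : ℝ × Ed d =>
      R.π (c.ex (p.1 • (eb i : Ed d))) (a p.2 • W (i :: β) p.2) :=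
    R.cont.comp ((hexc.comp continuous_fst).prodMk
      ((hac.comp continuous_snd).smul ((hWc _).comp continuous_snd)))
  obtain ⟨C, hC⟩ := ((isCompact_Icc (a := (-1 : ℝ)) (b := 1)).prod
    (isCompact_closedBall (0 : Ed d) n)).exists_bound_of_continuousOn hF'c.continuousOn
  have key := hasDerivAt_integral_of_dominated_loc_of_deriv_le
    (F := fun (t : ℝ) (Y : Ed d) => R.π (c.ex (t • (eb i : Ed d))) (a Y • W β Y))
    (F' := fun (t : ℝ) (Y : Ed d) => R.π (c.ex (t • (eb i : Ed d))) (a Y • W (i :: β) Y))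
    (x₀ := (0 : ℝ)) (s := Metric.ball (0 : ℝ) 1) (μ := (volume : Measure (Ed d)))
    (bound := (Metric.closedBall (0 : Ed d) n).indicator fun _ => C)
    (Metric.ball_mem_nhds _ one_pos)
    (Eventually.of_forall fun t => by
      have h1 : Continuous fun Y : Ed d => R.π (c.ex (t • (eb i : Ed d))) (a Y • W β Y) :=
        (R.π _).continuous.comp (hac.smul (hWc β))
      exact h1.aestronglyMeasurable)
    (by
      have h1 : (fun Y : Ed d => R.π (c.ex ((0 : ℝ) • (eb i : Ed d))) (a Y • W β Y))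
          = fun Y => a Y • W β Y := by
        funext Y
        rw [zero_smul, hc.ex_zero, R.one]
      show Integrable (fun Y : Ed d => R.π (c.ex ((0 : ℝ) • (eb i : Ed d))) (a Y • W β Y)) _
      rw [h1]
      exact hint β)
    (by
      have h1 : Continuous fun Y : Ed d =>
          R.π (c.ex ((0 : ℝ) • (eb i : Ed d))) (a Y • W (i :: β) Y) :=
        (R.π _).continuous.comp (hac.smul (hWc (i :: β)))
      exact h1.aestronglyMeasurable)
    (Eventually.of_forall fun Y t ht => by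
      by_cases hY : Y ∈ Metric.closedBall (0 : Ed d) n
      · rw [indicator_of_mem hY]
        rw [Metric.mem_ball, dist_zero_right, Real.norm_eq_abs, abs_lt] at ht
        exact hC (t, Y) ⟨⟨ht.1.le, ht.2.le⟩, hY⟩
      · rw [indicator_of_notMem hY, ha0 Y hY, zero_smul, map_zero, norm_zero])
    (by
      rw [integrable_indicator_iff measurableSet_closedBall]
      exact integrableOn_const (measure_closedBall_lt_top.ne))
    (Eventually.of_forall fun Y t _ => by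
      have h1 := R.der_left hc (c.ex (n⁻¹ • Y)) (eb i) (wda c R.L (c.ex (-(n⁻¹ • Y))) β v)
      rw [← hc.ex_neg] at h1
      have h2 : HasDerivAt (fun s : ℝ => R.π (c.ex (s • (eb i : Ed d))) (W β Y))
          (W (i :: β) Y) 0 := h1
      have h3 : HasDerivAt (fun s : ℝ => R.π (c.ex ((s - t) • (eb i : Ed d))) (W β Y))
          (W (i :: β) Y) t := by
        have h4 : HasDerivAt (fun s : ℝ => R.π (c.ex (s • (eb i : Ed d))) (W β Y))
          (W (i :: β) Y) (t - t) := by rw [sub_self]; exact h2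
        exact h4.comp_sub_const t t
      have h5 := (h3.const_smul (a Y))
      have h6 := ((R.π (c.ex (t • (eb i : Ed d)))).restrictScalars ℝ).hasFDerivAt.comp_hasDerivAt t h5
      refine h6.congr_of_eventuallyEq (Eventually.of_forall fun s => ?_)
      show R.π (c.ex (s • (eb i : Ed d))) (a Y • W β Y)
        = R.π (c.ex (t • (eb i : Ed d))) (a Y • R.π (c.ex ((s - t) • (eb i : Ed d))) (W β Y))
      rw [← map_smul (R.π (c.ex ((s - t) • (eb i : Ed d)))) (a Y) (W β Y),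
        ← R.mul (c.ex (t • (eb i : Ed d))) (c.ex ((s - t) • (eb i : Ed d))), ← hc.ex_add,
        add_sub_cancel])
  have h7 := key.2
  have h8 : (fun t : ℝ => R.π (c.ex (t • (eb i : Ed d))) (OpW χ R n h β v))
      = fun t : ℝ => ∫ Y, R.π (c.ex (t • (eb i : Ed d))) (a Y • W β Y) := by
    funext t
    rw [(R.π (c.ex (t • (eb i : Ed d)))).integral_comp_comm (hint β)]
    rfl
  have h9 : (∫ Y, R.π (c.ex ((0 : ℝ) • (eb i : Ed d))) (a Y • W (i :: β) Y))
      = OpW χ R n h (i :: β) v := by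
    have h10 : (fun Y : Ed d => R.π (c.ex ((0 : ℝ) • (eb i : Ed d))) (a Y • W (i :: β) Y))
        = fun Y => a Y • W (i :: β) Y := by
      funext Y
      rw [zero_smul, hc.ex_zero, R.one]
    rw [h10]
    rfl
  rw [h8, ← h9]
  exact h7

end Pool.Agent.RG
end

section

/-!
# E8c: derivatives of `Op(h) v` on the left
-/

namespace Pool.Agent.RG

open MeasureTheory Topology Filter Set
open scoped SchwartzMap

universe u v

variable {G : Type u} [Group G] [TopologicalSpace G] {d : ℕ} {c : Core G d} {A : ℕ}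
  {χ : Ed d → ℝ} {κ : Fin d → Fin d → Ed d → ℝ}

private theorem E8c_ex_zero (hc : IsCore c) : c.ex 0 = 1 := by
  have h := hc.ex_add 0 0 0
  simp only [smul_zero] at h
  exact left_eq_mul.mp h

private theorem E8c_wda_one (hc : IsCore c) {V : Type v} [AddCommGroup V] [Module ℂ V]
    (L : Ed d →ₗ[ℝ] (V →ₗ[ℂ] V)) (β : List (Fin d)) : wda c L 1 β = wd L β := by
  induction β with
  | nil => rfl
  | cons i β ih => simp [wda, wd, hc.ad_one, ih]

private theorem E8c_contDiff (hc : IsCore c) (β γ : List (Fin d)) :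
    ContDiff ℝ 1 (fun Z : Ed d => wcf c (c.ex (-Z)) β γ) := by
  induction β generalizing γ with
  | nil =>
    cases γ with
    | nil => simpa [wcf] using contDiff_const
    | cons j γ => simpa [wcf] using contDiff_const
  | cons i β ih =>
    cases γ with
    | nil => simpa [wcf] using contDiff_const
    | cons j γ =>
      simp only [wcf]
      refine ContDiff.mul ?_ (ih γ)
      have h1 : ContDiff ℝ 1 (fun Z : Ed d => c.ad (c.ex (-Z))) :=
        (hc.ad_ex.comp contDiff_neg).of_le (by norm_num)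
      have h2 : ContDiff ℝ 1 (fun Z : Ed d => c.ad (c.ex (-Z)) (eb i)) :=
        h1.clm_apply contDiff_const
      exact (EuclideanSpace.proj j : Ed d →L[ℝ] ℝ).contDiff.comp h2

private theorem E8c_lip (hc : IsCore c) (β γ : List (Fin d)) :
    ∃ C : ℝ, 0 ≤ C ∧ ∀ Z : Ed d, ‖Z‖ ≤ 1 →
      |wcf c (c.ex (-Z)) β γ - wcf c 1 β γ| ≤ C * ‖Z‖ := by
  have hf := E8c_contDiff hc β γ
  have hcont : Continuous (fderiv ℝ (fun Z : Ed d => wcf c (c.ex (-Z)) β γ)) :=
    hf.continuous_fderiv (by norm_num)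
  obtain ⟨C, hC⟩ := (isCompact_closedBall (0 : Ed d) 1).exists_bound_of_continuousOn
    hcont.continuousOn
  refine ⟨max C 0, le_max_right _ _, fun Z hZ => ?_⟩
  have h0 : (0 : Ed d) ∈ Metric.closedBall (0 : Ed d) 1 := by simp
  have h1 : Z ∈ Metric.closedBall (0 : Ed d) 1 := by simpa using hZ
  have h2 := (convex_closedBall (0 : Ed d) 1).norm_image_sub_le_of_norm_fderiv_le
    (f := fun Z : Ed d => wcf c (c.ex (-Z)) β γ) (𝕜 := ℝ)
    (fun x _ => hf.differentiable (by norm_num) x) hC h0 h1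
  simp only [neg_zero, E8c_ex_zero hc, sub_zero, Real.norm_eq_abs] at h2
  exact h2.trans (mul_le_mul_of_nonneg_right (le_max_left _ _) (norm_nonneg _))

/-- COMPARISON of the twisted and the untwisted word.
PROOF. `OpW h β v - Op h (ι (wd β v)) = ∫ χ(Y/n) h(Y) π (ex (Y/n)) Σ_γ (wcf (ex (-Y/n)) β γ - δ_{βγ}) ι (wd γ v) dY`. The function `Z ↦ wcf (ex (-Z)) β γ` is `C¹` (`hc.ad_ex`) with value `δ_{βγ}` at `0`
(`ad 1 = id`), so on the unit ball `|wcf (ex (-Z)) β γ - δ_{βγ}| ≤ C ‖Z‖` (mean value inequality on the closed ball). Put `Z = Y/n`; `‖J ι (wd γ v)‖ ≤ n^|β| T` (`|γ| = |β|`), and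
`‖J π (ex Z) w‖ ≤ exp(A) ‖J w‖`: total at most `exp(A) C #{γ} (∫ ‖h‖ ‖Y‖) n^|β| / n T` (`J_int_le`). -/
theorem OpW_sub (hc : IsCore c) (hχ : IsCut c χ κ) (A : ℕ) (h : 𝓢(Ed d, ℂ)) (β : List (Fin d)) :
    ∃ C : ℝ, 0 ≤ C ∧ ∀ (R : Cal.{u, v} c A) (n : ℝ), 1 ≤ n → ∀ (v : R.V) (T : ℝ),
      (∀ γ : List (Fin d), γ.length ≤ β.length →
        ‖R.J (R.ι (wd R.L γ v))‖ ≤ n ^ γ.length * T) →
      ‖R.J (OpW χ R n h β v - Op c χ R.π n h (R.ι (wd R.L β v)))‖ ≤
          C * n ^ β.length / n * T := by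
  classical
  choose C hC0 hC using fun γ : Fin β.length → Fin d => E8c_lip hc β (List.ofFn γ)
  have hI : Integrable (fun Y : Ed d => ‖Y‖ * ‖h Y‖) := by
    simpa using h.integrable_pow_mul volume 1
  have hI0 : 0 ≤ ∫ Y : Ed d, ‖Y‖ * ‖h Y‖ :=
    integral_nonneg fun Y => mul_nonneg (norm_nonneg _) (norm_nonneg _)
  refine ⟨Real.exp A * (∫ Y : Ed d, ‖Y‖ * ‖h Y‖) * ∑ γ, C γ,
    mul_nonneg (mul_nonneg (Real.exp_pos _).le hI0) (Finset.sum_nonneg fun γ _ => hC0 γ), ?_⟩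
  intro R n hn v T hT
  have hn0 : (0 : ℝ) < n := by linarith
  have hT0 : 0 ≤ T := by
    have h1 := hT [] (by simp)
    simp only [List.length_nil, pow_zero, one_mul] at h1
    exact (norm_nonneg _).trans h1
  set a : (Fin β.length → Fin d) → Ed d → ℝ := fun γ Y =>
    wcf c (c.ex (-(n⁻¹ • Y))) β (List.ofFn γ) - wcf c 1 β (List.ofFn γ) with ha
  have hacont : ∀ γ, Continuous (a γ) := by
    intro γ
    refine Continuous.sub ?_ continuous_const
    exact (wcf_cont hc β (List.ofFn γ)).comp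
      (hc.ex_cont.comp ((continuous_const_smul n⁻¹).neg))
  set F : (Fin β.length → Fin d) → Ed d → R.E := fun γ Y =>
    (((χ (n⁻¹ • Y) : ℝ) : ℂ) * (h Y * ((a γ Y : ℝ) : ℂ))) •
      R.π (c.ex (n⁻¹ • Y)) (R.ι (wd R.L (List.ofFn γ) v)) with hFdef
  have hF : ∀ γ, Integrable (F γ) := fun γ =>
    Op_integrable hc hχ R.cont hn
      (h.continuous.mul (Complex.continuous_ofReal.comp (hacont γ))) _
  have hpt : ∀ Y : Ed d, (((χ (n⁻¹ • Y) : ℝ) : ℂ) * h Y) •
      R.π (c.ex (n⁻¹ • Y)) (R.ι (wda c R.L (c.ex (-(n⁻¹ • Y))) β v)) =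
      (((χ (n⁻¹ • Y) : ℝ) : ℂ) * h Y) • R.π (c.ex (n⁻¹ • Y)) (R.ι (wd R.L β v)) +
        ∑ γ, F γ Y := by
    intro Y
    have h1 : wda c R.L (c.ex (-(n⁻¹ • Y))) β v = wd R.L β v +
        ∑ γ : Fin β.length → Fin d, ((a γ Y : ℝ) : ℂ) • wd R.L (List.ofFn γ) v := by
      rw [← E8c_wda_one hc R.L β, wda_eq, wda_eq, ← Finset.sum_add_distrib]
      refine Finset.sum_congr rfl fun γ _ => ?_
      rw [← add_smul]
      congr 1
      simp only [ha]
      push_cast
      ring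
    rw [h1, map_add, map_add, smul_add, map_sum, map_sum, Finset.smul_sum]
    congr 1
    refine Finset.sum_congr rfl fun γ _ => ?_
    simp only [hFdef]
    rw [map_smul, map_smul, smul_smul]
    congr 1
    ring
  have hsub : OpW χ R n h β v - Op c χ R.π n h (R.ι (wd R.L β v)) = ∑ γ, ∫ Y, F γ Y := by
    have h1 : OpW χ R n h β v = Op c χ R.π n h (R.ι (wd R.L β v)) + ∑ γ, ∫ Y, F γ Y := by
      unfold OpW Op
      rw [integral_congr_ae (Filter.Eventually.of_forall hpt)]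
      rw [integral_add (Op_integrable hc hχ R.cont hn h.continuous _)
        (integrable_finsetSum _ fun γ _ => hF γ), integral_finsetSum _ fun γ _ => hF γ]
    rw [h1, add_sub_cancel_left]
  rw [hsub, map_sum]
  refine (norm_sum_le _ _).trans ?_
  have hb : ∀ γ : Fin β.length → Fin d, ‖R.J (∫ Y, F γ Y)‖ ≤
      Real.exp A * (∫ Y : Ed d, ‖Y‖ * ‖h Y‖) * C γ * n ^ β.length / n * T := by
    intro γ
    have h1 := J_int_le R (hF γ)
      (g := fun Y => (Real.exp A * C γ * n⁻¹ * (n ^ β.length * T)) * (‖Y‖ * ‖h Y‖))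
      (hI.const_mul _) ?_
    · rw [integral_const_mul] at h1
      refine h1.trans (le_of_eq ?_)
      field_simp
    · intro Y
      have hrhs : 0 ≤ (Real.exp A * C γ * n⁻¹ * (n ^ β.length * T)) * (‖Y‖ * ‖h Y‖) := by
        have := hC0 γ
        positivity
      by_cases hY : 1 ≤ ‖n⁻¹ • Y‖
      · simp only [hFdef, hχ.χ_supp _ hY]
        simpa using hrhs
      · have hY' : ‖n⁻¹ • Y‖ ≤ 1 := (not_le.1 hY).le
        have hnorm : ‖n⁻¹ • Y‖ = n⁻¹ * ‖Y‖ := by
          rw [norm_smul, Real.norm_of_nonneg (inv_nonneg.2 hn0.le)]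
        have h2 : |a γ Y| ≤ C γ * (n⁻¹ * ‖Y‖) := by
          have := hC γ (n⁻¹ • Y) hY'
          rwa [hnorm] at this
        have h3 : ‖R.J (R.π (c.ex (n⁻¹ • Y)) (R.ι (wd R.L (List.ofFn γ) v)))‖ ≤
            Real.exp A * (n ^ β.length * T) := by
          refine (R.temp _ _).trans ?_
          have h4 : c.M (c.ex (n⁻¹ • Y)) ≤ Real.exp 1 :=
            (hc.M_ex _).trans (Real.exp_le_exp.2 hY')
          have h5 : c.M (c.ex (n⁻¹ • Y)) ^ A ≤ Real.exp A := by
            calc c.M (c.ex (n⁻¹ • Y)) ^ A ≤ Real.exp 1 ^ A :=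
                  pow_le_pow_left₀ (zero_le_one.trans (hc.M_ge _)) h4 _
              _ = Real.exp A := by rw [← Real.exp_nat_mul, mul_one]
          have h6 := hT (List.ofFn γ) (by simp)
          rw [List.length_ofFn] at h6
          exact mul_le_mul h5 h6 (norm_nonneg _) (Real.exp_pos _).le
        have hχ1 : |χ (n⁻¹ • Y)| ≤ 1 := by
          rw [abs_of_nonneg (hχ.χ_nonneg _)]
          exact hχ.χ_le _
        simp only [hFdef]
        rw [map_smul, norm_smul, norm_mul, norm_mul, Complex.norm_real, Complex.norm_real,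
          Real.norm_eq_abs, Real.norm_eq_abs]
        calc |χ (n⁻¹ • Y)| * (‖h Y‖ * |a γ Y|) *
              ‖R.J (R.π (c.ex (n⁻¹ • Y)) (R.ι (wd R.L (List.ofFn γ) v)))‖
            ≤ 1 * (‖h Y‖ * (C γ * (n⁻¹ * ‖Y‖))) * (Real.exp A * (n ^ β.length * T)) := by
              have := hC0 γ
              gcongr
          _ = _ := by ring
  refine (Finset.sum_le_sum fun γ _ => hb γ).trans (le_of_eq ?_)
  rw [Finset.mul_sum, Finset.sum_mul, Finset.sum_div, Finset.sum_mul]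

end Pool.Agent.RG
end

section

/-! E8: derivatives of `Op(h) v` on the left -/
end
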