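import Pool.Agent.Lib.MP_496a9e_al.Mg.G002

section

/-!
# A5b: the adjoint representation in coordinates
-/

namespace Pool.Agent.RG

open Matrix Topology

universe u

variable {G : Type u} [Group G] [TopologicalSpace G] [IsTopologicalGroup G] {N : ℕ}
  {S : RData G N} {d : ℕ} {e : Fin d → Mat N} {kI : Finset (Fin d)}

/-- PROOF. Finite sum of `smulRight` of continuous vector functions; `φ` and `x ↦ φ x⁻¹` are continuous. -/
theorem core_ad_cont (hS : IsRed S) : Continuous (coreOf S e kI).ad := by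
  show Continuous fun x => ∑ i, (EuclideanSpace.proj i : Ed d →L[ℝ] ℝ).smulRight
    (crd e (S.φ x * e i * S.φ x⁻¹))
  refine continuous_finset_sum _ fun i _ => ?_
  refine (ContinuousLinearMap.smulRightL ℝ (Ed d) (Ed d)
    (EuclideanSpace.proj i : Ed d →L[ℝ] ℝ)).continuous.comp ((crd_cont e).comp ?_)
  exact (hS.cont.matrix_mul continuous_const).matrix_mul (hS.cont.comp continuous_inv)

/-- PROOF. `‖ad x Y‖ = frob (φ x hat Y φ x⁻¹) ≤ M² frob (hat Y) = M² ‖Y‖` (`frob_hat`, `frob_conj`). -/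
theorem core_ad_M (hS : IsRed S) (h : IsAd S e kI) (x : G) :
    ‖(coreOf S e kI).ad x‖ ≤ (coreOf S e kI).M x ^ 2 := by
  refine ContinuousLinearMap.opNorm_le_bound _ (sq_nonneg _) fun Y => ?_
  rw [← frob_hat h, hat_ad hS h, ← frob_hat h Y]
  exact frob_conj hS x (hat e Y)

/-- PROOF. `Mf_exp`, `frob_hat`. -/
theorem core_M_ex (hS : IsRed S) (h : IsAd S e kI) (Y : Ed d) :
    (coreOf S e kI).M ((coreOf S e kI).ex Y) ≤ Real.exp ‖Y‖ := by
  rw [← frob_hat h Y]
  exact Mf_exp hS (hat_mem h Y)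

/-- PROOF. `hat (t • eb i) = t • e i` is skew-symmetric for `i ∈ kI`; `K_exp`. -/
theorem core_K_ex (hS : IsRed S) (h : IsAd S e kI) (i : Fin d) (hi : i ∈ kI) (t : ℝ) :
    (coreOf S e kI).ex (t • eb i) ∈ S.K := by
  show S.exp (hat e (t • eb i)) ∈ S.K
  rw [hat_smul, hat_eb]
  refine K_exp hS (S.alg.smul_mem t (h.mem i)) ?_
  rw [Matrix.transpose_smul, h.skew i hi, smul_neg]

/-- PROOF. `hat Y` is skew-symmetric if `Y i = 0` for `i ∉ kI`; `K_exp`. -/
theorem core_K_ex' (hS : IsRed S) (h : IsAd S e kI) (Y : Ed d) (hY : ∀ i ∉ kI, Y i = 0) :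
    (coreOf S e kI).ex Y ∈ S.K := by
  refine K_exp hS (hat_mem h Y) ?_
  unfold hat
  rw [Matrix.transpose_sum, ← Finset.sum_neg_distrib]
  refine Finset.sum_congr rfl fun i _ => ?_
  by_cases hi : i ∈ kI
  · rw [Matrix.transpose_smul, h.skew i hi, smul_neg]
  · rw [hY i hi, zero_smul, Matrix.transpose_zero, neg_zero]

/-- PROOF. `cartan_growth`; `X = hat (crd X)`, `‖crd X‖ = frob X`. -/
theorem core_cartan (hS : IsRed S) (h : IsAd S e kI) : ∃ a : ℝ, 0 < a ∧ ∀ x : G,
    ∃ k ∈ S.K, ∃ Y : Ed d, x = k * (coreOf S e kI).ex Y ∧ Real.exp (a * ‖Y‖) ≤ S.Mf x := by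
  obtain ⟨a, ha, hx⟩ := cartan_growth hS
  refine ⟨a, ha, fun x => ?_⟩
  obtain ⟨k, hk, X, hX, hxk, hxe⟩ := hx x
  refine ⟨k, hk, crd e X, ?_, ?_⟩
  · show x = k * S.exp (hat e (crd e X))
    rw [hat_crd h hX]
    exact hxk
  · rw [← frob_hat h, hat_crd h hX]
    exact hxe

end Pool.Agent.RG
end

section

/-!
# A5c: the adjoint representation in coordinates
-/

namespace Pool.Agent.RG

open Matrix Topology

universe u

variable {G : Type u} [Group G] [TopologicalSpace G] [IsTopologicalGroup G] {N : ℕ}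
  {S : RData G N} {d : ℕ} {e : Fin d → Mat N} {kI : Finset (Fin d)}

private theorem A5c_exp (e : Fin d → Mat N) (s : ℝ) (a b : Fin N) :
    ContDiff ℝ 2 fun Y : Ed d => (NormedSpace.exp (s • hat e Y)) a b := by
  letI : NormedRing (Mat N) := Matrix.linftyOpNormedRing
  letI : NormedAlgebra ℝ (Mat N) := Matrix.linftyOpNormedAlgebra
  have h1 : ContDiff ℝ 2 (NormedSpace.exp : Mat N → Mat N) :=
    contDiff_iff_contDiffAt.2 fun x => (NormedSpace.exp_analytic (𝕂 := ℝ) x).contDiffAt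
  have h2 : ContDiff ℝ 2 (fun Y : Ed d => s • hat e Y) := by
    refine ContDiff.const_smul s ?_
    unfold hat
    refine ContDiff.sum fun i _ => ?_
    exact ((EuclideanSpace.proj i : Ed d →L[ℝ] ℝ).contDiff).smul contDiff_const
  have h3 : ContDiff ℝ 2 (fun X : Mat N => X a b) := by
    let f : Mat N →ₗ[ℝ] ℝ :=
      { toFun := fun X => X a b
        map_add' := fun _ _ => rfl
        map_smul' := fun _ _ => rfl }
    exact (LinearMap.toContinuousLinearMap f).contDiff
  exact h3.comp (h1.comp h2)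

/-- PROOF. `ad (ex Y) = Σ_i proj_i.smulRight (crd (exp (hat Y) e_i exp (-hat Y)))` (`phi_exp`); `NormedSpace.exp` on matrices (with a normed algebra structure) is analytic, hence smooth (`NormedSpace.exp_analytic`, `contDiff_exp`-type), `hat` and `crd` are (continuous) linear. -/
theorem core_ad_ex (hS : IsRed S) (h : IsAd S e kI) :
    ContDiff ℝ 2 fun Y => (coreOf S e kI).ad ((coreOf S e kI).ex Y) := by
  have h0 : (fun Y => (coreOf S e kI).ad ((coreOf S e kI).ex Y)) = fun Y : Ed d =>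
      ∑ i, ContinuousLinearMap.smulRightL ℝ (Ed d) (Ed d) (EuclideanSpace.proj i : Ed d →L[ℝ] ℝ)
        (crd e (NormedSpace.exp ((1 : ℝ) • hat e Y) * e i *
          NormedSpace.exp ((-1 : ℝ) • hat e Y))) := by
    funext Y
    have hY := hat_mem h Y
    change ∑ i, (EuclideanSpace.proj i : Ed d →L[ℝ] ℝ).smulRight
      (crd e (S.φ (S.exp (hat e Y)) * e i * S.φ (S.exp (hat e Y))⁻¹)) = _
    refine Finset.sum_congr rfl fun i _ => ?_
    rw [← exp_neg' hS hY, phi_exp hS hY, phi_exp hS (S.alg.neg_mem hY), one_smul, neg_one_smul]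
    rfl
  rw [h0]
  refine ContDiff.sum fun i _ => ?_
  refine (ContinuousLinearMap.contDiff _).comp ?_
  rw [contDiff_euclidean]
  intro j
  have h1 : (fun Y : Ed d => (crd e (NormedSpace.exp ((1 : ℝ) • hat e Y) * e i *
      NormedSpace.exp ((-1 : ℝ) • hat e Y))) j) = fun Y : Ed d =>
      ∑ a, ∑ b, (e j)ᵀ a b * ∑ c, (∑ m, (NormedSpace.exp ((1 : ℝ) • hat e Y)) b m * e i m c) *
        (NormedSpace.exp ((-1 : ℝ) • hat e Y)) c a := by
    funext Y
    simp only [crd, Matrix.trace, Matrix.diag_apply, Matrix.mul_apply]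
  rw [h1]
  refine ContDiff.sum fun a _ => ContDiff.sum fun b _ => ContDiff.mul contDiff_const ?_
  refine ContDiff.sum fun c _ => ContDiff.mul ?_ (A5c_exp e (-1) c a)
  exact ContDiff.sum fun m _ => (A5c_exp e 1 b m).mul contDiff_const

end Pool.Agent.RG
end

section

/-! A5: the adjoint representation in coordinates -/
end

section

/-!
# A6a: the exponential map is injective near `0`; the local multiplication
-/

namespace Pool.Agent.RG

open Matrix Topology Set

universe u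

variable {G : Type u} [Group G] [TopologicalSpace G] [IsTopologicalGroup G] {N : ℕ}
  {S : RData G N} {d : ℕ} {e : Fin d → Mat N} {kI : Finset (Fin d)}

section A6a_aux

open scoped Matrix.Norms.Operator

private theorem A6a_log (N : ℕ) : ∃ (U : Set (Mat N)) (Lg : Mat N → Mat N), U ∈ 𝓝 (0 : Mat N) ∧
    (∀ X ∈ U, Lg (NormedSpace.exp X) = X) ∧ ContDiffAt ℝ 1 Lg (1 : Mat N) := by
  have h1 : ContDiffAt ℝ 1 (NormedSpace.exp : Mat N → Mat N) 0 :=
    (NormedSpace.exp_analytic (𝕂 := ℝ) (0 : Mat N)).contDiffAt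
  have h2 : HasStrictFDerivAt (NormedSpace.exp : Mat N → Mat N)
      ((ContinuousLinearEquiv.refl ℝ (Mat N) : Mat N ≃L[ℝ] Mat N) : Mat N →L[ℝ] Mat N) 0 :=
    hasStrictFDerivAt_exp_zero
  refine ⟨_, h2.localInverse _ _ _, h2.eventually_left_inverse, fun X hX => hX, ?_⟩
  have h3 := h1.to_localInverse (f' := ContinuousLinearEquiv.refl ℝ (Mat N)) h2.hasFDerivAt
    one_ne_zero
  rw [NormedSpace.exp_zero] at h3
  exact h3

private theorem A6a_entry {N : ℕ} {Lg : Mat N → Mat N} (hL : ContDiffAt ℝ 1 Lg (1 : Mat N))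
    (i j : Fin N) {F : Type} [NormedAddCommGroup F] [NormedSpace ℝ F] (g : F → Mat N) (z : F)
    (hz : g z = 1) (hg : ∀ a b, ContDiffAt ℝ 1 (fun y => g y a b) z) :
    ContDiffAt ℝ 1 (fun y => Lg (g y) i j) z := by
  have h1 : ContDiffAt ℝ 1 g z := by
    have h2 : g = fun y => ∑ a, ∑ b, g y a b • (Matrix.single a b (1 : ℝ) : Mat N) := by
      funext y
      conv_lhs => rw [Matrix.matrix_eq_sum_single (g y)]
      refine Finset.sum_congr rfl fun a _ => Finset.sum_congr rfl fun b _ => ?_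
      rw [Matrix.smul_single, smul_eq_mul, mul_one]
    rw [h2]
    refine ContDiffAt.sum fun a _ => ContDiffAt.sum fun b _ => ?_
    exact (hg a b).smul contDiffAt_const
  have h3 : ContDiffAt ℝ 1 (fun y => Lg (g y)) z := by
    refine ContDiffAt.comp z ?_ h1
    rw [hz]
    exact hL
  have h4 : ContDiff ℝ 1 (fun M : Mat N => M i j) :=
    (LinearMap.toContinuousLinearMap (Matrix.entryLinearMap ℝ ℝ i j)).contDiff
  exact h4.contDiffAt.comp z h3

end A6a_aux

/-- The matrix logarithm near `1`.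
PROOF. `exp` has the strict derivative `id` at `0` (`hasStrictFDerivAt_exp_zero`, with a normed algebra structure on the matrices whose topology is the usual one) and is smooth; inverse function theorem (`HasStrictFDerivAt.toOpenPartialHomeomorph`, `ContDiffAt.to_localInverse`). -/
theorem exists_log (N : ℕ) : ∃ (U : Set (Mat N)) (Lg : Mat N → Mat N), U ∈ 𝓝 (0 : Mat N) ∧
    (∀ X ∈ U, Lg (NormedSpace.exp X) = X) ∧
    ∀ (i j : Fin N) {F : Type} [NormedAddCommGroup F] [NormedSpace ℝ F] (g : F → Mat N) (z : F),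
      g z = 1 → (∀ a b, ContDiffAt ℝ 1 (fun y => g y a b) z) →
        ContDiffAt ℝ 1 (fun y => Lg (g y) i j) z := by
  obtain ⟨U, Lg, hU, h1, h2⟩ := A6a_log N
  exact ⟨U, Lg, hU, h1, fun i j F _ _ g z hz hg => A6a_entry h2 i j g z hz hg⟩

end Pool.Agent.RG
end

section

/-!
# A6b: the exponential map is injective near `0`; the local multiplication
-/

namespace Pool.Agent.RG

open Matrix Topology Set

universe u

variable {G : Type u} [Group G] [TopologicalSpace G] [IsTopologicalGroup G] {N : ℕ}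
  {S : RData G N} {d : ℕ} {e : Fin d → Mat N} {kI : Finset (Fin d)}

private theorem A6b_hat_zero (e : Fin d → Mat N) : hat e 0 = 0 := by
  have := hat_smul e 0 (0 : Ed d)
  rw [zero_smul, zero_smul] at this
  exact this

private theorem A6b_crd_zero (e : Fin d → Mat N) : crd e 0 = 0 := by
  have := crd_smul e 0 (0 : Mat N)
  rw [zero_smul, zero_smul] at this
  exact this

private theorem A6b_nhds (e : Fin d → Mat N) {U : Set (Mat N)} (hU : U ∈ 𝓝 (0 : Mat N)) :
    {Y : Ed d | hat e Y ∈ U} ∈ 𝓝 (0 : Ed d) := by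
  have h1 : Filter.Tendsto (hat e) (𝓝 0) (𝓝 (0 : Mat N)) := by
    have h2 := (hat_cont e).tendsto (0 : Ed d)
    rw [A6b_hat_zero] at h2
    exact h2
  exact h1 hU

private theorem A6b_phi_ex (hS : IsRed S) (h : IsAd S e kI) (Y : Ed d) :
    S.φ ((coreOf S e kI).ex Y) = NormedSpace.exp (hat e Y) :=
  phi_exp hS (hat_mem h Y)

section A6b_aux

open scoped Matrix.Norms.Operator

private theorem A6b_smooth (e : Fin d → Mat N) (a b : Fin N) :
    ContDiffAt ℝ 1 (fun y : Ed d × Ed d =>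
      (NormedSpace.exp (hat e y.1) * NormedSpace.exp (hat e y.2) : Mat N) a b) (0, 0) := by
  have h1 : ContDiff ℝ 1 (NormedSpace.exp : Mat N → Mat N) :=
    contDiff_iff_contDiffAt.2 fun x =>
      (NormedSpace.exp_analytic (𝕂 := ℝ) (x : Mat N)).contDiffAt
  have h2 : ContDiff ℝ 1 (hat e : Ed d → Mat N) := by
    have h3 : (hat e : Ed d → Mat N) = fun Y => ∑ i, Y i • e i := rfl
    rw [h3]
    refine ContDiff.sum fun i _ => ?_
    exact ((EuclideanSpace.proj i : Ed d →L[ℝ] ℝ).contDiff).smul contDiff_const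
  have h4 : ContDiff ℝ 1 (fun y : Ed d × Ed d =>
      (NormedSpace.exp (hat e y.1) * NormedSpace.exp (hat e y.2) : Mat N)) :=
    (h1.comp (h2.comp contDiff_fst)).mul (h1.comp (h2.comp contDiff_snd))
  have h5 : ContDiff ℝ 1 (fun M : Mat N => M a b) :=
    (LinearMap.toContinuousLinearMap (Matrix.entryLinearMap ℝ ℝ a b)).contDiff
  exact (h5.comp h4).contDiffAt

private theorem A6b_exp_eq {X : Mat N} (h : (NormedSpace.exp X)ᵀ * NormedSpace.exp X = 1) :
    NormedSpace.exp (-Xᵀ) = NormedSpace.exp X := by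
  rw [← Matrix.exp_transpose] at h
  have h1 : NormedSpace.exp (-Xᵀ) * NormedSpace.exp (Xᵀ) = (1 : Mat N) := by
    rw [← Matrix.exp_add_of_commute (-Xᵀ) (Xᵀ) (Commute.neg_left (Commute.refl _)), neg_add_cancel,
      NormedSpace.exp_zero]
  calc NormedSpace.exp (-Xᵀ)
      = NormedSpace.exp (-Xᵀ) * (NormedSpace.exp (Xᵀ) * NormedSpace.exp X) := by
        rw [h, mul_one]
    _ = NormedSpace.exp X := by rw [← mul_assoc, h1, one_mul]

end A6b_aux

/-- PROOF. If `ex Y = ex Z` then `exp (hat Y) = exp (hat Z)` (`phi_exp`), and for small `Y, Z` the matrices `hat Y, hat Z` lie in `U`, so `hat Y = hat Z` and `Y = Z` (`crd_hat`). -/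
theorem core_inj (hS : IsRed S) (h : IsAd S e kI) :
    ∃ r : ℝ, 0 < r ∧ InjOn (coreOf S e kI).ex (Metric.ball 0 r) := by
  obtain ⟨U, Lg, hU, h1, -⟩ := exists_log N
  obtain ⟨r, hr, hr2⟩ := Metric.mem_nhds_iff.1 (A6b_nhds e hU)
  refine ⟨r, hr, fun Y hY Z hZ hYZ => ?_⟩
  have h2 : NormedSpace.exp (hat e Y) = NormedSpace.exp (hat e Z) := by
    rw [← A6b_phi_ex hS h Y, ← A6b_phi_ex hS h Z, hYZ]
  have h3 : hat e Y = hat e Z := by
    rw [← h1 _ (hr2 hY), ← h1 _ (hr2 hZ), h2]
  rw [← crd_hat h Y, ← crd_hat h Z, h3]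

/-- PROOF. `m (z, Y) = crd (Lg (exp (hat z) exp (hat Y)))`, `C¹` at `(0,0)` by `exists_log` (the entries of `exp (hat z) exp (hat Y)` are smooth), `m (0,0) = crd (Lg 1) = 0`. For small `z, Y`: `ex z * ex Y` is close to `1`, so by `core_ex_open` it equals `ex W` with `hat W ∈ U`. Then `exp (hat W) = φ (ex W) =
exp (hat z) exp (hat Y)`, so `hat W = Lg (..)` and `W = m (z, Y)`. -/
theorem core_loc (hS : IsRed S) (h : IsAd S e kI) :
    ∃ (r : ℝ) (m : Ed d × Ed d → Ed d), 0 < r ∧ ContDiffAt ℝ 1 m (0, 0) ∧ m (0, 0) = 0 ∧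
      ∀ z Y : Ed d, ‖z‖ < r → ‖Y‖ < r →
        (coreOf S e kI).ex (m (z, Y)) = (coreOf S e kI).ex z * (coreOf S e kI).ex Y := by
  obtain ⟨U, Lg, hU, h1, h2⟩ := exists_log N
  have h3 := core_ex_open hS h _ (A6b_nhds e hU)
  have h4 : Filter.Tendsto (fun y : Ed d × Ed d =>
      (coreOf S e kI).ex y.1 * (coreOf S e kI).ex y.2) (𝓝 (0, 0)) (𝓝 1) := by
    have h5 : Continuous (fun y : Ed d × Ed d =>
        (coreOf S e kI).ex y.1 * (coreOf S e kI).ex y.2) :=
      ((core_ex_cont hS h).comp continuous_fst).mul ((core_ex_cont hS h).comp continuous_snd)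
    have h6 := h5.tendsto (0, 0)
    have h7 : (coreOf S e kI).ex (0 : Ed d) = 1 := by
      change S.exp (hat e 0) = 1
      rw [A6b_hat_zero, exp_zero' hS]
    simpa only [h7, mul_one] using h6
  obtain ⟨r, hr, hr2⟩ := Metric.mem_nhds_iff.1 (h4 h3)
  refine ⟨r, fun y => crd e (Lg (NormedSpace.exp (hat e y.1) * NormedSpace.exp (hat e y.2))), hr,
    ?_, ?_, ?_⟩
  · rw [contDiffAt_euclidean]
    intro j
    have h8 : (fun y : Ed d × Ed d =>
        crd e (Lg (NormedSpace.exp (hat e y.1) * NormedSpace.exp (hat e y.2))) j) =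
        fun y => ∑ a, ∑ b, (e j)ᵀ a b *
          Lg (NormedSpace.exp (hat e y.1) * NormedSpace.exp (hat e y.2)) b a := by
      funext y
      change ((e j)ᵀ * Lg _).trace = _
      rw [Matrix.trace]
      refine Finset.sum_congr rfl fun a _ => ?_
      rw [Matrix.diag_apply, Matrix.mul_apply]
    rw [h8]
    refine ContDiffAt.sum fun a _ => ContDiffAt.sum fun b _ => ?_
    refine contDiffAt_const.mul ?_
    refine h2 b a (fun y : Ed d × Ed d =>
      NormedSpace.exp (hat e y.1) * NormedSpace.exp (hat e y.2)) (0, 0) ?_ ?_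
    · simp only [A6b_hat_zero, NormedSpace.exp_zero, mul_one]
    · exact A6b_smooth e
  · have h9 : Lg (1 : Mat N) = 0 := by
      have := h1 0 (mem_of_mem_nhds hU)
      rwa [NormedSpace.exp_zero] at this
    simp only [A6b_hat_zero, NormedSpace.exp_zero, mul_one, h9, A6b_crd_zero]
  · intro z Y hz hY
    have h10 : ((z, Y) : Ed d × Ed d) ∈ Metric.ball ((0 : Ed d), (0 : Ed d)) r := by
      rw [Metric.mem_ball, dist_eq_norm]
      rw [Prod.norm_def]
      simp only [Prod.mk_sub_mk, sub_zero]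
      exact max_lt hz hY
    obtain ⟨W, hW, hW2⟩ := hr2 h10
    have h11 : NormedSpace.exp (hat e W) =
        NormedSpace.exp (hat e z) * NormedSpace.exp (hat e Y) := by
      rw [← A6b_phi_ex hS h W, ← A6b_phi_ex hS h z, ← A6b_phi_ex hS h Y, ← hS.mul, hW2]
    have h12 : crd e (Lg (NormedSpace.exp (hat e z) * NormedSpace.exp (hat e Y))) = W := by
      rw [← h11, h1 _ hW, crd_hat h]
    change (coreOf S e kI).ex
      (crd e (Lg (NormedSpace.exp (hat e z) * NormedSpace.exp (hat e Y)))) = _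
    rw [h12, hW2]

/-- Elements of `K` near `1` are exponentials of small skew-symmetric matrices.
PROOF. Let `U₁` be the neighborhood of `0` of `exists_log`, and `U₂ = {X | X ∈ U₁, -Xᵀ ∈ U₁}`. Let `W = ex '' {Y ∈ U | hat Y ∈ U₂}` (a neighborhood of `1`, `core_ex_open`). If `k = ex Y ∈ K`, `hat Y = X ∈ U₂`, then `exp(X)ᵀ exp(X) = 1`, i.e. `exp X = exp(Xᵀ)⁻¹ = exp(-Xᵀ)`, so
`X = -Xᵀ` (both in `U₁`, `Lg`). Then `Y = crd X` has `Y i = tr(e_iᵀ X) = 0` for `i ∉ kI` (symmetric `e_i` and skew `X` are orthogonal). -/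
theorem core_K_open (hS : IsRed S) (h : IsAd S e kI) (U : Set (Ed d)) (hU : U ∈ 𝓝 (0 : Ed d)) :
    ∃ W ∈ 𝓝 (1 : G), ∀ k ∈ S.K, k ∈ W →
      ∃ Y ∈ U, (∀ i ∉ kI, Y i = 0) ∧ (coreOf S e kI).ex Y = k := by
  obtain ⟨U₁, Lg, hU₁, h1, -⟩ := exists_log N
  have hT : {X : Mat N | -Xᵀ ∈ U₁} ∈ 𝓝 (0 : Mat N) := by
    have hc : Continuous (fun X : Mat N => -Xᵀ) := (continuous_id.matrix_transpose).neg
    have ht := hc.tendsto (0 : Mat N)
    rw [Matrix.transpose_zero, neg_zero] at ht
    exact ht hU₁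
  have h2 := core_ex_open hS h _ (Filter.inter_mem hU
    (Filter.inter_mem (A6b_nhds e hU₁) (A6b_nhds e hT)))
  refine ⟨_, h2, fun k hk hkW => ?_⟩
  obtain ⟨Y, ⟨hYU, hY1, hY2⟩, rfl⟩ := hkW
  refine ⟨Y, hYU, fun i hi => ?_, rfl⟩
  have h3 : (NormedSpace.exp (hat e Y))ᵀ * NormedSpace.exp (hat e Y) = 1 := by
    rw [← A6b_phi_ex hS h Y]
    exact hk
  have h4 : hat e Y = -(hat e Y)ᵀ := by
    have h5 := h1 _ hY1
    have h6 := h1 _ hY2
    rw [A6b_exp_eq h3, h5] at h6
    exact h6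
  have h7 : Y i = ((e i)ᵀ * hat e Y).trace := by
    conv_lhs => rw [← crd_hat h Y]
    rfl
  have h8 : ((e i)ᵀ * hat e Y).trace = (e i * hat e Y).trace := by
    rw [h.symm i hi]
  have h9 : ((e i)ᵀ * hat e Y).trace = -(e i * hat e Y).trace := by
    rw [← Matrix.trace_transpose, Matrix.transpose_mul, Matrix.transpose_transpose]
    have h10 : (hat e Y)ᵀ = -hat e Y := by
      conv_rhs => rw [h4]
      rw [neg_neg]
    rw [h10, Matrix.neg_mul, Matrix.trace_neg, Matrix.trace_mul_comm]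
  rw [h7]
  linarith

end Pool.Agent.RG
end

section

/-! A6: the exponential map is injective near `0`; the local multiplication -/
end

section

/-!
# A7a: minimal vectors: the closure of the orbit of a point of the nilpotent cone contains `0`
-/

namespace Pool.Agent.RG

open Matrix Topology Set

universe u

private theorem A7a_idem {N : ℕ} {E : Mat N} (hE : E * E = E) (h0 : E.trace = 0) : E = 0 := by
  have h1 : IsIdempotentElem (Matrix.toLin' E) := by
    unfold IsIdempotentElem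
    rw [Module.End.mul_eq_comp, ← Matrix.toLin'_mul, hE]
  have h2 : LinearMap.trace ℝ (Fin N → ℝ) (Matrix.toLin' E) = 0 := by
    rw [Matrix.trace_toLin'_eq, h0]
  have h3 := LinearMap.IsIdempotentElem.eq_zero_of_trace_eq_zero h1 h2
  exact (LinearEquiv.map_eq_zero_iff _).1 h3

/-- A real matrix all of whose powers have trace zero is nilpotent. -/
theorem nilp_of_trace {N : ℕ} {X : Mat N} (h : ∀ k, 1 ≤ k → (X ^ k).trace = 0) :
    IsNilpotent X := by
  have hf : minpoly ℝ X ≠ 0 := minpoly.ne_zero (Matrix.isIntegral X)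
  obtain ⟨g, hg, hnd⟩ := (minpoly ℝ X).exists_eq_pow_rootMultiplicity_mul_and_not_dvd hf 0
  rw [map_zero, sub_zero] at hg hnd
  generalize (minpoly ℝ X).rootMultiplicity 0 = a at hg
  have hcop : IsCoprime (Polynomial.X ^ (a + 1) : Polynomial ℝ) g :=
    (Polynomial.irreducible_X.coprime_iff_not_dvd.2 hnd).pow_left
  obtain ⟨u, w, huw⟩ := hcop
  have e1 : Polynomial.aeval X (u * Polynomial.X ^ (a + 1)) + Polynomial.aeval X (w * g) = 1 := by
    rw [← map_add, huw, map_one]
  have e2 : Polynomial.aeval X (u * Polynomial.X ^ (a + 1)) * Polynomial.aeval X (w * g) = 0 := by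
    rw [← map_mul]
    have : u * Polynomial.X ^ (a + 1) * (w * g) = u * Polynomial.X * w * minpoly ℝ X := by
      rw [hg]
      ring
    rw [this, map_mul, minpoly.aeval, mul_zero]
  have e3 : (Polynomial.aeval X (u * Polynomial.X ^ (a + 1))).trace = 0 := by
    rw [map_mul, map_pow, Polynomial.aeval_X, Polynomial.aeval_eq_sum_range, Finset.sum_mul,
      Matrix.trace_sum]
    refine Finset.sum_eq_zero fun i _ => ?_
    rw [Matrix.smul_mul, Matrix.trace_smul, ← pow_add, h _ (by omega), smul_zero]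
  have e4 : Polynomial.aeval X (u * Polynomial.X ^ (a + 1)) = 0 := by
    refine A7a_idem ?_ e3
    have e5 : Polynomial.aeval X (w * g) = 1 - Polynomial.aeval X (u * Polynomial.X ^ (a + 1)) := by
      rw [← e1]
      abel
    rw [e5, Matrix.mul_sub, Matrix.mul_one, sub_eq_zero] at e2
    exact e2.symm
  rw [e4, zero_add] at e1
  refine ⟨a, ?_⟩
  calc X ^ a = X ^ a * Polynomial.aeval X (w * g) := by rw [e1, mul_one]
    _ = Polynomial.aeval X (Polynomial.X ^ a * (w * g)) := by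
      rw [map_mul (Polynomial.aeval X) (Polynomial.X ^ a) (w * g), map_pow, Polynomial.aeval_X]
    _ = Polynomial.aeval X (w * minpoly ℝ X) := by
      congr 1
      rw [hg]
      ring
    _ = 0 := by rw [map_mul, minpoly.aeval, mul_zero]

variable {G : Type u} [Group G] [TopologicalSpace G] [IsTopologicalGroup G] {N : ℕ}
  {S : RData G N} {d : ℕ} {e : Fin d → Mat N} {kI : Finset (Fin d)}

end Pool.Agent.RG
end

section

/-!
# A7b: minimal vectors: the closure of the orbit of a point of the nilpotent cone contains `0`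
-/

namespace Pool.Agent.RG

open Matrix Topology Set

universe u

/-- PROOF. `S = Xᵀ X` is symmetric and `S^k = (Xᵀ)^k X^k = 0` for large `k` (normal). A symmetric nilpotent matrix is zero: `tr (S^(2^j))ᵀ S^(2^j) = tr S^(2^(j+1))`, so `S^(2^(j+1)) = 0` implies `S^(2^j) = 0` (`Matrix.trace_conjTranspose_mul_self_eq_zero_iff`-type or sum of squares). So `tr(Xᵀ X) = 0`, `X = 0`. -/
theorem zero_of_normal {N : ℕ} {X : Mat N} (h : IsNilpotent X) (h' : X * Xᵀ = Xᵀ * X) :
    X = 0 := by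
  obtain ⟨n, hn⟩ := h
  have key : ∀ A : Mat N, Aᵀ * A = 0 → A = 0 := by
    intro A hA
    have := (Matrix.conjTranspose_mul_self_eq_zero (A := A)).1 (by
      rw [Matrix.conjTranspose_eq_transpose_of_trivial]; exact hA)
    exact this
  have hc : Commute Xᵀ X := h'.symm
  have hS : (Xᵀ * X) ^ n = 0 := by rw [hc.mul_pow, hn, mul_zero]
  have hsym : ∀ k, ((Xᵀ * X) ^ k)ᵀ = (Xᵀ * X) ^ k := by
    intro k
    rw [Matrix.transpose_pow, Matrix.transpose_mul, Matrix.transpose_transpose]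
  have hstep : ∀ j, (Xᵀ * X) ^ (2 ^ j) = 0 → Xᵀ * X = 0 := by
    intro j
    induction j with
    | zero => intro h0; simpa using h0
    | succ j ih =>
      intro h0
      apply ih
      apply key
      rw [hsym, ← pow_add, ← two_mul, ← pow_succ']
      exact h0
  apply key
  apply hstep n
  have hle : n ≤ 2 ^ n := Nat.lt_two_pow_self.le
  rw [← Nat.add_sub_of_le hle, pow_add, hS, zero_mul]

/-- DECREASE.
PROOF. Let `B = X Xᵀ - Xᵀ X ≠ 0`, symmetric. `f t = frob (exp(-tB) X exp(tB))²  = tr ((exp(-tB) X exp(tB))ᵀ (exp(-tB) X exp(tB)))` has derivative at `0`: `2 tr(Xᵀ(-B X + X B)) = -2 tr(B (X Xᵀ - Xᵀ X)) = -2 tr(B²) = -2 tr(Bᵀ B) < 0`. So `f t < f 0` for some small `t > 0`. -/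
theorem frob_decr {N : ℕ} {X : Mat N} (h : X * Xᵀ ≠ Xᵀ * X) :
    ∃ t : ℝ, frob (NormedSpace.exp (-(t • (X * Xᵀ - Xᵀ * X))) * X *
      NormedSpace.exp (t • (X * Xᵀ - Xᵀ * X))) < frob X := by
  let _ : NormedRing (Mat N) := Matrix.linftyOpNormedRing
  let _ : NormedAlgebra ℝ (Mat N) := Matrix.linftyOpNormedAlgebra
  set B : Mat N := X * Xᵀ - Xᵀ * X with hB
  have hB0 : B ≠ 0 := fun h0 => h (sub_eq_zero.1 h0)
  have hBs : Bᵀ = B := by
    rw [hB, Matrix.transpose_sub, Matrix.transpose_mul, Matrix.transpose_mul,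
      Matrix.transpose_transpose]
  have e1 : HasDerivAt (fun t : ℝ => NormedSpace.exp (t • (-B))) (-B) 0 := by
    have := hasDerivAt_exp_smul_const (𝕂 := ℝ) (-B) (0 : ℝ)
    rw [zero_smul, NormedSpace.exp_zero, one_mul] at this
    exact this
  have e2 : HasDerivAt (fun t : ℝ => NormedSpace.exp (t • B)) B 0 := by
    have := hasDerivAt_exp_smul_const (𝕂 := ℝ) B (0 : ℝ)
    rw [zero_smul, NormedSpace.exp_zero, one_mul] at this
    exact this
  set g : ℝ → Mat N := fun t => NormedSpace.exp (t • (-B)) * X * NormedSpace.exp (t • B) with hg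
  have hg0 : g 0 = X := by simp [hg]
  have eg : HasDerivAt g (-B * X + X * B) 0 := by
    have := (e1.mul_const X).mul e2
    rw [zero_smul, zero_smul, NormedSpace.exp_zero, one_mul, mul_one] at this
    exact this
  let T : Mat N →L[ℝ] ℝ := LinearMap.toContinuousLinearMap (Matrix.traceLinearMap (Fin N) ℝ ℝ)
  let Tr : Mat N →L[ℝ] Mat N :=
    LinearMap.toContinuousLinearMap (Matrix.transposeLinearEquiv (Fin N) (Fin N) ℝ ℝ).toLinearMap
  have egt : HasDerivAt (fun t => (g t)ᵀ) ((-B * X + X * B)ᵀ) 0 :=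
    Tr.hasFDerivAt.comp_hasDerivAt 0 eg
  have ef : HasDerivAt (fun t => ((g t)ᵀ * g t).trace)
      (((-B * X + X * B)ᵀ * g 0 + (g 0)ᵀ * (-B * X + X * B)).trace) 0 :=
    T.hasFDerivAt.comp_hasDerivAt 0 (egt.mul eg)
  have hpos : 0 < (Bᵀ * B).trace := by
    have h1 : (0 : ℝ) ≤ (Bᵀ * B).trace := by
      have := Matrix.posSemidef_conjTranspose_mul_self B
      have h2 := this.trace_nonneg
      rwa [Matrix.conjTranspose_eq_transpose_of_trivial] at h2
    refine lt_of_le_of_ne h1 ?_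
    intro h0
    apply hB0
    have := (Matrix.trace_conjTranspose_mul_self_eq_zero_iff (A := B)).1 (by
      rw [Matrix.conjTranspose_eq_transpose_of_trivial]; exact h0.symm)
    exact this
  have hval : (((-B * X + X * B)ᵀ * g 0 + (g 0)ᵀ * (-B * X + X * B)).trace)
      = -2 * (Bᵀ * B).trace := by
    have t1 : ((-B * X + X * B)ᵀ * X).trace = (Xᵀ * (-B * X + X * B)).trace := by
      rw [← Matrix.trace_transpose]
      rw [Matrix.transpose_mul, Matrix.transpose_transpose]
    have t2 : (Xᵀ * (-B * X + X * B)).trace = - (B * B).trace := by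
      have a1 : (Xᵀ * (-B * X)).trace = -(B * (X * Xᵀ)).trace := by
        rw [Matrix.trace_mul_comm, neg_mul, neg_mul, Matrix.trace_neg, Matrix.mul_assoc]
      have a2 : (Xᵀ * (X * B)).trace = (B * (Xᵀ * X)).trace := by
        rw [← Matrix.mul_assoc, Matrix.trace_mul_comm]
      rw [Matrix.mul_add, Matrix.trace_add, a1, a2]
      have a3 : (B * B).trace = (B * (X * Xᵀ)).trace - (B * (Xᵀ * X)).trace := by
        rw [← Matrix.trace_sub, ← Matrix.mul_sub]
      rw [a3]; ring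
    rw [hg0, Matrix.trace_add, t1, t2, hBs]; ring
  rw [hval] at ef
  have hneg : -2 * (Bᵀ * B).trace < 0 := by linarith
  have hev : ∀ᶠ t in 𝓝[>] (0 : ℝ), slope (fun t => ((g t)ᵀ * g t).trace) 0 t < 0 := by
    have := (hasDerivAt_iff_tendsto_slope.1 ef).eventually_lt_const hneg
    exact this.filter_mono (nhdsWithin_mono _ (fun x hx => ne_of_gt hx))
  obtain ⟨t, ht, ht0⟩ := (hev.and self_mem_nhdsWithin).exists
  refine ⟨t, ?_⟩
  have ht0' : (0 : ℝ) < t := ht0
  rw [slope_def_field, hg0, sub_zero] at ht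
  have hlt : ((g t)ᵀ * g t).trace < (Xᵀ * X).trace := by
    have := (div_lt_iff₀ ht0').1 ht
    linarith
  have hnn : (0 : ℝ) ≤ ((g t)ᵀ * g t).trace := by
    have := (Matrix.posSemidef_conjTranspose_mul_self (g t)).trace_nonneg
    rwa [Matrix.conjTranspose_eq_transpose_of_trivial] at this
  have hgt : NormedSpace.exp (-(t • B)) * X * NormedSpace.exp (t • B) = g t := by
    simp only [hg, smul_neg]
  rw [hgt]
  exact Real.sqrt_lt_sqrt hnn hlt

variable {G : Type u} [Group G] [TopologicalSpace G] [IsTopologicalGroup G] {N : ℕ}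
  {S : RData G N} {d : ℕ} {e : Fin d → Mat N} {kI : Finset (Fin d)}

end Pool.Agent.RG
end

section

/-!
# A7c: minimal vectors: the closure of the orbit of a point of the nilpotent cone contains `0`
-/

namespace Pool.Agent.RG

open Matrix Topology Set

universe u

variable {G : Type u} [Group G] [TopologicalSpace G] [IsTopologicalGroup G] {N : ℕ}
  {S : RData G N} {d : ℕ} {e : Fin d → Mat N} {kI : Finset (Fin d)}

private theorem A7c_hatT (ξ : Ed d) : (hat e ξ)ᵀ = ∑ i, ξ i • (e i)ᵀ := by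
  unfold hat
  rw [Matrix.transpose_sum]
  rfl

private theorem A7c_inner (X : Mat N) (ξ : Ed d) :
    inner ℝ (crd e X) ξ = ((hat e ξ)ᵀ * X).trace := by
  rw [A7c_hatT, Finset.sum_mul, Matrix.trace_sum, PiLp.inner_apply]
  refine Finset.sum_congr rfl fun i _ => ?_
  rw [Matrix.smul_mul, Matrix.trace_smul]
  simp [crd, mul_comm]

/-- The adjoint of `ad (exp Z)` for symmetric `Z`.
PROOF. Let `x = exp Z`, `φ x = exp Z`, `φ x⁻¹ = exp (-Z)`, symmetric matrices. For `Y`: `⟪adjoint (ad x) ξ, Y⟫ = ⟪ξ, ad x Y⟫ = tr((hat ξ)ᵀ exp(Z) hat Y exp(-Z)) = tr((exp(Z) hat ξ exp(-Z))ᵀ hat Y)`, and `exp(Z) hat ξ exp(-Z) ∈ alg` (`ad_mem`), so `adjoint (ad x) ξ = crd (exp(Z) hat ξ exp(-Z))`. -/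
theorem hat_adj (hS : IsRed S) (h : IsAd S e kI) {Z : Mat N} (hZ : Z ∈ S.alg) (hs : Zᵀ = Z)
    (ξ : Ed d) :
    hat e (ContinuousLinearMap.adjoint ((coreOf S e kI).ad (S.exp Z)) ξ) =
      NormedSpace.exp Z * hat e ξ * NormedSpace.exp (-Z) := by
  have h1 : S.φ (S.exp Z) = NormedSpace.exp Z := phi_exp hS hZ
  have hZ' : -Z ∈ S.alg := S.alg.neg_mem hZ
  have h2 : S.φ (S.exp Z)⁻¹ = NormedSpace.exp (-Z) := by
    rw [← exp_neg' hS hZ, phi_exp hS hZ']
  have hPt : (NormedSpace.exp Z)ᵀ = NormedSpace.exp Z := by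
    rw [← Matrix.exp_transpose, hs]
  have hQt : (NormedSpace.exp (-Z))ᵀ = NormedSpace.exp (-Z) := by
    rw [← Matrix.exp_transpose, Matrix.transpose_neg, hs]
  have hW : NormedSpace.exp Z * hat e ξ * NormedSpace.exp (-Z) ∈ S.alg := by
    have := hS.ad_mem (S.exp Z) (hat e ξ) (hat_mem h ξ)
    rwa [h1, h2] at this
  suffices hh : ContinuousLinearMap.adjoint ((coreOf S e kI).ad (S.exp Z)) ξ =
      crd e (NormedSpace.exp Z * hat e ξ * NormedSpace.exp (-Z)) by
    rw [hh, hat_crd h hW]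
  refine ext_inner_left ℝ fun Y => ?_
  rw [ContinuousLinearMap.adjoint_inner_right, ad_apply, h1, h2, A7c_inner,
    real_inner_comm, A7c_inner]
  calc ((hat e ξ)ᵀ * (NormedSpace.exp Z * hat e Y * NormedSpace.exp (-Z))).trace
      = (((hat e ξ)ᵀ * (NormedSpace.exp Z * hat e Y * NormedSpace.exp (-Z)))ᵀ).trace :=
        (Matrix.trace_transpose _).symm
    _ = (NormedSpace.exp (-Z) * ((hat e Y)ᵀ * (NormedSpace.exp Z * hat e ξ))).trace := by
        rw [Matrix.transpose_mul, Matrix.transpose_mul, Matrix.transpose_mul,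
          Matrix.transpose_transpose, hPt, hQt]
        simp only [Matrix.mul_assoc]
    _ = ((hat e Y)ᵀ * (NormedSpace.exp Z * hat e ξ * NormedSpace.exp (-Z))).trace := by
        rw [Matrix.trace_mul_comm]
        simp only [Matrix.mul_assoc]

private theorem A7c_pow (a : Fin d → Mat N) (ξ : Fin d → ℝ) (k : ℕ) :
    (∑ i, ξ i • a i) ^ k =
      ∑ β : Fin k → Fin d, (∏ l, ξ (β l)) • (List.ofFn fun l => a (β l)).prod := by
  induction k with
  | zero => simp
  | succ k ih =>
    rw [pow_succ', ih, Finset.sum_mul_sum,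
      ← (Fin.consEquiv (fun _ : Fin (k + 1) => Fin d)).sum_comp, Fintype.sum_prod_type]
    refine Finset.sum_congr rfl fun i _ => Finset.sum_congr rfl fun β _ => ?_
    rw [Fin.prod_univ_succ, List.ofFn_succ, List.prod_cons]
    simp [Fin.consEquiv, smul_smul, mul_comm]

/-- PROOF. `t k β = tr(Π e_{β l}ᵀ)`, so `pol k ξ = tr ((Σ ξ_i e_iᵀ)^k) = tr (((hat ξ)ᵀ)^k) = tr ((hat ξ)^k)` (expand the power of the sum: induction on `k`, `Fin.consEquiv`, `Finset.sum` over `Fin (k+1) → Fin d`; trace of the transpose). -/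
theorem pol_eq (k : ℕ) (ξ : Ed d) :
    (coreOf S e kI).pol k ξ = ((hat e ξ) ^ k).trace := by
  rw [← Matrix.trace_transpose ((hat e ξ) ^ k), Matrix.transpose_pow, A7c_hatT, A7c_pow,
    Matrix.trace_sum]
  unfold Core.pol
  refine Finset.sum_congr rfl fun β _ => ?_
  rw [Matrix.trace_smul, smul_eq_mul, mul_comm]
  rfl

/-- PROOF. `t 2 β = tr(e_{β 0}ᵀ e_{β 1}ᵀ)`. If `β 1 ∈ kI`, `e_{β 1}ᵀ = -e_{β 1}` and `t 2 β = -δ`; otherwise `e_{β 1}ᵀ = e_{β 1}` and `t 2 β = δ_{β 0, β 1}` (`h.orth`). -/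
theorem core_t2 (h : IsAd S e kI) (β : Fin 2 → Fin d) :
    (coreOf S e kI).t 2 β = if β 0 = β 1 then (if β 0 ∈ (coreOf S e kI).kI then -1 else 1)
      else 0 := by
  have h0 : (coreOf S e kI).t 2 β = ((e (β 0))ᵀ * (e (β 1))ᵀ).trace := by
    change (List.ofFn fun l => (e (β l))ᵀ).prod.trace = _
    simp [List.ofFn_succ]
  have hk : (coreOf S e kI).kI = kI := rfl
  rw [h0, hk]
  by_cases h1 : β 1 ∈ kI
  · rw [h.skew _ h1, Matrix.mul_neg, Matrix.trace_neg, h.orth]
    by_cases h2 : β 0 = β 1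
    · rw [if_pos h2, if_pos h2, h2, if_pos h1]
    · rw [if_neg h2, if_neg h2, neg_zero]
  · rw [h.symm _ h1, h.orth]
    by_cases h2 : β 0 = β 1
    · rw [if_pos h2, if_pos h2, h2, if_neg h1]
    · rw [if_neg h2, if_neg h2]

end Pool.Agent.RG
end

section

/-!
# A7d: minimal vectors: the closure of the orbit of a point of the nilpotent cone contains `0`
-/

namespace Pool.Agent.RG

open Matrix Topology Set

universe u

variable {G : Type u} [Group G] [TopologicalSpace G] [IsTopologicalGroup G] {N : ℕ}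
  {S : RData G N} {d : ℕ} {e : Fin d → Mat N} {kI : Finset (Fin d)}

/-- the orbit of `ξ`, with a conjugating matrix -/
def A7d_orb (S : RData G N) (e : Fin d → Mat N) (kI : Finset (Fin d)) (ξ : Ed d) : Set (Ed d) :=
  {η | (∃ x : G, ContinuousLinearMap.adjoint ((coreOf S e kI).ad x) ξ = η) ∧
    ∃ P Q : Mat N, Q * P = 1 ∧ hat e η = P * hat e ξ * Q}

theorem A7d_self (hS : IsRed S) (h : IsAd S e kI) (ξ : Ed d) : ξ ∈ A7d_orb S e kI ξ := by
  refine ⟨⟨1, ?_⟩, 1, 1, by simp, by simp⟩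
  rw [core_ad_one hS h]
  have : ContinuousLinearMap.adjoint (ContinuousLinearMap.id ℝ (Ed d)) =
      ContinuousLinearMap.id ℝ (Ed d) := by
    apply ContinuousLinearMap.ext
    intro x
    refine ext_inner_right ℝ fun y => ?_
    rw [ContinuousLinearMap.adjoint_inner_left]
    rfl
  rw [this]
  rfl

theorem A7d_step (hS : IsRed S) (h : IsAd S e kI) (ξ : Ed d) {Z : Mat N} (hZ : Z ∈ S.alg)
    (hs : Zᵀ = Z) {η : Ed d} (hη : η ∈ A7d_orb S e kI ξ) :
    ContinuousLinearMap.adjoint ((coreOf S e kI).ad (S.exp Z)) η ∈ A7d_orb S e kI ξ := by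
  obtain ⟨⟨x, hx⟩, P, Q, hQP, hPQ⟩ := hη
  refine ⟨⟨x * S.exp Z, ?_⟩, NormedSpace.exp Z * P, Q * NormedSpace.exp (-Z), ?_, ?_⟩
  · rw [core_ad_mul hS h, ContinuousLinearMap.adjoint_comp, ← hx]
    rfl
  · have hcomm : NormedSpace.exp (-Z) * NormedSpace.exp Z = (1 : Mat N) := by
      have h1 := phi_inv hS (S.exp Z)
      rw [← exp_neg' hS hZ, phi_exp hS hZ, phi_exp hS (Submodule.neg_mem _ hZ)] at h1
      exact h1.2
    calc Q * NormedSpace.exp (-Z) * (NormedSpace.exp Z * P)
        = Q * (NormedSpace.exp (-Z) * NormedSpace.exp Z) * P := by simp only [Matrix.mul_assoc]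
      _ = 1 := by rw [hcomm, Matrix.mul_one, hQP]
  · rw [hat_adj hS h hZ hs, hPQ]
    simp only [Matrix.mul_assoc]

theorem A7d_trace {ξ η : Ed d} (h0 : ∀ k, 1 ≤ k → ((hat e ξ) ^ k).trace = 0)
    (hη : η ∈ A7d_orb S e kI ξ) (k : ℕ) (hk : 1 ≤ k) : ((hat e η) ^ k).trace = 0 := by
  obtain ⟨_, P, Q, hQP, hPQ⟩ := hη
  have key : ∀ k : ℕ, 1 ≤ k → (P * hat e ξ * Q) ^ k = P * (hat e ξ) ^ k * Q := by
    intro k hk
    induction k, hk using Nat.le_induction with
    | base => simp
    | succ n _ ih =>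
      rw [pow_succ, ih, pow_succ]
      calc P * hat e ξ ^ n * Q * (P * hat e ξ * Q)
          = P * hat e ξ ^ n * (Q * P) * hat e ξ * Q := by simp only [Matrix.mul_assoc]
        _ = P * (hat e ξ ^ n * hat e ξ) * Q := by
          rw [hQP, Matrix.mul_one]; simp only [Matrix.mul_assoc]
  rw [hPQ, key k hk, Matrix.trace_mul_comm, ← Matrix.mul_assoc, hQP, Matrix.one_mul]
  exact h0 k hk

/-- MINIMAL VECTORS.
PROOF. Let `𝒪 = {adjoint (ad x) ξ | x ∈ H}`, `H` the subgroup (or just the set of finite products) generated by the `exp Z`, `Z ∈ alg` symmetric; `adjoint (ad (x y)) = adjoint (ad y) ∘ adjoint (ad x)`. Every `η ∈ 𝒪` has `hat η = P (hat ξ) P⁻¹` for an invertible matrix `P` (`hat_adj`), so `tr (hat η)^k = tr (hat ξ)^k = 0`, `k ≥ 1`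
(`pol_eq`). Let `m = inf {‖η‖ | η ∈ 𝒪}`. If `m < ρ` we are done. Otherwise `m > 0`; take `η_n ∈ 𝒪` with `‖η_n‖ → m`; a subsequence converges to `η₀ ∈ Ed d`, `‖η₀‖ = m > 0`, and `tr (hat η₀)^k = 0` by continuity. `X = hat η₀ ≠ 0` is nilpotent, so not normal (`zero_of_normal`). With `B = X Xᵀ - Xᵀ X` (symmetric, in `alg` by `brk`, `tr`) and
`t` from `frob_decr`, `Z = -t • B`: `‖adjoint (ad (exp Z)) η₀‖ = frob (exp Z X exp(-Z)) < frob X = m`. By continuity `‖adjoint (ad (exp Z)) η_n‖ < m` for large `n`, but `adjoint (ad (exp Z)) η_n ∈ 𝒪`: contradiction. -/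
theorem core_geo (hS : IsRed S) (h : IsAd S e kI) (ξ : Ed d)
    (h0 : ∀ k, 1 ≤ k → (coreOf S e kI).pol k ξ = 0) (ρ : ℝ) (hρ : 0 < ρ) :
    ∃ x : G, ‖ContinuousLinearMap.adjoint ((coreOf S e kI).ad x) ξ‖ < ρ := by
  have h0' : ∀ k, 1 ≤ k → ((hat e ξ) ^ k).trace = 0 := by
    intro k hk
    have h1 := h0 k hk
    rwa [pol_eq] at h1
  obtain ⟨η₀, hη₀, hmin⟩ := (isClosed_closure (s := A7d_orb S e kI ξ)).exists_infDist_eq_dist
    ⟨ξ, subset_closure (A7d_self hS h ξ)⟩ (0 : Ed d)
  by_cases hz : η₀ = 0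
  · rw [hz] at hη₀
    obtain ⟨η, hη, hd⟩ := Metric.mem_closure_iff.1 hη₀ ρ hρ
    obtain ⟨⟨x, hx⟩, _⟩ := hη
    refine ⟨x, ?_⟩
    rw [hx]
    rwa [dist_zero_left] at hd
  · exfalso
    have htr : ∀ k, 1 ≤ k → ((hat e η₀) ^ k).trace = 0 := by
      intro k hk
      have hcl : IsClosed {η : Ed d | ((hat e η) ^ k).trace = 0} := by
        refine isClosed_eq ?_ continuous_const
        exact ((hat_cont e).pow k).matrix_trace
      have hsub : A7d_orb S e kI ξ ⊆ {η : Ed d | ((hat e η) ^ k).trace = 0} :=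
        fun η hη => A7d_trace h0' hη k hk
      exact closure_minimal hsub hcl hη₀
    have hX0 : hat e η₀ ≠ 0 := by
      intro hX
      apply hz
      have h1 := crd_hat h η₀
      rw [hX] at h1
      rw [← h1]
      have h2 := crd_smul e 0 (0 : Mat N)
      simpa using h2
    have hnn : hat e η₀ * (hat e η₀)ᵀ ≠ (hat e η₀)ᵀ * hat e η₀ := by
      intro hn
      exact hX0 (zero_of_normal (nilp_of_trace htr) hn)
    obtain ⟨t, ht⟩ := frob_decr hnn
    set B : Mat N := hat e η₀ * (hat e η₀)ᵀ - (hat e η₀)ᵀ * hat e η₀ with hB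
    have hXm : hat e η₀ ∈ S.alg := hat_mem h η₀
    have hBm : B ∈ S.alg := hS.brk _ hXm _ (hS.tr _ hXm)
    have hBs : Bᵀ = B := by
      rw [hB]
      simp [Matrix.transpose_sub, Matrix.transpose_mul]
    have hZm : -(t • B) ∈ S.alg := Submodule.neg_mem _ (Submodule.smul_mem _ _ hBm)
    have hZs : (-(t • B))ᵀ = -(t • B) := by
      rw [Matrix.transpose_neg, Matrix.transpose_smul, hBs]
    have hcl : ContinuousLinearMap.adjoint ((coreOf S e kI).ad (S.exp (-(t • B)))) η₀ ∈
        closure (A7d_orb S e kI ξ) := by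
      refine map_mem_closure (ContinuousLinearMap.continuous _) hη₀ ?_
      intro η hη
      exact A7d_step hS h ξ hZm hZs hη
    have hle := Metric.infDist_le_dist_of_mem (x := (0 : Ed d)) hcl
    rw [hmin, dist_zero_left, dist_zero_left, ← frob_hat h, ← frob_hat h,
      hat_adj hS h hZm hZs, neg_neg] at hle
    exact absurd ht (not_lt.2 hle)

end Pool.Agent.RG
end

section

/-!
# A9a: the module in coordinates; the invariants `z_k` are central
-/

namespace Pool.Agent.RG

open Matrix Topology Set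

universe u v

variable {G : Type u} [Group G] [TopologicalSpace G] [IsTopologicalGroup G] {N : ℕ}
  {S : RData G N} {d : ℕ} {e : Fin d → Mat N} {kI : Finset (Fin d)} {V : Type v}
  [AddCommGroup V] [Module ℂ V] {M : GK G N V}

private theorem A9a_lie_zero (hM : IsGK S M) : M.lie 0 = 0 := by
  have h := hM.lie_smul 0 0 (Submodule.zero_mem _)
  simpa using h

private theorem A9a_lie_sum (hM : IsGK S M) (h : IsAd S e kI) (Y : Ed d) (s : Finset (Fin d)) :
    M.lie (∑ i ∈ s, Y i • e i) = ∑ i ∈ s, ((Y i : ℝ) : ℂ) • M.lie (e i) := by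
  classical
  induction s using Finset.induction_on with
  | empty => simpa using A9a_lie_zero hM
  | insert a s ha ih =>
    rw [Finset.sum_insert ha, Finset.sum_insert ha,
      hM.lie_add _ (S.alg.smul_mem _ (h.mem a)) _
        (Submodule.sum_mem _ fun i _ => S.alg.smul_mem _ (h.mem i)),
      hM.lie_smul _ _ (h.mem a), ih]

private theorem A9a_hat_sum {ι' : Type*} (e : Fin d → Mat N) (s : Finset ι') (f : ι' → Ed d) :
    hat e (∑ i ∈ s, f i) = ∑ i ∈ s, hat e (f i) := by
  classical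
  induction s using Finset.induction_on with
  | empty => simp [hat]
  | insert a s ha ih => rw [Finset.sum_insert ha, Finset.sum_insert ha, hat_add, ih]

private theorem A9a_hat_br (hS : IsRed S) (h : IsAd S e kI) (X Y : Ed d) :
    hat e ((coreOf S e kI).br X Y) = hat e X * hat e Y - hat e Y * hat e X := by
  have h1 : (coreOf S e kI).br X Y = ∑ i, ∑ j, X i • Y j • crd e (e i * e j - e j * e i) := by
    simp [coreOf]
  have h2 : ∀ i j, hat e (X i • Y j • crd e (e i * e j - e j * e i))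
      = (X i • e i) * (Y j • e j) - (Y j • e j) * (X i • e i) := by
    intro i j
    rw [hat_smul, hat_smul, hat_crd h (hS.brk _ (h.mem i) _ (h.mem j))]
    simp only [smul_mul_assoc, mul_smul_comm, smul_sub]
    rw [smul_comm (Y j) (X i) (e i * e j)]
  rw [h1, A9a_hat_sum]
  simp_rw [A9a_hat_sum, h2, Finset.sum_sub_distrib]
  rw [hat, hat, Finset.sum_mul_sum, Finset.sum_mul_sum]
  congr 1
  exact Finset.sum_comm

/-- PROOF. `lieOf M e Y = Σ Y_i lie (e_i) = lie (Σ Y_i e_i)` by `lie_add`, `lie_smul` (induction over the finite sum; all partial sums lie in `alg`). -/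
theorem lieOf_eq (hM : IsGK S M) (h : IsAd S e kI) (Y : Ed d) :
    lieOf M e Y = M.lie (hat e Y) := by
  rw [hat, A9a_lie_sum hM h Y Finset.univ]
  simp only [lieOf, LinearMap.coe_sum, Finset.sum_apply]
  refine Finset.sum_congr rfl fun i _ => ?_
  ext v
  simp

/-- PROOF. `hat (br X Y) = hat X hat Y - hat Y hat X` (bilinear; `hat_crd`, `brk`), `lieOf_eq`, `lie_brk`. -/
theorem lieOf_brk (hS : IsRed S) (hM : IsGK S M) (h : IsAd S e kI) (X Y : Ed d) (v : V) :
    lieOf M e ((coreOf S e kI).br X Y) v =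
      lieOf M e X (lieOf M e Y v) - lieOf M e Y (lieOf M e X v) := by
  have hx := hat_mem h X
  have hy := hat_mem h Y
  rw [lieOf_eq hM h, lieOf_eq hM h, lieOf_eq hM h, A9a_hat_br hS h, hM.lie_brk _ hx _ hy]

/-- PROOF. `hat_ad`, `lieOf_eq`, `compat`. -/
theorem lieOf_compat (hS : IsRed S) (hM : IsGK S M) (h : IsAd S e kI) (k : G) (hk : k ∈ S.K)
    (Y : Ed d) (v : V) :
    M.act k (lieOf M e Y v) = lieOf M e ((coreOf S e kI).ad k Y) (M.act k v) := by
  rw [lieOf_eq hM h, lieOf_eq hM h, hat_ad hS h, hM.compat k hk _ (hat_mem h Y)]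

/-- `casK` is the `K`-Laplacian and commutes with `K`.
PROOF. First: `kI = univ.map σ`, `e (σ j) = b j`, `Finset.sum_map`, `lieOf M e (eb i) = lie (e i)`. -/
theorem casK_eq (hM : IsGK S M) {D : ℕ} {b : Fin D → Mat N} (σ : Fin D ↪ Fin d)
    (h : IsAd S e (Finset.univ.map σ)) (hσ : ∀ j, e (σ j) = b j) :
    casK (coreOf S e (Finset.univ.map σ)) (lieOf M e) = lapK M b := by
  have h1 : ∀ j : Fin D, lieOf M e (eb (σ j)) = M.lie (b j) := by
    intro j
    rw [lieOf_eq hM h, hat_eb, hσ]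
  show (-∑ i ∈ Finset.univ.map σ, (lieOf M e (eb i)).comp (lieOf M e (eb i))) = _
  rw [Finset.sum_map]
  simp only [h1]
  rfl

end Pool.Agent.RG
end

section

/-!
# A9b: the module in coordinates; the invariants `z_k` are central
-/

namespace Pool.Agent.RG

open Matrix Topology Set

universe u v

variable {G : Type u} [Group G] [TopologicalSpace G] [IsTopologicalGroup G] {N : ℕ}
  {S : RData G N} {d : ℕ} {e : Fin d → Mat N} {kI : Finset (Fin d)} {V : Type v}
  [AddCommGroup V] [Module ℂ V] {M : GK G N V}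

private theorem A9b_wcf {G : Type u} {d : ℕ} (c : Core G d) (g : G) :
    ∀ (k : ℕ) (β γ : Fin k → Fin d), wcf c g (List.ofFn β) (List.ofFn γ) =
      ∏ l, (c.ad g (eb (β l))) (γ l) := by
  intro k
  induction k with
  | zero => intro β γ; simp [wcf]
  | succ k ih =>
    intro β γ
    rw [List.ofFn_succ, List.ofFn_succ, Fin.prod_univ_succ]
    simp only [wcf]
    rw [ih]

private theorem A9b_prod {d N : ℕ} (a : Fin d → Fin d → ℝ) (B : Fin d → Mat N) :
    ∀ (k : ℕ) (γ : Fin k → Fin d), ∑ β : Fin k → Fin d,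
      (∏ l, a (β l) (γ l)) • (List.ofFn fun l => B (β l)).prod =
        (List.ofFn fun l => ∑ i, a i (γ l) • B i).prod := by
  intro k
  induction k with
  | zero => intro γ; simp
  | succ k ih =>
    intro γ
    rw [List.ofFn_succ, List.prod_cons, ← ih (fun l => γ l.succ), Finset.sum_mul_sum,
      ← (Fin.consEquiv fun _ => Fin d).sum_comp, Fintype.sum_prod_type]
    refine Finset.sum_congr rfl fun i _ => Finset.sum_congr rfl fun β _ => ?_
    simp only [Fin.consEquiv_apply]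
    rw [Fin.prod_univ_succ, List.ofFn_succ, List.prod_cons]
    simp only [Fin.cons_zero, Fin.cons_succ]
    rw [smul_mul_smul_comm]

private theorem A9b_conj {N : ℕ} (P Q : Mat N) (hPQ : P * Q = 1) (hQP : Q * P = 1) :
    ∀ (k : ℕ) (B : Fin k → Mat N), (List.ofFn fun l => P * B l * Q).prod =
      P * (List.ofFn B).prod * Q := by
  intro k
  induction k with
  | zero => intro B; simp [hPQ]
  | succ k ih =>
    intro B
    rw [List.ofFn_succ, List.ofFn_succ, List.prod_cons, List.prod_cons, ih]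
    calc P * B 0 * Q * (P * (List.ofFn fun i => B i.succ).prod * Q)
        = P * B 0 * (Q * P) * (List.ofFn fun i => B i.succ).prod * Q := by noncomm_ring
      _ = _ := by rw [hQP]; noncomm_ring

private theorem A9b_adj (hS : IsRed S) (h : IsAd S e kI) (x : G) (j : Fin d) :
    ∑ i, ((coreOf S e kI).ad x (eb i)) j • (e i)ᵀ = S.φ x⁻¹ * (e j)ᵀ * S.φ x := by
  have hm : S.φ x⁻¹ * (e j)ᵀ * S.φ x ∈ S.alg := by
    have := hS.ad_mem x⁻¹ _ (hS.tr _ (h.mem j))
    rwa [inv_inv] at this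
  have h2 := hat_crd h (hS.tr _ hm)
  have h3 := congrArg Matrix.transpose h2
  rw [Matrix.transpose_transpose] at h3
  rw [← h3, hat, Matrix.transpose_sum]
  refine Finset.sum_congr rfl fun i _ => ?_
  rw [Matrix.transpose_smul]
  congr 1
  rw [ad_apply, hat_eb]
  simp only [crd]
  rw [← Matrix.transpose_mul, Matrix.trace_transpose]
  rw [show S.φ x⁻¹ * (e j)ᵀ * S.φ x * e i = (S.φ x⁻¹ * (e j)ᵀ) * (S.φ x * e i) from by
    simp only [Matrix.mul_assoc]]
  rw [show (e j)ᵀ * (S.φ x * e i * S.φ x⁻¹) = ((e j)ᵀ * (S.φ x * e i)) * S.φ x⁻¹ from by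
    simp only [Matrix.mul_assoc]]
  rw [Matrix.trace_mul_comm ((e j)ᵀ * (S.φ x * e i)) (S.φ x⁻¹)]
  simp only [Matrix.mul_assoc]

/-- The tensor `t k` is invariant, group version.
PROOF. Let `a_ji = (ad x e_i)_j = tr(e_jᵀ φx e_i φx⁻¹)`, so that `wcf c x β γ = Π_l a_{γ_l β_l}`. For each `j`: `Σ_i a_ji e_iᵀ = φx⁻¹ e_jᵀ φx`: indeed `φx⁻¹ e_jᵀ φx ∈ alg` and `e_iᵀ` is again an orthonormal basis of `alg`, `tr(φx⁻¹ e_jᵀ φx e_i) = a_ji = ⟨e_iᵀ, φx⁻¹ e_jᵀ φx⟩`. Hence
`Σ_β t k β Π_l a_{γ_l β_l} = tr Π_l (Σ_{β_l} a_{γ_l β_l} e_{β_l}ᵀ) = tr (φx⁻¹ Π_l e_{γ_l}ᵀ φx) = t k γ`. -/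
theorem t_inv (hS : IsRed S) (h : IsAd S e kI) (k : ℕ) (x : G) (γ : Fin k → Fin d) :
    ∑ β : Fin k → Fin d, (coreOf S e kI).t k β *
      wcf (coreOf S e kI) x (List.ofFn β) (List.ofFn γ) = (coreOf S e kI).t k γ := by
  have h1 := A9b_prod (fun i j => ((coreOf S e kI).ad x (eb i)) j) (fun i => (e i)ᵀ) k γ
  have h2 : (fun l => ∑ i, ((coreOf S e kI).ad x (eb i)) (γ l) • (e i)ᵀ) =
      fun l => S.φ x⁻¹ * (e (γ l))ᵀ * S.φ x := by
    funext l
    exact A9b_adj hS h x (γ l)
  rw [h2, A9b_conj _ _ (phi_inv hS x).2 (phi_inv hS x).1] at h1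
  have h3 := congrArg Matrix.trace h1
  rw [Matrix.trace_sum, Matrix.mul_assoc, Matrix.trace_mul_comm, Matrix.mul_assoc,
    (phi_inv hS x).1, Matrix.mul_one] at h3
  rw [show (coreOf S e kI).t k γ = (List.ofFn fun l => (e (γ l))ᵀ).prod.trace from rfl, ← h3]
  refine Finset.sum_congr rfl fun β _ => ?_
  rw [A9b_wcf, Matrix.trace_smul, smul_eq_mul, mul_comm]
  rfl

private theorem A9b_wda (c : Core G d) (L : Ed d →ₗ[ℝ] (V →ₗ[ℂ] V)) (g : G) (k : ℕ) (b : List (Fin d))
    (hb : b.length = k) (v : V) :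
    wda c L g b v = ∑ γ : Fin k → Fin d,
      ((wcf c g b (List.ofFn γ) : ℝ) : ℂ) • wd L (List.ofFn γ) v := by
  subst hb
  exact wda_eq L g b v

private theorem A9b_act (hS : IsRed S) (hM : IsGK S M) (h : IsAd S e kI) (l : G)
    (hl : l ∈ S.K) (v : V) : ∀ b : List (Fin d), M.act l (wd (lieOf M e) b v) =
      wda (coreOf S e kI) (lieOf M e) l b (M.act l v) := by
  intro b
  induction b with
  | nil => rfl
  | cons i b ih =>
    simp only [wd, wda, LinearMap.comp_apply]
    rw [lieOf_compat hS hM h l hl, ih]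

/-- PROOF. `act l (wd L β v) = wda c L l β (act l v)` by `lieOf_compat` (induction), expand with `wda_eq`, exchange the sums and use `t_inv` with `x = l`. -/
theorem zk_act (hS : IsRed S) (hM : IsGK S M) (h : IsAd S e kI) (k : ℕ) (l : G)
    (hl : l ∈ S.K) (v : V) :
    zk (coreOf S e kI) (lieOf M e) k (M.act l v) = M.act l (zk (coreOf S e kI) (lieOf M e) k v) := by
  simp only [zk, LinearMap.sum_apply, LinearMap.smul_apply, map_sum, map_smul]
  have h1 : ∀ β : Fin k → Fin d, M.act l (wd (lieOf M e) (List.ofFn β) v) =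
      ∑ γ : Fin k → Fin d, ((wcf (coreOf S e kI) l (List.ofFn β) (List.ofFn γ) : ℝ) : ℂ) •
        wd (lieOf M e) (List.ofFn γ) (M.act l v) := by
    intro β
    rw [A9b_act hS hM h l hl, A9b_wda _ _ _ k _ (List.length_ofFn)]
  simp only [h1, Finset.smul_sum, smul_smul]
  rw [Finset.sum_comm]
  refine Finset.sum_congr rfl fun γ _ => ?_
  rw [← Finset.sum_smul]
  congr 1
  rw [← t_inv hS h k l γ]
  push_cast
  rfl

end Pool.Agent.RG
end

section

/-!
# A9c: the module in coordinates; the invariants `z_k` are central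
-/

namespace Pool.Agent.RG

open Matrix Topology Set

universe u v

variable {G : Type u} [Group G] [TopologicalSpace G] [IsTopologicalGroup G] {N : ℕ}
  {S : RData G N} {d : ℕ} {e : Fin d → Mat N} {kI : Finset (Fin d)} {V : Type v}
  [AddCommGroup V] [Module ℂ V] {M : GK G N V}

/-- the matrix `Σ e_iᵀ ⊗ X_i` with entries in the endomorphisms of `V` -/
private noncomputable def A9c_E (e : Fin d → Mat N) (X : Fin d → (V →ₗ[ℂ] V)) :
    Matrix (Fin N) (Fin N) (Module.End ℂ V) :=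
  Matrix.of fun a b => ∑ i, (((e i)ᵀ a b : ℝ) : ℂ) • (X i : Module.End ℂ V)

private theorem A9c_pow (e : Fin d → Mat N) (L : Ed d →ₗ[ℝ] (V →ₗ[ℂ] V)) (k : ℕ)
    (a b : Fin N) :
    (A9c_E e (fun i => L (eb i)) ^ k) a b = ∑ β : Fin k → Fin d,
      (((List.ofFn fun l => (e (β l))ᵀ).prod a b : ℝ) : ℂ) •
        (wd L (List.ofFn β) : Module.End ℂ V) := by
  induction k generalizing a b with
  | zero =>
    simp only [pow_zero, Finset.univ_unique, Finset.sum_singleton, List.ofFn_zero,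
      List.prod_nil, wd]
    by_cases hab : a = b
    · subst hab
      simp only [Matrix.one_apply_eq, Complex.ofReal_one, one_smul]
      rfl
    · simp only [Matrix.one_apply_ne hab, Complex.ofReal_zero, zero_smul]
  | succ k ih =>
    rw [pow_succ', Matrix.mul_apply, ← (Fin.consEquiv (fun _ : Fin (k+1) => Fin d)).sum_comp,
      Fintype.sum_prod_type]
    simp only [ih]
    have h1 : ∀ (i : Fin d) (γ : Fin k → Fin d),
        (((List.ofFn fun l : Fin (k+1) => (e ((Fin.consEquiv (fun _ : Fin (k+1) => Fin d))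
          (i, γ) l))ᵀ).prod a b : ℝ) : ℂ) •
        (wd L (List.ofFn ((Fin.consEquiv (fun _ : Fin (k+1) => Fin d)) (i, γ))) :
          Module.End ℂ V) =
        ∑ c : Fin N, ((((e i)ᵀ a c : ℝ) : ℂ) • (L (eb i) : Module.End ℂ V)) *
          ((((List.ofFn fun l => (e (γ l))ᵀ).prod c b : ℝ) : ℂ) •
            (wd L (List.ofFn γ) : Module.End ℂ V)) := by
      intro i γ
      have h2 : (List.ofFn ((Fin.consEquiv (fun _ : Fin (k+1) => Fin d)) (i, γ))) =
          i :: List.ofFn γ := by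
        rw [List.ofFn_succ]
        simp [Fin.consEquiv]
      have h3 : (List.ofFn fun l : Fin (k+1) => (e ((Fin.consEquiv (fun _ : Fin (k+1) => Fin d))
          (i, γ) l))ᵀ) = (e i)ᵀ :: (List.ofFn fun l => (e (γ l))ᵀ) := by
        rw [List.ofFn_succ]
        simp [Fin.consEquiv]
      rw [h2, h3, List.prod_cons, Matrix.mul_apply]
      simp only [smul_mul_smul_comm]
      rw [← Finset.sum_smul]
      congr 1
      push_cast
      rfl
    simp only [h1]
    unfold A9c_E
    simp only [Matrix.of_apply, Finset.sum_mul_sum]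
    rw [Finset.sum_comm]
    refine Finset.sum_congr rfl fun i _ => ?_
    rw [Finset.sum_comm]

omit [TopologicalSpace G] [IsTopologicalGroup G] in
private theorem A9c_zk (e : Fin d → Mat N) (kI : Finset (Fin d)) (S : RData G N)
    (L : Ed d →ₗ[ℝ] (V →ₗ[ℂ] V)) (k : ℕ) :
    (zk (coreOf S e kI) L k : Module.End ℂ V) =
      Matrix.trace (A9c_E e (fun i => L (eb i)) ^ k) := by
  unfold zk Matrix.trace
  simp only [Matrix.diag_apply, A9c_pow]
  rw [Finset.sum_comm]
  refine Finset.sum_congr rfl fun β _ => ?_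
  rw [← Finset.sum_smul]
  congr 1
  simp only [coreOf, Matrix.trace, Matrix.diag_apply]
  push_cast
  rfl

private theorem A9c_trace_comm (A B : Matrix (Fin N) (Fin N) (Module.End ℂ V))
    (hA : ∀ a b, ∀ T : Module.End ℂ V, A a b * T = T * A a b) :
    Matrix.trace (A * B) = Matrix.trace (B * A) := by
  simp only [Matrix.trace, Matrix.diag_apply, Matrix.mul_apply]
  rw [Finset.sum_comm]
  refine Finset.sum_congr rfl fun a _ => Finset.sum_congr rfl fun b _ => ?_
  rw [hA]

omit [IsTopologicalGroup G] in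
/-- the commutator of `e_jᵀ` with an element of the Lie algebra -/
private theorem A9c_W (hS : IsRed S) (h : IsAd S e kI) (Y : Ed d) (j : Fin d) :
    (e j)ᵀ * hat e Y - hat e Y * (e j)ᵀ =
      ∑ i, (crd e (hat e Y * e i - e i * hat e Y)) j • (e i)ᵀ := by
  have h1 : ((e j)ᵀ * hat e Y - hat e Y * (e j)ᵀ) ∈ S.alg :=
    hS.brk _ (hS.tr _ (h.mem j)) _ (hat_mem h Y)
  have h2 := hat_crd h (hS.tr _ h1)
  have h3 := congrArg Matrix.transpose h2
  rw [Matrix.transpose_transpose] at h3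
  rw [← h3]
  unfold hat
  rw [Matrix.transpose_sum]
  refine Finset.sum_congr rfl fun i _ => ?_
  rw [Matrix.transpose_smul]
  congr 1
  unfold crd
  simp only
  have e1 : ∀ (A B C : Mat N), (Aᵀ * (Bᵀ * C - C * Bᵀ)ᵀ).trace = (Bᵀ * (C * A - A * C)).trace := by
    intro A B C
    rw [← Matrix.trace_transpose, Matrix.transpose_mul, Matrix.transpose_transpose,
      Matrix.transpose_transpose, Matrix.sub_mul, Matrix.mul_sub, Matrix.trace_sub,
      Matrix.trace_sub, Matrix.mul_assoc, Matrix.mul_assoc]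
    congr 1
    rw [Matrix.trace_mul_comm C, Matrix.mul_assoc]
  exact e1 _ _ _

/-- `z_k` commutes with the Lie algebra.
PROOF. `X wd β v - wd β X v = Σ_l wd(β with the letter β_l replaced by [X, β_l]) v` (induction on the word, `lieOf_brk`), `[X, e_i] = Σ_j b_ji e_j`, `b_ji = tr(e_jᵀ (X e_i - e_i X))` (`X` also for the matrix `hat X`). As in `t_inv`, `Σ_i b_ji e_iᵀ = -(X e_jᵀ - e_jᵀ X) = e_jᵀ X - X e_jᵀ`:
`tr(e_jᵀ (X e_i - e_i X)) = tr((e_jᵀ X - X e_jᵀ) e_i)` and `e_jᵀ X - X e_jᵀ ∈ alg`. So the coefficient of `wd γ v` in `X z_k v - z_k X v` is `Σ_l tr(e_{γ_1}ᵀ .. (e_{γ_l}ᵀ X - X e_{γ_l}ᵀ) .. e_{γ_k}ᵀ) = tr((Π e_{γ}ᵀ) X - X (Π e_γᵀ)) = 0` (telescoping: commutator with `X` is a derivation). -/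
theorem zk_lie (hS : IsRed S) (hM : IsGK S M) (h : IsAd S e kI) (k : ℕ) (Y : Ed d) (v : V) :
    zk (coreOf S e kI) (lieOf M e) k (lieOf M e Y v) =
      lieOf M e Y (zk (coreOf S e kI) (lieOf M e) k v) := by
  set X : Module.End ℂ V := lieOf M e Y with hX
  set E : Matrix (Fin N) (Fin N) (Module.End ℂ V) := A9c_E e (fun i => lieOf M e (eb i)) with hE
  set H : Matrix (Fin N) (Fin N) (Module.End ℂ V) :=
    Matrix.of fun a b => ((hat e Y a b : ℝ) : ℂ) • (1 : Module.End ℂ V) with hH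
  have hlie : ∀ i, (lieOf M e (eb i) : Module.End ℂ V) = M.lie (e i) := by
    intro i
    rw [lieOf_eq hM h, hat_eb]
  -- the commutators
  have hcomm : ∀ i, X * (lieOf M e (eb i) : Module.End ℂ V) -
      (lieOf M e (eb i) : Module.End ℂ V) * X =
      ∑ j, (((crd e (hat e Y * e i - e i * hat e Y)) j : ℝ) : ℂ) •
        (lieOf M e (eb j) : Module.End ℂ V) := by
    intro i
    have hb : hat e Y * e i - e i * hat e Y ∈ S.alg := hS.brk _ (hat_mem h Y) _ (h.mem i)
    have h1 : X * (lieOf M e (eb i) : Module.End ℂ V) -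
      (lieOf M e (eb i) : Module.End ℂ V) * X = M.lie (hat e Y * e i - e i * hat e Y) := by
      ext w
      rw [hM.lie_brk _ (hat_mem h Y) _ (h.mem i), hX, lieOf_eq hM h, lieOf_eq hM h, hat_eb]
      rfl
    have h2 : M.lie (hat e Y * e i - e i * hat e Y) =
        lieOf M e (crd e (hat e Y * e i - e i * hat e Y)) := by
      rw [lieOf_eq hM h, hat_crd h hb]
    rw [h1, h2]
    simp only [hlie]
    ext w
    simp only [lieOf, LinearMap.sum_apply, LinearMap.smulRight_apply]
    rfl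
  have hscal : ∀ (r : ℝ) (T : Module.End ℂ V),
      ((r : ℂ) • (1 : Module.End ℂ V)) * T = (r : ℂ) • T ∧
      T * ((r : ℂ) • (1 : Module.End ℂ V)) = (r : ℂ) • T := by
    intro r T
    constructor
    · rw [smul_mul_assoc, one_mul]
    · rw [mul_smul_comm, mul_one]
  have hD : Commute (Matrix.diagonal (fun _ : Fin N => X) + H) E := by
    have key : Matrix.diagonal (fun _ : Fin N => X) * E - E * Matrix.diagonal (fun _ : Fin N => X) =
        E * H - H * E := by
      ext1 a b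
      simp only [Matrix.sub_apply, Matrix.diagonal_mul, Matrix.mul_diagonal]
      simp only [Matrix.mul_apply, hH, Matrix.of_apply]
      simp only [fun r T => (hscal r T).1, fun r T => (hscal r T).2]
      simp only [hE, A9c_E, Matrix.of_apply, Finset.mul_sum, Finset.sum_mul, Finset.smul_sum,
        mul_smul_comm, smul_mul_assoc]
      rw [← Finset.sum_sub_distrib]
      simp only [← smul_sub, hcomm, Finset.smul_sum]
      rw [Finset.sum_comm]
      rw [Finset.sum_comm (s := (Finset.univ : Finset (Fin N))),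
        Finset.sum_comm (s := (Finset.univ : Finset (Fin N))), ← Finset.sum_sub_distrib]
      refine Finset.sum_congr rfl fun j _ => ?_
      simp only [smul_smul, ← Finset.sum_smul, ← sub_smul]
      congr 1
      have h1 := congrFun (congrFun (A9c_W hS h Y j) a) b
      simp only [Matrix.sub_apply, Matrix.mul_apply, Matrix.sum_apply, Matrix.smul_apply,
        smul_eq_mul] at h1
      have h2 := congrArg Complex.ofReal h1
      push_cast at h2
      simp only [mul_comm] at h2 ⊢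
      rw [h2]
    have : Matrix.diagonal (fun _ : Fin N => X) * E + H * E =
        E * Matrix.diagonal (fun _ : Fin N => X) + E * H := by
      rw [sub_eq_sub_iff_add_eq_add] at key
      rw [key, add_comm]
    show (Matrix.diagonal (fun _ : Fin N => X) + H) * E =
      E * (Matrix.diagonal (fun _ : Fin N => X) + H)
    rw [add_mul, mul_add, this]
  have hDk := hD.pow_right k
  have htr := congrArg Matrix.trace hDk.eq
  rw [add_mul, mul_add, Matrix.trace_add, Matrix.trace_add] at htr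
  have hHc : Matrix.trace (H * E ^ k) = Matrix.trace (E ^ k * H) := by
    apply A9c_trace_comm
    intro a b T
    simp only [hH, Matrix.of_apply]
    rw [(hscal _ T).1, (hscal _ T).2]
  rw [hHc] at htr
  have htr2 := add_right_cancel htr
  have h1 : Matrix.trace (Matrix.diagonal (fun _ : Fin N => X) * E ^ k) =
      X * Matrix.trace (E ^ k) := by
    simp only [Matrix.trace, Matrix.diag_apply, Matrix.diagonal_mul, Finset.mul_sum]
  have h2 : Matrix.trace (E ^ k * Matrix.diagonal (fun _ : Fin N => X)) =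
      Matrix.trace (E ^ k) * X := by
    simp only [Matrix.trace, Matrix.diag_apply, Matrix.mul_diagonal, Finset.sum_mul]
  rw [h1, h2, hE, ← A9c_zk e kI S] at htr2
  have h3 := LinearMap.congr_fun htr2 v
  exact h3.symm

end Pool.Agent.RG
end
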