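import Pool.Agent.Lib.MP_496a9e_al.Q.E0

section

/-!
# C1: weights are bounded by powers of `M`
-/

namespace Pool.Agent.RG

open MeasureTheory Topology Filter Set

universe u v

variable {G : Type u} [Group G] [TopologicalSpace G] {d : ℕ} {c : Core G d}

/-- A locally bounded function is bounded on compact sets.
PROOF. Finite subcover (`IsCompact.elim_nhds_subcover`). -/
theorem weight_bdd {w : G → ℝ} (hw : IsWeight w) {S : Set G} (hS : IsCompact S) :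
    ∃ B : ℝ, 1 ≤ B ∧ ∀ g ∈ S, w g ≤ B := by
  choose U hU Bf hB using hw.loc
  obtain ⟨t, _, ht2⟩ := hS.elim_nhds_subcover U (fun x _ => hU x)
  refine ⟨1 + ∑ x ∈ t, |Bf x|, ?_, ?_⟩
  · have : 0 ≤ ∑ x ∈ t, |Bf x| := Finset.sum_nonneg fun x _ => abs_nonneg _
    linarith
  · intro g hg
    obtain ⟨x, hx, hgx⟩ := Set.mem_iUnion₂.1 (ht2 hg)
    have h1 := hB x g hgx
    have h2 : |Bf x| ≤ ∑ x ∈ t, |Bf x| :=
      Finset.single_le_sum (f := fun x => |Bf x|) (fun x _ => abs_nonneg _) hx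
    have h3 := le_abs_self (Bf x)
    linarith

/-- WEIGHTS.
PROOF. `S = K ∪ ex '' (closedBall 0 1)` is compact; let `B ≥ 1` bound `w` on `S`. For `x = k * ex Y` with `exp (a ‖Y‖) ≤ M x` (`hc.cartan`) let `m = ⌈‖Y‖⌉₊ + 1`; `ex Y = (ex (Y/m))^m` (`ex_add`), `‖Y/m‖ ≤ 1`, so
`w x ≤ w k * w (ex (Y/m))^m ≤ B^(m+1) ≤ B^3 * B^‖Y‖ = B^3 exp (‖Y‖ log B) ≤ B^3 (M x)^(log B / a) ≤ B^3 (M x)^A₁` with `A₁ = ⌈log B / a⌉₊` (`M x ≥ 1`). -/
theorem weight_le (hc : IsCore c) {w : G → ℝ} (hw : IsWeight w) :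
    ∃ (A₁ : ℕ) (C : ℝ), 0 ≤ C ∧ ∀ x, w x ≤ C * c.M x ^ A₁ := by
  have hSc : IsCompact (c.K ∪ c.ex '' Metric.closedBall 0 1) :=
    hc.K_compact.union ((isCompact_closedBall (0 : Ed d) 1).image hc.ex_cont)
  obtain ⟨B, hB1, hB⟩ := weight_bdd hw hSc
  obtain ⟨a, ha, hcar⟩ := hc.cartan
  have hB0 : 0 < B := by linarith
  have hlog : 0 ≤ Real.log B := Real.log_nonneg hB1
  refine ⟨⌈Real.log B / a⌉₊, B ^ 4, by positivity, ?_⟩
  intro x
  obtain ⟨k, hk, Y, hx, hM⟩ := hcar x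
  have hpow : ∀ (Z : Ed d) (n : ℕ), c.ex ((n : ℝ) • Z) = c.ex Z ^ n := by
    intro Z n
    induction n with
    | zero =>
      rw [Nat.cast_zero, zero_smul, pow_zero]
      exact hc.ex_zero
    | succ n ih =>
      rw [Nat.cast_succ, hc.ex_add, ih, one_smul, pow_succ]
  have hwpow : ∀ (g : G), w g ≤ B → ∀ n : ℕ, w (g ^ n) ≤ B ^ (n + 1) := by
    intro g hg n
    induction n with
    | zero =>
      rw [pow_zero, zero_add, pow_one]
      exact hB 1 (Or.inl hc.K_one)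
    | succ n ih =>
      rw [pow_succ]
      calc w (g ^ n * g) ≤ w (g ^ n) * w g := hw.mul _ _
        _ ≤ B ^ (n + 1) * B := mul_le_mul ih hg (hw.pos _).le (by positivity)
        _ = B ^ (n + 1 + 1) := by ring
  obtain ⟨m, hm⟩ : ∃ m : ℕ, m = ⌈‖Y‖⌉₊ + 1 := ⟨_, rfl⟩
  have hmpos : (0 : ℝ) < m := by
    rw [hm]
    push_cast
    positivity
  have hYm : ‖Y‖ ≤ m := by
    rw [hm]
    push_cast
    have := Nat.le_ceil ‖Y‖
    linarith
  have hm2 : (m : ℝ) ≤ ‖Y‖ + 2 := by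
    rw [hm]
    push_cast
    have := (Nat.ceil_lt_add_one (norm_nonneg Y)).le
    linarith
  have hY : c.ex Y = c.ex ((m : ℝ)⁻¹ • Y) ^ m := by
    rw [← hpow, smul_smul, mul_inv_cancel₀ hmpos.ne', one_smul]
  have hZ : w (c.ex ((m : ℝ)⁻¹ • Y)) ≤ B := by
    apply hB
    right
    refine ⟨(m : ℝ)⁻¹ • Y, ?_, rfl⟩
    rw [mem_closedBall_zero_iff, norm_smul, norm_inv, Real.norm_of_nonneg hmpos.le]
    rw [inv_mul_le_iff₀ hmpos]
    linarith
  have h1 : w x ≤ B ^ (m + 2) := by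
    rw [hx]
    calc w (k * c.ex Y) ≤ w k * w (c.ex Y) := hw.mul _ _
      _ ≤ B * B ^ (m + 1) := by
        refine mul_le_mul (hB k (Or.inl hk)) ?_ (hw.pos _).le hB0.le
        rw [hY]
        exact hwpow _ hZ m
      _ = B ^ (m + 2) := by ring
  refine h1.trans ?_
  have h2 : B ^ (m + 2) = Real.exp (((m + 2 : ℕ) : ℝ) * Real.log B) := by
    rw [mul_comm, Real.exp_mul, Real.exp_log hB0, Real.rpow_natCast]
  have h3 : B ^ 4 = Real.exp (((4 : ℕ) : ℝ) * Real.log B) := by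
    rw [mul_comm, Real.exp_mul, Real.exp_log hB0, Real.rpow_natCast]
  have h4 : Real.exp (((m + 2 : ℕ) : ℝ) * Real.log B) ≤
      Real.exp (((4 : ℕ) : ℝ) * Real.log B) * Real.exp (‖Y‖ * Real.log B) := by
    rw [← Real.exp_add]
    apply Real.exp_le_exp.2
    push_cast
    nlinarith
  have h5 : Real.exp (‖Y‖ * Real.log B) ≤ c.M x ^ ⌈Real.log B / a⌉₊ := by
    have e1 : ‖Y‖ * Real.log B = (a * ‖Y‖) * (Real.log B / a) := by
      field_simp
    rw [e1, Real.exp_mul]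
    calc Real.exp (a * ‖Y‖) ^ (Real.log B / a) ≤ c.M x ^ (Real.log B / a) :=
          Real.rpow_le_rpow (Real.exp_pos _).le hM (by positivity)
      _ ≤ c.M x ^ ((⌈Real.log B / a⌉₊ : ℕ) : ℝ) :=
          Real.rpow_le_rpow_of_exponent_le (hc.M_ge x) (Nat.le_ceil _)
      _ = c.M x ^ ⌈Real.log B / a⌉₊ := Real.rpow_natCast _ _
  rw [h2]
  refine h4.trans ?_
  rw [← h3]
  exact mul_le_mul_of_nonneg_left h5 (by positivity)

end Pool.Agent.RG
end

section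

/-!
# C0: definitions for the measure on the group
-/

namespace Pool.Agent.RG

open MeasureTheory Topology Filter Set
open scoped ENNReal

universe u v

/-- The measure `ν = M^(-2A) dμ` on the group (`μ` a right Haar measure). -/
structure IsNu {G : Type u} [Group G] [TopologicalSpace G] [MeasurableSpace G] {d : ℕ}
    (c : Core G d) (A A₁ : ℕ) (ν : Measure G) : Prop where
  trans : ∀ (x : G) (F : G → ℝ≥0∞), Measurable F →
    ∫⁻ g, F (g * x) ∂ν ≤ ENNReal.ofReal (c.M x ^ (2 * A)) * ∫⁻ g, F g ∂ν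
  fin : ∫⁻ g, ENNReal.ofReal (c.M g ^ (2 * A₁)) ∂ν < ⊤
  pos : ∀ U : Set G, IsOpen U → U.Nonempty → ν U ≠ 0
  loc : ∃ δ : ℝ, 0 < δ ∧ ∃ C : ℝ≥0∞, C ≠ ⊤ ∧ ∀ F : G → ℝ≥0∞, Measurable F →
    ∫⁻ Y in Metric.ball (0 : Ed d) δ, F (c.ex Y) ≤ C * ∫⁻ g, F g ∂ν

/-- The maps `J λ : E → H`, `(J λ e)(g) = λ(π(g) e)`. -/
structure IsJ {G : Type u} [Group G] [TopologicalSpace G] {d : ℕ} (c : Core G d) (A : ℕ)
    {E : Type v} {H : Type u} [NormedAddCommGroup E] [NormedSpace ℂ E] [NormedAddCommGroup H]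
    [InnerProductSpace ℂ H] (π : G → E →L[ℂ] E) (J : (E →L[ℂ] ℂ) → E →L[ℂ] H) : Prop where
  tp : ∀ lam, IsTp c A π (J lam)
  bd : ∃ B : ℝ, ∀ (lam : E →L[ℂ] ℂ) (e : E), ‖J lam e‖ ≤ B * ‖lam‖ * ‖e‖
  sep : ∀ (lam : E →L[ℂ] ℂ) (e : E), J lam e = 0 → lam e = 0
  mono : ∀ (lam lam' : E →L[ℂ] ℂ) (e e' : E) (r : ℝ), 0 ≤ r →
    (∀ g : G, ‖lam (π g e)‖ ≤ r * ‖lam' (π g e')‖) → ‖J lam e‖ ≤ r * ‖J lam' e'‖
  loc : ∃ δ : ℝ, 0 < δ ∧ ∃ C : ℝ, 0 ≤ C ∧ ∀ (lam : E →L[ℂ] ℂ) (e : E),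
    ∫ Y in Metric.ball (0 : Ed d) δ, ‖lam (π (c.ex Y) e)‖ ^ 2 ≤ C * ‖J lam e‖ ^ 2

end Pool.Agent.RG
end

section

/-!
# C2a: the right Haar measure and its growth
-/

namespace Pool.Agent.RG

open MeasureTheory Topology Filter Set
open scoped ENNReal

universe u v

variable {G : Type u} [Group G] [TopologicalSpace G] [IsTopologicalGroup G] [T2Space G]
  {d : ℕ} {c : Core G d}

/-- PROOF. `ex '' (closedBall 0 1)` is a compact neighborhood of `1` (`ex_cont`, `ex_open`). `IsCompact.locallyCompactSpace_of_mem_nhds_of_group`. -/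
theorem loc_compact (hc : IsCore c) : LocallyCompactSpace G := by
  have h1 : IsCompact (c.ex '' Metric.closedBall (0 : Ed d) 1) :=
    (isCompact_closedBall _ _).image hc.ex_cont
  have h2 : c.ex '' Metric.closedBall (0 : Ed d) 1 ∈ 𝓝 (1 : G) :=
    hc.ex_open _ (Metric.closedBall_mem_nhds _ one_pos)
  exact h1.locallyCompactSpace_of_mem_nhds_of_group h2

/-- PROOF. `G` is the union of the compact sets `K * ex '' (closedBall 0 n)`, `n : ℕ` (`hc.cartan`). -/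
theorem sig_compact (hc : IsCore c) : SigmaCompactSpace G := by
  constructor
  refine ⟨fun n : ℕ => (fun z : G × G => z.1 * z.2) ''
    (c.K ×ˢ (c.ex '' Metric.closedBall (0 : Ed d) n)), fun n => ?_, ?_⟩
  · exact (hc.K_compact.prod ((isCompact_closedBall _ _).image hc.ex_cont)).image continuous_mul
  · rw [Set.eq_univ_iff_forall]
    intro x
    obtain ⟨a, -, ha⟩ := hc.cartan
    obtain ⟨k, hk, Y, hx, -⟩ := ha x
    obtain ⟨n, hn⟩ := exists_nat_ge ‖Y‖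
    rw [Set.mem_iUnion]
    refine ⟨n, (k, c.ex Y), ⟨hk, ⟨Y, ?_, rfl⟩⟩, hx.symm⟩
    rw [Metric.mem_closedBall, dist_zero_right]
    exact hn

end Pool.Agent.RG
end

section

/-!
# C2b: the right Haar measure and its growth
-/

namespace Pool.Agent.RG

open MeasureTheory Topology Filter Set
open scoped ENNReal Pointwise

universe u v

variable {G : Type u} [Group G] [TopologicalSpace G] [IsTopologicalGroup G] [T2Space G]
  {d : ℕ} {c : Core G d}

omit [T2Space G] in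
private theorem C2b_cover {U : Set G} (hU : IsCompact U) (h1 : U ∈ 𝓝 (1 : G)) :
    ∃ F : Set G, F.Finite ∧ F.Nonempty ∧ U * U ⊆ U * F := by
  classical
  have hUU : IsCompact (U * U) := hU.mul hU
  obtain ⟨t, ht⟩ := hUU.elim_finite_subcover (fun y : G => interior U * {y})
    (fun y => (isOpen_interior).mul_right) (by
      intro y _
      refine mem_iUnion.2 ⟨y, ?_⟩
      exact ⟨1, mem_interior_iff_mem_nhds.2 h1, y, rfl, by simp⟩)
  refine ⟨insert 1 (t : Set G), (t.finite_toSet).insert 1, ⟨1, mem_insert _ _⟩, ?_⟩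
  intro x hx
  obtain ⟨y, hy⟩ := mem_iUnion.1 (ht hx)
  obtain ⟨hyt, hxy⟩ := mem_iUnion.1 hy
  obtain ⟨v, hv, w, hw, rfl⟩ := hxy
  exact ⟨v, interior_subset hv, w, by
    rw [mem_singleton_iff.1 hw]; exact mem_insert_of_mem _ hyt, rfl⟩

omit [TopologicalSpace G] [IsTopologicalGroup G] [T2Space G] in
private theorem C2b_pow {U F : Set G} (h : U * U ⊆ U * F) (m : ℕ) : U ^ (m + 1) ⊆ U * F ^ m := by
  induction m with
  | zero => simp
  | succ m ih =>
    calc U ^ (m + 1 + 1) = U * U ^ (m + 1) := pow_succ' U (m + 1)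
      _ ⊆ U * (U * F ^ m) := mul_subset_mul_left ih
      _ = (U * U) * F ^ m := (mul_assoc _ _ _).symm
      _ ⊆ (U * F) * F ^ m := mul_subset_mul_right h
      _ = U * F ^ (m + 1) := by rw [mul_assoc, pow_succ']

private theorem C2b_meas [MeasurableSpace G] [BorelSpace G] (μ : Measure G)
    [μ.IsMulRightInvariant] {U : Set G} (F : Finset G) [DecidableEq G]
    (h : U * U ⊆ U * (F : Set G)) (m : ℕ) :
    μ (U ^ (m + 1)) ≤ (F.card : ℝ≥0∞) ^ m * μ U := by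
  have h1 := C2b_pow h m
  have h2 : (U * (F : Set G) ^ m) ⊆ ⋃ y ∈ (F ^ m : Finset G), U * {y} := by
    rintro x ⟨u, hu, y, hy, rfl⟩
    have hy' : y ∈ (F ^ m : Finset G) := by
      rw [← Finset.mem_coe, Finset.coe_pow]; exact hy
    exact mem_iUnion.2 ⟨y, mem_iUnion.2 ⟨hy', ⟨u, hu, y, rfl, rfl⟩⟩⟩
  have h3 : ∀ y : G, μ (U * {y}) = μ U := by
    intro y
    have : U * {y} = (fun x => x * y⁻¹) ⁻¹' U := by
      ext x
      constructor
      · rintro ⟨u, hu, w, hw, rfl⟩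
        rw [mem_singleton_iff.1 hw]
        simpa using hu
      · intro hx
        exact ⟨x * y⁻¹, hx, y, rfl, by simp⟩
    rw [this, measure_preimage_mul_right]
  calc μ (U ^ (m + 1)) ≤ μ (⋃ y ∈ (F ^ m : Finset G), U * {y}) := measure_mono (h1.trans h2)
    _ ≤ ∑ y ∈ (F ^ m : Finset G), μ (U * {y}) := measure_biUnion_finset_le _ _
    _ = (F ^ m).card * μ U := by
        rw [Finset.sum_congr rfl (fun y _ => h3 y), Finset.sum_const, nsmul_eq_mul]
    _ ≤ (F.card : ℝ≥0∞) ^ m * μ U := by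
        gcongr
        exact_mod_cast Finset.card_pow_le

omit [IsTopologicalGroup G] [T2Space G] in
private theorem C2b_mem (hc : IsCore c) {a : ℝ} (ha : 0 < a)
    (hcar : ∀ x : G, ∃ k ∈ c.K, ∃ Y : Ed d, x = k * c.ex Y ∧ Real.exp (a * ‖Y‖) ≤ c.M x)
    (x : G) (n : ℕ) (hx : c.M x ≤ Real.exp (a * (n + 1))) :
    x ∈ (c.K * c.ex '' Metric.closedBall 0 1) ^ (n + 1 + 1) := by
  obtain ⟨k, hk, Y, rfl, hY⟩ := hcar x
  have hY' : ‖Y‖ ≤ (n : ℝ) + 1 := by
    have := Real.exp_le_exp.1 (hY.trans hx)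
    exact le_of_mul_le_mul_left this ha
  have hn : (0 : ℝ) < (n : ℝ) + 1 := by positivity
  set Z : Ed d := ((n : ℝ) + 1)⁻¹ • Y with hZ
  have hZ1 : ‖Z‖ ≤ 1 := by
    rw [hZ, norm_smul, Real.norm_of_nonneg (by positivity), inv_mul_le_iff₀ hn]
    linarith
  have hpow : ∀ m : ℕ, c.ex ((m : ℝ) • Z) = c.ex Z ^ m := by
    intro m
    induction m with
    | zero => simp [hc.ex_zero]
    | succ m ih =>
      have := hc.ex_add Z (m : ℝ) 1
      rw [one_smul, ih] at this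
      rw [pow_succ, ← this]
      push_cast
      rfl
  have hYZ : c.ex Y = c.ex Z ^ (n + 1) := by
    rw [← hpow (n + 1), hZ, smul_smul]
    push_cast
    rw [mul_inv_cancel₀ hn.ne', one_smul]
  have hk' : k ∈ c.K * c.ex '' Metric.closedBall 0 1 :=
    ⟨k, hk, 1, ⟨0, by simp, hc.ex_zero⟩, by simp⟩
  have hZ' : c.ex Z ∈ c.K * c.ex '' Metric.closedBall 0 1 :=
    ⟨1, hc.K_one, c.ex Z, ⟨Z, by simpa using hZ1, rfl⟩, by simp⟩
  rw [hYZ, pow_succ' _ (n + 1)]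
  exact mul_mem_mul hk' (pow_mem_pow hZ')

/-- VOLUME GROWTH.
PROOF. Let `μ₀` be the (left) Haar measure (`MeasureTheory.Measure.haar`, `G` is locally compact) and `μ = μ₀.inv`, right invariant. Let `U = (K * ex '' closedBall 0 1) ∪ (K * ex '' closedBall 0 1)⁻¹`, a compact symmetric set containing a neighborhood of `1`, and `V` its interior (contains `1`).
`U * U` is compact and covered by the open sets `V * y`, `y ∈ U * U`, so `U * U ⊂ V * F ⊂ U * F` with `F` finite; hence `U^(m+1) ⊂ U * F^m` (induction: `U^(m+2) = U * U^(m+1) ⊂ U * U * F^m ⊂ U * F * F^m`), so `μ (U^(m+1)) ≤ |F|^m μ U < ⊤` by right invariance.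
If `M x ≤ exp (a m)`, `m ≥ 1`, then `x = k * ex Y` with `‖Y‖ ≤ m`, `ex Y = (ex (Y/m))^m`, so `x ∈ U^(m+1)` (`1 ∈ K`, `1 = ex 0`). Let `f = |F|`. `∫ M^(-2 A₂) dμ ≤ Σ_{m ≥ 1} exp (-2 A₂ a (m-1)) μ {exp(a(m-1)) ≤ M ≤ exp (a m)} ≤ Σ_m exp (-2 A₂ a (m-1)) f^m μ U < ⊤` if `exp (2 A₂ a) > 2 f`
(every `x` has `1 ≤ M x`, so it lies in one of the shells). -/
theorem exists_haar (hc : IsCore c) [MeasurableSpace G] [BorelSpace G] :
    ∃ μ : Measure G, μ.IsMulRightInvariant ∧ SigmaFinite μ ∧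
      (∀ U : Set G, IsOpen U → U.Nonempty → μ U ≠ 0) ∧
      ∃ A₂ : ℕ, ∫⁻ g, ENNReal.ofReal ((c.M g ^ (2 * A₂))⁻¹) ∂μ < ⊤ := by
  classical
  have := loc_compact hc
  have := sig_compact hc
  set μ₀ : Measure G := MeasureTheory.Measure.haar with hμ₀
  set μ : Measure G := μ₀.inv with hμ
  have hri : μ.IsMulRightInvariant := by rw [hμ]; infer_instance
  have hsf : SigmaFinite μ := by
    rw [hμ, Measure.inv]
    exact (MeasurableEquiv.inv G).sigmaFinite_map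
  have hfin : ∀ C : Set G, IsCompact C → μ C < ⊤ := by
    intro C hC
    rw [hμ, Measure.inv_apply]
    exact hC.inv.measure_lt_top
  refine ⟨μ, hri, hsf, ?_, ?_⟩
  · intro U hU hne
    rw [hμ, Measure.inv_apply]
    exact (hU.inv.measure_pos μ₀ hne.inv).ne'
  · obtain ⟨a, ha, hcar⟩ := hc.cartan
    set U : Set G := c.K * c.ex '' Metric.closedBall 0 1 with hUdef
    have hUc : IsCompact U :=
      hc.K_compact.mul ((isCompact_closedBall (0 : Ed d) 1).image hc.ex_cont)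
    have hU1 : U ∈ 𝓝 (1 : G) := by
      refine mem_of_superset (hc.ex_open _ (Metric.closedBall_mem_nhds 0 one_pos)) ?_
      rintro _ ⟨Y, hY, rfl⟩
      exact ⟨1, hc.K_one, c.ex Y, ⟨Y, hY, rfl⟩, by simp⟩
    obtain ⟨F', hF', hFne, hUF'⟩ := C2b_cover hUc hU1
    lift F' to Finset G using hF'
    have hf1 : 1 ≤ F'.card := Finset.card_pos.2 (by exact_mod_cast hFne)
    set f : ℕ := F'.card with hf
    have hμU : ∀ m : ℕ, μ (U ^ (m + 1)) ≤ (f : ℝ≥0∞) ^ m * μ U := fun m => C2b_meas μ F' hUF' m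
    obtain ⟨A₂, hA₂⟩ : ∃ A₂ : ℕ, 2 * (f : ℝ) ≤ Real.exp (2 * A₂ * a) := by
      obtain ⟨A, hA⟩ := exists_nat_ge ((f : ℝ) / a)
      refine ⟨A, ?_⟩
      have h1 : (f : ℝ) ≤ A * a := (div_le_iff₀ ha).1 hA
      have h2 := Real.add_one_le_exp (2 * A * a)
      linarith
    refine ⟨A₂, ?_⟩
    set T : ℕ → Set G := fun n => {x | Real.exp (a * n) ≤ c.M x ∧ c.M x ≤ Real.exp (a * (n + 1))}
      with hT
    have hcovT : (⋃ n, T n) = univ := by
      refine eq_univ_of_forall fun x => mem_iUnion.2 ?_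
      have hM : 1 ≤ c.M x := hc.M_ge x
      have hlog : 0 ≤ Real.log (c.M x) / a := div_nonneg (Real.log_nonneg hM) ha.le
      refine ⟨⌊Real.log (c.M x) / a⌋₊, ?_, ?_⟩
      · have h1 := Nat.floor_le hlog
        rw [le_div_iff₀ ha] at h1
        calc Real.exp (a * (⌊Real.log (c.M x) / a⌋₊ : ℝ)) ≤ Real.exp (Real.log (c.M x)) := by
              apply Real.exp_le_exp.2; linarith
          _ = c.M x := Real.exp_log (by linarith)
      · have h1 := (Nat.lt_floor_add_one (Real.log (c.M x) / a)).le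
        rw [div_le_iff₀ ha] at h1
        calc c.M x = Real.exp (Real.log (c.M x)) := (Real.exp_log (by linarith)).symm
          _ ≤ _ := by apply Real.exp_le_exp.2; linarith
    have hTm : ∀ n, MeasurableSet (T n) := by
      intro n
      have : T n = c.M ⁻¹' (Icc (Real.exp (a * n)) (Real.exp (a * (n + 1)))) := by
        ext x; simp [hT]
      rw [this]
      exact hc.M_cont.measurable measurableSet_Icc
    have hμT : ∀ n, μ (T n) ≤ (f : ℝ≥0∞) ^ (n + 1) * μ U := by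
      intro n
      refine le_trans (measure_mono ?_) (hμU (n + 1))
      intro x hx
      exact C2b_mem hc ha hcar x n hx.2
    have hterm : ∀ n, ∫⁻ g in T n, ENNReal.ofReal ((c.M g ^ (2 * A₂))⁻¹) ∂μ ≤
        (f * μ U) * (2⁻¹ : ℝ≥0∞) ^ n := by
      intro n
      have hf0 : (0 : ℝ) < 2 * f := by positivity
      have h1 : ∀ g ∈ T n, ENNReal.ofReal ((c.M g ^ (2 * A₂))⁻¹) ≤
          ((2 * f : ℝ≥0∞)⁻¹) ^ n := by
        intro g hg
        have hM : 0 < c.M g := by linarith [hc.M_ge g]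
        have h2 : (2 * (f : ℝ)) ^ n ≤ c.M g ^ (2 * A₂) := by
          calc (2 * (f : ℝ)) ^ n ≤ (Real.exp (2 * A₂ * a)) ^ n := by gcongr
            _ = (Real.exp (a * n)) ^ (2 * A₂) := by
                rw [← Real.exp_nat_mul, ← Real.exp_nat_mul]; push_cast; congr 1; ring
            _ ≤ c.M g ^ (2 * A₂) := by
                gcongr
                exact hg.1
        have h3 : (c.M g ^ (2 * A₂))⁻¹ ≤ ((2 * (f : ℝ))⁻¹) ^ n := by
          rw [inv_pow]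
          exact inv_anti₀ (by positivity) h2
        calc ENNReal.ofReal ((c.M g ^ (2 * A₂))⁻¹) ≤ ENNReal.ofReal (((2 * (f : ℝ))⁻¹) ^ n) :=
              ENNReal.ofReal_le_ofReal h3
          _ = ((2 * f : ℝ≥0∞)⁻¹) ^ n := by
              rw [ENNReal.ofReal_pow (by positivity), ENNReal.ofReal_inv_of_pos hf0,
                ENNReal.ofReal_mul (by norm_num)]
              simp
      calc ∫⁻ g in T n, ENNReal.ofReal ((c.M g ^ (2 * A₂))⁻¹) ∂μ
          ≤ ∫⁻ _g in T n, ((2 * f : ℝ≥0∞)⁻¹) ^ n ∂μ :=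
            setLIntegral_mono' (hTm n) h1
        _ = ((2 * f : ℝ≥0∞)⁻¹) ^ n * μ (T n) := setLIntegral_const _ _
        _ ≤ ((2 * f : ℝ≥0∞)⁻¹) ^ n * ((f : ℝ≥0∞) ^ (n + 1) * μ U) := by
            gcongr
            exact hμT n
        _ = (f * μ U) * (2⁻¹ : ℝ≥0∞) ^ n := by
            have hfn : (f : ℝ≥0∞) ≠ 0 := by
              simp only [ne_eq, Nat.cast_eq_zero]; omega
            have hft : (f : ℝ≥0∞) ≠ ⊤ := ENNReal.natCast_ne_top f
            have : (2 * f : ℝ≥0∞)⁻¹ ^ n * (f : ℝ≥0∞) ^ n = (2⁻¹ : ℝ≥0∞) ^ n := by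
              rw [← mul_pow, ENNReal.mul_inv (Or.inl (by norm_num)) (Or.inl (by norm_num)),
                mul_assoc, ENNReal.inv_mul_cancel hfn hft, mul_one]
            calc ((2 * f : ℝ≥0∞)⁻¹) ^ n * ((f : ℝ≥0∞) ^ (n + 1) * μ U)
                = ((2 * f : ℝ≥0∞)⁻¹ ^ n * (f : ℝ≥0∞) ^ n) * (f * μ U) := by
                  rw [pow_succ]; ring
              _ = _ := by rw [this]; ring
    calc ∫⁻ g, ENNReal.ofReal ((c.M g ^ (2 * A₂))⁻¹) ∂μ
        = ∫⁻ g in ⋃ n, T n, ENNReal.ofReal ((c.M g ^ (2 * A₂))⁻¹) ∂μ := by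
          rw [hcovT, Measure.restrict_univ]
      _ ≤ ∑' n, ∫⁻ g in T n, ENNReal.ofReal ((c.M g ^ (2 * A₂))⁻¹) ∂μ :=
          lintegral_iUnion_le _ _
      _ ≤ ∑' n, (f * μ U) * (2⁻¹ : ℝ≥0∞) ^ n := ENNReal.tsum_le_tsum hterm
      _ = (f * μ U) * ∑' n, (2⁻¹ : ℝ≥0∞) ^ n := ENNReal.tsum_mul_left
      _ < ⊤ := by
          have h2 : (∑' n : ℕ, (2⁻¹ : ℝ≥0∞) ^ n) < ⊤ := by
            rw [ENNReal.tsum_geometric, ENNReal.one_sub_inv_two, inv_inv]
            exact ENNReal.ofNat_lt_top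
          exact ENNReal.mul_lt_top (ENNReal.mul_lt_top (ENNReal.natCast_lt_top f) (hfin U hUc)) h2

end Pool.Agent.RG
end

section

/-! C2: the right Haar measure and its growth -/
end

section

/-!
# C5: the maps to the weighted `L²` space of the group
-/

namespace Pool.Agent.RG

open MeasureTheory Topology Filter Set
open scoped ENNReal

universe u v

variable {G : Type u} [Group G] [TopologicalSpace G] [IsTopologicalGroup G]
  [MeasurableSpace G] [BorelSpace G] {d : ℕ} {c : Core G d}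

private theorem C5_norm {α : Type*} [MeasurableSpace α] {ν : Measure α} {φ : α → ℂ}
    (h : MemLp φ 2 ν) :
    ‖h.toLp φ‖ ^ 2 = (∫⁻ g, ENNReal.ofReal (‖φ g‖ ^ 2) ∂ν).toReal := by
  rw [Lp.norm_toLp, eLpNorm_eq_lintegral_rpow_enorm_toReal (by norm_num) (by norm_num)]
  rw [← ENNReal.toReal_rpow]
  have h1 : (∫⁻ x, ‖φ x‖ₑ ^ (2 : ℝ≥0∞).toReal ∂ν) = ∫⁻ g, ENNReal.ofReal (‖φ g‖ ^ 2) ∂ν := by
    refine lintegral_congr fun x => ?_
    rw [ENNReal.toReal_ofNat, ENNReal.ofReal_pow (norm_nonneg _), ofReal_norm]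
    exact ENNReal.rpow_two _
  rw [h1, ENNReal.toReal_ofNat, ← Real.rpow_natCast, ← Real.rpow_mul ENNReal.toReal_nonneg]
  norm_num

private theorem C5_cont {E : Type v} [NormedAddCommGroup E] [NormedSpace ℂ E]
    {π : G → E →L[ℂ] E} (hcont : Continuous fun z : G × E => π z.1 z.2) (lam : E →L[ℂ] ℂ)
    (e : E) : Continuous fun g : G => lam (π g e) :=
  lam.continuous.comp (hcont.comp (continuous_id.prodMk continuous_const))

private theorem C5_fin {A A₁ : ℕ} {ν : Measure G} (hν : IsNu c A A₁ ν) {E : Type v}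
    [NormedAddCommGroup E] [NormedSpace ℂ E] {π : G → E →L[ℂ] E} {B : ℝ}
    (hM : ∀ g, 1 ≤ c.M g)
    (hB : ∀ (x : G) (e : E), ‖π x e‖ ≤ B * c.M x ^ A₁ * ‖e‖) (lam : E →L[ℂ] ℂ) (e : E) :
    ∫⁻ g, ENNReal.ofReal (‖lam (π g e)‖ ^ 2) ∂ν ≤
      ENNReal.ofReal ((|B| * ‖lam‖ * ‖e‖) ^ 2) *
        ∫⁻ g, ENNReal.ofReal (c.M g ^ (2 * A₁)) ∂ν := by
  rw [← lintegral_const_mul' _ _ ENNReal.ofReal_ne_top]
  refine lintegral_mono fun g => ?_
  rw [← ENNReal.ofReal_mul (sq_nonneg _)]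
  refine ENNReal.ofReal_le_ofReal ?_
  have hMg : 0 ≤ c.M g ^ A₁ := pow_nonneg (zero_le_one.trans (hM g)) _
  have h1 : ‖lam (π g e)‖ ≤ (|B| * ‖lam‖ * ‖e‖) * c.M g ^ A₁ := by
    calc ‖lam (π g e)‖ ≤ ‖lam‖ * ‖π g e‖ := lam.le_opNorm _
      _ ≤ ‖lam‖ * (B * c.M g ^ A₁ * ‖e‖) :=
          mul_le_mul_of_nonneg_left (hB g e) (norm_nonneg _)
      _ ≤ ‖lam‖ * (|B| * c.M g ^ A₁ * ‖e‖) := by
          gcongr
          exact le_abs_self B
      _ = _ := by ring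
  calc ‖lam (π g e)‖ ^ 2 ≤ ((|B| * ‖lam‖ * ‖e‖) * c.M g ^ A₁) ^ 2 :=
        pow_le_pow_left₀ (norm_nonneg _) h1 2
    _ = (|B| * ‖lam‖ * ‖e‖) ^ 2 * c.M g ^ (2 * A₁) := by
        rw [mul_pow, ← pow_mul, mul_comm A₁ 2]

private theorem C5_memLp {ν : Measure G} {φ : G → ℂ} (hφ : Continuous φ)
    (hfin : ∫⁻ g, ENNReal.ofReal (‖φ g‖ ^ 2) ∂ν < ⊤) : MemLp φ 2 ν := by
  refine ⟨hφ.stronglyMeasurable.aestronglyMeasurable, ?_⟩
  rw [eLpNorm_lt_top_iff_lintegral_rpow_enorm_lt_top (by norm_num) (by norm_num)]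
  refine lt_of_le_of_lt (le_of_eq ?_) hfin
  refine lintegral_congr fun x => ?_
  rw [ENNReal.toReal_ofNat, ENNReal.ofReal_pow (norm_nonneg _), ofReal_norm]
  exact ENNReal.rpow_two _

/-- THE MAPS `J λ`.
PROOF. For `λ, e` the function `φ g = λ (π g e)` is continuous and `‖φ g‖ ≤ ‖λ‖ B M(g)^A₁ ‖e‖`, so `∫ ‖φ‖² dν ≤ (‖λ‖ B ‖e‖)² ∫ M^(2A₁) dν < ∞`: it is in `L²(ν)` (`MemLp`); `J λ e = MemLp.toLp`. Linearity in `e`, bound: `LinearMap.mkContinuous`. `‖J λ e‖² = ∫ ‖φ‖² dν` (`Lp.norm_def`, `eLpNorm`, or the `L²` formula).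
`tp`: `‖J λ (π x e)‖² = ∫ ‖λ (π (g x) e)‖² dν = ∫⁻ F(g x) ≤ M(x)^(2A) ∫⁻ F`, `F g = ‖λ (π g e)‖²` (`hν.trans`). `bd`: above. `sep`: if `J λ e = 0` then `φ = 0` ν-a.e., so the open set `{φ ≠ 0}` is `ν`-null, hence empty (`hν.pos`); `φ 1 = λ e`. `mono`: pointwise comparison of the integrands.
`loc`: `hν.loc` for `F g = ‖λ (π g e)‖²` (`ENNReal.ofReal`), converted to Bochner integrals (the function of `Y` is continuous; on a ball of radius `δ` it is integrable: bounded by `M^A₁`-growth). -/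
theorem exists_J (hc : IsCore c) {A A₁ : ℕ} {ν : Measure G} (hν : IsNu c A A₁ ν) {E : Type v}
    [NormedAddCommGroup E] [NormedSpace ℂ E] [CompleteSpace E] {π : G → E →L[ℂ] E}
    (hπ : IsRp c A₁ π) : ∃ J : (E →L[ℂ] ℂ) → E →L[ℂ] Lp ℂ 2 ν, IsJ c A π J := by
  obtain ⟨B, hB⟩ := hπ.bound
  have hcont : ∀ (lam : E →L[ℂ] ℂ) (e : E), Continuous fun g : G => lam (π g e) :=
    C5_cont hπ.cont
  have hle := C5_fin hν hc.M_ge hB
  have hfin : ∀ (lam : E →L[ℂ] ℂ) (e : E), ∫⁻ g, ENNReal.ofReal (‖lam (π g e)‖ ^ 2) ∂ν < ⊤ :=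
    fun lam e => lt_of_le_of_lt (hle lam e) (ENNReal.mul_lt_top ENNReal.ofReal_lt_top hν.fin)
  have hmem : ∀ (lam : E →L[ℂ] ℂ) (e : E), MemLp (fun g : G => lam (π g e)) 2 ν :=
    fun lam e => C5_memLp (hcont lam e) (hfin lam e)
  have hmeas : ∀ (lam : E →L[ℂ] ℂ) (e : E),
      Measurable fun g : G => ENNReal.ofReal (‖lam (π g e)‖ ^ 2) := fun lam e =>
    ENNReal.measurable_ofReal.comp ((hcont lam e).norm.measurable.pow_const 2)
  set I : ℝ := (∫⁻ g, ENNReal.ofReal (c.M g ^ (2 * A₁)) ∂ν).toReal with hI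
  have hI0 : 0 ≤ I := ENNReal.toReal_nonneg
  have hsq : ∀ (lam : E →L[ℂ] ℂ) (e : E), ‖(hmem lam e).toLp _‖ ^ 2 =
      (∫⁻ g, ENNReal.ofReal (‖lam (π g e)‖ ^ 2) ∂ν).toReal := fun lam e => C5_norm (hmem lam e)
  have hbd : ∀ (lam : E →L[ℂ] ℂ) (e : E),
      ‖(hmem lam e).toLp _‖ ≤ (|B| * Real.sqrt I * ‖lam‖) * ‖e‖ := by
    intro lam e
    refine le_of_sq_le_sq ?_ (by positivity)
    rw [hsq]
    calc (∫⁻ g, ENNReal.ofReal (‖lam (π g e)‖ ^ 2) ∂ν).toReal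
        ≤ (ENNReal.ofReal ((|B| * ‖lam‖ * ‖e‖) ^ 2) *
            ∫⁻ g, ENNReal.ofReal (c.M g ^ (2 * A₁)) ∂ν).toReal :=
          ENNReal.toReal_mono (ENNReal.mul_lt_top ENNReal.ofReal_lt_top hν.fin).ne (hle lam e)
      _ = (|B| * ‖lam‖ * ‖e‖) ^ 2 * I := by
          rw [ENNReal.toReal_mul, ENNReal.toReal_ofReal (sq_nonneg _)]
      _ = (|B| * Real.sqrt I * ‖lam‖ * ‖e‖) ^ 2 := by
          rw [mul_pow, mul_pow, mul_pow, mul_pow, mul_pow, Real.sq_sqrt hI0]; ring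
  refine ⟨fun lam => LinearMap.mkContinuous
    { toFun := fun e => (hmem lam e).toLp _
      map_add' := fun a b => by
        rw [← MemLp.toLp_add (hmem lam a) (hmem lam b)]
        refine MemLp.toLp_congr _ _ (Filter.Eventually.of_forall fun g => ?_)
        simp
      map_smul' := fun r a => by
        rw [RingHom.id_apply, ← MemLp.toLp_const_smul r (hmem lam a)]
        refine MemLp.toLp_congr _ _ (Filter.Eventually.of_forall fun g => ?_)
        simp } (|B| * Real.sqrt I * ‖lam‖) (hbd lam), ?_, ?_, ?_, ?_, ?_⟩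
  · -- tp
    intro lam x e
    show ‖(hmem lam (π x e)).toLp _‖ ≤ c.M x ^ A * ‖(hmem lam e).toLp _‖
    refine le_of_sq_le_sq ?_
      (mul_nonneg (pow_nonneg (zero_le_one.trans (hc.M_ge x)) _) (norm_nonneg _))
    rw [mul_pow, hsq, hsq, ← pow_mul, mul_comm A 2]
    have h1 := hν.trans x _ (hmeas lam e)
    have h2 : ∫⁻ g, ENNReal.ofReal (‖lam (π g (π x e))‖ ^ 2) ∂ν =
        ∫⁻ g, ENNReal.ofReal (‖lam (π (g * x) e)‖ ^ 2) ∂ν := by
      refine lintegral_congr fun g => ?_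
      rw [hπ.mul]
    rw [h2]
    have h3 := ENNReal.toReal_mono
      (ENNReal.mul_lt_top ENNReal.ofReal_lt_top (hfin lam e)).ne h1
    rwa [ENNReal.toReal_mul, ENNReal.toReal_ofReal
      (pow_nonneg (zero_le_one.trans (hc.M_ge x)) _)] at h3
  · -- bd
    refine ⟨|B| * Real.sqrt I, fun lam e => ?_⟩
    exact hbd lam e
  · -- sep
    intro lam e he
    have h0 : (hmem lam e).toLp _ = 0 := he
    have h1 := hsq lam e
    rw [h0, norm_zero, zero_pow two_ne_zero] at h1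
    have h2 : ∫⁻ g, ENNReal.ofReal (‖lam (π g e)‖ ^ 2) ∂ν = 0 := by
      rcases (ENNReal.toReal_eq_zero_iff _).mp h1.symm with h | h
      · exact h
      · exact absurd h (hfin lam e).ne
    rw [lintegral_eq_zero_iff (hmeas lam e)] at h2
    by_contra hne
    have hU : IsOpen {g : G | lam (π g e) ≠ 0} := isOpen_ne_fun (hcont lam e) continuous_const
    refine hν.pos _ hU ⟨1, ?_⟩ ?_
    · show lam (π 1 e) ≠ 0
      rwa [hπ.one]
    · refine measure_mono_null ?_ (ae_iff.mp h2)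
      intro g hg
      show ¬ (ENNReal.ofReal (‖lam (π g e)‖ ^ 2) = 0)
      rw [ENNReal.ofReal_eq_zero, not_le]
      exact pow_pos (norm_pos_iff.mpr hg) 2
  · -- mono
    intro lam lam' e e' r hr h
    show ‖(hmem lam e).toLp _‖ ≤ r * ‖(hmem lam' e').toLp _‖
    refine le_of_sq_le_sq ?_ (mul_nonneg hr (norm_nonneg _))
    rw [mul_pow, hsq, hsq, ← ENNReal.toReal_ofReal (sq_nonneg r), ← ENNReal.toReal_mul]
    refine ENNReal.toReal_mono (ENNReal.mul_lt_top ENNReal.ofReal_lt_top (hfin lam' e')).ne ?_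
    rw [← lintegral_const_mul _ (hmeas lam' e')]
    refine lintegral_mono fun g => ?_
    rw [← ENNReal.ofReal_mul (sq_nonneg _), ← mul_pow]
    exact ENNReal.ofReal_le_ofReal (pow_le_pow_left₀ (norm_nonneg _) (h g) 2)
  · -- loc
    obtain ⟨δ, hδ, C, hC, hloc⟩ := hν.loc
    refine ⟨δ, hδ, C.toReal, ENNReal.toReal_nonneg, fun lam e => ?_⟩
    show _ ≤ C.toReal * ‖(hmem lam e).toLp _‖ ^ 2
    rw [hsq, ← ENNReal.toReal_mul]
    have hcY : Continuous fun Y : Ed d => ‖lam (π (c.ex Y) e)‖ ^ 2 :=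
      (((hcont lam e).comp hc.ex_cont).norm.pow 2)
    rw [integral_eq_lintegral_of_nonneg_ae (Filter.Eventually.of_forall fun Y => sq_nonneg _)
      hcY.aestronglyMeasurable]
    refine ENNReal.toReal_mono (ENNReal.mul_lt_top hC.lt_top (hfin lam e)).ne ?_
    exact hloc _ (hmeas lam e)

end Pool.Agent.RG
end
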