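import Pool.Agent.Lib.MP_496a9e_al.Q.E0
import Pool.Agent.Lib.MP_496a9e_al.Q.Core
import Pool.Agent.Lib.MP_496a9e_al.Mg.G006
import Pool.Agent.Lib.MP_496a9e_al.Q.D3a
import Pool.Agent.Lib.MP_496a9e_al.Mg.G005

section

/-!
# E1a: the derivative of the orbit map (Duhamel)
-/

namespace Pool.Agent.RG

open MeasureTheory Topology Filter Set

universe u v

variable {G : Type u} [Group G] [TopologicalSpace G] {d : ℕ} {c : Core G d} {A : ℕ}

/-- the real linear map `Y ↦ ι (L Y v)` -/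
noncomputable def E1a_lin (R : Cal.{u, v} c A) (v : R.V) : Ed d →ₗ[ℝ] R.E where
  toFun Y := R.ι (R.L Y v)
  map_add' Y Z := by
    rw [map_add, LinearMap.add_apply, map_add]
  map_smul' r Y := by
    rw [map_smul]
    have h1 : (r • R.L Y) v = (r : ℂ) • R.L Y v := rfl
    rw [h1, map_smul]
    rfl

theorem E1a_lin_apply (R : Cal.{u, v} c A) (v : R.V) (Y : Ed d) :
    E1a_lin R v Y = R.ι (R.L Y v) := rfl

theorem E1a_lin_cont (R : Cal.{u, v} c A) (v : R.V) : Continuous fun Y : Ed d => R.ι (R.L Y v) :=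
  LinearMap.continuous_of_finiteDimensional (E1a_lin R v)

/-- Duhamel's formula.
PROOF. Put `Φ(s) = π (ex (s • (X + H))) (π (ex ((1 - s) • X)) (ι v))`. Claim: `Φ` has derivative
`π (ex (s • (X + H)) * ex ((1 - s) • X)) (ι (L (ad (ex (-(1-s) • X)) H) v))` at `s`. Write `Φ(s+δ) - Φ(s)` as
`π (ex ((s+δ)(X+H))) [π (ex ((1-s-δ) X)) ι v - π (ex ((1-s) X)) ι v] + [π (ex ((s+δ)(X+H))) - π (ex (s (X+H)))] π (ex ((1-s) X)) ι v`. Divide by `δ`: the first term tends to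
`π (ex (s (X+H))) (- π (ex ((1-s) X)) ι (L X v))` (`der_at` and joint continuity `R.cont`), the second to `π (ex (s(X+H))) π (g) ι (L (ad g⁻¹ (X + H)) v)`, `g = ex ((1-s) X)` (`der_left`, after factoring
`ex ((s+δ)(X+H)) = ex (s(X+H)) * ex (δ (X+H))`). Since `ad g⁻¹ X = X` (`ad_ex_self`, `g⁻¹ = ex (-(1-s) X)`), the sum is as claimed. The derivative is continuous in `s` (`ad_cont`, `ex_cont`; expand
`L (Y) v = Σ Y_i L e_i v`, so `s ↦ ι (L (ad .. H) v)` is a finite sum of continuous scalars times fixed vectors). Fundamental theorem of calculus: `intervalIntegral.integral_eq_sub_of_hasDerivAt`. -/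
theorem duhamel (hc : IsCore c) (R : Cal.{u, v} c A) (v : R.V) (X H : Ed d) :
    R.π (c.ex (X + H)) (R.ι v) - R.π (c.ex X) (R.ι v) =
      ∫ s in (0:ℝ)..1, R.π (c.ex (s • (X + H)) * c.ex ((1 - s) • X))
        (R.ι (R.L (c.ad (c.ex (-(1 - s) • X)) H) v)) := by
  obtain ⟨Z, hZ⟩ : ∃ Z, Z = X + H := ⟨_, rfl⟩
  rw [← hZ]
  -- the inner function
  have hw : ∀ s : ℝ, HasDerivAt (fun s : ℝ => R.π (c.ex ((1 - s) • X)) (R.ι v))
      (-(R.π (c.ex ((1 - s) • X)) (R.ι (R.L X v)))) s := by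
    intro s
    have h1 := R.der_at hc 1 X v (1 - s)
    have h2 : HasDerivAt (fun s : ℝ => 1 - s) (-1) s := by
      simpa using (hasDerivAt_id s).const_sub 1
    have h3 := h1.scomp s h2
    simp only [Function.comp_def, one_mul, neg_smul, one_smul] at h3
    exact h3
  have ha : ∀ (g : G) (s : ℝ), HasDerivAt (fun t : ℝ => R.π (c.ex (t • Z)) (R.π g (R.ι v)))
      (R.π (c.ex (s • Z)) (R.π g (R.ι (R.L (c.ad g⁻¹ Z) v)))) s := by
    intro g s
    have h1 := (R.tw hc g).der_at hc 1 Z v s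
    simp only [one_mul] at h1
    exact h1
  have hexs : ∀ Y : Ed d, Continuous fun s : ℝ => c.ex (s • Y) := fun Y =>
    hc.ex_cont.comp (by fun_prop)
  have hderiv : ∀ s : ℝ, HasDerivAt
      (fun s : ℝ => R.π (c.ex (s • Z)) (R.π (c.ex ((1 - s) • X)) (R.ι v)))
      (R.π (c.ex (s • Z) * c.ex ((1 - s) • X))
        (R.ι (R.L (c.ad (c.ex (-(1 - s) • X)) H) v))) s := by
    intro s
    have hval : R.π (c.ex (s • Z) * c.ex ((1 - s) • X))
        (R.ι (R.L (c.ad (c.ex (-(1 - s) • X)) H) v)) =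
        R.π (c.ex (s • Z)) (-(R.π (c.ex ((1 - s) • X)) (R.ι (R.L X v)))) +
        R.π (c.ex (s • Z)) (R.π (c.ex ((1 - s) • X))
          (R.ι (R.L (c.ad (c.ex ((1 - s) • X))⁻¹ Z) v))) := by
      have e1 : (c.ex ((1 - s) • X))⁻¹ = c.ex (-(1 - s) • X) := by
        rw [← hc.ex_neg, neg_smul]
      have e2 : c.ad (c.ex (-(1 - s) • X)) Z = X + c.ad (c.ex (-(1 - s) • X)) H := by
        rw [hZ, map_add, hc.ad_ex_self X (-(1 - s))]
      rw [e1, e2, R.mul, map_add, LinearMap.add_apply, map_add, map_add, map_add, map_neg]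
      abel
    rw [hval]
    have h1 := (hw s)
    have h2 := ha (c.ex ((1 - s) • X)) s
    rw [hasDerivAt_iff_tendsto_slope] at h1 h2 ⊢
    have h3 : Tendsto (fun t : ℝ => R.π (c.ex (t • Z))
        (slope (fun s : ℝ => R.π (c.ex ((1 - s) • X)) (R.ι v)) s t)) (𝓝[≠] s)
        (𝓝 (R.π (c.ex (s • Z)) (-(R.π (c.ex ((1 - s) • X)) (R.ι (R.L X v)))))) := by
      have h4 : Tendsto (fun t : ℝ => c.ex (t • Z)) (𝓝[≠] s) (𝓝 (c.ex (s • Z))) :=
        ((hexs Z).tendsto s).mono_left nhdsWithin_le_nhds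
      have h5 := (R.cont.tendsto (c.ex (s • Z), -(R.π (c.ex ((1 - s) • X)) (R.ι (R.L X v))))).comp
        (h4.prodMk_nhds h1)
      exact h5
    refine (h3.add h2).congr ?_
    intro t
    simp only [slope_def_module]
    rw [← R.mul (c.ex (t • Z))]
    have hreal : ∀ (x : G) (r : ℝ) (e : R.E), R.π x (r • e) = r • R.π x e := by
      intro x r e
      have := (R.π x).map_smul (r : ℂ) e
      exact this
    rw [hreal, map_sub, ← R.mul, ← R.mul, ← R.mul, ← smul_add]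
    congr 1
    abel
  have hcont : Continuous fun s : ℝ => R.π (c.ex (s • Z) * c.ex ((1 - s) • X))
        (R.ι (R.L (c.ad (c.ex (-(1 - s) • X)) H) v)) := by
    have e1 : (fun s : ℝ => R.π (c.ex (s • Z) * c.ex ((1 - s) • X))
        (R.ι (R.L (c.ad (c.ex (-(1 - s) • X)) H) v))) = fun s : ℝ =>
        R.π (c.ex (s • Z)) (R.π (c.ex ((1 - s) • X))
        (R.ι (R.L (c.ad (c.ex (-(1 - s) • X)) H) v))) := by
      funext s; rw [R.mul]
    rw [e1]
    have h1 : Continuous fun s : ℝ => c.ex ((1 - s) • X) := hc.ex_cont.comp (by fun_prop)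
    have h2 : Continuous fun s : ℝ => c.ad (c.ex (-(1 - s) • X)) H := by
      have h3 : Continuous fun s : ℝ => c.ad (c.ex (-(1 - s) • X)) :=
        hc.ad_cont.comp (hc.ex_cont.comp (by fun_prop))
      exact h3.clm_apply continuous_const
    have h4 : Continuous fun s : ℝ => R.ι (R.L (c.ad (c.ex (-(1 - s) • X)) H) v) :=
      (E1a_lin_cont R v).comp h2
    exact R.cont.comp ((hexs Z).prodMk (R.cont.comp (h1.prodMk h4)))
  rw [intervalIntegral.integral_eq_sub_of_hasDerivAt (fun s _ => hderiv s)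
    (hcont.intervalIntegrable _ _)]
  rw [one_smul, sub_self, zero_smul, sub_zero, one_smul, zero_smul, hc.ex_zero, R.one, R.one]

end Pool.Agent.RG
end

section

/-!
# E1b: the derivative of the orbit map (Duhamel)
-/

namespace Pool.Agent.RG

open MeasureTheory Topology Filter Set

universe u v

variable {G : Type u} [Group G] [TopologicalSpace G] {d : ℕ} {c : Core G d} {A : ℕ}

/-- the real linear map `Y ↦ ι (L Y v)` -/
noncomputable def E1b_lin (R : Cal.{u, v} c A) (v : R.V) : Ed d →ₗ[ℝ] R.E where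
  toFun Y := R.ι (R.L Y v)
  map_add' Y Z := by
    rw [map_add, LinearMap.add_apply, map_add]
  map_smul' r Y := by
    rw [map_smul]
    have h1 : (r • R.L Y) v = (r : ℂ) • R.L Y v := rfl
    rw [h1, map_smul]
    rfl

/-- the continuous real linear map `Y ↦ ι (L Y v)` -/
noncomputable def E1b_clm (R : Cal.{u, v} c A) (v : R.V) : Ed d →L[ℝ] R.E :=
  ⟨E1b_lin R v, LinearMap.continuous_of_finiteDimensional (E1b_lin R v)⟩

theorem E1b_clm_apply (R : Cal.{u, v} c A) (v : R.V) (Y : Ed d) :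
    E1b_clm R v Y = R.ι (R.L Y v) := rfl

theorem E1b_real (R : Cal.{u, v} c A) (x : G) (r : ℝ) (e : R.E) :
    R.π x (r • e) = r • R.π x e := (R.π x).map_smul (r : ℂ) e

theorem E1b_expand (R : Cal.{u, v} c A) (v : R.V) (Y : Ed d) :
    R.ι (R.L Y v) = ∑ i, Y i • R.ι (R.L (eb i) v) := by
  have h : Y = ∑ i, Y i • (eb i : Ed d) := by
    ext j
    simp [eb, Pi.single_apply]
  rw [← E1b_clm_apply]
  conv_lhs => rw [h]
  rw [map_sum]
  refine Finset.sum_congr rfl fun i _ => ?_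
  rw [map_smul, E1b_clm_apply]

theorem E1b_cont_ad (hc : IsCore c) (X H : Ed d) :
    Continuous fun s : ℝ => c.ad (c.ex (-(1 - s) • X)) H := by
  have h3 : Continuous fun s : ℝ => c.ad (c.ex (-(1 - s) • X)) :=
    hc.ad_cont.comp (hc.ex_cont.comp (by fun_prop))
  exact h3.clm_apply continuous_const

theorem E1b_cont (hc : IsCore c) (R : Cal.{u, v} c A) (v : R.V) (X H : Ed d) :
    Continuous fun s : ℝ => R.π (c.ex (s • (X + H)) * c.ex ((1 - s) • X))
        (R.ι (R.L (c.ad (c.ex (-(1 - s) • X)) H) v)) := by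
  have e1 : (fun s : ℝ => R.π (c.ex (s • (X + H)) * c.ex ((1 - s) • X))
      (R.ι (R.L (c.ad (c.ex (-(1 - s) • X)) H) v))) = fun s : ℝ =>
      R.π (c.ex (s • (X + H))) (R.π (c.ex ((1 - s) • X))
      (R.ι (R.L (c.ad (c.ex (-(1 - s) • X)) H) v))) := by
    funext s; rw [R.mul]
  rw [e1]
  have h0 : Continuous fun s : ℝ => c.ex (s • (X + H)) := hc.ex_cont.comp (by fun_prop)
  have h1 : Continuous fun s : ℝ => c.ex ((1 - s) • X) := hc.ex_cont.comp (by fun_prop)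
  have h4 : Continuous fun s : ℝ => R.ι (R.L (c.ad (c.ex (-(1 - s) • X)) H) v) :=
    (E1b_clm R v).continuous.comp (E1b_cont_ad hc X H)
  exact R.cont.comp (h0.prodMk (R.cont.comp (h1.prodMk h4)))

theorem E1b_ex (hc : IsCore c) (X : Ed d) (s : ℝ) : c.ex (s • X) * c.ex ((1 - s) • X) = c.ex X := by
  rw [← hc.ex_add]
  congr 1
  rw [show s + (1 - s) = (1 : ℝ) by ring, one_smul]

/-- `Θ X H = ∫ ad (ex (-(1-s) X)) H ds` -/
theorem E1b_Th (hc : IsCore c) (X H : Ed d) :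
    c.Th X H = ∫ s in (0 : ℝ)..1, c.ad (c.ex (-(1 - s) • X)) H := by
  unfold Core.Th
  have h1 : Continuous fun s : ℝ => c.ad (c.ex (-s • X)) :=
    hc.ad_cont.comp (hc.ex_cont.comp (by fun_prop))
  rw [ContinuousLinearMap.intervalIntegral_apply (h1.intervalIntegrable _ _)]
  have h2 := intervalIntegral.integral_comp_sub_left (a := (0 : ℝ)) (b := 1)
    (fun s : ℝ => c.ad (c.ex (-s • X)) H) 1
  rw [sub_self, sub_zero] at h2
  exact h2.symm

/-- DERIVATIVE OF THE ORBIT MAP.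
PROOF. `F' H = π (ex X) (ι (L (Th X H) v))`, linear in `H` (finite dimensional source, `LinearMap.toContinuousLinearMap`). `Th X = ∫_0^1 ad (ex (-(1-s) X)) ds` (substitution `s → 1 - s`), so
`F' H = ∫_0^1 π (ex (s X) * ex ((1-s) X)) ι (L (ad (ex (-(1-s) X)) H) v) ds` (`ex (sX) ex((1-s)X) = ex X`; `ContinuousLinearMap.intervalIntegral_comp_comm`, with `L (Y) v = Σ Y_i L e_i v`). By `duhamel`
`π (ex (X+H)) ι v - π (ex X) ι v - F' H = Σ_i ∫_0^1 a_i(s,H) [π (ex (s(X+H))) - π (ex (sX))] (π (ex ((1-s) X)) ι (L e_i v)) ds`, `a_i(s,H)` the `i`-th coordinate of `ad (ex (-(1-s)X)) H`,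
`|a_i| ≤ C ‖H‖`. The function `(s,H) ↦ π (ex (s(X+H))) w_i(s) - π (ex (sX)) w_i(s)`, `w_i(s) = π (ex ((1-s)X)) ι (L e_i v)`, is continuous on `[0,1] × Ed d` and vanishes for `H = 0`, so for every `η > 0` its norm is
`≤ η` for all `s ∈ [0,1]` if `‖H‖` is small (tube lemma, `IsCompact` of `[0,1]`). Hence the difference is `o(‖H‖)`. -/
theorem orbit_deriv (hc : IsCore c) (R : Cal.{u, v} c A) (v : R.V) (X : Ed d) :
    ∃ F' : Ed d →L[ℝ] R.E, HasFDerivAt (fun Z : Ed d => R.π (c.ex Z) (R.ι v)) F' X ∧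
      ∀ H, F' H = R.π (c.ex X) (R.ι (R.L (c.Th X H) v)) := by
  -- the real linear map `π (ex X)`
  obtain ⟨ℓ, hℓ⟩ : ∃ ℓ : Ed d →L[ℝ] R.E, ∀ Y, ℓ Y = R.π (c.ex X) (R.ι (R.L Y v)) := by
    refine ⟨((R.π (c.ex X)).restrictScalars ℝ).comp (E1b_clm R v), fun Y => rfl⟩
  refine ⟨ℓ.comp (c.Th X), ?_, fun H => by rw [ContinuousLinearMap.comp_apply, hℓ]⟩
  rw [hasFDerivAt_iff_isLittleO_nhds_zero, Asymptotics.isLittleO_iff]
  intro ε hε
  -- the bound of the adjoint representation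
  obtain ⟨C, hC⟩ : ∃ C : ℝ, ∀ s ∈ Icc (0 : ℝ) 1, ‖c.ad (c.ex (-(1 - s) • X))‖ ≤ C := by
    have h3 : Continuous fun s : ℝ => c.ad (c.ex (-(1 - s) • X)) :=
      hc.ad_cont.comp (hc.ex_cont.comp (by fun_prop))
    obtain ⟨C, hC⟩ := ((isCompact_Icc (a := (0 : ℝ)) (b := 1)).image h3.norm).bddAbove
    exact ⟨C, fun s hs => hC ⟨s, hs, rfl⟩⟩
  have hC0 : 0 ≤ C := (norm_nonneg _).trans (hC 0 ⟨le_rfl, zero_le_one⟩)
  -- the function measuring the variation
  obtain ⟨φ, hφ⟩ : ∃ φ : Ed d × ℝ → ℝ, φ = fun z => ∑ i : Fin d,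
      ‖R.π (c.ex (z.2 • (X + z.1))) (R.π (c.ex ((1 - z.2) • X)) (R.ι (R.L (eb i) v))) -
        R.π (c.ex X) (R.ι (R.L (eb i) v))‖ := ⟨_, rfl⟩
  have hφc : Continuous φ := by
    rw [hφ]
    refine continuous_finsetSum _ fun i _ => ?_
    have h0 : Continuous fun z : Ed d × ℝ => c.ex (z.2 • (X + z.1)) := hc.ex_cont.comp (by fun_prop)
    have h1 : Continuous fun z : Ed d × ℝ => c.ex ((1 - z.2) • X) := hc.ex_cont.comp (by fun_prop)
    exact ((R.cont.comp (h0.prodMk (R.cont.comp (h1.prodMk continuous_const)))).sub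
      continuous_const).norm
  have hφ0 : ∀ s : ℝ, φ (0, s) = 0 := by
    intro s
    rw [hφ]
    refine Finset.sum_eq_zero fun i _ => ?_
    show ‖R.π (c.ex (s • (X + 0))) (R.π (c.ex ((1 - s) • X)) (R.ι (R.L (eb i) v))) -
        R.π (c.ex X) (R.ι (R.L (eb i) v))‖ = 0
    rw [add_zero, ← R.mul, E1b_ex hc, sub_self, norm_zero]
  obtain ⟨η, hη⟩ : ∃ η : ℝ, η = ε / (C + 1) := ⟨_, rfl⟩
  have hη0 : 0 < η := by rw [hη]; positivity
  have htube : ∀ᶠ H in 𝓝 (0 : Ed d), ∀ s ∈ Icc (0 : ℝ) 1, φ (H, s) < η := by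
    refine isCompact_Icc.eventually_forall_of_forall_eventually ?_
    intro s _
    have h1 := hφc.tendsto (0, s)
    rw [hφ0 s] at h1
    exact h1.eventually (gt_mem_nhds hη0)
  filter_upwards [htube] with H hH
  -- the difference as an integral
  have e1 := duhamel hc R v X H
  have e2 : (ℓ.comp (c.Th X)) H = ∫ s in (0 : ℝ)..1,
      R.π (c.ex X) (R.ι (R.L (c.ad (c.ex (-(1 - s) • X)) H) v)) := by
    rw [ContinuousLinearMap.comp_apply, E1b_Th hc,
      ← ContinuousLinearMap.intervalIntegral_comp_comm ℓ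
        ((E1b_cont_ad hc X H).intervalIntegrable _ _)]
    refine intervalIntegral.integral_congr fun s _ => ?_
    exact hℓ _
  have hc2 : Continuous fun s : ℝ => R.π (c.ex X) (R.ι (R.L (c.ad (c.ex (-(1 - s) • X)) H) v)) := by
    have : (fun s : ℝ => R.π (c.ex X) (R.ι (R.L (c.ad (c.ex (-(1 - s) • X)) H) v))) =
        fun s => ℓ (c.ad (c.ex (-(1 - s) • X)) H) := by
      funext s; rw [hℓ]
    rw [this]
    exact ℓ.continuous.comp (E1b_cont_ad hc X H)
  rw [e1, e2, ← intervalIntegral.integral_sub ((E1b_cont hc R v X H).intervalIntegrable _ _)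
    (hc2.intervalIntegrable _ _)]
  have hbound : ∀ s ∈ uIoc (0 : ℝ) 1, ‖R.π (c.ex (s • (X + H)) * c.ex ((1 - s) • X))
        (R.ι (R.L (c.ad (c.ex (-(1 - s) • X)) H) v)) -
        R.π (c.ex X) (R.ι (R.L (c.ad (c.ex (-(1 - s) • X)) H) v))‖ ≤ ε * ‖H‖ := by
    intro s hs
    rw [uIoc_of_le zero_le_one] at hs
    have hs' : s ∈ Icc (0 : ℝ) 1 := ⟨hs.1.le, hs.2⟩
    obtain ⟨Y, hY⟩ : ∃ Y, Y = c.ad (c.ex (-(1 - s) • X)) H := ⟨_, rfl⟩
    rw [← hY, E1b_expand R v Y, R.mul]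
    simp only [map_sum, E1b_real]
    rw [← Finset.sum_sub_distrib]
    have hYn : ‖Y‖ ≤ C * ‖H‖ := by
      rw [hY]
      exact (ContinuousLinearMap.le_opNorm _ _).trans
        (mul_le_mul_of_nonneg_right (hC s hs') (norm_nonneg _))
    have hφs := hH s hs'
    calc ‖∑ i, (Y i • R.π (c.ex (s • (X + H))) (R.π (c.ex ((1 - s) • X)) (R.ι (R.L (eb i) v))) -
          Y i • R.π (c.ex X) (R.ι (R.L (eb i) v)))‖
        ≤ ∑ i, ‖Y i • R.π (c.ex (s • (X + H))) (R.π (c.ex ((1 - s) • X)) (R.ι (R.L (eb i) v))) -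
          Y i • R.π (c.ex X) (R.ι (R.L (eb i) v))‖ := norm_sum_le _ _
      _ ≤ ∑ i, (C * ‖H‖) * ‖R.π (c.ex (s • (X + H))) (R.π (c.ex ((1 - s) • X)) (R.ι (R.L (eb i) v))) -
          R.π (c.ex X) (R.ι (R.L (eb i) v))‖ := by
          refine Finset.sum_le_sum fun i _ => ?_
          rw [← smul_sub, norm_smul]
          refine mul_le_mul_of_nonneg_right ?_ (norm_nonneg _)
          exact (PiLp.norm_apply_le Y i).trans hYn
      _ = (C * ‖H‖) * φ (H, s) := by rw [hφ, Finset.mul_sum]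
      _ ≤ (C * ‖H‖) * η := mul_le_mul_of_nonneg_left hφs.le (by positivity)
      _ ≤ ε * ‖H‖ := by
          have h1 : C * η ≤ ε := by
            rw [hη, mul_div_assoc', div_le_iff₀ (by positivity)]
            nlinarith
          nlinarith [norm_nonneg H]
  have := intervalIntegral.norm_integral_le_of_norm_le_const hbound
  simpa using this

end Pool.Agent.RG
end

section

/-! E1: the derivative of the orbit map (Duhamel) -/
end

section

/-!
# D1b: the energy estimate for a tempered map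
-/

namespace Pool.Agent.RG

open MeasureTheory Topology Filter Set
open scoped InnerProductSpace

universe u v

variable {G : Type u} [Group G] [TopologicalSpace G] {d : ℕ} {c : Core G d} {A : ℕ}

/-- ENERGY ESTIMATE.
PROOF. Write `T w = J (ι w)`, `S^2 = Σ_i ‖T (X_i v)‖^2`, `X_i = L (eb i)`, `‖eb i‖ = 1`. For each `i`,
`‖T X_i v‖^2 = ⟪T X_i v, T X_i v⟫ = H_i(v, X_i v) - ⟪T v, T X_i X_i v⟫` with
`H_i(u,w) = ⟪T X_i u, T w⟫ + ⟪T u, T X_i w⟫`. Summing, `S^2 = Σ_i H_i(v, X_i v) + ⟪T v, T (lapl L v)⟫`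
(the sum is real; take real parts or norms). By `polar_le`, `S^2 ≤ Σ_i 4 A ‖T v‖ ‖T X_i v‖ + ‖T v‖ ‖T lapl v‖
≤ 4 A d ‖T v‖ S + ‖T v‖ ‖T lapl v‖`. From `S^2 ≤ a S + b`, `a, b ≥ 0`, follows `S ≤ a + √b`. And
`√(‖T v‖ ‖T lapl v‖) ≤ (1/2)(ε⁻¹ ‖T v‖ + ε ‖T lapl v‖)`. Since `ε⁻¹ ≥ 1` the claim follows, as
`‖T X_i v‖ ≤ S`. -/
theorem energy (hc : IsCore c) (R : Cal.{u, v} c A) (i : Fin d) (v : R.V) (ε : ℝ) (h0 : 0 < ε)
    (h1 : ε ≤ 1) :
    ‖R.J (R.ι (R.L (eb i) v))‖ ≤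
      (4 * A * d + 1) * (ε⁻¹ * ‖R.J (R.ι v)‖ + ε * ‖R.J (R.ι (lapl R.L v))‖) := by
  have heb : ∀ j : Fin d, ‖(eb j : Ed d)‖ = 1 := by
    intro j
    unfold eb
    rw [EuclideanSpace.norm_single, norm_one]
  have hA : (0 : ℝ) ≤ A := Nat.cast_nonneg A
  have hd : (0 : ℝ) ≤ d := Nat.cast_nonneg d
  set N : ℝ := ‖R.J (R.ι v)‖ with hN
  set M : ℝ := ‖R.J (R.ι (lapl R.L v))‖ with hM
  have hN0 : 0 ≤ N := norm_nonneg _
  have hM0 : 0 ≤ M := norm_nonneg _
  let s : Fin d → ℝ := fun j => ‖R.J (R.ι (R.L (eb j) v))‖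
  have hs0 : ∀ j, 0 ≤ s j := fun j => norm_nonneg _
  let h : Fin d → ℂ := fun j => ⟪R.J (R.ι (R.L (eb j) v)), R.J (R.ι (R.L (eb j) v))⟫_ℂ +
    ⟪R.J (R.ι v), R.J (R.ι (R.L (eb j) (R.L (eb j) v)))⟫_ℂ
  have hh : ∀ j, ‖h j‖ ≤ 4 * A * N * s j := by
    intro j
    have := polar_le hc R (eb j) v (R.L (eb j) v)
    rw [heb j, mul_one] at this
    exact this
  have hlap : R.J (R.ι (lapl R.L v)) =
      -∑ j, R.J (R.ι (R.L (eb j) (R.L (eb j) v))) := by
    unfold lapl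
    rw [LinearMap.neg_apply, LinearMap.sum_apply, map_neg, map_neg, map_sum, map_sum]
    rfl
  have hsum : ∑ j, s j ^ 2 = ∑ j, (h j).re +
      (⟪R.J (R.ι v), R.J (R.ι (lapl R.L v))⟫_ℂ).re := by
    rw [hlap, inner_neg_right, inner_sum, Complex.neg_re, Complex.re_sum, ← Finset.sum_neg_distrib,
      ← Finset.sum_add_distrib]
    refine Finset.sum_congr rfl fun j _ => ?_
    have h2 : (⟪R.J (R.ι (R.L (eb j) v)), R.J (R.ι (R.L (eb j) v))⟫_ℂ).re = s j ^ 2 := by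
      have h3 := inner_self_eq_norm_sq (𝕜 := ℂ) (R.J (R.ι (R.L (eb j) v)))
      exact h3
    change s j ^ 2 = (⟪R.J (R.ι (R.L (eb j) v)), R.J (R.ι (R.L (eb j) v))⟫_ℂ +
      ⟪R.J (R.ι v), R.J (R.ι (R.L (eb j) (R.L (eb j) v)))⟫_ℂ).re + _
    rw [Complex.add_re, h2]
    ring
  have hre : (⟪R.J (R.ι v), R.J (R.ι (lapl R.L v))⟫_ℂ).re ≤ N * M :=
    (Complex.re_le_norm _).trans (norm_inner_le_norm _ _)
  set S : ℝ := Real.sqrt (∑ j, s j ^ 2) with hS
  have hsq0 : 0 ≤ ∑ j, s j ^ 2 := Finset.sum_nonneg fun j _ => sq_nonneg _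
  have hS0 : 0 ≤ S := Real.sqrt_nonneg _
  have hSS : S ^ 2 = ∑ j, s j ^ 2 := Real.sq_sqrt hsq0
  have hsS : ∀ j, s j ≤ S := by
    intro j
    apply Real.le_sqrt_of_sq_le
    exact Finset.single_le_sum (f := fun j => s j ^ 2) (fun j _ => sq_nonneg _)
      (Finset.mem_univ j)
  have hsumh : ∑ j, (h j).re ≤ 4 * A * d * N * S := by
    calc ∑ j, (h j).re ≤ ∑ _j : Fin d, 4 * A * N * S := by
          refine Finset.sum_le_sum fun j _ => ?_
          refine (Complex.re_le_norm _).trans ((hh j).trans ?_)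
          exact mul_le_mul_of_nonneg_left (hsS j) (by positivity)
      _ = 4 * A * d * N * S := by
          rw [Finset.sum_const, Finset.card_univ, Fintype.card_fin, nsmul_eq_mul]
          ring
  have hquad : S ^ 2 ≤ 4 * A * d * N * S + N * M := by
    rw [hSS, hsum]
    exact add_le_add hsumh hre
  have hr0 : 0 ≤ Real.sqrt (N * M) := Real.sqrt_nonneg _
  have hrr : Real.sqrt (N * M) ^ 2 = N * M := Real.sq_sqrt (mul_nonneg hN0 hM0)
  have hSle : S ≤ 4 * A * d * N + Real.sqrt (N * M) := by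
    by_contra hcon
    push Not at hcon
    have ha : 0 ≤ 4 * A * d * N := by positivity
    nlinarith [mul_nonneg ha hr0, mul_nonneg hS0 hr0]
  have hei : 0 < ε⁻¹ := inv_pos.2 h0
  have hei1 : 1 ≤ ε⁻¹ := (one_le_inv₀ h0).2 h1
  have hamgm : Real.sqrt (N * M) ≤ ε⁻¹ * N + ε * M := by
    apply Real.sqrt_le_iff.2
    refine ⟨by positivity, ?_⟩
    have h4 : ε⁻¹ * ε = 1 := inv_mul_cancel₀ h0.ne'
    have h5 : (ε⁻¹ * N + ε * M) ^ 2 = (ε⁻¹ * N) ^ 2 + 2 * (ε⁻¹ * ε) * (N * M) + (ε * M) ^ 2 := by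
      ring
    rw [h5, h4]
    nlinarith [sq_nonneg (ε⁻¹ * N), sq_nonneg (ε * M), mul_nonneg hN0 hM0]
  have hNe : N ≤ ε⁻¹ * N + ε * M := by
    have h6 : 1 * N ≤ ε⁻¹ * N := mul_le_mul_of_nonneg_right hei1 hN0
    have h7 : 0 ≤ ε * M := mul_nonneg h0.le hM0
    linarith
  calc ‖R.J (R.ι (R.L (eb i) v))‖ ≤ S := hsS i
    _ ≤ 4 * A * d * N + Real.sqrt (N * M) := hSle
    _ ≤ 4 * A * d * (ε⁻¹ * N + ε * M) + (ε⁻¹ * N + ε * M) :=
        add_le_add (mul_le_mul_of_nonneg_left hNe (by positivity)) hamgm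
    _ = (4 * A * d + 1) * (ε⁻¹ * N + ε * M) := by ring

end Pool.Agent.RG
end

section

/-! D1: the energy estimate for a tempered map -/
end

section

/-!
# D3b: Nelson's argument, one step
-/

namespace Pool.Agent.RG

open MeasureTheory Topology Filter Set

universe u v

variable {G : Type u} {d : ℕ} {c : Core G d} {V : Type v} [AddCommGroup V] [Module ℂ V]
  {L : Ed d →ₗ[ℝ] (V →ₗ[ℂ] V)}

/-- NELSON STEP.
PROOF. Fix `u ∈ U`. The set of words of length `k + 1` is finite; let `ρ` be the maximum of `Q (wd L γ u)` over them (if `d = 0` there is no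
such word and the claim is empty). For `γ = i :: β`, `β.length = k`:
`Q (X_i wd β u) ≤ C₁ (ε⁻¹ Q (wd β u) + ε Q (lapl (wd β u)))` by `hE`, `Q (wd β u) ≤ B N u`,
`Q (lapl (wd β u)) ≤ Q (wd β (lapl u)) + k cb ρ ≤ B N (lapl u) + k cb ρ ≤ B D N u + k cb ρ` (`comm_le`, `hB` for `lapl u ∈ U`). So
`ρ ≤ C₁ (ε⁻¹ + ε D) B N u + C₁ ε k cb ρ ≤ C₁ (ε⁻¹ + ε D) B N u + ρ / 2`. -/
theorem nelson_step (hbr : ∀ (X Y : Ed d) (v : V), L (c.br X Y) v = L X (L Y v) - L Y (L X v))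
    {C₁ : ℝ} (hC : 0 ≤ C₁) {Q : Seminorm ℂ V} (hE : IsEn L C₁ Q) (U : Set V) (N : V → ℝ)
    (D : ℝ) (hU : ∀ u ∈ U, lapl L u ∈ U) (hN : ∀ u ∈ U, N (lapl L u) ≤ D * N u) (k : ℕ) (B : ℝ)
    (hB0 : 0 ≤ B) (hB : ∀ β : List (Fin d), β.length = k → ∀ u ∈ U, Q (wd L β u) ≤ B * N u)
    (ε : ℝ) (h0 : 0 < ε) (h1 : ε ≤ 1) (h2 : 2 * C₁ * c.cb * k * ε ≤ 1)
    (β : List (Fin d)) (hβ : β.length = k + 1) (u : V) (hu : u ∈ U) :
    Q (wd L β u) ≤ 2 * C₁ * (ε⁻¹ + ε * D) * B * N u := by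
  have hfin : {γ : List (Fin d) | γ.length = k + 1}.Finite := List.finite_length_eq (Fin d) (k + 1)
  obtain ⟨γ, hγ, hmax⟩ := Set.exists_max_image {γ : List (Fin d) | γ.length = k + 1}
    (fun γ => Q (wd L γ u)) hfin ⟨β, hβ⟩
  rcases γ with _ | ⟨i, δ⟩
  · simp at hγ
  have hδ : δ.length = k := by simpa using hγ
  set ρ : ℝ := Q (wd L (i :: δ) u) with hρ
  have hρ0 : 0 ≤ ρ := apply_nonneg Q _
  have h3 := comm_le hbr Q δ u ρ hρ0 (fun γ' hγ' => hmax γ' (by rw [← hδ]; exact hγ'))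
  have h4 : Q (lapl L (wd L δ u)) ≤ k * c.cb * ρ + B * (D * N u) := by
    have h5 : lapl L (wd L δ u) = (lapl L (wd L δ u) - wd L δ (lapl L u)) + wd L δ (lapl L u) := by
      abel
    rw [h5]
    refine (map_add_le_add Q _ _).trans ?_
    rw [hδ] at h3
    refine add_le_add h3 ?_
    refine (hB δ hδ _ (hU u hu)).trans ?_
    exact mul_le_mul_of_nonneg_left (hN u hu) hB0
  have h6 : Q (wd L δ u) ≤ B * N u := hB δ hδ u hu
  have h7 : ρ ≤ C₁ * (ε⁻¹ * (B * N u) + ε * (k * c.cb * ρ + B * (D * N u))) := by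
    refine (hE (wd L δ u) i ε h0 h1).trans ?_
    refine mul_le_mul_of_nonneg_left ?_ hC
    refine add_le_add ?_ ?_
    · exact mul_le_mul_of_nonneg_left h6 (inv_nonneg.2 h0.le)
    · exact mul_le_mul_of_nonneg_left h4 h0.le
  have h8 : 2 * C₁ * c.cb * k * ε * ρ ≤ 1 * ρ := mul_le_mul_of_nonneg_right h2 hρ0
  have h9 : ρ ≤ 2 * C₁ * (ε⁻¹ + ε * D) * B * N u := by
    have h10 : C₁ * (ε⁻¹ * (B * N u) + ε * (k * c.cb * ρ + B * (D * N u))) =
        C₁ * (ε⁻¹ + ε * D) * B * N u + (2 * C₁ * c.cb * k * ε * ρ) / 2 := by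
      ring
    rw [h10] at h7
    have h11 : 2 * C₁ * (ε⁻¹ + ε * D) * B * N u = 2 * (C₁ * (ε⁻¹ + ε * D) * B * N u) := by ring
    rw [h11]
    linarith
  exact (hmax β hβ).trans h9

end Pool.Agent.RG
end

section

/-! D3: Nelson's argument, one step -/
end

section

/-!
# D4a: consequences of Nelson's argument
-/

namespace Pool.Agent.RG

open MeasureTheory Topology Filter Set

universe u v

variable {G : Type u} [Group G] [TopologicalSpace G] {d : ℕ} {c : Core G d}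

/-- `Δ = 2C - z_2`.
PROOF. `zk c L 2 = Σ_{β : Fin 2 → Fin d} t 2 β • X_{β 0} X_{β 1} = -Σ_{i ∈ kI} X_i² + Σ_{i ∉ kI} X_i²` by `hc.t2` (reindex the functions
`Fin 2 → Fin d` by pairs, `finTwoArrowEquiv` or `Fin.consEquiv`; `List.ofFn` of a function on `Fin 2` is `[β 0, β 1]`); add and compare. -/
theorem lapl_eq (hc : IsCore c) {V : Type v} [AddCommGroup V] [Module ℂ V]
    (L : Ed d →ₗ[ℝ] (V →ₗ[ℂ] V)) (v : V) :
    lapl L v = (2 : ℂ) • casK c L v - zk c L 2 v := by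
  have h1 : zk c L 2 v = ∑ i, (if i ∈ c.kI then (-1 : ℂ) else 1) • L (eb i) (L (eb i) v) := by
    unfold zk
    rw [LinearMap.sum_apply, ← (finTwoArrowEquiv (Fin d)).symm.sum_comp, Fintype.sum_prod_type]
    refine Finset.sum_congr rfl fun i _ => ?_
    rw [Finset.sum_eq_single i]
    · rw [hc.t2]
      by_cases hi : i ∈ c.kI <;> simp [wd, hi]
    · intro j _ hj
      rw [LinearMap.smul_apply, hc.t2]
      simp [Ne.symm hj]
    · intro h
      exact absurd (Finset.mem_univ _) h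
  have h2 : casK c L v = -∑ i, (if i ∈ c.kI then (1 : ℂ) else 0) • L (eb i) (L (eb i) v) := by
    unfold casK
    rw [LinearMap.neg_apply, LinearMap.sum_apply]
    congr 1
    simp only [LinearMap.comp_apply, ite_smul, one_smul, zero_smul]
    rw [Finset.sum_ite_mem, Finset.univ_inter]
  have h3 : lapl L v = -∑ i, L (eb i) (L (eb i) v) := by
    unfold lapl
    rw [LinearMap.neg_apply, LinearMap.sum_apply]
    rfl
  rw [h1, h2, h3, smul_neg, Finset.smul_sum, ← Finset.sum_neg_distrib, ← Finset.sum_neg_distrib,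
    ← Finset.sum_sub_distrib]
  refine Finset.sum_congr rfl fun i _ => ?_
  by_cases hi : i ∈ c.kI
  · simp only [hi, if_true]
    module
  · simp only [hi, if_false]
    module

/-- `z_k` commutes with `casK`.
PROOF. `hM.zL` twice. -/
theorem zk_casK {V : Type v} [AddCommGroup V] [Module ℂ V] {L : Ed d →ₗ[ℝ] (V →ₗ[ℂ] V)}
    {act : G → V →ₗ[ℂ] V} (hM : IsMd c L act) (k : ℕ) (v : V) :
    zk c L k (casK c L v) = casK c L (zk c L k v) := by
  have h1 : ∀ w : V, casK c L w = -∑ i ∈ c.kI, L (eb i) (L (eb i) w) := fun w => by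
    unfold casK
    rw [LinearMap.neg_apply, LinearMap.sum_apply]
    rfl
  rw [h1, h1, map_neg, map_sum]
  congr 1
  refine Finset.sum_congr rfl fun i _ => ?_
  rw [hM.zL, hM.zL]

end Pool.Agent.RG
end

section

/-!
# D4b: consequences of Nelson's argument
-/

namespace Pool.Agent.RG

open MeasureTheory Topology Filter Set

universe u v

variable {G : Type u} [Group G] [TopologicalSpace G] {d : ℕ} {c : Core G d}

private theorem D4b_sum_le {V : Type v} [AddCommGroup V] [Module ℂ V] (Q : Seminorm ℂ V)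
    {ι : Type*} (s : Finset ι) (f : ι → V) : Q (∑ a ∈ s, f a) ≤ ∑ a ∈ s, Q (f a) := by
  classical
  induction s using Finset.induction_on with
  | empty => simp
  | insert a s ha ih =>
    rw [Finset.sum_insert ha, Finset.sum_insert ha]
    exact (map_add_le_add Q _ _).trans (add_le_add le_rfl ih)

open Classical in
/-- On a finite dimensional subspace stable under `T` there is a norm which dominates `Q` and for
which `T` is bounded. -/
private theorem D4b_norm {V : Type v} [AddCommGroup V] [Module ℂ V] (Q : Seminorm ℂ V)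
    (U : Submodule ℂ V) [FiniteDimensional ℂ U] (T : V →ₗ[ℂ] V) (hT : ∀ u ∈ U, T u ∈ U) :
    ∃ (N : V → ℝ) (D : ℝ), 0 ≤ D ∧ (∀ u, 0 ≤ N u) ∧ (∀ u ∈ U, Q u ≤ N u) ∧
      ∀ u ∈ U, N (T u) ≤ D * N u := by
  set b := Module.finBasis ℂ U with hb
  set e := b.equivFun with he
  set K : ℝ := ∑ a, Q (b a : V) with hK
  have hK0 : 0 ≤ K := Finset.sum_nonneg fun a _ => apply_nonneg _ _
  set T' : (Fin (Module.finrank ℂ U) → ℂ) →L[ℂ] (Fin (Module.finrank ℂ U) → ℂ) :=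
    LinearMap.toContinuousLinearMap
      ((e.toLinearMap.comp (T.restrict hT)).comp e.symm.toLinearMap) with hT'
  refine ⟨fun v => if h : v ∈ U then K * ‖e ⟨v, h⟩‖ else 0, ‖T'‖, norm_nonneg _, ?_, ?_, ?_⟩
  · intro u
    dsimp only
    split_ifs with h
    · exact mul_nonneg hK0 (norm_nonneg _)
    · exact le_rfl
  · intro u hu
    dsimp only
    rw [dif_pos hu]
    have h1 : (∑ a, e ⟨u, hu⟩ a • b a : U) = ⟨u, hu⟩ := b.sum_equivFun ⟨u, hu⟩
    have h2 : u = ∑ a, e ⟨u, hu⟩ a • (b a : V) := by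
      have h3 := congrArg (fun x : U => (x : V)) h1
      simp only [Submodule.coe_sum, Submodule.coe_smul] at h3
      exact h3.symm
    have h4 : Q u ≤ ∑ a, Q (e ⟨u, hu⟩ a • (b a : V)) := by
      conv_lhs => rw [h2]
      exact D4b_sum_le Q _ _
    refine h4.trans ?_
    rw [hK, Finset.sum_mul]
    refine Finset.sum_le_sum fun a _ => ?_
    rw [map_smul_eq_mul, mul_comm]
    exact mul_le_mul_of_nonneg_left (norm_le_pi_norm (e ⟨u, hu⟩) a) (apply_nonneg _ _)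
  · intro u hu
    dsimp only
    rw [dif_pos hu, dif_pos (hT u hu)]
    have h1 : e ⟨T u, hT u hu⟩ = T' (e ⟨u, hu⟩) := by
      rw [hT']
      simp only [LinearMap.coe_toContinuousLinearMap', LinearMap.comp_apply,
        LinearEquiv.coe_coe, LinearEquiv.symm_apply_apply]
      rfl
    rw [h1]
    calc K * ‖T' (e ⟨u, hu⟩)‖ ≤ K * (‖T'‖ * ‖e ⟨u, hu⟩‖) :=
          mul_le_mul_of_nonneg_left (T'.le_opNorm _) hK0
      _ = ‖T'‖ * (K * ‖e ⟨u, hu⟩‖) := by ring

/-- ANALYTIC VECTORS.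
PROOF. Let `R` be with `v ∈ Vle R =: U` (`exists_mem_Vle`), finite dimensional by `hM.fin`. `lapl L` maps `U` to `U` (`lapl_eq`, `zk_casK`, `map_Vle`; `casK` itself
commutes with `casK`). On a finite dimensional complex space there are a seminorm (even a norm) `N` on `U` and constants with `Q u ≤ N u` and
`N (lapl u) ≤ D N u`, e.g. `N u = K Σ_a |coordinate_a u|` for a basis (`Module.finBasis`), `D` = a bound for the matrix of `lapl` on `U`; extend `N` by `0` outside `U`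
(`N : V → ℝ` by a classical `if`). Put `b = 2 C₁ cb + 1` and use `nelson_step` with `ε = 1 / (b (k + 1))`: `B_{k+1} = 2 C₁ (b (k+1) + D) B_k ≤ c' (k + 1) B_k`, with
`c' = 2 C₁ (b + |D|)`, `B_0 = 1`. Hence `B_k = c'^k k!` and `Q (wd β v) ≤ c'^k k! N v`. -/
theorem analytic_vec (hc : IsCore c) {V : Type v} [AddCommGroup V] [Module ℂ V]
    {L : Ed d →ₗ[ℝ] (V →ₗ[ℂ] V)} {act : G → V →ₗ[ℂ] V} (hM : IsMd c L act) {C₁ : ℝ}
    (hC : 0 ≤ C₁) {Q : Seminorm ℂ V} (hE : IsEn L C₁ Q) (v : V) :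
    ∃ B r : ℝ, 0 ≤ B ∧ 0 ≤ r ∧ ∀ β : List (Fin d),
      Q (wd L β v) ≤ B * r ^ β.length * (β.length.factorial : ℝ) := by
  obtain ⟨R, -, hR⟩ := exists_mem_Vle hM.top v
  have hv := hR R le_rfl
  have := hM.fin R
  have hT : ∀ u ∈ Vle (casK c L) R, lapl L u ∈ Vle (casK c L) R := by
    intro u hu
    rw [lapl_eq hc L u]
    exact Submodule.sub_mem _ (Submodule.smul_mem _ _ (map_Vle (fun _ => rfl) hu))
      (map_Vle (zk_casK hM 2) hu)
  obtain ⟨N, D, hD, hN0, hQN, hND⟩ := D4b_norm Q (Vle (casK c L) R) (lapl L) hT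
  have hcb : 0 ≤ c.cb := by
    unfold Core.cb
    exact mul_nonneg (by norm_num) (Finset.sum_nonneg fun _ _ => Finset.sum_nonneg fun _ _ =>
      Finset.sum_nonneg fun _ _ => abs_nonneg _)
  set b : ℝ := 2 * C₁ * c.cb + 1 with hb
  have hb1 : 1 ≤ b := by
    have : 0 ≤ 2 * C₁ * c.cb := by positivity
    linarith
  set r : ℝ := 2 * C₁ * (b + D) with hr
  have hr0 : 0 ≤ r := by positivity
  have key : ∀ k : ℕ, ∀ β : List (Fin d), β.length = k → ∀ u ∈ (Vle (casK c L) R : Set V),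
      Q (wd L β u) ≤ r ^ k * (k.factorial : ℝ) * N u := by
    intro k
    induction k with
    | zero =>
      intro β hβ u hu
      rw [List.length_eq_zero_iff] at hβ
      subst hβ
      simpa [wd] using hQN u hu
    | succ k ih =>
      intro β hβ u hu
      have hk1 : (0 : ℝ) < k + 1 := by positivity
      have hbk : 1 ≤ b * ((k : ℝ) + 1) := by
        have : (1 : ℝ) ≤ (k : ℝ) + 1 := by
          have := Nat.cast_nonneg (α := ℝ) k
          linarith
        nlinarith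
      have hbk0 : 0 < b * ((k : ℝ) + 1) := by linarith
      have h := nelson_step (c := c) hM.brk hC hE (Vle (casK c L) R : Set V) N D hT hND k
        (r ^ k * (k.factorial : ℝ)) (by positivity) ih (b * ((k : ℝ) + 1))⁻¹
        (inv_pos.mpr hbk0) (inv_le_one_of_one_le₀ hbk) (by
          rw [← div_eq_mul_inv, div_le_one hbk0]
          have h1 : 2 * C₁ * c.cb ≤ b := by linarith
          have h2 : 0 ≤ (k : ℝ) := Nat.cast_nonneg _
          nlinarith) β hβ u hu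
      refine h.trans ?_
      rw [inv_inv]
      have h3 : b * ((k : ℝ) + 1) + (b * ((k : ℝ) + 1))⁻¹ * D ≤ (b + D) * ((k : ℝ) + 1) := by
        have h4 : (b * ((k : ℝ) + 1))⁻¹ * D ≤ 1 * D :=
          mul_le_mul_of_nonneg_right (inv_le_one_of_one_le₀ hbk) hD
        have h5 : 0 ≤ (k : ℝ) := Nat.cast_nonneg _
        nlinarith [mul_nonneg hD h5]
      have h6 : r ^ (k + 1) * ((k + 1).factorial : ℝ) * N u =
          2 * C₁ * ((b + D) * ((k : ℝ) + 1)) * (r ^ k * (k.factorial : ℝ)) * N u := by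
        rw [Nat.factorial_succ, pow_succ]
        push_cast
        rw [hr]
        ring
      rw [h6]
      refine mul_le_mul_of_nonneg_right ?_ (hN0 u)
      refine mul_le_mul_of_nonneg_right ?_ (by positivity)
      exact mul_le_mul_of_nonneg_left h3 (by positivity)
  refine ⟨N v, r, hN0 v, hr0, fun β => ?_⟩
  refine (key β.length β rfl v hv).trans (le_of_eq ?_)
  ring

end Pool.Agent.RG
end
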