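import Pool.Agent.Lib.MP_496a9e_al.Q.E0
import Pool.Agent.Lib.MP_496a9e_al.Mg.G009
import Pool.Agent.Lib.MP_496a9e_al.Mg.G005
import Pool.Agent.Lib.MP_496a9e_al.Mg.G011

section

/-!
# C3a: comparison of the Lebesgue measure in the chart with the Haar measure
-/

namespace Pool.Agent.RG

open MeasureTheory Topology Filter Set
open scoped ENNReal

universe u v

variable {G : Type u} [Group G] [TopologicalSpace G] {d : ℕ} {c : Core G d}

private theorem C3a_ex_zero (hc : IsCore c) : c.ex 0 = 1 := by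
  have h := hc.ex_add 0 0 0
  simp only [smul_zero] at h
  exact (mul_eq_left.1 h.symm)

private theorem C3a_ex_neg (hc : IsCore c) (z : Ed d) : c.ex (-z) * c.ex z = 1 := by
  have h := hc.ex_add z (-1) 1
  rw [neg_add_cancel, zero_smul, C3a_ex_zero hc, neg_one_smul, one_smul] at h
  exact h.symm

/-- A neighbourhood of `(0, 0)` contains a product of two balls of the same radius. -/
private theorem C3a_ball {p : Ed d × Ed d → Prop} (h : ∀ᶠ x in 𝓝 (0 : Ed d × Ed d), p x) :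
    ∃ ε : ℝ, 0 < ε ∧ ∀ z Y : Ed d, ‖z‖ < ε → ‖Y‖ < ε → p (z, Y) := by
  obtain ⟨ε, hε, hp⟩ := Metric.eventually_nhds_iff.1 h
  refine ⟨ε, hε, fun z Y hz hY => hp ?_⟩
  rw [dist_zero_right, Prod.norm_def]
  exact max_lt hz hY

/-- The local multiplication.
PROOF. Let `m` be from `hc.loc`, `r₀` from `hc.inj`. On a small ball around `(0,0)` in `Ed d × Ed d` the map `m` is `C¹`, and its values are in the ball of radius `r₀`. `m (0, Y) = Y` for small `Y`: `ex (m (0,Y)) = ex Y` and injectivity. So the partial derivative of `m (0, ·)` at `0` is the identity. By continuity of the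
derivative, for `‖z‖ < δ₁` and `‖Y‖ < δ₁` the map `m (z, ·)` is differentiable at `Y` with derivative of determinant at most `2` in absolute value. Injectivity of `m (z, ·)` on a small ball: `m (-z, m (z, Y)) = Y`, since `ex (m (-z, m (z, Y))) = ex (-z) * ex z * ex Y = ex Y`, all arguments small.
Similarly `m (z, m (-z, Y')) = Y'`; so for `‖Y'‖ < δ` (`δ` small, `‖z‖ < δ' ` small) the point `Y = m (-z, Y')` has norm `< δ₂ := 2 δ` (continuity of `m` at `(0, Y')`, uniformly: `m (-z, Y') → m (0, Y') = Y'` as `z → 0` uniformly for `‖Y'‖ ≤ δ`, compactness) and `m (z, Y) = Y'`. -/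
theorem loc_mul (hc : IsCore c) :
    ∃ (m : Ed d → Ed d → Ed d) (D : Ed d → Ed d → Ed d →L[ℝ] Ed d) (δ δ' δ₂ : ℝ), 0 < δ ∧ 0 < δ' ∧
      0 < δ₂ ∧ ∀ z : Ed d, ‖z‖ < δ' →
        (∀ Y : Ed d, ‖Y‖ < δ₂ → c.ex (m z Y) = c.ex z * c.ex Y ∧ HasFDerivAt (m z) (D z Y) Y ∧
          |(D z Y).det| ≤ 2) ∧
        InjOn (m z) (Metric.ball 0 δ₂) ∧ Metric.ball 0 δ ⊆ m z '' Metric.ball 0 δ₂ := by
  obtain ⟨r, m, hr, hm, hm0, hex⟩ := hc.loc
  obtain ⟨r₀, hr₀, hinj⟩ := hc.inj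
  have hm' : ContDiffAt ℝ 1 m 0 := hm
  have hm0' : m 0 = 0 := hm0
  have hcont : Tendsto m (𝓝 0) (𝓝 0) := by
    have h := hm'.continuousAt
    rw [ContinuousAt, hm0'] at h
    exact h
  have hsmall : ∀ ρ : ℝ, 0 < ρ → ∃ ε : ℝ, 0 < ε ∧ ∀ z Y : Ed d, ‖z‖ < ε → ‖Y‖ < ε →
      ‖m (z, Y)‖ < ρ := by
    intro ρ hρ
    refine C3a_ball (p := fun x => ‖m x‖ < ρ) ?_
    have h := hcont.eventually (Metric.ball_mem_nhds (0 : Ed d) hρ)
    refine h.mono fun x hx => ?_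
    simpa using hx
  set D : Ed d → Ed d → Ed d →L[ℝ] Ed d := fun z Y =>
    (fderiv ℝ m (z, Y)).comp (ContinuousLinearMap.inr ℝ (Ed d) (Ed d)) with hD
  -- `m (0, Y) = Y` near `0`
  obtain ⟨ε₀, hε₀, hmε₀⟩ := hsmall r₀ hr₀
  have hid : ∀ Y : Ed d, ‖Y‖ < min ε₀ (min r r₀) → m (0, Y) = Y := by
    intro Y hY
    have h1 : ‖Y‖ < ε₀ := hY.trans_le (min_le_left _ _)
    have h2 : ‖Y‖ < r := hY.trans_le ((min_le_right _ _).trans (min_le_left _ _))
    have h3 : ‖Y‖ < r₀ := hY.trans_le ((min_le_right _ _).trans (min_le_right _ _))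
    refine hinj ?_ ?_ ?_
    · simpa using hmε₀ 0 Y (by simpa using hε₀) h1
    · simpa using h3
    · rw [hex 0 Y (by simpa using hr) h2, C3a_ex_zero hc, one_mul]
  have hD0 : D 0 0 = ContinuousLinearMap.id ℝ (Ed d) := by
    have h1 : HasFDerivAt (fun Y : Ed d => m (0, Y)) (D 0 0) 0 := by
      have h2 : HasFDerivAt m (fderiv ℝ m (0, 0)) ((0 : Ed d), (0 : Ed d)) :=
        (hm'.differentiableAt one_ne_zero).hasFDerivAt
      exact h2.comp (0 : Ed d) (hasFDerivAt_prodMk_right (0 : Ed d) (0 : Ed d))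
    have h3 : HasFDerivAt (fun Y : Ed d => m (0, Y)) (ContinuousLinearMap.id ℝ (Ed d)) 0 := by
      refine (hasFDerivAt_id (0 : Ed d)).congr_of_eventuallyEq ?_
      have hpos : 0 < min ε₀ (min r r₀) := lt_min hε₀ (lt_min hr hr₀)
      filter_upwards [Metric.ball_mem_nhds (0 : Ed d) hpos] with Y hY
      exact hid Y (by simpa using hY)
    exact h1.unique h3
  have hdet : ∀ᶠ x in 𝓝 (0 : Ed d × Ed d), |(D x.1 x.2).det| < 2 := by
    have h1 : ContinuousAt (fderiv ℝ m) 0 :=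
      (hm'.fderiv_right (m := 0) (by simp)).continuousAt
    have h2 : ContinuousAt (fun x : Ed d × Ed d => |(D x.1 x.2).det|) 0 := by
      have h3 : ContinuousAt (fun x : Ed d × Ed d =>
          (fderiv ℝ m x).comp (ContinuousLinearMap.inr ℝ (Ed d) (Ed d))) 0 :=
        h1.clm_comp continuousAt_const
      have h4 : Continuous fun f : Ed d →L[ℝ] Ed d => |f.det| :=
        ContinuousLinearMap.continuous_det.abs
      exact h4.continuousAt.comp h3
    have h5 : |(D (0 : Ed d × Ed d).1 (0 : Ed d × Ed d).2).det| < 2 := by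
      rw [Prod.fst_zero, Prod.snd_zero, hD0]
      simp [ContinuousLinearMap.det]
    exact h2.eventually (eventually_lt_nhds h5)
  have hdiff : ∀ᶠ x in 𝓝 (0 : Ed d × Ed d), DifferentiableAt ℝ m x :=
    (hm'.eventually (by simp)).mono fun x hx => hx.differentiableAt one_ne_zero
  obtain ⟨ε₁, hε₁, h1⟩ := C3a_ball hdet
  obtain ⟨ε₂, hε₂, h2⟩ := C3a_ball hdiff
  -- the radius `δ₀`
  set δ₀ : ℝ := min (min ε₀ (min r r₀)) (min ε₁ ε₂) with hδ₀
  have hδ₀pos : 0 < δ₀ := lt_min (lt_min hε₀ (lt_min hr hr₀)) (lt_min hε₁ hε₂)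
  have le0 : δ₀ ≤ ε₀ := (min_le_left _ _).trans (min_le_left _ _)
  have ler : δ₀ ≤ r := (min_le_left _ _).trans ((min_le_right _ _).trans (min_le_left _ _))
  have ler₀ : δ₀ ≤ r₀ := (min_le_left _ _).trans ((min_le_right _ _).trans (min_le_right _ _))
  have le1 : δ₀ ≤ ε₁ := (min_le_right _ _).trans (min_le_left _ _)
  have le2 : δ₀ ≤ ε₂ := (min_le_right _ _).trans (min_le_right _ _)
  obtain ⟨ε₃, hε₃, h3⟩ := hsmall δ₀ hδ₀pos
  set δ₁ : ℝ := min δ₀ ε₃ with hδ₁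
  have hδ₁pos : 0 < δ₁ := lt_min hδ₀pos hε₃
  obtain ⟨ε₄, hε₄, h4⟩ := hsmall δ₁ hδ₁pos
  have hinv : ∀ z Y : Ed d, ‖z‖ < δ₁ → ‖Y‖ < δ₁ → m (-z, m (z, Y)) = Y := by
    intro z Y hz hY
    have hz' : ‖-z‖ < δ₁ := by rwa [norm_neg]
    have hz0 : ‖-z‖ < δ₀ := hz'.trans_le (min_le_left _ _)
    have hmz : ‖m (z, Y)‖ < δ₀ :=
      h3 z Y (hz.trans_le (min_le_right _ _)) (hY.trans_le (min_le_right _ _))
    refine hinj ?_ ?_ ?_
    · simpa using hmε₀ (-z) (m (z, Y)) (hz0.trans_le le0) (hmz.trans_le le0)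
    · have : ‖Y‖ < r₀ := (hY.trans_le (min_le_left _ _)).trans_le ler₀
      simpa using this
    · rw [hex (-z) (m (z, Y)) (hz0.trans_le ler) (hmz.trans_le ler),
        hex z Y ((hz.trans_le (min_le_left _ _)).trans_le ler)
          ((hY.trans_le (min_le_left _ _)).trans_le ler), ← mul_assoc, C3a_ex_neg hc, one_mul]
  refine ⟨fun z Y => m (z, Y), D, min ε₄ δ₁, min ε₄ δ₁, δ₁, lt_min hε₄ hδ₁pos, lt_min hε₄ hδ₁pos,
    hδ₁pos, ?_⟩
  intro z hz
  have hz1 : ‖z‖ < δ₁ := hz.trans_le (min_le_right _ _)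
  have hz0 : ‖z‖ < δ₀ := hz1.trans_le (min_le_left _ _)
  refine ⟨?_, ?_, ?_⟩
  · intro Y hY
    have hY0 : ‖Y‖ < δ₀ := hY.trans_le (min_le_left _ _)
    refine ⟨hex z Y (hz0.trans_le ler) (hY0.trans_le ler), ?_, ?_⟩
    · have h5 : HasFDerivAt m (fderiv ℝ m (z, Y)) (z, Y) :=
        (h2 z Y (hz0.trans_le le2) (hY0.trans_le le2)).hasFDerivAt
      exact h5.comp Y (hasFDerivAt_prodMk_right z Y)
    · exact (h1 z Y (hz0.trans_le le1) (hY0.trans_le le1)).le
  · intro Y hY Y' hY' heq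
    have h6 := hinv z Y hz1 (by simpa using hY)
    have h7 := hinv z Y' hz1 (by simpa using hY')
    change m (z, Y) = m (z, Y') at heq
    rw [← h6, heq, h7]
  · intro Y' hY'
    have hY'' : ‖Y'‖ < min ε₄ δ₁ := by simpa using hY'
    have hnz : ‖-z‖ < min ε₄ δ₁ := by rwa [norm_neg]
    refine ⟨m (-z, Y'), ?_, ?_⟩
    · have h8 := h4 (-z) Y' (hnz.trans_le (min_le_left _ _)) (hY''.trans_le (min_le_left _ _))
      simpa using h8
    · have h9 := hinv (-z) Y' (hnz.trans_le (min_le_right _ _)) (hY''.trans_le (min_le_right _ _))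
      rw [neg_neg] at h9
      exact h9

end Pool.Agent.RG
end

section

/-!
# C3b: comparison of the Lebesgue measure in the chart with the Haar measure
-/

namespace Pool.Agent.RG

open MeasureTheory Topology Filter Set
open scoped ENNReal

universe u v

variable {G : Type u} [Group G] [TopologicalSpace G] {d : ℕ} {c : Core G d}

/-- COMPARISON.
PROOF. With the data of `loc_mul`, for `x = ex z`, `‖z‖ < δ'`: `∫⁻_{ball 0 δ} F (ex Y') dY' ≤ ∫⁻_{m z '' ball 0 δ₂} F (ex Y') dY' = ∫⁻_{ball 0 δ₂} |det D| F (ex (m z Y)) dY ≤ 2 ∫⁻_{ball 0 δ₂} F (x * ex Y) dY`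
(`MeasureTheory.lintegral_image_eq_lintegral_abs_det_fderiv_mul`). The set `S = ex '' ball 0 δ'` contains an open neighborhood `S'` of `1` (`ex_open`), of positive measure; choose it with finite measure or not, it does not matter: integrate over `x ∈ S'` against `μ`:
`μ S' * ∫⁻_{ball 0 δ} F (ex Y') dY' ≤ 2 ∫⁻_{x ∈ S'} ∫⁻_{ball 0 δ₂} F (x * ex Y) dY dμ x = 2 ∫⁻_{ball 0 δ₂} ∫⁻_{x ∈ S'} F (x * ex Y) dμ x dY ≤ 2 vol (ball 0 δ₂) ∫⁻ F dμ` (Tonelli `lintegral_lintegral_swap`, `μ` σ-finite, `(x, Y) ↦ F (x * ex Y)` is measurable; right invariance `lintegral_mul_right_eq_self`).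
Hence the claim with `C = 2 vol (ball 0 δ₂) / min (μ S') 1`. -/
theorem haar_loc (hc : IsCore c) [IsTopologicalGroup G] [MeasurableSpace G] [BorelSpace G]
    (μ : Measure G) [μ.IsMulRightInvariant] [SigmaFinite μ]
    (hpos : ∀ U : Set G, IsOpen U → U.Nonempty → μ U ≠ 0) :
    ∃ δ : ℝ, 0 < δ ∧ ∃ C : ℝ≥0∞, C ≠ ⊤ ∧ ∀ F : G → ℝ≥0∞, Measurable F →
      ∫⁻ Y in Metric.ball (0 : Ed d) δ, F (c.ex Y) ≤ C * ∫⁻ g, F g ∂μ := by
  obtain ⟨m, D, δ, δ', δ₂, hδ, hδ', hδ₂, h⟩ := loc_mul hc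
  obtain ⟨S, hSsub, hSopen, hS1⟩ := mem_nhds_iff.mp (hc.ex_open _ (Metric.ball_mem_nhds 0 hδ'))
  have hμS : μ S ≠ 0 := hpos S hSopen ⟨1, hS1⟩
  have hmin0 : min (μ S) 1 ≠ 0 := by
    rcases min_choice (μ S) 1 with h | h
    · rw [h]; exact hμS
    · rw [h]; exact one_ne_zero
  have hmint : min (μ S) 1 ≠ ⊤ := ne_top_of_le_ne_top ENNReal.one_ne_top (min_le_right _ _)
  refine ⟨δ, hδ, (min (μ S) 1)⁻¹ * (2 * volume (Metric.ball (0 : Ed d) δ₂)), ?_, ?_⟩
  · exact ENNReal.mul_ne_top (ENNReal.inv_ne_top.mpr hmin0)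
      (ENNReal.mul_ne_top ENNReal.ofNat_ne_top measure_ball_lt_top.ne)
  intro F hF
  have hloc : ∀ x ∈ S, ∫⁻ Y in Metric.ball (0 : Ed d) δ, F (c.ex Y) ≤
      2 * ∫⁻ Y in Metric.ball (0 : Ed d) δ₂, F (x * c.ex Y) := by
    intro x hx
    obtain ⟨z, hz, rfl⟩ := hSsub hx
    rw [Metric.mem_ball, dist_zero_right] at hz
    obtain ⟨h1, h2, h3⟩ := h z hz
    calc ∫⁻ Y in Metric.ball (0 : Ed d) δ, F (c.ex Y)
        ≤ ∫⁻ Y in m z '' Metric.ball (0 : Ed d) δ₂, F (c.ex Y) := lintegral_mono_set h3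
      _ = ∫⁻ Y in Metric.ball (0 : Ed d) δ₂,
          ENNReal.ofReal |(D z Y).det| * F (c.ex (m z Y)) := by
          refine lintegral_image_eq_lintegral_abs_det_fderiv_mul volume measurableSet_ball
            (fun Y hY => ?_) h2 fun Y => F (c.ex Y)
          rw [Metric.mem_ball, dist_zero_right] at hY
          exact (h1 Y hY).2.1.hasFDerivWithinAt
      _ ≤ ∫⁻ Y in Metric.ball (0 : Ed d) δ₂, 2 * F (c.ex z * c.ex Y) := by
          refine setLIntegral_mono' measurableSet_ball fun Y hY => ?_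
          rw [Metric.mem_ball, dist_zero_right] at hY
          obtain ⟨h4, -, h5⟩ := h1 Y hY
          rw [h4]
          refine mul_le_mul_left ?_ _
          calc ENNReal.ofReal |(D z Y).det| ≤ ENNReal.ofReal 2 := ENNReal.ofReal_le_ofReal h5
            _ = 2 := by simp
      _ = 2 * ∫⁻ Y in Metric.ball (0 : Ed d) δ₂, F (c.ex z * c.ex Y) :=
          lintegral_const_mul' _ _ ENNReal.ofNat_ne_top
  have hmeas : Measurable (Function.uncurry fun (x : G) (Y : Ed d) => F (x * c.ex Y)) := by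
    have hcont : Continuous fun q : G × Ed d => q.1 * c.ex q.2 :=
      continuous_fst.mul (hc.ex_cont.comp continuous_snd)
    exact hF.comp hcont.measurable
  have hmain : μ S * ∫⁻ Y in Metric.ball (0 : Ed d) δ, F (c.ex Y) ≤
      2 * volume (Metric.ball (0 : Ed d) δ₂) * ∫⁻ g, F g ∂μ := by
    calc μ S * ∫⁻ Y in Metric.ball (0 : Ed d) δ, F (c.ex Y)
        = ∫⁻ _ in S, (∫⁻ Y in Metric.ball (0 : Ed d) δ, F (c.ex Y)) ∂μ := by
          rw [setLIntegral_const, mul_comm]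
      _ ≤ ∫⁻ x in S, (2 * ∫⁻ Y in Metric.ball (0 : Ed d) δ₂, F (x * c.ex Y)) ∂μ :=
          setLIntegral_mono' hSopen.measurableSet hloc
      _ = 2 * ∫⁻ x in S, (∫⁻ Y in Metric.ball (0 : Ed d) δ₂, F (x * c.ex Y)) ∂μ :=
          lintegral_const_mul' _ _ ENNReal.ofNat_ne_top
      _ = 2 * ∫⁻ Y in Metric.ball (0 : Ed d) δ₂, (∫⁻ x in S, F (x * c.ex Y) ∂μ) := by
          rw [lintegral_lintegral_swap hmeas.aemeasurable]
      _ ≤ 2 * ∫⁻ _ in Metric.ball (0 : Ed d) δ₂, (∫⁻ g, F g ∂μ) := by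
          refine mul_le_mul_right (lintegral_mono fun Y => ?_) _
          calc ∫⁻ x in S, F (x * c.ex Y) ∂μ ≤ ∫⁻ x, F (x * c.ex Y) ∂μ := setLIntegral_le_lintegral _ _
            _ = ∫⁻ g, F g ∂μ := lintegral_mul_right_eq_self F (c.ex Y)
      _ = 2 * volume (Metric.ball (0 : Ed d) δ₂) * ∫⁻ g, F g ∂μ := by
          rw [setLIntegral_const]
          ring
  calc ∫⁻ Y in Metric.ball (0 : Ed d) δ, F (c.ex Y)
      = (min (μ S) 1)⁻¹ * (min (μ S) 1 * ∫⁻ Y in Metric.ball (0 : Ed d) δ, F (c.ex Y)) := by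
        rw [← mul_assoc, ENNReal.inv_mul_cancel hmin0 hmint, one_mul]
    _ ≤ (min (μ S) 1)⁻¹ * (μ S * ∫⁻ Y in Metric.ball (0 : Ed d) δ, F (c.ex Y)) :=
        mul_le_mul_right (mul_le_mul_left (min_le_left _ _) _) _
    _ ≤ (min (μ S) 1)⁻¹ * (2 * volume (Metric.ball (0 : Ed d) δ₂) * ∫⁻ g, F g ∂μ) :=
        mul_le_mul_right hmain _
    _ = (min (μ S) 1)⁻¹ * (2 * volume (Metric.ball (0 : Ed d) δ₂)) * ∫⁻ g, F g ∂μ := by
        rw [mul_assoc ((min (μ S) 1)⁻¹)]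

end Pool.Agent.RG
end

section

/-! C3: comparison of the Lebesgue measure in the chart with the Haar measure -/
end

section

/-!
# C4: the measure `ν`
-/

namespace Pool.Agent.RG

open MeasureTheory Topology Filter Set
open scoped ENNReal

universe u v

variable {G : Type u} [Group G] [TopologicalSpace G] [IsTopologicalGroup G] [T2Space G]
  {d : ℕ} {c : Core G d}

omit [Group G] [IsTopologicalGroup G] [T2Space G] in
private theorem C4_w_meas (hM : Continuous c.M) [MeasurableSpace G] [BorelSpace G] (A : ℕ) :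
    Measurable (fun g : G => ENNReal.ofReal ((c.M g ^ (2 * A))⁻¹)) :=
  ENNReal.measurable_ofReal.comp ((hM.measurable.pow_const _).inv)

/-- PROOF. `μ, A₂` from `exists_haar`, `A = A₁ + A₂`, `ν = μ.withDensity (fun g => ENNReal.ofReal ((c.M g ^ (2 * A))⁻¹))`. `trans`: `∫⁻ F(g x) M(g)^(-2A) dμ g = ∫⁻ F(g) M(g x⁻¹)^(-2A) dμ g` (right invariance) and `M g ≤ M (g x⁻¹) M x`, so `M(g x⁻¹)^(-2A) ≤ M(x)^(2A) M(g)^(-2A)`.
`fin`: `M^(2A₁) M^(-2A) = M^(-2A₂)`. `pos`: the density is positive everywhere (`withDensity_apply_eq_zero`-type lemma, or `∫⁻_U f = 0` iff `f = 0` a.e. on `U`). `loc`: `haar_loc` gives `δ`; we may take `δ ≤ 1` (smaller ball); for `‖Y‖ < δ`, `M (ex Y) ≤ exp 1`, so `F (ex Y) ≤ exp(2A) M(ex Y)^(-2A) F (ex Y)`; apply `haar_loc` to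
`M^(-2A) F`. -/
theorem exists_nu (hc : IsCore c) [MeasurableSpace G] [BorelSpace G] (A₁ : ℕ) :
    ∃ (A : ℕ) (ν : Measure G), A₁ ≤ A ∧ IsNu c A A₁ ν := by
  obtain ⟨μ, hinv, hsf, hpos, A₂, hfin⟩ := exists_haar hc
  have hM0 : ∀ x, 0 < c.M x := fun x => lt_of_lt_of_le one_pos (hc.M_ge x)
  set A := A₁ + A₂ with hA
  set w : G → ℝ≥0∞ := fun g => ENNReal.ofReal ((c.M g ^ (2 * A))⁻¹) with hw
  have hwm : Measurable w := C4_w_meas hc.M_cont A
  refine ⟨A, μ.withDensity w, Nat.le_add_right _ _, ?_, ?_, ?_, ?_⟩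
  · -- trans
    intro x F hF
    have hFx : Measurable (fun g => F (g * x)) := hF.comp (continuous_mul_const x).measurable
    rw [lintegral_withDensity_eq_lintegral_mul μ hwm hFx,
      lintegral_withDensity_eq_lintegral_mul μ hwm hF]
    have h1 : ∫⁻ g, (w * fun g => F (g * x)) g ∂μ = ∫⁻ g, w (g * x⁻¹) * F g ∂μ := by
      rw [← lintegral_mul_right_eq_self (μ := μ) (fun g => w (g * x⁻¹) * F g) x]
      refine lintegral_congr fun g => ?_
      simp [mul_assoc]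
    rw [h1, ← lintegral_const_mul _ (hwm.mul hF)]
    refine lintegral_mono fun g => ?_
    show w (g * x⁻¹) * F g ≤ ENNReal.ofReal (c.M x ^ (2 * A)) * (w g * F g)
    rw [← mul_assoc]
    refine mul_le_mul_left ?_ _
    show ENNReal.ofReal ((c.M (g * x⁻¹) ^ (2 * A))⁻¹) ≤
      ENNReal.ofReal (c.M x ^ (2 * A)) * ENNReal.ofReal ((c.M g ^ (2 * A))⁻¹)
    rw [← ENNReal.ofReal_mul (pow_nonneg (hM0 x).le _)]
    refine ENNReal.ofReal_le_ofReal ?_
    have h2 : c.M g ≤ c.M x * c.M (g * x⁻¹) := by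
      have := hc.M_mul (g * x⁻¹) x
      rw [inv_mul_cancel_right] at this
      linarith [mul_comm (c.M (g * x⁻¹)) (c.M x)]
    have h3 : c.M g ^ (2 * A) ≤ c.M x ^ (2 * A) * c.M (g * x⁻¹) ^ (2 * A) := by
      rw [← mul_pow]
      exact pow_le_pow_left₀ (hM0 g).le h2 _
    have hg := pow_pos (hM0 g) (2 * A)
    have hgx := pow_pos (hM0 (g * x⁻¹)) (2 * A)
    generalize hp : c.M (g * x⁻¹) ^ (2 * A) = p at h3 hgx ⊢
    generalize hq : c.M g ^ (2 * A) = q at h3 hg ⊢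
    generalize hr : c.M x ^ (2 * A) = r at h3 ⊢
    rw [← div_eq_mul_inv r q, inv_eq_one_div p, div_le_div_iff₀ hgx hg]
    linarith
  · -- fin
    have hm1 : Measurable (fun g => ENNReal.ofReal (c.M g ^ (2 * A₁))) :=
      ENNReal.measurable_ofReal.comp (hc.M_cont.measurable.pow_const _)
    rw [lintegral_withDensity_eq_lintegral_mul μ hwm hm1]
    refine lt_of_le_of_lt (le_of_eq ?_) hfin
    refine lintegral_congr fun g => ?_
    show ENNReal.ofReal ((c.M g ^ (2 * A))⁻¹) * ENNReal.ofReal (c.M g ^ (2 * A₁)) =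
      ENNReal.ofReal ((c.M g ^ (2 * A₂))⁻¹)
    rw [← ENNReal.ofReal_mul (inv_nonneg.mpr (pow_nonneg (hM0 g).le _))]
    congr 1
    have hg := (pow_pos (hM0 g) (2 * A₁)).ne'
    have hg2 := (pow_pos (hM0 g) (2 * A₂)).ne'
    have : c.M g ^ (2 * A) = c.M g ^ (2 * A₁) * c.M g ^ (2 * A₂) := by
      rw [← pow_add]; congr 1; rw [hA]; ring
    rw [this]
    field_simp
  · -- pos
    intro U hU hne
    rw [withDensity_apply _ hU.measurableSet]
    have hsupp : Function.support w = Set.univ := by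
      ext g
      simp only [Function.mem_support, Set.mem_univ, iff_true]
      exact (ENNReal.ofReal_pos.mpr (inv_pos.mpr (pow_pos (hM0 g) _))).ne'
    have h1 : 0 < ∫⁻ g in U, w g ∂μ := by
      rw [setLIntegral_pos_iff hwm, hsupp, Set.univ_inter]
      exact pos_iff_ne_zero.mpr (hpos U hU hne)
    exact h1.ne'
  · -- loc
    obtain ⟨δ, hδ, C, hC, hloc⟩ := haar_loc hc μ hpos
    refine ⟨min δ 1, lt_min hδ one_pos, ENNReal.ofReal (Real.exp (2 * A)) * C,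
      ENNReal.mul_ne_top ENNReal.ofReal_ne_top hC, ?_⟩
    intro F hF
    rw [lintegral_withDensity_eq_lintegral_mul μ hwm hF]
    have hexm : Measurable c.ex := hc.ex_cont.measurable
    have h1 : ∀ Y ∈ Metric.ball (0 : Ed d) (min δ 1),
        F (c.ex Y) ≤ ENNReal.ofReal (Real.exp (2 * A)) * (w (c.ex Y) * F (c.ex Y)) := by
      intro Y hY
      have hY1 : ‖Y‖ ≤ 1 := by
        have := (Metric.mem_ball.mp hY).le
        rw [dist_zero_right] at this
        exact this.trans (min_le_right _ _)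
      have hM1 : c.M (c.ex Y) ≤ Real.exp 1 :=
        (hc.M_ex Y).trans (Real.exp_le_exp.mpr hY1)
      have hpow : c.M (c.ex Y) ^ (2 * A) ≤ Real.exp (2 * A) := by
        calc c.M (c.ex Y) ^ (2 * A) ≤ Real.exp 1 ^ (2 * A) :=
              pow_le_pow_left₀ (hM0 _).le hM1 _
          _ = Real.exp (2 * A) := by
              rw [← Real.exp_nat_mul]; congr 1; push_cast; ring
      have h2 : (1 : ℝ≥0∞) ≤ ENNReal.ofReal (Real.exp (2 * A)) * w (c.ex Y) := by
        show (1 : ℝ≥0∞) ≤ ENNReal.ofReal (Real.exp (2 * A)) *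
          ENNReal.ofReal ((c.M (c.ex Y) ^ (2 * A))⁻¹)
        rw [← ENNReal.ofReal_mul (Real.exp_pos _).le, ← ENNReal.ofReal_one]
        refine ENNReal.ofReal_le_ofReal ?_
        rw [← div_eq_mul_inv, one_le_div (pow_pos (hM0 _) _)]
        exact hpow
      calc F (c.ex Y) = 1 * F (c.ex Y) := (one_mul _).symm
        _ ≤ (ENNReal.ofReal (Real.exp (2 * A)) * w (c.ex Y)) * F (c.ex Y) := mul_le_mul_left h2 _
        _ = _ := mul_assoc _ _ _
    calc ∫⁻ Y in Metric.ball (0 : Ed d) (min δ 1), F (c.ex Y)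
        ≤ ∫⁻ Y in Metric.ball (0 : Ed d) (min δ 1),
            ENNReal.ofReal (Real.exp (2 * A)) * (w (c.ex Y) * F (c.ex Y)) :=
          setLIntegral_mono' measurableSet_ball h1
      _ = ENNReal.ofReal (Real.exp (2 * A)) *
            ∫⁻ Y in Metric.ball (0 : Ed d) (min δ 1), (w * F) (c.ex Y) :=
          lintegral_const_mul _ ((hwm.mul hF).comp hexm)
      _ ≤ ENNReal.ofReal (Real.exp (2 * A)) *
            ∫⁻ Y in Metric.ball (0 : Ed d) δ, (w * F) (c.ex Y) := by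
          gcongr
          exact min_le_left _ _
      _ ≤ ENNReal.ofReal (Real.exp (2 * A)) * (C * ∫⁻ g, (w * F) g ∂μ) := by
          gcongr
          exact hloc _ (hwm.mul hF)
      _ = ENNReal.ofReal (Real.exp (2 * A)) * C * ∫⁻ g, (w * F) g ∂μ := (mul_assoc _ _ _).symm

end Pool.Agent.RG
end

section

/-!
# D4c: consequences of Nelson's argument
-/

namespace Pool.Agent.RG

open MeasureTheory Topology Filter Set

universe u v

variable {G : Type u} [Group G] [TopologicalSpace G] {d : ℕ} {c : Core G d}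

private theorem D4c_cb_nonneg {G : Type u} {d : ℕ} (c : Core G d) : 0 ≤ c.cb := by
  unfold Core.cb
  positivity

/-- The constants of the scaled bounds. -/
private noncomputable def D4cM (C₁ b : ℝ) : ℕ → ℝ
  | 0 => 1
  | k + 1 => 2 * C₁ * ((2 * C₁ * b * k + 1) + 3) * D4cM C₁ b k

private theorem D4cM_nonneg {C₁ b : ℝ} (hC : 0 ≤ C₁) (hb : 0 ≤ b) (k : ℕ) :
    0 ≤ D4cM C₁ b k := by
  induction k with
  | zero => exact zero_le_one
  | succ k ih =>
    show 0 ≤ 2 * C₁ * ((2 * C₁ * b * k + 1) + 3) * D4cM C₁ b k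
    positivity

private theorem D4c_main (hc : IsCore c) {C₁ : ℝ} (hC : 0 ≤ C₁) (V : Type v) [AddCommGroup V]
    [Module ℂ V] (L : Ed d →ₗ[ℝ] (V →ₗ[ℂ] V))
    (act : G → V →ₗ[ℂ] V) (hM : IsMd c L act) (Q : Seminorm ℂ V) (hE : IsEn L C₁ Q)
    (hQ : ∀ (n : ℝ) (v : V), v ∈ Vle (casK c L) n → Q (casK c L v) ≤ n ^ 2 * Q v)
    (Cz : ℝ) (hz : ∀ v, Q (zk c L 2 v) ≤ Cz * Q v) (n : ℝ) (hn : 1 ≤ n) (hCz : Cz ≤ n ^ 2)
    (k : ℕ) : ∀ β : List (Fin d), β.length = k → ∀ u ∈ Vle (casK c L) n,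
      Q (wd L β u) ≤ D4cM C₁ c.cb k * n ^ k * Q u := by
  have hb := D4c_cb_nonneg c
  induction k with
  | zero =>
    intro β hβ u _
    rw [List.length_eq_zero_iff.1 hβ]
    show Q u ≤ 1 * n ^ 0 * Q u
    rw [pow_zero, one_mul, one_mul]
  | succ k ih =>
    intro β hβ u hu
    have hMk := D4cM_nonneg hC hb k
    have ha : (1 : ℝ) ≤ 2 * C₁ * c.cb * k + 1 := by
      have : 0 ≤ 2 * C₁ * c.cb * k := by positivity
      linarith
    have ha0 : (0 : ℝ) < 2 * C₁ * c.cb * k + 1 := lt_of_lt_of_le one_pos ha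
    have hn0 : 0 < n := lt_of_lt_of_le one_pos hn
    have hU : ∀ u ∈ (Vle (casK c L) n : Set V), lapl L u ∈ (Vle (casK c L) n : Set V) := by
      intro u hu
      have e1 : casK c L u ∈ Vle (casK c L) n := map_Vle (S := casK c L) (fun _ => rfl) hu
      have e2 : zk c L 2 u ∈ Vle (casK c L) n := map_Vle (S := zk c L 2) (zk_casK hM 2) hu
      show lapl L u ∈ Vle (casK c L) n
      rw [lapl_eq hc]
      exact Submodule.sub_mem _ (Submodule.smul_mem _ _ e1) e2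
    have hN : ∀ u ∈ (Vle (casK c L) n : Set V), Q (lapl L u) ≤ 3 * n ^ 2 * Q u := by
      intro u hu
      rw [lapl_eq hc]
      refine (map_sub_le_add Q _ _).trans ?_
      rw [map_smul_eq_mul]
      have e1 := hQ n u hu
      have e2 := hz u
      have e3 : ‖(2 : ℂ)‖ = 2 := by simp
      have e4 : Cz * Q u ≤ n ^ 2 * Q u := mul_le_mul_of_nonneg_right hCz (apply_nonneg Q u)
      rw [e3]
      linarith
    have hstep := nelson_step hM.brk hC hE (Vle (casK c L) n : Set V) (fun u => Q u) (3 * n ^ 2)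
      hU hN k (D4cM C₁ c.cb k * n ^ k) (by positivity) ih (((2 * C₁ * c.cb * k + 1) * n)⁻¹)
      (by positivity) (inv_le_one_of_one_le₀ (by nlinarith)) (by
        rw [← div_eq_mul_inv, div_le_one (by positivity)]
        nlinarith) β hβ u hu
    refine hstep.trans ?_
    have e5 : ((2 * C₁ * c.cb * k + 1) * n)⁻¹ * (3 * n ^ 2) ≤ 3 * n := by
      rw [inv_mul_le_iff₀ (by positivity)]
      nlinarith [mul_pos hn0 hn0]
    show 2 * C₁ * ((((2 * C₁ * c.cb * k + 1) * n)⁻¹)⁻¹ +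
      ((2 * C₁ * c.cb * k + 1) * n)⁻¹ * (3 * n ^ 2)) * (D4cM C₁ c.cb k * n ^ k) * Q u ≤
      (2 * C₁ * ((2 * C₁ * c.cb * k + 1) + 3) * D4cM C₁ c.cb k) * n ^ (k + 1) * Q u
    rw [inv_inv]
    have e6 : 2 * C₁ * ((2 * C₁ * c.cb * k + 1) * n +
        ((2 * C₁ * c.cb * k + 1) * n)⁻¹ * (3 * n ^ 2)) ≤
        2 * C₁ * ((2 * C₁ * c.cb * k + 1) * n + 3 * n) :=
      mul_le_mul_of_nonneg_left (by linarith) (by positivity)
    have e7 := mul_le_mul_of_nonneg_right (mul_le_mul_of_nonneg_right e6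
      (show 0 ≤ D4cM C₁ c.cb k * n ^ k by positivity)) (apply_nonneg Q u)
    refine e7.trans (le_of_eq ?_)
    ring

/-- SCALED BOUNDS, with constants that do not depend on the module.
PROOF. Put `M_0 = 1`, `M_{k+1} = 2 C₁ ((2 C₁ cb k + 1) + 3) M_k` (nonnegative), and prove for every `k`, by induction, `Q (wd β u) ≤ M_k n^k Q u` for `β.length = k`, `u ∈ Vle n`,
with `nelson_step` for `U = Vle n`, `N = Q`, `D = 3 n^2`, `B = M_k n^k`, `ε = 1 / ((2 C₁ cb k + 1) n) ≤ 1`: `ε⁻¹ + ε D ≤ (2 C₁ cb k + 1) n + 3 n`.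
`hN`: `Q (lapl u) ≤ 2 Q (casK u) + Q (zk 2 u) ≤ (2 n^2 + Cz) Q u ≤ 3 n^2 Q u` (`lapl_eq`). `hU`: `lapl_eq`, `zk_casK`, `map_Vle`. Finally take for `M k` the maximum (or the sum) of the
constants up to `k`. -/
theorem scaled_bound (hc : IsCore c) {C₁ : ℝ} (hC : 0 ≤ C₁) (k : ℕ) :
    ∃ M : ℝ, 0 ≤ M ∧ ∀ (V : Type v) [AddCommGroup V] [Module ℂ V] (L : Ed d →ₗ[ℝ] (V →ₗ[ℂ] V))
      (act : G → V →ₗ[ℂ] V), IsMd c L act → ∀ (Q : Seminorm ℂ V), IsEn L C₁ Q →
      (∀ (n : ℝ) (v : V), v ∈ Vle (casK c L) n → Q (casK c L v) ≤ n ^ 2 * Q v) →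
      ∀ Cz : ℝ, (∀ v, Q (zk c L 2 v) ≤ Cz * Q v) → ∀ n : ℝ, 1 ≤ n → Cz ≤ n ^ 2 →
      ∀ u ∈ Vle (casK c L) n, ∀ β : List (Fin d), β.length ≤ k →
        Q (wd L β u) ≤ M * n ^ β.length * Q u := by
  have hb := D4c_cb_nonneg c
  refine ⟨∑ i ∈ Finset.range (k + 1), D4cM C₁ c.cb i,
    Finset.sum_nonneg fun i _ => D4cM_nonneg hC hb i, ?_⟩
  intro V _ _ L act hM Q hE hQ Cz hz n hn hCz u hu β hβ
  refine (D4c_main hc hC V L act hM Q hE hQ Cz hz n hn hCz β.length β rfl u hu).trans ?_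
  refine mul_le_mul_of_nonneg_right (mul_le_mul_of_nonneg_right ?_ (by positivity))
    (apply_nonneg Q u)
  exact Finset.single_le_sum (f := fun i => D4cM C₁ c.cb i)
    (fun i _ => D4cM_nonneg hC hb i) (Finset.mem_range.2 (Nat.lt_succ_of_le hβ))

end Pool.Agent.RG
end

section

/-! D4: consequences of Nelson's argument -/
end
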