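import Pool.Agent.Lib.MP_496a9e_al.Mg.G005
import Pool.Agent.Lib.MP_496a9e_al.Q.Core
import Pool.Agent.Lib.MP_496a9e_al.Q.E0

section

/-!
# D6a: properties of the projections
-/

namespace Pool.Agent.RG

open MeasureTheory Topology Filter Set

universe u v

variable {G : Type u} [Group G] [TopologicalSpace G] {d : ℕ} {c : Core G d} {A A₁ : ℕ}
  {V E : Type v} {H : Type u} [AddCommGroup V] [Module ℂ V] [NormedAddCommGroup E]
  [NormedSpace ℂ E] [CompleteSpace E] [NormedAddCommGroup H] [InnerProductSpace ℂ H]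
  [CompleteSpace H] {L : Ed d →ₗ[ℝ] (V →ₗ[ℂ] V)} {act : G → V →ₗ[ℂ] V} {π : G → E →L[ℂ] E}
  {ι : V →ₗ[ℂ] E} {PV : ℝ → E →ₗ[ℂ] V}

/-- the decomposition of a vector and its projection -/
private theorem D6a_split (hM : IsMd c L act) (hPV : IsPV c L ι PV) (R : ℝ) (v : V) :
    ∃ a b : V, a ∈ Vle (casK c L) R ∧ b ∈ Vgt (casK c L) R ∧ v = a + b ∧ PV R (ι v) = a := by
  have h := isCompl_Vle hM.top R
  have hv : v ∈ Vle (casK c L) R ⊔ Vgt (casK c L) R := by
    rw [h.sup_eq_top]; trivial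
  obtain ⟨a, ha, b, hb, hab⟩ := Submodule.mem_sup.mp hv
  refine ⟨a, b, ha, hb, hab.symm, ?_⟩
  rw [← hab, map_add, map_add, hPV.id R a ha, hPV.ker R b hb, add_zero]

/-- PROOF. Both sides are continuous in `e` (`hPV.cont`) and it suffices to prove the inequality for `e = ι v` (`hG.dense`,
`DenseRange.induction_on`, closedness). Write `v = a + b` with `a ∈ Vle R`, `b ∈ Vgt R` (`isCompl_Vle hM.top R`), then `PV R (ι v) = a` (`hPV.id`,
`hPV.ker`) and `‖J (ι a)‖ ≤ ‖J (ι v)‖` by `Ksk.le_add` (for `T = J ∘ ι`, by `Cal.ksk` for the bundled data `⟨V, E, H, π, L, ι, J, ..⟩`). -/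
theorem PV_contr (hc : IsCore c) (hM : IsMd c L act) (hG : IsGl c A₁ L act π ι)
    (hPV : IsPV c L ι PV) {J : E →L[ℂ] H} (hJ : IsTp c A π J) (R : ℝ) (e : E) :
    ‖J (ι (PV R e))‖ ≤ ‖J e‖ := by
  refine hG.dense.induction_on (p := fun e => ‖J (ι (PV R e))‖ ≤ ‖J e‖) e ?_ ?_
  · exact isClosed_le (J.continuous.comp (hPV.cont R)).norm J.continuous.norm
  · intro v
    obtain ⟨a, b, ha, hb, hv, hP⟩ := D6a_split hM hPV R v
    have hk : Ksk c L (J.toLinearMap.comp ι) :=
      Cal.ksk hc (⟨V, E, H, π, L, ι, J, hG.rp.one, hG.rp.mul, hG.rp.cont, hG.der, hJ⟩ : Cal c A)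
    have h2 := (hk.le_add ha hb).1
    rw [hP]
    rw [← hv] at h2
    simpa using h2

/-- PROOF. For `e = ι v`, `v = a + b` with `a ∈ Vle R`, `b ∈ Vgt R ≤ Vgt m`: `PV m (ι (PV R (ι v))) = PV m (ι a) = PV m (ι a) + PV m (ι b) = PV m (ι v)`. Density:
`e ↦ ι (PV m (ι (PV R e)))` is continuous as the composition of `ι ∘ PV m` and `ι ∘ PV R`; `ι` is injective. -/
theorem PV_PV (hM : IsMd c L act) (hG : IsGl c A₁ L act π ι) (hPV : IsPV c L ι PV) {m R : ℝ}
    (h0 : 0 ≤ m) (h : m ≤ R) (e : E) : PV m (ι (PV R e)) = PV m e := by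
  have hg : Vgt (casK c L) R ≤ Vgt (casK c L) m := by
    refine iSup₂_le fun r hr => ?_
    refine le_iSup₂_of_le r (lt_of_le_of_lt ?_ hr) le_rfl
    exact pow_le_pow_left₀ h0 h 2
  have hcont : Continuous fun e : E => ι (PV m (ι (PV R e))) := (hPV.cont m).comp (hPV.cont R)
  apply hG.inj
  refine hG.dense.induction_on (p := fun e => ι (PV m (ι (PV R e))) = ι (PV m e)) e ?_ ?_
  · exact isClosed_eq hcont (hPV.cont m)
  · intro v
    obtain ⟨a, b, ha, hb, hv, hP⟩ := D6a_split hM hPV R v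
    show ι (PV m (ι (PV R (ι v)))) = ι (PV m (ι v))
    rw [hP]
    conv_rhs => rw [hv, map_add, map_add, hPV.ker m b (hg hb), add_zero]

/-- PROOF. `act k` commutes with `casK` (`hM.cK`), so it preserves `Vle R` and `Vgt R` (eigenvectors go to eigenvectors). For `e = ι v`, `v = a + b`:
`PV R (π k (ι v)) = PV R (ι (act k a)) + PV R (ι (act k b)) = act k a = act k (PV R (ι v))` (`hG.eqv`). Density: compare `ι (PV R (π k e))` and
`ι (act k (PV R e)) = π k (ι (PV R e))`, both continuous in `e`; `ι` is injective. -/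
theorem PV_act (hM : IsMd c L act) (hG : IsGl c A₁ L act π ι) (hPV : IsPV c L ι PV) (R : ℝ)
    (k : G) (hk : k ∈ c.K) (e : E) : PV R (π k e) = act k (PV R e) := by
  have hkle : ∀ (r : ℝ), ∀ x ∈ Module.End.eigenspace (casK c L) (r : ℂ),
      act k x ∈ Module.End.eigenspace (casK c L) (r : ℂ) := by
    intro r x hx
    rw [Module.End.mem_eigenspace_iff] at hx ⊢
    rw [hM.cK k hk, hx, map_smul]
  have hle : ∀ x ∈ Vle (casK c L) R, act k x ∈ Vle (casK c L) R := by
    have : Vle (casK c L) R ≤ (Vle (casK c L) R).comap (act k) := by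
      refine iSup₂_le fun r hr x hx => ?_
      exact (le_iSup₂_of_le (f := fun (r : ℝ) (_ : r ≤ R ^ 2) =>
        Module.End.eigenspace (casK c L) (r : ℂ)) r hr le_rfl) (hkle r x hx)
    exact this
  have hgt : ∀ x ∈ Vgt (casK c L) R, act k x ∈ Vgt (casK c L) R := by
    have : Vgt (casK c L) R ≤ (Vgt (casK c L) R).comap (act k) := by
      refine iSup₂_le fun r hr x hx => ?_
      exact (le_iSup₂_of_le (f := fun (r : ℝ) (_ : R ^ 2 < r) =>
        Module.End.eigenspace (casK c L) (r : ℂ)) r hr le_rfl) (hkle r x hx)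
    exact this
  apply hG.inj
  refine hG.dense.induction_on (p := fun e => ι (PV R (π k e)) = ι (act k (PV R e))) e ?_ ?_
  · simp only [hG.eqv k hk]
    exact isClosed_eq ((hPV.cont R).comp (π k).continuous) ((π k).continuous.comp (hPV.cont R))
  · intro v
    obtain ⟨a, b, ha, hb, hv, hP⟩ := D6a_split hM hPV R v
    show ι (PV R (π k (ι v))) = ι (act k (PV R (ι v)))
    rw [hP, ← hG.eqv k hk, hv, map_add (act k), map_add ι, map_add (PV R),
      hPV.id R _ (hle a ha), hPV.ker R _ (hgt b hb), add_zero]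

/-- The projections commute with derivatives along `K`.
PROOF. `PF : E →L[ℂ] E`, `PF e = ι (PV R e)` (continuous by `hPV.cont`). The curve `t ↦ PF (π (ex (t • eb i)) e)` has derivative `PF e'` at `0`. By `PV_act`
(`ex (t • eb i) ∈ K`, `hc.K_ex`) and `hG.eqv` it equals `t ↦ π (ex (t • eb i)) (ι (PV R e))`, with derivative `ι (L (eb i) (PV R e))` (`hG.der`). Uniqueness of the derivative and injectivity of `ι`. -/
theorem PV_der (hc : IsCore c) (hM : IsMd c L act) (hG : IsGl c A₁ L act π ι)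
    (hPV : IsPV c L ι PV) (R : ℝ) (i : Fin d) (hi : i ∈ c.kI) (e e' : E)
    (h : HasDerivAt (fun t : ℝ => π (c.ex (t • eb i)) e) e' 0) :
    L (eb i) (PV R e) = PV R e' := by
  let PF : E →L[ℂ] E := ⟨ι.comp (PV R), hPV.cont R⟩
  have h1 : HasDerivAt (fun t : ℝ => PF (π (c.ex (t • eb i)) e)) (PF e') 0 :=
    (PF.restrictScalars ℝ).hasFDerivAt.comp_hasDerivAt (0 : ℝ) h
  have h2 : (fun t : ℝ => PF (π (c.ex (t • eb i)) e))
      = fun t : ℝ => π (c.ex (t • eb i)) (ι (PV R e)) := by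
    funext t
    show ι (PV R (π (c.ex (t • eb i)) e)) = _
    rw [PV_act hM hG hPV R _ (hc.K_ex i hi t), hG.eqv _ (hc.K_ex i hi t)]
  rw [h2] at h1
  exact hG.inj ((hG.der (eb i) (PV R e)).unique h1)

end Pool.Agent.RG
end

section

/-!
# D6b: properties of the projections
-/

namespace Pool.Agent.RG

open MeasureTheory Topology Filter Set

universe u v

variable {G : Type u} [Group G] [TopologicalSpace G] {d : ℕ} {c : Core G d} {A A₁ : ℕ}
  {V E : Type v} {H : Type u} [AddCommGroup V] [Module ℂ V] [NormedAddCommGroup E]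
  [NormedSpace ℂ E] [CompleteSpace E] [NormedAddCommGroup H] [InnerProductSpace ℂ H]
  [CompleteSpace H] {L : Ed d →ₗ[ℝ] (V →ₗ[ℂ] V)} {act : G → V →ₗ[ℂ] V} {π : G → E →L[ℂ] E}
  {ι : V →ₗ[ℂ] E} {PV : ℝ → E →ₗ[ℂ] V}

/-- TAIL ESTIMATE.
PROOF. Put `T = J ∘ ι` (it is `Ksk`). Let `η > 0`; choose `v` with `‖y - ι v‖ ≤ η` (`hG.dense`) and `R ≥ m` with `v ∈ Vle R` (`exists_mem_Vle hM.top`). Then
`‖J (y - ι (PV R y))‖ ≤ ‖J (y - ι v)‖ + ‖J (ι (PV R (ι v - y)))‖ ≤ 2 ‖J‖ η` (`ι v = ι (PV R (ι v))`, `PV_contr`).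
Let `a = PV R y - PV m y ∈ Vgt m`: indeed `PV R y = a₁ + a₂` (`a₁ ∈ Vle m`, `a₂ ∈ Vgt m`) and `a₁ = PV m (ι (PV R y)) = PV m y` (`PV_PV`). By `Ksk.pow_le`
`m^(2l) ‖T a‖ ≤ ‖T (casK^l a)‖`, and `casK^l a = PV R y' - PV m y'` by `h`, which similarly is the `Vgt m` component of `PV R y'`; so
`‖T (casK^l a)‖ ≤ ‖T (PV R y')‖ ≤ ‖J y'‖` (`Ksk.le_add`, `PV_contr`). Total: `m^(2l) ‖J (y - ι (PV m y))‖ ≤ ‖J y'‖ + 2 m^(2l) ‖J‖ η` for all `η > 0`. -/
theorem PV_tail (hc : IsCore c) (hM : IsMd c L act) (hG : IsGl c A₁ L act π ι)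
    (hPV : IsPV c L ι PV) {J : E →L[ℂ] H} (hJ : IsTp c A π J) (l : ℕ) (y y' : E)
    (h : ∀ R : ℝ, PV R y' = ((casK c L) ^ l) (PV R y)) {m : ℝ} (hm : 0 ≤ m) :
    m ^ (2 * l) * ‖J (y - ι (PV m y))‖ ≤ ‖J y'‖ := by
  have hK : Ksk c L (J.toLinearMap.comp ι) :=
    Cal.ksk hc
      ({ V := V, E := E, H := H, π := π, L := L, ι := ι, J := J, one := hG.rp.one,
         mul := hG.rp.mul, cont := hG.rp.cont, der := hG.der, temp := hJ } : Cal.{u, v} c A)
  have hT : ∀ v : V, (J.toLinearMap.comp ι) v = J (ι v) := fun v => rfl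
  -- the difference of two projections
  have hdiff : ∀ (R : ℝ), m ≤ R → ∀ z : E, PV R z - PV m z ∈ Vgt (casK c L) m := by
    intro R hR z
    have htop : PV R z ∈ (Vle (casK c L) m ⊔ Vgt (casK c L) m) := by
      rw [(isCompl_Vle hM.top m).sup_eq_top]
      exact Submodule.mem_top
    obtain ⟨a₁, h₁, a₂, h₂, h12⟩ := Submodule.mem_sup.mp htop
    have h3 : PV m (ι (PV R z)) = PV m z := PV_PV hM hG hPV hm hR z
    have h4 : PV m (ι (PV R z)) = a₁ := by
      rw [← h12, map_add, map_add, hPV.id m a₁ h₁, hPV.ker m a₂ h₂, add_zero]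
    rw [← h3, h4, ← h12, add_sub_cancel_left]
    exact h₂
  have hm2 : 0 ≤ m ^ (2 * l) := pow_nonneg hm _
  -- approximation
  have key : ∀ η : ℝ, 0 < η →
      m ^ (2 * l) * ‖J (y - ι (PV m y))‖ ≤ ‖J y'‖ + m ^ (2 * l) * (2 * (‖J‖ * η)) := by
    intro η hη
    obtain ⟨v, hv⟩ := hG.dense.exists_dist_lt y hη
    obtain ⟨R₀, h0, hR₀⟩ := exists_mem_Vle hM.top v
    set R : ℝ := max R₀ m with hR
    have hmR : m ≤ R := le_max_right _ _
    have hvR : v ∈ Vle (casK c L) R := hR₀ R (le_max_left _ _)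
    have hyv : ‖J (y - ι v)‖ ≤ ‖J‖ * η := by
      refine (J.le_opNorm _).trans (mul_le_mul_of_nonneg_left ?_ (norm_nonneg _))
      rw [← dist_eq_norm]
      exact hv.le
    have h1 : ‖J (y - ι (PV R y))‖ ≤ 2 * (‖J‖ * η) := by
      have e : y - ι (PV R y) = (y - ι v) + ι (PV R (ι v - y)) := by
        rw [map_sub (PV R), hPV.id R v hvR, map_sub ι]
        abel
      have h2 : ‖J (ι (PV R (ι v - y)))‖ ≤ ‖J‖ * η := by
        refine (PV_contr hc hM hG hPV hJ R (ι v - y)).trans ?_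
        rw [← neg_sub, map_neg, norm_neg]
        exact hyv
      rw [e, map_add]
      refine (norm_add_le _ _).trans ?_
      linarith
    set a : V := PV R y - PV m y with ha
    have ha' : ((casK c L) ^ l) a = PV R y' - PV m y' := by
      rw [ha, map_sub, ← h R, ← h m]
    have h5 : m ^ (2 * l) * ‖J (ι a)‖ ≤ ‖J y'‖ := by
      have h6 := hK.pow_le l (hdiff R hmR y)
      rw [← ha, ha', hT, hT] at h6
      refine h6.trans ?_
      have h7 := (hK.le_add (hPV.mem m y') (hdiff R hmR y')).2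
      rw [hT, hT, add_sub_cancel] at h7
      exact h7.trans (PV_contr hc hM hG hPV hJ R y')
    have e2 : y - ι (PV m y) = (y - ι (PV R y)) + ι a := by
      rw [ha, map_sub]
      abel
    calc m ^ (2 * l) * ‖J (y - ι (PV m y))‖
        ≤ m ^ (2 * l) * (‖J (y - ι (PV R y))‖ + ‖J (ι a)‖) := by
          refine mul_le_mul_of_nonneg_left ?_ hm2
          rw [e2, map_add]
          exact norm_add_le _ _
      _ = m ^ (2 * l) * ‖J (y - ι (PV R y))‖ + m ^ (2 * l) * ‖J (ι a)‖ := by ring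
      _ ≤ m ^ (2 * l) * (2 * (‖J‖ * η)) + ‖J y'‖ :=
          add_le_add (mul_le_mul_of_nonneg_left h1 hm2) h5
      _ = ‖J y'‖ + m ^ (2 * l) * (2 * (‖J‖ * η)) := by ring
  refine le_of_forall_pos_le_add fun ε hε => ?_
  set C : ℝ := m ^ (2 * l) * (2 * ‖J‖) + 1 with hC
  have hC0 : 0 < C := by positivity
  refine (key (ε / C) (div_pos hε hC0)).trans ?_
  have : m ^ (2 * l) * (2 * (‖J‖ * (ε / C))) ≤ ε := by
    have e : m ^ (2 * l) * (2 * (‖J‖ * (ε / C))) = (C - 1) * (ε / C) := by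
      rw [hC]; ring
    rw [e, sub_mul, mul_div_cancel₀ _ hC0.ne']
    have : 0 < ε / C := div_pos hε hC0
    linarith
  linarith

end Pool.Agent.RG
end

section

/-! D6: properties of the projections -/
end

section

/-!
# D7: a sequence of functions `f_j` with `f_j' = f_(j+1)`, `f_j(0) = 0` and analytic bounds vanishes
-/

namespace Pool.Agent.RG

open MeasureTheory Topology Filter Set

private theorem D7_step (f : ℕ → ℝ → ℂ) (B r : ℝ) (hr : 0 < r)
    (hd : ∀ j, ∀ t ∈ Icc (0:ℝ) 1, HasDerivAt (f j) (f (j + 1) t) t)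
    (hb : ∀ j, ∀ t ∈ Icc (0:ℝ) 1, ‖f j t‖ ≤ B * r ^ j * (j.factorial : ℝ))
    (t₀ t₁ : ℝ) (h0 : 0 ≤ t₀) (h1 : t₁ ≤ 1) (hf : ∀ j, f j t₀ = 0) (m : ℕ) :
    ∀ j, ∀ t ∈ Icc t₀ t₁,
      ‖f j t‖ ≤ B * r ^ (j + m) * ((j + m).factorial : ℝ) * (t - t₀) ^ m / (m.factorial : ℝ) := by
  induction m with
  | zero =>
    intro j t ht
    have := hb j t ⟨h0.trans ht.1, ht.2.trans h1⟩
    simpa using this
  | succ m ih =>
    intro j
    set C : ℝ := B * r ^ (j + (m + 1)) * ((j + (m + 1)).factorial : ℝ) with hC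
    have hderB : ∀ x : ℝ, HasDerivAt (fun t : ℝ => C * (t - t₀) ^ (m + 1) / ((m + 1).factorial : ℝ))
        (C * (x - t₀) ^ m / (m.factorial : ℝ)) x := by
      intro x
      have h2 : HasDerivAt (fun t : ℝ => (t - t₀) ^ (m + 1)) (((m + 1 : ℕ) : ℝ) * (x - t₀) ^ m * 1) x := by
        have := ((hasDerivAt_id x).sub_const t₀).fun_pow (m + 1)
        simpa using this
      have h3 := (h2.const_mul C).div_const ((m + 1).factorial : ℝ)
      refine h3.congr_deriv ?_
      rw [Nat.factorial_succ]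
      have hm : (m.factorial : ℝ) ≠ 0 := by exact_mod_cast m.factorial_ne_zero
      push_cast
      field_simp
    have hcont : ContinuousOn (f j) (Icc t₀ t₁) := fun t ht =>
      (hd j t ⟨h0.trans ht.1, ht.2.trans h1⟩).continuousAt.continuousWithinAt
    intro t ht
    have := image_norm_le_of_norm_deriv_right_le_deriv_boundary (f := f j) (f' := f (j + 1))
      (a := t₀) (b := t₁) (B := fun t : ℝ => C * (t - t₀) ^ (m + 1) / ((m + 1).factorial : ℝ))
      (B' := fun x : ℝ => C * (x - t₀) ^ m / (m.factorial : ℝ)) hcont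
      (fun x hx => (hd j x ⟨h0.trans hx.1, hx.2.le.trans h1⟩).hasDerivWithinAt)
      (by simp [hf j]) hderB
      (fun x hx => by
        have := ih (j + 1) x ⟨hx.1, hx.2.le⟩
        rw [show j + 1 + m = j + (m + 1) by ring] at this
        exact this) ht
    exact this

private theorem D7_zero (f : ℕ → ℝ → ℂ) (B r : ℝ) (hr : 0 < r) (hB : 0 ≤ B)
    (hd : ∀ j, ∀ t ∈ Icc (0:ℝ) 1, HasDerivAt (f j) (f (j + 1) t) t)
    (hb : ∀ j, ∀ t ∈ Icc (0:ℝ) 1, ‖f j t‖ ≤ B * r ^ j * (j.factorial : ℝ))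
    (t₀ t₁ : ℝ) (h0 : 0 ≤ t₀) (h1 : t₁ ≤ 1) (h2 : t₁ ≤ t₀ + 1 / (4 * r)) (hf : ∀ j, f j t₀ = 0) :
    ∀ j, ∀ t ∈ Icc t₀ t₁, f j t = 0 := by
  intro j t ht
  have key : ∀ m : ℕ, ‖f j t‖ ≤ (B * (2 * r) ^ j * (j.factorial : ℝ)) * (1 / 2) ^ m := by
    intro m
    have h3 := D7_step f B r hr hd hb t₀ t₁ h0 h1 hf m j t ht
    have hfac : ((j + m).factorial : ℝ) ≤ 2 ^ (j + m) * (j.factorial : ℝ) * (m.factorial : ℝ) := by
      have h4 : (j + m).choose j * j.factorial * m.factorial = (j + m).factorial := by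
        have := Nat.choose_mul_factorial_mul_factorial (n := j + m) (k := j) (Nat.le_add_right _ _)
        simpa using this
      have h5 : (j + m).choose j ≤ 2 ^ (j + m) := Nat.choose_le_two_pow _ _
      have h6 : (j + m).factorial ≤ 2 ^ (j + m) * j.factorial * m.factorial := by
        rw [← h4]; gcongr
      exact_mod_cast h6
    have ht0 : 0 ≤ t - t₀ := by linarith [ht.1]
    have hm : (0 : ℝ) < (m.factorial : ℝ) := by exact_mod_cast m.factorial_pos
    have ht1 : 2 * r * (t - t₀) ≤ 1 / 2 := by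
      have : t - t₀ ≤ 1 / (4 * r) := by linarith [ht.2]
      calc 2 * r * (t - t₀) ≤ 2 * r * (1 / (4 * r)) := by gcongr
        _ = 1 / 2 := by field_simp; norm_num
    calc ‖f j t‖ ≤ B * r ^ (j + m) * ((j + m).factorial : ℝ) * (t - t₀) ^ m / (m.factorial : ℝ) := h3
      _ ≤ B * r ^ (j + m) * (2 ^ (j + m) * (j.factorial : ℝ) * (m.factorial : ℝ)) * (t - t₀) ^ m
          / (m.factorial : ℝ) := by gcongr
      _ = (B * (2 * r) ^ j * (j.factorial : ℝ)) * (2 * r * (t - t₀)) ^ m := by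
          rw [mul_pow (2 * r) (t - t₀) m, mul_pow 2 r m, mul_pow 2 r j, pow_add, pow_add]
          field_simp
      _ ≤ (B * (2 * r) ^ j * (j.factorial : ℝ)) * (1 / 2) ^ m := by gcongr
  have hlim : Tendsto (fun m : ℕ => (B * (2 * r) ^ j * (j.factorial : ℝ)) * (1 / 2 : ℝ) ^ m) atTop (𝓝 0) := by
    have := (tendsto_pow_atTop_nhds_zero_of_lt_one (r := (1 / 2 : ℝ)) (by norm_num) (by norm_num)).const_mul
      (B * (2 * r) ^ j * (j.factorial : ℝ))
    simpa using this
  have := ge_of_tendsto' hlim key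
  exact norm_le_zero_iff.1 this

/-- PROOF. Enlarge `r` so that `r > 0` and `B ≥ 0`. Claim: if `t₀ ∈ [0,1]` and `f j t₀ = 0` for all `j`, then `f j t = 0` for all `j` and all `t ∈ [t₀, min 1 (t₀ + 1/(4 r))]`. Indeed by Taylor's formula (induction on
`m`: `‖f j t‖ ≤ sup_{s ∈ [t₀,t]} ‖f (j+m) s‖ * (t - t₀)^m / m!`, from `f j t = ∫_{t₀}^t f (j+1)`, or `norm_image_sub_le_of_norm_deriv_le_segment`-type lemmas;
simplest is the cruder induction on `m`: for all `j` and `t ∈ [t₀, t₁]`, `‖f j t‖ ≤ B r^(j+m) (j+m)! (t - t₀)^m / m!`, integrating the bound for `f (j+1)`, `m`), and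
`(j+m)! ≤ 2^(j+m) j! m!`, so `‖f j t‖ ≤ B (2r)^j j! (2 r (t - t₀))^m ≤ B (2r)^j j! 2^(-m) → 0`. Iterate finitely many times from `t₀ = 0` (steps of length `1/(4r)`) to reach `1`. -/
theorem flat_vanish (f : ℕ → ℝ → ℂ) (B r : ℝ)
    (hd : ∀ j, ∀ t ∈ Icc (0:ℝ) 1, HasDerivAt (f j) (f (j + 1) t) t) (h0 : ∀ j, f j 0 = 0)
    (hb : ∀ j, ∀ t ∈ Icc (0:ℝ) 1, ‖f j t‖ ≤ B * r ^ j * (j.factorial : ℝ)) :
    f 0 1 = 0 := by
  set R : ℝ := |r| + 1 with hR
  have hRpos : 0 < R := by positivity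
  have hb' : ∀ j, ∀ t ∈ Icc (0:ℝ) 1, ‖f j t‖ ≤ |B| * R ^ j * (j.factorial : ℝ) := by
    intro j t ht
    refine (hb j t ht).trans ?_
    have h1 : B * r ^ j ≤ |B| * R ^ j := by
      calc B * r ^ j ≤ |B * r ^ j| := le_abs_self _
        _ = |B| * |r| ^ j := by rw [abs_mul, abs_pow]
        _ ≤ |B| * R ^ j := by
            gcongr
            rw [hR]; linarith [abs_nonneg r]
    gcongr
  have key : ∀ n : ℕ, ∀ j, ∀ t ∈ Icc (0:ℝ) (min 1 (n / (4 * R))), f j t = 0 := by
    intro n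
    induction n with
    | zero =>
      intro j t ht
      have h1 : t = 0 := by
        apply le_antisymm _ ht.1
        have := ht.2.trans (min_le_right _ _)
        simpa using this
      rw [h1]; exact h0 j
    | succ n ih =>
      intro j t ht
      set t₀ : ℝ := min 1 (n / (4 * R)) with ht₀
      have h1 : (0:ℝ) ≤ t₀ := by rw [ht₀]; exact le_min zero_le_one (by positivity)
      have h2 : ∀ j, f j t₀ = 0 := fun j => ih j t₀ ⟨h1, le_rfl⟩
      rcases le_total t t₀ with h3 | h3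
      · exact ih j t ⟨ht.1, h3⟩
      · refine D7_zero f |B| R hRpos (abs_nonneg _) hd hb' t₀ (min 1 ((n + 1 : ℕ) / (4 * R))) h1
          (min_le_left _ _) ?_ h2 j t ⟨h3, ht.2⟩
        rw [ht₀]
        push_cast
        rcases le_total 1 ((n:ℝ) / (4 * R)) with h4 | h4
        · rw [min_eq_left h4]
          exact (min_le_left _ _).trans (by linarith [show (0:ℝ) ≤ 1 / (4 * R) by positivity])
        · rw [min_eq_right h4]
          refine (min_le_right _ _).trans (le_of_eq ?_)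
          ring
  obtain ⟨n, hn⟩ := exists_nat_ge (4 * R)
  refine key n 0 1 ⟨zero_le_one, le_min le_rfl ?_⟩
  rw [le_div_iff₀ (by positivity)]
  linarith

end Pool.Agent.RG
end

section

/-!
# E2a: `Θ` is continuously differentiable; the cutoff and the vector fields
-/

namespace Pool.Agent.RG

open MeasureTheory Topology Filter Set

universe u v

variable {G : Type u} [Group G] [TopologicalSpace G] {d : ℕ} {c : Core G d}

/-- PROOF. `ad (ex (-s • 0)) = ad 1 = id`. -/
theorem Th_zero (hc : IsCore c) : c.Th 0 = ContinuousLinearMap.id ℝ (Ed d) := by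
  unfold Core.Th
  have h : ∀ s : ℝ, c.ad (c.ex (-s • (0 : Ed d))) = ContinuousLinearMap.id ℝ (Ed d) := by
    intro s
    rw [smul_zero, hc.ex_zero, hc.ad_one]
  simp_rw [h]
  rw [intervalIntegral.integral_const, sub_zero, one_smul]

private theorem E2a_norm {X F : Type*} [TopologicalSpace X] [NormedAddCommGroup F] {f : X → F}
    (hf : Continuous f) : Continuous fun p => ‖f p‖ := hf.norm

/-- PROOF. `g Y = ad (ex Y)` is `C²` (`hc.ad_ex`), `Th Y = ∫_0^1 g (-s Y) ds`. Differentiate under the integral: `hasFDerivAt_integral_of_dominated_of_fderiv_le` on a ball (derivative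
`H ↦ -s • g'(-s Y) H`, continuous in `(s,Y)`, so bounded for `s ∈ [0,1]` and `Y` in a compact ball), the derivative `Y ↦ ∫_0^1 -s • g'(-sY) ds` is continuous
(`intervalIntegral.continuous_parametric_intervalIntegral_of_continuous`), so `contDiff_one_iff_fderiv`. -/
theorem Th_contDiff (hc : IsCore c) : ContDiff ℝ 1 c.Th := by
  obtain ⟨g, hg⟩ : ∃ g : Ed d → (Ed d →L[ℝ] Ed d), g = fun Y => c.ad (c.ex Y) := ⟨_, rfl⟩
  have hg2 : ContDiff ℝ 2 g := by rw [hg]; exact hc.ad_ex
  have hTh : c.Th = fun Y => ∫ s in (0 : ℝ)..1, g (-s • Y) := by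
    funext Y
    rw [hg]
    rfl
  have hgd : Differentiable ℝ g := hg2.differentiable (by norm_num)
  have hg' : Continuous (fderiv ℝ g) := hg2.continuous_fderiv (by norm_num)
  obtain ⟨D, hD⟩ : ∃ D : Ed d → ℝ → (Ed d →L[ℝ] (Ed d →L[ℝ] Ed d)),
      D = fun Y s => -s • fderiv ℝ g (-s • Y) := ⟨_, rfl⟩
  have hDc : Continuous (Function.uncurry D) := by
    rw [hD]
    have h1 : Continuous fun p : Ed d × ℝ => -p.2 • p.1 := by fun_prop
    exact (continuous_snd.neg).smul (hg'.comp h1)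
  have hderiv : ∀ Y : Ed d, HasFDerivAt c.Th (∫ s in (0 : ℝ)..1, D Y s) Y := by
    intro Y
    rw [hTh]
    obtain ⟨C, hC⟩ : ∃ C : ℝ, ∀ p ∈ Metric.closedBall Y 1 ×ˢ Icc (0 : ℝ) 1,
        ‖Function.uncurry D p‖ ≤ C := by
      have hn : Continuous fun p : Ed d × ℝ => ‖Function.uncurry D p‖ :=
        E2a_norm (F := Ed d →L[ℝ] (Ed d →L[ℝ] Ed d)) hDc
      obtain ⟨C, hC⟩ := (((isCompact_closedBall Y 1).prod
        (isCompact_Icc (a := (0 : ℝ)) (b := 1))).image hn).bddAbove
      exact ⟨C, fun p hp => hC ⟨p, hp, rfl⟩⟩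
    refine intervalIntegral.hasFDerivAt_integral_of_dominated_of_fderiv_le (bound := fun _ => C)
      (Metric.closedBall_mem_nhds Y one_pos) ?_ ?_ ?_ ?_ ?_ ?_
    · refine Filter.Eventually.of_forall fun x => ?_
      have : Continuous fun s : ℝ => g (-s • x) := hg2.continuous.comp (by fun_prop)
      exact this.aestronglyMeasurable
    · have : Continuous fun s : ℝ => g (-s • Y) := hg2.continuous.comp (by fun_prop)
      exact this.intervalIntegrable _ _
    · have : Continuous fun s : ℝ => D Y s :=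
        hDc.comp (continuous_const.prodMk continuous_id : Continuous fun s : ℝ => (Y, s))
      exact this.aestronglyMeasurable
    · refine Filter.Eventually.of_forall fun s hs x hx => ?_
      rw [uIoc_of_le zero_le_one] at hs
      exact hC (x, s) ⟨hx, ⟨hs.1.le, hs.2⟩⟩
    · exact intervalIntegrable_const
    · refine Filter.Eventually.of_forall fun s _ x _ => ?_
      have h1 : HasFDerivAt (fun x : Ed d => -s • x) (-s • ContinuousLinearMap.id ℝ (Ed d)) x :=
        (hasFDerivAt_id x).const_smul (-s)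
      have h2 := (hgd (-s • x)).hasFDerivAt.comp x h1
      refine h2.congr_fderiv ?_
      rw [hD]
      ext H K : 2
      simp
  rw [contDiff_one_iff_hasFDerivAt]
  refine ⟨fun Y => ∫ s in (0 : ℝ)..1, D Y s, ?_, hderiv⟩
  exact intervalIntegral.continuous_parametric_intervalIntegral_of_continuous' hDc 0 1

end Pool.Agent.RG
end

section

/-!
# E2b: `Θ` is continuously differentiable; the cutoff and the vector fields
-/

namespace Pool.Agent.RG

open MeasureTheory Topology Filter Set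

universe u v

variable {G : Type u} [Group G] [TopologicalSpace G] {d : ℕ} {c : Core G d}

private theorem E2b_sum {d : ℕ} (v : Ed d) : ∑ j, v j • (eb j : Ed d) = v := by
  have h := (EuclideanSpace.basisFun (Fin d) ℝ).sum_repr v
  simpa [eb, EuclideanSpace.basisFun_apply, EuclideanSpace.basisFun_repr] using h

private theorem E2b_eb {d : ℕ} (i j : Fin d) : (eb i : Ed d) j = if i = j then 1 else 0 := by
  unfold eb
  rw [EuclideanSpace.single_apply]
  by_cases h : i = j
  · rw [if_pos h, if_pos h.symm]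
  · rw [if_neg h, if_neg fun h' => h h'.symm]

/-- PROOF. `Th` is continuous and `Th 0 = id`, so there is `r ∈ (0,1)` such that `Th Y` is invertible for `‖Y‖ ≤ r` (units are open, `ContinuousLinearMap.inverse`, `Ring.inverse`;
in coordinates: the matrix of `Th Y` has determinant near `1`). On the open ball of radius `r` the inverse `W Y = (Th Y)⁻¹` is `C¹` (`contDiffAt_map_inverse` / `contDiffAt_ringInverse`). Let `χ` be a
smooth bump function (`ContDiffBump`) with `χ = 1` on the ball of radius `r/4` and support in the closed ball of radius `r/2` (`0 ≤ χ ≤ 1`). Put `κ i j Y = χ Y * (W Y (eb i)) j` for `‖Y‖ < r`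
(and `0` otherwise; since `χ` vanishes for `‖Y‖ ≥ r/2` this is `C¹` everywhere: `contDiff_iff_contDiffAt`, near a point of norm `< r` use the formula, near a point of norm `> r/2` it vanishes).
`κ_eq`: `Σ_j κ i j Y • Th Y (eb j) = χ Y • Th Y (W Y (eb i)) = χ Y • eb i`. `κ_lip`: `κ i j Y - δ_ij χ Y = χ Y * ((W Y (eb i)) j - (W 0 (eb i)) j)`, and the `C¹` function `W` is Lipschitz on
the closed ball of radius `r/2` (convex compact: bounded derivative), so this is at most `C ‖Y‖`. -/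
theorem exists_cut (hc : IsCore c) : ∃ (χ : Ed d → ℝ) (κ : Fin d → Fin d → Ed d → ℝ),
    IsCut c χ κ := by
  obtain ⟨W, hW⟩ : ∃ W : Ed d → (Ed d →L[ℝ] Ed d), W = fun Y => Ring.inverse (c.Th Y) := ⟨_, rfl⟩
  have hT := Th_contDiff hc
  have h0 : IsUnit (c.Th 0) := by
    rw [Th_zero hc]
    exact isUnit_one
  have hopen : IsOpen {Y : Ed d | IsUnit (c.Th Y)} :=
    Units.isOpen.preimage hT.continuous
  obtain ⟨r₀, hr₀, hball⟩ := Metric.isOpen_iff.1 hopen 0 h0
  obtain ⟨r, hr, hr1, hrr⟩ : ∃ r : ℝ, 0 < r ∧ r < 1 ∧ r ≤ r₀ :=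
    ⟨min r₀ (1 / 2), lt_min hr₀ (by norm_num), (min_le_right _ _).trans_lt (by norm_num),
      min_le_left _ _⟩
  have hunit : ∀ Y : Ed d, ‖Y‖ < r → IsUnit (c.Th Y) := by
    intro Y hY
    apply hball
    rw [mem_ball_zero_iff]
    exact hY.trans_le hrr
  have hWd : ∀ Y : Ed d, ‖Y‖ < r → ContDiffAt ℝ 1 W Y := by
    intro Y hY
    obtain ⟨x, hx⟩ := hunit Y hY
    rw [hW]
    have h1 : ContDiffAt ℝ 1 Ring.inverse (c.Th Y) := by
      rw [← hx]
      exact contDiffAt_ringInverse ℝ x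
    exact h1.comp Y hT.contDiffAt
  obtain ⟨f, hf⟩ : ∃ f : ContDiffBump (0 : Ed d), f = ⟨r / 4, r / 2, by positivity, by linarith⟩ :=
    ⟨_, rfl⟩
  have hf1 : f.rIn = r / 4 := by rw [hf]
  have hf2 : f.rOut = r / 2 := by rw [hf]
  have hzero : ∀ Y : Ed d, r / 2 ≤ ‖Y‖ → f Y = 0 := by
    intro Y hY
    apply f.zero_of_le_dist
    rw [hf2, dist_zero_right]
    exact hY
  obtain ⟨κ, hκ⟩ : ∃ κ : Fin d → Fin d → Ed d → ℝ, κ = fun i j Y => f Y * (W Y (eb i)) j :=
    ⟨_, rfl⟩
  have hκ' : ∀ i j Y, κ i j Y = f Y * (W Y (eb i)) j := by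
    intro i j Y
    rw [hκ]
  have hκs : ∀ i j, ContDiff ℝ 1 (κ i j) := by
    intro i j
    rw [contDiff_iff_contDiffAt]
    intro Y
    by_cases hY : ‖Y‖ < r
    · have h1 : ContDiffAt ℝ 1 (fun Y => (EuclideanSpace.proj j : Ed d →L[ℝ] ℝ) (W Y (eb i))) Y :=
        (EuclideanSpace.proj j : Ed d →L[ℝ] ℝ).contDiff.contDiffAt.comp Y
          ((hWd Y hY).clm_apply contDiffAt_const)
      have h2 : ContDiffAt ℝ 1 (fun Y => f Y * (EuclideanSpace.proj j : Ed d →L[ℝ] ℝ) (W Y (eb i))) Y :=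
        f.contDiff.contDiffAt.mul h1
      have h3 : κ i j = fun Y => f Y * (EuclideanSpace.proj j : Ed d →L[ℝ] ℝ) (W Y (eb i)) := by
        funext Y
        rw [hκ']
        rfl
      rw [h3]
      exact h2
    · have h1 : ∀ᶠ Y' in 𝓝 Y, r / 2 < ‖Y'‖ := by
        have h2 : r / 2 < ‖Y‖ := by linarith
        exact (isOpen_lt continuous_const continuous_norm).mem_nhds h2
      have h3 : κ i j =ᶠ[𝓝 Y] fun _ => 0 := by
        filter_upwards [h1] with Y' hY'
        rw [hκ', hzero Y' hY'.le, zero_mul]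
      exact contDiffAt_const.congr_of_eventuallyEq h3
  have hκz : ∀ i j Y, 1 ≤ ‖Y‖ → κ i j Y = 0 := by
    intro i j Y hY
    rw [hκ', hzero Y (by linarith), zero_mul]
  have hfz : ∀ Y : Ed d, 1 ≤ ‖Y‖ → f Y = 0 := fun Y hY => hzero Y (by linarith)
  have hlip : ∀ i j, ∃ C : ℝ, 0 ≤ C ∧ ∀ Y, |κ i j Y - (if i = j then f Y else 0)| ≤ C * ‖Y‖ := by
    intro i j
    obtain ⟨F, hF⟩ : ∃ F : Ed d → ℝ, F = fun Y => κ i j Y - (if i = j then f Y else 0) := ⟨_, rfl⟩
    have hFd : ContDiff ℝ 1 F := by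
      rw [hF]
      by_cases hij : i = j
      · simp only [hij, if_true]
        exact (hκs j j).sub f.contDiff
      · simp only [hij, if_false]
        exact (hκs i j).sub contDiff_const
    have hFs : HasCompactSupport F := by
      refine HasCompactSupport.intro (isCompact_closedBall (0 : Ed d) 1) fun Y hY => ?_
      rw [mem_closedBall_zero_iff, not_le] at hY
      rw [hF]
      simp only []
      rw [hκz i j Y hY.le, hfz Y hY.le]
      split_ifs <;> simp
    obtain ⟨C, hC⟩ := hFd.lipschitzWith_of_hasCompactSupport hFs (by norm_num)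
    have hF0 : F 0 = 0 := by
      rw [hF]
      simp only []
      have h1 : W 0 = 1 := by
        rw [hW]
        simp only []
        rw [Th_zero hc]
        exact Ring.inverse_one _
      rw [hκ', h1]
      have h2 : ((1 : Ed d →L[ℝ] Ed d) (eb i)) j = if i = j then 1 else 0 := E2b_eb i j
      rw [h2]
      split_ifs <;> simp
    refine ⟨C, C.2, fun Y => ?_⟩
    have h1 := hC.dist_le_mul Y 0
    rw [hF0, dist_zero_right, dist_zero_right, Real.norm_eq_abs, hF] at h1
    exact h1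
  choose C hC0 hC using hlip
  refine ⟨f, κ, ?_⟩
  exact
    { χ_smooth := f.contDiff
      χ_supp := hfz
      χ_one := ⟨r / 4, by positivity, fun Y hY => f.one_of_mem_closedBall (by
        rw [mem_closedBall_zero_iff, hf1]
        exact hY)⟩
      χ_nonneg := fun Y => f.nonneg
      χ_le := fun Y => f.le_one
      κ_smooth := hκs
      κ_supp := hκz
      κ_eq := by
        intro i Y
        by_cases hY : ‖Y‖ < r
        · have h1 : c.Th Y (W Y (eb i)) = eb i := by
            have h2 : c.Th Y * W Y = 1 := by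
              rw [hW]
              exact Ring.mul_inverse_cancel _ (hunit Y hY)
            have h3 := congrArg (fun T : Ed d →L[ℝ] Ed d => T (eb i)) h2
            exact h3
          calc ∑ j, κ i j Y • c.Th Y (eb j)
              = ∑ j, f Y • ((W Y (eb i)) j • c.Th Y (eb j)) :=
                Finset.sum_congr rfl fun j _ => by rw [hκ', mul_smul]
            _ = f Y • ∑ j, c.Th Y ((W Y (eb i)) j • eb j) := by
                rw [Finset.smul_sum]
                refine Finset.sum_congr rfl fun j _ => ?_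
                rw [map_smul]
            _ = f Y • c.Th Y (∑ j, (W Y (eb i)) j • eb j) := by rw [map_sum]
            _ = f Y • eb i := by rw [E2b_sum, h1]
        · have h1 : f Y = 0 := hzero Y (by linarith)
          rw [h1, zero_smul]
          refine Finset.sum_eq_zero fun j _ => ?_
          rw [hκ', h1, zero_mul, zero_smul]
      κ_lip := by
        refine ⟨∑ i, ∑ j, C i j, fun i j Y => ?_⟩
        refine (hC i j Y).trans (mul_le_mul_of_nonneg_right ?_ (norm_nonneg _))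
        have h1 : C i j ≤ ∑ j, C i j :=
          Finset.single_le_sum (f := fun j => C i j) (fun j _ => hC0 i j) (Finset.mem_univ j)
        have h2 : ∑ j, C i j ≤ ∑ i, ∑ j, C i j :=
          Finset.single_le_sum (f := fun i => ∑ j, C i j)
            (fun i _ => Finset.sum_nonneg fun j _ => hC0 i j) (Finset.mem_univ i)
        exact h1.trans h2 }

end Pool.Agent.RG
end

section

/-! E2: `Θ` is continuously differentiable; the cutoff and the vector fields -/
end
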