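import Pool.Agent.Lib.MP_496a9e_al.Mg.G005

section

/-!
# D5: the projections to the eigenspaces extend to the Banach space
-/

namespace Pool.Agent.RG

open MeasureTheory Topology Filter Set

universe u v

variable {G : Type u} [Group G] [TopologicalSpace G] {d : ℕ} {c : Core G d} {A A₁ : ℕ}
  {V E I : Type v} {H : Type u} [AddCommGroup V] [Module ℂ V] [NormedAddCommGroup E]
  [NormedSpace ℂ E] [CompleteSpace E] [NormedAddCommGroup H] [InnerProductSpace ℂ H]
  [CompleteSpace H] {L : Ed d →ₗ[ℝ] (V →ₗ[ℂ] V)} {act : G → V →ₗ[ℂ] V} {π : G → E →L[ℂ] E}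
  {ι : V →ₗ[ℂ] E} {J : I → E →L[ℂ] H}

/-- Skew-symmetry for each member of the family.
PROOF. Apply `Cal.ksk` to the bundled data `⟨V, E, H, π, L, ι, J i, ...⟩`. -/
theorem fam_ksk (hc : IsCore c) (hG : IsGl c A₁ L act π ι) (hJ : IsFam c A π ι J) (i : I) :
    Ksk c L ((J i).toLinearMap.comp ι) :=
  Cal.ksk hc ({ V := V, E := E, H := H, π := π, L := L, ι := ι, J := J i, one := hG.rp.one,
                mul := hG.rp.mul, cont := hG.rp.cont, der := hG.der, temp := hJ.tp i } :
                Cal.{u, v} c A)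

/-- On a finite dimensional subspace the norm is bounded by the seminorms. -/
private theorem D5_bound (hJ : IsFam c A π ι J) (W : Submodule ℂ V) [FiniteDimensional ℂ W] :
    ∃ C : ℝ, 0 ≤ C ∧ ∀ w ∈ W, ∀ b : ℝ, 0 ≤ b → (∀ i, ‖J i (ι w)‖ ≤ b) → ‖ι w‖ ≤ C * b := by
  classical
  have hfin : FiniteDimensional ℂ (W.map ι) := inferInstance
  let T : I → (W.map ι) →ₗ[ℂ] H := fun i => (J i).toLinearMap.comp (W.map ι).subtype
  let N : Finset I → Submodule ℂ (W.map ι) := fun s => ⨅ i ∈ s, LinearMap.ker (T i)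
  obtain ⟨M', ⟨s, rfl⟩, hmin⟩ := IsArtinian.set_has_minimal (Set.range N) ⟨_, ⟨∅, rfl⟩⟩
  have hle : ∀ i, N s ≤ LinearMap.ker (T i) := by
    intro i
    have h1 : N (insert i s) ≤ N s := by
      refine le_iInf₂ fun j hj => ?_
      exact iInf₂_le j (Finset.mem_insert_of_mem hj)
    have h2 : ¬ N (insert i s) < N s := hmin _ ⟨_, rfl⟩
    have h3 : N (insert i s) = N s := by
      by_contra hne
      exact h2 (lt_of_le_of_ne h1 hne)
    rw [← h3]
    exact iInf₂_le i (Finset.mem_insert_self i s)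
  have hbot : N s = ⊥ := by
    rw [eq_bot_iff]
    intro x hx
    obtain ⟨v, hv, hvx⟩ := (Submodule.mem_map).1 x.2
    have h0 : v = 0 := by
      refine hJ.sep v fun i => ?_
      have := hle i hx
      rw [LinearMap.mem_ker] at this
      rw [hvx]
      exact this
    rw [Submodule.mem_bot]
    ext
    rw [← hvx, h0, map_zero]
    rfl
  let Φ : (W.map ι) →ₗ[ℂ] (s → H) := LinearMap.pi fun i => T i.1
  have hker : LinearMap.ker Φ = ⊥ := by
    rw [eq_bot_iff, ← hbot]
    intro x hx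
    simp only [N, Submodule.mem_iInf, LinearMap.mem_ker]
    intro i hi
    exact congrFun (LinearMap.mem_ker.1 hx) ⟨i, hi⟩
  obtain ⟨K, -, hK⟩ := Φ.exists_antilipschitzWith hker
  refine ⟨K, K.2, fun w hw b hb hbd => ?_⟩
  have h1 := hK.le_mul_dist (⟨ι w, Submodule.mem_map_of_mem hw⟩ : W.map ι) 0
  rw [map_zero, dist_zero_right, dist_zero_right] at h1
  have h2 : ‖Φ ⟨ι w, Submodule.mem_map_of_mem hw⟩‖ ≤ b := by
    rw [pi_norm_le_iff_of_nonneg hb]
    intro i
    exact hbd i.1
  calc ‖ι w‖ = ‖(⟨ι w, Submodule.mem_map_of_mem hw⟩ : W.map ι)‖ := rfl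
    _ ≤ K * ‖Φ ⟨ι w, Submodule.mem_map_of_mem hw⟩‖ := h1
    _ ≤ K * b := by gcongr

private theorem D5_one (hc : IsCore c) (hM : IsMd c L act) (hG : IsGl c A₁ L act π ι)
    (hJ : IsFam c A π ι J) (R : ℝ) : ∃ F : E →ₗ[ℂ] V,
      (∀ e, F e ∈ Vle (casK c L) R) ∧ (∀ v ∈ Vle (casK c L) R, F (ι v) = v) ∧
      (∀ v ∈ Vgt (casK c L) R, F (ι v) = 0) ∧ Continuous fun e => ι (F e) := by
  have hfd := hM.fin R
  have hcomp := isCompl_Vle (c := c) (L := L) hM.top R
  obtain ⟨C, hC, hb⟩ := D5_bound (c := c) (A := A) (π := π) hJ (Vle (casK c L) R)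
  obtain ⟨B, hB⟩ := hJ.bd
  let P : V →ₗ[ℂ] Vle (casK c L) R := Submodule.projectionOnto _ _ hcomp
  have hfin : FiniteDimensional ℂ ((Vle (casK c L) R).map ι) := inferInstance
  let eq : Vle (casK c L) R ≃ₗ[ℂ] (Vle (casK c L) R).map ι :=
    Submodule.equivMapOfInjective ι hG.inj (Vle (casK c L) R)
  let f : V →ₗ[ℂ] (Vle (casK c L) R).map ι := eq.toLinearMap.comp P
  have hcoe : ∀ w : Vle (casK c L) R, ((eq w : (Vle (casK c L) R).map ι) : E) = ι w := fun w =>
    Submodule.coe_equivMapOfInjective_apply ι hG.inj _ w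
  have hcs : CompleteSpace ((Vle (casK c L) R).map ι) := FiniteDimensional.complete ℂ _
  have hnorm : ∃ D : ℝ, ∀ v, ‖f v‖ ≤ D * ‖ι v‖ := by
    refine ⟨C * |B|, fun v => ?_⟩
    have h1 : ‖f v‖ = ‖ι (P v : V)‖ := by
      change ‖((eq (P v) : (Vle (casK c L) R).map ι) : E)‖ = _
      rw [hcoe]
    rw [h1, mul_assoc]
    refine hb _ (P v).2 _ (by positivity) fun i => ?_
    have hk := fam_ksk hc hG hJ i
    have hdec : (P v : V) + (v - P v) = v := by abel
    have hgt : v - P v ∈ Vgt (casK c L) R := by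
      have := Submodule.ker_projectionOnto hcomp
      have h2 : v - (P v : V) ∈ LinearMap.ker P := by
        rw [LinearMap.mem_ker, map_sub]
        have h3 : P (P v : V) = P v := Submodule.projectionOnto_apply_left hcomp (P v)
        rw [h3, sub_self]
      exact this.le h2
    have h4 := (hk.le_add (P v).2 hgt).1
    rw [hdec] at h4
    calc ‖J i (ι (P v : V))‖ ≤ ‖J i (ι v)‖ := h4
      _ ≤ B * ‖ι v‖ := hB i _
      _ ≤ |B| * ‖ι v‖ := by gcongr; exact le_abs_self B
  let F := f.extendOfNorm ι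
  have hF : ∀ v, F (ι v) = f v := fun v => LinearMap.extendOfNorm_eq hG.dense hnorm v
  refine ⟨(Vle (casK c L) R).subtype.comp (eq.symm.toLinearMap.comp F.toLinearMap), ?_, ?_, ?_, ?_⟩
  · intro e
    exact (eq.symm (F e)).2
  · intro v hv
    change ((eq.symm (F (ι v)) : Vle (casK c L) R) : V) = v
    rw [hF]
    change ((eq.symm (eq (P v)) : Vle (casK c L) R) : V) = v
    rw [LinearEquiv.symm_apply_apply]
    exact congrArg Subtype.val (Submodule.projectionOnto_apply_left hcomp ⟨v, hv⟩)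
  · intro v hv
    change ((eq.symm (F (ι v)) : Vle (casK c L) R) : V) = 0
    rw [hF]
    change ((eq.symm (eq (P v)) : Vle (casK c L) R) : V) = 0
    rw [LinearEquiv.symm_apply_apply]
    have : P v = 0 := Submodule.projectionOnto_apply_right hcomp ⟨v, hv⟩
    rw [this]; rfl
  · have h5 : (fun e => ι ((Vle (casK c L) R).subtype.comp
        (eq.symm.toLinearMap.comp F.toLinearMap) e)) = fun e => ((F e : (Vle (casK c L) R).map ι) : E) := by
      funext e
      change ι ((eq.symm (F e) : Vle (casK c L) R) : V) = _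
      rw [← hcoe, LinearEquiv.apply_symm_apply]
    rw [h5]
    exact continuous_subtype_val.comp F.continuous

/-- EXISTENCE OF THE PROJECTIONS.
PROOF. Fix `R`. Let `P : V → V` be the projection to `Vle R` along `Vgt R` (`isCompl_Vle hM.top R`, `Submodule.linearProjOfIsCompl`). For each `i` and `v`,
`‖J i (ι (P v))‖ ≤ ‖J i (ι v)‖ ≤ B ‖ι v‖` (`Ksk.le_add`, `hJ.bd`). On the finite dimensional space `Vle R` (`hM.fin`) the seminorm
`N w = sup_i ‖J i (ι w)‖` (bounded by `B ‖ι w‖`) is a norm (`hJ.sep`), so `‖ι w‖ ≤ C_R N w` on `Vle R`. [To avoid norms on a subspace: the map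
`w ↦ (J i (ι w))_i` is injective on the finite dimensional `Vle R`; by compactness of the unit sphere of `ι (Vle R)` (a finite dimensional subspace of `E`) the
lower semicontinuous function `sup_i ‖J i e‖`, which is even Lipschitz, has a positive minimum.] Hence `‖ι (P v)‖ ≤ C_R B ‖ι v‖`.
So `ι (V) → E, ι v ↦ ι (P v)` is well defined, linear and bounded, and extends to a continuous linear map `F : E → E`
(`LinearMap.extend`-type construction: `ContinuousLinearMap.extend`, or `LinearMap.extendOfNorm`, along the dense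
range of `ι`; injectivity of `ι` makes it well defined). Its values lie in the closure of `ι (Vle R)`, which is finite dimensional, hence closed; so
`F e = ι w` for a unique `w ∈ Vle R`; put `PV R e = w` (linear by injectivity of `ι`). -/
theorem exists_PV (hc : IsCore c) (hM : IsMd c L act) (hG : IsGl c A₁ L act π ι)
    (hJ : IsFam c A π ι J) : ∃ PV : ℝ → E →ₗ[ℂ] V, IsPV c L ι PV := by
  choose PV h1 h2 h3 h4 using fun R => D5_one hc hM hG hJ R
  exact ⟨PV, ⟨h1, h2, h3, h4⟩⟩

end Pool.Agent.RG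
end

section

/-!
# D9: the endomorphisms of the module
-/

namespace Pool.Agent.RG

open MeasureTheory Topology Filter Set

universe u v

/-- `T` commutes with the Lie algebra and with `K`. -/
def IsEnd {G : Type u} {d : ℕ} (c : Core G d) {V : Type v} [AddCommGroup V] [Module ℂ V]
    (L : Ed d →ₗ[ℝ] (V →ₗ[ℂ] V)) (act : G → V →ₗ[ℂ] V) (T : V →ₗ[ℂ] V) : Prop :=
  (∀ (Y : Ed d) (v : V), T (L Y v) = L Y (T v)) ∧ ∀ k ∈ c.K, ∀ v : V, T (act k v) = act k (T v)

variable {G : Type u} [Group G] {d : ℕ} {c : Core G d} {V : Type v} [AddCommGroup V] [Module ℂ V]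
  {L : Ed d →ₗ[ℝ] (V →ₗ[ℂ] V)} {act : G → V →ₗ[ℂ] V}

/-- The endomorphisms as a submodule. -/
private def D9_sub (c : Core G d) (L : Ed d →ₗ[ℝ] (V →ₗ[ℂ] V)) (act : G → V →ₗ[ℂ] V) :
    Submodule ℂ (V →ₗ[ℂ] V) where
  carrier := {T | IsEnd c L act T}
  add_mem' := by
    intro T T' h h'
    refine ⟨fun Y v => ?_, fun k hk v => ?_⟩
    · rw [LinearMap.add_apply, LinearMap.add_apply, h.1, h'.1, map_add]
    · rw [LinearMap.add_apply, LinearMap.add_apply, h.2 k hk, h'.2 k hk, map_add]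
  zero_mem' := ⟨fun Y v => by simp, fun k hk v => by simp⟩
  smul_mem' := by
    intro a T h
    refine ⟨fun Y v => ?_, fun k hk v => ?_⟩
    · rw [LinearMap.smul_apply, LinearMap.smul_apply, h.1, map_smul]
    · rw [LinearMap.smul_apply, LinearMap.smul_apply, h.2 k hk, map_smul]

private theorem D9_cas {T : V →ₗ[ℂ] V} (h : IsEnd c L act T) (v : V) :
    T (casK c L v) = casK c L (T v) := by
  simp only [casK, LinearMap.neg_apply, LinearMap.sum_apply, LinearMap.comp_apply, map_neg,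
    map_sum, h.1]

private theorem D9_radius (hM : IsMd c L act) (s : Finset V) :
    ∃ R₀ : ℝ, 0 ≤ R₀ ∧ ∀ R : ℝ, R₀ ≤ R → ∀ v ∈ s, v ∈ Vle (casK c L) R := by
  classical
  induction s using Finset.induction_on with
  | empty => exact ⟨0, le_rfl, fun R _ v hv => by simp at hv⟩
  | insert a s ha ih =>
    obtain ⟨R₁, h1, h2⟩ := ih
    obtain ⟨R₂, h3, h4⟩ := exists_mem_Vle (c := c) (L := L) hM.top a
    refine ⟨max R₁ R₂, le_max_of_le_left h1, fun R hR v hv => ?_⟩
    rw [Finset.mem_insert] at hv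
    rcases hv with rfl | hv
    · exact h4 R ((le_max_right _ _).trans hR)
    · exact h2 R ((le_max_left _ _).trans hR) v hv

/-- The endomorphisms of a finitely generated admissible module form a finite dimensional space.
PROOF. Let `s` be the finite generating set, `R` with `s ⊂ Vle R` (`exists_mem_Vle hM.top`, monotone). An endomorphism `T` (`IsEnd`) commutes with `casK`, so it maps `Vle R` to itself (`map_Vle`); if `T` vanishes on `Vle R` then its kernel is a submodule stable under `L Y` that contains `s`, so `T = 0`. So the space `E` of endomorphisms embeds linearly in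
`Vle R →ₗ Vle R`, finite dimensional (`hM.fin`). Take a basis of `E` indexed by `Fin m` and add `id` at index `0` (`Fin.cons`). -/
theorem exists_zeta (hM : IsMd c L act)
    (hfg : ∃ s : Finset V, ∀ U : Submodule ℂ V, (∀ v ∈ s, v ∈ U) →
      (∀ (Y : Ed d), ∀ u ∈ U, L Y u ∈ U) → U = ⊤) :
    ∃ (m : ℕ) (ζ : Fin (m + 1) → V →ₗ[ℂ] V), ζ 0 = LinearMap.id ∧
      (∀ a, IsEnd c L act (ζ a)) ∧
      ∀ T, IsEnd c L act T → ∃ α : Fin (m + 1) → ℂ, T = ∑ a, α a • ζ a := by
  classical
  obtain ⟨s, hs⟩ := hfg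
  obtain ⟨R, hR0, hR⟩ := D9_radius hM s
  have hsR := hR R le_rfl
  let W : Submodule ℂ V := Vle (casK c L) R
  haveI : FiniteDimensional ℂ W := hM.fin R
  let E : Submodule ℂ (V →ₗ[ℂ] V) := D9_sub c L act
  have hmem : ∀ T : E, ∀ w : W, (T : V →ₗ[ℂ] V) (w : V) ∈ W := by
    intro T w
    exact map_Vle (fun v => D9_cas (T.2 : IsEnd c L act (T : V →ₗ[ℂ] V)) v) w.2
  let Φ : E →ₗ[ℂ] (W →ₗ[ℂ] W) :=
    { toFun := fun T => ((T : V →ₗ[ℂ] V).domRestrict W).codRestrict W (fun w => hmem T w)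
      map_add' := by
        intro T T'
        ext w
        rfl
      map_smul' := by
        intro a T
        ext w
        rfl }
  have hΦ : Function.Injective Φ := by
    rw [← LinearMap.ker_eq_bot, LinearMap.ker_eq_bot']
    intro T hT
    have hT0 : ∀ w ∈ W, (T : V →ₗ[ℂ] V) w = 0 := by
      intro w hw
      have h1 : Φ T ⟨w, hw⟩ = 0 := by rw [hT]; rfl
      exact congrArg Subtype.val h1
    have hend : IsEnd c L act (T : V →ₗ[ℂ] V) := T.2
    have htop := hs (LinearMap.ker (T : V →ₗ[ℂ] V))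
      (fun v hv => by rw [LinearMap.mem_ker]; exact hT0 v (hsR v hv))
      (fun Y u hu => by
        rw [LinearMap.mem_ker] at hu ⊢
        rw [hend.1, hu, map_zero])
    have h0 : (T : V →ₗ[ℂ] V) = 0 := LinearMap.ker_eq_top.mp htop
    exact Subtype.ext h0
  haveI : FiniteDimensional ℂ E := FiniteDimensional.of_injective Φ hΦ
  let b := Module.finBasis ℂ E
  refine ⟨Module.finrank ℂ E, Fin.cons LinearMap.id (fun i => ((b i : E) : V →ₗ[ℂ] V)), ?_, ?_, ?_⟩
  · rfl
  · intro a
    refine Fin.cases ?_ (fun i => ?_) a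
    · rw [Fin.cons_zero]
      exact ⟨fun Y v => rfl, fun k hk v => rfl⟩
    · rw [Fin.cons_succ]
      exact (b i).2
  · intro T hT
    refine ⟨Fin.cons 0 (fun i => b.repr (⟨T, hT⟩ : E) i), ?_⟩
    rw [Fin.sum_univ_succ]
    simp only [Fin.cons_zero, Fin.cons_succ, zero_smul, zero_add]
    have h := b.sum_repr (⟨T, hT⟩ : E)
    have h2 := congrArg (fun x : E => (x : V →ₗ[ℂ] V)) h
    simp only [Submodule.coe_sum, Submodule.coe_smul] at h2
    exact h2.symm

/-- PROOF. Composition. -/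
theorem IsEnd.comp {T T' : V →ₗ[ℂ] V} (h : IsEnd c L act T) (h' : IsEnd c L act T') :
    IsEnd c L act (T.comp T') := by
  refine ⟨fun Y v => ?_, fun k hk v => ?_⟩
  · rw [LinearMap.comp_apply, LinearMap.comp_apply, h'.1, h.1]
  · rw [LinearMap.comp_apply, LinearMap.comp_apply, h'.2 k hk, h.2 k hk]

/-- PROOF. `hM.zL`, `hM.zK`. -/
theorem isEnd_zk (hM : IsMd c L act) (k : ℕ) : IsEnd c L act (zk c L k) :=
  ⟨fun Y v => hM.zL k Y v, fun l hl v => hM.zK k l hl v⟩

end Pool.Agent.RG
end
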