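import Pool.Agent.Lib.MP_496a9e_al.Mg.G007
import Pool.Agent.Lib.MP_496a9e_al.Mg.G009
import Pool.Agent.Lib.MP_496a9e_al.Mg.G011
import Pool.Agent.Lib.MP_496a9e_al.Mg.G010
import Pool.Agent.Lib.MP_496a9e_al.Mg.G012
import Pool.Agent.Lib.MP_496a9e_al.Mg.G016

section

/-! B4: admissibility implies that `Vle R` is finite dimensional -/
end

section

/-!
# C6a: Sobolev inequality
-/

namespace Pool.Agent.RG

open MeasureTheory Topology Filter Set
open scoped ENNReal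

universe u v

private theorem C6a_ftc {a : ℝ} {φ : ℝ → ℂ} {g : ℝ → ℝ} (hφ : Differentiable ℝ φ)
    (hg : Continuous g) (hb : ∀ t ∈ Icc 0 a, ‖deriv φ t‖ ≤ g t) {t u : ℝ} (ht : t ∈ Icc 0 a)
    (hu : u ∈ Icc 0 a) :
    ‖φ u‖ₑ ≤ ‖φ t‖ₑ + ∫⁻ s in Icc 0 a, ENNReal.ofReal (g s) := by
  have hsub : uIoc t u ⊆ Icc 0 a := uIoc_subset_uIcc.trans (uIcc_subset_Icc ht hu)
  have hint : IntegrableOn (deriv φ) (Icc 0 a) := by
    refine Integrable.mono' (g := g) (hg.integrableOn_Icc)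
      (measurable_deriv φ).aestronglyMeasurable ?_
    exact (ae_restrict_iff' measurableSet_Icc).mpr (Filter.Eventually.of_forall hb)
  have h1 : ∫ s in t..u, deriv φ s = φ u - φ t :=
    intervalIntegral.integral_eq_sub_of_hasDerivAt (fun x _ => (hφ x).hasDerivAt)
      (intervalIntegrable_iff.mpr (hint.mono_set hsub))
  have h2 : ‖φ u - φ t‖ₑ ≤ ∫⁻ s in Icc 0 a, ENNReal.ofReal (g s) := by
    rw [← h1]
    calc ‖∫ s in t..u, deriv φ s‖ₑ = ‖∫ s in uIoc t u, deriv φ s‖ₑ := by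
          rw [← ofReal_norm, intervalIntegral.norm_intervalIntegral_eq, ofReal_norm]
      _ ≤ ∫⁻ s in uIoc t u, ‖deriv φ s‖ₑ := enorm_integral_le_lintegral_enorm _
      _ ≤ ∫⁻ s in Icc 0 a, ‖deriv φ s‖ₑ := lintegral_mono_set hsub
      _ ≤ _ := setLIntegral_mono' measurableSet_Icc fun s hs => by
          rw [← ofReal_norm]; exact ENNReal.ofReal_le_ofReal (hb s hs)
  calc ‖φ u‖ₑ = ‖φ t + (φ u - φ t)‖ₑ := by rw [add_sub_cancel]
    _ ≤ ‖φ t‖ₑ + ‖φ u - φ t‖ₑ := enorm_add_le _ _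
    _ ≤ _ := by gcongr

private theorem C6a_avg {a : ℝ} (ha : 0 < a) {φ : ℝ → ℂ} {g : ℝ → ℝ}
    (hφ : Differentiable ℝ φ) (hg : Continuous g) (hb : ∀ t ∈ Icc 0 a, ‖deriv φ t‖ ≤ g t)
    {u : ℝ} (hu : u ∈ Icc 0 a) :
    ‖φ u‖ₑ ≤ ENNReal.ofReal a⁻¹ * (∫⁻ s in Icc 0 a, ‖φ s‖ₑ) +
      ∫⁻ s in Icc 0 a, ENNReal.ofReal (g s) := by
  have h1 : ∫⁻ t in Icc 0 a, ‖φ u‖ₑ ≤
      ∫⁻ t in Icc 0 a, (‖φ t‖ₑ + ∫⁻ s in Icc 0 a, ENNReal.ofReal (g s)) :=
    setLIntegral_mono' measurableSet_Icc fun t ht => C6a_ftc hφ hg hb ht hu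
  rw [setLIntegral_const, Real.volume_Icc, sub_zero, lintegral_add_right _ measurable_const,
    setLIntegral_const, Real.volume_Icc, sub_zero] at h1
  have h2 : ENNReal.ofReal a⁻¹ * ENNReal.ofReal a = 1 := by
    rw [← ENNReal.ofReal_mul (inv_pos.mpr ha).le, inv_mul_cancel₀ ha.ne', ENNReal.ofReal_one]
  calc ‖φ u‖ₑ = ENNReal.ofReal a⁻¹ * (‖φ u‖ₑ * ENNReal.ofReal a) := by
        rw [mul_comm ‖φ u‖ₑ, ← mul_assoc, h2, one_mul]
    _ ≤ ENNReal.ofReal a⁻¹ * ((∫⁻ t in Icc 0 a, ‖φ t‖ₑ) +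
          (∫⁻ s in Icc 0 a, ENNReal.ofReal (g s)) * ENNReal.ofReal a) := by gcongr
    _ = _ := by
        rw [mul_add, mul_comm (∫⁻ s in Icc 0 a, ENNReal.ofReal (g s)), ← mul_assoc, h2, one_mul]

private noncomputable def C6aT {d : ℕ} (F : List (Fin d) → Ed d → ℂ) (k : ℕ)
    (x : Fin d → ℝ) : ℝ≥0∞ :=
  ∑ β : Fin k → Fin d, ‖F (List.ofFn β) (WithLp.toLp 2 x)‖ₑ

private noncomputable def C6aS {d : ℕ} (F : List (Fin d) → Ed d → ℂ) (k : ℕ)
    (x : Fin d → ℝ) : ℝ≥0∞ :=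
  ∑ j ∈ Finset.range (k + 1), C6aT F j x

private theorem C6a_hasDerivAt {d : ℕ} {f : Ed d → ℂ} (hf : Differentiable ℝ f)
    (x : Fin d → ℝ) (i : Fin d) (t : ℝ) :
    HasDerivAt (fun t => f (WithLp.toLp 2 (Function.update x i t)))
      (fderiv ℝ f (WithLp.toLp 2 (Function.update x i t)) (eb i)) t := by
  have h1 : HasDerivAt (fun t => Function.update x i t) (Pi.single i (1 : ℝ)) t :=
    hasDerivAt_update x i t
  have h2 : HasDerivAt (fun t => (WithLp.toLp 2 (Function.update x i t) : Ed d)) (eb i) t := by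
    exact ((PiLp.continuousLinearEquiv 2 ℝ (fun _ : Fin d => ℝ)).symm.hasFDerivAt).comp_hasDerivAt
      t h1
  exact (hf _).hasFDerivAt.comp_hasDerivAt t h2

private theorem C6a_step {d : ℕ} {δ a K : ℝ} (ha : 0 < a)
    (hbox : ∀ x : Fin d → ℝ, (∀ i, x i ∈ Icc 0 a) → ‖(WithLp.toLp 2 x : Ed d)‖ < δ)
    {F : List (Fin d) → Ed d → ℂ} (hF : ∀ β, Differentiable ℝ (F β))
    (hD : ∀ β Y (i : Fin d), ‖Y‖ < δ →
      ‖fderiv ℝ (F β) Y (eb i)‖ ≤ K * ∑ j, ‖F (j :: β) Y‖)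
    {x : Fin d → ℝ} (hx : ∀ i, x i ∈ Icc 0 a) (i : Fin d) (k : ℕ) :
    C6aS F k x ≤ ENNReal.ofReal (a⁻¹ + |K|) *
      ∫⁻ t in Icc 0 a, C6aS F (k + 1) (Function.update x i t) := by
  have hup : ∀ t ∈ Icc 0 a, ∀ l, Function.update x i t l ∈ Icc 0 a := by
    intro t ht l
    rcases eq_or_ne l i with rfl | h
    · rwa [Function.update_self]
    · rw [Function.update_of_ne h]; exact hx l
  have hcl : Continuous fun t : ℝ => (WithLp.toLp 2 (Function.update x i t) : Ed d) :=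
    (PiLp.continuous_toLp 2 _).comp (continuous_const.update i continuous_id)
  have hone : ∀ β, ‖F β (WithLp.toLp 2 x)‖ₑ ≤
      ENNReal.ofReal a⁻¹ * (∫⁻ t in Icc 0 a, ‖F β (WithLp.toLp 2 (Function.update x i t))‖ₑ) +
      ENNReal.ofReal |K| *
        ∫⁻ t in Icc 0 a, ∑ j, ‖F (j :: β) (WithLp.toLp 2 (Function.update x i t))‖ₑ := by
    intro β
    have h1 := C6a_avg ha (φ := fun t => F β (WithLp.toLp 2 (Function.update x i t)))
      (g := fun t => |K| * ∑ j, ‖F (j :: β) (WithLp.toLp 2 (Function.update x i t))‖)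
      (fun t => (C6a_hasDerivAt (hF β) x i t).differentiableAt)
      (continuous_const.mul (continuous_finsetSum _ fun j _ =>
        ((hF (j :: β)).continuous.comp hcl).norm))
      (fun t ht => by
        rw [(C6a_hasDerivAt (hF β) x i t).deriv]
        refine (hD β _ i (hbox _ (hup t ht))).trans ?_
        exact mul_le_mul_of_nonneg_right (le_abs_self K)
          (Finset.sum_nonneg fun j _ => norm_nonneg _)) (hx i)
    simp only [Function.update_eq_self] at h1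
    refine h1.trans (add_le_add le_rfl ?_)
    rw [← lintegral_const_mul' _ _ ENNReal.ofReal_ne_top]
    refine lintegral_mono fun t => ?_
    rw [ENNReal.ofReal_mul (abs_nonneg K), ENNReal.ofReal_sum_of_nonneg fun j _ => norm_nonneg _]
    simp only [ofReal_norm]
    exact le_rfl
  have hmF : ∀ β, Measurable fun t : ℝ =>
      ‖F β (WithLp.toLp 2 (Function.update x i t))‖ₑ := fun β =>
    ((hF β).continuous.comp hcl).measurable.enorm
  have hmT : ∀ j, Measurable fun t : ℝ => C6aT F j (Function.update x i t) := fun j =>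
    Finset.measurable_sum _ fun β _ => hmF _
  have hT : ∀ j, C6aT F j x ≤
      ENNReal.ofReal a⁻¹ * (∫⁻ t in Icc 0 a, C6aT F j (Function.update x i t)) +
      ENNReal.ofReal |K| * (∫⁻ t in Icc 0 a, C6aT F (j + 1) (Function.update x i t)) := by
    intro j
    have h2 : ∀ t, C6aT F (j + 1) (Function.update x i t) =
        ∑ β : Fin j → Fin d, ∑ l, ‖F (l :: List.ofFn β)
          (WithLp.toLp 2 (Function.update x i t))‖ₑ := by
      intro t
      unfold C6aT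
      rw [← (Fin.consEquiv (fun _ : Fin (j + 1) => Fin d)).sum_comp, Fintype.sum_prod_type,
        Finset.sum_comm]
      refine Finset.sum_congr rfl fun β _ => Finset.sum_congr rfl fun l _ => ?_
      rw [List.ofFn_succ]
      simp [Fin.consEquiv]
    calc C6aT F j x ≤ ∑ β : Fin j → Fin d, (ENNReal.ofReal a⁻¹ *
          (∫⁻ t in Icc 0 a, ‖F (List.ofFn β) (WithLp.toLp 2 (Function.update x i t))‖ₑ) +
          ENNReal.ofReal |K| * ∫⁻ t in Icc 0 a,
            ∑ l, ‖F (l :: List.ofFn β) (WithLp.toLp 2 (Function.update x i t))‖ₑ) :=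
          Finset.sum_le_sum fun β _ => hone _
      _ = _ := by
          rw [Finset.sum_add_distrib, ← Finset.mul_sum, ← Finset.mul_sum]
          congr 2
          · rw [← lintegral_finsetSum _ fun β _ => hmF _]
            rfl
          · rw [← lintegral_finsetSum _ fun β _ => Finset.measurable_sum _ fun l _ => hmF _]
            exact lintegral_congr fun t => (h2 t).symm
  have hS : ∀ m t, C6aT F m (Function.update x i t) ≤ C6aS F m (Function.update x i t) :=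
    fun m t => Finset.single_le_sum (f := fun j => C6aT F j (Function.update x i t))
      (fun _ _ => zero_le) (Finset.mem_range.mpr (Nat.lt_succ_self m))
  have hA : ∑ j ∈ Finset.range (k + 1), ∫⁻ t in Icc 0 a, C6aT F j (Function.update x i t) ≤
      ∫⁻ t in Icc 0 a, C6aS F (k + 1) (Function.update x i t) := by
    rw [← lintegral_finsetSum _ fun j _ => hmT j]
    refine lintegral_mono fun t => ?_
    exact Finset.sum_le_sum_of_subset (Finset.range_mono (Nat.le_succ _))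
  have hB : ∑ j ∈ Finset.range (k + 1), ∫⁻ t in Icc 0 a, C6aT F (j + 1) (Function.update x i t) ≤
      ∫⁻ t in Icc 0 a, C6aS F (k + 1) (Function.update x i t) := by
    rw [← lintegral_finsetSum _ fun j _ => hmT (j + 1)]
    refine lintegral_mono fun t => ?_
    show _ ≤ ∑ j ∈ Finset.range (k + 1 + 1), C6aT F j (Function.update x i t)
    rw [Finset.sum_range_succ' _ (k + 1)]
    exact le_self_add
  calc C6aS F k x ≤ ∑ j ∈ Finset.range (k + 1),
        (ENNReal.ofReal a⁻¹ * (∫⁻ t in Icc 0 a, C6aT F j (Function.update x i t)) +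
        ENNReal.ofReal |K| * (∫⁻ t in Icc 0 a, C6aT F (j + 1) (Function.update x i t))) :=
        Finset.sum_le_sum fun j _ => hT j
    _ = ENNReal.ofReal a⁻¹ *
        (∑ j ∈ Finset.range (k + 1), ∫⁻ t in Icc 0 a, C6aT F j (Function.update x i t)) +
        ENNReal.ofReal |K| *
        (∑ j ∈ Finset.range (k + 1),
          ∫⁻ t in Icc 0 a, C6aT F (j + 1) (Function.update x i t)) := by
        rw [Finset.sum_add_distrib, ← Finset.mul_sum, ← Finset.mul_sum]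
    _ ≤ ENNReal.ofReal a⁻¹ * (∫⁻ t in Icc 0 a, C6aS F (k + 1) (Function.update x i t)) +
        ENNReal.ofReal |K| * (∫⁻ t in Icc 0 a, C6aS F (k + 1) (Function.update x i t)) :=
        add_le_add (mul_le_mul_right hA _) (mul_le_mul_right hB _)
    _ = _ := by rw [← add_mul, ← ENNReal.ofReal_add (inv_pos.mpr ha).le (abs_nonneg K)]

private theorem C6a_meas {d : ℕ} {F : List (Fin d) → Ed d → ℂ}
    (hF : ∀ β, Differentiable ℝ (F β)) (k : ℕ) : Measurable (C6aS F k) :=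
  Finset.measurable_sum _ fun j _ => Finset.measurable_sum _ fun β _ =>
    (((hF _).continuous.comp (PiLp.continuous_toLp 2 _)).measurable.enorm)

private theorem C6a_marg {d : ℕ} {δ a K : ℝ} (ha : 0 < a)
    (hbox : ∀ x : Fin d → ℝ, (∀ i, x i ∈ Icc 0 a) → ‖(WithLp.toLp 2 x : Ed d)‖ < δ)
    {F : List (Fin d) → Ed d → ℂ} (hF : ∀ β, Differentiable ℝ (F β))
    (hD : ∀ β Y (i : Fin d), ‖Y‖ < δ →
      ‖fderiv ℝ (F β) Y (eb i)‖ ≤ K * ∑ j, ‖F (j :: β) Y‖) (s : Finset (Fin d)) :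
    ∀ (k : ℕ) (x : Fin d → ℝ), (∀ i, x i ∈ Icc 0 a) →
    C6aS F k x ≤ ENNReal.ofReal (a⁻¹ + |K|) ^ s.card *
      lmarginal (fun _ => volume.restrict (Icc 0 a)) s (C6aS F (k + s.card)) x := by
  classical
  induction s using Finset.induction_on with
  | empty =>
    intro k x hx
    simp
  | insert i s hi ih =>
    intro k x hx
    rw [lmarginal_insert _ (C6a_meas hF _) hi, Finset.card_insert_of_notMem hi]
    have h1 := C6a_step ha hbox hF hD hx i k
    refine h1.trans ?_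
    rw [pow_succ', mul_assoc]
    refine mul_le_mul_right ?_ _
    rw [← lintegral_const_mul' _ _ (ENNReal.pow_ne_top ENNReal.ofReal_ne_top)]
    refine setLIntegral_mono' measurableSet_Icc fun t ht => ?_
    have h2 := ih (k + 1) (Function.update x i t) (by
      intro l
      rcases eq_or_ne l i with rfl | h
      · rwa [Function.update_self]
      · rw [Function.update_of_ne h]; exact hx l)
    rwa [show k + (s.card + 1) = k + 1 + s.card by ring]

/-- SOBOLEV IN `ℝ^d`, `L¹` form. `F β`, `β` a word, are differentiable functions, the derivatives of `F β` are bounded by the functions `F (i :: β)` on the unit ball.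
PROOF. For `0 < a` with `a d ≤ 1`-ish (so that the cube `[0,a]^d` is in the unit ball: `a √d < 1`). One variable: for `φ` differentiable on `[0,a]` with integrable (here bounded measurable, even: `φ'` is bounded by a continuous function) derivative,
`‖φ 0‖ ≤ a⁻¹ ∫_0^a ‖φ‖ + ∫_0^a ‖φ'‖` (average `φ 0 = φ t - ∫_0^t φ'` over `t`). Let `S_k Y = Σ_{|β| ≤ k} ‖F β Y‖` (finite sum, continuous). Claim, by induction on `k ≤ d`: `‖F [] 0‖ ≤ C_k ∫_{[0,a]^k} S_k (t_1 e_1 + ... + t_k e_k) dt`. Step: for fixed `t`, `Y = Σ t_j e_j`, apply the one variable inequality to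
`φ s = F β (Y + s e_{k+1})`, `|β| ≤ k`: `‖φ' s‖ = ‖fderiv (F β) (Y + s e_{k+1}) (e_{k+1})‖ ≤ K Σ_i ‖F (i :: β) (Y + s e_{k+1})‖`; so `S_k Y ≤ C ∫_0^a S_{k+1} (Y + s e_{k+1}) ds`. For `k = d` the right hand side is an integral over the cube `[0,a]^d ⊂ ball 0 1` (use `MeasureTheory.volume_preserving_piFinSuccAbove`, or `lmarginal`,
or do the induction with iterated integrals; `EuclideanSpace.volume_preserving_ofLp`), which is at most the integral over the ball of radius `δ`, if `a` is chosen with `a √d < δ`. -/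
theorem sobolev_l1 {d : ℕ} (δ : ℝ) (hδ : 0 < δ) (K : ℝ) :
    ∃ C : ℝ, 0 ≤ C ∧ ∀ F : List (Fin d) → Ed d → ℂ, (∀ β, Differentiable ℝ (F β)) →
      (∀ β Y (i : Fin d), ‖Y‖ < δ → ‖fderiv ℝ (F β) Y (eb i)‖ ≤ K * ∑ j, ‖F (j :: β) Y‖) →
      ‖F [] 0‖ ≤ C * ∑ k ∈ Finset.range (d + 1), ∑ β : Fin k → Fin d,
        ∫ Y in Metric.ball (0 : Ed d) δ, ‖F (List.ofFn β) Y‖ := by
  set a : ℝ := δ / (d + 1) with ha'
  have hd1 : (0 : ℝ) < d + 1 := by positivity
  have ha : 0 < a := div_pos hδ hd1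
  have had : (d : ℝ) * a < δ := by
    rw [ha', mul_div_assoc', div_lt_iff₀ hd1]
    nlinarith
  have hbox : ∀ x : Fin d → ℝ, (∀ i, x i ∈ Icc 0 a) → ‖(WithLp.toLp 2 x : Ed d)‖ < δ := by
    intro x hx
    refine lt_of_le_of_lt ?_ had
    rw [EuclideanSpace.norm_eq]
    refine Real.sqrt_le_iff.mpr ⟨by positivity, ?_⟩
    have h1 : ∑ i, ‖(WithLp.toLp 2 x : Ed d) i‖ ^ 2 ≤ ∑ _i : Fin d, a ^ 2 := by
      refine Finset.sum_le_sum fun i _ => ?_
      show ‖x i‖ ^ 2 ≤ a ^ 2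
      rw [Real.norm_eq_abs, sq_abs]
      exact pow_le_pow_left₀ (hx i).1 (hx i).2 2
    refine h1.trans ?_
    rw [Finset.sum_const, Finset.card_univ, Fintype.card_fin, nsmul_eq_mul, mul_pow]
    refine mul_le_mul_of_nonneg_right ?_ (sq_nonneg a)
    rcases Nat.eq_zero_or_pos d with h | h
    · subst h; simp
    · have : (1 : ℝ) ≤ d := by exact_mod_cast h
      nlinarith
  refine ⟨(a⁻¹ + |K|) ^ d, by positivity, ?_⟩
  intro F hF hD
  have h0 : ∀ i : Fin d, (0 : Fin d → ℝ) i ∈ Icc 0 a := fun i => ⟨le_rfl, ha.le⟩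
  have hmain := C6a_marg ha hbox hF hD Finset.univ 0 0 h0
  rw [lmarginal_univ, Finset.card_univ, Fintype.card_fin, zero_add] at hmain
  have hS0 : C6aS F 0 0 = ‖F [] 0‖ₑ := by
    unfold C6aS C6aT
    simp
  rw [hS0] at hmain
  have hint : ∀ β, IntegrableOn (F β) (Metric.ball (0 : Ed d) δ) := fun β =>
    ((hF β).continuous.continuousOn.integrableOn_compact
      (isCompact_closedBall (0 : Ed d) δ)).mono_set Metric.ball_subset_closedBall
  have hpi : ∫⁻ x, C6aS F d x ∂(Measure.pi fun _ : Fin d => volume.restrict (Icc 0 a)) ≤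
      ∫⁻ Y in Metric.ball (0 : Ed d) δ, C6aS F d (WithLp.ofLp Y) := by
    have hr : (Measure.pi fun _ : Fin d => (volume : Measure ℝ).restrict (Icc 0 a)) =
        (volume : Measure (Fin d → ℝ)).restrict (Set.univ.pi fun _ => Icc 0 a) := by
      rw [volume_pi, Measure.restrict_pi_pi]
    rw [hr]
    have hvp := PiLp.volume_preserving_toLp (Fin d)
    calc ∫⁻ x in Set.univ.pi fun _ => Icc 0 a, C6aS F d x
        ≤ ∫⁻ x in (WithLp.toLp 2 ⁻¹' (Metric.ball (0 : Ed d) δ)), C6aS F d x := by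
          refine lintegral_mono_set ?_
          intro x hx
          show WithLp.toLp 2 x ∈ Metric.ball (0 : Ed d) δ
          rw [Metric.mem_ball, dist_zero_right]
          exact hbox x fun i => hx i (Set.mem_univ i)
      _ = ∫⁻ Y in Metric.ball (0 : Ed d) δ, C6aS F d (WithLp.ofLp Y) :=
          hvp.setLIntegral_comp_preimage (f := fun Y : Ed d => C6aS F d (WithLp.ofLp Y))
            measurableSet_ball ((C6a_meas hF d).comp (PiLp.continuous_ofLp 2 _).measurable)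
  have hsum : ∫⁻ Y in Metric.ball (0 : Ed d) δ, C6aS F d (WithLp.ofLp Y) =
      ENNReal.ofReal (∑ k ∈ Finset.range (d + 1), ∑ β : Fin k → Fin d,
        ∫ Y in Metric.ball (0 : Ed d) δ, ‖F (List.ofFn β) Y‖) := by
    unfold C6aS C6aT
    simp only [WithLp.toLp_ofLp]
    have hm : ∀ β, Measurable fun Y : Ed d => ‖F β Y‖ₑ := fun β =>
      (hF β).continuous.measurable.enorm
    rw [lintegral_finsetSum _ fun j _ => Finset.measurable_sum _ fun β _ => hm _,
      ENNReal.ofReal_sum_of_nonneg fun j _ => Finset.sum_nonneg fun β _ =>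
        integral_nonneg fun Y => norm_nonneg _]
    refine Finset.sum_congr rfl fun j _ => ?_
    rw [lintegral_finsetSum _ fun β _ => hm _,
      ENNReal.ofReal_sum_of_nonneg fun β _ => integral_nonneg fun Y => norm_nonneg _]
    refine Finset.sum_congr rfl fun β _ => ?_
    exact (ofReal_integral_norm_eq_lintegral_enorm (hint _)).symm
  have hfinal : ‖F [] 0‖ₑ ≤ ENNReal.ofReal ((a⁻¹ + |K|) ^ d *
      ∑ k ∈ Finset.range (d + 1), ∑ β : Fin k → Fin d,
        ∫ Y in Metric.ball (0 : Ed d) δ, ‖F (List.ofFn β) Y‖) := by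
    rw [ENNReal.ofReal_mul (by positivity), ENNReal.ofReal_pow (by positivity), ← hsum]
    exact hmain.trans (mul_le_mul_right hpi _)
  rw [← ofReal_norm] at hfinal
  refine (ENNReal.ofReal_le_ofReal_iff ?_).mp hfinal
  exact mul_nonneg (by positivity) (Finset.sum_nonneg fun k _ => Finset.sum_nonneg fun β _ =>
    integral_nonneg fun Y => norm_nonneg _)

end Pool.Agent.RG
end

section

/-!
# C6b: Sobolev inequality
-/

namespace Pool.Agent.RG

open MeasureTheory Topology Filter Set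
open scoped ENNReal

universe u v

/-- The operator `Θ(Y)` is bounded by `e²` on the unit ball. -/
private theorem C6b_Th {G : Type u} [Group G] [TopologicalSpace G] {d : ℕ} {c : Core G d}
    (hc : IsCore c) {Y : Ed d} (hY : ‖Y‖ ≤ 1) : ‖c.Th Y‖ ≤ Real.exp 2 := by
  unfold Core.Th
  have h := intervalIntegral.norm_integral_le_of_norm_le_const
    (f := fun s : ℝ => c.ad (c.ex (-s • Y))) (a := (0 : ℝ)) (b := 1) (C := Real.exp 2) ?_
  · simpa using h
  · intro s hs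
    rw [Set.uIoc_of_le zero_le_one] at hs
    have h1 : ‖-s • Y‖ ≤ 1 := by
      rw [norm_smul, norm_neg, Real.norm_eq_abs, abs_of_pos hs.1]
      calc s * ‖Y‖ ≤ 1 * 1 := mul_le_mul hs.2 hY (norm_nonneg _) zero_le_one
        _ = 1 := one_mul 1
    have h2 : c.M (c.ex (-s • Y)) ≤ Real.exp 1 :=
      (hc.M_ex _).trans (Real.exp_le_exp.2 h1)
    have h3 : 0 ≤ c.M (c.ex (-s • Y)) := zero_le_one.trans (hc.M_ge _)
    calc ‖c.ad (c.ex (-s • Y))‖ ≤ c.M (c.ex (-s • Y)) ^ 2 := hc.ad_M _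
      _ ≤ Real.exp 1 ^ 2 := pow_le_pow_left₀ h3 h2 2
      _ = Real.exp 2 := by
        rw [← Real.exp_nat_mul]
        norm_num

private theorem C6b_expand {d : ℕ} (y : Ed d) : y = ∑ j, y j • (eb j : Ed d) := by
  have h := (EuclideanSpace.basisFun (Fin d) ℝ).sum_repr y
  conv_lhs => rw [← h]
  refine Finset.sum_congr rfl fun j _ => ?_
  rw [EuclideanSpace.basisFun_repr, EuclideanSpace.basisFun_apply]
  rfl

private theorem C6b_coord {d : ℕ} (y : Ed d) (j : Fin d) : |y j| ≤ ‖y‖ := by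
  have := PiLp.norm_apply_le y j
  rwa [Real.norm_eq_abs] at this

/-- SOBOLEV.
PROOF. Let `δ, C` be from `hJ.loc` (we may assume `δ ≤ 1`). Given `v`, choose `λ`, `‖λ‖ ≤ 1`, `λ (ι v) = ‖ι v‖` (Hahn-Banach, `exists_dual_vector''`). Put `F β Y = λ (π (ex Y) (ι (wd L β v)))`: by `orbit_deriv` it is differentiable and `fderiv F β Y H = λ (π (ex Y) (ι (L (Th Y H) (wd L β v)))) = Σ_j (Th Y H)_j F (j :: β) Y`, and
`|(Th Y (eb i))_j| ≤ K` on the ball of radius `1` (`Th` is continuous, or: `‖ad x‖ ≤ M(x)² ≤ e²`). `sobolev_l1` and Cauchy-Schwarz: `∫_{ball} ‖F β‖ ≤ vol(ball)^(1/2) (∫_{ball} ‖F β‖²)^(1/2) ≤ vol^(1/2) C^(1/2) ‖J λ (ι (wd L β v))‖ ≤ C' S`. The data `(V, E, π, L, ι, J λ)` form a `Cal`. -/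
theorem sobolev {G : Type u} [Group G] [TopologicalSpace G] {d : ℕ} {c : Core G d} {A A₁ : ℕ}
    (hc : IsCore c) {V E : Type v} {H : Type u} [AddCommGroup V] [Module ℂ V]
    [NormedAddCommGroup E] [NormedSpace ℂ E] [CompleteSpace E] [NormedAddCommGroup H]
    [InnerProductSpace ℂ H] [CompleteSpace H] {L : Ed d →ₗ[ℝ] (V →ₗ[ℂ] V)}
    {act : G → V →ₗ[ℂ] V} {π : G → E →L[ℂ] E} {ι : V →ₗ[ℂ] E} (hG : IsGl c A₁ L act π ι)
    {J : (E →L[ℂ] ℂ) → E →L[ℂ] H} (hJ : IsJ c A π J) :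
    ∃ C : ℝ, 0 ≤ C ∧ ∀ (v : V) (S : ℝ),
      (∀ lam : E →L[ℂ] ℂ, ‖lam‖ ≤ 1 → ∀ β : List (Fin d), β.length ≤ d →
        ‖J lam (ι (wd L β v))‖ ≤ S) → ‖ι v‖ ≤ C * S := by
  obtain ⟨δ₀, hδ₀, C₀, hC₀, hloc⟩ := hJ.loc
  set δ : ℝ := min δ₀ 1 with hδdef
  have hδ : 0 < δ := lt_min hδ₀ one_pos
  have hδ1 : δ ≤ 1 := min_le_right _ _
  have hδ₀' : δ ≤ δ₀ := min_le_left _ _
  obtain ⟨C₁, hC₁, hsob⟩ := sobolev_l1 (d := d) δ hδ (Real.exp 2)
  set B : ℝ := (volume.real (Metric.ball (0 : Ed d) δ) + C₀) / 2 with hB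
  have hB0 : 0 ≤ B := by
    have : 0 ≤ volume.real (Metric.ball (0 : Ed d) δ) := measureReal_nonneg
    positivity
  set N : ℝ := ∑ k ∈ Finset.range (d + 1), (Fintype.card (Fin k → Fin d) : ℝ) with hN
  have hN0 : 0 ≤ N := Finset.sum_nonneg fun k _ => Nat.cast_nonneg _
  refine ⟨C₁ * (N * B), by positivity, fun v S hS => ?_⟩
  have hS0 : 0 ≤ S := (norm_nonneg _).trans (hS 0 (by simp) [] (Nat.zero_le _))
  -- the functional
  obtain ⟨lam, hlam, hlamv⟩ := exists_dual_vector'' ℂ (ι v)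
  let R : Cal.{u, v} c A :=
    { V := V, E := E, H := H, π := π, L := L, ι := ι, J := J lam, one := hG.rp.one,
      mul := hG.rp.mul, cont := hG.rp.cont, der := hG.der, temp := hJ.tp lam }
  let F : List (Fin d) → Ed d → ℂ := fun β Y => lam (π (c.ex Y) (ι (wd L β v)))
  have hderiv : ∀ (β : List (Fin d)) (Y : Ed d), ∃ D : Ed d →L[ℝ] ℂ, HasFDerivAt (F β) D Y ∧
      ∀ H, D H = lam (π (c.ex Y) (ι (L (c.Th Y H) (wd L β v)))) := by
    intro β Y
    obtain ⟨F', hF', hF''⟩ := orbit_deriv hc R (wd L β v) Y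
    refine ⟨(lam.restrictScalars ℝ).comp F', ?_, fun H => ?_⟩
    · exact (lam.restrictScalars ℝ).hasFDerivAt.comp Y hF'
    · have := hF'' H
      change lam (F' H) = _
      rw [this]
  have hdiff : ∀ β, Differentiable ℝ (F β) := fun β Y => by
    obtain ⟨D, hD, _⟩ := hderiv β Y
    exact hD.differentiableAt
  have hlin : ∀ (β : List (Fin d)) (Y y : Ed d),
      lam (π (c.ex Y) (ι (L y (wd L β v)))) = ∑ j, ((y j : ℝ) : ℂ) * F (j :: β) Y := by
    intro β Y y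
    have h1 : L y (wd L β v) = ∑ j, ((y j : ℝ) : ℂ) • (wd L (j :: β) v) := by
      conv_lhs => rw [C6b_expand y]
      rw [map_sum, LinearMap.sum_apply]
      refine Finset.sum_congr rfl fun j _ => ?_
      rw [map_smul]
      rfl
    rw [h1, map_sum, map_sum, map_sum]
    refine Finset.sum_congr rfl fun j _ => ?_
    rw [map_smul, map_smul, map_smul, smul_eq_mul]
  have hbound : ∀ β Y (i : Fin d), ‖Y‖ < δ →
      ‖fderiv ℝ (F β) Y (eb i)‖ ≤ Real.exp 2 * ∑ j, ‖F (j :: β) Y‖ := by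
    intro β Y i hY
    obtain ⟨D, hD, hD'⟩ := hderiv β Y
    rw [hD.fderiv, hD', hlin, Finset.mul_sum]
    refine (norm_sum_le _ _).trans (Finset.sum_le_sum fun j _ => ?_)
    rw [norm_mul, Complex.norm_real, Real.norm_eq_abs]
    refine mul_le_mul_of_nonneg_right ?_ (norm_nonneg _)
    calc |(c.Th Y (eb i)) j| ≤ ‖c.Th Y (eb i)‖ := C6b_coord _ _
      _ ≤ ‖c.Th Y‖ * ‖(eb i : Ed d)‖ := (c.Th Y).le_opNorm _
      _ ≤ Real.exp 2 * 1 := by
        refine mul_le_mul (C6b_Th hc (hY.le.trans hδ1)) ?_ (norm_nonneg _) (Real.exp_pos _).le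
        have : ‖(eb i : Ed d)‖ = 1 := by
          unfold eb
          rw [PiLp.norm_single, norm_one]
        rw [this]
      _ = Real.exp 2 := mul_one _
  have hmain := hsob F hdiff hbound
  have hF0 : ‖F [] 0‖ = ‖ι v‖ := by
    change ‖lam (π (c.ex 0) (ι v))‖ = _
    rw [hc.ex_zero, hG.rp.one, hlamv]
    simp
  rw [hF0] at hmain
  -- the integrals
  have hint : ∀ η : ℝ, 0 < η → ∀ β : List (Fin d), β.length ≤ d →
      ∫ Y in Metric.ball (0 : Ed d) δ, ‖F β Y‖ ≤ B * (S + η) := by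
    intro η hη β hβ
    have hT : 0 < S + η := by linarith
    have hcont : Continuous fun Y => ‖F β Y‖ := (hdiff β).continuous.norm
    have hi1 : ∀ r : ℝ, IntegrableOn (fun Y => ‖F β Y‖ ^ 2) (Metric.ball (0 : Ed d) r) :=
      fun r => ((hcont.pow 2).continuousOn.integrableOn_compact
        (isCompact_closedBall (0 : Ed d) r)).mono_set Metric.ball_subset_closedBall
    have hi2 : IntegrableOn (fun Y => ‖F β Y‖) (Metric.ball (0 : Ed d) δ) :=
      (hcont.continuousOn.integrableOn_compact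
        (isCompact_closedBall (0 : Ed d) δ)).mono_set Metric.ball_subset_closedBall
    have h1 : ∫ Y in Metric.ball (0 : Ed d) δ, ‖F β Y‖ ^ 2 ≤ C₀ * (S + η) ^ 2 := by
      calc ∫ Y in Metric.ball (0 : Ed d) δ, ‖F β Y‖ ^ 2
          ≤ ∫ Y in Metric.ball (0 : Ed d) δ₀, ‖F β Y‖ ^ 2 :=
            setIntegral_mono_set (hi1 δ₀) (Filter.Eventually.of_forall fun Y => sq_nonneg _)
              (Metric.ball_subset_ball hδ₀').eventuallyLE
        _ ≤ C₀ * ‖J lam (ι (wd L β v))‖ ^ 2 := hloc lam _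
        _ ≤ C₀ * (S + η) ^ 2 := by
          refine mul_le_mul_of_nonneg_left ?_ hC₀
          exact pow_le_pow_left₀ (norm_nonneg _) ((hS lam hlam β hβ).trans (by linarith)) 2
    have h2 : ∫ Y in Metric.ball (0 : Ed d) δ, ‖F β Y‖ ≤
        ∫ Y in Metric.ball (0 : Ed d) δ, ((S + η) / 2 + (2 * (S + η))⁻¹ * ‖F β Y‖ ^ 2) := by
      refine setIntegral_mono hi2 ?_ fun Y => ?_
      · exact (integrableOn_const (by exact measure_ball_lt_top.ne)).add ((hi1 δ).const_mul _)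
      · have h3 : (S + η) / 2 + (2 * (S + η))⁻¹ * ‖F β Y‖ ^ 2 - ‖F β Y‖ =
            (2 * (S + η))⁻¹ * (S + η - ‖F β Y‖) ^ 2 := by
          field_simp
          ring
        have h4 : 0 ≤ (2 * (S + η))⁻¹ * (S + η - ‖F β Y‖) ^ 2 := by positivity
        change ‖F β Y‖ ≤ (S + η) / 2 + (2 * (S + η))⁻¹ * ‖F β Y‖ ^ 2
        linarith
    refine h2.trans ?_
    have hc1 : Integrable (fun _ : Ed d => (S + η) / 2)
        (volume.restrict (Metric.ball (0 : Ed d) δ)) :=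
      integrableOn_const (by exact measure_ball_lt_top.ne)
    have hc2 : Integrable (fun Y : Ed d => (2 * (S + η))⁻¹ * ‖F β Y‖ ^ 2)
        (volume.restrict (Metric.ball (0 : Ed d) δ)) := (hi1 δ).const_mul _
    rw [integral_add hc1 hc2, setIntegral_const, integral_const_mul, smul_eq_mul]
    have h5 : (2 * (S + η))⁻¹ * ∫ Y in Metric.ball (0 : Ed d) δ, ‖F β Y‖ ^ 2 ≤
        (2 * (S + η))⁻¹ * (C₀ * (S + η) ^ 2) := mul_le_mul_of_nonneg_left h1 (by positivity)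
    have h6 : (2 * (S + η))⁻¹ * (C₀ * (S + η) ^ 2) = C₀ / 2 * (S + η) := by
      field_simp
    rw [hB]
    calc volume.real (Metric.ball (0 : Ed d) δ) * ((S + η) / 2) +
        (2 * (S + η))⁻¹ * ∫ Y in Metric.ball (0 : Ed d) δ, ‖F β Y‖ ^ 2
        ≤ volume.real (Metric.ball (0 : Ed d) δ) * ((S + η) / 2) + C₀ / 2 * (S + η) := by
          linarith
      _ = (volume.real (Metric.ball (0 : Ed d) δ) + C₀) / 2 * (S + η) := by ring
  -- conclusion
  have hfin : ∀ η : ℝ, 0 < η → ‖ι v‖ ≤ C₁ * (N * B) * (S + η) := by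
    intro η hη
    refine hmain.trans ?_
    rw [mul_assoc C₁]
    refine mul_le_mul_of_nonneg_left ?_ hC₁
    calc ∑ k ∈ Finset.range (d + 1), ∑ β : Fin k → Fin d,
        ∫ Y in Metric.ball (0 : Ed d) δ, ‖F (List.ofFn β) Y‖
        ≤ ∑ k ∈ Finset.range (d + 1), ∑ _β : Fin k → Fin d, B * (S + η) := by
          refine Finset.sum_le_sum fun k hk => Finset.sum_le_sum fun β _ => ?_
          refine hint η hη _ ?_
          rw [List.length_ofFn]
          exact Nat.lt_succ_iff.1 (Finset.mem_range.1 hk)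
      _ = N * B * (S + η) := by
          rw [hN, mul_assoc, Finset.sum_mul]
          refine Finset.sum_congr rfl fun k _ => ?_
          rw [Finset.sum_const, Finset.card_univ, nsmul_eq_mul]
  refine le_of_forall_pos_le_add fun e he => ?_
  set C := C₁ * (N * B) with hC
  have hC0 : 0 ≤ C := by positivity
  have h7 := hfin (e / (C + 1)) (by positivity)
  have h8 : C * (e / (C + 1)) ≤ e := by
    rw [mul_div_assoc']
    rw [div_le_iff₀ (by positivity)]
    nlinarith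
  calc ‖ι v‖ ≤ C * (S + e / (C + 1)) := h7
    _ = C * S + C * (e / (C + 1)) := by ring
    _ ≤ C * S + e := by linarith

end Pool.Agent.RG
end

section

/-! C6: Sobolev inequality -/
end

section

/-!
# D8a: analytic continuation: the projected matrix coefficients do not depend on the globalization
-/

namespace Pool.Agent.RG

open MeasureTheory Topology Filter Set

universe u v

/-- A seminorm which is the supremum of a family of maps. -/
structure IsSup {I X : Type v} {H : Type u} [AddCommGroup X] [Module ℂ X]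
    [NormedAddCommGroup H] [InnerProductSpace ℂ H] (T : I → X →ₗ[ℂ] H) (Q : Seminorm ℂ X) :
    Prop where
  le : ∀ (i : I) (x : X), ‖T i x‖ ≤ Q x
  sup : ∀ (x : X) (r : ℝ), 0 ≤ r → (∀ i, ‖T i x‖ ≤ r) → Q x ≤ r

/-- PROOF. `Q x = ⨆ i, ‖T i x‖` (bounded above by `hb`; real-valued `⨆`, `ciSup_le`/`le_ciSup`, and `Real.iSup_nonneg`, empty `I`: the supremum is `0`). Subadditivity and homogeneity:
`Real.iSup_mul_of_nonneg`/`Real.mul_iSup_of_nonneg` or two inequalities. -/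
theorem exists_sup {I X : Type v} {H : Type u} [AddCommGroup X] [Module ℂ X]
    [NormedAddCommGroup H] [InnerProductSpace ℂ H] (T : I → X →ₗ[ℂ] H)
    (hb : ∀ x : X, ∃ B : ℝ, ∀ i, ‖T i x‖ ≤ B) : ∃ Q : Seminorm ℂ X, IsSup T Q := by
  have hbdd : ∀ x : X, BddAbove (Set.range fun i => ‖T i x‖) := fun x => by
    obtain ⟨B, hB⟩ := hb x
    exact ⟨B, by rintro _ ⟨i, rfl⟩; exact hB i⟩
  have hnn : ∀ x : X, 0 ≤ ⨆ i, ‖T i x‖ := fun x => Real.iSup_nonneg fun i => norm_nonneg _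
  have hle : ∀ (i : I) (x : X), ‖T i x‖ ≤ ⨆ i, ‖T i x‖ := fun i x => le_ciSup (hbdd x) i
  have hsup : ∀ (x : X) (r : ℝ), 0 ≤ r → (∀ i, ‖T i x‖ ≤ r) → ⨆ i, ‖T i x‖ ≤ r :=
    fun x r h0 h => Real.iSup_le h h0
  refine ⟨Seminorm.of (fun x => ⨆ i, ‖T i x‖) ?_ ?_, ⟨hle, hsup⟩⟩
  · intro x y
    refine hsup _ _ (add_nonneg (hnn x) (hnn y)) fun i => ?_
    rw [map_add]
    exact (norm_add_le _ _).trans (add_le_add (hle i x) (hle i y))
  · intro a x
    show (⨆ i, ‖T i (a • x)‖) = ‖a‖ * ⨆ i, ‖T i x‖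
    simp only [map_smul, norm_smul]
    exact (Real.mul_iSup_of_nonneg (norm_nonneg a) _).symm

private theorem D8a_bound {W : Type v} [AddCommGroup W] [Module ℂ W] [FiniteDimensional ℂ W]
    (Q : Seminorm ℂ W) (h0 : ∀ w, Q w = 0 → w = 0) (l : W →ₗ[ℂ] ℂ) :
    ∃ C : ℝ, 0 ≤ C ∧ ∀ w, ‖l w‖ ≤ C * Q w := by
  let _ : Norm W := ⟨fun w => Q w⟩
  have core : NormedSpace.Core ℂ W :=
    { norm_nonneg := fun w => apply_nonneg Q w
      norm_smul := fun a w => map_smul_eq_mul Q a w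
      norm_triangle := fun w w' => map_add_le_add Q w w'
      norm_eq_zero_iff := fun w => ⟨fun h => h0 w h, fun h => by rw [h]; exact map_zero Q⟩ }
  let _ : NormedAddCommGroup W := NormedAddCommGroup.ofCore core
  let _ : NormedSpace ℂ W := NormedSpace.ofCore core
  exact ⟨‖LinearMap.toContinuousLinearMap l‖, norm_nonneg _, fun w =>
    (LinearMap.toContinuousLinearMap l).le_opNorm w⟩

variable {G : Type u} [Group G] [TopologicalSpace G] {d : ℕ} {c : Core G d} {A A₁ : ℕ}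
  {V E I : Type v} {H : Type u} [AddCommGroup V] [Module ℂ V] [NormedAddCommGroup E]
  [NormedSpace ℂ E] [CompleteSpace E] [NormedAddCommGroup H] [InnerProductSpace ℂ H]
  [CompleteSpace H] {L : Ed d →ₗ[ℝ] (V →ₗ[ℂ] V)} {act : G → V →ₗ[ℂ] V} {π : G → E →L[ℂ] E}
  {ι : V →ₗ[ℂ] E} {PV : ℝ → E →ₗ[ℂ] V} {J : I → E →L[ℂ] H}

/-- Analytic bounds for the projected orbit.
PROOF. Let `Q` be the supremum of the `‖J i (ι v)‖` (`exists_sup`, bounded by `hJ.bd`), a seminorm on `V`. `IsEn L (4 A d + 1) Q` by `energy` for each `i` (bundled data) and `IsSup`. So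
`analytic_vec` gives `B, r` for `v`. On the finite dimensional space `Vle R` (`hM.fin`) `Q` is a norm (`hJ.sep`), so there is `C_l` with `‖l w‖ ≤ C_l Q w` for `w ∈ Vle R`. Then
`‖l (PV R (π x (ι (wd L β v))))‖ ≤ C_l Q (PV R (π x ..)) ≤ C_l sup_i ‖J i (π x (ι (wd L β v)))‖ ≤ C_l M(x)^A Q (wd L β v)` (`PV_contr`, `tp`). -/
theorem coeff_bound (hc : IsCore c) (hM : IsMd c L act) (hG : IsGl c A₁ L act π ι)
    (hPV : IsPV c L ι PV) (hJ : IsFam c A π ι J) (R : ℝ) (l : V →ₗ[ℂ] ℂ) (v : V) :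
    ∃ B r : ℝ, 0 ≤ B ∧ 0 ≤ r ∧ ∀ (x : G) (β : List (Fin d)),
      ‖l (PV R (π x (ι (wd L β v))))‖ ≤
        B * r ^ β.length * (β.length.factorial : ℝ) * c.M x ^ A := by
  obtain ⟨Q, hQ⟩ := exists_sup (fun i => (J i).toLinearMap ∘ₗ ι) (by
    obtain ⟨B, hB⟩ := hJ.bd
    intro w
    exact ⟨B * ‖ι w‖, fun i => hB i (ι w)⟩)
  have hQle : ∀ (i : I) (w : V), ‖J i (ι w)‖ ≤ Q w := fun i w => hQ.le i w
  have hQsup : ∀ (w : V) (r : ℝ), 0 ≤ r → (∀ i, ‖J i (ι w)‖ ≤ r) → Q w ≤ r :=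
    fun w r h0 h => hQ.sup w r h0 h
  have hE : IsEn L (4 * A * d + 1) Q := by
    intro w i ε h0 h1
    refine hQsup _ _ (by
      have h3 := apply_nonneg Q w
      have h4 := apply_nonneg Q (lapl L w)
      positivity) fun j => ?_
    have h2 := energy hc ⟨V, E, H, π, L, ι, J j, hG.rp.one, hG.rp.mul, hG.rp.cont, hG.der,
      hJ.tp j⟩ i w ε h0 h1
    refine h2.trans ?_
    have h3 := hQle j w
    have h4 := hQle j (lapl L w)
    dsimp only
    gcongr
  obtain ⟨B, r, hB, hr, hBr⟩ := analytic_vec hc hM (by positivity) hE v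
  obtain ⟨Cl, hCl, hl⟩ : ∃ Cl : ℝ, 0 ≤ Cl ∧ ∀ w ∈ Vle (casK c L) R, ‖l w‖ ≤ Cl * Q w := by
    have := hM.fin R
    obtain ⟨C, hC, hCl⟩ := D8a_bound (Q.comp (Vle (casK c L) R).subtype) (fun w h => by
      apply Subtype.ext
      apply hJ.sep
      intro i
      have h1 := hQle i (w : V)
      have h2 : Q (w : V) = 0 := h
      rw [h2] at h1
      exact norm_le_zero_iff.mp h1) (l.comp (Vle (casK c L) R).subtype)
    exact ⟨C, hC, fun w hw => hCl ⟨w, hw⟩⟩
  refine ⟨Cl * B, r, by positivity, hr, fun x β => ?_⟩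
  have hM0 : 0 ≤ c.M x := zero_le_one.trans (hc.M_ge x)
  have h1 := hl _ (hPV.mem R (π x (ι (wd L β v))))
  have h2 : Q (PV R (π x (ι (wd L β v)))) ≤ c.M x ^ A * Q (wd L β v) := by
    refine hQsup _ _ (mul_nonneg (by positivity) (apply_nonneg Q _)) fun j => ?_
    refine (PV_contr hc hM hG hPV (hJ.tp j) R _).trans ?_
    refine (hJ.tp j x _).trans ?_
    have h3 := hQle j (wd L β v)
    gcongr
  calc ‖l (PV R (π x (ι (wd L β v))))‖ ≤ Cl * Q (PV R (π x (ι (wd L β v)))) := h1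
    _ ≤ Cl * (c.M x ^ A * (B * r ^ β.length * (β.length.factorial : ℝ))) := by
        have h4 := hBr β
        gcongr
        exact h2.trans (by gcongr)
    _ = Cl * B * r ^ β.length * (β.length.factorial : ℝ) * c.M x ^ A := by ring

end Pool.Agent.RG
end

section

/-!
# D8b: analytic continuation: the projected matrix coefficients do not depend on the globalization
-/

namespace Pool.Agent.RG

open MeasureTheory Topology Filter Set

universe u v

set_option linter.unusedSectionVars false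

variable {G : Type u} [Group G] [TopologicalSpace G] {d : ℕ} {c : Core G d} {A A₁ : ℕ}
  {V E I : Type v} {H : Type u} [AddCommGroup V] [Module ℂ V] [NormedAddCommGroup E]
  [NormedSpace ℂ E] [CompleteSpace E] [NormedAddCommGroup H] [InnerProductSpace ℂ H]
  [CompleteSpace H] {L : Ed d →ₗ[ℝ] (V →ₗ[ℂ] V)} {act : G → V →ₗ[ℂ] V} {π : G → E →L[ℂ] E}
  {ι : V →ₗ[ℂ] E} {PV : ℝ → E →ₗ[ℂ] V} {J : I → E →L[ℂ] H}

/-- The projected coefficients are continuous functionals on the Banach space. -/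
theorem D8b_cont (hM : IsMd c L act) (hι : Function.Injective ι) (hPV : IsPV c L ι PV) (R : ℝ)
    (l : V →ₗ[ℂ] ℂ) : Continuous fun e => l (PV R e) := by
  have hfin := hM.fin R
  obtain ⟨U, hU⟩ : ∃ U, U = Vle (casK c L) R := ⟨_, rfl⟩
  have hmem : ∀ e, PV R e ∈ U := fun e => hU ▸ hPV.mem R e
  have hfin' : FiniteDimensional ℂ U := hU ▸ hfin
  obtain ⟨W, hW⟩ : ∃ W, W = U.map ι := ⟨_, rfl⟩
  have q : U ≃ₗ[ℂ] U.map ι := Submodule.equivMapOfInjective ι hι U
  have hfW : FiniteDimensional ℂ (U.map ι) := inferInstance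
  have h1 : Continuous ((l.comp U.subtype).comp
      (Submodule.equivMapOfInjective ι hι U).symm.toLinearMap) :=
    LinearMap.continuous_of_finiteDimensional _
  have h2 : Continuous fun e => (⟨ι (PV R e), Submodule.mem_map_of_mem (hmem e)⟩ : U.map ι) :=
    (hPV.cont R).subtype_mk _
  have h3 := h1.comp h2
  refine h3.congr fun e => ?_
  have h4 : (Submodule.equivMapOfInjective ι hι U).symm
      ⟨ι (PV R e), Submodule.mem_map_of_mem (hmem e)⟩ = ⟨PV R e, hmem e⟩ := by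
    rw [LinearEquiv.symm_apply_eq]
    apply Subtype.ext
    rw [Submodule.coe_equivMapOfInjective_apply]
  change l (U.subtype ((Submodule.equivMapOfInjective ι hι U).symm
      ⟨ι (PV R e), Submodule.mem_map_of_mem (hmem e)⟩)) = l (PV R e)
  rw [h4]
  rfl

/-- The derivative of the projected coefficients along a one parameter group. -/
theorem D8b_deriv (hc : IsCore c) (hM : IsMd c L act) (hG : IsGl c A₁ L act π ι)
    (hPV : IsPV c L ι PV) (R : ℝ) (l : V →ₗ[ℂ] ℂ) (k : G) (Y : Ed d) (w : V) (t : ℝ) :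
    HasDerivAt (fun s : ℝ => l (PV R (π (k * c.ex (s • Y)) (ι w))))
      (l (PV R (π (k * c.ex (t • Y)) (ι (L Y w))))) t := by
  obtain ⟨Λ, hΛ⟩ : ∃ Λ : E →L[ℂ] ℂ, ∀ e, Λ e = l (PV R e) :=
    ⟨⟨l.comp (PV R), D8b_cont hM hG.inj hPV R l⟩, fun _ => rfl⟩
  have h1 := hG.der Y w
  rw [← sub_self t] at h1
  have h2 := h1.comp_sub_const t t
  have h3 := ((Λ.comp (π (k * c.ex (t • Y)))).restrictScalars ℝ).hasFDerivAt.comp_hasDerivAt t h2
  have h4 : (fun s : ℝ => l (PV R (π (k * c.ex (s • Y)) (ι w)))) =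
      ((Λ.comp (π (k * c.ex (t • Y)))).restrictScalars ℝ) ∘
        fun x => π (c.ex ((x - t) • Y)) (ι w) := by
    funext s
    have h5 : k * c.ex (s • Y) = k * c.ex (t • Y) * c.ex ((s - t) • Y) := by
      rw [mul_assoc, ← hc.ex_add, add_sub_cancel]
    change l (PV R (π (k * c.ex (s • Y)) (ι w))) =
      Λ (π (k * c.ex (t • Y)) (π (c.ex ((s - t) • Y)) (ι w)))
    rw [hΛ, h5, hG.rp.mul]
  have h6 : l (PV R (π (k * c.ex (t • Y)) (ι (L Y w)))) =
      ((Λ.comp (π (k * c.ex (t • Y)))).restrictScalars ℝ) (ι (L Y w)) := (hΛ _).symm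
  rw [h4, h6]
  exact h3

/-- Powers of `L Y` in terms of words. -/
theorem D8b_word (Λ : V →ₗ[ℂ] ℂ) (v : V) (D : ℕ → ℝ)
    (hD : ∀ β : List (Fin d), ‖Λ (wd L β v)‖ ≤ D β.length) (Y : Ed d) (j : ℕ) :
    ∀ α : List (Fin d), ‖Λ (wd L α (((L Y) ^ j) v))‖ ≤ D (α.length + j) * (∑ i, |Y i|) ^ j := by
  have happ : ∀ (α : List (Fin d)) (i : Fin d) (w : V),
      wd L α (L (eb i) w) = wd L (α ++ [i]) w := by
    intro α i w
    induction α with
    | nil => rfl
    | cons a α ih =>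
      change L (eb a) (wd L α (L (eb i) w)) = L (eb a) (wd L (α ++ [i]) w)
      rw [ih]
  have hY : Y = ∑ i, Y i • eb i := by
    ext i
    simp [eb, Finset.sum_apply, Pi.single_apply]
  have hLY : ∀ w : V, L Y w = ∑ i, ((Y i : ℝ) : ℂ) • L (eb i) w := by
    intro w
    conv_lhs => rw [hY]
    rw [map_sum, LinearMap.sum_apply]
    refine Finset.sum_congr rfl fun i _ => ?_
    rw [map_smul]
    rfl
  induction j with
  | zero =>
    intro α
    simpa using hD α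
  | succ j ih =>
    intro α
    have h1 : wd L α (((L Y) ^ (j + 1)) v) =
        ∑ i, ((Y i : ℝ) : ℂ) • wd L (α ++ [i]) (((L Y) ^ j) v) := by
      rw [pow_succ', Module.End.mul_apply, hLY, map_sum]
      refine Finset.sum_congr rfl fun i _ => ?_
      rw [map_smul, happ]
    rw [h1, map_sum]
    calc ‖∑ i, Λ (((Y i : ℝ) : ℂ) • wd L (α ++ [i]) (((L Y) ^ j) v))‖
        ≤ ∑ i, ‖Λ (((Y i : ℝ) : ℂ) • wd L (α ++ [i]) (((L Y) ^ j) v))‖ := norm_sum_le _ _
      _ ≤ ∑ i, |Y i| * (D (α.length + (j + 1)) * (∑ i, |Y i|) ^ j) := by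
          refine Finset.sum_le_sum fun i _ => ?_
          rw [map_smul, norm_smul, Complex.norm_real, Real.norm_eq_abs]
          refine mul_le_mul_of_nonneg_left ?_ (abs_nonneg _)
          have h2 := ih (α ++ [i])
          rw [List.length_append, List.length_singleton] at h2
          rwa [show α.length + 1 + j = α.length + (j + 1) by ring] at h2
      _ = D (α.length + (j + 1)) * (∑ i, |Y i|) ^ (j + 1) := by
          rw [← Finset.sum_mul, pow_succ]
          ring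

/-- The bound for the derivatives of the projected coefficients. -/
theorem D8b_bound (hc : IsCore c) (hM : IsMd c L act) (hG : IsGl c A₁ L act π ι)
    (hPV : IsPV c L ι PV) (hJ : IsFam c A π ι J) (R : ℝ) (l : V →ₗ[ℂ] ℂ) (v : V) (Y : Ed d) :
    ∃ B r : ℝ, 0 ≤ B ∧ 0 ≤ r ∧ ∀ (g : G) (j : ℕ), c.M g ≤ Real.exp ‖Y‖ →
      ‖l (PV R (π g (ι (((L Y) ^ j) v))))‖ ≤ B * r ^ j * (j.factorial : ℝ) := by
  obtain ⟨B, r, hB, hr, h⟩ := coeff_bound hc hM hG hPV hJ R l v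
  refine ⟨B * Real.exp ‖Y‖ ^ A, r * ∑ i, |Y i|, by positivity,
    mul_nonneg hr (Finset.sum_nonneg fun _ _ => abs_nonneg _), fun g j hg => ?_⟩
  have h1 := D8b_word (L := L) ((l.comp (PV R)).comp ((π g).toLinearMap.comp ι)) v
    (fun n => B * r ^ n * (n.factorial : ℝ) * c.M g ^ A) (fun β => h g β) Y j []
  have h2 : c.M g ^ A ≤ Real.exp ‖Y‖ ^ A :=
    pow_le_pow_left₀ (zero_le_one.trans (hc.M_ge g)) hg A
  calc ‖l (PV R (π g (ι (((L Y) ^ j) v))))‖
      ≤ B * r ^ ([].length + j : ℕ) * (([].length + j : ℕ).factorial : ℝ) * c.M g ^ A *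
          (∑ i, |Y i|) ^ j := h1
    _ = (B * r ^ j * (j.factorial : ℝ) * (∑ i, |Y i|) ^ j) * c.M g ^ A := by
        simp only [List.length_nil, zero_add]
        ring
    _ ≤ (B * r ^ j * (j.factorial : ℝ) * (∑ i, |Y i|) ^ j) * Real.exp ‖Y‖ ^ A := by
        refine mul_le_mul_of_nonneg_left h2 ?_
        have : 0 ≤ ∑ i, |Y i| := Finset.sum_nonneg fun _ _ => abs_nonneg _
        positivity
    _ = B * Real.exp ‖Y‖ ^ A * (r * ∑ i, |Y i|) ^ j * (j.factorial : ℝ) := by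
        rw [mul_pow]
        ring

/-- An operator that commutes with `casK` preserves `Vgt`. -/
theorem D8b_map_Vgt {S : V →ₗ[ℂ] V} (hS : ∀ v, S (casK c L v) = casK c L (S v)) {R : ℝ} {v : V}
    (hv : v ∈ Vgt (casK c L) R) : S v ∈ Vgt (casK c L) R := by
  have h1 : Vgt (casK c L) R ≤ (Vgt (casK c L) R).comap S := by
    refine iSup₂_le fun r hr => ?_
    intro w hw
    rw [Submodule.mem_comap]
    refine Submodule.mem_iSup_of_mem r (Submodule.mem_iSup_of_mem hr ?_)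
    rw [Module.End.mem_eigenspace_iff] at hw ⊢
    rw [← hS, hw, map_smul]
  exact h1 hv

/-- ANALYTIC CONTINUATION.
PROOF. It suffices that `l (T (PV R (π x (ι v)))) = l (PV' R (π' x (ι' (T v))))` for every linear `l : V → ℂ`. Write `x = k * ex Y` (`hc.cartan`). Put, for `j : ℕ`,
`f j t = l (T (PV R (π (k * ex (t • Y)) (ι (Y^j v))))) - l (PV' R (π' (k * ex (t • Y)) (ι' (T (Y^j v)))))`, `Y^j v = (L Y ^ j) v`. Then `f j` has derivative `f (j+1) t` at `t`: the curve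
`s ↦ π (k * ex (s • Y)) (ι w)` has derivative `π (k * ex (t • Y)) (ι (L Y w))` at `t` (`ex ((t+s) • Y) = ex (t • Y) * ex (s • Y)`, `der` and the chain rule for the
continuous linear map `π (k * ex (t • Y))`), `e ↦ l (T (PV R e))` is a continuous linear functional (on the finite dimensional space `Vle R` everything is continuous: `ι ∘ PV R` is continuous with values in the
finite dimensional `ι (Vle R)`, on which `l ∘ T ∘ ι⁻¹` is continuous), and `T` commutes with `L Y`. `f j 0 = 0`: `PV R (π k (ι w)) = act k (PV R (ι w))`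
(`PV_act`), the same for `'`, and with `w = a + b` (`isCompl_Vle`), `T (PV R (ι w)) = T a = PV' R (ι' (T w))` as `T` preserves `Vle R` and `Vgt R` (it commutes with `casK`); `T` commutes with `act k`.
Bounds: `L Y ^ j v = Σ_{|β| = j} (∏ Y_{β}) wd L β v`, so by `coeff_bound` (for `l ∘ T` and for `l`, `v` and `T v`; `T (wd L β v) = wd L β (T v)`)
`‖f j t‖ ≤ B (r d ‖Y‖)^j j! M^A`, and `M (k * ex (t • Y)) ≤ exp ‖Y‖` for `0 ≤ t ≤ 1`. By `flat_vanish`, `f 0 1 = 0`. -/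
theorem analytic_cont {E' I' : Type v} {H' : Type u} [NormedAddCommGroup E'] [NormedSpace ℂ E']
    [CompleteSpace E'] [NormedAddCommGroup H'] [InnerProductSpace ℂ H'] [CompleteSpace H']
    {π' : G → E' →L[ℂ] E'} {ι' : V →ₗ[ℂ] E'} {PV' : ℝ → E' →ₗ[ℂ] V} {J' : I' → E' →L[ℂ] H'}
    (hc : IsCore c) (hM : IsMd c L act) (hG : IsGl c A₁ L act π ι) (hPV : IsPV c L ι PV)
    (hJ : IsFam c A π ι J) (hG' : IsGl c A₁ L act π' ι') (hPV' : IsPV c L ι' PV')
    (hJ' : IsFam c A π' ι' J') (T : V →ₗ[ℂ] V) (hTL : ∀ (Y : Ed d) (v : V), T (L Y v) = L Y (T v))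
    (hTK : ∀ k ∈ c.K, ∀ v : V, T (act k v) = act k (T v)) (R : ℝ) (x : G) (v : V) :
    T (PV R (π x (ι v))) = PV' R (π' x (ι' (T v))) := by
  have hTc : ∀ w, T (casK c L w) = casK c L (T w) := by
    intro w
    unfold casK
    simp only [LinearMap.neg_apply, LinearMap.sum_apply, LinearMap.comp_apply, map_neg, map_sum,
      hTL]
  rw [← sub_eq_zero, ← Module.forall_dual_apply_eq_zero_iff ℂ]
  intro l
  obtain ⟨a, -, hcart⟩ := hc.cartan
  obtain ⟨k, hk, Y, rfl, -⟩ := hcart x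
  obtain ⟨B₁, r₁, hB₁, hr₁, hb₁⟩ := D8b_bound hc hM hG hPV hJ R (l.comp T) v Y
  obtain ⟨B₂, r₂, hB₂, hr₂, hb₂⟩ := D8b_bound hc hM hG' hPV' hJ' R l (T v) Y
  have hTj : ∀ j : ℕ, T (((L Y) ^ j) v) = ((L Y) ^ j) (T v) := by
    intro j
    induction j with
    | zero => rfl
    | succ j ih => rw [pow_succ', Module.End.mul_apply, hTL, ih, Module.End.mul_apply]
  have h0 : c.ex ((0 : ℝ) • Y) = 1 := by
    have h := hc.ex_add Y 0 0
    rw [add_zero] at h
    exact (left_eq_mul.1 h)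
  have key := flat_vanish (fun (j : ℕ) (t : ℝ) =>
      (l.comp T) (PV R (π (k * c.ex (t • Y)) (ι (((L Y) ^ j) v)))) -
      l (PV' R (π' (k * c.ex (t • Y)) (ι' (((L Y) ^ j) (T v))))))
    (B₁ + B₂) (r₁ + r₂) ?_ ?_ ?_
  · simp only [one_smul, pow_zero, Module.End.one_apply, LinearMap.comp_apply] at key
    rw [map_sub]
    exact key
  · intro j t _
    have h1 := D8b_deriv hc hM hG hPV R (l.comp T) k Y (((L Y) ^ j) v) t
    have h2 := D8b_deriv hc hM hG' hPV' R l k Y (((L Y) ^ j) (T v)) t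
    have h3 := h1.sub h2
    simp only [pow_succ', Module.End.mul_apply]
    exact h3
  · intro j
    simp only [h0, mul_one]
    obtain ⟨w, hw⟩ : ∃ w, w = ((L Y) ^ j) v := ⟨_, rfl⟩
    rw [← hTj, ← hw, LinearMap.comp_apply, PV_act hM hG hPV R k hk, PV_act hM hG' hPV' R k hk,
      hTK k hk]
    have h1 : T (PV R (ι w)) = PV' R (ι' (T w)) := by
      have h2 : w ∈ Vle (casK c L) R ⊔ Vgt (casK c L) R := by
        rw [(isCompl_Vle hM.top R).sup_eq_top]
        exact Submodule.mem_top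
      obtain ⟨p, hp, q, hq, rfl⟩ := Submodule.mem_sup.1 h2
      rw [map_add, map_add, hPV.id R p hp, hPV.ker R q hq, add_zero, map_add, map_add, map_add,
        hPV'.id R _ (map_Vle hTc hp), hPV'.ker R _ (D8b_map_Vgt hTc hq), add_zero]
    rw [h1, sub_self]
  · intro j t ht
    have hMg : c.M (k * c.ex (t • Y)) ≤ Real.exp ‖Y‖ := by
      calc c.M (k * c.ex (t • Y)) ≤ c.M k * c.M (c.ex (t • Y)) := hc.M_mul _ _
        _ = c.M (c.ex (t • Y)) := by rw [hc.M_K k hk, one_mul]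
        _ ≤ Real.exp ‖t • Y‖ := hc.M_ex _
        _ ≤ Real.exp ‖Y‖ := by
            apply Real.exp_le_exp.2
            rw [norm_smul, Real.norm_eq_abs, abs_of_nonneg ht.1]
            exact mul_le_of_le_one_left (norm_nonneg _) ht.2
    have h1 := hb₁ _ j hMg
    have h2 := hb₂ _ j hMg
    have h3 : (0 : ℝ) ≤ (j.factorial : ℝ) := Nat.cast_nonneg _
    have h4 : r₁ ^ j ≤ (r₁ + r₂) ^ j := pow_le_pow_left₀ hr₁ (by linarith) j
    have h5 : r₂ ^ j ≤ (r₁ + r₂) ^ j := pow_le_pow_left₀ hr₂ (by linarith) j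
    calc ‖(l.comp T) (PV R (π (k * c.ex (t • Y)) (ι (((L Y) ^ j) v)))) -
        l (PV' R (π' (k * c.ex (t • Y)) (ι' (((L Y) ^ j) (T v)))))‖
        ≤ B₁ * r₁ ^ j * (j.factorial : ℝ) + B₂ * r₂ ^ j * (j.factorial : ℝ) :=
          (norm_sub_le _ _).trans (add_le_add h1 h2)
      _ ≤ B₁ * (r₁ + r₂) ^ j * (j.factorial : ℝ) + B₂ * (r₁ + r₂) ^ j * (j.factorial : ℝ) :=
          add_le_add (mul_le_mul_of_nonneg_right (mul_le_mul_of_nonneg_left h4 hB₁) h3)
            (mul_le_mul_of_nonneg_right (mul_le_mul_of_nonneg_left h5 hB₂) h3)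
      _ = (B₁ + B₂) * (r₁ + r₂) ^ j * (j.factorial : ℝ) := by ring

end Pool.Agent.RG
end

section

/-! D8: analytic continuation: the projected matrix coefficients do not depend on the globalization -/
end

section

/-!
# H2a: the two norms
-/

namespace Pool.Agent.RG

open MeasureTheory Topology Filter Set

universe u v

variable {G : Type u} [Group G] [TopologicalSpace G] {d : ℕ} {c : Core G d} {A A₁ : ℕ}
  {V : Type v} [AddCommGroup V] [Module ℂ V] {L : Ed d →ₗ[ℝ] (V →ₗ[ℂ] V)} {act : G → V →ₗ[ℂ] V}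
  {E : Type v} [NormedAddCommGroup E] [NormedSpace ℂ E] [CompleteSpace E] {H : Type u}
  [NormedAddCommGroup H] [InnerProductSpace ℂ H] [CompleteSpace H] {π : G → E →L[ℂ] E}
  {ι : V →ₗ[ℂ] E} {PV : ℝ → E →ₗ[ℂ] V} {J : (E →L[ℂ] ℂ) → E →L[ℂ] H}

/-- The functionals of norm `≤ 1` give a separating family.
PROOF. `tp`, `bd`: from `hJ` (with `|B|`). `sep`: if `J λ (ι v) = 0` for all `‖λ‖ ≤ 1` then `λ (ι v) = 0` for all `λ` (scale), so `ι v = 0` (Hahn-Banach, `exists_dual_vector''`), and `ι` is injective. -/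
theorem fam_of_J (hG : IsGl c A₁ L act π ι) (hJ : IsJ c A π J) :
    IsFam c A π ι (fun l : {l : E →L[ℂ] ℂ // ‖l‖ ≤ 1} => J l.1) := by
  refine ⟨fun i => hJ.tp i.1, ?_, ?_⟩
  · obtain ⟨B, hB⟩ := hJ.bd
    refine ⟨|B|, fun i e => (hB i.1 e).trans ?_⟩
    have h1 : B * ‖i.1‖ ≤ |B| * 1 :=
      mul_le_mul (le_abs_self B) i.2 (norm_nonneg _) (abs_nonneg B)
    calc B * ‖i.1‖ * ‖e‖ ≤ (|B| * 1) * ‖e‖ := mul_le_mul_of_nonneg_right h1 (norm_nonneg _)
      _ = |B| * ‖e‖ := by rw [mul_one]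
  · intro v hv
    by_contra hne
    have hne' : ι v ≠ 0 := fun h => hne (hG.inj (by rw [h, map_zero]))
    obtain ⟨g, hg1, hg2⟩ := exists_dual_vector ℂ (ι v) (norm_ne_zero_iff.2 hne')
    have h0 := hJ.sep g (ι v) (hv ⟨g, hg1.le⟩)
    rw [hg2] at h0
    have h3 : ‖ι v‖ = 0 := Complex.ofReal_eq_zero.1 h0
    exact hne' (norm_eq_zero.1 h3)

/-- the bundled data -/
private noncomputable def h2aCal (hG : IsGl c A₁ L act π ι) (hJ : IsJ c A π J)
    {Z : V →ₗ[ℂ] V} (hZ : IsEnd c L act Z) (lam : E →L[ℂ] ℂ) : Cal.{u, v} c A where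
  V := V
  E := E
  H := H
  π := π
  L := L
  ι := ι.comp Z
  J := J lam
  one := hG.rp.one
  mul := hG.rp.mul
  cont := hG.rp.cont
  der := by
    intro Y v
    have h := hG.der Y (Z v)
    rw [← hZ.1 Y v] at h
    exact h
  temp := hJ.tp lam

/-- THE UPPER NORM `P` (`p'` in the paper), first properties.
PROOF. `P v = sup over (λ, a), ‖λ‖ ≤ 1, of ‖J λ (ι (ζ_a v))‖` (`exists_sup`; bounded by `B max_a ‖ι (ζ_a v)‖`). `IsEn`: for each `(λ, a)` the data `(V, E, π, L, ι ∘ ζ_a, J λ)` form a `Cal` (`IsDer` for `ι ∘ ζ_a`, since `ζ_a` commutes with `L`), `energy` gives the inequality for `‖J λ (ι (ζ_a ·))‖`, and `IsSup`. `casK`: `Cal.ksk`, `Ksk.casK_le`, `IsSup`.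
`z`-bounded: `ζ_a ∘ z_k = Σ_b α_ab ζ_b`, so `‖J λ (ι (ζ_a z_k v))‖ ≤ Σ_b |α_ab| P v`. -/
theorem p_side (hc : IsCore c) (hM : IsMd c L act) (hG : IsGl c A₁ L act π ι)
    (hJ : IsJ c A π J) {m : ℕ} {ζ : Fin (m + 1) → V →ₗ[ℂ] V}
    (hz : ∀ a, IsEnd c L act (ζ a))
    (hs : ∀ T, IsEnd c L act T → ∃ α : Fin (m + 1) → ℂ, T = ∑ a, α a • ζ a) :
    ∃ (P : Seminorm ℂ V) (Cz : ℕ → ℝ),
      IsSup (fun i : {l : E →L[ℂ] ℂ // ‖l‖ ≤ 1} × Fin (m + 1) =>
        (J i.1.1).toLinearMap.comp (ι.comp (ζ i.2))) P ∧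
      IsEn L (4 * A * d + 1) P ∧
      (∀ (n : ℝ) (v : V), v ∈ Vle (casK c L) n → P (casK c L v) ≤ n ^ 2 * P v) ∧
      ∀ (k : ℕ) (v : V), P (zk c L k v) ≤ Cz k * P v := by
  classical
  obtain ⟨B, hB⟩ := hJ.bd
  obtain ⟨P, hP⟩ := exists_sup (fun i : {l : E →L[ℂ] ℂ // ‖l‖ ≤ 1} × Fin (m + 1) =>
    (J i.1.1).toLinearMap.comp (ι.comp (ζ i.2))) (by
      intro x
      refine ⟨|B| * ∑ a, ‖ι (ζ a x)‖, fun i => ?_⟩
      have h1 : B * ‖i.1.1‖ ≤ |B| * 1 :=
        mul_le_mul (le_abs_self B) i.1.2 (norm_nonneg _) (abs_nonneg B)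
      have h2 : ‖ι (ζ i.2 x)‖ ≤ ∑ a, ‖ι (ζ a x)‖ :=
        Finset.single_le_sum (f := fun a => ‖ι (ζ a x)‖) (fun a _ => norm_nonneg _)
          (Finset.mem_univ i.2)
      calc ‖J i.1.1 (ι (ζ i.2 x))‖ ≤ B * ‖i.1.1‖ * ‖ι (ζ i.2 x)‖ := hB _ _
        _ ≤ (|B| * 1) * ‖ι (ζ i.2 x)‖ := mul_le_mul_of_nonneg_right h1 (norm_nonneg _)
        _ = |B| * ‖ι (ζ i.2 x)‖ := by rw [mul_one]
        _ ≤ |B| * ∑ a, ‖ι (ζ a x)‖ := mul_le_mul_of_nonneg_left h2 (abs_nonneg B))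
  have hal : ∀ (k : ℕ) (a : Fin (m + 1)), ∃ α : Fin (m + 1) → ℂ,
      (ζ a).comp (zk c L k) = ∑ b, α b • ζ b :=
    fun k a => hs _ ((hz a).comp (isEnd_zk hM k))
  choose α hα using hal
  refine ⟨P, fun k => ∑ a, ∑ b, ‖α k a b‖, hP, ?_, ?_, ?_⟩
  · intro v i ε h0 h1
    have hA : (0:ℝ) ≤ 4 * A * d + 1 := by positivity
    have hP0 : 0 ≤ P v := apply_nonneg P v
    have hP1 : 0 ≤ P (lapl L v) := apply_nonneg P _
    refine hP.sup _ _ (by positivity) fun j => ?_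
    have he := energy hc (h2aCal hG hJ (hz j.2) j.1.1) i v ε h0 h1
    have e1 := hP.le j v
    have e2 := hP.le j (lapl L v)
    refine he.trans ?_
    refine mul_le_mul_of_nonneg_left (add_le_add ?_ ?_) hA
    · exact mul_le_mul_of_nonneg_left e1 (by positivity)
    · exact mul_le_mul_of_nonneg_left e2 h0.le
  · intro n v hv
    have hP0 : 0 ≤ P v := apply_nonneg P v
    refine hP.sup _ _ (by positivity) fun j => ?_
    have hk := Ksk.casK_le hM.nonneg (Cal.ksk hc (h2aCal hG hJ (hz j.2) j.1.1)) hv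
    exact hk.trans (mul_le_mul_of_nonneg_left (hP.le j v) (by positivity))
  · intro k v
    have hP0 : 0 ≤ P v := apply_nonneg P v
    have hC0 : 0 ≤ ∑ a, ∑ b, ‖α k a b‖ :=
      Finset.sum_nonneg fun a _ => Finset.sum_nonneg fun b _ => norm_nonneg _
    refine hP.sup _ _ (mul_nonneg hC0 hP0) fun j => ?_
    have h1 : ζ j.2 (zk c L k v) = ∑ b, α k j.2 b • ζ b v := by
      have := LinearMap.congr_fun (hα k j.2) v
      simpa using this
    calc ‖J j.1.1 (ι (ζ j.2 (zk c L k v)))‖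
        = ‖∑ b, α k j.2 b • J j.1.1 (ι (ζ b v))‖ := by
          rw [h1, map_sum, map_sum]
          simp
      _ ≤ ∑ b, ‖α k j.2 b • J j.1.1 (ι (ζ b v))‖ := norm_sum_le _ _
      _ ≤ ∑ b, ‖α k j.2 b‖ * P v := by
          refine Finset.sum_le_sum fun b _ => ?_
          rw [norm_smul]
          exact mul_le_mul_of_nonneg_left (hP.le (j.1, b) v) (norm_nonneg _)
      _ = (∑ b, ‖α k j.2 b‖) * P v := by rw [Finset.sum_mul]
      _ ≤ (∑ a, ∑ b, ‖α k a b‖) * P v := by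
          refine mul_le_mul_of_nonneg_right ?_ hP0
          exact Finset.single_le_sum (f := fun a => ∑ b, ‖α k a b‖)
            (fun a _ => Finset.sum_nonneg fun b _ => norm_nonneg _) (Finset.mem_univ j.2)

end Pool.Agent.RG
end

section

/-!
# H2b: the two norms
-/

namespace Pool.Agent.RG

open MeasureTheory Topology Filter Set

universe u v

variable {G : Type u} [Group G] [TopologicalSpace G] {d : ℕ} {c : Core G d} {A A₁ : ℕ}
  {V : Type v} [AddCommGroup V] [Module ℂ V] {L : Ed d →ₗ[ℝ] (V →ₗ[ℂ] V)} {act : G → V →ₗ[ℂ] V}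
  {E : Type v} [NormedAddCommGroup E] [NormedSpace ℂ E] [CompleteSpace E] {H : Type u}
  [NormedAddCommGroup H] [InnerProductSpace ℂ H] [CompleteSpace H] {π : G → E →L[ℂ] E}
  {ι : V →ₗ[ℂ] E} {PV : ℝ → E →ₗ[ℂ] V} {J : (E →L[ℂ] ℂ) → E →L[ℂ] H}

omit [Group G] [TopologicalSpace G] [CompleteSpace E] in
private theorem H2b_cont (hinj : Function.Injective ι) {R : ℝ}
    (hfin : FiniteDimensional ℂ (Vle (casK c L) R)) (hPV : IsPV c L ι PV) (l : V →ₗ[ℂ] ℂ) :
    Continuous fun e => l (PV R e) := by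
  have := hfin
  obtain ⟨F, hF⟩ : ∃ F : Submodule ℂ E, F = (Vle (casK c L) R).map ι := ⟨_, rfl⟩
  subst hF
  set ie : Vle (casK c L) R ≃ₗ[ℂ] (Vle (casK c L) R).map ι :=
    Submodule.equivMapOfInjective ι hinj (Vle (casK c L) R) with hie
  have : FiniteDimensional ℂ ((Vle (casK c L) R).map ι) := LinearEquiv.finiteDimensional ie
  set g : (Vle (casK c L) R).map ι →ₗ[ℂ] ℂ :=
    l.comp ((Vle (casK c L) R).subtype.comp ie.symm.toLinearMap) with hg
  have hgc : Continuous g := LinearMap.continuous_of_finiteDimensional g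
  have hmem : ∀ e, ι (PV R e) ∈ (Vle (casK c L) R).map ι := fun e =>
    Submodule.mem_map_of_mem (hPV.mem R e)
  have hP : Continuous fun e => (⟨ι (PV R e), hmem e⟩ : (Vle (casK c L) R).map ι) :=
    (hPV.cont R).subtype_mk _
  have h1 : (fun e => l (PV R e)) = fun e => g ⟨ι (PV R e), hmem e⟩ := by
    funext e
    have h2 : ie.symm ⟨ι (PV R e), hmem e⟩ = ⟨PV R e, hPV.mem R e⟩ := by
      rw [LinearEquiv.symm_apply_eq]
      rfl
    show l (PV R e) = l ((ie.symm ⟨ι (PV R e), hmem e⟩ : Vle (casK c L) R) : V)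
    rw [h2]
  rw [h1]
  exact hgc.comp hP

omit [Group G] [TopologicalSpace G] [CompleteSpace E] in
private theorem H2b_Vgt {S : V →ₗ[ℂ] V} (hS : ∀ v, S (casK c L v) = casK c L (S v)) {R : ℝ}
    {v : V} (hv : v ∈ Vgt (casK c L) R) : S v ∈ Vgt (casK c L) R := by
  have h1 : Vgt (casK c L) R ≤ (Vgt (casK c L) R).comap S := by
    conv_lhs => unfold Vgt
    refine iSup₂_le fun r hr x hx => ?_
    rw [Submodule.mem_comap]
    have h2 : S x ∈ Module.End.eigenspace (casK c L) (r : ℂ) := by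
      rw [Module.End.mem_eigenspace_iff] at hx ⊢
      rw [← hS, hx, map_smul]
    exact Submodule.mem_iSup_of_mem r (Submodule.mem_iSup_of_mem hr h2)
  exact h1 hv

omit [TopologicalSpace G] [CompleteSpace E] in
private theorem H2b_PV (hM : IsMd c L act) (hPV : IsPV c L ι PV) {S : V →ₗ[ℂ] V}
    (hS : ∀ v, S (casK c L v) = casK c L (S v)) (R : ℝ) (u : V) :
    PV R (ι (S u)) = S (PV R (ι u)) := by
  obtain ⟨a, ha, b, hb, hab⟩ : ∃ a ∈ Vle (casK c L) R, ∃ b ∈ Vgt (casK c L) R, a + b = u := by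
    have h1 : u ∈ Vle (casK c L) R ⊔ Vgt (casK c L) R := by
      rw [(isCompl_Vle hM.top R).sup_eq_top]
      exact Submodule.mem_top
    exact Submodule.mem_sup.1 h1
  rw [← hab, map_add, map_add, map_add, map_add, map_add, hPV.id R _ (map_Vle hS ha),
    hPV.ker R _ (H2b_Vgt hS hb), hPV.id R a ha, hPV.ker R b hb, map_add, map_zero]

omit [Group G] [TopologicalSpace G] in
private theorem H2b_end {T : V →ₗ[ℂ] V} (hT : IsEnd c L act T) (v : V) :
    T (casK c L v) = casK c L (T v) := by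
  simp only [casK, LinearMap.neg_apply, LinearMap.sum_apply, LinearMap.comp_apply, map_neg,
    map_sum, hT.1]

/-- THE LOWER NORM `Q` (`q'` in the paper).
PROOF. Index set `I = {λ : E →L[ℂ] ℂ // (∃ R, ∀ e, λ e = λ (ι (PV R e))) ∧ ∀ a v, ‖λ (ι (ζ a v))‖ ≤ ‖ι v‖}`. For `λ ∈ I`: `a = 0` and density give `‖λ‖ ≤ 1`. `Q e = sup_{λ ∈ I} ‖J λ e‖` (`exists_sup`; bounded by `B ‖e‖`).
POSITIVITY: let `v ≠ 0`, `R` with `v ∈ Vle R`; there is a linear functional `l₀` on `V` with `l₀ v ≠ 0`; `λ₀ e = l₀ (PV R e)` is continuous (`ι ∘ PV R` is continuous with values in the finite dimensional `ι (Vle R)`, on which `l₀ ∘ ι⁻¹` is continuous), `λ₀ (ι (PV R e)) = λ₀ e` (`hPV.id`, `hPV.mem`). For every `a`,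
`λ₀ (ι (ζ_a v)) = l₀ (PV R (ι (ζ_a v))) = l₀ (ζ_a (PV R (ι v)))` (`ζ_a` preserves `Vle R` and `Vgt R`, `isCompl_Vle`) is bounded by `C_a ‖ι v‖` for the same reason. So `λ = ε λ₀ ∈ I` for small `ε > 0`, `J λ (ι v) ≠ 0` by `hJ.sep`, and `Q (ι v) > 0`.
`z`-BOUNDEDNESS: let `T = zk c L k` (or any `IsEnd`); `ζ_? `: `T ∘ ζ_a = Σ_b α_ab ζ_b` and `T = Σ α_b ζ_b`. For `λ ∈ I` the functional `ι v ↦ λ (ι (T v))` is bounded by `Σ |α_b| ‖ι v‖`; let `λ_T` be its continuous extension (dense range; or directly `λ_T e = λ (ι (T (PV R e)))`, with `R` from `λ ∈ I`, which is continuous as above and satisfies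
`λ_T (ι v) = λ (ι (PV R (ι (T v)))) = λ (ι (T v))`). `λ_T = λ_T ∘ ι ∘ PV R`, and `‖λ_T (ι (ζ_a v))‖ = ‖λ (ι (T ζ_a v))‖ ≤ Σ_b |α_ab| ‖ι v‖ ≤ C_T ‖ι v‖`, `C_T > 0` a common bound; so `λ_T / C_T ∈ I`. Moreover for all `g`: `λ (π g (ι (T v))) = λ (ι (PV R (π g (ι (T v))))) = λ (ι (T (PV R (π g (ι v))))) = λ_T (π g (ι v))` by `analytic_cont`
(same globalization twice). By `hJ.mono`, `‖J λ (ι (T v))‖ ≤ C_T ‖J (λ_T / C_T) (ι v)‖ ≤ C_T Q (ι v)` (apply `mono` with `r = C_T`, `λ' = λ_T / C_T`). -/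
theorem q_side (hc : IsCore c) (hM : IsMd c L act) (hG : IsGl c A₁ L act π ι)
    (hPV : IsPV c L ι PV) (hJ : IsJ c A π J) {m : ℕ} {ζ : Fin (m + 1) → V →ₗ[ℂ] V}
    (h0 : ζ 0 = LinearMap.id) (hz : ∀ a, IsEnd c L act (ζ a))
    (hs : ∀ T, IsEnd c L act T → ∃ α : Fin (m + 1) → ℂ, T = ∑ a, α a • ζ a) :
    ∃ (I : Type v) (lam : I → E →L[ℂ] ℂ) (Q : Seminorm ℂ E) (Cz : ℕ → ℝ) (B : ℝ),
      IsSup (fun i => (J (lam i)).toLinearMap) Q ∧ (∀ e, Q e ≤ B * ‖e‖) ∧
      (∀ v, Q (ι v) = 0 → v = 0) ∧ ∀ (k : ℕ) (v : V), Q (ι (zk c L k v)) ≤ Cz k * Q (ι v) := by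
  classical
  obtain ⟨B, hB⟩ := hJ.bd
  have hfam := fam_of_J hG hJ
  -- the index set
  let I : Type v := {l : E →L[ℂ] ℂ // (∃ R, ∀ e, l e = l (ι (PV R e))) ∧
    ∀ a v, ‖l (ι (ζ a v))‖ ≤ ‖ι v‖}
  have hnorm : ∀ l : E →L[ℂ] ℂ, (∀ a v, ‖l (ι (ζ a v))‖ ≤ ‖ι v‖) → ‖l‖ ≤ 1 := by
    intro l hl
    refine ContinuousLinearMap.opNorm_le_bound _ zero_le_one fun e => ?_
    rw [one_mul]
    refine hG.dense.induction_on (p := fun e => ‖l e‖ ≤ ‖e‖) e ?_ ?_
    · exact isClosed_le l.continuous.norm continuous_norm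
    · intro v
      have := hl 0 v
      rwa [h0, LinearMap.id_apply] at this
  have hbd : ∀ (i : I) (e : E), ‖(J i.1).toLinearMap e‖ ≤ |B| * ‖e‖ := by
    intro i e
    have h1 := hB i.1 e
    have h2 := hnorm i.1 i.2.2
    calc ‖(J i.1).toLinearMap e‖ ≤ B * ‖i.1‖ * ‖e‖ := h1
      _ ≤ |B| * 1 * ‖e‖ := by
          gcongr
          exact le_abs_self B
      _ = |B| * ‖e‖ := by rw [mul_one]
  obtain ⟨Q, hQ⟩ := exists_sup (fun i : I => (J i.1).toLinearMap) fun e =>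
    ⟨|B| * ‖e‖, fun i => hbd i e⟩
  have hzb : ∀ k : ℕ, ∃ C : ℝ, ∀ v : V, Q (ι (zk c L k v)) ≤ C * Q (ι v) := by
    intro k
    have hT : IsEnd c L act (zk c L k) := isEnd_zk hM k
    set T : V →ₗ[ℂ] V := zk c L k with hTd
    choose α hα using fun a => hs (T.comp (ζ a)) (hT.comp (hz a))
    obtain ⟨C, hC⟩ : ∃ C : ℝ, C = 1 + ∑ a, ∑ b, ‖α a b‖ := ⟨_, rfl⟩
    have hC0 : 0 < C := by
      have : 0 ≤ ∑ a, ∑ b, ‖α a b‖ :=
        Finset.sum_nonneg fun a _ => Finset.sum_nonneg fun b _ => norm_nonneg _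
      rw [hC]; linarith
    refine ⟨C, fun v => hQ.sup _ _ (mul_nonneg hC0.le (apply_nonneg Q _)) fun i => ?_⟩
    obtain ⟨l, ⟨R, hR⟩, hl⟩ := i
    have hcont : Continuous fun e => ((l.toLinearMap.comp ι).comp T) (PV R e) :=
      H2b_cont hG.inj (hM.fin R) hPV _
    let lT : E →L[ℂ] ℂ := ⟨((l.toLinearMap.comp ι).comp T).comp (PV R), hcont⟩
    have hlT : ∀ e, lT e = l (ι (T (PV R e))) := fun e => rfl
    have hlT1 : ∀ u, lT (ι u) = l (ι (T u)) := by
      intro u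
      rw [hlT, ← H2b_PV hM hPV (H2b_end hT) R u, ← hR]
    have hlT2 : ∀ e, lT e = lT (ι (PV R e)) := by
      intro e
      rw [hlT (ι (PV R e)), hPV.id R _ (hPV.mem R e), hlT]
    have hlT3 : ∀ a u, ‖lT (ι (ζ a u))‖ ≤ C * ‖ι u‖ := by
      intro a u
      have h1 : T (ζ a u) = ∑ b, α a b • ζ b u := by
        have := congrArg (fun S : V →ₗ[ℂ] V => S u) (hα a)
        simpa using this
      rw [hlT1, h1, map_sum, map_sum]
      calc ‖∑ b, l (ι (α a b • ζ b u))‖ ≤ ∑ b, ‖l (ι (α a b • ζ b u))‖ := norm_sum_le _ _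
        _ ≤ ∑ b, ‖α a b‖ * ‖ι u‖ := by
            refine Finset.sum_le_sum fun b _ => ?_
            rw [map_smul, map_smul, norm_smul]
            exact mul_le_mul_of_nonneg_left (hl b u) (norm_nonneg _)
        _ = (∑ b, ‖α a b‖) * ‖ι u‖ := by rw [Finset.sum_mul]
        _ ≤ C * ‖ι u‖ := by
            refine mul_le_mul_of_nonneg_right ?_ (norm_nonneg _)
            have h2 : ∑ b, ‖α a b‖ ≤ ∑ a, ∑ b, ‖α a b‖ :=
              Finset.single_le_sum (f := fun a => ∑ b, ‖α a b‖)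
                (fun a _ => Finset.sum_nonneg fun b _ => norm_nonneg _) (Finset.mem_univ a)
            rw [hC]; linarith
    have hCC : ((C : ℝ) : ℂ) ≠ 0 := by exact_mod_cast hC0.ne'
    have hnC : ‖((C : ℂ))⁻¹‖ = C⁻¹ := by
      rw [norm_inv, Complex.norm_real, Real.norm_of_nonneg hC0.le]
    let l' : I := ⟨(C : ℂ)⁻¹ • lT, ⟨R, fun e => by
        rw [_root_.smul_apply, _root_.smul_apply, ← hlT2]⟩, fun a u => by
        rw [_root_.smul_apply, norm_smul, hnC, inv_mul_le_iff₀ hC0]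
        exact hlT3 a u⟩
    have hmono := hJ.mono l l'.1 (ι (T v)) (ι v) C hC0.le (by
      intro g
      have e1 : l (π g (ι (T v))) = lT (π g (ι v)) := by
        rw [hR, ← analytic_cont hc hM hG hPV hfam hG hPV hfam T hT.1 hT.2 R g v, hlT]
      have e2 : l'.1 (π g (ι v)) = (C : ℂ)⁻¹ * lT (π g (ι v)) := rfl
      rw [e1, e2, norm_mul, hnC, ← mul_assoc, mul_inv_cancel₀ hC0.ne', one_mul])
    exact hmono.trans (mul_le_mul_of_nonneg_left (hQ.le l' (ι v)) hC0.le)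
  choose Cz hCz using hzb
  refine ⟨I, fun i => i.1, Q, Cz, |B|, hQ, fun e => hQ.sup _ _ (by positivity)
    fun i => hbd i e, ?_, hCz⟩
  intro v hv
  by_contra hne
  obtain ⟨R₀, -, hR₀⟩ := exists_mem_Vle hM.top v
  have hvR := hR₀ R₀ le_rfl
  obtain ⟨l₀, hl₀⟩ : ∃ l₀ : V →ₗ[ℂ] ℂ, l₀ v ≠ 0 := by
    by_contra hcon
    push Not at hcon
    exact hne ((Module.forall_dual_apply_eq_zero_iff ℂ v).1 hcon)
  have hcont : ∀ l : V →ₗ[ℂ] ℂ, Continuous fun e => l (PV R₀ e) := fun l =>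
    H2b_cont hG.inj (hM.fin R₀) hPV l
  let La : Fin (m + 1) → (E →L[ℂ] ℂ) := fun a => ⟨(l₀.comp (ζ a)).comp (PV R₀),
    hcont (l₀.comp (ζ a))⟩
  let L₀ : E →L[ℂ] ℂ := ⟨l₀.comp (PV R₀), hcont l₀⟩
  have hL₀ : ∀ e, L₀ e = l₀ (PV R₀ e) := fun e => rfl
  have hLa : ∀ a u, L₀ (ι (ζ a u)) = La a (ι u) := by
    intro a u
    rw [hL₀, H2b_PV hM hPV (H2b_end (hz a)) R₀ u]
    rfl
  obtain ⟨C, hC⟩ : ∃ C : ℝ, C = 1 + ∑ a, ‖La a‖ := ⟨_, rfl⟩
  have hC0 : 0 < C := by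
    have : 0 ≤ ∑ a, ‖La a‖ := Finset.sum_nonneg fun a _ => norm_nonneg _
    rw [hC]; linarith
  have hnC : ‖((C : ℂ))⁻¹‖ = C⁻¹ := by
    rw [norm_inv, Complex.norm_real, Real.norm_of_nonneg hC0.le]
  let i₀ : I := ⟨(C : ℂ)⁻¹ • L₀, ⟨R₀, fun e => by
      rw [_root_.smul_apply, _root_.smul_apply, hL₀ (ι (PV R₀ e)),
        hPV.id R₀ _ (hPV.mem R₀ e), hL₀]⟩, fun a u => by
      rw [_root_.smul_apply, norm_smul, hnC, inv_mul_le_iff₀ hC0, hLa]
      refine ((La a).le_opNorm _).trans (mul_le_mul_of_nonneg_right ?_ (norm_nonneg _))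
      have h2 : ‖La a‖ ≤ ∑ a, ‖La a‖ :=
        Finset.single_le_sum (f := fun a => ‖La a‖) (fun a _ => norm_nonneg _)
          (Finset.mem_univ a)
      rw [hC]; linarith⟩
  have h1 := hQ.le i₀ (ι v)
  rw [hv] at h1
  have h2 : J i₀.1 (ι v) = 0 := norm_le_zero_iff.1 h1
  have h3 := hJ.sep i₀.1 (ι v) h2
  have h4 : i₀.1 (ι v) = (C : ℂ)⁻¹ * l₀ v := by
    show (C : ℂ)⁻¹ • L₀ (ι v) = _
    rw [hL₀, hPV.id R₀ v hvR, smul_eq_mul]
  rw [h4, mul_eq_zero] at h3
  rcases h3 with h3 | h3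
  · rw [inv_eq_zero] at h3
    exact hC0.ne' (by exact_mod_cast h3)
  · exact hl₀ h3

end Pool.Agent.RG
end

section

/-!
# I4: the dyadic sum for a general symmetric operator
-/

namespace Pool.Agent.RG

open MeasureTheory Topology Filter Set
open scoped InnerProductSpace

universe u v

private theorem I4_sum_le {V : Type v} [AddCommGroup V] [Module ℂ V] (N : Seminorm ℂ V)
    (s : Finset ℕ) (g : ℕ → V) : N (∑ j ∈ s, g j) ≤ ∑ j ∈ s, N (g j) := by
  classical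
  induction s using Finset.induction_on with
  | empty => simp
  | insert a s ha ih =>
    rw [Finset.sum_insert ha, Finset.sum_insert ha]
    exact (map_add_le_add N _ _).trans (add_le_add le_rfl ih)

private theorem I4_geo (K : ℕ) {x : ℝ} (h0 : 0 ≤ x) (h1 : x ≤ 1 / 2) :
    ∑ j ∈ Finset.range K, x ^ j ≤ 2 := by
  have h2 : ∀ K : ℕ, ∑ j ∈ Finset.range K, (1 / 2 : ℝ) ^ j = 2 - 2 * (1 / 2) ^ K := by
    intro K
    induction K with
    | zero => norm_num
    | succ K ih =>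
      rw [Finset.sum_range_succ, ih, pow_succ]
      ring
  calc ∑ j ∈ Finset.range K, x ^ j ≤ ∑ j ∈ Finset.range K, (1 / 2 : ℝ) ^ j :=
        Finset.sum_le_sum fun j _ => pow_le_pow_left₀ h0 h1 j
    _ = 2 - 2 * (1 / 2) ^ K := h2 K
    _ ≤ 2 := by
        have : (0 : ℝ) ≤ 2 * (1 / 2) ^ K := by positivity
        linarith

private theorem I4_mult_le {V : Type v} [AddCommGroup V] [Module ℂ V]
    {H : Type u} [NormedAddCommGroup H] [InnerProductSpace ℂ H] {D : V →ₗ[ℂ] V} {T : V →ₗ[ℂ] H}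
    (h : ∀ u v : V, ⟪T (D u), T v⟫_ℂ = ⟪T u, T (D v)⟫_ℂ) (f : ℝ →₀ V)
    (hf : ∀ r : ℝ, D (f r) = (r : ℂ) • f r)
    (a b : ℝ → ℝ) (hab : ∀ r ∈ f.support, |a r| ≤ |b r|) :
    ‖T (f.sum fun r x => (a r : ℂ) • x)‖ ≤ ‖T (f.sum fun r x => (b r : ℂ) • x)‖ := by
  have hort : ∀ r s : ℝ, r ≠ s → ⟪T (f r), T (f s)⟫_ℂ = 0 := by
    intro r s hrs
    have h1 := h (f r) (f s)
    rw [hf, hf, map_smul, map_smul, inner_smul_left, inner_smul_right, Complex.conj_ofReal] at h1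
    have h2 : ((r : ℂ) - s) * ⟪T (f r), T (f s)⟫_ℂ = 0 := by linear_combination h1
    rcases mul_eq_zero.1 h2 with h3 | h3
    · exact absurd (by exact_mod_cast sub_eq_zero.1 h3) hrs
    · exact h3
  have key : ∀ a : ℝ → ℝ, ‖T (f.sum fun r x => (a r : ℂ) • x)‖ ^ 2 =
      ∑ r ∈ f.support, |a r| ^ 2 * ‖T (f r)‖ ^ 2 := by
    intro a
    have h1 := inner_self_eq_norm_sq_to_K (𝕜 := ℂ) (T (f.sum fun r x => (a r : ℂ) • x))
    have h2 : ⟪T (f.sum fun r x => (a r : ℂ) • x), T (f.sum fun r x => (a r : ℂ) • x)⟫_ℂ =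
        ((∑ r ∈ f.support, |a r| ^ 2 * ‖T (f r)‖ ^ 2 : ℝ) : ℂ) := by
      unfold Finsupp.sum
      rw [map_sum, sum_inner]
      push_cast
      refine Finset.sum_congr rfl fun r hr => ?_
      rw [inner_sum, Finset.sum_eq_single r]
      · rw [map_smul, inner_smul_left, inner_smul_right, Complex.conj_ofReal,
          inner_self_eq_norm_sq_to_K, ← mul_assoc, ← Complex.ofReal_mul, ← abs_mul_abs_self]
        push_cast
        simp only [sq]
        rfl
      · intro s _ hs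
        rw [map_smul, map_smul, inner_smul_left, inner_smul_right, hort r s (Ne.symm hs)]
        ring
      · intro hr'
        exact absurd hr hr'
    rw [h2] at h1
    have h3 : ((‖T (f.sum fun r x => (a r : ℂ) • x)‖ ^ 2 : ℝ) : ℂ) =
      ((∑ r ∈ f.support, |a r| ^ 2 * ‖T (f r)‖ ^ 2 : ℝ) : ℂ) := by
      rw [h1]
      push_cast
      rfl
    exact_mod_cast h3
  refine (sq_le_sq₀ (norm_nonneg _) (norm_nonneg _)).1 ?_
  rw [key, key]
  refine Finset.sum_le_sum fun r hr => mul_le_mul_of_nonneg_right ?_ (sq_nonneg _)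
  exact pow_le_pow_left₀ (abs_nonneg _) (hab r hr) 2

/-- DYADIC SUM for a symmetric operator `D` (this is `dyadic` of file H4 with `D` in place of `casK`; the delivered proof of `dyadic` is /team-store/MP_496a9e_SG_H4.lean, copy it).
PROOF. For `j : ℕ` let `I_j` be the set of `r` with `r ≤ 1` (`j = 0`) resp. `4^(j-1) < r ≤ 4^j` (`j ≥ 1`); the `I_j` are disjoint and cover `ℝ`. Let `v_j = Σ_{r ∈ I_j} f_r ∈ Vle D (2^j)`, nonzero for finitely many `j`, `Σ_j v_j = v`. `N v ≤ Σ_j N v_j ≤ Σ_j C b^j Q v_j`.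
Eigenvectors for different eigenvalues are orthogonal for `⟪T i ·, T i ·⟫` (`hT`), so (Pythagoras, as in `Ksk.mult_le`, file D2a, delivered proof /team-store/MP_496a9e_SG_D2a.lean) for `w = Σ (1+r)^(s/2) f_r`: `‖T v_j‖ ≤ 2^s 2^(-j s) ‖T w‖`: on the support of `f` all `r ≥ 0` (`hn`), and for `r ∈ I_j`,
`(1+r)^(s/2) ≥ 2^((j-1) s)`. So `Q v_j ≤ 2^s 2^(-js) Q w` and `N v ≤ C 2^s Σ_j (b 2^(-s))^j Q w ≤ 2 C 2^s Q w`, as `b 2^(-s) ≤ 1/2`. -/
theorem dyadic_gen {V I : Type v} [AddCommGroup V] [Module ℂ V]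
    {H : Type u} [NormedAddCommGroup H] [InnerProductSpace ℂ H] {D : V →ₗ[ℂ] V}
    (hn : ∀ (r : ℝ) (v : V), D v = (r : ℂ) • v → v ≠ 0 → 0 ≤ r) {T : I → V →ₗ[ℂ] H}
    (hT : ∀ (i : I) (u v : V), ⟪T i (D u), T i v⟫_ℂ = ⟪T i u, T i (D v)⟫_ℂ)
    (Q N : Seminorm ℂ V) (hQ : IsSup T Q) (C b s : ℝ) (hC : 0 ≤ C)
    (hb : 0 ≤ b) (hs : 2 * b ≤ 2 ^ s) (h0 : 0 ≤ s)
    (hN : ∀ j : ℕ, ∀ v ∈ Vle D (2 ^ j), N v ≤ C * b ^ j * Q v) (f : ℝ →₀ V)
    (hf : ∀ r : ℝ, D (f r) = (r : ℂ) • f r) :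
    N (f.sum fun _ x => x) ≤
      2 * C * 2 ^ s * Q (f.sum fun r x => (((1 + r) ^ (s / 2) : ℝ) : ℂ) • x) := by
  classical
  have hex : ∀ r : ℝ, ∃ j : ℕ, r ≤ 4 ^ j := fun r =>
    ((pow_unbounded_of_one_lt r (by norm_num : (1 : ℝ) < 4)).imp fun _ h => h.le)
  obtain ⟨jj, hjj⟩ : ∃ jj : ℝ → ℕ, ∀ r, jj r = Nat.find (hex r) := ⟨_, fun _ => rfl⟩
  have hj1 : ∀ r, r ≤ 4 ^ jj r := fun r => by rw [hjj]; exact Nat.find_spec (hex r)
  have hj2 : ∀ r, 0 ≤ r → (4 : ℝ) ^ ((jj r : ℝ) - 1) ≤ 1 + r := by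
    intro r hr
    rcases Nat.eq_zero_or_pos (jj r) with h | h
    · rw [h, Nat.cast_zero, zero_sub]
      have : (4 : ℝ) ^ (-1 : ℝ) ≤ 1 := Real.rpow_le_one_of_one_le_of_nonpos (by norm_num)
        (by norm_num)
      linarith
    · obtain ⟨k, hk⟩ : ∃ k, jj r = k + 1 := ⟨jj r - 1, by omega⟩
      have h1 : ¬ (r ≤ 4 ^ k) := by
        have h2 : k < Nat.find (hex r) := by rw [← hjj, hk]; exact Nat.lt_succ_self k
        exact Nat.find_min (hex r) h2
      push Not at h1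
      rw [hk]
      push_cast
      rw [add_sub_cancel_right, Real.rpow_natCast]
      linarith
  -- the pieces
  obtain ⟨K, hK⟩ : ∃ K : ℕ, ∀ r ∈ f.support, jj r ∈ Finset.range K :=
    ⟨f.support.sup jj + 1, fun r hr => Finset.mem_range.2
      (Nat.lt_succ_of_le (Finset.le_sup (f := jj) hr))⟩
  set vj : ℕ → V := fun j => ∑ r ∈ f.support with jj r = j, f r with hvj
  set w : V := f.sum fun r x => (((1 + r) ^ (s / 2) : ℝ) : ℂ) • x with hw
  have hsum : (f.sum fun _ x => x) = ∑ j ∈ Finset.range K, vj j := by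
    rw [hvj, Finsupp.sum]
    exact (Finset.sum_fiberwise_of_maps_to hK _).symm
  have hmem : ∀ j, vj j ∈ Vle (D) (2 ^ j) := by
    intro j
    refine Submodule.sum_mem _ fun r hr => ?_
    rw [Finset.mem_filter] at hr
    have h1 : r ≤ ((2 : ℝ) ^ j) ^ 2 := by
      have h2 := hj1 r
      rw [hr.2] at h2
      have h3 : ((2 : ℝ) ^ j) ^ 2 = 4 ^ j := by
        rw [← pow_mul, mul_comm, pow_mul]
        norm_num
      rw [h3]
      exact h2
    have h4 : f r ∈ Module.End.eigenspace (D) (r : ℂ) :=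
      Module.End.mem_eigenspace_iff.2 (hf r)
    exact Submodule.mem_iSup_of_mem r (Submodule.mem_iSup_of_mem h1 h4)
  have hQj : ∀ j, Q (vj j) ≤ 2 ^ s * (2 ^ (-s)) ^ j * Q w := by
    intro j
    have hp : (0 : ℝ) < 2 ^ s * (2 ^ (-s)) ^ j := by positivity
    refine hQ.sup _ _ (mul_nonneg hp.le (apply_nonneg Q w)) fun i => ?_
    have h1 := I4_mult_le (hT i) f hf (fun r => if jj r = j then 1 else 0)
      (fun r => 2 ^ s * (2 ^ (-s)) ^ j * (1 + r) ^ (s / 2)) (by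
      intro r hr
      have hr0 : 0 ≤ r := hn r (f r) (hf r) (Finsupp.mem_support_iff.1 hr)
      have hpos : 0 < 1 + r := by linarith
      have hp2 : 0 < 2 ^ s * (2 ^ (-s)) ^ j * (1 + r) ^ (s / 2) :=
        mul_pos hp (Real.rpow_pos_of_pos hpos _)
      by_cases hjr : jj r = j
      · simp only [hjr, if_true, abs_one]
        rw [abs_of_pos hp2]
        have h2 := hj2 r hr0
        rw [hjr] at h2
        have h3 : ((4 : ℝ) ^ ((j : ℝ) - 1)) ^ (s / 2) ≤ (1 + r) ^ (s / 2) :=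
          Real.rpow_le_rpow (by positivity) h2 (by linarith)
        have h4 : ((4 : ℝ) ^ ((j : ℝ) - 1)) ^ (s / 2) = 2 ^ (((j : ℝ) - 1) * s) := by
          have h5 : (4 : ℝ) = 2 ^ (2 : ℝ) := by norm_num
          rw [h5, ← Real.rpow_mul (by norm_num), ← Real.rpow_mul (by norm_num)]
          congr 1
          ring
        have h6 : (2 : ℝ) ^ s * (2 ^ (-s)) ^ j * 2 ^ (((j : ℝ) - 1) * s) = 1 := by
          rw [← Real.rpow_natCast, ← Real.rpow_mul (by norm_num), ← Real.rpow_add (by norm_num),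
            ← Real.rpow_add (by norm_num)]
          have : s + -s * (j : ℝ) + ((j : ℝ) - 1) * s = 0 := by ring
          rw [this, Real.rpow_zero]
        rw [h4] at h3
        calc (1 : ℝ) = 2 ^ s * (2 ^ (-s)) ^ j * 2 ^ (((j : ℝ) - 1) * s) := h6.symm
          _ ≤ 2 ^ s * (2 ^ (-s)) ^ j * (1 + r) ^ (s / 2) := by gcongr
      · simp only [hjr, if_false, abs_zero]
        exact abs_nonneg _)
    have h2 : (f.sum fun r x => (((if jj r = j then (1 : ℝ) else 0 : ℝ)) : ℂ) • x) = vj j := by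
      rw [hvj, Finsupp.sum]
      simp only
      rw [Finset.sum_filter]
      refine Finset.sum_congr rfl fun r _ => ?_
      by_cases hjr : jj r = j
      · simp [hjr]
      · simp [hjr]
    have h3 : (f.sum fun r x => ((2 ^ s * (2 ^ (-s)) ^ j * (1 + r) ^ (s / 2) : ℝ) : ℂ) • x) =
        ((2 ^ s * (2 ^ (-s)) ^ j : ℝ) : ℂ) • w := by
      rw [hw, Finsupp.sum, Finsupp.sum, Finset.smul_sum]
      refine Finset.sum_congr rfl fun r _ => ?_
      rw [smul_smul, ← Complex.ofReal_mul]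
    rw [h2, h3, map_smul, norm_smul, Complex.norm_real, Real.norm_of_nonneg hp.le] at h1
    exact h1.trans (mul_le_mul_of_nonneg_left (hQ.le i w) hp.le)
  have hx0 : 0 ≤ b * 2 ^ (-s) := by positivity
  have hx1 : b * 2 ^ (-s) ≤ 1 / 2 := by
    rw [Real.rpow_neg (by norm_num), ← div_eq_mul_inv, div_le_iff₀ (by positivity)]
    linarith
  rw [hsum]
  calc N (∑ j ∈ Finset.range K, vj j) ≤ ∑ j ∈ Finset.range K, N (vj j) := I4_sum_le N _ _
    _ ≤ ∑ j ∈ Finset.range K, (C * 2 ^ s * Q w) * (b * 2 ^ (-s)) ^ j := by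
        refine Finset.sum_le_sum fun j _ => (hN j _ (hmem j)).trans ?_
        calc C * b ^ j * Q (vj j) ≤ C * b ^ j * (2 ^ s * (2 ^ (-s)) ^ j * Q w) :=
              mul_le_mul_of_nonneg_left (hQj j) (by positivity)
          _ = (C * 2 ^ s * Q w) * (b * 2 ^ (-s)) ^ j := by rw [mul_pow]; ring
    _ = (C * 2 ^ s * Q w) * ∑ j ∈ Finset.range K, (b * 2 ^ (-s)) ^ j := by
        rw [Finset.mul_sum]
    _ ≤ (C * 2 ^ s * Q w) * 2 := by
        refine mul_le_mul_of_nonneg_left (I4_geo K hx0 hx1) ?_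
        have := apply_nonneg Q w
        positivity
    _ = 2 * C * 2 ^ s * Q w := by ring


end Pool.Agent.RG
end
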