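import Pool.Agent.Lib.MP_496a9e_al.Mg.G003
import Pool.Agent.Lib.MP_496a9e_al.Mg.G002
import Pool.Agent.Lib.MP_496a9e_al.Mg.G008
import Pool.Agent.Lib.MP_496a9e_al.Mg.G001
import Pool.Agent.Lib.MP_496a9e_al.Mg.G005

section

/-! A7: minimal vectors: the closure of the orbit of a point of the nilpotent cone contains `0` -/
end

section

/-!
# A8: the coordinates satisfy `IsCore`
-/

namespace Pool.Agent.RG

open Matrix Topology Set

universe u

/-- PROOF. Collect A4-A7 (`compact := hS.compact`). -/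
theorem isCore_coreOf {G : Type u} [Group G] [TopologicalSpace G] [IsTopologicalGroup G] {N : ℕ}
    {S : RData G N} {d : ℕ} {e : Fin d → Mat N} {kI : Finset (Fin d)} (hS : IsRed S)
    (h : IsAd S e kI) : IsCore (coreOf S e kI) := by
  exact {
    ex_add := core_ex_add hS h
    ex_cont := core_ex_cont hS h
    ex_open := core_ex_open hS h
    conj := core_conj hS h
    ad_one := core_ad_one hS h
    ad_mul := core_ad_mul hS h
    ad_cont := core_ad_cont hS
    ad_ex := core_ad_ex hS h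
    ad_M := core_ad_M hS h
    M_one := Mf_one hS
    M_mul := Mf_mul hS
    M_inv := Mf_inv
    M_ge := Mf_ge
    M_cont := Mf_cont hS
    M_ex := core_M_ex hS h
    M_K := fun _ hk => Mf_K hS hk
    K_one := K_one hS
    K_mul := fun _ hk _ hl => K_mul hS hk hl
    K_inv := fun _ hk => K_inv hS hk
    K_compact := hS.compact
    K_ex := core_K_ex hS h
    K_ex' := core_K_ex' hS h
    K_open := core_K_open hS h
    cartan := core_cartan hS h
    inj := core_inj hS h
    loc := core_loc hS h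
    t2 := core_t2 h
    geo := core_geo hS h }

end Pool.Agent.RG
end

section

/-!
# A9d: the module in coordinates; the invariants `z_k` are central
-/

namespace Pool.Agent.RG

open Matrix Topology Set

universe u v

variable {G : Type u} [Group G] [TopologicalSpace G] [IsTopologicalGroup G] {N : ℕ}
  {S : RData G N} {d : ℕ} {e : Fin d → Mat N} {kI : Finset (Fin d)} {V : Type v}
  [AddCommGroup V] [Module ℂ V] {M : GK G N V}

private theorem A9d_inv (hS : IsRed S) {k : G} (hk : k ∈ S.K) : S.φ k⁻¹ = (S.φ k)ᵀ := by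
  have h1 : (S.φ k)ᵀ * S.φ k = 1 := hk
  have h2 : S.φ k * S.φ k⁻¹ = 1 := by rw [← hS.mul, mul_inv_cancel, hS.one]
  calc S.φ k⁻¹ = ((S.φ k)ᵀ * S.φ k) * S.φ k⁻¹ := by rw [h1, one_mul]
    _ = (S.φ k)ᵀ := by rw [mul_assoc, h2, mul_one]

/-- the coefficients of the adjoint representation -/
private noncomputable def A9d_a (S : RData G N) (e : Fin d → Mat N) (k : G) (j i : Fin d) : ℝ :=
  ((e j)ᵀ * (S.φ k * e i * S.φ k⁻¹)).trace

private theorem A9d_exp (hS : IsRed S) (h : IsAd S e kI) (k : G) (i : Fin d) :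
    S.φ k * e i * S.φ k⁻¹ = ∑ j, A9d_a S e k j i • e j := by
  have h1 := hat_crd h (hS.ad_mem k (e i) (h.mem i))
  rw [← h1]
  rfl

private theorem A9d_orth (hS : IsRed S) (h : IsAd S e kI) {k : G} (hk : k ∈ S.K) (i l : Fin d) :
    ∑ j, A9d_a S e k j i * A9d_a S e k j l = if i = l then 1 else 0 := by
  have h1 : (S.φ k)ᵀ * S.φ k = 1 := hk
  have hinv := A9d_inv hS hk
  have h2 : ((S.φ k * e i * S.φ k⁻¹)ᵀ * (S.φ k * e l * S.φ k⁻¹)).trace =
      ((e i)ᵀ * e l).trace := by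
    rw [hinv, transpose_mul, transpose_mul, transpose_transpose]
    have h3 : S.φ k * ((e i)ᵀ * (S.φ k)ᵀ) * (S.φ k * e l * (S.φ k)ᵀ) =
        S.φ k * ((e i)ᵀ * (((S.φ k)ᵀ * S.φ k) * e l)) * (S.φ k)ᵀ := by
      simp only [mul_assoc]
    rw [h3, h1, one_mul, trace_mul_comm, ← mul_assoc, h1, one_mul]
  rw [← h.orth i l, ← h2, A9d_exp hS h k l, Finset.mul_sum, trace_sum]
  refine Finset.sum_congr rfl fun j _ => ?_
  rw [mul_smul_comm, trace_smul, smul_eq_mul, mul_comm]
  congr 1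
  have h4 : ((S.φ k * e i * S.φ k⁻¹)ᵀ * e j).trace = ((e j)ᵀ * (S.φ k * e i * S.φ k⁻¹)).trace := by
    rw [← trace_transpose, transpose_mul, transpose_transpose]
  rw [h4]
  rfl

private theorem A9d_orth' (hS : IsRed S) (h : IsAd S e kI) {k : G} (hk : k ∈ S.K) (i l : Fin d) :
    ∑ j, A9d_a S e k i j * A9d_a S e k l j = if i = l then 1 else 0 := by
  let A : Matrix (Fin d) (Fin d) ℝ := Matrix.of fun j i => A9d_a S e k j i
  have h1 : Aᵀ * A = 1 := by
    ext i l
    rw [Matrix.mul_apply, Matrix.one_apply]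
    exact A9d_orth hS h hk i l
  have h2 : A * Aᵀ = 1 := mul_eq_one_comm.mp h1
  have h3 : (A * Aᵀ) i l = (1 : Matrix (Fin d) (Fin d) ℝ) i l := by rw [h2]
  rw [Matrix.mul_apply, Matrix.one_apply] at h3
  exact h3

/-- The trace of the product of a symmetric and a skew matrix is zero. -/
private theorem A9d_sk {X Y : Mat N} (hX : Xᵀ = X) (hY : Yᵀ = -Y) : (X * Y).trace = 0 := by
  have h1 : (X * Y).trace = -(X * Y).trace := by
    calc (X * Y).trace = ((X * Y)ᵀ).trace := (trace_transpose _).symm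
      _ = (-Y * X).trace := by rw [transpose_mul, hX, hY]
      _ = -(X * Y).trace := by rw [neg_mul, trace_neg, trace_mul_comm]
  linarith

private theorem A9d_zero (hS : IsRed S) (h : IsAd S e kI) {k : G} (hk : k ∈ S.K) {i j : Fin d}
    (hij : (i ∈ kI ∧ j ∉ kI) ∨ (i ∉ kI ∧ j ∈ kI)) : A9d_a S e k j i = 0 := by
  unfold A9d_a
  rw [A9d_inv hS hk]
  rcases hij with ⟨hi, hj⟩ | ⟨hi, hj⟩
  · have h1 : (S.φ k * e i * (S.φ k)ᵀ)ᵀ = -(S.φ k * e i * (S.φ k)ᵀ) := by
      rw [transpose_mul, transpose_mul, transpose_transpose, h.skew i hi]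
      simp [mul_assoc]
    have h2 : ((e j)ᵀ)ᵀ = (e j)ᵀ := by rw [transpose_transpose, h.symm j hj]
    exact A9d_sk h2 h1
  · have h1 : (S.φ k * e i * (S.φ k)ᵀ)ᵀ = S.φ k * e i * (S.φ k)ᵀ := by
      rw [transpose_mul, transpose_mul, transpose_transpose, h.symm i hi]
      simp [mul_assoc]
    have h2 : ((e j)ᵀ)ᵀ = -(e j)ᵀ := by rw [transpose_transpose, h.skew j hj, neg_neg]
    rw [trace_mul_comm]
    exact A9d_sk h1 h2

private theorem A9d_B (hS : IsRed S) (h : IsAd S e kI) {k : G} (hk : k ∈ S.K) (j l : Fin d) :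
    ∑ i ∈ kI, A9d_a S e k j i * A9d_a S e k l i = if j = l ∧ j ∈ kI then 1 else 0 := by
  by_cases hj : j ∈ kI
  · have h1 : ∑ i ∈ kI, A9d_a S e k j i * A9d_a S e k l i =
        ∑ i, A9d_a S e k j i * A9d_a S e k l i := by
      refine Finset.sum_subset (Finset.subset_univ kI) fun i _ hi => ?_
      rw [A9d_zero hS h hk (Or.inr ⟨hi, hj⟩), zero_mul]
    rw [h1, A9d_orth' hS h hk]
    simp [hj]
  · rw [if_neg (fun h2 => hj h2.2)]
    refine Finset.sum_eq_zero fun i hi => ?_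
    rw [A9d_zero hS h hk (Or.inl ⟨hi, hj⟩), zero_mul]

private theorem A9d_L (Y : Ed d) (u : V) : lieOf M e Y u = ∑ j, Y j • M.lie (e j) u := by
  unfold lieOf
  simp [LinearMap.sum_apply]

private theorem A9d_ad (k : G) (i j : Fin d) :
    ((coreOf S e kI).ad k (eb i)) j = A9d_a S e k j i := by
  have h1 : (coreOf S e kI).ad k (eb i) = crd e (S.φ k * e i * S.φ k⁻¹) := by
    change (∑ i', (EuclideanSpace.proj i' : Ed d →L[ℝ] ℝ).smulRight
      (crd e (S.φ k * e i' * S.φ k⁻¹))) (eb i) = _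
    rw [ContinuousLinearMap.sum_apply, Finset.sum_eq_single i]
    · simp [eb]
    · intro b _ hb
      simp [eb, hb]
    · intro h2
      exact absurd (Finset.mem_univ i) h2
  rw [h1]
  rfl

/-- PROOF. For `k ∈ K`, `X ↦ φk X φk⁻¹ = φk X (φk)ᵀ` preserves the inner product, `alg` and the skew matrices, so `f_i = φk e_i φk⁻¹`, `i ∈ kI`, is another orthonormal basis of the skew part of `alg`: `f_i = Σ_{j ∈ kI} a_ji e_j` with `(a_ji)` orthogonal. `act k (casK v) = -Σ_{i ∈ kI} lie(f_i) lie(f_i) (act k v)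
= -Σ_i Σ_{j,l} a_ji a_li lie(e_j) lie(e_l) (act k v) = casK (act k v)` (`Σ_i a_ji a_li = δ_jl` for an orthogonal matrix: from `Σ_j a_ji a_jl = δ_il`, square matrix). -/
theorem casK_act (hS : IsRed S) (hM : IsGK S M) (h : IsAd S e kI) (k : G) (hk : k ∈ S.K)
    (v : V) :
    casK (coreOf S e kI) (lieOf M e) (M.act k v) = M.act k (casK (coreOf S e kI) (lieOf M e) v) := by
  have hL : ∀ (i : Fin d) (u : V), lieOf M e (eb i) u = M.lie (e i) u := by
    intro i u
    rw [A9d_L, Finset.sum_eq_single i]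
    · simp [eb]
    · intro b _ hb
      simp [eb, hb]
    · intro h2
      exact absurd (Finset.mem_univ i) h2
  have hcas : ∀ u : V, casK (coreOf S e kI) (lieOf M e) u =
      -∑ i ∈ kI, M.lie (e i) (M.lie (e i) u) := by
    intro u
    change (-∑ i ∈ kI, (lieOf M e (eb i)).comp (lieOf M e (eb i))) u = _
    rw [LinearMap.neg_apply, LinearMap.sum_apply]
    congr 1
    refine Finset.sum_congr rfl fun i _ => ?_
    rw [LinearMap.comp_apply, hL, hL]
  rw [hcas, hcas, map_neg, map_sum]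
  congr 1
  set w := M.act k v with hw
  have hterm : ∀ i, M.act k (M.lie (e i) (M.lie (e i) v)) =
      ∑ j, ∑ l, (A9d_a S e k j i * A9d_a S e k l i) • M.lie (e j) (M.lie (e l) w) := by
    intro i
    rw [← hL i (M.lie (e i) v), ← hL i v, lieOf_compat hS hM h k hk,
      lieOf_compat hS hM h k hk, A9d_L, A9d_L]
    refine Finset.sum_congr rfl fun j _ => ?_
    rw [A9d_ad, map_sum, Finset.smul_sum]
    refine Finset.sum_congr rfl fun l _ => ?_
    rw [A9d_ad, LinearMap.map_smul_of_tower, smul_smul]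
  rw [Finset.sum_congr rfl fun i _ => hterm i, Finset.sum_comm]
  have hin : ∀ j, ∑ i ∈ kI, ∑ l, (A9d_a S e k j i * A9d_a S e k l i) • M.lie (e j) (M.lie (e l) w) =
      if j ∈ kI then M.lie (e j) (M.lie (e j) w) else 0 := by
    intro j
    rw [Finset.sum_comm]
    have h3 : ∀ l, ∑ i ∈ kI, (A9d_a S e k j i * A9d_a S e k l i) • M.lie (e j) (M.lie (e l) w) =
        if j = l ∧ j ∈ kI then M.lie (e j) (M.lie (e l) w) else 0 := by
      intro l
      rw [← Finset.sum_smul, A9d_B hS h hk]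
      split_ifs with h4
      · rw [one_smul]
      · rw [zero_smul]
    rw [Finset.sum_congr rfl fun l _ => h3 l]
    by_cases hj : j ∈ kI
    · simp [hj]
    · simp [hj]
  rw [Finset.sum_congr rfl fun j _ => hin j, Finset.sum_ite_mem, Finset.univ_inter]

end Pool.Agent.RG
end

section

/-! A9: the module in coordinates; the invariants `z_k` are central -/
end

section

/-!
# B5: a Harish-Chandra module satisfies `IsMd` in coordinates
-/

namespace Pool.Agent.RG

open MeasureTheory Topology Filter Set Matrix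

universe u v

set_option linter.unusedSectionVars false

variable {G : Type u} [Group G] [TopologicalSpace G] [IsTopologicalGroup G] [T2Space G] {N : ℕ}
  {S : RData G N} {d : ℕ} {e : Fin d → Mat N} {kI : Finset (Fin d)} {V : Type v}
  [AddCommGroup V] [Module ℂ V] {M : GK G N V}

/-- The matrix of a vector in the Lie algebra. -/
theorem B5_mem (h : IsAd S e kI) (Y : Ed d) : hat e Y ∈ S.alg := by
  unfold hat
  exact Submodule.sum_mem _ fun i _ => Submodule.smul_mem _ _ (h.mem i)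

/-- `hat e` is homogeneous. -/
theorem B5_smul (t : ℝ) (Y : Ed d) : hat e (t • Y) = t • hat e Y := by
  unfold hat
  rw [Finset.smul_sum]
  refine Finset.sum_congr rfl fun i _ => ?_
  rw [PiLp.smul_apply, smul_eq_mul, mul_smul]

/-- Vectors with coordinates in `kI` are skew-symmetric. -/
theorem B5_skew (h : IsAd S e kI) (Y : Ed d) (hY : ∀ i ∉ kI, Y i = 0) :
    (hat e Y)ᵀ = -hat e Y := by
  unfold hat
  rw [Matrix.transpose_sum, ← Finset.sum_neg_distrib]
  refine Finset.sum_congr rfl fun i _ => ?_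
  rw [Matrix.transpose_smul]
  by_cases hi : i ∈ kI
  · rw [h.skew i hi, smul_neg]
  · rw [hY i hi, zero_smul, zero_smul, neg_zero]

/-- PROOF. `hM.act_one` etc.; `diff`: `hat e Y` is skew-symmetric in `alg` if `Y i = 0` for `i ∉ kI`; `ex (t • Y) = exp (t • hat Y)`, `lieOf_eq`. -/
theorem isKm (hS : IsRed S) (h : IsAd S e kI) (hM : IsGK S M) :
    IsKm (coreOf S e kI) (lieOf M e) M.act := by
  refine ⟨hM.act_one, hM.act_mul, hM.fin, hM.cont, fun Y hY v f => ?_⟩
  have h1 := hM.diff (hat e Y) (B5_mem h Y) (B5_skew h Y hY) v f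
  rw [lieOf_eq hM h Y]
  have h2 : (fun t : ℝ => f (M.act ((coreOf S e kI).ex (t • Y)) v)) =
      fun t : ℝ => f (M.act (S.exp (t • hat e Y)) v) := by
    funext t
    rw [← B5_smul]
    rfl
  rw [h2]
  exact h1

/-- PROOF. `lieOf_brk`, `lieOf_compat`, `zk_lie`, `zk_act`, `casK_act`, `casK_diag`, `fin_Vle` (`hadm`: a submodule of `K`-maps is contained in `homK S M m τ`, finite dimensional by `hH.adm`; `Submodule.finiteDimensional_of_le`). -/
theorem isMd (hS : IsRed S) (h : IsAd S e kI) (hM : IsGK S M) (hH : IsHC S M) :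
    IsMd (coreOf S e kI) (lieOf M e) M.act := by
  have hc := isCore_coreOf hS h
  have hK := isKm hS h hM
  have hD := casK_diag hc hK
  refine {
    brk := lieOf_brk hS hM h
    act_one := hM.act_one
    act_mul := hM.act_mul
    compat := fun k hk Y v => lieOf_compat hS hM h k hk Y v
    zL := fun k Y v => zk_lie hS hM h k Y v
    zK := fun k l hl v => zk_act hS hM h k l hl v
    cK := fun k hk v => casK_act hS hM h k hk v
    nonneg := hD.2
    top := hD.1
    fin := fun R => fin_Vle hc hK ?_ R }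
  intro m τ h1 h2 h3 W hW
  have h4 : FiniteDimensional ℂ (homK S M m τ) := hH.adm m τ h1 h2 h3
  exact Submodule.finiteDimensional_of_le (S₂ := homK S M m τ) fun T hT => hW T hT

end Pool.Agent.RG
end

section

/-!
# I1: adapted bases, and families spanning the Lie algebra of `K`
-/

namespace Pool.Agent.RG

open Matrix

universe u v

variable {G : Type u} {N : ℕ} {S : RData G N}

/-- The matrices as a Euclidean space. -/
private noncomputable def I1_T (N : ℕ) : Mat N ≃ₗ[ℝ] EuclideanSpace ℝ (Fin N × Fin N) where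
  toFun X := WithLp.toLp 2 fun p => X p.1 p.2
  invFun x := Matrix.of fun i j => x (i, j)
  map_add' X Y := by
    ext p
    rfl
  map_smul' c X := by
    ext p
    rfl
  left_inv X := by
    ext i j
    rfl
  right_inv x := by
    ext p
    rfl

private theorem I1_inner (X Y : Mat N) : inner ℝ (I1_T N X) (I1_T N Y) = (Xᵀ * Y).trace := by
  rw [PiLp.inner_apply, Fintype.sum_prod_type, Matrix.trace, Finset.sum_comm]
  refine Finset.sum_congr rfl fun j _ => ?_
  rw [Matrix.diag_apply, Matrix.mul_apply]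
  refine Finset.sum_congr rfl fun i _ => ?_
  rw [Matrix.transpose_apply]
  change inner ℝ (X i j) (Y i j) = X i j * Y i j
  rw [real_inner_eq_re_inner]
  simp [mul_comm]

/-- The skew-symmetric matrices in the Lie algebra. -/
private def I1_p (S : RData G N) : Submodule ℝ (Mat N) where
  carrier := {X | X ∈ S.alg ∧ Xᵀ = -X}
  add_mem' := by
    rintro a b ⟨ha, ha'⟩ ⟨hb, hb'⟩
    refine ⟨S.alg.add_mem ha hb, ?_⟩
    rw [Matrix.transpose_add, ha', hb', neg_add]
  zero_mem' := ⟨S.alg.zero_mem, by rw [Matrix.transpose_zero, neg_zero]⟩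
  smul_mem' := by
    rintro c a ⟨ha, ha'⟩
    refine ⟨S.alg.smul_mem c ha, ?_⟩
    rw [Matrix.transpose_smul, ha', smul_neg]

/-- PROOF. `⟨X, Y⟩ = tr(Xᵀ Y)` is an inner product on the finite dimensional space `{X ∈ alg | Xᵀ = -X}`; take an orthonormal
basis (see the proof of `exists_adapted` for a transport along `Mat N ≃ EuclideanSpace ℝ (Fin N × Fin N)`, `stdOrthonormalBasis`). -/
theorem exists_basisK (S : RData G N) : ∃ (D : ℕ) (b : Fin D → Mat N), IsBasisK S b := by
  classical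
  set q : Submodule ℝ (EuclideanSpace ℝ (Fin N × Fin N)) :=
    (I1_p S).map (I1_T N).toLinearMap with hq
  let B := stdOrthonormalBasis ℝ q
  have hmem : ∀ i, (I1_T N).symm (B i : EuclideanSpace ℝ (Fin N × Fin N)) ∈ I1_p S := by
    intro i
    obtain ⟨X, hX, hXB⟩ := Submodule.mem_map.1 (B i).2
    have h : (I1_T N).symm (B i : EuclideanSpace ℝ (Fin N × Fin N)) = X := by
      rw [← hXB]
      exact (I1_T N).symm_apply_apply X
    rw [h]
    exact hX
  refine ⟨Module.finrank ℝ q, fun i => (I1_T N).symm (B i : EuclideanSpace ℝ (Fin N × Fin N)),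
    ⟨fun i => (hmem i).1, fun i => (hmem i).2, ?_, ?_⟩⟩
  · intro i j
    rw [← I1_inner, LinearEquiv.apply_symm_apply, LinearEquiv.apply_symm_apply]
    have h := orthonormal_iff_ite.1 B.orthonormal i j
    rw [Submodule.coe_inner] at h
    exact h
  · intro X hX hX'
    have hm : I1_T N X ∈ q := Submodule.mem_map_of_mem (p := I1_p S) ⟨hX, hX'⟩
    have h := B.sum_repr ⟨I1_T N X, hm⟩
    have h2 := congrArg (fun x : q => (I1_T N).symm (x : EuclideanSpace ℝ (Fin N × Fin N))) h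
    simp only [LinearEquiv.symm_apply_apply, Submodule.coe_sum, Submodule.coe_smul,
      map_sum, map_smul] at h2
    rw [← h2]
    refine Submodule.sum_mem _ fun i _ => Submodule.smul_mem _ _ ?_
    exact Submodule.subset_span ⟨i, rfl⟩

/-- `-∑ (L (B i))²` -/
noncomputable def lapB {d D : ℕ} {V : Type v} [AddCommGroup V] [Module ℂ V] (B : Fin D → Ed d)
    (L : Ed d →ₗ[ℝ] (V →ₗ[ℂ] V)) : V →ₗ[ℂ] V :=
  -∑ i, (L (B i)).comp (L (B i))

/-- The `B i` span the Lie algebra of `K` (in coordinates). -/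
structure IsSpB {G : Type u} {d D : ℕ} (c : Core G d) (B : Fin D → Ed d) : Prop where
  supp : ∀ i, ∀ j ∉ c.kI, B i j = 0
  span : ∀ j ∈ c.kI, (eb j : Ed d) ∈ Submodule.span ℝ (Set.range B)

/-- PROOF. `supp`: `crd e (b i) j = tr(e_jᵀ b_i) = 0` for `j ∉ kI`, as `e_j` is symmetric and `b_i` is skew (`tr(e_j b_i) = tr((e_j b_i)ᵀ) = -tr(b_i e_j)`). `span`: `e_j ∈ span (b i)` for `j ∈ kI` (`hb.span`, `h.mem`, `h.skew`);
the coordinate map `crd e` is linear (`crd_add`, `crd_smul`) and `crd e (e j) = eb j` (`h.orth`). -/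
theorem isSpB_crd [Group G] {d : ℕ} {e : Fin d → Mat N} {kI : Finset (Fin d)} (h : IsAd S e kI) {D : ℕ}
    {b : Fin D → Mat N} (hb : IsSpanK S b) :
    IsSpB (coreOf S e kI) fun i => crd e (b i) := by
  refine ⟨fun i j hj => ?_, fun j hj => ?_⟩
  · change ((e j)ᵀ * b i).trace = 0
    have h1 : ((e j)ᵀ * b i).trace = ((b i)ᵀ * e j).trace := by
      rw [← Matrix.trace_transpose, Matrix.transpose_mul, Matrix.transpose_transpose]
    have h2 : ((b i)ᵀ * e j).trace = -((e j)ᵀ * b i).trace := by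
      rw [hb.skew i, h.symm j hj, Matrix.trace_mul_comm, Matrix.mul_neg, Matrix.trace_neg]
    linarith
  · let F : Mat N →ₗ[ℝ] Ed d :=
      { toFun := crd e
        map_add' := crd_add e
        map_smul' := fun a X => crd_smul e a X }
    have h1 : F (e j) = eb j := by
      change crd e (e j) = eb j
      ext i
      change ((e i)ᵀ * e j).trace = (eb j : Ed d) i
      rw [h.orth]
      simp [eb]
    have h2 : e j ∈ Submodule.span ℝ (Set.range b) := hb.span _ (h.mem j) (h.skew j hj)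
    have h3 : F (e j) ∈ (Submodule.span ℝ (Set.range b)).map F := Submodule.mem_map_of_mem h2
    rw [Submodule.map_span, ← Set.range_comp, h1] at h3
    exact h3

private theorem I1_lieOf [Group G] [TopologicalSpace G] {d : ℕ} {e : Fin d → Mat N}
    {kI : Finset (Fin d)} (h : IsAd S e kI) {V : Type v} [AddCommGroup V] [Module ℂ V]
    {M : GK G N V} (hM : IsGK S M) (Y : Ed d) : lieOf M e Y = M.lie (hat e Y) := by
  have h0 : M.lie 0 = 0 := by
    have h1 := hM.lie_smul 0 0 S.alg.zero_mem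
    rwa [smul_zero, Complex.ofReal_zero, zero_smul] at h1
  have key : ∀ s : Finset (Fin d), (∑ i ∈ s, Y i • e i) ∈ S.alg ∧
      M.lie (∑ i ∈ s, Y i • e i) = ∑ i ∈ s, (Y i : ℂ) • M.lie (e i) := by
    classical
    intro s
    induction s using Finset.induction_on with
    | empty => exact ⟨by simp, by simp [h0]⟩
    | insert a s ha ih =>
      rw [Finset.sum_insert ha, Finset.sum_insert ha]
      have hm : Y a • e a ∈ S.alg := S.alg.smul_mem _ (h.mem a)
      refine ⟨S.alg.add_mem hm ih.1, ?_⟩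
      rw [hM.lie_add _ hm _ ih.1, ih.2, hM.lie_smul _ _ (h.mem a)]
  unfold lieOf hat
  rw [(key Finset.univ).2, LinearMap.sum_apply]
  refine Finset.sum_congr rfl fun i _ => ?_
  rfl

/-- PROOF. `lieOf M e (crd e (b i)) = M.lie (hat e (crd e (b i))) = M.lie (b i)` (`lieOf_eq`, `hat_crd`). -/
theorem lapB_eq [Group G] [TopologicalSpace G] {d : ℕ} {e : Fin d → Mat N} {kI : Finset (Fin d)}
    (h : IsAd S e kI) {V : Type v} [AddCommGroup V] [Module ℂ V] {M : GK G N V} (hM : IsGK S M)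
    {D : ℕ} {b : Fin D → Mat N} (hb : IsSpanK S b) :
    lapK M b = lapB (fun i => crd e (b i)) (lieOf M e) := by
  unfold lapK lapB
  congr 1
  refine Finset.sum_congr rfl fun i _ => ?_
  rw [I1_lieOf h hM, hat_crd h (hb.mem i)]

end Pool.Agent.RG
end

section

/-!
# I2: general Laplace operators of `K`
-/

namespace Pool.Agent.RG

open MeasureTheory Topology Filter Set
open scoped InnerProductSpace

universe u v

/-- `casK` commutes with the Lie algebra of `K`.
PROOF. Let `f` be a linear functional on `V`. `t ↦ f (act (ex (t • Y)) (casK v))` has derivative `f (L Y (casK v))` at `0`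
(`hk.diff`), and `t ↦ f (casK (act (ex (t • Y)) v))`, i.e. `f ∘ casK` applied to `act (ex (t • Y)) v`, has derivative
`f (casK (L Y v))`. The two functions agree: `ex (t • Y) ∈ K` (`hc.K_ex'`) and `hM.cK`. So `f (casK (L Y v)) = f (L Y (casK v))`
for all `f` (`HasDerivAt.unique`), and linear functionals separate points (`Module.forall_dual_apply_eq_zero_iff`). -/
theorem casK_comm {G : Type u} [Group G] [TopologicalSpace G] {d : ℕ} {c : Core G d} {V : Type v}
    [AddCommGroup V] [Module ℂ V] {L : Ed d →ₗ[ℝ] (V →ₗ[ℂ] V)} {act : G → V →ₗ[ℂ] V}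
    (hc : IsCore c) (hM : IsMd c L act) (hk : IsKm c L act) {Y : Ed d}
    (hY : ∀ i ∉ c.kI, Y i = 0) (v : V) : casK c L (L Y v) = L Y (casK c L v) := by
  have key : ∀ f : V →ₗ[ℂ] ℂ, f (casK c L (L Y v)) = f (L Y (casK c L v)) := by
    intro f
    have h1 := hk.diff Y hY (casK c L v) f
    have h2 := hk.diff Y hY v (f.comp (casK c L))
    have h3 : (fun t : ℝ => f (act (c.ex (t • Y)) (casK c L v))) =
        fun t : ℝ => (f.comp (casK c L)) (act (c.ex (t • Y)) v) := by
      funext t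
      have hm : c.ex (t • Y) ∈ c.K := hc.K_ex' _ fun i hi => by simp [hY i hi]
      change f _ = f _
      rw [hM.cK _ hm]
    rw [h3] at h1
    exact h2.unique h1
  rw [← sub_eq_zero]
  refine (Module.forall_dual_apply_eq_zero_iff ℂ _).1 fun f => ?_
  rw [map_sub, key f, sub_self]

variable {G : Type u} {d : ℕ} {c : Core G d} {V : Type v} [AddCommGroup V] [Module ℂ V]
  {H : Type u} [NormedAddCommGroup H] [InnerProductSpace ℂ H] {L : Ed d →ₗ[ℝ] (V →ₗ[ℂ] V)}
  {T : V →ₗ[ℂ] H}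

/-- expansion of `L Y` -/
private theorem I2_exp (L : Ed d →ₗ[ℝ] (V →ₗ[ℂ] V)) {kI : Finset (Fin d)} {Y : Ed d}
    (hY : ∀ i ∉ kI, Y i = 0) (v : V) :
    L Y v = ∑ i ∈ kI, ((Y i : ℝ) : ℂ) • L (eb i) v := by
  have h1 : Y = ∑ i ∈ kI, Y i • (eb i : Ed d) := by
    ext j
    rw [WithLp.ofLp_sum, Finset.sum_apply]
    by_cases hj : j ∈ kI
    · rw [Finset.sum_eq_single j]
      · simp [eb]
      · intro i _ hij
        simp [eb, hij.symm]
      · intro h
        exact absurd hj h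
    · rw [hY j hj, Finset.sum_eq_zero]
      intro i hi
      have hij : j ≠ i := fun h => hj (h ▸ hi)
      simp [eb, hij]
  conv_lhs => rw [h1]
  rw [map_sum, LinearMap.sum_apply]
  refine Finset.sum_congr rfl fun i _ => ?_
  rw [map_smul]
  rfl

/-- PROOF. `Y = Σ_{i ∈ kI} Y i • eb i` (`hY`), linearity (`L (r • Y) v = (r : ℂ) • L Y v`, real `r`). -/
theorem Ksk.skewY (h : Ksk c L T) {Y : Ed d} (hY : ∀ i ∉ c.kI, Y i = 0) (u v : V) :
    ⟪T (L Y u), T v⟫_ℂ + ⟪T u, T (L Y v)⟫_ℂ = 0 := by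
  rw [I2_exp L hY u, I2_exp L hY v, map_sum, map_sum, sum_inner, inner_sum,
    ← Finset.sum_add_distrib]
  refine Finset.sum_eq_zero fun i hi => ?_
  rw [map_smul, map_smul, inner_smul_left, inner_smul_right, Complex.conj_ofReal, ← mul_add,
    h i hi u v, mul_zero]

/-- PROOF. As `Ksk.symm`, with `Ksk.skewY`. -/
theorem Ksk.symmB (h : Ksk c L T) {D : ℕ} {B : Fin D → Ed d} (hB : IsSpB c B) (u v : V) :
    ⟪T (lapB B L u), T v⟫_ℂ = ⟪T u, T (lapB B L v)⟫_ℂ := by
  have h1 : ∀ i ∈ (Finset.univ : Finset (Fin D)), ⟪T (L (B i) (L (B i) u)), T v⟫_ℂ =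
      ⟪T u, T (L (B i) (L (B i) v))⟫_ℂ := fun i _ => by
    have a1 := h.skewY (hB.supp i) (L (B i) u) v
    have a2 := h.skewY (hB.supp i) u (L (B i) v)
    linear_combination a1 - a2
  unfold lapB
  simp only [LinearMap.neg_apply, LinearMap.sum_apply, LinearMap.comp_apply, map_neg, map_sum,
    inner_neg_left, inner_neg_right, sum_inner, inner_sum]
  rw [Finset.sum_congr rfl h1]

/-- PROOF. As `Ksk.energy`, with `Ksk.skewY`. -/
theorem Ksk.energyB (h : Ksk c L T) {D : ℕ} {B : Fin D → Ed d} (hB : IsSpB c B) (v : V) :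
    ⟪T (lapB B L v), T v⟫_ℂ = ((∑ i, ‖T (L (B i) v)‖ ^ 2 : ℝ) : ℂ) := by
  have h1 : ∀ i ∈ (Finset.univ : Finset (Fin D)), ⟪T (L (B i) (L (B i) v)), T v⟫_ℂ =
      -((‖T (L (B i) v)‖ ^ 2 : ℝ) : ℂ) := fun i _ => by
    have a1 := h.skewY (hB.supp i) (L (B i) v) v
    have a2 := inner_self_eq_norm_sq_to_K (𝕜 := ℂ) (T (L (B i) v))
    rw [a2] at a1
    push_cast
    exact eq_neg_of_add_eq_zero_left a1
  unfold lapB
  simp only [LinearMap.neg_apply, LinearMap.sum_apply, LinearMap.comp_apply, map_neg, map_sum,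
    inner_neg_left, sum_inner]
  rw [Finset.sum_congr rfl h1, Finset.sum_neg_distrib, neg_neg]
  push_cast
  rfl

/-- PROOF. `eb j = Σ_i n j i • B i` for `j ∈ kI` (`hB.span`, `Submodule.mem_span_range_iff_exists_fun`), so `T (L (eb j) v) = Σ_i n j i T (L (B i) v)` and
`‖..‖² ≤ (Σ_i (n j i)²) (Σ_i ‖T (L (B i) v)‖²)` (triangle inequality and Cauchy-Schwarz `Finset.sum_mul_sq_le_sq_mul_sq`). `a = 1 + Σ_j Σ_i (n j i)²`. -/
theorem exists_comp {D : ℕ} {B : Fin D → Ed d} (hB : IsSpB c B) :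
    ∃ a : ℝ, 1 ≤ a ∧ ∀ (V : Type v) (H : Type u) [AddCommGroup V] [Module ℂ V]
      [NormedAddCommGroup H] [InnerProductSpace ℂ H] (L : Ed d →ₗ[ℝ] (V →ₗ[ℂ] V))
      (T : V →ₗ[ℂ] H) (v : V),
      ∑ j ∈ c.kI, ‖T (L (eb j) v)‖ ^ 2 ≤ a * ∑ i, ‖T (L (B i) v)‖ ^ 2 := by
  classical
  have h0 : ∀ j, ∃ n : Fin D → ℝ, j ∈ c.kI → ∑ i, n i • B i = (eb j : Ed d) := by
    intro j
    by_cases hj : j ∈ c.kI
    · obtain ⟨n, hn⟩ := (Submodule.mem_span_range_iff_exists_fun ℝ).1 (hB.span j hj)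
      exact ⟨n, fun _ => hn⟩
    · exact ⟨0, fun h => absurd h hj⟩
  choose n hn using h0
  have hpos : 0 ≤ ∑ j ∈ c.kI, ∑ i, |n j i| ^ 2 :=
    Finset.sum_nonneg fun j _ => Finset.sum_nonneg fun i _ => sq_nonneg _
  refine ⟨1 + ∑ j ∈ c.kI, ∑ i, |n j i| ^ 2, by linarith, ?_⟩
  intro V H _ _ _ _ L T v
  have h1 : ∀ j ∈ c.kI, ‖T (L (eb j) v)‖ ^ 2 ≤
      (∑ i, |n j i| ^ 2) * ∑ i, ‖T (L (B i) v)‖ ^ 2 := by
    intro j hj
    have h2 : T (L (eb j) v) = ∑ i, ((n j i : ℝ) : ℂ) • T (L (B i) v) := by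
      rw [← hn j hj, map_sum, LinearMap.sum_apply, map_sum]
      refine Finset.sum_congr rfl fun i _ => ?_
      rw [map_smul]
      change T (((n j i : ℝ) : ℂ) • L (B i) v) = _
      rw [map_smul]
    have h3 : ‖T (L (eb j) v)‖ ≤ ∑ i, |n j i| * ‖T (L (B i) v)‖ := by
      rw [h2]
      refine (norm_sum_le _ _).trans (le_of_eq (Finset.sum_congr rfl fun i _ => ?_))
      rw [norm_smul, Complex.norm_real, Real.norm_eq_abs]
    exact (pow_le_pow_left₀ (norm_nonneg _) h3 2).trans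
      (Finset.sum_mul_sq_le_sq_mul_sq _ _ _)
  have hS : 0 ≤ ∑ i, ‖T (L (B i) v)‖ ^ 2 := Finset.sum_nonneg fun i _ => sq_nonneg _
  calc ∑ j ∈ c.kI, ‖T (L (eb j) v)‖ ^ 2
      ≤ ∑ j ∈ c.kI, (∑ i, |n j i| ^ 2) * ∑ i, ‖T (L (B i) v)‖ ^ 2 := Finset.sum_le_sum h1
    _ = (∑ j ∈ c.kI, ∑ i, |n j i| ^ 2) * ∑ i, ‖T (L (B i) v)‖ ^ 2 := by
        rw [Finset.sum_mul]
    _ ≤ (1 + ∑ j ∈ c.kI, ∑ i, |n j i| ^ 2) * ∑ i, ‖T (L (B i) v)‖ ^ 2 := by
        refine mul_le_mul_of_nonneg_right ?_ hS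
        linarith

end Pool.Agent.RG
end

section

/-!
# I3: the eigenspaces of a general Laplace operator of `K`
-/

namespace Pool.Agent.RG

open MeasureTheory Topology Filter Set
open scoped InnerProductSpace

universe u v

private theorem I3_inner {V : Type v} [AddCommGroup V] [Module ℂ V] {H : Type u}
    [NormedAddCommGroup H] [InnerProductSpace ℂ H] {T : V →ₗ[ℂ] H} {w v : V} {r S : ℝ}
    (hw : w = (r : ℂ) • v) (h : ⟪T w, T v⟫_ℂ = (S : ℂ)) : r * ‖T v‖ ^ 2 = S := by
  rw [hw, map_smul, inner_smul_left, Complex.conj_ofReal, inner_self_eq_norm_sq_to_K] at h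
  have h2 : (((r * ‖T v‖ ^ 2 : ℝ)) : ℂ) = (S : ℂ) := by
    rw [← h]
    push_cast
    rfl
  exact_mod_cast h2

/-- PROOF. Choose `i` with `T i v ≠ 0` (`hs`); `r ‖T i v‖² = Σ ‖T i (L (B j) v)‖² ≥ 0` (`Ksk.energyB`, `inner_smul_left`, real parts). -/
theorem lapB_nonneg {G : Type u} {d : ℕ} {c : Core G d} {V I : Type v} [AddCommGroup V]
    [Module ℂ V] {H : Type u} [NormedAddCommGroup H] [InnerProductSpace ℂ H]
    {L : Ed d →ₗ[ℝ] (V →ₗ[ℂ] V)} {T : I → V →ₗ[ℂ] H} (hT : ∀ i, Ksk c L (T i))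
    (hs : ∀ v : V, (∀ i, T i v = 0) → v = 0) {D : ℕ} {B : Fin D → Ed d} (hB : IsSpB c B) (r : ℝ)
    (v : V) (hv : lapB B L v = (r : ℂ) • v) (h0 : v ≠ 0) : 0 ≤ r := by
  obtain ⟨i, hi⟩ : ∃ i, T i v ≠ 0 := by
    by_contra h
    push Not at h
    exact h0 (hs v h)
  have h1 := I3_inner hv ((hT i).energyB hB v)
  have h2 : 0 ≤ ∑ j, ‖T i (L (B j) v)‖ ^ 2 := Finset.sum_nonneg fun j _ => sq_nonneg _
  have h3 : 0 < ‖T i v‖ ^ 2 := by
    have := norm_pos_iff.2 hi
    positivity
  rw [← h1] at h2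
  exact nonneg_of_mul_nonneg_left h2 h3

private theorem I3_comm {G : Type u} [Group G] [TopologicalSpace G] {d : ℕ} {c : Core G d}
    {V : Type v} [AddCommGroup V] [Module ℂ V] {L : Ed d →ₗ[ℝ] (V →ₗ[ℂ] V)}
    {act : G → V →ₗ[ℂ] V} (hc : IsCore c) (hM : IsMd c L act) (hk : IsKm c L act) {D : ℕ}
    {B : Fin D → Ed d} (hB : IsSpB c B) (w : V) :
    casK c L (lapB B L w) = lapB B L (casK c L w) := by
  have h1 : ∀ w : V, lapB B L w = -∑ i, L (B i) (L (B i) w) := fun w => by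
    simp only [lapB, LinearMap.neg_apply, LinearMap.sum_apply, LinearMap.comp_apply]
  rw [h1, h1, map_neg, map_sum]
  refine congrArg _ (Finset.sum_congr rfl fun i _ => ?_)
  rw [casK_comm hc hM hk (hB.supp i), casK_comm hc hM hk (hB.supp i)]

/-- The eigenspaces of `lapB` for small eigenvalues lie in `Vle`.
PROOF. `a` from `exists_comp`. `Vle (lapB B L) R` is the supremum of the eigenspaces with `r ≤ R²`, so it suffices that `v ∈ Vle (casK c L) (a * R)` if `lapB v = r v`, `r ≤ R²`. Write `v = Σ f_s` with `casK f_s = s f_s` (`exists_eig hM.top`).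
`casK` commutes with `lapB` (`casK_comm` for `Y = B i`, twice), so `lapB f_s - r f_s` lies in the eigenspace of `casK` for `s`, and the sum of these vectors over `s` is `lapB v - r v = 0`; eigenspaces for different eigenvalues are independent
(`Module.End.eigenspaces_iSupIndep`; see the proof of `isCompl_Vle`; or directly: for `i : I` the vectors `T i (g_s)`, `g_s = lapB f_s - r f_s`, are orthogonal by `Ksk.symm`, their sum is `0`, so each `T i g_s = 0`, and `g_s = 0` by separation), so `lapB f_s = r f_s`.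
If `f_s ≠ 0` choose `i` with `T i f_s ≠ 0`: `s ‖T i f_s‖² = Σ_j ‖T i (X_j f_s)‖² ≤ a Σ_j ‖T i (L (B j) f_s)‖² = a r ‖T i f_s‖²` (`Ksk.energy`, `exists_comp`, `Ksk.energyB`), so `s ≤ a r ≤ a R² ≤ (a R)²`.
So every `f_s` lies in `Vle (casK c L) (a * R)`. -/
theorem exists_Vle_lapB {G : Type u} [Group G] [TopologicalSpace G] {d : ℕ} {c : Core G d}
    (hc : IsCore c) {D : ℕ} {B : Fin D → Ed d} (hB : IsSpB c B) :
    ∃ a : ℝ, 1 ≤ a ∧ ∀ (V I : Type v) (H : Type u) [AddCommGroup V] [Module ℂ V]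
      [NormedAddCommGroup H] [InnerProductSpace ℂ H] (L : Ed d →ₗ[ℝ] (V →ₗ[ℂ] V))
      (act : G → V →ₗ[ℂ] V) (T : I → V →ₗ[ℂ] H), IsMd c L act → IsKm c L act →
      (∀ i, Ksk c L (T i)) → (∀ v : V, (∀ i, T i v = 0) → v = 0) → ∀ R : ℝ,
      Vle (lapB B L) R ≤ Vle (casK c L) (a * R) := by
  obtain ⟨a, ha, hcomp⟩ := exists_comp.{u, v} hB
  refine ⟨a, ha, fun V I H _ _ _ _ L act T hM hk hT hs R => ?_⟩
  refine iSup₂_le fun r hr v hv => ?_
  have hv' : lapB B L v = (r : ℂ) • v := Module.End.mem_eigenspace_iff.1 hv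
  obtain ⟨f, hf, hfv⟩ := exists_eig hM.top v
  obtain ⟨g, hg⟩ : ∃ g : ℝ → V, ∀ s, g s = lapB B L (f s) - (r : ℂ) • f s := ⟨_, fun _ => rfl⟩
  have hgc : ∀ s, casK c L (g s) = (s : ℂ) • g s := by
    intro s
    rw [hg, map_sub, I3_comm hc hM hk hB, map_smul, hf, map_smul, smul_sub, smul_comm (r : ℂ)]
  have hgs : ∑ s ∈ f.support, g s = 0 := by
    have h1 : lapB B L v - (r : ℂ) • v = 0 := by rw [hv', sub_self]
    rw [hfv, Finsupp.sum, map_sum, Finset.smul_sum, ← Finset.sum_sub_distrib] at h1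
    rw [← h1]
    exact Finset.sum_congr rfl fun s _ => hg s
  have hort : ∀ (i : I) (s t : ℝ), s ≠ t → ⟪T i (g s), T i (g t)⟫_ℂ = 0 := by
    intro i s t hst
    have h1 := (hT i).symm (g s) (g t)
    rw [hgc, hgc, map_smul, map_smul, inner_smul_left, inner_smul_right,
      Complex.conj_ofReal] at h1
    have h2 : ((s : ℂ) - t) * ⟪T i (g s), T i (g t)⟫_ℂ = 0 := by linear_combination h1
    rcases mul_eq_zero.1 h2 with h3 | h3
    · exact absurd (by exact_mod_cast sub_eq_zero.1 h3) hst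
    · exact h3
  have hg0 : ∀ s ∈ f.support, g s = 0 := by
    intro s hsf
    refine hs _ fun i => ?_
    have h1 : ⟪T i (g s), T i (∑ t ∈ f.support, g t)⟫_ℂ = ⟪T i (g s), T i (g s)⟫_ℂ := by
      rw [map_sum, inner_sum, Finset.sum_eq_single s]
      · intro t _ ht
        exact hort i s t (Ne.symm ht)
      · intro h
        exact absurd hsf h
    rw [hgs, map_zero, inner_zero_right] at h1
    exact inner_self_eq_zero.1 h1.symm
  rw [hfv]
  refine Submodule.sum_mem _ fun s hsf => ?_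
  have hfs : f s ≠ 0 := Finsupp.mem_support_iff.1 hsf
  have hlap : lapB B L (f s) = (r : ℂ) • f s := by
    have h1 := hg0 s hsf
    rw [hg] at h1
    exact sub_eq_zero.1 h1
  obtain ⟨i, hi⟩ : ∃ i, T i (f s) ≠ 0 := by
    by_contra h
    push Not at h
    exact hfs (hs _ h)
  have h1 := I3_inner (hf s) ((hT i).energy (f s))
  have h2 := I3_inner hlap ((hT i).energyB hB (f s))
  have h3 := hcomp V H L (T i) (f s)
  rw [← h1, ← h2, ← mul_assoc] at h3
  have h4 : 0 < ‖T i (f s)‖ ^ 2 := by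
    have := norm_pos_iff.2 hi
    positivity
  have h5 : s ≤ a * r := le_of_mul_le_mul_right h3 h4
  have h6 : s ≤ (a * R) ^ 2 := by
    have h7 : a * r ≤ a * R ^ 2 := mul_le_mul_of_nonneg_left hr (by linarith)
    have h8 : 1 * (a * R ^ 2) ≤ a * (a * R ^ 2) :=
      mul_le_mul_of_nonneg_right ha (mul_nonneg (by linarith) (sq_nonneg R))
    nlinarith
  exact (le_iSup₂_of_le s h6 le_rfl : Module.End.eigenspace (casK c L) (s : ℂ) ≤ _)
    (Module.End.mem_eigenspace_iff.2 (hf s))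

end Pool.Agent.RG
end
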