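import Pool.Agent.Lib.MP_496a9e_al.Mg.G005
import Pool.Agent.Lib.MP_496a9e_al.Mg.G011

section

/-!
# E6: `Op(h)` is close to the identity on slowly varying vectors
-/

namespace Pool.Agent.RG

open MeasureTheory Topology Filter Set
open scoped SchwartzMap

universe u v

variable {G : Type u} [Group G] [TopologicalSpace G] {d : ℕ} {c : Core G d} {A : ℕ}
  {χ : Ed d → ℝ} {κ : Fin d → Fin d → Ed d → ℝ}

private theorem E6_expand (Z : Ed d) : Z = ∑ i, Z i • eb i := by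
  ext j
  have h : ∀ i : Fin d, (Z i • (eb i : Ed d)) j = if j = i then Z i else 0 := by
    intro i
    simp [eb]
  rw [show (∑ i, Z i • (eb i : Ed d)) j = ∑ i, (Z i • (eb i : Ed d)) j from by
    simp]
  rw [Finset.sum_congr rfl fun i _ => h i]
  simp

private theorem E6_J_L (R : Cal.{u, v} c A) (v : R.V) (Z : Ed d) (S : ℝ)
    (hS : ∀ i, ‖R.J (R.ι (R.L (eb i) v))‖ ≤ S) :
    ‖R.J (R.ι (R.L Z v))‖ ≤ d * ‖Z‖ * S := by
  have h1 : R.L Z v = ∑ i, ((Z i : ℝ) : ℂ) • R.L (eb i) v := by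
    conv_lhs => rw [E6_expand Z]
    rw [map_sum, LinearMap.sum_apply]
    refine Finset.sum_congr rfl fun i _ => ?_
    rw [map_smul]
    rfl
  have h2 : R.J (R.ι (R.L Z v)) = ∑ i, ((Z i : ℝ) : ℂ) • R.J (R.ι (R.L (eb i) v)) := by
    rw [h1, map_sum, map_sum]
    refine Finset.sum_congr rfl fun i _ => ?_
    rw [map_smul, map_smul]
  rw [h2]
  calc ‖∑ i, ((Z i : ℝ) : ℂ) • R.J (R.ι (R.L (eb i) v))‖
      ≤ ∑ i, ‖((Z i : ℝ) : ℂ) • R.J (R.ι (R.L (eb i) v))‖ := norm_sum_le _ _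
    _ ≤ ∑ _i : Fin d, ‖Z‖ * S := by
        refine Finset.sum_le_sum fun i _ => ?_
        rw [norm_smul, Complex.norm_real]
        exact mul_le_mul (PiLp.norm_apply_le Z i) (hS i) (norm_nonneg _) (norm_nonneg _)
    _ = d * ‖Z‖ * S := by
        rw [Finset.sum_const, Finset.card_univ, Fintype.card_fin, nsmul_eq_mul]
        ring

/-- PROOF. `ι v - π (ex Z) (ι v) = -∫_0^1 π (ex (s Z)) (ι (L Z v)) ds` (`der_at` with `x = 1`, fundamental theorem of calculus), `L Z v = Σ Z_i L e_i v`,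
`‖J π (ex (sZ)) w‖ ≤ exp(A ‖Z‖) ‖J w‖`, `Σ |Z_i| ≤ d ‖Z‖`. -/
theorem orbit_close (hc : IsCore c) (R : Cal.{u, v} c A) (v : R.V) (Z : Ed d) (S : ℝ)
    (hS : ∀ i, ‖R.J (R.ι (R.L (eb i) v))‖ ≤ S) :
    ‖R.J (R.ι v - R.π (c.ex Z) (R.ι v))‖ ≤ Real.exp (A * ‖Z‖) * d * ‖Z‖ * S := by
  have hder : ∀ s : ℝ, HasDerivAt (fun s : ℝ => R.J (R.π (c.ex (s • Z)) (R.ι v)))
      (R.J (R.π (c.ex (s • Z)) (R.ι (R.L Z v)))) s := by
    intro s
    have h1 := Cal.der_at hc R 1 Z v s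
    simp only [one_mul] at h1
    exact (R.J.restrictScalars ℝ).hasFDerivAt.comp_hasDerivAt s h1
  have hbd : ∀ s ∈ Ico (0 : ℝ) 1, ‖R.J (R.π (c.ex (s • Z)) (R.ι (R.L Z v)))‖ ≤
      Real.exp (A * ‖Z‖) * d * ‖Z‖ * S := by
    intro s hs
    have h1 : c.M (c.ex (s • Z)) ≤ Real.exp ‖Z‖ := by
      refine (hc.M_ex _).trans (Real.exp_le_exp.2 ?_)
      rw [norm_smul, Real.norm_eq_abs, abs_of_nonneg hs.1]
      exact mul_le_of_le_one_left (norm_nonneg _) hs.2.le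
    have h2 : c.M (c.ex (s • Z)) ^ A ≤ Real.exp (A * ‖Z‖) := by
      rw [Real.exp_nat_mul]
      exact pow_le_pow_left₀ (zero_le_one.trans (hc.M_ge _)) h1 A
    calc ‖R.J (R.π (c.ex (s • Z)) (R.ι (R.L Z v)))‖
        ≤ c.M (c.ex (s • Z)) ^ A * ‖R.J (R.ι (R.L Z v))‖ := R.temp _ _
      _ ≤ Real.exp (A * ‖Z‖) * (d * ‖Z‖ * S) :=
          mul_le_mul h2 (E6_J_L R v Z S hS) (norm_nonneg _) (Real.exp_pos _).le
      _ = Real.exp (A * ‖Z‖) * d * ‖Z‖ * S := by ring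
  have h3 := norm_image_sub_le_of_norm_deriv_le_segment_01'
    (fun s _ => (hder s).hasDerivWithinAt) hbd
  simp only [one_smul, zero_smul] at h3
  rw [hc.ex_zero, R.one] at h3
  rw [map_sub, norm_sub_rev]
  exact h3

/-- PROOF. `ι v - Op h (ι v) = ∫ χ(Y/n) h(Y) (ι v - π (ex (Y/n)) (ι v)) dY + (1 - ∫ χ(Y/n) h(Y) dY) ι v`. First term: `orbit_close` with `Z = Y/n`, `S = n T`: at most
`∫ ‖h‖ exp(A) d ‖Y/n‖ n T dY` (on the support `‖Y/n‖ ≤ 1`). Second: `|1 - ∫ χ(Y/n) h| = |∫ (1 - χ(Y/n)) h| ≤ ∫_{‖Y‖ ≥ r n} ‖h‖ ≤ (1/(r n)) ∫ ‖Y‖ ‖h‖` with `r` from `χ_one`; and `‖J ι v‖ ≤ T`.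
Weighted integrability of Schwartz functions: `SchwartzMap.integrable_pow_mul`. -/
theorem Op_ident (hc : IsCore c) (hχ : IsCut c χ κ) (A : ℕ) (h : 𝓢(Ed d, ℂ))
    (h1 : ∫ Y, h Y = 1) :
    ∃ C : ℝ, 0 ≤ C ∧ ∀ (R : Cal.{u, v} c A) (n : ℝ), 1 ≤ n → ∀ (v : R.V) (T : ℝ),
      ‖R.J (R.ι v)‖ ≤ T → (∀ i, ‖R.J (R.ι (R.L (eb i) v))‖ ≤ n * T) →
      ‖R.J (R.ι v - Op c χ R.π n h (R.ι v))‖ ≤
        (Real.exp A * d * ∫ Y, ‖Y‖ * ‖h Y‖) * T + C / n * T := by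
  obtain ⟨r, hr, hr1⟩ := hχ.χ_one
  have hint : Integrable (fun Y : Ed d => ‖Y‖ * ‖h Y‖) := by
    have h2 := h.integrable_pow_mul volume 1
    simpa using h2
  have hI0 : 0 ≤ ∫ Y : Ed d, ‖Y‖ * ‖h Y‖ :=
    integral_nonneg fun Y => mul_nonneg (norm_nonneg _) (norm_nonneg _)
  refine ⟨(∫ Y : Ed d, ‖Y‖ * ‖h Y‖) / r, div_nonneg hI0 hr.le, ?_⟩
  intro R n hn v T hT hTL
  have hn0 : 0 < n := zero_lt_one.trans_le hn
  have hT0 : 0 ≤ T := (norm_nonneg _).trans hT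
  have hi1 : Integrable (fun Y : Ed d => h Y • R.ι v) := h.integrable.smul_const _
  have hi2 := Op_integrable hc hχ R.cont hn h.continuous (R.ι v)
  have hF : R.ι v - Op c χ R.π n h (R.ι v) = ∫ Y : Ed d, (h Y • R.ι v -
      (((χ (n⁻¹ • Y) : ℝ) : ℂ) * h Y) • R.π (c.ex (n⁻¹ • Y)) (R.ι v)) := by
    rw [integral_sub hi1 hi2, integral_smul_const, h1, one_smul]
    rfl
  have hpt : ∀ Y : Ed d, ‖R.J (h Y • R.ι v -
      (((χ (n⁻¹ • Y) : ℝ) : ℂ) * h Y) • R.π (c.ex (n⁻¹ • Y)) (R.ι v))‖ ≤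
      (Real.exp A * d * T + (1 / (r * n)) * T) * (‖Y‖ * ‖h Y‖) := by
    intro Y
    have hχ0 := hχ.χ_nonneg (n⁻¹ • Y)
    have hχ1 := hχ.χ_le (n⁻¹ • Y)
    have e1 : h Y • R.ι v - (((χ (n⁻¹ • Y) : ℝ) : ℂ) * h Y) • R.π (c.ex (n⁻¹ • Y)) (R.ι v) =
        (((χ (n⁻¹ • Y) : ℝ) : ℂ) * h Y) • (R.ι v - R.π (c.ex (n⁻¹ • Y)) (R.ι v)) +
          (((1 - χ (n⁻¹ • Y) : ℝ) : ℂ) * h Y) • R.ι v := by
      rw [smul_sub, sub_add_eq_add_sub, ← add_smul]
      congr 2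
      push_cast
      ring
    have hZn : ‖n⁻¹ • Y‖ = n⁻¹ * ‖Y‖ := by
      rw [norm_smul, Real.norm_eq_abs, abs_of_pos (inv_pos.2 hn0)]
    have a1 : ‖R.J ((((χ (n⁻¹ • Y) : ℝ) : ℂ) * h Y) •
        (R.ι v - R.π (c.ex (n⁻¹ • Y)) (R.ι v)))‖ ≤ Real.exp A * d * T * (‖Y‖ * ‖h Y‖) := by
      rw [map_smul, norm_smul, norm_mul, Complex.norm_real, Real.norm_eq_abs, abs_of_nonneg hχ0]
      by_cases hz : 1 ≤ ‖n⁻¹ • Y‖
      · rw [hχ.χ_supp _ hz, zero_mul, zero_mul]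
        positivity
      · have hz' : ‖n⁻¹ • Y‖ ≤ 1 := (not_le.1 hz).le
        have h3 := orbit_close hc R v (n⁻¹ • Y) (n * T) hTL
        have h4 : Real.exp (A * ‖n⁻¹ • Y‖) ≤ Real.exp A := by
          apply Real.exp_le_exp.2
          exact mul_le_of_le_one_right (Nat.cast_nonneg _) hz'
        have h5 : ‖R.J (R.ι v - R.π (c.ex (n⁻¹ • Y)) (R.ι v))‖ ≤
            Real.exp A * d * T * ‖Y‖ := by
          refine h3.trans ?_
          have e2 : Real.exp (A * ‖n⁻¹ • Y‖) * d * ‖n⁻¹ • Y‖ * (n * T) =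
              Real.exp (A * ‖n⁻¹ • Y‖) * (d * T * ‖Y‖) := by
            rw [hZn]
            field_simp
          rw [e2]
          calc Real.exp (A * ‖n⁻¹ • Y‖) * (d * T * ‖Y‖) ≤ Real.exp A * (d * T * ‖Y‖) :=
                mul_le_mul_of_nonneg_right h4 (by positivity)
            _ = Real.exp A * d * T * ‖Y‖ := by ring
        calc χ (n⁻¹ • Y) * ‖h Y‖ * ‖R.J (R.ι v - R.π (c.ex (n⁻¹ • Y)) (R.ι v))‖
            ≤ 1 * ‖h Y‖ * (Real.exp A * d * T * ‖Y‖) := by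
              apply mul_le_mul _ h5 (norm_nonneg _) (by positivity)
              exact mul_le_mul_of_nonneg_right hχ1 (norm_nonneg _)
          _ = Real.exp A * d * T * (‖Y‖ * ‖h Y‖) := by ring
    have a2 : ‖R.J ((((1 - χ (n⁻¹ • Y) : ℝ) : ℂ) * h Y) • R.ι v)‖ ≤
        (1 / (r * n)) * T * (‖Y‖ * ‖h Y‖) := by
      rw [map_smul, norm_smul, norm_mul, Complex.norm_real, Real.norm_eq_abs,
        abs_of_nonneg (by linarith)]
      by_cases hz : ‖n⁻¹ • Y‖ ≤ r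
      · rw [hr1 _ hz, sub_self, zero_mul, zero_mul]
        positivity
      · have hz' : r < n⁻¹ * ‖Y‖ := by
          rw [← hZn]
          exact not_le.1 hz
        have h6 : 1 ≤ (1 / (r * n)) * ‖Y‖ := by
          have : r * n ≤ ‖Y‖ := by
            have h7 := mul_le_mul_of_nonneg_right hz'.le hn0.le
            have e3 : n⁻¹ * ‖Y‖ * n = ‖Y‖ := by field_simp
            rwa [e3] at h7
          rw [one_div, ← div_eq_inv_mul, one_le_div (by positivity)]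
          exact this
        calc (1 - χ (n⁻¹ • Y)) * ‖h Y‖ * ‖R.J (R.ι v)‖
            ≤ ((1 / (r * n)) * ‖Y‖) * ‖h Y‖ * T := by
              apply mul_le_mul _ hT (norm_nonneg _) (by positivity)
              apply mul_le_mul_of_nonneg_right _ (norm_nonneg _)
              linarith
          _ = (1 / (r * n)) * T * (‖Y‖ * ‖h Y‖) := by ring
    rw [e1, map_add]
    calc _ ≤ _ := norm_add_le _ _
      _ ≤ _ := add_le_add a1 a2
      _ = _ := by ring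
  rw [hF]
  refine (J_int_le R (hi1.sub hi2) (hint.const_mul _) hpt).trans (le_of_eq ?_)
  rw [integral_const_mul]
  field_simp

end Pool.Agent.RG
end

section

/-!
# E7a: conjugation of `Op(h)` by a group element
-/

namespace Pool.Agent.RG

open MeasureTheory Topology Filter Set
open scoped SchwartzMap FourierTransform

universe u v

variable {G : Type u} [Group G] [TopologicalSpace G] {d : ℕ} {c : Core G d} {A : ℕ}
  {χ : Ed d → ℝ} {κ : Fin d → Fin d → Ed d → ℝ}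

/-- Linear change of variables for Schwartz functions and their Fourier transforms.
PROOF. `h' = |det B| • h ∘ B` is a Schwartz function (`SchwartzMap.compCLMOfContinuousLinearEquiv`). `𝓕 h' ξ = ∫ |det B| h(B Y) exp(-2πi⟨Y,ξ⟩) dY`; substitute `Z = B Y`
(`MeasureTheory.integral_comp_...`: `Measure.addHaar_image_linearMap`, `integral_comp_comm..`, e.g. `MeasureTheory.Measure.map_linearMap_addHaar_eq_smul_addHaar`): `= ∫ h(Z) exp(-2πi⟨B⁻¹ Z, ξ⟩) dZ = 𝓕 h (adjoint B⁻¹ ξ)`. -/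
theorem exists_cj (B : Ed d ≃L[ℝ] Ed d) (h : 𝓢(Ed d, ℂ)) :
    ∃ h' : 𝓢(Ed d, ℂ), (∀ Y, h' Y = ((|LinearMap.det (B : Ed d →ₗ[ℝ] Ed d)| : ℝ) : ℂ) * h (B Y)) ∧
      ∀ ξ, (𝓕 h') ξ = (𝓕 h) (ContinuousLinearMap.adjoint (B.symm : Ed d →L[ℝ] Ed d) ξ) := by
  have hdet : LinearMap.det (B : Ed d →ₗ[ℝ] Ed d) ≠ 0 := by
    have := (LinearEquiv.isUnit_det' B.toLinearEquiv).ne_zero
    exact this
  refine ⟨((|LinearMap.det (B : Ed d →ₗ[ℝ] Ed d)| : ℝ) : ℂ) •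
    SchwartzMap.compCLMOfContinuousLinearEquiv ℂ B h, ?_, ?_⟩
  · intro Y
    simp
  · intro ξ
    rw [SchwartzMap.fourier_coe, SchwartzMap.fourier_coe, Real.fourier_eq, Real.fourier_eq]
    set a : ℝ := |LinearMap.det (B : Ed d →ₗ[ℝ] Ed d)| with ha
    have ha0 : a ≠ 0 := abs_ne_zero.mpr hdet
    set F : Ed d → ℂ := fun Z =>
      Real.fourierChar (-inner ℝ Z (ContinuousLinearMap.adjoint (B.symm : Ed d →L[ℝ] Ed d) ξ)) • h Z
      with hF
    have hmap : Measure.map (B : Ed d → Ed d) (volume : Measure (Ed d)) =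
        ENNReal.ofReal (a⁻¹) • (volume : Measure (Ed d)) := by
      have := Measure.map_linearMap_addHaar_eq_smul_addHaar (volume : Measure (Ed d)) hdet
      rw [abs_inv] at this
      exact this
    have hint : ∫ Y, F (B Y) = a⁻¹ • ∫ Z, F Z := by
      have h1 : ∫ Z, F Z ∂(Measure.map (B : Ed d → Ed d) (volume : Measure (Ed d))) =
          ∫ Y, F (B Y) :=
        (B.toHomeomorph.measurableEmbedding).integral_map F
      rw [← h1, hmap, integral_smul_measure, ENNReal.toReal_ofReal (inv_nonneg.mpr (abs_nonneg _))]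
    have hleft : ∀ Y : Ed d, Real.fourierChar (-inner ℝ Y ξ) •
        ((((a : ℝ) : ℂ) • SchwartzMap.compCLMOfContinuousLinearEquiv ℂ B h) Y) =
        (a : ℂ) * F (B Y) := by
      intro Y
      have hin : (inner ℝ (B Y) (ContinuousLinearMap.adjoint (B.symm : Ed d →L[ℝ] Ed d) ξ) : ℝ) =
          inner ℝ Y ξ := by
        rw [ContinuousLinearMap.adjoint_inner_right]
        simp
      rw [hF]
      simp only [hin, Circle.smul_def, smul_eq_mul]
      simp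
      ring
    have hl : ∫ Y, Real.fourierChar (-inner ℝ Y ξ) •
        ((((a : ℝ) : ℂ) • SchwartzMap.compCLMOfContinuousLinearEquiv ℂ B h) Y) =
        ∫ Y, (a : ℂ) * F (B Y) := by
      congr 1
      funext Y
      exact hleft Y
    rw [hl, integral_const_mul, hint]
    rw [Complex.real_smul, ← mul_assoc, ← Complex.ofReal_mul, mul_inv_cancel₀ ha0]
    simp

end Pool.Agent.RG
end

section

/-!
# E7b: conjugation of `Op(h)` by a group element
-/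

namespace Pool.Agent.RG

open MeasureTheory Topology Filter Set
open scoped SchwartzMap FourierTransform

universe u v

variable {G : Type u} [Group G] [TopologicalSpace G] {d : ℕ} {c : Core G d} {A : ℕ}
  {χ : Ed d → ℝ} {κ : Fin d → Fin d → Ed d → ℝ}

private theorem E7b_F_cont (hc : IsCore c) (R : Cal.{u, v} c A) (n : ℝ) (e : R.E) :
    Continuous fun Y : Ed d => R.π (c.ex (n⁻¹ • Y)) e :=
  R.cont.comp ((hc.ex_cont.comp (continuous_const_smul _)).prodMk continuous_const)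

private theorem E7b_int (hc : IsCore c) (R : Cal.{u, v} c A) {n r : ℝ}
    (e : R.E) {a : Ed d → ℂ} (ha : Continuous a) (h0 : ∀ Y, r < ‖Y‖ → a Y = 0) :
    Integrable fun Y : Ed d => a Y • R.π (c.ex (n⁻¹ • Y)) e := by
  apply Continuous.integrable_of_hasCompactSupport
  · exact ha.smul (E7b_F_cont hc R n e)
  · apply HasCompactSupport.intro (isCompact_closedBall (0 : Ed d) r)
    intro Y hY
    rw [Metric.mem_closedBall, dist_zero_right, not_le] at hY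
    rw [h0 Y hY, zero_smul]

private theorem E7b_J (hc : IsCore c) (R : Cal.{u, v} c A) {n r : ℝ} (e : R.E)
    {Y : Ed d} (hY : ‖n⁻¹ • Y‖ ≤ r) :
    ‖R.J (R.π (c.ex (n⁻¹ • Y)) e)‖ ≤ Real.exp (A * r) * ‖R.J e‖ := by
  have h2 : c.M (c.ex (n⁻¹ • Y)) ≤ Real.exp r :=
    (hc.M_ex _).trans (Real.exp_le_exp.2 hY)
  have h3 : c.M (c.ex (n⁻¹ • Y)) ^ A ≤ Real.exp (A * r) := by
    calc c.M (c.ex (n⁻¹ • Y)) ^ A ≤ Real.exp r ^ A :=
          pow_le_pow_left₀ (le_trans zero_le_one (hc.M_ge _)) h2 A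
      _ = Real.exp (A * r) := by rw [← Real.exp_nat_mul]
  exact (R.temp _ e).trans (mul_le_mul_of_nonneg_right h3 (norm_nonneg _))

/-- CONJUGATION.
PROOF. `B = ad x` (a linear equivalence with inverse `ad x⁻¹`), `h'` from `exists_cj`. With `D = |det B| > 0` and the substitution `Y = B Y'` (`π x` commutes with the integral,
`π x π (ex (Y'/n)) π x⁻¹ = π (ex (B Y'/n))`): `π x (Op h' (π x⁻¹ e)) = ∫ χ(Y'/n) D h(B Y') π (ex (B Y'/n)) e dY' = ∫ χ(B⁻¹ Y/n) h(Y) π (ex (Y/n)) e dY`. So the difference to `Op h e` is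
`∫ (χ(Y/n) - χ(B⁻¹ Y/n)) h(Y) π (ex (Y/n)) e dY`. The factor vanishes if `‖Y/n‖ ≤ r'` (`r' > 0`; both cutoffs are `1`: `χ_one`) and if `‖Y/n‖ ≥ r''` (`r'' = 1 + ‖B‖`, both are `0`), and is at most `1` in absolute value; so
`‖J(difference)‖ ≤ exp(A r'') ∫_{‖Y‖ ≥ r' n} ‖h‖ ‖J e‖ ≤ exp(A r'') (1/(r' n)) ∫ ‖Y‖ ‖h‖ ‖J e‖`. -/
theorem Op_conj (hc : IsCore c) (hχ : IsCut c χ κ) (A : ℕ) (h : 𝓢(Ed d, ℂ)) (x : G) :
    ∃ h' : 𝓢(Ed d, ℂ),
      (∀ ξ, (𝓕 h') ξ = (𝓕 h) (ContinuousLinearMap.adjoint (c.ad x⁻¹) ξ)) ∧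
      ∃ C : ℝ, 0 ≤ C ∧ ∀ (R : Cal.{u, v} c A) (n : ℝ), 1 ≤ n → ∀ e : R.E,
        ‖R.J (Op c χ R.π n h e - R.π x (Op c χ R.π n h' (R.π x⁻¹ e)))‖ ≤ C / n * ‖R.J e‖ := by
  -- the linear equivalence
  have hBl : ∀ Y, c.ad x⁻¹ (c.ad x Y) = Y := by
    intro Y
    have := hc.ad_mul x⁻¹ x
    rw [inv_mul_cancel, hc.ad_one] at this
    exact (congrArg (fun T : Ed d →L[ℝ] Ed d => T Y) this).symm
  have hBr : ∀ Y, c.ad x (c.ad x⁻¹ Y) = Y := by
    intro Y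
    have := hc.ad_mul x x⁻¹
    rw [mul_inv_cancel, hc.ad_one] at this
    exact (congrArg (fun T : Ed d →L[ℝ] Ed d => T Y) this).symm
  set B : Ed d ≃L[ℝ] Ed d :=
    ContinuousLinearEquiv.equivOfInverse (c.ad x) (c.ad x⁻¹) hBl hBr with hB
  have hBx : ∀ Y, B Y = c.ad x Y := fun Y => rfl
  have hBs : ∀ Y, B.symm Y = c.ad x⁻¹ Y := fun Y => rfl
  obtain ⟨h', hh', hF⟩ := exists_cj B h
  refine ⟨h', fun ξ => ?_, ?_⟩
  · rw [hF ξ]
    rfl
  obtain ⟨r, hr, hχr⟩ := hχ.χ_one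
  set b : ℝ := 1 + ‖c.ad x⁻¹‖ + ‖c.ad x‖ with hb
  have hb1 : 1 ≤ b := by
    have := norm_nonneg (c.ad x⁻¹)
    have := norm_nonneg (c.ad x)
    linarith
  have hb0 : 0 < b := by linarith
  have hb2 : ‖c.ad x⁻¹‖ ≤ b := by
    have := norm_nonneg (c.ad x)
    linarith
  have hb3 : ‖c.ad x‖ ≤ b := by
    have := norm_nonneg (c.ad x⁻¹)
    linarith
  have hi1 : Integrable fun Y : Ed d => ‖Y‖ * ‖h Y‖ := by
    have := SchwartzMap.integrable_pow_mul (volume : Measure (Ed d)) h 1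
    simpa using this
  refine ⟨Real.exp (A * b) * (b / r) * ∫ Y : Ed d, ‖Y‖ * ‖h Y‖, ?_, ?_⟩
  · exact mul_nonneg (by positivity) (integral_nonneg fun Y => by positivity)
  intro R n hn e
  have hn0 : 0 < n := by linarith
  -- the conjugated operator
  have hχc : Continuous fun Y : Ed d => ((χ (n⁻¹ • Y) : ℝ) : ℂ) :=
    Complex.continuous_ofReal.comp (hχ.χ_smooth.continuous.comp (continuous_const_smul _))
  have hχc' : Continuous fun Y : Ed d => ((χ (n⁻¹ • B.symm Y) : ℝ) : ℂ) :=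
    Complex.continuous_ofReal.comp (hχ.χ_smooth.continuous.comp
      ((continuous_const_smul n⁻¹).comp B.symm.continuous))
  have hgt : ∀ Y : Ed d, n < ‖Y‖ → 1 < ‖n⁻¹ • Y‖ := by
    intro Y hY
    rw [norm_smul, norm_inv, Real.norm_of_nonneg hn0.le, lt_inv_mul_iff₀ hn0]
    linarith
  have hYB : ∀ Y : Ed d, ‖Y‖ ≤ b * ‖B.symm Y‖ := by
    intro Y
    calc ‖Y‖ = ‖c.ad x (B.symm Y)‖ := by rw [hBs, hBr]
      _ ≤ ‖c.ad x‖ * ‖B.symm Y‖ := (c.ad x).le_opNorm _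
      _ ≤ b * ‖B.symm Y‖ := mul_le_mul_of_nonneg_right hb3 (norm_nonneg _)
  have hBY : ∀ Y : Ed d, ‖B.symm Y‖ ≤ b * ‖Y‖ := by
    intro Y
    rw [hBs]
    exact ((c.ad x⁻¹).le_opNorm _).trans (mul_le_mul_of_nonneg_right hb2 (norm_nonneg _))
  have hgt' : ∀ Y : Ed d, b * n < ‖Y‖ → 1 < ‖n⁻¹ • B.symm Y‖ := by
    intro Y hY
    apply hgt
    have := hYB Y
    by_contra hcon
    push Not at hcon
    have : b * ‖B.symm Y‖ ≤ b * n := mul_le_mul_of_nonneg_left hcon hb0.le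
    linarith
  have I1 : Integrable fun Y : Ed d => (((χ (n⁻¹ • Y) : ℝ) : ℂ) * h Y) •
      R.π (c.ex (n⁻¹ • Y)) e := by
    apply E7b_int (r := n) hc R e (hχc.mul h.continuous)
    intro Y hY
    simp only [Pi.mul_apply]
    rw [hχ.χ_supp _ (hgt Y hY).le]
    simp
  have I2 : Integrable fun Y : Ed d => (((χ (n⁻¹ • B.symm Y) : ℝ) : ℂ) * h Y) •
      R.π (c.ex (n⁻¹ • Y)) e := by
    apply E7b_int (r := b * n) hc R e (hχc'.mul h.continuous)
    intro Y hY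
    simp only [Pi.mul_apply]
    rw [hχ.χ_supp _ (hgt' Y hY).le]
    simp
  have hdet : LinearMap.det (B : Ed d →ₗ[ℝ] Ed d) ≠ 0 :=
    (LinearEquiv.isUnit_det' B.toLinearEquiv).ne_zero
  have hconj : R.π x (Op c χ R.π n h' (R.π x⁻¹ e)) =
      ∫ Y : Ed d, (((χ (n⁻¹ • B.symm Y) : ℝ) : ℂ) * h Y) • R.π (c.ex (n⁻¹ • Y)) e := by
    unfold Op
    have I3 : Integrable fun Y : Ed d => (((χ (n⁻¹ • Y) : ℝ) : ℂ) * h' Y) •
        R.π (c.ex (n⁻¹ • Y)) (R.π x⁻¹ e) := by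
      apply E7b_int (r := n) hc R (R.π x⁻¹ e) (hχc.mul h'.continuous)
      intro Y hY
      simp only [Pi.mul_apply]
      rw [hχ.χ_supp _ (hgt Y hY).le]
      simp
    rw [← ContinuousLinearMap.integral_comp_comm _ I3]
    have h1 : ∀ Y : Ed d, R.π x ((((χ (n⁻¹ • Y) : ℝ) : ℂ) * h' Y) •
        R.π (c.ex (n⁻¹ • Y)) (R.π x⁻¹ e)) =
        |LinearMap.det (B : Ed d →ₗ[ℝ] Ed d)| •
        ((((χ (n⁻¹ • B.symm (B Y)) : ℝ) : ℂ) * h (B Y)) • R.π (c.ex (n⁻¹ • B Y)) e) := by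
      intro Y
      rw [map_smul, ← R.mul, ← R.mul, hh' Y, B.symm_apply_apply]
      have h2 : c.ex (n⁻¹ • B Y) = x * c.ex (n⁻¹ • Y) * x⁻¹ := by
        rw [hBx, ← map_smul, hc.conj]
      rw [h2, ← mul_assoc, ← Complex.coe_smul, smul_smul]
      congr 1
      ring
    simp_rw [h1]
    rw [integral_smul]
    have h3 := MeasureTheory.Measure.addHaar_image_linearMap (volume : Measure (Ed d))
      (B : Ed d →ₗ[ℝ] Ed d)
    have h4 : Measure.map B (volume : Measure (Ed d)) =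
        ENNReal.ofReal |(LinearMap.det (B : Ed d →ₗ[ℝ] Ed d))⁻¹| • volume :=
      MeasureTheory.Measure.map_linearMap_addHaar_eq_smul_addHaar volume hdet
    have h5 : ∫ Y : Ed d, ((((χ (n⁻¹ • B.symm (B Y)) : ℝ) : ℂ) * h (B Y)) •
        R.π (c.ex (n⁻¹ • B Y)) e) =
        ∫ Y, (((χ (n⁻¹ • B.symm Y) : ℝ) : ℂ) * h Y) • R.π (c.ex (n⁻¹ • Y)) e
          ∂(Measure.map B (volume : Measure (Ed d))) := by
      have hme : MeasurableEmbedding B := B.toHomeomorph.measurableEmbedding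
      exact (hme.integral_map (fun Y : Ed d => (((χ (n⁻¹ • B.symm Y) : ℝ) : ℂ) * h Y) •
        R.π (c.ex (n⁻¹ • Y)) e)).symm
    rw [h5, h4, integral_smul_measure, ENNReal.toReal_ofReal (abs_nonneg _), smul_smul, abs_inv,
      mul_inv_cancel₀ (abs_ne_zero.2 hdet), one_smul]
  have hdiff : Op c χ R.π n h e - R.π x (Op c χ R.π n h' (R.π x⁻¹ e)) =
      ∫ Y : Ed d, ((((χ (n⁻¹ • Y) : ℝ) : ℂ) * h Y) • R.π (c.ex (n⁻¹ • Y)) e -
        (((χ (n⁻¹ • B.symm Y) : ℝ) : ℂ) * h Y) • R.π (c.ex (n⁻¹ • Y)) e) := by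
    rw [hconj, integral_sub I1 I2]
    rfl
  rw [hdiff]
  have hgi : Integrable fun Y : Ed d => (Real.exp (A * b) * (b / r) / n * ‖R.J e‖) *
      (‖Y‖ * ‖h Y‖) := hi1.const_mul _
  refine (J_int_le R (I1.sub I2) hgi ?_).trans ?_
  · intro Y
    have hsub : (((χ (n⁻¹ • Y) : ℝ) : ℂ) * h Y) • R.π (c.ex (n⁻¹ • Y)) e -
        (((χ (n⁻¹ • B.symm Y) : ℝ) : ℂ) * h Y) • R.π (c.ex (n⁻¹ • Y)) e =
        (((χ (n⁻¹ • Y) - χ (n⁻¹ • B.symm Y) : ℝ) : ℂ) * h Y) • R.π (c.ex (n⁻¹ • Y)) e := by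
      rw [← sub_smul]
      congr 1
      push_cast
      ring
    simp only [Pi.sub_apply]
    rw [hsub, map_smul, norm_smul, norm_mul, Complex.norm_real]
    have hBn : ‖n⁻¹ • B.symm Y‖ ≤ b * ‖n⁻¹ • Y‖ := by
      rw [← map_smul]
      exact hBY _
    have hBn' : ‖n⁻¹ • Y‖ ≤ b * ‖n⁻¹ • B.symm Y‖ := by
      rw [← map_smul B.symm]
      exact hYB _
    by_cases h1 : ‖n⁻¹ • Y‖ ≤ r / b
    · have h2 : χ (n⁻¹ • Y) = 1 := hχr _ (h1.trans (div_le_self hr.le hb1))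
      have h3 : χ (n⁻¹ • B.symm Y) = 1 := by
        apply hχr
        refine hBn.trans ?_
        calc b * ‖n⁻¹ • Y‖ ≤ b * (r / b) := mul_le_mul_of_nonneg_left h1 hb0.le
          _ = r := by field_simp
      rw [h2, h3, sub_self, norm_zero, zero_mul, zero_mul]
      positivity
    · push Not at h1
      by_cases h4 : ‖n⁻¹ • Y‖ ≤ b
      · have h5 := E7b_J hc R e h4
        have h6 : ‖χ (n⁻¹ • Y) - χ (n⁻¹ • B.symm Y)‖ ≤ 1 := by
          rw [Real.norm_eq_abs, abs_le]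
          have a1 := hχ.χ_nonneg (n⁻¹ • Y)
          have a2 := hχ.χ_le (n⁻¹ • Y)
          have a3 := hχ.χ_nonneg (n⁻¹ • B.symm Y)
          have a4 := hχ.χ_le (n⁻¹ • B.symm Y)
          constructor <;> linarith
        have h7 : 1 ≤ (b / r) / n * ‖Y‖ := by
          rw [norm_smul, norm_inv, Real.norm_of_nonneg hn0.le] at h1
          have h8 : r / b < n⁻¹ * ‖Y‖ := h1
          have h9 : (b / r) / n * ‖Y‖ = (b / r) * (n⁻¹ * ‖Y‖) := by ring
          rw [h9]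
          calc (1 : ℝ) = (b / r) * (r / b) := by field_simp
            _ ≤ _ := mul_le_mul_of_nonneg_left h8.le (by positivity)
        calc ‖χ (n⁻¹ • Y) - χ (n⁻¹ • B.symm Y)‖ * ‖h Y‖ *
              ‖R.J (R.π (c.ex (n⁻¹ • Y)) e)‖
            ≤ ((b / r) / n * ‖Y‖) * ‖h Y‖ * (Real.exp (A * b) * ‖R.J e‖) := by
              refine mul_le_mul ?_ h5 (norm_nonneg _) (by positivity)
              exact mul_le_mul_of_nonneg_right (h6.trans h7) (norm_nonneg _)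
          _ = _ := by ring
      · push Not at h4
        have h5 : χ (n⁻¹ • Y) = 0 := hχ.χ_supp _ (hb1.trans h4.le)
        have h6 : χ (n⁻¹ • B.symm Y) = 0 := by
          apply hχ.χ_supp
          by_contra hcon
          push Not at hcon
          have : b * ‖n⁻¹ • B.symm Y‖ ≤ b * 1 := mul_le_mul_of_nonneg_left hcon.le hb0.le
          linarith
        rw [h5, h6, sub_self, norm_zero, zero_mul, zero_mul]
        positivity
  · rw [integral_const_mul]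
    exact le_of_eq (by ring)

end Pool.Agent.RG
end

section

/-! E7: conjugation of `Op(h)` by a group element -/
end

section

/-!
# E4a: `Op(h) X_i v = -n Op(∂_i h) v + O(1) v`
-/

namespace Pool.Agent.RG

open MeasureTheory Topology Filter Set
open scoped SchwartzMap LineDeriv

universe u v

variable {G : Type u} [Group G] [TopologicalSpace G] {d : ℕ} {c : Core G d} {A : ℕ}
  {χ : Ed d → ℝ} {κ : Fin d → Fin d → Ed d → ℝ}

/-- the real linear map `X ↦ ι (L X v)` -/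
private noncomputable def E4a_lin (R : Cal.{u, v} c A) (v : R.V) : Ed d →ₗ[ℝ] R.E where
  toFun X := R.ι (R.L X v)
  map_add' X Y := by simp
  map_smul' r X := by
    simp only [map_smul, LinearMap.smul_apply, RingHom.id_apply]
    exact LinearMap.map_smul_of_tower R.ι r (R.L X v)

private theorem E4a_lin_apply (R : Cal.{u, v} c A) (v : R.V) (X : Ed d) :
    E4a_lin R v X = R.ι (R.L X v) := rfl

private theorem E4a_lin_cont (R : Cal.{u, v} c A) (v : R.V) : Continuous (E4a_lin R v) :=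
  LinearMap.continuous_of_finiteDimensional _

private theorem E4a_Th_cont (hc : IsCore c) : Continuous c.Th := by
  unfold Core.Th
  apply intervalIntegral.continuous_parametric_intervalIntegral_of_continuous'
  have h1 : Continuous fun p : Ed d × ℝ => c.ad (c.ex (-p.2 • p.1)) :=
    hc.ad_cont.comp (hc.ex_cont.comp (by fun_prop))
  exact h1

private theorem E4a_pi_cont (hc : IsCore c) (R : Cal.{u, v} c A) (n : ℝ) {w : Ed d → R.E}
    (hw : Continuous w) : Continuous fun Y : Ed d => R.π (c.ex (n⁻¹ • Y)) (w Y) := by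
  have h1 : Continuous fun Y : Ed d => ((c.ex (n⁻¹ • Y), w Y) : G × R.E) := by
    refine Continuous.prodMk (hc.ex_cont.comp (by fun_prop)) hw
  exact R.cont.comp h1

private theorem E4a_deriv (hc : IsCore c) (R : Cal.{u, v} c A) (n : ℝ) (v : R.V) (Y : Ed d) :
    ∃ F' : Ed d →L[ℝ] R.E,
      HasFDerivAt (fun Z : Ed d => R.π (c.ex (n⁻¹ • Z)) (R.ι v)) F' Y ∧
      ∀ H, F' H = n⁻¹ • R.π (c.ex (n⁻¹ • Y)) (R.ι (R.L (c.Th (n⁻¹ • Y) H) v)) := by
  obtain ⟨F', hF', hF⟩ := orbit_deriv hc R v (n⁻¹ • Y)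
  have h1 : HasFDerivAt (fun Z : Ed d => n⁻¹ • Z) (n⁻¹ • ContinuousLinearMap.id ℝ (Ed d)) Y :=
    (hasFDerivAt_id Y).const_smul n⁻¹
  refine ⟨F'.comp (n⁻¹ • ContinuousLinearMap.id ℝ (Ed d)), hF'.comp Y h1, fun H => ?_⟩
  simp [hF]

/-- the function `κ i j (Y / n) h Y` -/
private noncomputable def E4a_f (κ : Fin d → Fin d → Ed d → ℝ) (h : Ed d → ℂ) (n : ℝ)
    (i j : Fin d) (Y : Ed d) : ℂ :=
  ((κ i j (n⁻¹ • Y) : ℝ) : ℂ) * h Y

omit [Group G] [TopologicalSpace G] in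
private theorem E4a_f_deriv (hχ : IsCut c χ κ) (h : 𝓢(Ed d, ℂ)) (n : ℝ) (i j : Fin d)
    (Y : Ed d) :
    DifferentiableAt ℝ (E4a_f κ h n i j) Y ∧
    fderiv ℝ (E4a_f κ h n i j) Y (eb j) =
      ((κ i j (n⁻¹ • Y) : ℝ) : ℂ) * (∂_{eb j} h : 𝓢(Ed d, ℂ)) Y +
      (n : ℂ)⁻¹ * (((fderiv ℝ (κ i j) (n⁻¹ • Y) (eb j) : ℝ) : ℂ) * h Y) := by
  have h0 : HasFDerivAt (fun Z : Ed d => n⁻¹ • Z) (n⁻¹ • ContinuousLinearMap.id ℝ (Ed d)) Y :=
    (hasFDerivAt_id Y).const_smul n⁻¹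
  have h1 : HasFDerivAt (κ i j) (fderiv ℝ (κ i j) (n⁻¹ • Y)) (n⁻¹ • Y) :=
    (((hχ.κ_smooth i j).differentiable (by norm_num)) _).hasFDerivAt
  have h2 := Complex.ofRealCLM.hasFDerivAt.comp Y (h1.comp Y h0)
  have h3 : HasFDerivAt (fun Z : Ed d => h Z) (fderiv ℝ h Y) Y :=
    (h.differentiableAt).hasFDerivAt
  have h4 := h2.mul h3
  have h5 : HasFDerivAt (E4a_f κ h n i j) _ Y := h4
  refine ⟨h5.differentiableAt, ?_⟩
  rw [h5.fderiv, SchwartzMap.lineDerivOp_apply_eq_fderiv]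
  simp
  ring

omit [Group G] [TopologicalSpace G] in
private theorem E4a_supp (hχ : IsCut c χ κ) {n : ℝ} (hn : 1 ≤ n) (i j : Fin d) {E : Type*}
    [NormedAddCommGroup E] [NormedSpace ℂ E] (g : Ed d → ℂ) (F : Ed d → E) (hF : Continuous F)
    (hg : Continuous g) :
    Integrable fun Y : Ed d => (((κ i j (n⁻¹ • Y) : ℝ) : ℂ) * g Y) • F Y := by
  have hk : Continuous (κ i j) := (hχ.κ_smooth i j).continuous
  apply Continuous.integrable_of_hasCompactSupport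
  · fun_prop
  · apply HasCompactSupport.intro (isCompact_closedBall (0 : Ed d) n)
    intro Y hY
    have h1 : 1 ≤ ‖n⁻¹ • Y‖ := by
      rw [norm_smul, norm_inv, Real.norm_of_nonneg (by linarith)]
      rw [Metric.mem_closedBall, dist_zero_right, not_le] at hY
      rw [inv_mul_eq_div, le_div_iff₀ (by linarith)]
      linarith
    rw [hχ.κ_supp i j _ h1]
    simp

omit [Group G] [TopologicalSpace G] in
private theorem E4a_supp' (hχ : IsCut c χ κ) {n : ℝ} (hn : 1 ≤ n) (i j : Fin d) {E : Type*}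
    [NormedAddCommGroup E] [NormedSpace ℂ E] (g : Ed d → ℂ) (F : Ed d → E) (hF : Continuous F)
    (hg : Continuous g) :
    Integrable fun Y : Ed d => (((fderiv ℝ (κ i j) (n⁻¹ • Y) (eb j) : ℝ) : ℂ) * g Y) • F Y := by
  have hk : Continuous (fun Y => fderiv ℝ (κ i j) Y (eb j)) :=
    ((hχ.κ_smooth i j).continuous_fderiv (by norm_num)).clm_apply continuous_const
  have hk' : Continuous (fun Y : Ed d => fderiv ℝ (κ i j) (n⁻¹ • Y) (eb j)) :=
    hk.comp (by fun_prop)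
  apply Continuous.integrable_of_hasCompactSupport
  · fun_prop
  · apply HasCompactSupport.intro (isCompact_closedBall (0 : Ed d) n)
    intro Y hY
    have h1 : 1 < ‖n⁻¹ • Y‖ := by
      rw [norm_smul, norm_inv, Real.norm_of_nonneg (by linarith)]
      rw [Metric.mem_closedBall, dist_zero_right, not_le] at hY
      rw [inv_mul_eq_div, lt_div_iff₀ (by linarith)]
      linarith
    have h2 : κ i j =ᶠ[𝓝 (n⁻¹ • Y)] fun _ => 0 := by
      have h3 : {Z : Ed d | 1 < ‖Z‖} ∈ 𝓝 (n⁻¹ • Y) :=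
        (isOpen_lt continuous_const continuous_norm).mem_nhds h1
      filter_upwards [h3] with Z hZ
      exact hχ.κ_supp i j Z (le_of_lt hZ)
    rw [h2.fderiv_eq]
    simp

/-- INTEGRATION BY PARTS (exact formula).
PROOF. Let `F Y = π (ex (n⁻¹ • Y)) (ι v)`; by `orbit_deriv` (chain rule with `Y ↦ n⁻¹ • Y`) `F` is differentiable with `fderiv F Y H = n⁻¹ • π (ex (Y/n)) (ι (L (Th (Y/n) H) v))`, which is continuous in `Y`
(`Th` is continuous: it is an interval integral of a jointly continuous function; expand in the basis). By `κ_eq`,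
`Σ_j κ i j (Y/n) • fderiv F Y (eb j) = n⁻¹ • π (ex (Y/n)) (ι (L (χ (Y/n) • eb i) v)) = n⁻¹ χ(Y/n) • π (ex (Y/n)) (ι (L (eb i) v))`. Multiply by `h Y` and integrate:
`Op h (ι (L (eb i) v)) = n Σ_j ∫ (κ i j (Y/n) h Y) • fderiv F Y (eb j) dY = -n Σ_j ∫ fderiv (κ i j (·/n) h) Y (eb j) • F Y dY` (`integral_bilinear_hasLineDerivAt_right_eq_neg_left_of_integrable` or the analogous lemma of
`Mathlib.Analysis.Calculus.LineDeriv.IntegrationByParts`; `κ i j (·/n) h` is `C¹` with compact support, `F` is `C¹`). Product rule: `fderiv (κ i j (·/n) h) Y (eb j) = κ i j (Y/n) * (∂_j h) Y + n⁻¹ * fderiv (κ i j) (Y/n) (eb j) * h Y`. -/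
theorem Op_parts (hc : IsCore c) (hχ : IsCut c χ κ) (R : Cal.{u, v} c A) (h : 𝓢(Ed d, ℂ))
    {n : ℝ} (hn : 1 ≤ n) (i : Fin d) (v : R.V) :
    Op c χ R.π n h (R.ι (R.L (eb i) v)) =
      -((n : ℂ) • ∑ j, ∫ Y : Ed d, (((κ i j (n⁻¹ • Y) : ℝ) : ℂ) * (∂_{eb j} h : 𝓢(Ed d, ℂ)) Y) •
        R.π (c.ex (n⁻¹ • Y)) (R.ι v)) -
      ∑ j, ∫ Y : Ed d, (((fderiv ℝ (κ i j) (n⁻¹ • Y) (eb j) : ℝ) : ℂ) * h Y) •
        R.π (c.ex (n⁻¹ • Y)) (R.ι v) := by
  have hn0 : (n : ℂ) ≠ 0 := by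
    have : n ≠ 0 := by linarith
    exact_mod_cast this
  have hn1 : n ≠ 0 := by linarith
  set F : Ed d → R.E := fun Y => R.π (c.ex (n⁻¹ • Y)) (R.ι v) with hFdef
  have hFc : Continuous F := E4a_pi_cont hc R n continuous_const
  have hFd : ∀ Y, DifferentiableAt ℝ F Y := fun Y => by
    obtain ⟨F', h1, -⟩ := E4a_deriv hc R n v Y
    exact h1.differentiableAt
  have hF' : ∀ Y H, fderiv ℝ F Y H =
      n⁻¹ • R.π (c.ex (n⁻¹ • Y)) (E4a_lin R v (c.Th (n⁻¹ • Y) H)) := fun Y H => by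
    obtain ⟨F', h1, h2⟩ := E4a_deriv hc R n v Y
    rw [h1.fderiv, h2, E4a_lin_apply]
  have hThc : ∀ H, Continuous fun Y : Ed d => c.Th (n⁻¹ • Y) H := fun H =>
    ((E4a_Th_cont hc).comp (by fun_prop)).clm_apply continuous_const
  have hF'c : ∀ H, Continuous fun Y => fderiv ℝ F Y H := fun H => by
    have h1 : (fun Y => fderiv ℝ F Y H) =
        fun Y => n⁻¹ • R.π (c.ex (n⁻¹ • Y)) (E4a_lin R v (c.Th (n⁻¹ • Y) H)) := by
      funext Y; exact hF' Y H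
    rw [h1]
    exact (E4a_pi_cont hc R n ((E4a_lin_cont R v).comp (hThc H))).const_smul n⁻¹
  have hsum : ∀ Y : Ed d, (((χ (n⁻¹ • Y) : ℝ) : ℂ) * h Y) •
      R.π (c.ex (n⁻¹ • Y)) (R.ι (R.L (eb i) v)) =
      (n : ℂ) • ∑ j, (((κ i j (n⁻¹ • Y) : ℝ) : ℂ) * h Y) • fderiv ℝ F Y (eb j) := by
    intro Y
    have h1 : ∑ j, κ i j (n⁻¹ • Y) • E4a_lin R v (c.Th (n⁻¹ • Y) (eb j)) =
        χ (n⁻¹ • Y) • E4a_lin R v (eb i) := by
      rw [← map_smul, ← hχ.κ_eq i (n⁻¹ • Y), map_sum]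
      simp only [map_smul]
    have h2 : ∑ j, ((κ i j (n⁻¹ • Y) : ℝ) : ℂ) •
        R.π (c.ex (n⁻¹ • Y)) (E4a_lin R v (c.Th (n⁻¹ • Y) (eb j))) =
        ((χ (n⁻¹ • Y) : ℝ) : ℂ) • R.π (c.ex (n⁻¹ • Y)) (E4a_lin R v (eb i)) := by
      rw [← map_smul, Complex.coe_smul, ← h1, map_sum]
      refine Finset.sum_congr rfl fun j _ => ?_
      rw [← map_smul, Complex.coe_smul]
    rw [← E4a_lin_apply, mul_comm, mul_smul, ← h2, Finset.smul_sum, Finset.smul_sum]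
    refine Finset.sum_congr rfl fun j _ => ?_
    rw [hF', ← Complex.coe_smul, smul_smul, smul_smul, smul_smul]
    congr 1
    push_cast
    field_simp
  have hparts : ∀ j, ∫ Y : Ed d, (((κ i j (n⁻¹ • Y) : ℝ) : ℂ) * h Y) • fderiv ℝ F Y (eb j) =
      -(∫ Y : Ed d, (((κ i j (n⁻¹ • Y) : ℝ) : ℂ) * (∂_{eb j} h : 𝓢(Ed d, ℂ)) Y) • F Y) -
      (n : ℂ)⁻¹ • ∫ Y : Ed d,
        (((fderiv ℝ (κ i j) (n⁻¹ • Y) (eb j) : ℝ) : ℂ) * h Y) • F Y := by
    intro j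
    have hi1 := E4a_supp hχ hn i j (fun Y => (∂_{eb j} h : 𝓢(Ed d, ℂ)) Y) F hFc
      (∂_{eb j} h : 𝓢(Ed d, ℂ)).continuous
    have hi2 := E4a_supp' hχ hn i j h F hFc h.continuous
    have hi3 := E4a_supp hχ hn i j h F hFc h.continuous
    have hi5 : Integrable fun Y : Ed d => (n : ℂ)⁻¹ •
        ((((fderiv ℝ (κ i j) (n⁻¹ • Y) (eb j) : ℝ) : ℂ) * h Y) • F Y) := hi2.smul _
    have hi4 := E4a_supp hχ hn i j h (fun Y => fderiv ℝ F Y (eb j)) (hF'c _) h.continuous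
    have he : (fun Y => fderiv ℝ (E4a_f κ h n i j) Y (eb j) • F Y) =
        fun Y => (((κ i j (n⁻¹ • Y) : ℝ) : ℂ) * (∂_{eb j} h : 𝓢(Ed d, ℂ)) Y) • F Y +
        (n : ℂ)⁻¹ • ((((fderiv ℝ (κ i j) (n⁻¹ • Y) (eb j) : ℝ) : ℂ) * h Y) • F Y) := by
      funext Y
      rw [(E4a_f_deriv hχ h n i j Y).2, add_smul, mul_smul (n : ℂ)⁻¹]
    have hb := integral_smul_fderiv_eq_neg_fderiv_smul_of_integrable (μ := volume)
      (f := E4a_f κ h n i j) (g := F) (v := eb j)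
      (by rw [he]; exact hi1.add hi5) hi4 hi3
      (fun Y _ => (E4a_f_deriv hχ h n i j Y).1) (fun Y _ => hFd Y)
    rw [he, integral_add hi1 hi5, integral_smul, neg_add] at hb
    rw [sub_eq_add_neg]
    exact hb
  unfold Op
  simp only [hsum]
  rw [integral_smul, integral_finsetSum _ (fun j _ =>
    E4a_supp hχ hn i j h (fun Y => fderiv ℝ F Y (eb j)) (hF'c _) h.continuous)]
  simp only [hparts]
  rw [Finset.sum_sub_distrib, Finset.sum_neg_distrib, ← Finset.smul_sum, smul_sub, smul_neg,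
    smul_smul, mul_inv_cancel₀ hn0, one_smul]

end Pool.Agent.RG
end

section

/-!
# E4b: `Op(h) X_i v = -n Op(∂_i h) v + O(1) v`
-/

namespace Pool.Agent.RG

open MeasureTheory Topology Filter Set
open scoped SchwartzMap LineDeriv

universe u v

variable {G : Type u} [Group G] [TopologicalSpace G] {d : ℕ} {c : Core G d} {A : ℕ}
  {χ : Ed d → ℝ} {κ : Fin d → Fin d → Ed d → ℝ}

private theorem E4b_F_cont (hc : IsCore c) (R : Cal.{u, v} c A) (n : ℝ) (e : R.E) :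
    Continuous fun Y : Ed d => R.π (c.ex (n⁻¹ • Y)) e :=
  R.cont.comp ((hc.ex_cont.comp (continuous_const_smul _)).prodMk continuous_const)

private theorem E4b_int (hc : IsCore c) (R : Cal.{u, v} c A) {n : ℝ}
    (e : R.E) {a : Ed d → ℂ} (ha : Continuous a) (h0 : ∀ Y, n < ‖Y‖ → a Y = 0) :
    Integrable fun Y : Ed d => a Y • R.π (c.ex (n⁻¹ • Y)) e := by
  apply Continuous.integrable_of_hasCompactSupport
  · exact ha.smul (E4b_F_cont hc R n e)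
  · apply HasCompactSupport.intro (isCompact_closedBall (0 : Ed d) n)
    intro Y hY
    rw [Metric.mem_closedBall, dist_zero_right, not_le] at hY
    rw [h0 Y hY, zero_smul]

private theorem E4b_J (hc : IsCore c) (R : Cal.{u, v} c A) {n : ℝ} (hn : 1 ≤ n) (e : R.E)
    {Y : Ed d} (hY : ‖Y‖ ≤ n) :
    ‖R.J (R.π (c.ex (n⁻¹ • Y)) e)‖ ≤ Real.exp A * ‖R.J e‖ := by
  have hn0 : 0 < n := by linarith
  have h1 : ‖n⁻¹ • Y‖ ≤ 1 := by
    rw [norm_smul, norm_inv, Real.norm_of_nonneg hn0.le]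
    rw [inv_mul_le_iff₀ hn0]
    linarith
  have h2 : c.M (c.ex (n⁻¹ • Y)) ≤ Real.exp 1 :=
    (hc.M_ex _).trans (Real.exp_le_exp.2 h1)
  have h3 : c.M (c.ex (n⁻¹ • Y)) ^ A ≤ Real.exp A := by
    calc c.M (c.ex (n⁻¹ • Y)) ^ A ≤ Real.exp 1 ^ A :=
          pow_le_pow_left₀ (le_trans zero_le_one (hc.M_ge _)) h2 A
      _ = Real.exp A := by rw [← Real.exp_nat_mul, mul_one]
  exact (R.temp _ e).trans (mul_le_mul_of_nonneg_right h3 (norm_nonneg _))

private theorem E4b_norm_gt {n : ℝ} (hn : 1 ≤ n) {Y : Ed d} (hY : n < ‖Y‖) :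
    1 < ‖n⁻¹ • Y‖ := by
  have hn0 : 0 < n := by linarith
  rw [norm_smul, norm_inv, Real.norm_of_nonneg hn0.le, lt_inv_mul_iff₀ hn0]
  linarith

omit [Group G] [TopologicalSpace G] in
private theorem E4b_fd_zero (hχ : IsCut c χ κ) (i j : Fin d) {Z : Ed d} (hZ : 1 < ‖Z‖) :
    fderiv ℝ (κ i j) Z = 0 := by
  have h1 : κ i j =ᶠ[𝓝 Z] fun _ => (0 : ℝ) := by
    have h2 : ∀ᶠ W in 𝓝 Z, 1 < ‖W‖ := continuous_norm.continuousAt.eventually (lt_mem_nhds hZ)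
    filter_upwards [h2] with W hW
    exact hχ.κ_supp i j W hW.le
  rw [h1.fderiv_eq]
  exact fderiv_const_apply _

omit [Group G] [TopologicalSpace G] in
private theorem E4b_fd_bd (hχ : IsCut c χ κ) (i j : Fin d) :
    ∃ C : ℝ, ∀ Z, ‖fderiv ℝ (κ i j) Z (eb j)‖ ≤ C := by
  have h1 : Continuous fun Z => fderiv ℝ (κ i j) Z (eb j) :=
    ((hχ.κ_smooth i j).continuous_fderiv (by norm_num)).clm_apply continuous_const
  have h2 : HasCompactSupport fun Z => fderiv ℝ (κ i j) Z (eb j) := by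
    apply HasCompactSupport.intro (isCompact_closedBall (0 : Ed d) 1)
    intro Z hZ
    rw [Metric.mem_closedBall, dist_zero_right, not_le] at hZ
    rw [E4b_fd_zero hχ i j hZ]
    rfl
  exact h2.exists_bound_of_continuous h1

/-- RIGHT FORMULA.
PROOF. By `Op_parts`, `Op h (X_i v) + n Op (∂_i h) v = -n Σ_j ∫ (κ i j (Y/n) - δ_ij χ (Y/n)) (∂_j h)(Y) π(..) v - Σ_j ∫ (fderiv (κ i j) (Y/n) (eb j)) h(Y) π(..) v`. By `κ_lip` the first coefficient is
at most `n C ‖Y/n‖ = C ‖Y‖`, and both coefficients vanish for `‖Y‖ > n` (`κ_supp`, `χ_supp`; the derivative of `κ i j` vanishes outside the closed unit ball and is bounded, being continuous with compact support).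
With `‖J π (ex (Y/n)) ι v‖ ≤ exp(A) ‖J ι v‖` for `‖Y‖ ≤ n` and `J_int_le`, the claim holds with `C = exp(A) Σ_j (C_κ ∫ ‖Y‖ ‖(∂_j h) Y‖ + C'_κ ∫ ‖h‖)` (weighted integrability of Schwartz functions). -/
theorem Op_right (hc : IsCore c) (hχ : IsCut c χ κ) (A : ℕ) (h : 𝓢(Ed d, ℂ)) :
    ∃ C : ℝ, 0 ≤ C ∧ ∀ (R : Cal.{u, v} c A) (n : ℝ), 1 ≤ n → ∀ (i : Fin d) (v : R.V),
      ‖R.J (Op c χ R.π n h (R.ι (R.L (eb i) v)) +
        (n : ℂ) • Op c χ R.π n (∂_{eb i} h : 𝓢(Ed d, ℂ)) (R.ι v))‖ ≤ C * ‖R.J (R.ι v)‖ := by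
  obtain ⟨Ck, hCk⟩ := hχ.κ_lip
  choose Cf hCf using fun i j => E4b_fd_bd hχ i j
  set C' : ℝ := ∑ i, ∑ j, |Cf i j| with hC'
  have hC'0 : 0 ≤ C' := Finset.sum_nonneg fun i _ => Finset.sum_nonneg fun j _ => abs_nonneg _
  have hCf' : ∀ i j Z, ‖fderiv ℝ (κ i j) Z (eb j)‖ ≤ C' := by
    intro i j Z
    refine ((hCf i j Z).trans (le_abs_self _)).trans ?_
    refine (Finset.single_le_sum (f := fun j => |Cf i j|) (fun j _ => abs_nonneg _)
      (Finset.mem_univ j)).trans ?_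
    exact Finset.single_le_sum (f := fun i => ∑ j, |Cf i j|)
      (fun i _ => Finset.sum_nonneg fun j _ => abs_nonneg _) (Finset.mem_univ i)
  have hi1 : ∀ j : Fin d, Integrable fun Y : Ed d => ‖Y‖ * ‖(∂_{eb j} h : 𝓢(Ed d, ℂ)) Y‖ := by
    intro j
    have := SchwartzMap.integrable_pow_mul (volume : Measure (Ed d)) (∂_{eb j} h : 𝓢(Ed d, ℂ)) 1
    simpa using this
  have hi2 : Integrable fun Y : Ed d => ‖h Y‖ := h.integrable.norm
  refine ⟨(∑ j : Fin d, (|Ck| * (∫ Y : Ed d, ‖Y‖ * ‖(∂_{eb j} h : 𝓢(Ed d, ℂ)) Y‖) +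
    C' * ∫ Y : Ed d, ‖h Y‖)) * Real.exp A, ?_, ?_⟩
  · refine mul_nonneg (Finset.sum_nonneg fun j _ => add_nonneg (mul_nonneg (abs_nonneg _) ?_)
      (mul_nonneg hC'0 ?_)) (Real.exp_pos _).le
    · exact integral_nonneg fun Y => by positivity
    · exact integral_nonneg fun Y => by positivity
  intro R n hn i v
  have hn0 : 0 < n := by linarith
  have hχc : Continuous fun Y : Ed d => ((χ (n⁻¹ • Y) : ℝ) : ℂ) :=
    Complex.continuous_ofReal.comp (hχ.χ_smooth.continuous.comp (continuous_const_smul _))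
  have hκc : ∀ i j, Continuous fun Y : Ed d => ((κ i j (n⁻¹ • Y) : ℝ) : ℂ) := fun i j =>
    Complex.continuous_ofReal.comp ((hχ.κ_smooth i j).continuous.comp (continuous_const_smul _))
  have hfc : ∀ i j, Continuous fun Y : Ed d =>
      ((fderiv ℝ (κ i j) (n⁻¹ • Y) (eb j) : ℝ) : ℂ) := fun i j =>
    Complex.continuous_ofReal.comp ((((hχ.κ_smooth i j).continuous_fderiv
      (by norm_num)).comp (continuous_const_smul _)).clm_apply continuous_const)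
  have hdc : ∀ j : Fin d, Continuous (∂_{eb j} h : 𝓢(Ed d, ℂ)) := fun j =>
    (∂_{eb j} h : 𝓢(Ed d, ℂ)).continuous
  -- integrability
  have I1 : ∀ j, Integrable fun Y : Ed d => (((κ i j (n⁻¹ • Y) : ℝ) : ℂ) *
      (∂_{eb j} h : 𝓢(Ed d, ℂ)) Y) • R.π (c.ex (n⁻¹ • Y)) (R.ι v) := by
    intro j
    apply E4b_int hc R (R.ι v) ((hκc i j).mul (hdc j))
    intro Y hY
    simp only [Pi.mul_apply]
    rw [hχ.κ_supp i j _ (E4b_norm_gt hn hY).le]
    simp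
  have I2 : ∀ j, Integrable fun Y : Ed d => (((fderiv ℝ (κ i j) (n⁻¹ • Y) (eb j) : ℝ) : ℂ) *
      h Y) • R.π (c.ex (n⁻¹ • Y)) (R.ι v) := by
    intro j
    apply E4b_int hc R (R.ι v) ((hfc i j).mul h.continuous)
    intro Y hY
    simp only [Pi.mul_apply]
    rw [E4b_fd_zero hχ i j (E4b_norm_gt hn hY)]
    simp
  have hδc : ∀ j : Fin d, Continuous fun Y : Ed d =>
      (((if i = j then χ (n⁻¹ • Y) else 0 : ℝ)) : ℂ) := by
    intro j
    by_cases hij : i = j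
    · simpa [hij] using hχc
    · simpa [hij] using continuous_const
  have I3 : ∀ j, Integrable fun Y : Ed d => ((((if i = j then χ (n⁻¹ • Y) else 0 : ℝ)) : ℂ) *
      (∂_{eb j} h : 𝓢(Ed d, ℂ)) Y) • R.π (c.ex (n⁻¹ • Y)) (R.ι v) := by
    intro j
    apply E4b_int hc R (R.ι v) ((hδc j).mul (hdc j))
    intro Y hY
    simp only [Pi.mul_apply]
    rw [hχ.χ_supp _ (E4b_norm_gt hn hY).le]
    simp
  -- the second summand as a sum over j
  have hOp : Op c χ R.π n (∂_{eb i} h : 𝓢(Ed d, ℂ)) (R.ι v) = ∑ j, ∫ Y : Ed d,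
      ((((if i = j then χ (n⁻¹ • Y) else 0 : ℝ)) : ℂ) * (∂_{eb j} h : 𝓢(Ed d, ℂ)) Y) •
        R.π (c.ex (n⁻¹ • Y)) (R.ι v) := by
    rw [Finset.sum_eq_single i]
    · unfold Op
      simp only [if_true]
    · intro j _ hj
      simp [hj.symm]
    · intro hi
      exact absurd (Finset.mem_univ i) hi
  -- the error
  set Gf : Fin d → Ed d → R.E := fun j Y =>
    (n : ℂ) • ((((κ i j (n⁻¹ • Y) : ℝ) : ℂ) * (∂_{eb j} h : 𝓢(Ed d, ℂ)) Y) •
      R.π (c.ex (n⁻¹ • Y)) (R.ι v) -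
      ((((if i = j then χ (n⁻¹ • Y) else 0 : ℝ)) : ℂ) * (∂_{eb j} h : 𝓢(Ed d, ℂ)) Y) •
      R.π (c.ex (n⁻¹ • Y)) (R.ι v)) +
    (((fderiv ℝ (κ i j) (n⁻¹ • Y) (eb j) : ℝ) : ℂ) * h Y) • R.π (c.ex (n⁻¹ • Y)) (R.ι v) with hGf
  have hGi : ∀ j, Integrable (Gf j) := fun j => (((I1 j).sub (I3 j)).smul (n : ℂ)).add (I2 j)
  have hmain : Op c χ R.π n h (R.ι (R.L (eb i) v)) +
      (n : ℂ) • Op c χ R.π n (∂_{eb i} h : 𝓢(Ed d, ℂ)) (R.ι v) = -∑ j, ∫ Y, Gf j Y := by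
    rw [Op_parts hc hχ R h hn i v, hOp]
    have hG : ∀ j, ∫ Y, Gf j Y = (n : ℂ) • ((∫ Y : Ed d, (((κ i j (n⁻¹ • Y) : ℝ) : ℂ) *
      (∂_{eb j} h : 𝓢(Ed d, ℂ)) Y) • R.π (c.ex (n⁻¹ • Y)) (R.ι v)) -
      ∫ Y : Ed d, ((((if i = j then χ (n⁻¹ • Y) else 0 : ℝ)) : ℂ) *
      (∂_{eb j} h : 𝓢(Ed d, ℂ)) Y) • R.π (c.ex (n⁻¹ • Y)) (R.ι v)) +
      ∫ Y : Ed d, (((fderiv ℝ (κ i j) (n⁻¹ • Y) (eb j) : ℝ) : ℂ) *
      h Y) • R.π (c.ex (n⁻¹ • Y)) (R.ι v) := by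
      intro j
      refine (integral_add (((I1 j).sub (I3 j)).smul (n : ℂ)) (I2 j)).trans ?_
      congr 1
      rw [← integral_sub (I1 j) (I3 j)]
      exact integral_smul (n : ℂ) _
    simp_rw [hG]
    rw [Finset.sum_add_distrib, ← Finset.smul_sum, Finset.sum_sub_distrib, smul_sub]
    abel
  rw [hmain, map_neg, norm_neg, map_sum]
  refine (norm_sum_le _ _).trans ?_
  rw [Finset.sum_mul, Finset.sum_mul]
  refine Finset.sum_le_sum fun j _ => ?_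
  have hgi : Integrable fun Y : Ed d => (|Ck| * (‖Y‖ * ‖(∂_{eb j} h : 𝓢(Ed d, ℂ)) Y‖) +
      C' * ‖h Y‖) * (Real.exp A * ‖R.J (R.ι v)‖) :=
    (((hi1 j).const_mul _).add (hi2.const_mul _)).mul_const _
  refine (J_int_le R (hGi j) hgi ?_).trans ?_
  · intro Y
    by_cases hY : ‖Y‖ ≤ n
    · have hb := E4b_J hc R hn (R.ι v) hY
      have hGY : Gf j Y = ((n : ℂ) * ((((κ i j (n⁻¹ • Y) -
          (if i = j then χ (n⁻¹ • Y) else 0) : ℝ)) : ℂ) * (∂_{eb j} h : 𝓢(Ed d, ℂ)) Y) +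
          ((fderiv ℝ (κ i j) (n⁻¹ • Y) (eb j) : ℝ) : ℂ) * h Y) •
          R.π (c.ex (n⁻¹ • Y)) (R.ι v) := by
        rw [hGf]
        simp only [Complex.ofReal_sub]
        rw [add_smul, ← sub_smul, smul_smul]
        congr 2
        ring
      rw [hGY, map_smul, norm_smul]
      refine mul_le_mul ?_ hb (norm_nonneg _) ?_
      · refine (norm_add_le _ _).trans (add_le_add ?_ ?_)
        · rw [norm_mul, norm_mul, Complex.norm_real, Complex.norm_real,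
            Real.norm_of_nonneg hn0.le, ← mul_assoc, ← mul_assoc]
          refine mul_le_mul_of_nonneg_right ?_ (norm_nonneg _)
          have h1 := hCk i j (n⁻¹ • Y)
          rw [norm_smul, norm_inv, Real.norm_of_nonneg hn0.le] at h1
          calc n * ‖κ i j (n⁻¹ • Y) - (if i = j then χ (n⁻¹ • Y) else 0)‖
              ≤ n * (Ck * (n⁻¹ * ‖Y‖)) := mul_le_mul_of_nonneg_left h1 hn0.le
            _ = Ck * ‖Y‖ := by field_simp
            _ ≤ |Ck| * ‖Y‖ := mul_le_mul_of_nonneg_right (le_abs_self _) (norm_nonneg _)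
        · rw [norm_mul, Complex.norm_real]
          exact mul_le_mul_of_nonneg_right (hCf' i j _) (norm_nonneg _)
      · positivity
    · push Not at hY
      have hz := E4b_norm_gt hn hY
      have hGY : Gf j Y = 0 := by
        rw [hGf]
        simp only [hχ.κ_supp i j _ hz.le, hχ.χ_supp _ hz.le, E4b_fd_zero hχ i j hz]
        simp
      rw [hGY, map_zero, norm_zero]
      positivity
  · rw [integral_mul_const, integral_add ((hi1 j).const_mul _) (hi2.const_mul _),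
      integral_const_mul, integral_const_mul]
    exact le_of_eq (by ring)

end Pool.Agent.RG
end

section

/-! E4: `Op(h) X_i v = -n Op(∂_i h) v + O(1) v` -/
end
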