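import Pool.Agent.Lib.MP_496a9e_al.Mg.G005
import Pool.Agent.Lib.MP_496a9e_al.Mg.G006
import Pool.Agent.Lib.MP_496a9e_al.Mg.G013
import Pool.Agent.Lib.MP_496a9e_al.Mg.G012
import Pool.Agent.Lib.MP_496a9e_al.Mg.G002

section

/-!
# B1d: `K`-invariant inner products of matrix coefficients
-/

namespace Pool.Agent.RG

open MeasureTheory Topology Filter Set
open scoped InnerProductSpace ComplexConjugate

universe u v

variable {G : Type u} [Group G] [TopologicalSpace G] [IsTopologicalGroup G] [T2Space G] {d : ℕ}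
  {c : Core G d} {V : Type v} [AddCommGroup V] [Module ℂ V] {L : Ed d →ₗ[ℝ] (V →ₗ[ℂ] V)}
  {act : G → V →ₗ[ℂ] V}

/-- the span of the `K`-translates of `v` -/
def B1d_W (c : Core G d) (act : G → V →ₗ[ℂ] V) (v : V) : Submodule ℂ V :=
  Submodule.span ℂ ((fun k => act k v) '' c.K)

omit [IsTopologicalGroup G] [T2Space G] in
theorem B1d_self (hc : IsCore c) (hK : IsKm c L act) (v : V) : v ∈ B1d_W c act v :=
  Submodule.subset_span ⟨1, hc.K_one, hK.act_one v⟩

omit [IsTopologicalGroup G] [T2Space G] in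
theorem B1d_act (hc : IsCore c) (hK : IsKm c L act) (v : V) {k : G} (hk : k ∈ c.K) {w : V}
    (hw : w ∈ B1d_W c act v) : act k w ∈ B1d_W c act v := by
  have hle : B1d_W c act v ≤ (B1d_W c act v).comap (act k) := by
    refine Submodule.span_le.2 ?_
    rintro _ ⟨l, hl, rfl⟩
    show act k (act l v) ∈ B1d_W c act v
    rw [← hK.act_mul k hk l hl]
    exact Submodule.subset_span ⟨k * l, hc.K_mul _ hk _ hl, rfl⟩
  exact hle hw

omit [IsTopologicalGroup G] [T2Space G] in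
theorem B1d_L (hc : IsCore c) (hK : IsKm c L act) (v : V) {i : Fin d} (hi : i ∈ c.kI) {w : V}
    (hw : w ∈ B1d_W c act v) : L (eb i) w ∈ B1d_W c act v := by
  by_contra hn
  obtain ⟨f, hf, hle⟩ := Submodule.exists_le_ker_of_notMem hn
  apply hf
  have hY : ∀ j ∉ c.kI, (eb i : Ed d) j = 0 := by
    intro j hj
    have hji : j ≠ i := fun h => hj (h ▸ hi)
    simp [eb, hji]
  have h1 := hK.diff (eb i) hY w f
  have h2 : (fun t : ℝ => f (act (c.ex (t • eb i)) w)) = fun _ => (0 : ℂ) := by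
    funext t
    exact LinearMap.mem_ker.1 (hle (B1d_act hc hK v (hc.K_ex i hi t) hw))
  rw [h2] at h1
  exact h1.unique (hasDerivAt_const (0 : ℝ) (0 : ℂ))

omit [IsTopologicalGroup G] [T2Space G] in
theorem B1d_C (hc : IsCore c) (hK : IsKm c L act) (v : V) {w : V}
    (hw : w ∈ B1d_W c act v) : casK c L w ∈ B1d_W c act v := by
  unfold casK
  rw [LinearMap.neg_apply, LinearMap.sum_apply]
  refine Submodule.neg_mem _ (Submodule.sum_mem _ fun i hi => ?_)
  exact B1d_L hc hK v hi (B1d_L hc hK v hi hw)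

omit [Group G] [TopologicalSpace G] [IsTopologicalGroup G] [T2Space G] in
theorem B1d_eig {H : Type u} [NormedAddCommGroup H] [InnerProductSpace ℂ H]
    {T : (V →ₗ[ℂ] ℂ) → V →ₗ[ℂ] H} (hT : ∀ l, Ksk c L (T l)) (hs : ∀ l v, T l v = 0 → l v = 0)
    {z : ℂ} {w : V} (hw : casK c L w = z • w) (h0 : w ≠ 0) : ∃ r : ℝ, 0 ≤ r ∧ z = (r : ℂ) := by
  obtain ⟨l, hl⟩ : ∃ l : V →ₗ[ℂ] ℂ, l w ≠ 0 := by
    by_contra hcon
    push Not at hcon
    exact h0 ((Module.forall_dual_apply_eq_zero_iff ℂ w).1 hcon)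
  have hTl : T l w ≠ 0 := fun h => hl (hs l w h)
  have h1 := (hT l).energy w
  rw [hw, map_smul, inner_smul_left, inner_self_eq_norm_sq_to_K] at h1
  set s : ℝ := ∑ i ∈ c.kI, ‖T l (L (eb i) w)‖ ^ 2 with hsdef
  have hs0 : 0 ≤ s := Finset.sum_nonneg fun i _ => by positivity
  have hn : 0 < ‖T l w‖ ^ 2 := by
    have := norm_pos_iff.2 hTl
    positivity
  refine ⟨s / ‖T l w‖ ^ 2, by positivity, ?_⟩
  have h2 : (starRingEnd ℂ) z = ((s / ‖T l w‖ ^ 2 : ℝ) : ℂ) := by
    have hn' : ((‖T l w‖ ^ 2 : ℝ) : ℂ) ≠ 0 := by exact_mod_cast hn.ne'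
    rw [Complex.ofReal_div, eq_div_iff hn']
    rw [← h1]
    push_cast
    rfl
  have h3 := congrArg (starRingEnd ℂ) h2
  rwa [Complex.conj_conj, Complex.conj_ofReal] at h3

omit [Group G] [TopologicalSpace G] [IsTopologicalGroup G] [T2Space G] in
theorem B1d_gen {H : Type u} [NormedAddCommGroup H] [InnerProductSpace ℂ H]
    {T : (V →ₗ[ℂ] ℂ) → V →ₗ[ℂ] H} (hT : ∀ l, Ksk c L (T l)) (hs : ∀ l v, T l v = 0 → l v = 0)
    (z : ℂ) (k : ℕ) : ∀ w : V, ((casK c L - z • (1 : Module.End ℂ V)) ^ k) w = 0 →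
      casK c L w = z • w ∧ (w ≠ 0 → ∃ r : ℝ, 0 ≤ r ∧ z = (r : ℂ)) := by
  induction k with
  | zero =>
    intro w hw
    have hw0 : w = 0 := by simpa using hw
    subst hw0
    exact ⟨by simp, fun h => absurd rfl h⟩
  | succ k ih =>
    intro w hw
    have hw' : ((casK c L - z • (1 : Module.End ℂ V)) ^ k)
        ((casK c L - z • (1 : Module.End ℂ V)) w) = 0 := by
      rw [pow_succ] at hw
      exact hw
    obtain ⟨h1, h2⟩ := ih _ hw'
    have hu : (casK c L - z • (1 : Module.End ℂ V)) w = casK c L w - z • w := by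
      simp [LinearMap.sub_apply, LinearMap.smul_apply]
    rw [hu] at h1 h2
    have hzero : casK c L w - z • w = 0 := by
      by_contra hne
      obtain ⟨r, hr, hz⟩ := h2 hne
      subst hz
      apply hne
      apply (Module.forall_dual_apply_eq_zero_iff ℂ _).1
      intro l
      apply hs l
      rw [← inner_self_eq_zero (𝕜 := ℂ)]
      have e1 := (hT l).symm w (casK c L w - (r : ℂ) • w)
      rw [h1] at e1
      nth_rewrite 1 [map_sub]
      rw [inner_sub_left, e1, map_smul (T l) (r : ℂ) w, inner_smul_left, Complex.conj_ofReal,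
        map_smul (T l) (r : ℂ) (casK c L w - (r : ℂ) • w), inner_smul_right, sub_self]
    have heq : casK c L w = z • w := sub_eq_zero.1 hzero
    exact ⟨heq, fun h0 => B1d_eig hT hs heq h0⟩

/-- `casK` is diagonalizable with eigenvalues `≥ 0`.
PROOF. Let `v ∈ V`, `W` = span of the `K`-translates of `v`: finite dimensional, contains `v` (`act_one`), stable under `act k` and under `X_i`, `i ∈ kI` (for a functional `f` vanishing on `W` and `w ∈ W`: `f (act (ex (t e_i)) w) = 0` for all `t`, so `f (X_i w) = 0`; a subspace is the intersection of the kernels of the functionals vanishing on it), so under `C = casK`.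
On `W` (a finite dimensional complex space): the sum of the generalized eigenspaces of `C|W` is everything (`Module.End.iSup_maxGenEigenspace_eq_top`). If `C w = z w`, `w ≠ 0`: choose `l` with `l w ≠ 0`, so `T l w ≠ 0`; `z̄ ‖T w‖² = ⟪T C w, T w⟫ = ⟪T w, T C w⟫ = z ‖T w‖²`, so `z` is real, and `z ‖T w‖² = Σ_i ‖T X_i w‖² ≥ 0` (`Ksk.energy`). If `(C - z)^2 w = 0` with `z` real then
`‖T (C - z) w‖² = ⟪T w, T (C - z)² w⟫ = 0` for every `T l`, so `(C - z) w = 0`; hence generalized eigenvectors are eigenvectors. So `v` is a sum of eigenvectors for real eigenvalues `≥ 0`. -/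
theorem casK_diag (hc : IsCore c) (hK : IsKm c L act) :
    (⨆ r : ℝ, Module.End.eigenspace (casK c L) (r : ℂ) = ⊤) ∧
      ∀ (r : ℝ) (v : V), casK c L v = (r : ℂ) • v → v ≠ 0 → 0 ≤ r := by
  obtain ⟨H, i1, i2, T, hT, hs⟩ := exists_T hc hK
  refine ⟨?_, ?_⟩
  · rw [eq_top_iff]
    intro v _
    haveI : FiniteDimensional ℂ (B1d_W c act v) := hK.fin v
    have hst : ∀ w ∈ B1d_W c act v, casK c L w ∈ B1d_W c act v := fun w hw => B1d_C hc hK v hw
    have htop := Module.End.iSup_maxGenEigenspace_eq_top ((casK c L).restrict hst)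
    have hpow : ∀ (z : ℂ) (k : ℕ) (w : B1d_W c act v),
        (((((casK c L).restrict hst) - z • (1 : Module.End ℂ (B1d_W c act v))) ^ k) w : V) =
          ((casK c L - z • (1 : Module.End ℂ V)) ^ k) (w : V) := by
      intro z k
      induction k with
      | zero => intro w; simp
      | succ k ih =>
        intro w
        rw [pow_succ, pow_succ, Module.End.mul_apply, Module.End.mul_apply, ih]
        congr 1
    have hle : (⨆ μ : ℂ, Module.End.maxGenEigenspace ((casK c L).restrict hst) μ) ≤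
        (⨆ r : ℝ, Module.End.eigenspace (casK c L) (r : ℂ)).comap (B1d_W c act v).subtype := by
      refine iSup_le fun z => ?_
      intro w hw
      rw [Submodule.mem_comap]
      obtain ⟨k, hk⟩ := (Module.End.mem_maxGenEigenspace _ _ _).1 hw
      have h1 : ((casK c L - z • (1 : Module.End ℂ V)) ^ k) (w : V) = 0 := by
        rw [← hpow, hk]; rfl
      obtain ⟨h2, h3⟩ := B1d_gen hT hs z k (w : V) h1
      by_cases hw0 : (w : V) = 0
      · show (w : V) ∈ _
        rw [hw0]; exact Submodule.zero_mem _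
      · obtain ⟨r, _, rfl⟩ := h3 hw0
        exact Submodule.mem_iSup_of_mem r (Module.End.mem_eigenspace_iff.2 h2)
    rw [htop] at hle
    exact hle (Submodule.mem_top (x := (⟨v, B1d_self hc hK v⟩ : B1d_W c act v)))
  · intro r v hv h0
    obtain ⟨r', hr', he⟩ := B1d_eig hT hs hv h0
    have : r = r' := by exact_mod_cast he
    rw [this]; exact hr'

end Pool.Agent.RG
end

section

/-! B1: `K`-invariant inner products of matrix coefficients -/
end

section

/-!
# B3a: equicontinuity of the matrix coefficients of `Vle R`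
-/

namespace Pool.Agent.RG

open MeasureTheory Topology Filter Set
open scoped InnerProductSpace ComplexConjugate

universe u v

variable {G : Type u} [Group G] [TopologicalSpace G] [IsTopologicalGroup G] [T2Space G] {d : ℕ}
  {c : Core G d} {V : Type v} [AddCommGroup V] [Module ℂ V] {L : Ed d →ₗ[ℝ] (V →ₗ[ℂ] V)}
  {act : G → V →ₗ[ℂ] V}

/-- The space of functions on `K` spanned by the matrix coefficients of `Vle R`. -/
noncomputable def MR (hc : IsCore c) (hK : IsKm c L act) (R : ℝ) :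
    Submodule ℂ C(Kgrp hc, ℂ) :=
  Submodule.span ℂ {f | ∃ (l : V →ₗ[ℂ] ℂ) (v : V), v ∈ Vle (casK c L) R ∧
    ∀ k : Kgrp hc, f k = l (act (k : G) v)}

/-- PROOF. Induction on the span. -/
theorem mem_MR (hc : IsCore c) (hK : IsKm c L act) (R : ℝ) {f : C(Kgrp hc, ℂ)}
    (hf : f ∈ MR hc hK R) : ∃ (m : ℕ) (l : Fin m → V →ₗ[ℂ] ℂ) (v : Fin m → V),
      (∀ j, v j ∈ Vle (casK c L) R) ∧ ∀ k : Kgrp hc, f k = ∑ j, l j (act (k : G) (v j)) := by
  induction hf using Submodule.span_induction with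
  | mem x hx =>
    obtain ⟨l, v, hv, h⟩ := hx
    exact ⟨1, fun _ => l, fun _ => v, fun _ => hv, fun k => by simp [h k]⟩
  | zero => exact ⟨0, Fin.elim0, Fin.elim0, fun j => j.elim0, fun k => by simp⟩
  | add x y _ _ hx hy =>
    obtain ⟨m, l, v, hv, h⟩ := hx
    obtain ⟨m', l', v', hv', h'⟩ := hy
    refine ⟨m + m', Fin.append l l', Fin.append v v', ?_, ?_⟩
    · intro j
      refine Fin.addCases (fun i => ?_) (fun i => ?_) j
      · rw [Fin.append_left]; exact hv i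
      · rw [Fin.append_right]; exact hv' i
    · intro k
      rw [Fin.sum_univ_add]
      simp only [Fin.append_left, Fin.append_right]
      rw [← h k, ← h' k]; rfl
  | smul a x _ hx =>
    obtain ⟨m, l, v, hv, h⟩ := hx
    refine ⟨m, fun j => a • l j, v, hv, fun k => ?_⟩
    simp only [LinearMap.smul_apply, ← Finset.smul_sum]
    rw [← h k]; rfl

/-- the diagonal action on `Fin m → V` -/
private noncomputable def B3a_L (L : Ed d →ₗ[ℝ] (V →ₗ[ℂ] V)) (m : ℕ) :
    Ed d →ₗ[ℝ] ((Fin m → V) →ₗ[ℂ] (Fin m → V)) where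
  toFun Y := LinearMap.pi fun j => (L Y).comp (LinearMap.proj j)
  map_add' X Y := by ext; simp
  map_smul' a X := by ext; simp

private theorem B3a_L_apply (m : ℕ) (Y : Ed d) (w : Fin m → V) (j : Fin m) :
    B3a_L L m Y w j = L Y (w j) := rfl

private theorem B3a_casK (m : ℕ) (w : Fin m → V) (j : Fin m) :
    casK c (B3a_L L m) w j = casK c L (w j) := by
  simp [casK, B3a_L_apply, LinearMap.sum_apply, Finset.sum_apply]

/-- sums of matrix coefficients as a linear map to the continuous functions -/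
private noncomputable def B3a_coef (hc : IsCore c) (hK : IsKm c L act) (m : ℕ)
    (l : Fin m → V →ₗ[ℂ] ℂ) : (Fin m → V) →ₗ[ℂ] C(Kgrp hc, ℂ) where
  toFun w := ⟨fun k => ∑ j, l j (act (k : G) (w j)),
    continuous_finsetSum _ fun j _ => coefK_cont hc hK (l j) (w j)⟩
  map_add' u v := by ext k; simp [Finset.sum_add_distrib]
  map_smul' a v := by ext k; simp [Finset.mul_sum]

private theorem B3a_norm (hc : IsCore c) [CompactSpace (Kgrp hc)] [MeasurableSpace (Kgrp hc)]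
    [BorelSpace (Kgrp hc)] (μ : Measure (Kgrp hc)) [IsFiniteMeasure μ] (f : C(Kgrp hc, ℂ)) :
    ‖ContinuousMap.toLp (E := ℂ) 2 μ ℂ f‖ ^ 2 = ∫ k : Kgrp hc, ‖f k‖ ^ 2 ∂μ := by
  have h1 := ContinuousMap.inner_toLp μ f f
  have h2 : (⟪ContinuousMap.toLp (E := ℂ) 2 μ ℂ f, ContinuousMap.toLp (E := ℂ) 2 μ ℂ f⟫_ℂ) =
      ((‖ContinuousMap.toLp (E := ℂ) 2 μ ℂ f‖ ^ 2 : ℝ) : ℂ) := by
    rw [inner_self_eq_norm_sq_to_K]; push_cast; rfl
  rw [h2] at h1
  have h3 : (∫ x : Kgrp hc, f x * conj (f x) ∂μ) = ((∫ k : Kgrp hc, ‖f k‖ ^ 2 ∂μ : ℝ) : ℂ) := by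
    rw [← integral_complex_ofReal]
    refine integral_congr_ae (Filter.Eventually.of_forall fun x => ?_)
    simp only [RCLike.mul_conj]
    push_cast; rfl
  rw [h3] at h1
  exact_mod_cast h1

/-- Energy bound for sums of matrix coefficients.
PROOF. Consider the module `V' = Fin m → V` with `L' Y w = fun j => L Y (w j)`, and `T : V' → L²(K, μ)`, `T w = ` class of `k ↦ Σ_j l_j (act k (w_j))`. By `coefK_skew` (for all pairs `l_i, l_j`, `Y = eb i`), `Ksk c L' T`. `casK c L' w = fun j => casK c L (w j)`. By `Ksk.energy`, `Σ_{i ∈ kI} ‖T X_i v‖² = ⟪T casK v, T v⟫`, and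
`v ∈ Vle (casK c L') R` (each `Pi.single j (v j)` is), so `‖T casK v‖ ≤ R² ‖T v‖` by `Ksk.casK_le` (eigenvalues of `casK c L'` are eigenvalues of `casK c L`: `casK_diag`). So for each `i`, `‖T X_i v‖² ≤ R² ‖T v‖²`; write the `L²` norms as integrals. -/
theorem MR_energy (hc : IsCore c) (hK : IsKm c L act) [MeasurableSpace (Kgrp hc)]
    [BorelSpace (Kgrp hc)] (μ : Measure (Kgrp hc)) [IsFiniteMeasure μ] [μ.IsMulRightInvariant]
    (R : ℝ) (m : ℕ) (l : Fin m → V →ₗ[ℂ] ℂ) (v : Fin m → V)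
    (hv : ∀ j, v j ∈ Vle (casK c L) R) (i : Fin d) (hi : i ∈ c.kI) :
    ∫ k : Kgrp hc, ‖∑ j, l j (act (k : G) (L (eb i) (v j)))‖ ^ 2 ∂μ ≤
      R ^ 2 * ∫ k : Kgrp hc, ‖∑ j, l j (act (k : G) (v j))‖ ^ 2 ∂μ := by
  haveI : CompactSpace (Kgrp hc) := Kgrp_compact hc
  set T : (Fin m → V) →ₗ[ℂ] Lp ℂ 2 μ :=
    (ContinuousMap.toLp (E := ℂ) 2 μ ℂ).toLinearMap.comp (B3a_coef hc hK m l) with hT
  have hTa : ∀ w, T w = ContinuousMap.toLp (E := ℂ) 2 μ ℂ (B3a_coef hc hK m l w) := fun _ => rfl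
  have hca : ∀ w (k : Kgrp hc), B3a_coef hc hK m l w k = ∑ j, l j (act (k : G) (w j)) :=
    fun _ _ => rfl
  have hsk : Ksk c (B3a_L L m) T := by
    intro i hi u v
    have hY : ∀ j ∉ c.kI, (eb i : Ed d) j = 0 := by
      intro j hj
      have : j ≠ i := fun h => hj (h ▸ hi)
      simp [eb, this]
    rw [hTa, hTa, hTa, hTa, ContinuousMap.inner_toLp, ContinuousMap.inner_toLp]
    have e1 : ∀ a b : Fin m → V, (∫ k : Kgrp hc, (B3a_coef hc hK m l a) k *
        conj ((B3a_coef hc hK m l b) k) ∂μ) = ∑ p, ∑ q, ∫ k : Kgrp hc, l p (act (k : G) (a p)) *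
        conj (l q (act (k : G) (b q))) ∂μ := by
      intro a b
      have hint : ∀ p q, Integrable (fun k : Kgrp hc => l p (act (k : G) (a p)) *
          conj (l q (act (k : G) (b q)))) μ := by
        intro p q
        have hcont : Continuous fun k : Kgrp hc => l p (act (k : G) (a p)) *
          conj (l q (act (k : G) (b q))) :=
          (coefK_cont hc hK (l p) (a p)).mul
            (Complex.continuous_conj.comp (coefK_cont hc hK (l q) (b q)))
        exact hcont.integrable_of_hasCompactSupport (HasCompactSupport.of_compactSpace _)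
      calc (∫ k : Kgrp hc, (B3a_coef hc hK m l a) k * conj ((B3a_coef hc hK m l b) k) ∂μ)
          = ∫ k : Kgrp hc, ∑ p, ∑ q, l p (act (k : G) (a p)) * conj (l q (act (k : G) (b q))) ∂μ := by
            refine integral_congr_ae (Filter.Eventually.of_forall fun k => ?_)
            simp only [hca, map_sum, Finset.sum_mul_sum]
        _ = ∑ p, ∫ k : Kgrp hc, ∑ q, l p (act (k : G) (a p)) * conj (l q (act (k : G) (b q))) ∂μ :=
            integral_finsetSum _ (fun p _ => integrable_finsetSum _ fun q _ => hint p q)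
        _ = _ := by
            refine Finset.sum_congr rfl fun p _ => ?_
            exact integral_finsetSum _ (fun q _ => hint p q)
    rw [e1, e1, ← Finset.sum_add_distrib]
    refine Finset.sum_eq_zero fun p _ => ?_
    rw [← Finset.sum_add_distrib]
    refine Finset.sum_eq_zero fun q _ => ?_
    have := coefK_skew hc hK μ (eb i) hY (l p) (l q) (v p) (u q)
    rw [add_comm] at this
    exact this
  have hdiag := casK_diag hc hK
  have hn : ∀ (r : ℝ) (w : Fin m → V), casK c (B3a_L L m) w = (r : ℂ) • w → w ≠ 0 → 0 ≤ r := by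
    intro r w hw hw0
    obtain ⟨j, hj⟩ := Function.ne_iff.1 hw0
    refine hdiag.2 r (w j) ?_ hj
    rw [← B3a_casK, hw]; rfl
  have hsingle : ∀ (j : Fin m) (x : V), x ∈ Vle (casK c L) R →
      (Pi.single j x : Fin m → V) ∈ Vle (casK c (B3a_L L m)) R := by
    intro j x hx
    obtain ⟨f, hf, hfR, hxf⟩ := exists_eig_le hx
    have e : (Pi.single j x : Fin m → V) = f.sum fun _ y => (Pi.single j y : Fin m → V) := by
      rw [hxf, Finsupp.sum, Finsupp.sum]
      exact map_sum (LinearMap.single ℂ (fun _ : Fin m => V) j) (fun r => f r) f.support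
    rw [e, Finsupp.sum]
    refine Submodule.sum_mem _ fun r hr => ?_
    refine Submodule.mem_iSup_of_mem r (Submodule.mem_iSup_of_mem (hfR r hr) ?_)
    rw [Module.End.mem_eigenspace_iff]
    ext q
    rw [B3a_casK, Pi.smul_apply]
    by_cases hq : q = j
    · subst hq; simp [hf r]
    · simp [hq]
  have hvle : v ∈ Vle (casK c (B3a_L L m)) R := by
    have e : v = ∑ j, (Pi.single j (v j) : Fin m → V) := by
      ext q; simp [Finset.sum_apply, Pi.single_apply]
    rw [e]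
    exact Submodule.sum_mem _ fun j _ => hsingle j (v j) (hv j)
  have h1 := hsk.casK_le hn hvle
  have h2 := hsk.energy v
  have h3 : (∑ i ∈ c.kI, ‖T (B3a_L L m (eb i) v)‖ ^ 2 : ℝ) ≤ R ^ 2 * ‖T v‖ ^ 2 := by
    have h4 : (∑ i ∈ c.kI, ‖T (B3a_L L m (eb i) v)‖ ^ 2 : ℝ) ≤
        ‖T (casK c (B3a_L L m) v)‖ * ‖T v‖ := by
      have h5 := norm_inner_le_norm (𝕜 := ℂ) (T (casK c (B3a_L L m) v)) (T v)
      rw [h2, Complex.norm_real] at h5
      exact (le_abs_self _).trans h5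
    calc _ ≤ ‖T (casK c (B3a_L L m) v)‖ * ‖T v‖ := h4
      _ ≤ (R ^ 2 * ‖T v‖) * ‖T v‖ := by gcongr
      _ = R ^ 2 * ‖T v‖ ^ 2 := by ring
  have h6 : ‖T (B3a_L L m (eb i) v)‖ ^ 2 ≤ R ^ 2 * ‖T v‖ ^ 2 :=
    (Finset.single_le_sum (f := fun i => ‖T (B3a_L L m (eb i) v)‖ ^ 2)
      (fun _ _ => by positivity) hi).trans h3
  rw [hTa, hTa, B3a_norm, B3a_norm] at h6
  exact h6

end Pool.Agent.RG
end

section

/-!
# B3b: equicontinuity of the matrix coefficients of `Vle R`
-/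

namespace Pool.Agent.RG

open MeasureTheory Topology Filter Set
open scoped InnerProductSpace ComplexConjugate

universe u v

variable {G : Type u} [Group G] [TopologicalSpace G] [IsTopologicalGroup G] [T2Space G] {d : ℕ}
  {c : Core G d} {V : Type v} [AddCommGroup V] [Module ℂ V] {L : Ed d →ₗ[ℝ] (V →ₗ[ℂ] V)}
  {act : G → V →ₗ[ℂ] V}

private theorem B3b_cs {g : ℝ → ℂ} (hg : Continuous g) :
    ‖∫ t in (0:ℝ)..1, g t‖ ^ 2 ≤ ∫ t in (0:ℝ)..1, ‖g t‖ ^ 2 := by
  have h1 : ‖∫ t in (0:ℝ)..1, g t‖ ≤ ∫ t in (0:ℝ)..1, ‖g t‖ :=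
    intervalIntegral.norm_integral_le_integral_norm zero_le_one
  obtain ⟨a, ha⟩ : ∃ a, a = ∫ t in (0:ℝ)..1, ‖g t‖ := ⟨_, rfl⟩
  rw [← ha] at h1
  have h2 : 0 ≤ ∫ t in (0:ℝ)..1, (‖g t‖ - a) ^ 2 :=
    intervalIntegral.integral_nonneg zero_le_one (fun t _ => sq_nonneg _)
  have i1 : IntervalIntegrable (fun t => ‖g t‖ ^ 2) volume 0 1 :=
    (hg.norm.pow 2).intervalIntegrable _ _
  have i2 : IntervalIntegrable (fun t => (2 * a) * ‖g t‖) volume 0 1 :=
    (continuous_const.mul hg.norm).intervalIntegrable _ _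
  have i3 : IntervalIntegrable (fun _ : ℝ => a ^ 2) volume 0 1 :=
    continuous_const.intervalIntegrable _ _
  have h3 : ∫ t in (0:ℝ)..1, (‖g t‖ - a) ^ 2 = (∫ t in (0:ℝ)..1, ‖g t‖ ^ 2) - a ^ 2 := by
    have h4 : (fun t => (‖g t‖ - a) ^ 2) = fun t => (‖g t‖ ^ 2 - (2 * a) * ‖g t‖) + a ^ 2 := by
      funext t; ring
    rw [h4, intervalIntegral.integral_add (i1.sub i2) i3, intervalIntegral.integral_sub i1 i2,
      intervalIntegral.integral_const_mul, ← ha, intervalIntegral.integral_const]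
    simp only [sub_zero, one_smul]
    ring
  have h5 : ‖∫ t in (0:ℝ)..1, g t‖ ^ 2 ≤ a ^ 2 := pow_le_pow_left₀ (norm_nonneg _) h1 2
  linarith

private theorem B3b_der (hc : IsCore c) (hK : IsKm c L act) {Y : Ed d}
    (hY : ∀ i ∉ c.kI, Y i = 0) {k : G} (hk : k ∈ c.K) (l : V →ₗ[ℂ] ℂ) (v : V) (t₀ : ℝ) :
    HasDerivAt (fun t : ℝ => l (act (k * c.ex (t • Y)) v))
      (l (act (k * c.ex (t₀ • Y)) (L Y v))) t₀ := by
  have hex : ∀ t : ℝ, c.ex (t • Y) ∈ c.K := fun t =>
    hc.K_ex' (t • Y) (fun i hi => by simp [hY i hi])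
  have hkk : k * c.ex (t₀ • Y) ∈ c.K := hc.K_mul _ hk _ (hex t₀)
  have h1 := hK.diff Y hY v (l.comp (act (k * c.ex (t₀ • Y))))
  have h2 : HasDerivAt
      (fun t : ℝ => (l.comp (act (k * c.ex (t₀ • Y)))) (act (c.ex ((t - t₀) • Y)) v))
      ((l.comp (act (k * c.ex (t₀ • Y)))) (L Y v)) t₀ := by
    have h3 : HasDerivAt
        (fun s : ℝ => (l.comp (act (k * c.ex (t₀ • Y)))) (act (c.ex (s • Y)) v))
        ((l.comp (act (k * c.ex (t₀ • Y)))) (L Y v)) (t₀ - t₀) := by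
      rw [sub_self]; exact h1
    exact h3.comp_sub_const t₀ t₀
  have h4 : (fun t : ℝ => l (act (k * c.ex (t • Y)) v)) =
      fun t : ℝ => (l.comp (act (k * c.ex (t₀ • Y)))) (act (c.ex ((t - t₀) • Y)) v) := by
    funext t
    have h5 : c.ex (t • Y) = c.ex (t₀ • Y) * c.ex ((t - t₀) • Y) := by
      rw [← hc.ex_add]
      congr 2
      ring
    rw [h5, ← mul_assoc, hK.act_mul _ hkk _ (hex _)]
    rfl
  rw [h4]
  exact h2

private theorem B3b_lin (Y : Ed d) (hY : ∀ i ∉ c.kI, Y i = 0) (v : V) :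
    L Y v = ∑ i ∈ c.kI, ((Y i : ℝ) : ℂ) • L (eb i) v := by
  have h1 : Y = ∑ i, Y i • (eb i : Ed d) := by
    ext j
    simp [eb, Pi.single_apply]
  have h2 : ∑ i, Y i • (eb i : Ed d) = ∑ i ∈ c.kI, Y i • (eb i : Ed d) := by
    symm
    apply Finset.sum_subset (Finset.subset_univ _)
    intro i _ hi
    rw [hY i hi, zero_smul]
  have h3 : L Y = ∑ i ∈ c.kI, Y i • L (eb i) := by
    conv_lhs => rw [h1, h2]
    rw [map_sum]
    refine Finset.sum_congr rfl fun i _ => ?_
    rw [map_smul]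
  rw [h3, LinearMap.sum_apply]
  refine Finset.sum_congr rfl fun i _ => ?_
  rfl

private theorem B3b_main (hc : IsCore c) (hK : IsKm c L act) [MeasurableSpace (Kgrp hc)]
    [BorelSpace (Kgrp hc)] (μ : Measure (Kgrp hc)) [IsFiniteMeasure μ] [μ.IsMulRightInvariant]
    (Y : Ed d) (hY : ∀ i ∉ c.kI, Y i = 0) (m : ℕ) (l : Fin m → V →ₗ[ℂ] ℂ) (v : Fin m → V)
    (x : Kgrp hc) (hx : c.ex Y = (x : G)) :
    ∫ k : Kgrp hc, ‖(∑ j, l j (act ((k * x : Kgrp hc) : G) (v j))) -
        ∑ j, l j (act (k : G) (v j))‖ ^ 2 ∂μ ≤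
      ∫ k : Kgrp hc, ‖∑ j, l j (act (k : G) (L Y (v j)))‖ ^ 2 ∂μ := by
  have : CompactSpace (Kgrp hc) := Kgrp_compact hc
  have hex : ∀ t : ℝ, c.ex (t • Y) ∈ Kgrp hc := fun t =>
    hc.K_ex' (t • Y) (fun i hi => by simp [hY i hi])
  obtain ⟨E, hE⟩ : ∃ E : ℝ → Kgrp hc, ∀ t, (E t : G) = c.ex (t • Y) :=
    ⟨fun t => ⟨c.ex (t • Y), hex t⟩, fun t => rfl⟩
  have hEc : Continuous E := by
    have h1 : E = fun t : ℝ => (⟨c.ex (t • Y), hex t⟩ : Kgrp hc) := by
      funext t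
      exact Subtype.ext (hE t)
    rw [h1]
    exact (hc.ex_cont.comp (continuous_id.smul continuous_const)).subtype_mk _
  obtain ⟨p, hp⟩ : ∃ p : Kgrp hc → ℂ, ∀ k, p k = ∑ j, l j (act (k : G) (L Y (v j))) :=
    ⟨_, fun k => rfl⟩
  obtain ⟨f, hf⟩ : ∃ f : Kgrp hc → ℂ, ∀ k, f k = ∑ j, l j (act (k : G) (v j)) :=
    ⟨_, fun k => rfl⟩
  have hpc : Continuous p := by
    have h1 : p = fun k : Kgrp hc => ∑ j, l j (act (k : G) (L Y (v j))) := funext hp
    rw [h1]
    exact continuous_finsetSum _ fun j _ => coefK_cont hc hK (l j) (L Y (v j))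
  have hder : ∀ (k : Kgrp hc) (t : ℝ), HasDerivAt (fun s : ℝ => f (k * E s)) (p (k * E t)) t := by
    intro k t
    have h1 : HasDerivAt (fun s : ℝ => ∑ j, l j (act ((k : G) * c.ex (s • Y)) (v j)))
        (∑ j, l j (act ((k : G) * c.ex (t • Y)) (L Y (v j)))) t :=
      HasDerivAt.fun_sum fun j _ => B3b_der hc hK hY k.2 (l j) (v j) t
    have h2 : (fun s : ℝ => f (k * E s)) =
        fun s : ℝ => ∑ j, l j (act ((k : G) * c.ex (s • Y)) (v j)) := by
      funext s
      rw [hf]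
      simp only [Subgroup.coe_mul, hE]
    have h3 : p (k * E t) = ∑ j, l j (act ((k : G) * c.ex (t • Y)) (L Y (v j))) := by
      rw [hp]
      simp only [Subgroup.coe_mul, hE]
    rw [h2, h3]
    exact h1
  have hE1 : E 1 = x := by
    apply Subtype.ext
    rw [hE, one_smul, hx]
  have hE0 : E 0 = 1 := by
    apply Subtype.ext
    rw [hE]
    have h1 := hc.ex_add Y 0 0
    rw [add_zero] at h1
    have h2 : c.ex ((0:ℝ) • Y) = 1 := by
      have h3 : c.ex ((0:ℝ) • Y) * 1 = c.ex ((0:ℝ) • Y) * c.ex ((0:ℝ) • Y) := by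
        rw [mul_one]; exact h1
      exact (mul_left_cancel h3).symm
    rw [h2]
    rfl
  have hftc : ∀ k : Kgrp hc, f (k * x) - f k = ∫ t in (0:ℝ)..1, p (k * E t) := by
    intro k
    have hcont : Continuous fun t : ℝ => p (k * E t) := hpc.comp (continuous_const.mul hEc)
    rw [intervalIntegral.integral_eq_sub_of_hasDerivAt (fun t _ => hder k t)
      (hcont.intervalIntegrable _ _), hE1, hE0, mul_one]
  have hjoint : Continuous fun z : ℝ × Kgrp hc => ‖p (z.2 * E z.1)‖ ^ 2 :=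
    ((hpc.comp (continuous_snd.mul (hEc.comp continuous_fst))).norm).pow 2
  obtain ⟨B, hB⟩ : ∃ B : ℝ, ∀ k, ‖p k‖ ≤ B := by
    obtain ⟨B, hB⟩ := (isCompact_range hpc).isBounded.exists_norm_le
    exact ⟨B, fun k => hB _ (Set.mem_range_self k)⟩
  have hint : Integrable (Function.uncurry fun (t : ℝ) (k : Kgrp hc) => ‖p (k * E t)‖ ^ 2)
      ((volume.restrict (Set.uIoc (0:ℝ) 1)).prod μ) := by
    have hfm : IsFiniteMeasure (volume.restrict (Set.uIoc (0:ℝ) 1)) := by
      rw [Set.uIoc_of_le (zero_le_one' ℝ)]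
      infer_instance
    refine Integrable.of_bound hjoint.aestronglyMeasurable (B ^ 2) ?_
    refine Filter.Eventually.of_forall fun z => ?_
    show ‖‖p (z.2 * E z.1)‖ ^ 2‖ ≤ B ^ 2
    rw [Real.norm_of_nonneg (by positivity)]
    exact pow_le_pow_left₀ (norm_nonneg _) (hB _) 2
  have hswap := intervalIntegral_integral_swap hint
  have hinv : ∀ t : ℝ, ∫ k, ‖p (k * E t)‖ ^ 2 ∂μ = ∫ k, ‖p k‖ ^ 2 ∂μ := fun t =>
    integral_mul_right_eq_self (fun k => ‖p k‖ ^ 2) (E t)
  have hinner : Continuous fun k : Kgrp hc => ∫ t in (0:ℝ)..1, ‖p (k * E t)‖ ^ 2 := by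
    apply intervalIntegral.continuous_parametric_intervalIntegral_of_continuous'
    exact ((hpc.comp (continuous_fst.mul (hEc.comp continuous_snd))).norm).pow 2
  have hfc : Continuous f := by
    have h1 : f = fun k : Kgrp hc => ∑ j, l j (act (k : G) (v j)) := funext hf
    rw [h1]
    exact continuous_finsetSum _ fun j _ => coefK_cont hc hK (l j) (v j)
  have hcompint : ∀ q : Kgrp hc → ℝ, Continuous q → Integrable q μ := by
    intro q hq
    obtain ⟨C, hC⟩ := (isCompact_range hq).isBounded.exists_norm_le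
    exact Integrable.of_bound hq.aestronglyMeasurable C
      (Filter.Eventually.of_forall fun k => hC _ (Set.mem_range_self k))
  have hfinal : ∫ k, ‖f (k * x) - f k‖ ^ 2 ∂μ ≤ ∫ k, ‖p k‖ ^ 2 ∂μ := by
    calc ∫ k, ‖f (k * x) - f k‖ ^ 2 ∂μ
        ≤ ∫ k, (∫ t in (0:ℝ)..1, ‖p (k * E t)‖ ^ 2) ∂μ := by
          refine integral_mono (hcompint _ ?_) (hcompint _ hinner) ?_
          · exact (((hfc.comp (continuous_mul_const x)).sub hfc).norm).pow 2
          · intro k
            show ‖f (k * x) - f k‖ ^ 2 ≤ ∫ t in (0:ℝ)..1, ‖p (k * E t)‖ ^ 2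
            rw [hftc k]
            exact B3b_cs (hpc.comp (continuous_const.mul hEc))
      _ = ∫ t in (0:ℝ)..1, (∫ k, ‖p (k * E t)‖ ^ 2 ∂μ) := hswap.symm
      _ = ∫ t in (0:ℝ)..1, (∫ k, ‖p k‖ ^ 2 ∂μ) := by
          refine intervalIntegral.integral_congr fun t _ => ?_
          exact hinv t
      _ = ∫ k, ‖p k‖ ^ 2 ∂μ := by
          rw [intervalIntegral.integral_const]
          simp
  simp only [← hf, ← hp]
  exact hfinal

private theorem B3b_energy (hc : IsCore c) (hK : IsKm c L act) [MeasurableSpace (Kgrp hc)]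
    [BorelSpace (Kgrp hc)] (μ : Measure (Kgrp hc)) [IsFiniteMeasure μ] [μ.IsMulRightInvariant]
    (R : ℝ) (Y : Ed d) (hY : ∀ i ∉ c.kI, Y i = 0) (m : ℕ) (l : Fin m → V →ₗ[ℂ] ℂ)
    (v : Fin m → V) (hv : ∀ j, v j ∈ Vle (casK c L) R) (η : ℝ) (hη : ‖Y‖ < η) :
    ∫ k : Kgrp hc, ‖∑ j, l j (act (k : G) (L Y (v j)))‖ ^ 2 ∂μ ≤
      η ^ 2 * (d * R ^ 2) * ∫ k : Kgrp hc, ‖∑ j, l j (act (k : G) (v j))‖ ^ 2 ∂μ := by
  have : CompactSpace (Kgrp hc) := Kgrp_compact hc
  have hcompint : ∀ q : Kgrp hc → ℝ, Continuous q → Integrable q μ := by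
    intro q hq
    obtain ⟨C, hC⟩ := (isCompact_range hq).isBounded.exists_norm_le
    exact Integrable.of_bound hq.aestronglyMeasurable C
      (Filter.Eventually.of_forall fun k => hC _ (Set.mem_range_self k))
  obtain ⟨p, hp⟩ : ∃ p : Fin d → Kgrp hc → ℂ, ∀ i k, p i k =
      ∑ j, l j (act (k : G) (L (eb i) (v j))) := ⟨_, fun i k => rfl⟩
  have hpc : ∀ i, Continuous (p i) := by
    intro i
    have h1 : p i = fun k : Kgrp hc => ∑ j, l j (act (k : G) (L (eb i) (v j))) := funext (hp i)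
    rw [h1]
    exact continuous_finsetSum _ fun j _ => coefK_cont hc hK (l j) (L (eb i) (v j))
  have hcont0 : Continuous fun k : Kgrp hc => ∑ j, l j (act (k : G) (L Y (v j))) :=
    continuous_finsetSum _ fun j _ => coefK_cont hc hK (l j) (L Y (v j))
  have hsum : ∀ k : Kgrp hc, ∑ j, l j (act (k : G) (L Y (v j))) =
      ∑ i ∈ c.kI, ((Y i : ℝ) : ℂ) * p i k := by
    intro k
    have h1 : ∀ j, l j (act (k : G) (L Y (v j))) =
        ∑ i ∈ c.kI, ((Y i : ℝ) : ℂ) * l j (act (k : G) (L (eb i) (v j))) := by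
      intro j
      rw [B3b_lin Y hY (v j), map_sum, map_sum]
      refine Finset.sum_congr rfl fun i _ => ?_
      rw [map_smul, map_smul, smul_eq_mul]
    rw [Finset.sum_congr rfl fun j _ => h1 j, Finset.sum_comm]
    refine Finset.sum_congr rfl fun i _ => ?_
    rw [hp, Finset.mul_sum]
  have hYs : ∑ i ∈ c.kI, |Y i| ^ 2 ≤ ‖Y‖ ^ 2 := by
    rw [EuclideanSpace.norm_sq_eq]
    have h1 : ∑ i ∈ c.kI, |Y i| ^ 2 ≤ ∑ i, |Y i| ^ 2 :=
      Finset.sum_le_sum_of_subset_of_nonneg (Finset.subset_univ _) fun i _ _ => by positivity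
    simpa only [Real.norm_eq_abs] using h1
  have hη2 : ‖Y‖ ^ 2 ≤ η ^ 2 := pow_le_pow_left₀ (norm_nonneg _) hη.le 2
  have hpt : ∀ k : Kgrp hc, ‖∑ j, l j (act (k : G) (L Y (v j)))‖ ^ 2 ≤
      η ^ 2 * ∑ i ∈ c.kI, ‖p i k‖ ^ 2 := by
    intro k
    rw [hsum k]
    have h1 : ‖∑ i ∈ c.kI, ((Y i : ℝ) : ℂ) * p i k‖ ≤ ∑ i ∈ c.kI, |Y i| * ‖p i k‖ := by
      refine (norm_sum_le _ _).trans (le_of_eq (Finset.sum_congr rfl fun i _ => ?_))
      rw [norm_mul, Complex.norm_real, Real.norm_eq_abs]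
    have h2 : (∑ i ∈ c.kI, |Y i| * ‖p i k‖) ^ 2 ≤
        (∑ i ∈ c.kI, |Y i| ^ 2) * ∑ i ∈ c.kI, ‖p i k‖ ^ 2 := Finset.sum_mul_sq_le_sq_mul_sq _ _ _
    have h3 : 0 ≤ ∑ i ∈ c.kI, ‖p i k‖ ^ 2 := Finset.sum_nonneg fun i _ => by positivity
    calc ‖∑ i ∈ c.kI, ((Y i : ℝ) : ℂ) * p i k‖ ^ 2
        ≤ (∑ i ∈ c.kI, |Y i| * ‖p i k‖) ^ 2 := pow_le_pow_left₀ (norm_nonneg _) h1 2
      _ ≤ (∑ i ∈ c.kI, |Y i| ^ 2) * ∑ i ∈ c.kI, ‖p i k‖ ^ 2 := h2
      _ ≤ η ^ 2 * ∑ i ∈ c.kI, ‖p i k‖ ^ 2 :=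
          mul_le_mul_of_nonneg_right (hYs.trans hη2) h3
  have hI0 : 0 ≤ ∫ k : Kgrp hc, ‖∑ j, l j (act (k : G) (v j))‖ ^ 2 ∂μ :=
    integral_nonneg fun k => by positivity
  have hen : ∀ i ∈ c.kI, ∫ k : Kgrp hc, ‖p i k‖ ^ 2 ∂μ ≤
      R ^ 2 * ∫ k : Kgrp hc, ‖∑ j, l j (act (k : G) (v j))‖ ^ 2 ∂μ := by
    intro i hi
    have h1 := MR_energy hc hK μ R m l v hv i hi
    simpa only [← hp] using h1
  have hcard : ((c.kI.card : ℕ) : ℝ) ≤ d := by
    have h1 : c.kI.card ≤ d := by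
      have h2 := Finset.card_le_univ c.kI
      rwa [Fintype.card_fin] at h2
    exact_mod_cast h1
  calc ∫ k : Kgrp hc, ‖∑ j, l j (act (k : G) (L Y (v j)))‖ ^ 2 ∂μ
      ≤ ∫ k : Kgrp hc, η ^ 2 * ∑ i ∈ c.kI, ‖p i k‖ ^ 2 ∂μ := by
        refine integral_mono (hcompint _ (hcont0.norm.pow 2)) (hcompint _ ?_) hpt
        exact continuous_const.mul (continuous_finsetSum _ fun i _ => (hpc i).norm.pow 2)
    _ = η ^ 2 * ∑ i ∈ c.kI, ∫ k : Kgrp hc, ‖p i k‖ ^ 2 ∂μ := by
        have hii : ∀ i ∈ c.kI, Integrable (fun k : Kgrp hc => ‖p i k‖ ^ 2) μ := fun i _ =>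
          hcompint _ ((hpc i).norm.pow 2)
        rw [integral_const_mul, integral_finsetSum _ hii]
    _ ≤ η ^ 2 * ∑ _i ∈ c.kI, (R ^ 2 * ∫ k : Kgrp hc, ‖∑ j, l j (act (k : G) (v j))‖ ^ 2 ∂μ) :=
        mul_le_mul_of_nonneg_left (Finset.sum_le_sum hen) (sq_nonneg _)
    _ = η ^ 2 * (c.kI.card * (R ^ 2 * ∫ k : Kgrp hc, ‖∑ j, l j (act (k : G) (v j))‖ ^ 2 ∂μ)) := by
        rw [Finset.sum_const, nsmul_eq_mul]
    _ ≤ η ^ 2 * (d * (R ^ 2 * ∫ k : Kgrp hc, ‖∑ j, l j (act (k : G) (v j))‖ ^ 2 ∂μ)) :=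
        mul_le_mul_of_nonneg_left (mul_le_mul_of_nonneg_right hcard (by positivity)) (sq_nonneg _)
    _ = η ^ 2 * (d * R ^ 2) * ∫ k : Kgrp hc, ‖∑ j, l j (act (k : G) (v j))‖ ^ 2 ∂μ := by ring

/-- EQUICONTINUITY.
PROOF. Let `η > 0` be small: `η * d * |R| ≤ 1/2`. By `hc.K_open` for `U = ball 0 η` there is a neighborhood `W` of `1` with: every `x ∈ K ∩ W` is `ex Y` with `‖Y‖ < η`, `Y i = 0` for `i ∉ kI`. Let `f = Σ_j l_j (act k v_j)` (`mem_MR`). Then `f(k x) - f(k) = ∫_0^1 Σ_j l_j (act (k ex(sY)) (L Y v_j)) ds`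
(`t ↦ l (act (k * ex (tY)) v)` has derivative `l (act (k * ex(tY)) (L Y v))`: `hK.diff` for the functional `l ∘ act (k ex(tY))` and the group property; the derivative is continuous in `t`, `hK.cont`). By Minkowski / Cauchy-Schwarz and Fubini, `∫ ‖f(kx) - f(k)‖² dμ ≤ ∫_0^1 ∫ ‖Σ_j l_j (act (k ex(sY)) (L Y v_j))‖² dμ ds = ∫ ‖Σ_j l_j (act k (L Y v_j))‖² dμ`
(right invariance), and `L Y v = Σ_{i ∈ kI} Y_i X_i v`, so by `MR_energy` and Cauchy-Schwarz this is `≤ (Σ |Y_i|)² R² ‖f‖² ≤ d² η² R² ‖f‖² ≤ (1/4) ‖f‖²`. [To avoid Fubini on `K × [0,1]`: `g(t) = ∫ ‖f(k ex(tY)) - f(k)‖²`; or use the mean value inequality for the `L²(K)`-valued curve `t ↦ T(act (ex(tY)) v)`.] -/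
theorem MR_equi (hc : IsCore c) (hK : IsKm c L act) [MeasurableSpace (Kgrp hc)]
    [BorelSpace (Kgrp hc)] (μ : Measure (Kgrp hc)) [IsFiniteMeasure μ] [μ.IsMulRightInvariant]
    (R : ℝ) : ∃ U ∈ 𝓝 (1 : Kgrp hc), ∀ x ∈ U, ∀ f ∈ MR hc hK R,
      ∫ k, ‖f (k * x) - f k‖ ^ 2 ∂μ ≤ 1 / 4 * ∫ k, ‖f k‖ ^ 2 ∂μ := by
  obtain ⟨η, hη⟩ : ∃ η : ℝ, η = 1 / (2 * ((d : ℝ) + 1) * (|R| + 1)) := ⟨_, rfl⟩
  have hd0 : (0 : ℝ) ≤ d := Nat.cast_nonneg _
  have hR0 : 0 ≤ |R| := abs_nonneg R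
  have hη0 : 0 < η := by rw [hη]; positivity
  have hη4 : η ^ 2 * (d * R ^ 2) ≤ 1 / 4 := by
    have h1 : η * ((d : ℝ) + 1) * (|R| + 1) = 1 / 2 := by
      rw [hη]
      field_simp
    have h2 : η ^ 2 * (d * R ^ 2) ≤ (η * ((d : ℝ) + 1) * (|R| + 1)) ^ 2 := by
      have h3 : (d : ℝ) ≤ ((d : ℝ) + 1) ^ 2 := by nlinarith
      have h4 : R ^ 2 ≤ (|R| + 1) ^ 2 := by
        rw [← sq_abs R]
        nlinarith
      have h5 : (d : ℝ) * R ^ 2 ≤ ((d : ℝ) + 1) ^ 2 * (|R| + 1) ^ 2 :=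
        mul_le_mul h3 h4 (sq_nonneg _) (by positivity)
      calc η ^ 2 * (d * R ^ 2) ≤ η ^ 2 * (((d : ℝ) + 1) ^ 2 * (|R| + 1) ^ 2) :=
            mul_le_mul_of_nonneg_left h5 (sq_nonneg _)
        _ = (η * ((d : ℝ) + 1) * (|R| + 1)) ^ 2 := by ring
    rw [h1] at h2
    linarith
  obtain ⟨W, hW, hWK⟩ := hc.K_open (Metric.ball 0 η) (Metric.ball_mem_nhds _ hη0)
  refine ⟨Subtype.val ⁻¹' W, ?_, ?_⟩
  · apply continuous_subtype_val.continuousAt.preimage_mem_nhds
    exact hW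
  · intro x hx f hf
    obtain ⟨Y, hYb, hY, hex⟩ := hWK x x.2 hx
    have hYn : ‖Y‖ < η := by simpa using hYb
    obtain ⟨m, l, v, hv, hfk⟩ := mem_MR hc hK R hf
    have h1 := B3b_main hc hK μ Y hY m l v x hex
    have h2 := B3b_energy hc hK μ R Y hY m l v hv η hYn
    simp only [← hfk] at h1 h2
    have hI0 : 0 ≤ ∫ k : Kgrp hc, ‖f k‖ ^ 2 ∂μ := integral_nonneg fun k => by positivity
    calc ∫ k, ‖f (k * x) - f k‖ ^ 2 ∂μ ≤ _ := h1
      _ ≤ _ := h2
      _ ≤ 1 / 4 * ∫ k, ‖f k‖ ^ 2 ∂μ := mul_le_mul_of_nonneg_right hη4 hI0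

end Pool.Agent.RG
end

section

/-! B3: equicontinuity of the matrix coefficients of `Vle R` -/
end

section

/-!
# B4a: admissibility implies that `Vle R` is finite dimensional
-/

namespace Pool.Agent.RG

open MeasureTheory Topology Filter Set Matrix

universe u v

variable {G : Type u} [Group G] [TopologicalSpace G] [IsTopologicalGroup G] [T2Space G] {d : ℕ}
  {c : Core G d} {V : Type v} [AddCommGroup V] [Module ℂ V] {L : Ed d →ₗ[ℝ] (V →ₗ[ℂ] V)}
  {act : G → V →ₗ[ℂ] V}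

/-- PROOF. By `hc.K_open` (with `U` a closed ball of radius smaller than the `r` of `hc.inj`) a neighborhood `W'` of `1` in `K` is contained in the image of the compact set `D = {Y | ‖Y‖ ≤ r/2, Y i = 0 for i ∉ kI}` under the continuous map `ex`, which is injective on `D`, so a homeomorphism of `D` to its image
(compact to Hausdorff). So an open neighborhood of `1` in `K` is homeomorphic to a subset of `Ed d`, hence second countable, and so are its translates; finitely many translates cover the compact group `K`. `TopologicalSpace.secondCountableTopology_of_countable_cover`. -/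
theorem Kgrp_sc (hc : IsCore c) : SecondCountableTopology (Kgrp hc) := by
  haveI := Kgrp_compact hc
  obtain ⟨r, hr, hinj⟩ := hc.inj
  obtain ⟨W, hW, hWK⟩ := hc.K_open (Metric.closedBall (0 : Ed d) (r / 2))
    (Metric.closedBall_mem_nhds _ (by positivity))
  obtain ⟨W', hW'W, hW'o, h1W'⟩ := mem_nhds_iff.1 hW
  -- the exponential map on a closed ball
  let f : Metric.closedBall (0 : Ed d) (r / 2) → G := fun Y => c.ex Y
  haveI : CompactSpace (Metric.closedBall (0 : Ed d) (r / 2)) :=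
    isCompact_iff_compactSpace.1 (isCompact_closedBall _ _)
  have hsub : Metric.closedBall (0 : Ed d) (r / 2) ⊆ Metric.ball 0 r :=
    Metric.closedBall_subset_ball (by linarith)
  have hfc : Continuous f := hc.ex_cont.comp continuous_subtype_val
  have hfi : Function.Injective f := by
    intro a b hab
    exact Subtype.ext (hinj (hsub a.2) (hsub b.2) hab)
  have hfe : IsEmbedding f := (hfc.isClosedEmbedding hfi).isEmbedding
  -- the neighborhood of one
  let N : Set (Kgrp hc) := {k | (k : G) ∈ W'}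
  have hNo : IsOpen N := hW'o.preimage continuous_subtype_val
  have h1N : (1 : Kgrp hc) ∈ N := h1W'
  have hN : ∀ k : N, ((k : Kgrp hc) : G) ∈ Set.range f := by
    intro k
    obtain ⟨Y, hY, -, hYk⟩ := hWK _ (k : Kgrp hc).2 (hW'W k.2)
    exact ⟨⟨Y, hY⟩, hYk⟩
  haveI hNsc : SecondCountableTopology N := by
    have h1 : IsEmbedding fun k : N => ((k : Kgrp hc) : G) :=
      IsEmbedding.subtypeVal.comp IsEmbedding.subtypeVal
    have h2 : IsEmbedding fun k : N => (⟨((k : Kgrp hc) : G), hN k⟩ : Set.range f) :=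
      h1.codRestrict _ hN
    have h3 := hfe.toHomeomorph.symm.isEmbedding.comp h2
    exact h3.secondCountableTopology
  let U : Kgrp hc → Set (Kgrp hc) := fun g => {k | g⁻¹ * k ∈ N}
  have hUo : ∀ g, IsOpen (U g) := fun g => hNo.preimage (continuous_const_mul g⁻¹)
  have hUn : ∀ g, U g ∈ 𝓝 g := by
    intro g
    refine (hUo g).mem_nhds ?_
    change g⁻¹ * g ∈ N
    rw [inv_mul_cancel]
    exact h1N
  have hUsc : ∀ g, SecondCountableTopology (U g) := by
    intro g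
    have h1 : IsEmbedding fun k : U g => g⁻¹ * (k : Kgrp hc) :=
      (Homeomorph.mulLeft g⁻¹).isEmbedding.comp IsEmbedding.subtypeVal
    have h2 : IsEmbedding fun k : U g => (⟨g⁻¹ * (k : Kgrp hc), k.2⟩ : N) :=
      h1.codRestrict _ fun k => k.2
    exact h2.secondCountableTopology
  obtain ⟨t, -, ht⟩ := isCompact_univ.elim_nhds_subcover U fun g _ => hUn g
  haveI : ∀ i : t, SecondCountableTopology (U i) := fun i => hUsc i
  refine TopologicalSpace.secondCountableTopology_of_countable_cover (ι := t)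
    (U := fun i => U i) (fun i => hUo i) ?_
  refine Set.eq_univ_of_forall fun k => ?_
  obtain ⟨g, hg, hk⟩ := Set.mem_iUnion₂.1 (ht (Set.mem_univ k))
  exact Set.mem_iUnion.2 ⟨⟨g, hg⟩, hk⟩

/-- PROOF. `fd_of_equi`, `Kgrp_sc`, `MR_equi`, `exists_haarK`, `Kgrp_compact` (use the Borel σ-algebra: `borelize`). -/
theorem MR_fd (hc : IsCore c) (hK : IsKm c L act) (R : ℝ) :
    FiniteDimensional ℂ (MR hc hK R) := by
  letI : MeasurableSpace (Kgrp hc) := borel _
  haveI : BorelSpace (Kgrp hc) := ⟨rfl⟩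
  haveI := Kgrp_compact hc
  haveI := Kgrp_sc hc
  obtain ⟨μ, h1, h2, h3, h4⟩ := exists_haarK hc
  obtain ⟨U, hU, hU2⟩ := MR_equi hc hK μ R
  exact fd_of_equi μ h4 (MR hc hK R) U hU hU2

end Pool.Agent.RG
end

section

/-!
# B4b: admissibility implies that `Vle R` is finite dimensional
-/

namespace Pool.Agent.RG

open MeasureTheory Topology Filter Set Matrix

universe u v

variable {G : Type u} [Group G] [TopologicalSpace G] [IsTopologicalGroup G] [T2Space G] {d : ℕ}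
  {c : Core G d} {V : Type v} [AddCommGroup V] [Module ℂ V] {L : Ed d →ₗ[ℝ] (V →ₗ[ℂ] V)}
  {act : G → V →ₗ[ℂ] V}

/-- Interpolation points for a finite dimensional space of functions. -/
theorem B4b_pts {K : Type u} [TopologicalSpace K] (n : ℕ) :
    ∀ (M : Submodule ℂ C(K, ℂ)), FiniteDimensional ℂ M → Module.finrank ℂ M = n →
    ∃ (m : ℕ) (p : Fin m → K) (f : Fin m → C(K, ℂ)), (∀ i, f i ∈ M) ∧
      (∀ i j, f j (p i) = if i = j then 1 else 0) ∧
      ∀ g ∈ M, ∀ x, g x = ∑ i, g (p i) * f i x := by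
  induction n with
  | zero =>
    intro M hM h0
    have hbot : M = ⊥ := by
      have := Module.finrank_zero_iff (R := ℂ) (M := M) |>.1 h0
      exact (Submodule.subsingleton_iff_eq_bot).1 this
    refine ⟨0, Fin.elim0, Fin.elim0, fun i => i.elim0, fun i => i.elim0, ?_⟩
    intro g hg x
    rw [hbot, Submodule.mem_bot] at hg
    simp [hg]
  | succ n ih =>
    intro M hM hn
    have hne : M ≠ ⊥ := by
      intro h
      rw [h, finrank_bot] at hn
      omega
    obtain ⟨g, hg, hg0⟩ := (Submodule.ne_bot_iff M).1 hne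
    have hx : ∃ x, g x ≠ 0 := by
      by_contra hcon
      push Not at hcon
      exact hg0 (ContinuousMap.ext hcon)
    obtain ⟨x, hx⟩ := hx
    let ev : C(K, ℂ) →ₗ[ℂ] ℂ :=
      { toFun := fun h => h x
        map_add' := fun a b => rfl
        map_smul' := fun a b => rfl }
    have hev : ∀ h, ev h = h x := fun h => rfl
    have hle : M ⊓ LinearMap.ker ev ≤ M := inf_le_left
    have hfd : FiniteDimensional ℂ (M ⊓ LinearMap.ker ev : Submodule ℂ C(K, ℂ)) :=
      Submodule.finiteDimensional_of_le hle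
    have hlt : M ⊓ LinearMap.ker ev < M := by
      refine lt_of_le_of_ne hle fun h => hx ?_
      have : g ∈ M ⊓ LinearMap.ker ev := by rw [h]; exact hg
      exact this.2
    have hfr : Module.finrank ℂ (M ⊓ LinearMap.ker ev : Submodule ℂ C(K, ℂ)) = n := by
      have h1 : Module.finrank ℂ (LinearMap.ker (ev.domRestrict M)) + 1 =
          Module.finrank ℂ M := by
        have h2 := LinearMap.finrank_range_add_finrank_ker (K := ℂ) (V := M) (ev.domRestrict M)
        have h3 : LinearMap.range (ev.domRestrict M) = ⊤ := by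
          refine LinearMap.range_eq_top.2 ?_
          intro z
          refine ⟨(z / g x) • ⟨g, hg⟩, ?_⟩
          rw [map_smul]
          change (z / g x) • g x = z
          rw [smul_eq_mul, div_mul_cancel₀ _ hx]
        rw [h3, finrank_top, Module.finrank_self] at h2
        omega
      have h4 : Module.finrank ℂ (LinearMap.ker (ev.domRestrict M)) =
          Module.finrank ℂ (M ⊓ LinearMap.ker ev : Submodule ℂ C(K, ℂ)) := by
        have h5 : (LinearMap.ker (ev.domRestrict M)).map M.subtype = M ⊓ LinearMap.ker ev := by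
          ext h
          constructor
          · rintro ⟨y, hy, rfl⟩
            exact ⟨y.2, hy⟩
          · rintro ⟨h1, h2⟩
            exact ⟨⟨h, h1⟩, h2, rfl⟩
        rw [← h5]
        exact (LinearEquiv.finrank_eq
          (Submodule.equivMapOfInjective M.subtype M.injective_subtype _))
      omega
    obtain ⟨m, p, f, hf, hfp, hrep⟩ := ih _ hfd hfr
    have hfx : ∀ i, f i x = 0 := fun i => (hf i).2
    set f0 : C(K, ℂ) := (g x)⁻¹ • (g - ∑ i, g (p i) • f i) with hf0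
    have hf0v : ∀ y, f0 y = (g x)⁻¹ * (g y - ∑ i, g (p i) * f i y) := by
      intro y
      rw [hf0]
      simp
    have hf0x : f0 x = 1 := by
      rw [hf0v]
      simp [hfx, hx]
    have hf0p : ∀ i, f0 (p i) = 0 := by
      intro i
      rw [hf0v]
      simp [hfp]
    have hf0M : f0 ∈ M := by
      rw [hf0]
      exact M.smul_mem _ (M.sub_mem hg (M.sum_mem fun i _ => M.smul_mem _ (hf i).1))
    refine ⟨m + 1, Fin.cons x p, Fin.cons f0 f, ?_, ?_, ?_⟩
    · intro i
      refine Fin.cases ?_ (fun i => ?_) i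
      · simpa using hf0M
      · simpa using (hf i).1
    · intro i j
      refine Fin.cases ?_ (fun j => ?_) j
      · refine Fin.cases ?_ (fun i => ?_) i
        · simp [hf0x]
        · simp [hf0p]
      · refine Fin.cases ?_ (fun i => ?_) i
        · simp [hfx, (Fin.succ_ne_zero j).symm]
        · simp [hfp]
    · intro h hh y
      rw [Fin.sum_univ_succ]
      simp only [Fin.cons_zero, Fin.cons_succ]
      have h1 : h - (h x) • f0 ∈ M ⊓ LinearMap.ker ev := by
        refine ⟨M.sub_mem hh (M.smul_mem _ hf0M), ?_⟩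
        change (h - (h x) • f0) x = 0
        simp [hf0x]
      have h2 := hrep _ h1 y
      simp only [ContinuousMap.sub_apply, ContinuousMap.smul_apply, smul_eq_mul, hf0p, mul_zero,
        sub_zero] at h2
      rw [← h2]
      ring

/-- ADMISSIBILITY.
PROOF. Let `f_1..f_m` be a basis of the finite dimensional space `M = MR hc hK R` of functions on `K`. `M` is stable under left translations `f ↦ f(k' ·)`: `l (act (k' k) v) = (l ∘ act k') (act k v)`. So `f_j (k' k) = Σ_i τ_{ij}(k') f_i(k)` with unique `τ_{ij}(k')`. There are points `k_1..k_m ∈ K` such that the matrix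
`(f_j (k_i))` is invertible (linearly independent functions); so `τ_{ij}(k')` is a linear combination of the numbers `f_j (k' k_i)`, hence continuous in `k'`. Let `ρ(k)` be the matrix with `ρ(k) e_i = Σ_j τ_{ij}(k) e_j`; then `ρ(k' k'') = ρ(k') ρ(k'')`, `ρ(1) = 1` (from `f_j (k' k'' k) = Σ_i τ_{ij}(k' k'') f_i(k)` and
`= Σ_p τ_{pj}(k') f_p (k'' k) = Σ_{p,i} τ_{pj}(k') τ_{ip}(k'') f_i (k)`, so `τ_{ij}(k' k'') = Σ_p τ_{ip}(k'') τ_{pj}(k')`). For `v ∈ Vle R`: for every functional `l`, `k ↦ l (act k v)` is in `M`, so `l (act k v) = Σ_j f_j(k) a_j(l)`, with `a_j(l) = Σ_i b_{ji} l (act k_i v)`, `(b_{ji})` the inverse matrix; so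
`act k v = Σ_j f_j(k) w_j(v)`, `w_j(v) = Σ_i b_{ji} act k_i v` (functionals separate points). For `k' ∈ K`: `Σ_j f_j(k) act k' (w_j v) = act (k' k) v = Σ_j f_j(k' k) w_j(v) = Σ_i f_i(k) Σ_j τ_{ij}(k') w_j(v)`, so `act k' (w_i v) = Σ_j τ_{ij}(k') w_j(v)`. Hence `S_v : ℂ^m → V`, `S_v e_j = w_j(v)`, satisfies
`S_v (ρ(k') x) = act k' (S_v x)`. The map `v ↦ S_v` is linear and injective on `Vle R`, because `v = act 1 v = Σ_j f_j(1) w_j(v)`. Its image `W` is a subspace consisting of `K`-maps, finite dimensional by `hadm` (extend `ρ` to `G` by `1` or `0` outside `K`, say). So `Vle R` is finite dimensional. -/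
theorem fin_Vle (hc : IsCore c) (hK : IsKm c L act)
    (hadm : ∀ (m : ℕ) (τ : G → Matrix (Fin m) (Fin m) ℂ), ContinuousOn τ c.K → τ 1 = 1 →
      (∀ k ∈ c.K, ∀ l ∈ c.K, τ (k * l) = τ k * τ l) →
      ∀ W : Submodule ℂ ((Fin m → ℂ) →ₗ[ℂ] V),
        (∀ T ∈ W, ∀ k ∈ c.K, ∀ x, T (τ k *ᵥ x) = act k (T x)) → FiniteDimensional ℂ W) (R : ℝ) :
    FiniteDimensional ℂ (Vle (casK c L) R) := by
  classical
  have hMfd := MR_fd hc hK R
  obtain ⟨m, p, f, hf, hfp, hrep⟩ := B4b_pts _ (MR hc hK R) hMfd rfl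
  -- functionals separate points
  have hsep : ∀ a b : V, (∀ l : V →ₗ[ℂ] ℂ, l a = l b) → a = b := by
    intro a b h
    have h1 := (Module.forall_dual_apply_eq_zero_iff ℂ (a - b)).1 fun l => by
      rw [map_sub, h l, sub_self]
    exact sub_eq_zero.1 h1
  -- the expansion
  have hexp : ∀ v ∈ Vle (casK c L) R, ∀ k : Kgrp hc,
      act (k : G) v = ∑ i, f i k • act (p i : G) v := by
    intro v hv k
    refine hsep _ _ fun l => ?_
    have hmem : (⟨fun k : Kgrp hc => l (act (k : G) v), coefK_cont hc hK l v⟩ : C(Kgrp hc, ℂ)) ∈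
        MR hc hK R := Submodule.subset_span ⟨l, v, hv, fun k => rfl⟩
    have h1 := hrep _ hmem k
    simp only [ContinuousMap.coe_mk] at h1
    rw [h1, map_sum]
    refine Finset.sum_congr rfl fun i _ => ?_
    rw [map_smul, smul_eq_mul, mul_comm]
  -- stability under left translations
  have hstab : ∀ g ∈ MR hc hK R, ∀ a : Kgrp hc,
      (g.comp ⟨fun k => a * k, continuous_const.mul continuous_id⟩) ∈ MR hc hK R := by
    intro g hg a
    refine Submodule.span_induction (p := fun g _ =>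
      (g.comp ⟨fun k => a * k, continuous_const.mul continuous_id⟩) ∈ MR hc hK R)
      ?_ ?_ ?_ ?_ hg
    · rintro g ⟨l, v, hv, hgv⟩
      refine Submodule.subset_span ⟨l.comp (act (a : G)), v, hv, fun k => ?_⟩
      change g (a * k) = _
      rw [hgv, Subgroup.coe_mul, hK.act_mul _ a.2 _ k.2]
      rfl
    · exact (MR hc hK R).zero_mem
    · intro g h _ _ hg hh
      exact (MR hc hK R).add_mem hg hh
    · intro z g _ hg
      exact (MR hc hK R).smul_mem z hg
  have hmul : ∀ (j : Fin m) (a b : Kgrp hc), f j (a * b) = ∑ q, f j (a * p q) * f q b := by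
    intro j a b
    exact hrep _ (hstab _ (hf j) a) b
  -- the representation
  let τ : G → Matrix (Fin m) (Fin m) ℂ := fun g =>
    if h : g ∈ c.K then Matrix.of fun j i => f j ((⟨g, h⟩ : Kgrp hc) * p i) else 0
  have hτ : ∀ g (h : g ∈ c.K), τ g = Matrix.of fun j i => f j ((⟨g, h⟩ : Kgrp hc) * p i) :=
    fun g h => dif_pos h
  have hτc : ContinuousOn τ c.K := by
    rw [continuousOn_iff_continuous_domRestrict]
    have h1 : (c.K.domRestrict τ) = fun k : c.K =>
        Matrix.of fun j i => f j ((⟨k.1, k.2⟩ : Kgrp hc) * p i) := by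
      funext k
      exact hτ k.1 k.2
    rw [h1]
    refine continuous_matrix fun i j => ?_
    refine (f i).continuous.comp ?_
    exact (Continuous.subtype_mk continuous_subtype_val _).mul continuous_const
  have hτ1 : τ 1 = 1 := by
    rw [hτ 1 hc.K_one]
    ext j i
    have h1 : (⟨1, hc.K_one⟩ : Kgrp hc) = 1 := rfl
    rw [Matrix.of_apply, h1, one_mul, hfp, Matrix.one_apply]
    simp [eq_comm]
  have hτm : ∀ k ∈ c.K, ∀ l ∈ c.K, τ (k * l) = τ k * τ l := by
    intro k hk l hl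
    rw [hτ _ (hc.K_mul k hk l hl), hτ k hk, hτ l hl]
    ext j i
    rw [Matrix.mul_apply, Matrix.of_apply]
    have h1 : (⟨k * l, hc.K_mul k hk l hl⟩ : Kgrp hc) = (⟨k, hk⟩ : Kgrp hc) * ⟨l, hl⟩ := rfl
    rw [h1, mul_assoc, hmul]
    rfl
  -- the maps
  let S : V →ₗ[ℂ] ((Fin m → ℂ) →ₗ[ℂ] V) :=
    { toFun := fun v => Fintype.linearCombination ℂ (fun i => act (p i : G) v)
      map_add' := by
        intro v w
        refine LinearMap.ext fun x => ?_
        simp [Fintype.linearCombination_apply, Finset.sum_add_distrib]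
      map_smul' := by
        intro z w
        refine LinearMap.ext fun x => ?_
        simp only [Fintype.linearCombination_apply, map_smul, LinearMap.smul_apply,
          RingHom.id_apply, Finset.smul_sum]
        exact Finset.sum_congr rfl fun i _ => smul_comm _ _ _ }
  have hS : ∀ v x, S v x = ∑ i, x i • act (p i : G) v := fun v x => rfl
  have hW := hadm m τ hτc hτ1 hτm ((Vle (casK c L) R).map S) (by
    rintro T ⟨v, hv, rfl⟩ k hk x
    rw [hS, hS, map_sum, hτ k hk]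
    have h1 : ∀ i, act k (x i • act (p i : G) v) =
        ∑ j, (x i * f j ((⟨k, hk⟩ : Kgrp hc) * p i)) • act (p j : G) v := by
      intro i
      rw [map_smul, ← hK.act_mul k hk _ (p i).2]
      have h2 := hexp v hv ((⟨k, hk⟩ : Kgrp hc) * p i)
      rw [Subgroup.coe_mul] at h2
      change act (k * (p i : G)) v = _ at h2
      rw [h2, Finset.smul_sum]
      exact Finset.sum_congr rfl fun j _ => by rw [smul_smul]
    simp only [h1]
    rw [Finset.sum_comm]
    refine Finset.sum_congr rfl fun j _ => ?_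
    rw [← Finset.sum_smul]
    congr 1
    simp only [Matrix.mulVec, dotProduct, Matrix.of_apply]
    exact Finset.sum_congr rfl fun i _ => mul_comm _ _)
  have hinj : Function.Injective (fun v : Vle (casK c L) R =>
      (⟨S v, Submodule.mem_map_of_mem v.2⟩ : (Vle (casK c L) R).map S)) := by
    intro v w hvw
    have h1 : S v = S w := congrArg Subtype.val hvw
    have h2 : ∀ u : Vle (casK c L) R, (u : V) = S u (fun i => f i 1) := by
      intro u
      rw [hS, ← hexp u u.2 1]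
      exact (hK.act_one _).symm
    refine Subtype.ext ?_
    rw [h2 v, h2 w, h1]
  let S' : Vle (casK c L) R →ₗ[ℂ] (Vle (casK c L) R).map S :=
    { toFun := fun v => ⟨S v, Submodule.mem_map_of_mem v.2⟩
      map_add' := fun v w => Subtype.ext (by simp)
      map_smul' := fun z v => Subtype.ext (by simp) }
  have := hW
  exact FiniteDimensional.of_injective S' hinj

end Pool.Agent.RG
end

section

/-!
# E5: the right formula for words and for the invariants `z_k`
-/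

namespace Pool.Agent.RG

open MeasureTheory Topology Filter Set
open scoped SchwartzMap LineDeriv

universe u v

/-- iterated derivatives of a Schwartz function along a word -/
noncomputable def wdD {d : ℕ} : List (Fin d) → 𝓢(Ed d, ℂ) → 𝓢(Ed d, ℂ)
  | [], h => h
  | i :: β, h => wdD β (∂_{eb i} h : 𝓢(Ed d, ℂ))

/-- `Σ_β t k β (-1)^k ∂^β h` -/
noncomputable def PD {G : Type u} {d : ℕ} (c : Core G d) (k : ℕ) (h : 𝓢(Ed d, ℂ)) : 𝓢(Ed d, ℂ) :=
  ∑ β : Fin k → Fin d, (((c.t k β : ℝ) : ℂ) * (-1) ^ k) • wdD (List.ofFn β) h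

variable {G : Type u} [Group G] [TopologicalSpace G] {d : ℕ} {c : Core G d} {A : ℕ}
  {χ : Ed d → ℝ} {κ : Fin d → Fin d → Ed d → ℝ}

/-- `Op` of a finite linear combination of vectors. -/
private theorem E5_vsum (hc : IsCore c) (hχ : IsCut c χ κ) {E : Type v} [NormedAddCommGroup E]
    [NormedSpace ℂ E] {π : G → E →L[ℂ] E} (hcont : Continuous fun z : G × E => π z.1 z.2)
    {n : ℝ} (hn : 1 ≤ n) {h : Ed d → ℂ} (hh : Continuous h) {S : Type*} (s : Finset S)
    (a : S → ℂ) (e : S → E) :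
    Op c χ π n h (∑ i ∈ s, a i • e i) = ∑ i ∈ s, a i • Op c χ π n h (e i) := by
  unfold Op
  simp only [map_sum, map_smul, Finset.smul_sum]
  rw [integral_finsetSum]
  · refine Finset.sum_congr rfl fun i _ => ?_
    rw [← integral_smul]
    congr 1
    funext Y
    rw [smul_comm]
  · intro i _
    have := (Op_integrable hc hχ hcont hn hh (e i)).smul (a i)
    refine this.congr (Eventually.of_forall fun Y => ?_)
    simp only [Pi.smul_apply]
    rw [smul_comm]

/-- `Op_sum` in any universe. -/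
private theorem E5_sum' (hc : IsCore c) (hχ : IsCut c χ κ) {E : Type v} [NormedAddCommGroup E]
    [NormedSpace ℂ E] {π : G → E →L[ℂ] E} (hcont : Continuous fun z : G × E => π z.1 z.2)
    {n : ℝ} (hn : 1 ≤ n) {S : Type} (s : Finset S) {h : S → Ed d → ℂ}
    (hh : ∀ i, Continuous (h i)) (e : E) :
    Op c χ π n (fun Y => ∑ i ∈ s, h i Y) e = ∑ i ∈ s, Op c χ π n (h i) e :=
  Op_sum hc hχ hcont hn s hh e

/-- PROOF. Induction on `β` for all `h`. `β = []`: the difference is `0`. `β = i :: γ`: `wd L (i :: γ) v = X_i w`, `w = wd L γ v`. By `Op_right`,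
`Op h (X_i w) = -n Op (∂_i h) w + O(C_h) ‖J ι w‖` and `‖J ι w‖ ≤ n^|γ| T`; by induction for `∂_i h`, `Op (∂_i h) w = (-n)^|γ| Op (wdD γ (∂_i h)) v + O(C n^|γ| / n T)`; multiply by `n`. Total error
`≤ (C_h + C) n^|γ| T = (C_h + C) n^(|γ|+1) / n T`. -/
theorem Op_wd (hc : IsCore c) (hχ : IsCut c χ κ) (A : ℕ) (β : List (Fin d)) (h : 𝓢(Ed d, ℂ)) :
    ∃ C : ℝ, 0 ≤ C ∧ ∀ (R : Cal.{u, v} c A) (n : ℝ), 1 ≤ n → ∀ (v : R.V) (T : ℝ),
      (∀ γ : List (Fin d), γ.length ≤ β.length →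
        ‖R.J (R.ι (wd R.L γ v))‖ ≤ n ^ γ.length * T) →
      ‖R.J (Op c χ R.π n h (R.ι (wd R.L β v)) -
        ((-n : ℝ) : ℂ) ^ β.length • Op c χ R.π n (wdD β h) (R.ι v))‖ ≤
          C * n ^ β.length / n * T := by
  induction β generalizing h with
  | nil =>
    refine ⟨0, le_rfl, ?_⟩
    intro R n hn v T hT
    simp [wd, wdD]
  | cons i γ ih =>
    obtain ⟨C1, hC1, h1⟩ := Op_right.{u, v} hc hχ A h
    obtain ⟨C2, hC2, h2⟩ := ih (∂_{eb i} h : 𝓢(Ed d, ℂ))
    refine ⟨C1 + C2, add_nonneg hC1 hC2, ?_⟩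
    intro R n hn v T hT
    have hn0 : (0 : ℝ) < n := lt_of_lt_of_le one_pos hn
    have e1 : wd R.L (i :: γ) v = R.L (eb i) (wd R.L γ v) := rfl
    have e2 : wdD (i :: γ) h = wdD γ (∂_{eb i} h : 𝓢(Ed d, ℂ)) := rfl
    have k1 := h1 R n hn i (wd R.L γ v)
    have k2 := h2 R n hn v T (fun δ hδ => hT δ (by simp only [List.length_cons]; omega))
    have k3 := hT γ (by simp only [List.length_cons]; omega)
    have hsplit : Op c χ R.π n h (R.ι (wd R.L (i :: γ) v)) -
        ((-n : ℝ) : ℂ) ^ (i :: γ).length • Op c χ R.π n (wdD (i :: γ) h) (R.ι v) =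
        (Op c χ R.π n h (R.ι (R.L (eb i) (wd R.L γ v))) +
          (n : ℂ) • Op c χ R.π n (∂_{eb i} h : 𝓢(Ed d, ℂ)) (R.ι (wd R.L γ v))) -
        (n : ℂ) • (Op c χ R.π n (∂_{eb i} h : 𝓢(Ed d, ℂ)) (R.ι (wd R.L γ v)) -
          ((-n : ℝ) : ℂ) ^ γ.length • Op c χ R.π n (wdD γ (∂_{eb i} h : 𝓢(Ed d, ℂ))) (R.ι v)) := by
      rw [e1, e2, List.length_cons, pow_succ, smul_sub, smul_smul]
      have : ((-n : ℝ) : ℂ) ^ γ.length * ((-n : ℝ) : ℂ) = -((n : ℂ) * ((-n : ℝ) : ℂ) ^ γ.length) := by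
        push_cast
        ring
      rw [this, neg_smul]
      abel
    rw [hsplit, map_sub, map_smul]
    refine (norm_sub_le _ _).trans ?_
    rw [norm_smul, Complex.norm_real, Real.norm_of_nonneg hn0.le]
    have b1 : C1 * ‖R.J (R.ι (wd R.L γ v))‖ ≤ C1 * (n ^ γ.length * T) :=
      mul_le_mul_of_nonneg_left k3 hC1
    have b2 := mul_le_mul_of_nonneg_left k2 hn0.le
    have e3 : (C1 + C2) * n ^ (i :: γ).length / n * T =
        C1 * (n ^ γ.length * T) + n * (C2 * n ^ γ.length / n * T) := by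
      rw [List.length_cons, pow_succ]
      field_simp
    rw [e3]
    exact add_le_add (k1.trans b1) b2

/-- PROOF. Sum `Op_wd` over the words `List.ofFn β`, `β : Fin k → Fin d`, with the coefficients `t k β` (`Op` is additive in `h` and in the vector: `Op_sum`, `Op_smul`, `Op_clm` or directly;
note `(-n)^k = (-1)^k n^k`). -/
theorem Op_zk (hc : IsCore c) (hχ : IsCut c χ κ) (A : ℕ) (k : ℕ) (h : 𝓢(Ed d, ℂ)) :
    ∃ C : ℝ, 0 ≤ C ∧ ∀ (R : Cal.{u, v} c A) (n : ℝ), 1 ≤ n → ∀ (v : R.V) (T : ℝ),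
      (∀ γ : List (Fin d), γ.length ≤ k → ‖R.J (R.ι (wd R.L γ v))‖ ≤ n ^ γ.length * T) →
      ‖R.J (Op c χ R.π n h (R.ι (zk c R.L k v)) -
        ((n : ℝ) : ℂ) ^ k • Op c χ R.π n (PD c k h) (R.ι v))‖ ≤ C * n ^ k / n * T := by
  classical
  choose C hC hCb using fun β : Fin k → Fin d => Op_wd.{u, v} hc hχ A (List.ofFn β) h
  refine ⟨∑ β : Fin k → Fin d, |c.t k β| * C β,
    Finset.sum_nonneg fun β _ => mul_nonneg (abs_nonneg _) (hC β), ?_⟩
  intro R n hn v T hT
  have hn0 : (0 : ℝ) < n := lt_of_lt_of_le one_pos hn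
  have e1 : R.ι (zk c R.L k v) =
      ∑ β : Fin k → Fin d, ((c.t k β : ℝ) : ℂ) • R.ι (wd R.L (List.ofFn β) v) := by
    simp only [zk, LinearMap.sum_apply, LinearMap.smul_apply, map_sum, map_smul]
  have e2 : Op c χ R.π n h (R.ι (zk c R.L k v)) =
      ∑ β : Fin k → Fin d, ((c.t k β : ℝ) : ℂ) •
        Op c χ R.π n h (R.ι (wd R.L (List.ofFn β) v)) := by
    rw [e1]
    exact E5_vsum hc hχ R.cont hn h.continuous Finset.univ _ _
  have e3 : Op c χ R.π n (PD c k h) (R.ι v) =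
      ∑ β : Fin k → Fin d, (((c.t k β : ℝ) : ℂ) * (-1) ^ k) •
        Op c χ R.π n (wdD (List.ofFn β) h) (R.ι v) := by
    have h0 : (fun Y => PD c k h Y) = fun Y => ∑ β : Fin k → Fin d,
        (((c.t k β : ℝ) : ℂ) * (-1) ^ k) * (wdD (List.ofFn β) h) Y := by
      funext Y
      simp only [PD, _root_.sum_apply, _root_.smul_apply, smul_eq_mul]
    have h1 : Op c χ R.π n (PD c k h) (R.ι v) = Op c χ R.π n (fun Y => ∑ β : Fin k → Fin d,
        (((c.t k β : ℝ) : ℂ) * (-1) ^ k) * (wdD (List.ofFn β) h) Y) (R.ι v) := by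
      rw [← h0]
    rw [h1, E5_sum' hc hχ R.cont hn Finset.univ
      (h := fun (β : Fin k → Fin d) Y => (((c.t k β : ℝ) : ℂ) * (-1) ^ k) * (wdD (List.ofFn β) h) Y)
      (fun β => continuous_const.mul (wdD (List.ofFn β) h).continuous)]
    exact Finset.sum_congr rfl fun β _ => Op_smul _ _ _
  have e4 : Op c χ R.π n h (R.ι (zk c R.L k v)) -
      ((n : ℝ) : ℂ) ^ k • Op c χ R.π n (PD c k h) (R.ι v) =
      ∑ β : Fin k → Fin d, ((c.t k β : ℝ) : ℂ) •
        (Op c χ R.π n h (R.ι (wd R.L (List.ofFn β) v)) -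
        ((-n : ℝ) : ℂ) ^ (List.ofFn β).length •
          Op c χ R.π n (wdD (List.ofFn β) h) (R.ι v)) := by
    rw [e2, e3, Finset.smul_sum, ← Finset.sum_sub_distrib]
    refine Finset.sum_congr rfl fun β _ => ?_
    rw [smul_sub, smul_smul, smul_smul, List.length_ofFn]
    congr 2
    have : ((-n : ℝ) : ℂ) = (-1) * (n : ℂ) := by push_cast; ring
    rw [this, mul_pow]
    ring
  rw [e4, map_sum]
  refine (norm_sum_le _ _).trans ?_
  rw [Finset.sum_mul, Finset.sum_div, Finset.sum_mul]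
  refine Finset.sum_le_sum fun β _ => ?_
  rw [map_smul, norm_smul, Complex.norm_real, Real.norm_eq_abs]
  have k1 := hCb β R n hn v T (fun γ hγ => hT γ (by rwa [List.length_ofFn] at hγ))
  refine (mul_le_mul_of_nonneg_left k1 (abs_nonneg _)).trans (le_of_eq ?_)
  rw [List.length_ofFn]
  ring

end Pool.Agent.RG
end

section

/-!
# E9a: the tail estimate for `Op(h)`
-/

namespace Pool.Agent.RG

open MeasureTheory Topology Filter Set
open scoped SchwartzMap LineDeriv

universe u v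

/-- `(-1)^l` times the sum of `F (i_l i_l ... i_1 i_1 β)` over the indices in `kI` -/
def KV {G : Type u} {d : ℕ} {X : Type v} [AddCommGroup X] (c : Core G d)
    (F : List (Fin d) → X) : ℕ → List (Fin d) → X
  | 0, β => F β
  | l + 1, β => -∑ i ∈ c.kI, KV c F l (i :: i :: β)

/-- `-Σ_{i ∈ kI} ∂_i ∂_i h` -/
noncomputable def KD1 {G : Type u} {d : ℕ} (c : Core G d) (h : 𝓢(Ed d, ℂ)) : 𝓢(Ed d, ℂ) :=
  -∑ i ∈ c.kI, (∂_{eb i} (∂_{eb i} h : 𝓢(Ed d, ℂ)) : 𝓢(Ed d, ℂ))

/-- the `l`-th iterate -/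
noncomputable def KD {G : Type u} {d : ℕ} (c : Core G d) (l : ℕ) (h : 𝓢(Ed d, ℂ)) :
    𝓢(Ed d, ℂ) := (KD1 c)^[l] h

variable {G : Type u} [Group G] [TopologicalSpace G] {d : ℕ} {c : Core G d} {A A₁ : ℕ}
  {χ : Ed d → ℝ} {κ : Fin d → Fin d → Ed d → ℝ}

/-- The projections of a chain of derivatives.
PROOF. `PV_der` gives `L (eb i) (PV R (F β)) = PV R (F (i :: β))`. Induction on `l` for all `β`: `PV R (KV F (l+1) β) = -Σ_i PV R (KV F l (i :: i :: β)) = -Σ_i casK^l (PV R (F (i :: i :: β))) =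
-Σ_i casK^l (X_i X_i PV R (F β)) = casK^(l+1) (PV R (F β))`. -/
theorem PV_KV {V E : Type v} [AddCommGroup V] [Module ℂ V] [NormedAddCommGroup E]
    [NormedSpace ℂ E] [CompleteSpace E] {L : Ed d →ₗ[ℝ] (V →ₗ[ℂ] V)} {act : G → V →ₗ[ℂ] V}
    {π : G → E →L[ℂ] E} {ι : V →ₗ[ℂ] E} {PV : ℝ → E →ₗ[ℂ] V} (hc : IsCore c)
    (hM : IsMd c L act) (hG : IsGl c A₁ L act π ι) (hPV : IsPV c L ι PV)
    (F : List (Fin d) → E)
    (hF : ∀ (i : Fin d) (β : List (Fin d)), i ∈ c.kI →
      HasDerivAt (fun t : ℝ => π (c.ex (t • eb i)) (F β)) (F (i :: β)) 0) (R : ℝ) (l : ℕ)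
    (β : List (Fin d)) :
    PV R (KV c F l β) = ((casK c L) ^ l) (PV R (F β)) := by
  induction l generalizing β with
  | zero => simp [KV]
  | succ l ih =>
    have h1 : ∀ i ∈ c.kI, PV R (KV c F l (i :: i :: β))
        = ((casK c L) ^ l) (L (eb i) (L (eb i) (PV R (F β)))) := by
      intro i hi
      rw [ih (i :: i :: β), PV_der hc hM hG hPV R i hi _ _ (hF i β hi),
        PV_der hc hM hG hPV R i hi _ _ (hF i (i :: β) hi)]
    rw [KV, map_neg, map_sum, Finset.sum_congr rfl h1, ← map_sum, ← map_neg, pow_succ,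
      Module.End.mul_apply]
    congr 1
    simp [casK]

end Pool.Agent.RG
end

section

/-!
# F1a: a Bernstein inequality
-/

namespace Pool.Agent.RG

open MeasureTheory Topology Filter Set
open scoped SchwartzMap LineDeriv FourierTransform

universe u

/-- `L¹` norm of a product of symbols.
PROOF. Hypothesis: `𝓕 f = (𝓕 g) (𝓕 h)` pointwise. Then `f` is the convolution of `g` and `h` (`SchwartzMap.convolution` for the bilinear map `ContinuousLinearMap.mul ℂ ℂ` or `lsmul`: `SchwartzMap.fourier_convolution`, injectivity of `𝓕`,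
`SchwartzMap.convolution_apply`), and `∫ ‖g ⋆ h‖ ≤ ∫ ‖g‖ ∫ ‖h‖` (Fubini/Young; `MeasureTheory.Integrable.integrable_convolution`, `integral_convolution` for `‖g‖ ⋆ ‖h‖`). -/
theorem l1_mul {d : ℕ} (f g h : 𝓢(Ed d, ℂ)) (hfg : ∀ ξ, (𝓕 f) ξ = (𝓕 g) ξ * (𝓕 h) ξ) :
    ∫ Y, ‖f Y‖ ≤ (∫ Y, ‖g Y‖) * ∫ Y, ‖h Y‖ := by
  have hf : f = SchwartzMap.convolution (ContinuousLinearMap.mul ℂ ℂ) g h := by
    have h1 : 𝓕 f = 𝓕 (SchwartzMap.convolution (ContinuousLinearMap.mul ℂ ℂ) g h) := by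
      ext ξ
      rw [SchwartzMap.fourier_convolution, SchwartzMap.pairing_apply_apply, hfg ξ]
      rfl
    have h2 : 𝓕⁻ (𝓕 f) = 𝓕⁻ (𝓕 (SchwartzMap.convolution (ContinuousLinearMap.mul ℂ ℂ) g h)) := by
      rw [h1]
    simpa using h2
  have hg : Integrable (fun Y => ‖g Y‖) (volume : Measure (Ed d)) := g.integrable.norm
  have hh : Integrable (fun Y => ‖h Y‖) (volume : Measure (Ed d)) := h.integrable.norm
  have hc : Integrable (MeasureTheory.convolution (fun Y => ‖g Y‖) (fun Y => ‖h Y‖)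
      (ContinuousLinearMap.mul ℝ ℝ) (volume : Measure (Ed d))) volume :=
    hg.integrable_convolution (ContinuousLinearMap.mul ℝ ℝ) hh
  have hI : ∫ Y, (MeasureTheory.convolution (fun Y => ‖g Y‖) (fun Y => ‖h Y‖)
      (ContinuousLinearMap.mul ℝ ℝ) (volume : Measure (Ed d))) Y =
      (∫ Y, ‖g Y‖) * ∫ Y, ‖h Y‖ := by
    rw [MeasureTheory.integral_convolution (ContinuousLinearMap.mul ℝ ℝ) hg hh]
    rfl
  rw [← hI]
  refine integral_mono f.integrable.norm hc ?_
  intro Y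
  have hY : f Y = (MeasureTheory.convolution (fun Y => g Y) (fun Y => h Y)
      (ContinuousLinearMap.mul ℂ ℂ) (volume : Measure (Ed d))) Y := by
    rw [hf]
    exact SchwartzMap.convolution_apply _ _ _ _
  show ‖f Y‖ ≤ _
  rw [hY, MeasureTheory.convolution_def, MeasureTheory.convolution_def]
  refine (norm_integral_le_integral_norm _).trans (le_of_eq ?_)
  congr 1
  funext t
  simp

end Pool.Agent.RG
end

section

/-!
# F2a: the decomposition of a band limited kernel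
-/

namespace Pool.Agent.RG

open MeasureTheory Topology Filter Set
open scoped SchwartzMap LineDeriv FourierTransform

universe u

private theorem F2a_lineDeriv {d : ℕ} (h : 𝓢(Ed d, ℂ)) (i : Fin d) (ξ : Ed d) :
    (𝓕 (∂_{eb i} h : 𝓢(Ed d, ℂ))) ξ = (2 * Real.pi * Complex.I) * (ξ i : ℂ) * (𝓕 h) ξ := by
  have ht : (fun x : Ed d => (inner ℝ x (eb i) : ℝ)).HasTemperateGrowth := by fun_prop
  rw [SchwartzMap.fourier_lineDerivOp_eq]
  have hin : (inner ℝ ξ (eb i) : ℝ) = ξ i := by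
    simp [eb, EuclideanSpace.inner_single_right]
  simp only [smul_apply]
  rw [SchwartzMap.smulLeftCLM_apply_apply ht, hin]
  simp [mul_assoc]

private theorem F2a_wdD {d : ℕ} (β : List (Fin d)) (ξ : Ed d) : ∀ h : 𝓢(Ed d, ℂ),
    (𝓕 (wdD β h)) ξ = (2 * Real.pi * Complex.I) ^ β.length *
      (((β.map fun i => (ξ i : ℝ)).prod : ℝ) : ℂ) * (𝓕 h) ξ := by
  induction β with
  | nil => intro h; simp [wdD]
  | cons i β ih =>
    intro h
    rw [wdD, ih, F2a_lineDeriv]
    simp only [List.length_cons, List.map_cons, List.prod_cons, Complex.ofReal_mul]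
    ring

/-- Fourier transform of `PD`.
PROOF. `𝓕 (∂_i h) ξ = 2πi ξ_i 𝓕 h ξ` (`SchwartzMap.fourier_lineDerivOp_eq`), so `𝓕 (wdD β h) ξ = ∏_l (2πi ξ_{β l}) 𝓕 h ξ` by induction on the word, and
`𝓕 (PD c k h) ξ = Σ_β t k β (-1)^k (2πi)^k ∏_l ξ_{β l} 𝓕 h ξ`. -/
theorem fourier_PD {G : Type u} {d : ℕ} (c : Core G d) (k : ℕ) (h : 𝓢(Ed d, ℂ)) (ξ : Ed d) :
    (𝓕 (PD c k h)) ξ = (-(2 * Real.pi * Complex.I)) ^ k * (c.pol k ξ : ℂ) * (𝓕 h) ξ := by
  have h1 : 𝓕 (PD c k h) = ∑ β : Fin k → Fin d,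
      (((c.t k β : ℝ) : ℂ) * (-1) ^ k) • 𝓕 (wdD (List.ofFn β) h) := by
    unfold PD
    have := map_sum (SchwartzMap.fourierTransformCLM ℂ (V := Ed d) (E := ℂ))
      (fun β : Fin k → Fin d => (((c.t k β : ℝ) : ℂ) * (-1) ^ k) • wdD (List.ofFn β) h)
      Finset.univ
    simp only [SchwartzMap.fourierTransformCLM_apply] at this
    rw [this]
    refine Finset.sum_congr rfl fun β _ => ?_
    exact map_smul (SchwartzMap.fourierTransformCLM ℂ (V := Ed d) (E := ℂ)) _ _
  rw [h1, sum_apply]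
  simp only [smul_apply, F2a_wdD, List.length_ofFn, smul_eq_mul]
  unfold Core.pol
  rw [Complex.ofReal_sum, Finset.mul_sum, Finset.sum_mul]
  refine Finset.sum_congr rfl fun β _ => ?_
  have h2 : ((List.ofFn β).map fun i => (ξ i : ℝ)).prod = ∏ l, ξ (β l) := by
    rw [List.map_ofFn, List.prod_ofFn]
    rfl
  rw [h2, neg_pow (2 * (Real.pi : ℂ) * Complex.I) k]
  push_cast
  ring

end Pool.Agent.RG
end
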