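import Pool.Agent.Lib.MP_496a9e_al.Mg.G012
import Pool.Agent.Lib.MP_496a9e_al.Mg.G007
import Pool.Agent.Lib.MP_496a9e_al.Mg.G002
import Pool.Agent.Lib.MP_496a9e_al.Mg.G008
import Pool.Agent.Lib.MP_496a9e_al.Mg.G013
import Pool.Agent.Lib.MP_496a9e_al.Mg.G009
import Pool.Agent.Lib.MP_496a9e_al.Mg.G016

section

/-!
# E9b: the tail estimate for `Op(h)`
-/

namespace Pool.Agent.RG

open MeasureTheory Topology Filter Set
open scoped SchwartzMap LineDeriv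

universe u v

variable {G : Type u} [Group G] [TopologicalSpace G] {d : ℕ} {c : Core G d} {A A₁ : ℕ}
  {χ : Ed d → ℝ} {κ : Fin d → Fin d → Ed d → ℝ}

private theorem E9b_comm (a b : Ed d) (h : 𝓢(Ed d, ℂ)) :
    (∂_{a} (∂_{b} h : 𝓢(Ed d, ℂ)) : 𝓢(Ed d, ℂ)) = ∂_{b} (∂_{a} h : 𝓢(Ed d, ℂ)) := by
  have h2 : ContDiff ℝ 2 h := h.smooth 2
  have hd : Differentiable ℝ (fderiv ℝ h) :=
    (h2.fderiv_right (m := 1) (by norm_num)).differentiable (by norm_num)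
  have key : ∀ (a b : Ed d) (x : Ed d), (∂_{a} (∂_{b} h : 𝓢(Ed d, ℂ)) : 𝓢(Ed d, ℂ)) x =
      fderiv ℝ (fderiv ℝ h) x a b := by
    intro a b x
    have e1 : (⇑(∂_{b} h : 𝓢(Ed d, ℂ)) : Ed d → ℂ) = fun y => fderiv ℝ h y b := by
      funext y
      exact SchwartzMap.lineDerivOp_apply_eq_fderiv b h y
    rw [SchwartzMap.lineDerivOp_apply_eq_fderiv, e1]
    have e2 : HasFDerivAt (fun y => fderiv ℝ h y b)
        ((ContinuousLinearMap.apply ℝ ℂ b).comp (fderiv ℝ (fderiv ℝ h) x)) x :=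
      (ContinuousLinearMap.apply ℝ ℂ b).hasFDerivAt.comp x (hd x).hasFDerivAt
    rw [e2.fderiv]
    rfl
  ext x
  rw [key, key]
  exact (h2.contDiffAt.isSymmSndFDerivAt (by simp)) a b

private theorem E9b_wdD_comm (i : Fin d) (β : List (Fin d)) :
    ∀ h : 𝓢(Ed d, ℂ), wdD β (∂_{eb i} h : 𝓢(Ed d, ℂ)) = ∂_{eb i} (wdD β h) := by
  induction β with
  | nil => intro h; rfl
  | cons j β ih =>
    intro h
    change wdD β (∂_{eb j} (∂_{eb i} h : 𝓢(Ed d, ℂ)) : 𝓢(Ed d, ℂ)) =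
      ∂_{eb i} (wdD β (∂_{eb j} h : 𝓢(Ed d, ℂ)))
    rw [E9b_comm, ih]

private theorem E9b_KD1 (β : List (Fin d)) (h : 𝓢(Ed d, ℂ)) :
    KD1 c (wdD β h) = -∑ i ∈ c.kI, wdD (i :: i :: β) h := by
  unfold KD1
  congr 1
  refine Finset.sum_congr rfl fun i _ => ?_
  change _ = wdD β (∂_{eb i} (∂_{eb i} h : 𝓢(Ed d, ℂ)) : 𝓢(Ed d, ℂ))
  rw [E9b_wdD_comm, E9b_wdD_comm]

private theorem E9b_KD_add (c : Core G d) (l : ℕ) :
    ∃ Φ : 𝓢(Ed d, ℂ) →+ 𝓢(Ed d, ℂ), ∀ h, Φ h = KD c l h := by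
  have h1 : ∀ a b : 𝓢(Ed d, ℂ), KD1 c (a + b) = KD1 c a + KD1 c b := by
    intro a b
    unfold KD1
    simp only [LineDeriv.lineDerivOp_add, Finset.sum_add_distrib]
    abel
  induction l with
  | zero => exact ⟨AddMonoidHom.id _, fun h => rfl⟩
  | succ l ih =>
    obtain ⟨Φ, hΦ⟩ := ih
    refine ⟨Φ.comp (AddMonoidHom.mk' (KD1 c) h1), fun h => ?_⟩
    change Φ (KD1 c h) = _
    rw [hΦ]
    unfold KD
    rw [Function.iterate_succ_apply]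

private theorem E9b_KD_succ (l : ℕ) (β : List (Fin d)) (h : 𝓢(Ed d, ℂ)) :
    KD c (l + 1) (wdD β h) = -∑ i ∈ c.kI, KD c l (wdD (i :: i :: β) h) := by
  obtain ⟨Φ, hΦ⟩ := E9b_KD_add c l
  have e1 : KD c (l + 1) (wdD β h) = KD c l (KD1 c (wdD β h)) := by
    unfold KD
    rw [Function.iterate_succ_apply]
  rw [e1, E9b_KD1, ← hΦ, map_neg, map_sum]
  simp only [hΦ]

private theorem E9b_Op (hc : IsCore c) (hχ : IsCut c χ κ) (R : Cal.{u, v} c A) {n : ℝ}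
    (hn : 1 ≤ n) (l : ℕ) (β : List (Fin d)) (h : 𝓢(Ed d, ℂ)) (e : R.E) :
    Op c χ R.π n (KD c (l + 1) (wdD β h)) e =
      -∑ i ∈ c.kI, Op c χ R.π n (KD c l (wdD (i :: i :: β) h)) e := by
  rw [E9b_KD_succ]
  have e1 : (⇑(-∑ i ∈ c.kI, KD c l (wdD (i :: i :: β) h)) : Ed d → ℂ) =
      fun Y => (-1 : ℂ) * ∑ i ∈ c.kI, KD c l (wdD (i :: i :: β) h) Y := by
    funext Y
    rw [SchwartzMap.neg_apply, SchwartzMap.sum_apply]
    ring
  rw [e1, Op_smul, Op_sum hc hχ R.cont hn c.kI (fun i => SchwartzMap.continuous _) e]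
  rw [neg_one_smul]

private theorem E9b_main (hc : IsCore c) (hχ : IsCut c χ κ) (A : ℕ) (l : ℕ) :
    ∀ (h : 𝓢(Ed d, ℂ)) (β : List (Fin d)),
    ∃ C : ℝ, 0 ≤ C ∧ ∀ (R : Cal.{u, v} c A) (n : ℝ), 1 ≤ n → ∀ (v : R.V) (T : ℝ),
      (∀ γ : List (Fin d), γ.length ≤ β.length + 2 * l →
        ‖R.J (R.ι (wd R.L γ v))‖ ≤ n ^ γ.length * T) →
      ‖R.J (KV c (fun β => OpW χ R n h β v) l β -
        (((-n : ℝ) : ℂ) ^ β.length * ((n : ℝ) : ℂ) ^ (2 * l)) •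
          Op c χ R.π n (KD c l (wdD β h)) (R.ι v))‖ ≤
          C * n ^ (β.length + 2 * l) / n * T := by
  induction l with
  | zero =>
    intro h β
    obtain ⟨C1, hC1, h1⟩ := OpW_sub hc hχ A h β
    obtain ⟨C2, hC2, h2⟩ := Op_wd hc hχ A β h
    refine ⟨C1 + C2, add_nonneg hC1 hC2, fun R n hn v T hT => ?_⟩
    have a1 := h1 R n hn v T hT
    have a2 := h2 R n hn v T hT
    change ‖R.J (OpW χ R n h β v - (((-n : ℝ) : ℂ) ^ β.length * ((n : ℝ) : ℂ) ^ 0) •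
      Op c χ R.π n (wdD β h) (R.ι v))‖ ≤ (C1 + C2) * n ^ β.length / n * T
    rw [pow_zero, mul_one]
    have e1 : OpW χ R n h β v - ((-n : ℝ) : ℂ) ^ β.length • Op c χ R.π n (wdD β h) (R.ι v) =
        (OpW χ R n h β v - Op c χ R.π n h (R.ι (wd R.L β v))) +
        (Op c χ R.π n h (R.ι (wd R.L β v)) -
          ((-n : ℝ) : ℂ) ^ β.length • Op c χ R.π n (wdD β h) (R.ι v)) := by
      abel
    rw [e1, map_add]
    refine (norm_add_le _ _).trans ((add_le_add a1 a2).trans (le_of_eq ?_))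
    ring
  | succ l ih =>
    intro h β
    choose C hC0 hC using fun i : Fin d => ih h (i :: i :: β)
    refine ⟨∑ i ∈ c.kI, C i, Finset.sum_nonneg fun i _ => hC0 i, fun R n hn v T hT => ?_⟩
    have e1 : KV c (fun β => OpW χ R n h β v) (l + 1) β -
        (((-n : ℝ) : ℂ) ^ β.length * ((n : ℝ) : ℂ) ^ (2 * (l + 1))) •
          Op c χ R.π n (KD c (l + 1) (wdD β h)) (R.ι v) =
        -∑ i ∈ c.kI, (KV c (fun β => OpW χ R n h β v) l (i :: i :: β) -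
          (((-n : ℝ) : ℂ) ^ (i :: i :: β).length * ((n : ℝ) : ℂ) ^ (2 * l)) •
            Op c χ R.π n (KD c l (wdD (i :: i :: β) h)) (R.ι v)) := by
      rw [E9b_Op hc hχ R hn, Finset.sum_sub_distrib, smul_neg, Finset.smul_sum]
      have e2 : (((-n : ℝ) : ℂ) ^ β.length * ((n : ℝ) : ℂ) ^ (2 * (l + 1))) =
          ((-n : ℝ) : ℂ) ^ (β.length + 1 + 1) * ((n : ℝ) : ℂ) ^ (2 * l) := by
        push_cast
        ring
      change -∑ i ∈ c.kI, KV c (fun β => OpW χ R n h β v) l (i :: i :: β) - _ = _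
      simp only [List.length_cons]
      rw [e2]
      abel
    rw [e1, map_neg, norm_neg, map_sum]
    refine (norm_sum_le _ _).trans ?_
    have e3 : (∑ i ∈ c.kI, C i) * n ^ (β.length + 2 * (l + 1)) / n * T =
        ∑ i ∈ c.kI, C i * n ^ ((i :: i :: β).length + 2 * l) / n * T := by
      simp only [List.length_cons]
      rw [Finset.sum_mul, Finset.sum_div, Finset.sum_mul]
      refine Finset.sum_congr rfl fun i _ => ?_
      have : β.length + 2 * (l + 1) = β.length + 1 + 1 + 2 * l := by ring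
      rw [this]
    rw [e3]
    refine Finset.sum_le_sum fun i _ => ?_
    refine hC i R n hn v T fun γ hγ => hT γ ?_
    simp only [List.length_cons] at hγ
    omega

/-- PROOF. Induction on `l` for all `β` and all `h`, in the form: for `F β = OpW χ R n h β v`,
`‖J (KV F l β - ((-n)^|β| n^(2l)) • Op (KD l (wdD β h)) (ι v))‖ ≤ C n^(|β| + 2l) / n * T` provided the bounds hold for words of length `≤ |β| + 2l`. For `l = 0`: `OpW_sub` and `Op_wd`.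
Step: `KV F (l+1) β = -Σ_{i ∈ kI} KV F l (i :: i :: β)`, and `-Σ_i KD l (wdD (i :: i :: β) h) = KD l (-Σ_i wdD β (∂_i ∂_i h)) = KD (l+1) (wdD β h)` because line derivatives commute with each other
(`KD l`, `wdD β` are additive; `wdD β (KD1 h) = KD1 (wdD β h)`: commutation of `∂_{a} ∂_{b}` on Schwartz functions, e.g. via `SchwartzMap.lineDerivOp` and symmetry of second derivatives, or via the
Fourier transform). `Op` is additive in `h`. -/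
theorem Op_KV (hc : IsCore c) (hχ : IsCut c χ κ) (A : ℕ) (l : ℕ) (h : 𝓢(Ed d, ℂ)) :
    ∃ C : ℝ, 0 ≤ C ∧ ∀ (R : Cal.{u, v} c A) (n : ℝ), 1 ≤ n → ∀ (v : R.V) (T : ℝ),
      (∀ γ : List (Fin d), γ.length ≤ 2 * l →
        ‖R.J (R.ι (wd R.L γ v))‖ ≤ n ^ γ.length * T) →
      ‖R.J (KV c (fun β => OpW χ R n h β v) l [] -
        ((n : ℝ) : ℂ) ^ (2 * l) • Op c χ R.π n (KD c l h) (R.ι v))‖ ≤
          C * n ^ (2 * l) / n * T := by
  obtain ⟨C, hC0, hC⟩ := E9b_main (c := c) hc hχ A l h []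
  refine ⟨C, hC0, fun R n hn v T hT => ?_⟩
  have h1 := hC R n hn v T fun γ hγ => hT γ (by simpa using hγ)
  simp only [List.length_nil, pow_zero, one_mul, zero_add] at h1
  exact h1

end Pool.Agent.RG
end

section

/-!
# E9c: the tail estimate for `Op(h)`
-/

namespace Pool.Agent.RG

open MeasureTheory Topology Filter Set
open scoped SchwartzMap LineDeriv

universe u v

variable {G : Type u} [Group G] [TopologicalSpace G] {d : ℕ} {c : Core G d} {A A₁ : ℕ}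
  {χ : Ed d → ℝ} {κ : Fin d → Fin d → Ed d → ℝ}

omit [Group G] [TopologicalSpace G] in
private theorem E9c_wd {V E : Type v} {H : Type u} [AddCommGroup V] [Module ℂ V]
    [NormedAddCommGroup E] [NormedSpace ℂ E] [CompleteSpace E] [NormedAddCommGroup H]
    [InnerProductSpace ℂ H] [CompleteSpace H] (L L' : Ed d →ₗ[ℝ] (V →ₗ[ℂ] V)) (g : G)
    (hL : ∀ Y, L' Y = L (c.ad g Y)) (γ : List (Fin d)) (v : V) :
    wd L' γ v = wda c L g γ v := by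
  induction γ with
  | nil => rfl
  | cons i β ih =>
    change L' (eb i) (wd L' β v) = L (c.ad g (eb i)) (wda c L g β v)
    rw [ih, hL]

/-- TAIL ESTIMATE FOR `Op(h) π(x) v`.
PROOF. Let `J` be tempered, `R₀ = ⟨V, E, H, π, L, ι, J, ..⟩` and `R = R₀.tw hc x` (twisted by `x`): `R.ι v = π x (ι v)`, `R.L Y = L (ad x⁻¹ Y)`, `wd R.L γ v = wda c L x⁻¹ γ v` (induction on `γ`). By `wda_bound`
(applied with `g = x⁻¹`, and to each word of length `≤ 2l`, the bound `n^|γ| T` for the words of length `|γ|`) the words of `R` satisfy `‖R.J (R.ι (wd R.L γ v))‖ ≤ n^|γ| (C_x T)`. Put `y = Op h (π x (ι v))`, `y' = KV F l []`, `F β = OpW χ R n h β v`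
(`F [] = y`, `OpW_nil`). By `PV_KV` and `OpW_der`, `PV S y' = casK^l (PV S y)` for all `S`. `PV_tail`: `m^(2l) ‖J (y - ι (PV m y))‖ ≤ ‖J y'‖`. And `‖J y'‖ ≤ n^(2l) ‖J (Op (KD l h) (π x (ι v)))‖ + C n^(2l) / n C_x T` by `Op_KV`,
`‖J (Op (KD l h) (π x ι v))‖ ≤ exp(A) ∫ ‖KD l h‖ ‖J (π x ι v)‖ ≤ exp(A) ∫ ‖KD l h‖ M(x)^A ‖J ι v‖` by `Op_norm`. -/
theorem Op_tail (hc : IsCore c) (hχ : IsCut c χ κ) (A : ℕ) (l : ℕ) (h : 𝓢(Ed d, ℂ)) (x : G) :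
    ∃ C : ℝ, 0 ≤ C ∧ ∀ (V E : Type v) (H : Type u) [AddCommGroup V] [Module ℂ V]
      [NormedAddCommGroup E] [NormedSpace ℂ E] [CompleteSpace E] [NormedAddCommGroup H]
      [InnerProductSpace ℂ H] [CompleteSpace H] (L : Ed d →ₗ[ℝ] (V →ₗ[ℂ] V))
      (act : G → V →ₗ[ℂ] V) (π : G → E →L[ℂ] E) (ι : V →ₗ[ℂ] E) (PV : ℝ → E →ₗ[ℂ] V)
      (J : E →L[ℂ] H), IsMd c L act → IsGl c A₁ L act π ι → IsPV c L ι PV → IsTp c A π J →
      ∀ (n m : ℝ), 1 ≤ n → 0 ≤ m → ∀ (v : V) (T : ℝ),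
      (∀ γ : List (Fin d), γ.length ≤ 2 * l → ‖J (ι (wd L γ v))‖ ≤ n ^ γ.length * T) →
      m ^ (2 * l) * ‖J (Op c χ π n h (π x (ι v)) - ι (PV m (Op c χ π n h (π x (ι v)))))‖ ≤
        n ^ (2 * l) * (Real.exp A * (∫ Y, ‖(KD c l h) Y‖) * c.M x ^ A * ‖J (ι v)‖ +
          C / n * T) := by
  obtain ⟨C₁, hC₁, hKV⟩ := Op_KV.{u, v} hc hχ A l h
  choose Cw hCw0 hCw using fun β : List (Fin d) => wda_bound.{u, v} (c := c) A x x⁻¹ β
  obtain ⟨C₂, hC₂⟩ := ((List.finite_length_le (Fin d) (2 * l)).image Cw).bddAbove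
  have hC₂' : ∀ γ : List (Fin d), γ.length ≤ 2 * l → Cw γ ≤ max C₂ 0 := fun γ hγ =>
    (hC₂ (mem_image_of_mem Cw hγ)).trans (le_max_left _ _)
  have hC₂0 : 0 ≤ max C₂ 0 := le_max_right _ _
  generalize max C₂ 0 = C₃ at hC₂' hC₂0
  refine ⟨C₁ * C₃, mul_nonneg hC₁ hC₂0, ?_⟩
  intro V E H _ _ _ _ _ _ _ _ L act π ι PV J hM hG hPV hJ n m hn hm v T hT
  have hn0 : 0 < n := lt_of_lt_of_le one_pos hn
  have hT0 : 0 ≤ T := by
    have h1 := hT [] (Nat.zero_le _)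
    rw [List.length_nil, pow_zero, one_mul] at h1
    exact (norm_nonneg _).trans h1
  let R₀ : Cal.{u, v} c A := ⟨V, E, H, π, L, ι, J, hG.rp.one, hG.rp.mul, hG.rp.cont, hG.der, hJ⟩
  let R : Cal.{u, v} c A := R₀.tw hc x
  have hwd : ∀ γ : List (Fin d), wd R.L γ v = wda c L x⁻¹ γ v := fun γ =>
    E9c_wd (E := E) (H := H) L R.L x⁻¹ (fun _ => rfl) γ v
  have hRT : ∀ γ : List (Fin d), γ.length ≤ 2 * l →
      ‖R.J (R.ι (wd R.L γ v))‖ ≤ n ^ γ.length * (C₃ * T) := by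
    intro γ hγ
    have h1 := hCw γ R₀ v (n ^ γ.length * T) (fun γ' hγ' => by
      have h2 := hT γ' (hγ'.trans_le hγ)
      rw [hγ'] at h2
      exact h2)
    rw [hwd γ]
    refine le_trans (h1 : ‖J (π x (ι (wda c L x⁻¹ γ v)))‖ ≤ _) ?_
    calc Cw γ * (n ^ γ.length * T) ≤ C₃ * (n ^ γ.length * T) :=
          mul_le_mul_of_nonneg_right (hC₂' γ hγ) (by positivity)
      _ = n ^ γ.length * (C₃ * T) := by ring
  obtain ⟨F, hF⟩ : ∃ F : List (Fin d) → E, F = fun β => OpW χ R n h β v := ⟨_, rfl⟩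
  have hkv : ‖J (KV c F l [] -
      ((n : ℝ) : ℂ) ^ (2 * l) • Op c χ π n (KD c l h) (π x (ι v)))‖ ≤
        C₁ * n ^ (2 * l) / n * (C₃ * T) := by
    rw [hF]
    exact hKV R n hn v (C₃ * T) hRT
  have hder : ∀ (i : Fin d) (β : List (Fin d)), i ∈ c.kI →
      HasDerivAt (fun t : ℝ => π (c.ex (t • eb i)) (F β)) (F (i :: β)) 0 := by
    intro i β _
    rw [hF]
    exact OpW_der hc hχ R hn h.continuous i β v
  have htail := PV_tail hc hM hG hPV hJ l (F []) (KV c F l [])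
    (fun S => PV_KV hc hM hG hPV F hder S l []) hm
  have hnil : F [] = Op c χ π n h (π x (ι v)) := by
    rw [hF]
    exact OpW_nil R n h v
  rw [hnil] at htail
  refine htail.trans ?_
  have hnorm : ‖J (Op c χ π n (KD c l h) (π x (ι v)))‖ ≤
      Real.exp A * (∫ Y, ‖(KD c l h) Y‖) * ‖J (π x (ι v))‖ :=
    Op_norm hc hχ R₀ hn (KD c l h).continuous (KD c l h).integrable (π x (ι v))
  have hJx : ‖J (π x (ι v))‖ ≤ c.M x ^ A * ‖J (ι v)‖ := hJ x (ι v)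
  have hint : 0 ≤ ∫ Y, ‖(KD c l h) Y‖ := integral_nonneg fun Y => norm_nonneg _
  have hsplit : J (KV c F l []) =
      J (KV c F l [] - ((n : ℝ) : ℂ) ^ (2 * l) • Op c χ π n (KD c l h) (π x (ι v))) +
      ((n : ℝ) : ℂ) ^ (2 * l) • J (Op c χ π n (KD c l h) (π x (ι v))) := by
    rw [map_sub, map_smul, sub_add_cancel]
  have hnn : ‖(((n : ℝ) : ℂ) ^ (2 * l))‖ = n ^ (2 * l) := by
    rw [norm_pow, Complex.norm_real, Real.norm_of_nonneg hn0.le]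
  rw [hsplit]
  refine (norm_add_le _ _).trans ?_
  rw [norm_smul, hnn]
  have h5 : ‖J (Op c χ π n (KD c l h) (π x (ι v)))‖ ≤
      Real.exp A * (∫ Y, ‖(KD c l h) Y‖) * (c.M x ^ A * ‖J (ι v)‖) :=
    hnorm.trans (mul_le_mul_of_nonneg_left hJx (mul_nonneg (Real.exp_pos _).le hint))
  have h6 := mul_le_mul_of_nonneg_left h5 (pow_nonneg hn0.le (2 * l))
  calc _ ≤ C₁ * n ^ (2 * l) / n * (C₃ * T) + n ^ (2 * l) *
        (Real.exp A * (∫ Y, ‖(KD c l h) Y‖) * (c.M x ^ A * ‖J (ι v)‖)) := add_le_add hkv h6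
    _ = _ := by ring

end Pool.Agent.RG
end

section

/-! E9: the tail estimate for `Op(h)` -/
end

section

/-!
# F1b: a Bernstein inequality
-/

namespace Pool.Agent.RG

open MeasureTheory Topology Filter Set
open scoped SchwartzMap LineDeriv FourierTransform

universe u

private theorem F1b_lineDeriv {d : ℕ} (h : 𝓢(Ed d, ℂ)) (i : Fin d) (ξ : Ed d) :
    (𝓕 (∂_{eb i} h : 𝓢(Ed d, ℂ))) ξ = (2 * Real.pi * Complex.I) * (ξ i : ℂ) * (𝓕 h) ξ := by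
  have ht : (fun x : Ed d => (inner ℝ x (eb i) : ℝ)).HasTemperateGrowth := by fun_prop
  rw [SchwartzMap.fourier_lineDerivOp_eq]
  have hin : (inner ℝ ξ (eb i) : ℝ) = ξ i := by
    simp [eb, EuclideanSpace.inner_single_right]
  simp only [smul_apply]
  rw [SchwartzMap.smulLeftCLM_apply_apply ht, hin]
  simp [mul_assoc]

private noncomputable def F1b_sc {d : ℕ} (ρ : ℝ) (hρ : ρ ≠ 0) : Ed d ≃L[ℝ] Ed d :=
  ContinuousLinearEquiv.equivOfInverse (ρ • ContinuousLinearMap.id ℝ (Ed d))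
    (ρ⁻¹ • ContinuousLinearMap.id ℝ (Ed d))
    (fun x => by simp [smul_smul, mul_inv_cancel₀ hρ])
    (fun x => by simp [smul_smul, inv_mul_cancel₀ hρ])

private theorem F1b_sc_apply {d : ℕ} (ρ : ℝ) (hρ : ρ ≠ 0) (x : Ed d) :
    F1b_sc ρ hρ x = ρ • x := by
  simp [F1b_sc]

private noncomputable def F1b_dil {d : ℕ} (ρ : ℝ) (hρ : ρ ≠ 0) (f : 𝓢(Ed d, ℂ)) :
    𝓢(Ed d, ℂ) :=
  ((ρ ^ d : ℝ) : ℂ) • SchwartzMap.compCLMOfContinuousLinearEquiv ℂ (F1b_sc ρ hρ) f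

private theorem F1b_dil_apply {d : ℕ} (ρ : ℝ) (hρ : ρ ≠ 0) (f : 𝓢(Ed d, ℂ)) (Y : Ed d) :
    F1b_dil ρ hρ f Y = ((ρ ^ d : ℝ) : ℂ) * f (ρ • Y) := by
  simp [F1b_dil, F1b_sc_apply]

private theorem F1b_dil_fourier {d : ℕ} (ρ : ℝ) (hρ : 0 < ρ) (f : 𝓢(Ed d, ℂ)) (ξ : Ed d) :
    (𝓕 (F1b_dil ρ hρ.ne' f)) ξ = (𝓕 f) (ρ⁻¹ • ξ) := by
  rw [SchwartzMap.fourier_coe, SchwartzMap.fourier_coe, Real.fourier_eq, Real.fourier_eq]
  have h1 : ∀ Y : Ed d, Real.fourierChar (-(inner ℝ Y ξ : ℝ)) • (F1b_dil ρ hρ.ne' f) Y =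
      ((ρ ^ d : ℝ) : ℂ) * (fun Z : Ed d =>
        Real.fourierChar (-(inner ℝ Z (ρ⁻¹ • ξ) : ℝ)) • f Z) (ρ • Y) := by
    intro Y
    simp only [F1b_dil_apply]
    have h2 : (inner ℝ (ρ • Y) (ρ⁻¹ • ξ) : ℝ) = inner ℝ Y ξ := by
      rw [inner_smul_left, inner_smul_right]
      simp only [conj_trivial]
      rw [← mul_assoc, mul_inv_cancel₀ hρ.ne', one_mul]
    rw [h2]
    simp only [Circle.smul_def, smul_eq_mul]
    ring
  rw [integral_congr_ae (Filter.Eventually.of_forall h1)]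
  rw [integral_const_mul, Measure.integral_comp_smul_of_nonneg _ (fun Z : Ed d =>
        Real.fourierChar (-(inner ℝ Z (ρ⁻¹ • ξ) : ℝ)) • f Z) ρ (hR := hρ.le)]
  simp only [finrank_euclideanSpace, Fintype.card_fin]
  rw [Complex.real_smul, ← mul_assoc, ← Complex.ofReal_mul,
    mul_inv_cancel₀ (pow_ne_zero d hρ.ne')]
  simp

private theorem F1b_dil_deriv {d : ℕ} (ρ : ℝ) (hρ : 0 < ρ) (f : 𝓢(Ed d, ℂ)) (i : Fin d) :
    ∫ Y, ‖(∂_{eb i} (F1b_dil ρ hρ.ne' f) : 𝓢(Ed d, ℂ)) Y‖ =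
      ρ * ∫ Y, ‖(∂_{eb i} f : 𝓢(Ed d, ℂ)) Y‖ := by
  have h1 : ∀ Y : Ed d, ‖(∂_{eb i} (F1b_dil ρ hρ.ne' f) : 𝓢(Ed d, ℂ)) Y‖ =
      (ρ ^ d * ρ) * (fun Z : Ed d => ‖(∂_{eb i} f : 𝓢(Ed d, ℂ)) Z‖) (ρ • Y) := by
    intro Y
    have h2 : (∂_{eb i} (F1b_dil ρ hρ.ne' f) : 𝓢(Ed d, ℂ)) =
        ((ρ ^ d : ℝ) : ℂ) • (SchwartzMap.compCLMOfContinuousLinearEquiv ℂ (F1b_sc ρ hρ.ne')
          (ρ • (∂_{eb i} f : 𝓢(Ed d, ℂ)))) := by
      unfold F1b_dil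
      rw [LineDeriv.lineDerivOp_smul, SchwartzMap.lineDerivOp_compCLMOfContinuousLinearEquiv,
        F1b_sc_apply, LineDeriv.lineDerivOp_left_smul]
    rw [h2]
    simp only [smul_apply, SchwartzMap.compCLMOfContinuousLinearEquiv_apply,
      Function.comp_apply, F1b_sc_apply, smul_eq_mul, norm_mul]
    rw [norm_smul, Complex.norm_real, Real.norm_of_nonneg (pow_nonneg hρ.le d),
      Real.norm_of_nonneg hρ.le]
    ring
  rw [integral_congr_ae (Filter.Eventually.of_forall h1)]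
  rw [integral_const_mul, Measure.integral_comp_smul_of_nonneg _
    (fun Z : Ed d => ‖(∂_{eb i} f : 𝓢(Ed d, ℂ)) Z‖) ρ (hR := hρ.le)]
  simp only [finrank_euclideanSpace, Fintype.card_fin, smul_eq_mul]
  have := pow_ne_zero d hρ.ne'
  field_simp

private theorem F1b_theta (d : ℕ) : ∃ θ : 𝓢(Ed d, ℂ), ∀ ξ, ‖ξ‖ ≤ 1 → θ ξ = 1 := by
  let b : ContDiffBump (0 : Ed d) := ⟨1, 2, by norm_num, by norm_num⟩
  have h1 : HasCompactSupport fun x : Ed d => ((b x : ℝ) : ℂ) :=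
    b.hasCompactSupport.comp_left (g := fun x : ℝ => (x : ℂ)) (by simp)
  have h2 : ContDiff ℝ (⊤ : ℕ∞) fun x : Ed d => ((b x : ℝ) : ℂ) :=
    Complex.ofRealCLM.contDiff.comp b.contDiff
  refine ⟨h1.toSchwartzMap h2, fun ξ hξ => ?_⟩
  have : b ξ = 1 := b.one_of_mem_closedBall (by simpa using hξ)
  simp [this]

/-- BERNSTEIN.
PROOF. Let `θ` be a smooth compactly supported function on `Ed d` with `θ = 1` on the closed unit ball (`ContDiffBump`), `Θ = 𝓕⁻ θ` (Schwartz). Put `c₀ = max_i ∫ ‖∂_i Θ‖`. Given `ρ > 0`, let `Θ_ρ Y = ρ^d Θ(ρ Y)`, a Schwartz function with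
`𝓕 Θ_ρ ξ = θ(ξ/ρ)` (`SchwartzMap.compCLMOfContinuousLinearEquiv` or simply `Θ_ρ := 𝓕⁻ (θ(·/ρ))` and compute `∂_i`), `∂_i Θ_ρ Y = ρ^(d+1) (∂_i Θ)(ρ Y)`, so `∫ ‖∂_i Θ_ρ‖ = ρ ∫ ‖∂_i Θ‖ ≤ c₀ ρ` (scaling `MeasureTheory.Measure.integral_comp_smul`). Now
`𝓕 (∂_i h) ξ = 2πi ξ_i 𝓕 h ξ = 2πi ξ_i θ(ξ/ρ) 𝓕 h ξ = 𝓕 (∂_i Θ_ρ) ξ * 𝓕 h ξ` (`SchwartzMap.fourier_lineDerivOp_eq`; `θ(ξ/ρ) = 1` if `‖ξ‖ ≤ ρ`, and `𝓕 h ξ = 0` otherwise). Apply `l1_mul`. -/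
theorem bernstein (d : ℕ) : ∃ c₀ : ℝ, 0 ≤ c₀ ∧ ∀ (ρ : ℝ), 0 < ρ → ∀ h : 𝓢(Ed d, ℂ),
    (∀ ξ, ρ < ‖ξ‖ → (𝓕 h) ξ = 0) → ∀ i : Fin d,
      ∫ Y, ‖(∂_{eb i} h : 𝓢(Ed d, ℂ)) Y‖ ≤ c₀ * ρ * ∫ Y, ‖h Y‖ := by
  obtain ⟨θ, hθ⟩ := F1b_theta d
  refine ⟨∑ i : Fin d, ∫ Y, ‖(∂_{eb i} (𝓕⁻ θ : 𝓢(Ed d, ℂ)) : 𝓢(Ed d, ℂ)) Y‖,
    Finset.sum_nonneg fun i _ => integral_nonneg fun Y => norm_nonneg _, ?_⟩
  intro ρ hρ h hh i
  have h1 := l1_mul (∂_{eb i} h : 𝓢(Ed d, ℂ))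
    (∂_{eb i} (F1b_dil ρ hρ.ne' (𝓕⁻ θ : 𝓢(Ed d, ℂ))) : 𝓢(Ed d, ℂ)) h (by
      intro ξ
      rw [F1b_lineDeriv, F1b_lineDeriv, F1b_dil_fourier ρ hρ, FourierTransform.fourier_fourierInv_eq]
      by_cases hξ : ‖ξ‖ ≤ ρ
      · have : θ (ρ⁻¹ • ξ) = 1 := hθ _ (by
          rw [norm_smul, norm_inv, Real.norm_of_nonneg hρ.le, inv_mul_le_iff₀ hρ]
          simpa using hξ)
        rw [this, mul_one]
      · rw [hh ξ (not_le.mp hξ)]
        simp)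
  refine h1.trans ?_
  rw [F1b_dil_deriv ρ hρ]
  refine mul_le_mul_of_nonneg_right ?_ (integral_nonneg fun Y => norm_nonneg _)
  rw [mul_comm]
  refine mul_le_mul_of_nonneg_right ?_ hρ.le
  exact Finset.single_le_sum (f := fun i : Fin d =>
    ∫ Y, ‖(∂_{eb i} (𝓕⁻ θ : 𝓢(Ed d, ℂ)) : 𝓢(Ed d, ℂ)) Y‖)
    (fun i _ => integral_nonneg fun Y => norm_nonneg _) (Finset.mem_univ i)

end Pool.Agent.RG
end

section

/-! F1: a Bernstein inequality -/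
end

section

/-!
# F2b: the decomposition of a band limited kernel
-/

namespace Pool.Agent.RG

open MeasureTheory Topology Filter Set
open scoped SchwartzMap LineDeriv FourierTransform ContDiff Manifold

universe u

section

variable {G : Type u} {d : ℕ}

/-- The kernels which have a decomposition. -/
private def F2b_P (c : Core G d) (ρ : ℝ) (b : 𝓢(Ed d, ℂ)) : Prop :=
  ∃ (p q : ℕ) (k : Fin p → ℕ) (h : Fin p → 𝓢(Ed d, ℂ)) (x : Fin q → G)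
    (g : Fin q → 𝓢(Ed d, ℂ)), (∀ a, 1 ≤ k a) ∧
    b = (∑ a, PD c (k a) (h a)) + ∑ j, g j ∧
    ∀ j ξ, ρ ≤ ‖ContinuousLinearMap.adjoint (c.ad (x j)) ξ‖ → (𝓕 (g j)) ξ = 0

private theorem F2b_zero (c : Core G d) (ρ : ℝ) : F2b_P c ρ 0 :=
  ⟨0, 0, Fin.elim0, Fin.elim0, Fin.elim0, Fin.elim0, fun a => a.elim0, by simp,
    fun j => j.elim0⟩

private theorem F2b_add {c : Core G d} {ρ : ℝ} {b b' : 𝓢(Ed d, ℂ)} (hb : F2b_P c ρ b)
    (hb' : F2b_P c ρ b') : F2b_P c ρ (b + b') := by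
  obtain ⟨p, q, k, h, x, g, h1, h2, h3⟩ := hb
  obtain ⟨p', q', k', h', x', g', h1', h2', h3'⟩ := hb'
  refine ⟨p + p', q + q', Fin.append k k', Fin.append h h', Fin.append x x', Fin.append g g',
    ?_, ?_, ?_⟩
  · intro a
    refine Fin.addCases (fun i => ?_) (fun i => ?_) a
    · rw [Fin.append_left]
      exact h1 i
    · rw [Fin.append_right]
      exact h1' i
  · rw [h2, h2', Fin.sum_univ_add, Fin.sum_univ_add]
    simp only [Fin.append_left, Fin.append_right]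
    abel
  · intro j
    refine Fin.addCases (fun i => ?_) (fun i => ?_) j
    · rw [Fin.append_left, Fin.append_left]
      exact h3 i
    · rw [Fin.append_right, Fin.append_right]
      exact h3' i

private theorem F2b_pol (c : Core G d) (k : ℕ) : ContDiff ℝ ∞ (c.pol k) := by
  unfold Core.pol
  refine ContDiff.sum fun β _ => contDiff_const.mul (contDiff_prod fun l _ => ?_)
  exact (EuclideanSpace.proj (β l) : Ed d →L[ℝ] ℝ).contDiff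

/-- A kernel with Fourier transform supported where `pol k` is not zero. -/
private theorem F2b_div {c : Core G d} {ρ : ℝ} {k : ℕ} (hk : 1 ≤ k) (F : 𝓢(Ed d, ℂ))
    (hF : HasCompactSupport F) (hs : tsupport F ⊆ {ξ | c.pol k ξ ≠ 0}) : F2b_P c ρ (𝓕⁻ F) := by
  set m : Ed d → ℂ := fun ξ => (-(2 * Real.pi * Complex.I)) ^ k * (c.pol k ξ : ℂ) with hm
  have hmsm : ContDiff ℝ ∞ m :=
    contDiff_const.mul (Complex.ofRealCLM.contDiff.comp (F2b_pol c k))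
  have hc0 : (-(2 * Real.pi * Complex.I)) ^ k ≠ 0 := by
    refine pow_ne_zero _ (neg_ne_zero.mpr ?_)
    simp [Real.pi_ne_zero]
  have hm0 : ∀ ξ ∈ tsupport F, m ξ ≠ 0 := fun ξ hξ =>
    mul_ne_zero hc0 (Complex.ofReal_ne_zero.mpr (hs hξ))
  have hQ : ContDiff ℝ ∞ fun ξ => F ξ / m ξ := by
    rw [contDiff_iff_contDiffAt]
    intro ξ
    by_cases hξ : ξ ∈ tsupport F
    · simp only [div_eq_mul_inv]
      exact (F.smooth ⊤).contDiffAt.mul (hmsm.contDiffAt.inv (hm0 ξ hξ))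
    · have h1 : (fun ξ => F ξ / m ξ) =ᶠ[𝓝 ξ] fun _ => 0 := by
        have h2 : (F : Ed d → ℂ) =ᶠ[𝓝 ξ] 0 := notMem_tsupport_iff_eventuallyEq.mp hξ
        filter_upwards [h2] with y hy
        rw [hy]
        simp
      exact contDiffAt_const.congr_of_eventuallyEq h1
  have hQc : HasCompactSupport fun ξ => F ξ / m ξ := by
    have h1 : (fun ξ => F ξ / m ξ) = fun ξ => F ξ * (m ξ)⁻¹ := by
      ext ξ
      exact div_eq_mul_inv _ _
    rw [h1]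
    exact hF.mul_right
  set q : 𝓢(Ed d, ℂ) := hQc.toSchwartzMap hQ with hq
  refine ⟨1, 0, fun _ => k, fun _ => 𝓕⁻ q, Fin.elim0, Fin.elim0, fun _ => hk, ?_,
    fun j => j.elim0⟩
  have h1 : 𝓕 (PD c k (𝓕⁻ q)) = F := by
    ext ξ
    rw [fourier_PD, FourierTransform.fourier_fourierInv_eq]
    change m ξ * (F ξ / m ξ) = F ξ
    by_cases hξ : ξ ∈ tsupport F
    · exact mul_div_cancel₀ _ (hm0 ξ hξ)
    · rw [image_eq_zero_of_notMem_tsupport hξ]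
      simp
  have h2 : 𝓕⁻ F = PD c k (𝓕⁻ q) := by
    rw [← h1, FourierTransform.fourierInv_fourier_eq]
  rw [h2]
  simp

end

/-- DECOMPOSITION.
PROOF. The sets `U_k = {ξ | pol k ξ ≠ 0}` (`k ≥ 1`) and `W_x = {ξ | ‖adjoint (ad x) ξ‖ < ρ}` (`x ∈ G`) are open and cover `Ed d` by `hc.geo`. The support `S = tsupport (𝓕 b)` is compact, so finitely many of them cover `S`; take a smooth partition of unity
on `S` subordinate to this finite cover: smooth `ψ_1..ψ_N : Ed d → ℝ` with `Σ ψ_a = 1` on `S` and `tsupport ψ_a ⊂ O_a` (`SmoothPartitionOfUnity.exists_isSubordinate` for the manifold `Ed d` and the closed set `S`; or by hand from bump functions). For each `a` let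
`f_a = ψ_a 𝓕 b`, a smooth function with compact support in `O_a`, `Σ f_a = 𝓕 b`. If `O_a = W_x` put `g = 𝓕⁻ f_a`. If `O_a = U_k` then `f_a / ((-(2πi))^k pol k)` (extended by `0`) is smooth with compact support (`tsupport f_a ⊂ U_k`), and `c = 𝓕⁻` of it satisfies
`𝓕 (PD c k c) = f_a` (`fourier_PD`). Sum up; `𝓕` is injective on Schwartz functions. -/
theorem exists_decomp {G : Type u} [Group G] [TopologicalSpace G] {d : ℕ} {c : Core G d}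
    (hc : IsCore c) (b : 𝓢(Ed d, ℂ)) (hb : HasCompactSupport fun ξ => (𝓕 b) ξ) (ρ : ℝ)
    (hρ : 0 < ρ) :
    ∃ (p q : ℕ) (k : Fin p → ℕ) (h : Fin p → 𝓢(Ed d, ℂ)) (x : Fin q → G)
      (g : Fin q → 𝓢(Ed d, ℂ)), (∀ a, 1 ≤ k a) ∧
      b = (∑ a, PD c (k a) (h a)) + ∑ j, g j ∧
      ∀ j ξ, ρ ≤ ‖ContinuousLinearMap.adjoint (c.ad (x j)) ξ‖ → (𝓕 (g j)) ξ = 0 := by
  set S : Set (Ed d) := tsupport fun ξ => (𝓕 b) ξ with hS
  have hSc : IsCompact S := hb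
  set O : ℕ ⊕ G → Set (Ed d) := Sum.elim (fun k => {ξ | c.pol (k + 1) ξ ≠ 0})
    (fun x => {ξ | ‖ContinuousLinearMap.adjoint (c.ad x) ξ‖ < ρ}) with hO
  have hOo : ∀ i, IsOpen (O i) := by
    rintro (k | x)
    · exact isOpen_ne_fun (F2b_pol c (k + 1)).continuous continuous_const
    · exact isOpen_lt (ContinuousLinearMap.adjoint (c.ad x)).continuous.norm continuous_const
  have hOc : S ⊆ ⋃ i, O i := by
    intro ξ _
    by_contra hξ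
    have hξ' : ∀ i, ξ ∉ O i := fun i hi => hξ (mem_iUnion.mpr ⟨i, hi⟩)
    obtain ⟨x, hx⟩ := hc.geo ξ (fun k hk => by
      by_contra h0
      obtain ⟨l, rfl⟩ : ∃ l, k = l + 1 := ⟨k - 1, by omega⟩
      exact hξ' (Sum.inl l) h0) ρ hρ
    exact hξ' (Sum.inr x) hx
  obtain ⟨t, ht⟩ := hSc.elim_finite_subcover O hOo hOc
  obtain ⟨f, hf⟩ := SmoothPartitionOfUnity.exists_isSubordinate (ι := t) (𝓘(ℝ, Ed d))
    (s := S) (isClosed_tsupport _) (fun i => O i) (fun i => hOo i) (by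
      intro ξ hξ
      obtain ⟨i, hi, hi'⟩ := mem_iUnion₂.mp (ht hξ)
      exact mem_iUnion.mpr ⟨⟨i, hi⟩, hi'⟩)
  have hfs : ∀ i, ContDiff ℝ ∞ (f i) := fun i => (f i).contMDiff.contDiff
  have hFs : ∀ i, ContDiff ℝ ∞ fun ξ => ((f i ξ : ℝ) : ℂ) * (𝓕 b) ξ := fun i =>
    (Complex.ofRealCLM.contDiff.comp (hfs i)).mul ((𝓕 b).smooth ⊤)
  have hFc : ∀ i, HasCompactSupport fun ξ => ((f i ξ : ℝ) : ℂ) * (𝓕 b) ξ := fun i =>
    HasCompactSupport.mul_left (f := fun ξ => ((f i ξ : ℝ) : ℂ)) hb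
  set F : t → 𝓢(Ed d, ℂ) := fun i => (hFc i).toSchwartzMap (hFs i) with hF
  have hFapp : ∀ i ξ, F i ξ = ((f i ξ : ℝ) : ℂ) * (𝓕 b) ξ := fun _ _ => rfl
  have hsupp : ∀ i, tsupport (F i) ⊆ O i := by
    intro i
    refine Subset.trans (closure_mono ?_) (hf i)
    intro ξ hξ
    rw [Function.mem_support] at hξ ⊢
    intro h0
    apply hξ
    rw [hFapp, h0]
    simp
  have hsum : 𝓕 b = ∑ i, F i := by
    ext ξ
    rw [_root_.sum_apply]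
    simp only [hFapp]
    rw [← Finset.sum_mul]
    by_cases hξ : ξ ∈ S
    · have h1 := f.sum_eq_one hξ
      rw [finsum_eq_sum_of_fintype] at h1
      rw [← Complex.ofReal_sum, h1]
      simp
    · have h1 : (𝓕 b) ξ = 0 := image_eq_zero_of_notMem_tsupport hξ
      rw [h1]
      simp
  have hP : F2b_P c ρ b := by
    have h1 : b = ∑ i, 𝓕⁻ (F i) := by
      rw [← FourierTransform.fourierInv_sum, ← hsum, FourierTransform.fourierInv_fourier_eq]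
    rw [h1]
    refine Finset.sum_induction _ _ (fun _ _ => F2b_add) (F2b_zero c ρ) ?_
    rintro ⟨i, hi⟩ _
    rcases i with k | x
    · exact F2b_div (Nat.le_add_left 1 k) _ (hFc _) (hsupp _)
    · refine ⟨0, 1, Fin.elim0, Fin.elim0, fun _ => x, fun _ => 𝓕⁻ (F ⟨Sum.inr x, hi⟩),
        fun a => a.elim0, by simp, ?_⟩
      intro _ ξ hξ
      rw [FourierTransform.fourier_fourierInv_eq]
      refine image_eq_zero_of_notMem_tsupport fun h2 => ?_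
      exact absurd (hsupp _ h2) (not_lt.mpr hξ)
  exact hP

end Pool.Agent.RG
end

section

/-!
# F2c: the decomposition of a band limited kernel
-/

namespace Pool.Agent.RG

open MeasureTheory Topology Filter Set
open scoped SchwartzMap LineDeriv FourierTransform

universe u

/-- the bump function as a Schwartz function -/
private noncomputable def F2c_th (d : ℕ) : 𝓢(Ed d, ℂ) :=
  HasCompactSupport.toSchwartzMap
    (f := fun ξ : Ed d => (((⟨1, 2, one_pos, one_lt_two⟩ : ContDiffBump (0 : Ed d)) ξ : ℝ) : ℂ))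
    ((ContDiffBump.hasCompactSupport _).comp_left (g := fun x : ℝ => (x : ℂ))
      Complex.ofReal_zero)
    (Complex.ofRealCLM.contDiff.comp (ContDiffBump.contDiff _))

private theorem F2c_th_zero (d : ℕ) : F2c_th d 0 = 1 := by
  have h : (⟨1, 2, one_pos, one_lt_two⟩ : ContDiffBump (0 : Ed d)) 0 = 1 :=
    ContDiffBump.one_of_mem_closedBall _ (Metric.mem_closedBall_self (by norm_num))
  show (((⟨1, 2, one_pos, one_lt_two⟩ : ContDiffBump (0 : Ed d)) 0 : ℝ) : ℂ) = 1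
  rw [h, Complex.ofReal_one]

private theorem F2c_th_supp (d : ℕ) : HasCompactSupport (F2c_th d) :=
  (ContDiffBump.hasCompactSupport
    (⟨1, 2, one_pos, one_lt_two⟩ : ContDiffBump (0 : Ed d))).comp_left (g := fun x : ℝ => (x : ℂ))
      Complex.ofReal_zero

/-- the dilation -/
private noncomputable def F2c_dil (d : ℕ) (s : ℝ) (hs : 0 < s) : 𝓢(Ed d, ℂ) :=
  ((s ^ d : ℝ) : ℂ) • SchwartzMap.compCLMOfContinuousLinearEquiv ℂ
    (ContinuousLinearEquiv.smulLeft (R₁ := ℝ) (M₁ := Ed d) (Units.mk0 s hs.ne'))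
    (𝓕⁻ (F2c_th d))

private theorem F2c_dil_apply (d : ℕ) (s : ℝ) (hs : 0 < s) (Y : Ed d) :
    F2c_dil d s hs Y = ((s ^ d : ℝ) : ℂ) * (𝓕⁻ (F2c_th d)) (s • Y) := by
  rfl

private theorem F2c_scale (d : ℕ) {E : Type*} [NormedAddCommGroup E] [NormedSpace ℝ E] (s : ℝ)
    (hs : 0 < s) (f : Ed d → E) : ∫ Y : Ed d, f (s • Y) = (s ^ d)⁻¹ • ∫ Y : Ed d, f Y := by
  rw [Measure.integral_comp_smul, finrank_euclideanSpace_fin, abs_of_pos (by positivity)]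

private theorem F2c_fourier (d : ℕ) (s : ℝ) (hs : 0 < s) (ξ : Ed d) :
    (𝓕 (F2c_dil d s hs)) ξ = F2c_th d (s⁻¹ • ξ) := by
  have h1 : (𝓕 (F2c_dil d s hs)) ξ = 𝓕 (F2c_dil d s hs : Ed d → ℂ) ξ := rfl
  have h2 : F2c_th d (s⁻¹ • ξ) = 𝓕 (𝓕⁻ (F2c_th d) : 𝓢(Ed d, ℂ)) (s⁻¹ • ξ) := by
    rw [FourierTransform.fourier_fourierInv_eq]
  have h3 : 𝓕 (𝓕⁻ (F2c_th d) : 𝓢(Ed d, ℂ)) (s⁻¹ • ξ) =
      𝓕 ((𝓕⁻ (F2c_th d) : 𝓢(Ed d, ℂ)) : Ed d → ℂ) (s⁻¹ • ξ) := rfl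
  rw [h1, h2, h3, Real.fourier_eq, Real.fourier_eq]
  have h4 : ∀ Y : Ed d, 𝐞 (-inner ℝ Y ξ) • F2c_dil d s hs Y =
      ((s ^ d : ℝ) : ℂ) * (fun Z : Ed d => 𝐞 (-inner ℝ Z (s⁻¹ • ξ)) •
        (𝓕⁻ (F2c_th d) : 𝓢(Ed d, ℂ)) Z) (s • Y) := by
    intro Y
    rw [F2c_dil_apply]
    have h5 : inner ℝ (s • Y) (s⁻¹ • ξ) = inner ℝ Y ξ := by
      rw [inner_smul_left, inner_smul_right, conj_trivial, ← mul_assoc, mul_inv_cancel₀ hs.ne',
        one_mul]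
    simp only [h5]
    rw [Circle.smul_def, Circle.smul_def, smul_eq_mul, smul_eq_mul]
    ring
  have h7 := F2c_scale d s hs (fun Z : Ed d => 𝐞 (-inner ℝ Z (s⁻¹ • ξ)) •
    (𝓕⁻ (F2c_th d) : 𝓢(Ed d, ℂ)) Z)
  rw [integral_congr_ae (ae_of_all _ h4), integral_const_mul, h7,
    Complex.real_smul, ← mul_assoc]
  have h6 : ((s ^ d : ℝ) : ℂ) * (((s ^ d)⁻¹ : ℝ) : ℂ) = 1 := by
    rw [← Complex.ofReal_mul, mul_inv_cancel₀ (by positivity), Complex.ofReal_one]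
  rw [h6, one_mul]

/-- Good kernels.
PROOF. Let `θ : Ed d → ℂ` be smooth with compact support and `θ 0 = 1`, `B = 𝓕⁻ θ`, and for `s > 0` `B_s = 𝓕⁻ (θ(·/s))`, i.e. `B_s Y = s^d B(s Y)`. Then `∫ B_s = 𝓕 B_s 0 = θ 0 = 1`, `∫ ‖Y‖ ‖B_s Y‖ = s⁻¹ ∫ ‖Y‖ ‖B Y‖ ≤ ε` for large `s`, and
`𝓕 B_s = θ(·/s)` has compact support. -/
theorem exists_kernel (d : ℕ) (ε : ℝ) (hε : 0 < ε) :
    ∃ b : 𝓢(Ed d, ℂ), (∫ Y, b Y = 1) ∧ (∫ Y, ‖Y‖ * ‖b Y‖ ≤ ε) ∧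
      HasCompactSupport fun ξ => (𝓕 b) ξ := by
  obtain ⟨C, hC⟩ : ∃ C : ℝ, C = ∫ Y : Ed d, ‖Y‖ * ‖(𝓕⁻ (F2c_th d) : 𝓢(Ed d, ℂ)) Y‖ := ⟨_, rfl⟩
  have hC0 : 0 ≤ C := by
    rw [hC]
    exact integral_nonneg fun Y => by positivity
  obtain ⟨s, hs, hs1⟩ : ∃ s : ℝ, 0 < s ∧ C / s ≤ ε := by
    refine ⟨(C + 1) / ε, by positivity, ?_⟩
    rw [div_le_iff₀ (by positivity)]
    field_simp
    linarith
  refine ⟨F2c_dil d s hs, ?_, ?_, ?_⟩
  · have h1 := F2c_fourier d s hs 0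
    rw [smul_zero, F2c_th_zero] at h1
    have h2 : (𝓕 (F2c_dil d s hs)) 0 = 𝓕 (F2c_dil d s hs : Ed d → ℂ) 0 := rfl
    rw [h2, Real.fourier_eq] at h1
    simpa using h1
  · have h1 : ∀ Y : Ed d, ‖Y‖ * ‖F2c_dil d s hs Y‖ =
        (s ^ d * s⁻¹) * (fun Z : Ed d => ‖Z‖ * ‖(𝓕⁻ (F2c_th d) : 𝓢(Ed d, ℂ)) Z‖) (s • Y) := by
      intro Y
      simp only []
      rw [F2c_dil_apply, norm_mul, norm_smul, Complex.norm_real, Real.norm_of_nonneg hs.le,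
        Real.norm_of_nonneg (by positivity : (0 : ℝ) ≤ s ^ d)]
      field_simp
    have h7 := F2c_scale d s hs (fun Z : Ed d => ‖Z‖ * ‖(𝓕⁻ (F2c_th d) : 𝓢(Ed d, ℂ)) Z‖)
    rw [integral_congr_ae (ae_of_all _ h1), integral_const_mul, h7, ← hC,
      smul_eq_mul]
    have h2 : s ^ d * s⁻¹ * ((s ^ d)⁻¹ * C) = C / s := by
      field_simp
    rw [h2]
    exact hs1
  · have h1 : (fun ξ => (𝓕 (F2c_dil d s hs)) ξ) = fun ξ => F2c_th d (s⁻¹ • ξ) := by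
      ext ξ
      exact F2c_fourier d s hs ξ
    rw [h1]
    exact (F2c_th_supp d).comp_smul (inv_ne_zero hs.ne')

end Pool.Agent.RG
end

section

/-! F2: the decomposition of a band limited kernel -/
end

section

/-!
# F3: iterated Bernstein inequality for the `K`-Laplacian
-/

namespace Pool.Agent.RG

open MeasureTheory Topology Filter Set
open scoped SchwartzMap LineDeriv FourierTransform

universe u

private lemma F3_vanish {d : ℕ} {ρ : ℝ} (h : 𝓢(Ed d, ℂ)) (hs : ∀ ξ, ρ < ‖ξ‖ → (𝓕 h) ξ = 0)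
    (m : Ed d) : ∀ ξ, ρ < ‖ξ‖ → (𝓕 (∂_{m} h : 𝓢(Ed d, ℂ))) ξ = 0 := by
  intro ξ hξ
  rw [SchwartzMap.fourier_lineDerivOp_eq]
  have ht : (fun x : Ed d => inner ℝ x m).HasTemperateGrowth :=
    ((innerSL ℝ).flip m).hasTemperateGrowth
  rw [SchwartzMap.smul_apply, SchwartzMap.smulLeftCLM_apply_apply ht, hs ξ hξ]
  simp

private lemma F3_neg {d : ℕ} {ρ : ℝ} (h : 𝓢(Ed d, ℂ)) (hs : ∀ ξ, ρ < ‖ξ‖ → (𝓕 h) ξ = 0) :
    ∀ ξ, ρ < ‖ξ‖ → (𝓕 (-h : 𝓢(Ed d, ℂ))) ξ = 0 := by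
  intro ξ hξ
  rw [FourierTransform.fourier_neg]
  simp [hs ξ hξ]

private lemma F3_sum {d : ℕ} {ρ : ℝ} (s : Finset (Fin d)) (F : Fin d → 𝓢(Ed d, ℂ))
    (hs : ∀ i ∈ s, ∀ ξ, ρ < ‖ξ‖ → (𝓕 (F i)) ξ = 0) :
    ∀ ξ, ρ < ‖ξ‖ → (𝓕 (∑ i ∈ s, F i : 𝓢(Ed d, ℂ))) ξ = 0 := by
  classical
  induction s using Finset.induction_on with
  | empty =>
    intro ξ hξ
    have : (𝓕 (0 : 𝓢(Ed d, ℂ))) = 0 := FourierTransform.fourier_zero ..
    simp [this]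
  | insert i s hi ih =>
    intro ξ hξ
    rw [Finset.sum_insert hi, FourierTransform.fourier_add]
    have h1 := hs i (Finset.mem_insert_self _ _) ξ hξ
    have h2 := ih (fun j hj => hs j (Finset.mem_insert_of_mem hj)) ξ hξ
    rw [SchwartzMap.add_apply, h1, h2, add_zero]

private lemma F3_KD1_vanish {G : Type u} {d : ℕ} (c : Core G d) {ρ : ℝ} (h : 𝓢(Ed d, ℂ))
    (hs : ∀ ξ, ρ < ‖ξ‖ → (𝓕 h) ξ = 0) : ∀ ξ, ρ < ‖ξ‖ → (𝓕 (KD1 c h)) ξ = 0 := by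
  unfold KD1
  exact F3_neg _ (F3_sum _ _ fun i _ => F3_vanish _ (F3_vanish _ hs _) _)

private lemma F3_one {G : Type u} {d : ℕ} (c : Core G d) {c₀ ρ : ℝ} (h0 : 0 ≤ c₀) (hρ : 0 < ρ)
    (hB : ∀ h : 𝓢(Ed d, ℂ), (∀ ξ, ρ < ‖ξ‖ → (𝓕 h) ξ = 0) → ∀ i : Fin d,
      ∫ Y, ‖(∂_{eb i} h : 𝓢(Ed d, ℂ)) Y‖ ≤ c₀ * ρ * ∫ Y, ‖h Y‖)
    (h : 𝓢(Ed d, ℂ)) (hs : ∀ ξ, ρ < ‖ξ‖ → (𝓕 h) ξ = 0) :
    ∫ Y, ‖(KD1 c h) Y‖ ≤ ((c.kI.card : ℝ) * (c₀ * ρ) ^ 2) * ∫ Y, ‖h Y‖ := by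
  have h1 : ∀ Y, ‖(KD1 c h) Y‖ ≤
      ∑ i ∈ c.kI, ‖(∂_{eb i} (∂_{eb i} h : 𝓢(Ed d, ℂ)) : 𝓢(Ed d, ℂ)) Y‖ := by
    intro Y
    have e : (KD1 c h) Y = -∑ i ∈ c.kI, (∂_{eb i} (∂_{eb i} h : 𝓢(Ed d, ℂ)) : 𝓢(Ed d, ℂ)) Y := by
      unfold KD1
      rw [SchwartzMap.neg_apply, SchwartzMap.sum_apply]
    rw [e, norm_neg]
    exact norm_sum_le _ _
  calc ∫ Y, ‖(KD1 c h) Y‖
      ≤ ∫ Y, ∑ i ∈ c.kI, ‖(∂_{eb i} (∂_{eb i} h : 𝓢(Ed d, ℂ)) : 𝓢(Ed d, ℂ)) Y‖ := by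
        refine integral_mono (SchwartzMap.integrable _).norm ?_ h1
        exact integrable_finset_sum _ fun i _ => (SchwartzMap.integrable _).norm
    _ = ∑ i ∈ c.kI, ∫ Y, ‖(∂_{eb i} (∂_{eb i} h : 𝓢(Ed d, ℂ)) : 𝓢(Ed d, ℂ)) Y‖ :=
        integral_finset_sum _ fun i _ => (SchwartzMap.integrable _).norm
    _ ≤ ∑ i ∈ c.kI, (c₀ * ρ) ^ 2 * ∫ Y, ‖h Y‖ := by
        refine Finset.sum_le_sum fun i _ => ?_
        have a1 := hB _ (F3_vanish h hs (eb i)) i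
        have a2 := hB h hs i
        have a3 : 0 ≤ c₀ * ρ := by positivity
        calc _ ≤ c₀ * ρ * ∫ Y, ‖(∂_{eb i} h : 𝓢(Ed d, ℂ)) Y‖ := a1
          _ ≤ c₀ * ρ * (c₀ * ρ * ∫ Y, ‖h Y‖) := mul_le_mul_of_nonneg_left a2 a3
          _ = _ := by ring
    _ = _ := by rw [Finset.sum_const, nsmul_eq_mul]; ring

/-- PROOF. Induction on `l`: if `𝓕 h` vanishes for `‖ξ‖ > ρ`, so does `𝓕 (∂_i h)` (`fourier_lineDerivOp_eq`), hence `𝓕 (KD1 c h)`; and `∫ ‖KD1 c h‖ ≤ Σ_{i ∈ kI} ∫ ‖∂_i ∂_i h‖ ≤ #kI (c₀ ρ)^2 ∫ ‖h‖`. -/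
theorem KD_l1 {G : Type u} {d : ℕ} (c : Core G d) {c₀ ρ : ℝ} (h0 : 0 ≤ c₀) (hρ : 0 < ρ)
    (hB : ∀ h : 𝓢(Ed d, ℂ), (∀ ξ, ρ < ‖ξ‖ → (𝓕 h) ξ = 0) → ∀ i : Fin d,
      ∫ Y, ‖(∂_{eb i} h : 𝓢(Ed d, ℂ)) Y‖ ≤ c₀ * ρ * ∫ Y, ‖h Y‖) (l : ℕ)
    (h : 𝓢(Ed d, ℂ)) (hs : ∀ ξ, ρ < ‖ξ‖ → (𝓕 h) ξ = 0) :
    ∫ Y, ‖(KD c l h) Y‖ ≤ ((c.kI.card : ℝ) * (c₀ * ρ) ^ 2) ^ l * ∫ Y, ‖h Y‖ := by
  induction l generalizing h with
  | zero => simp [KD]
  | succ l ih =>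
    have e : KD c (l + 1) h = KD c l (KD1 c h) := Function.iterate_succ_apply _ _ _
    rw [e]
    refine (ih _ (F3_KD1_vanish c h hs)).trans ?_
    have h1 := F3_one c h0 hρ hB h hs
    have h2 : 0 ≤ ((c.kI.card : ℝ) * (c₀ * ρ) ^ 2) ^ l := by positivity
    calc _ ≤ ((c.kI.card : ℝ) * (c₀ * ρ) ^ 2) ^ l *
          (((c.kI.card : ℝ) * (c₀ * ρ) ^ 2) * ∫ Y, ‖h Y‖) := mul_le_mul_of_nonneg_left h1 h2
      _ = _ := by ring

end Pool.Agent.RG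
end

section

/-!
# H1a: one step: `V_{≤ n}` is generated from `V_{≤ n/2}`
-/

namespace Pool.Agent.RG

open MeasureTheory Topology Filter Set
open scoped SchwartzMap LineDeriv FourierTransform

universe u v

variable {G : Type u} [Group G] [TopologicalSpace G] {d : ℕ} {c : Core G d}

/-- The hypotheses on the representation in the one step theorem: `Q` is the supremum of a family of
tempered maps, and the invariants `z_k` are bounded for `Q`. -/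
structure IsStep (c : Core G d) (A A₁ : ℕ) {V E I : Type v} {H : Type u} [AddCommGroup V]
    [Module ℂ V] [NormedAddCommGroup E] [NormedSpace ℂ E] [NormedAddCommGroup H]
    [InnerProductSpace ℂ H] (L : Ed d →ₗ[ℝ] (V →ₗ[ℂ] V)) (act : G → V →ₗ[ℂ] V)
    (π : G → E →L[ℂ] E) (ι : V →ₗ[ℂ] E) (PV : ℝ → E →ₗ[ℂ] V) (J : I → E →L[ℂ] H)
    (Q : Seminorm ℂ E) (Cz : ℕ → ℝ) : Prop where
  md : IsMd c L act
  gl : IsGl c A₁ L act π ι
  pv : IsPV c L ι PV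
  tp : ∀ i, IsTp c A π (J i)
  sup : IsSup (fun i => (J i).toLinearMap) Q
  zQ : ∀ (k : ℕ) (v : V), Q (ι (zk c L k v)) ≤ Cz k * Q (ι v)

/-- Estimate for the off-cone part.
PROOF. Let `T = M Q(ι u)` bound the words (`hT` for each `J i`). `n^k Op (PD k h) (ι u) = Op h (ι (zk k u)) + O(C n^k/n T)` (`Op_zk`), and `‖J i (Op h (ι (zk k u)))‖ ≤ exp(A) ∫ ‖h‖ ‖J i (ι zk u)‖ ≤ exp(A) ∫ ‖h‖ Cz k Q (ι u)` (`Op_norm`). Divide by `n^k ≥ n`. -/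
theorem off_cone (hc : IsCore c) {χ : Ed d → ℝ} {κ : Fin d → Fin d → Ed d → ℝ}
    (hχ : IsCut c χ κ) (A A₁ : ℕ) (k : ℕ) (hk : 1 ≤ k) (h : 𝓢(Ed d, ℂ)) :
    ∃ C : ℝ, 0 ≤ C ∧ ∀ (V E I : Type v) (H : Type u) [AddCommGroup V] [Module ℂ V]
      [NormedAddCommGroup E] [NormedSpace ℂ E] [CompleteSpace E] [NormedAddCommGroup H]
      [InnerProductSpace ℂ H] [CompleteSpace H] (L : Ed d →ₗ[ℝ] (V →ₗ[ℂ] V))
      (act : G → V →ₗ[ℂ] V) (π : G → E →L[ℂ] E) (ι : V →ₗ[ℂ] E) (PV : ℝ → E →ₗ[ℂ] V)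
      (J : I → E →L[ℂ] H) (Q : Seminorm ℂ E) (Cz : ℕ → ℝ),
      IsStep c A A₁ L act π ι PV J Q Cz → ∀ (n : ℝ), 1 ≤ n → ∀ (u : V) (M : ℝ), 0 ≤ M →
      (∀ β : List (Fin d), β.length ≤ k → Q (ι (wd L β u)) ≤ M * n ^ β.length * Q (ι u)) →
      Q (Op c χ π n (PD c k h) (ι u)) ≤ (C * (|Cz k| + M) / n) * Q (ι u) := by
  obtain ⟨C0, hC0, hC⟩ := Op_zk.{u, v} hc hχ A k h
  have hI0 : 0 ≤ Real.exp A * ∫ Y, ‖h Y‖ :=
    mul_nonneg (Real.exp_pos _).le (integral_nonneg fun Y => norm_nonneg _)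
  refine ⟨C0 + Real.exp A * ∫ Y, ‖h Y‖, by positivity, ?_⟩
  intro V E I H _ _ _ _ _ _ _ _ L act π ι PV J Q Cz hS n hn u M hM hT
  have hn0 : 0 < n := by linarith
  have hQ0 : 0 ≤ Q (ι u) := apply_nonneg Q _
  have hnk : n ≤ n ^ k := by
    calc n = n ^ 1 := (pow_one n).symm
      _ ≤ n ^ k := pow_le_pow_right₀ hn hk
  have hnk0 : 0 < n ^ k := pow_pos hn0 k
  have hr0 : 0 ≤ ((C0 + Real.exp A * ∫ Y, ‖h Y‖) * (|Cz k| + M) / n) * Q (ι u) := by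
    have := abs_nonneg (Cz k)
    positivity
  refine hS.sup.sup _ _ hr0 fun i => ?_
  let R : Cal.{u, v} c A :=
    { V := V, E := E, H := H, π := π, L := L, ι := ι, J := J i
      one := hS.gl.rp.one
      mul := hS.gl.rp.mul
      cont := hS.gl.rp.cont
      der := hS.gl.der
      temp := hS.tp i }
  have h1 : ∀ γ : List (Fin d), γ.length ≤ k →
      ‖J i (ι (wd L γ u))‖ ≤ n ^ γ.length * (M * Q (ι u)) := by
    intro γ hγ
    calc ‖J i (ι (wd L γ u))‖ ≤ Q (ι (wd L γ u)) := hS.sup.le i _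
      _ ≤ M * n ^ γ.length * Q (ι u) := hT γ hγ
      _ = n ^ γ.length * (M * Q (ι u)) := by ring
  have h2 : ‖J i (Op c χ π n h (ι (zk c L k u)) -
      ((n : ℝ) : ℂ) ^ k • Op c χ π n (PD c k h) (ι u))‖ ≤ C0 * n ^ k / n * (M * Q (ι u)) :=
    hC R n hn u (M * Q (ι u)) h1
  have h3 : ‖J i (Op c χ π n h (ι (zk c L k u)))‖ ≤
      Real.exp A * (∫ Y, ‖h Y‖) * ‖J i (ι (zk c L k u))‖ :=
    Op_norm hc hχ R hn h.continuous h.integrable (ι (zk c L k u))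
  have h4 : ‖J i (ι (zk c L k u))‖ ≤ |Cz k| * Q (ι u) :=
    (hS.sup.le i _).trans ((hS.zQ k u).trans (mul_le_mul_of_nonneg_right (le_abs_self _) hQ0))
  have h5 : n ^ k * ‖J i (Op c χ π n (PD c k h) (ι u))‖ ≤
      Real.exp A * (∫ Y, ‖h Y‖) * (|Cz k| * Q (ι u)) + C0 * n ^ k / n * (M * Q (ι u)) := by
    have h6 : n ^ k * ‖J i (Op c χ π n (PD c k h) (ι u))‖ =
        ‖J i (((n : ℝ) : ℂ) ^ k • Op c χ π n (PD c k h) (ι u))‖ := by
      rw [map_smul, norm_smul, norm_pow, Complex.norm_real, Real.norm_of_nonneg hn0.le]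
    rw [h6]
    have h7 : J i (((n : ℝ) : ℂ) ^ k • Op c χ π n (PD c k h) (ι u)) =
        J i (Op c χ π n h (ι (zk c L k u))) - J i (Op c χ π n h (ι (zk c L k u)) -
          ((n : ℝ) : ℂ) ^ k • Op c χ π n (PD c k h) (ι u)) := by
      rw [map_sub (J i) (Op c χ π n h (ι (zk c L k u)))]
      abel
    rw [h7]
    refine (norm_sub_le _ _).trans (add_le_add ?_ h2)
    exact h3.trans (mul_le_mul_of_nonneg_left h4 hI0)
  have h8 : ‖J i (Op c χ π n (PD c k h) (ι u))‖ ≤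
      (Real.exp A * (∫ Y, ‖h Y‖) * (|Cz k| * Q (ι u)) + C0 * n ^ k / n * (M * Q (ι u))) / n ^ k := by
    rw [le_div_iff₀ hnk0, mul_comm]
    exact h5
  refine h8.trans ?_
  have h9 : Real.exp A * (∫ Y, ‖h Y‖) * (|Cz k| * Q (ι u)) / n ^ k ≤
      Real.exp A * (∫ Y, ‖h Y‖) * (|Cz k| * Q (ι u)) / n := by
    have := abs_nonneg (Cz k)
    exact div_le_div_of_nonneg_left (by positivity) hn0 hnk
  have h10 : C0 * n ^ k / n * (M * Q (ι u)) / n ^ k = C0 * M * Q (ι u) / n := by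
    field_simp
  rw [add_div, h10]
  have h11 : ((C0 + Real.exp A * ∫ Y, ‖h Y‖) * (|Cz k| + M) / n) * Q (ι u) =
      Real.exp A * (∫ Y, ‖h Y‖) * (|Cz k| * Q (ι u)) / n + C0 * M * Q (ι u) / n +
        (C0 * |Cz k| * Q (ι u) / n + (Real.exp A * ∫ Y, ‖h Y‖) * M * Q (ι u) / n) := by
    field_simp
    ring
  rw [h11]
  have h12 : 0 ≤ C0 * |Cz k| * Q (ι u) / n + (Real.exp A * ∫ Y, ‖h Y‖) * M * Q (ι u) / n := by
    have := abs_nonneg (Cz k)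
    positivity
  linarith

end Pool.Agent.RG
end

section

/-!
# H2c: the two norms
-/

namespace Pool.Agent.RG

open MeasureTheory Topology Filter Set

universe u v

variable {G : Type u} [Group G] [TopologicalSpace G] {d : ℕ} {c : Core G d} {A A₁ : ℕ}
  {V : Type v} [AddCommGroup V] [Module ℂ V] {L : Ed d →ₗ[ℝ] (V →ₗ[ℂ] V)} {act : G → V →ₗ[ℂ] V}
  {E : Type v} [NormedAddCommGroup E] [NormedSpace ℂ E] [CompleteSpace E] {H : Type u}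
  [NormedAddCommGroup H] [InnerProductSpace ℂ H] [CompleteSpace H] {π : G → E →L[ℂ] E}
  {ι : V →ₗ[ℂ] E} {PV : ℝ → E →ₗ[ℂ] V} {J : (E →L[ℂ] ℂ) → E →L[ℂ] H}

/-- The upper norm and the group action of another globalization.
PROOF. For `(λ, a)`: `ι (ζ_a (PV' n (π' x (ι' v)))) = ι (PV n (π x (ι (ζ_a v))))` by `analytic_cont` with `T = ζ_a` (`E'` as the first globalization, `E` as the second), so `‖J λ (..)‖ = ‖J λ (ι (PV n (π x (ι (ζ_a v)))))‖ ≤ ‖J λ (π x (ι (ζ_a v)))‖ ≤ M(x)^A ‖J λ (ι (ζ_a v))‖ ≤ M(x)^A P v` (`PV_contr`, `tp`). `IsSup.sup`. -/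
theorem P_act {E' : Type v} {H' : Type u} [NormedAddCommGroup E'] [NormedSpace ℂ E']
    [CompleteSpace E'] [NormedAddCommGroup H'] [InnerProductSpace ℂ H'] [CompleteSpace H']
    {π' : G → E' →L[ℂ] E'} {ι' : V →ₗ[ℂ] E'} {PV' : ℝ → E' →ₗ[ℂ] V}
    {J' : (E' →L[ℂ] ℂ) → E' →L[ℂ] H'}
    (hc : IsCore c) (hM : IsMd c L act) (hG : IsGl c A₁ L act π ι)
    (hPV : IsPV c L ι PV) (hJ : IsJ c A π J) (hG' : IsGl c A₁ L act π' ι')
    (hPV' : IsPV c L ι' PV') (hJ' : IsJ c A π' J') {m : ℕ} {ζ : Fin (m + 1) → V →ₗ[ℂ] V}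
    (hz : ∀ a, IsEnd c L act (ζ a)) {P : Seminorm ℂ V}
    (hP : IsSup (fun i : {l : E →L[ℂ] ℂ // ‖l‖ ≤ 1} × Fin (m + 1) =>
        (J i.1.1).toLinearMap.comp (ι.comp (ζ i.2))) P) (n : ℝ) (x : G) (v : V) :
    P (PV' n (π' x (ι' v))) ≤ c.M x ^ A * P v := by
  have hMx : 0 ≤ c.M x ^ A := pow_nonneg (le_trans zero_le_one (hc.M_ge x)) A
  refine hP.sup _ _ (mul_nonneg hMx (apply_nonneg P v)) ?_
  rintro ⟨⟨l, hl⟩, a⟩
  have h1 := analytic_cont hc hM hG' hPV' (fam_of_J hG' hJ') hG hPV (fam_of_J hG hJ) (ζ a)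
    (hz a).1 (hz a).2 n x v
  change ‖J l (ι (ζ a (PV' n (π' x (ι' v)))))‖ ≤ _
  rw [h1]
  refine (PV_contr hc hM hG hPV (hJ.tp l) n _).trans ?_
  refine (hJ.tp l x _).trans ?_
  exact mul_le_mul_of_nonneg_left (hP.le (⟨l, hl⟩, a) v) hMx

end Pool.Agent.RG
end

section

/-! H2: the two norms -/
end

section

/-!
# H4: from polynomial growth on `Vle (2^j)` to the Sobolev inequality
-/

namespace Pool.Agent.RG

open MeasureTheory Topology Filter Set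

universe u v

private theorem H4_sum_le {V : Type v} [AddCommGroup V] [Module ℂ V] (N : Seminorm ℂ V)
    (s : Finset ℕ) (g : ℕ → V) : N (∑ j ∈ s, g j) ≤ ∑ j ∈ s, N (g j) := by
  classical
  induction s using Finset.induction_on with
  | empty => simp
  | insert a s ha ih =>
    rw [Finset.sum_insert ha, Finset.sum_insert ha]
    exact (map_add_le_add N _ _).trans (add_le_add le_rfl ih)

private theorem H4_geo (K : ℕ) {x : ℝ} (h0 : 0 ≤ x) (h1 : x ≤ 1 / 2) :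
    ∑ j ∈ Finset.range K, x ^ j ≤ 2 := by
  have h2 : ∀ K : ℕ, ∑ j ∈ Finset.range K, (1 / 2 : ℝ) ^ j = 2 - 2 * (1 / 2) ^ K := by
    intro K
    induction K with
    | zero => norm_num
    | succ K ih =>
      rw [Finset.sum_range_succ, ih, pow_succ]
      ring
  calc ∑ j ∈ Finset.range K, x ^ j ≤ ∑ j ∈ Finset.range K, (1 / 2 : ℝ) ^ j :=
        Finset.sum_le_sum fun j _ => pow_le_pow_left₀ h0 h1 j
    _ = 2 - 2 * (1 / 2) ^ K := h2 K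
    _ ≤ 2 := by
        have : (0 : ℝ) ≤ 2 * (1 / 2) ^ K := by positivity
        linarith

/-- DYADIC SUM.
PROOF. For `j : ℕ` let `I_j` be the set of `r` with `r ≤ 1` (`j = 0`) resp. `4^(j-1) < r ≤ 4^j` (`j ≥ 1`); the `I_j` are disjoint and cover `ℝ`. Let `v_j = Σ_{r ∈ I_j} f_r ∈ Vle (2^j)` (`(2^j)^2 = 4^j`), nonzero for finitely many `j` (`j < K`), `Σ_j v_j = v`. `N v ≤ Σ_j N v_j ≤ Σ_j C b^j Q v_j`. For every member `T i` of the family and `w = Σ (1+r)^(s/2) f_r`: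
`‖T v_j‖ ≤ 2^s 2^(-j s) ‖T w‖` by `Ksk.mult_le` with `a_r = 1` on `I_j`, `0` elsewhere, `b_r = 2^s 2^(-js) (1+r)^(s/2)`: on the support of `f` all `r ≥ 0` (`hn`), and for `r ∈ I_j`, `(1+r)^(s/2) ≥ 2^((j-1) s)` (`j ≥ 1`), `≥ 1 ≥ 2^(-s)` (`j = 0`). So `Q v_j ≤ 2^s 2^(-js) Q w` and
`N v ≤ C 2^s Σ_j (b 2^(-s))^j Q w ≤ 2 C 2^s Q w`, as `b 2^(-s) ≤ 1/2`. -/
theorem dyadic {G : Type u} {d : ℕ} {c : Core G d} {V I : Type v} [AddCommGroup V] [Module ℂ V]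
    {H : Type u} [NormedAddCommGroup H] [InnerProductSpace ℂ H]
    {L : Ed d →ₗ[ℝ] (V →ₗ[ℂ] V)}
    (hn : ∀ (r : ℝ) (v : V), casK c L v = (r : ℂ) • v → v ≠ 0 → 0 ≤ r) {T : I → V →ₗ[ℂ] H}
    (hT : ∀ i, Ksk c L (T i)) (Q N : Seminorm ℂ V) (hQ : IsSup T Q) (C b s : ℝ) (hC : 0 ≤ C)
    (hb : 0 ≤ b) (hs : 2 * b ≤ 2 ^ s) (h0 : 0 ≤ s)
    (hN : ∀ j : ℕ, ∀ v ∈ Vle (casK c L) (2 ^ j), N v ≤ C * b ^ j * Q v) (f : ℝ →₀ V)
    (hf : ∀ r : ℝ, casK c L (f r) = (r : ℂ) • f r) :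
    N (f.sum fun _ x => x) ≤
      2 * C * 2 ^ s * Q (f.sum fun r x => (((1 + r) ^ (s / 2) : ℝ) : ℂ) • x) := by
  classical
  have hex : ∀ r : ℝ, ∃ j : ℕ, r ≤ 4 ^ j := fun r =>
    ((pow_unbounded_of_one_lt r (by norm_num : (1 : ℝ) < 4)).imp fun _ h => h.le)
  obtain ⟨jj, hjj⟩ : ∃ jj : ℝ → ℕ, ∀ r, jj r = Nat.find (hex r) := ⟨_, fun _ => rfl⟩
  have hj1 : ∀ r, r ≤ 4 ^ jj r := fun r => by rw [hjj]; exact Nat.find_spec (hex r)
  have hj2 : ∀ r, 0 ≤ r → (4 : ℝ) ^ ((jj r : ℝ) - 1) ≤ 1 + r := by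
    intro r hr
    rcases Nat.eq_zero_or_pos (jj r) with h | h
    · rw [h, Nat.cast_zero, zero_sub]
      have : (4 : ℝ) ^ (-1 : ℝ) ≤ 1 := Real.rpow_le_one_of_one_le_of_nonpos (by norm_num)
        (by norm_num)
      linarith
    · obtain ⟨k, hk⟩ : ∃ k, jj r = k + 1 := ⟨jj r - 1, by omega⟩
      have h1 : ¬ (r ≤ 4 ^ k) := by
        have h2 : k < Nat.find (hex r) := by rw [← hjj, hk]; exact Nat.lt_succ_self k
        exact Nat.find_min (hex r) h2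
      push Not at h1
      rw [hk]
      push_cast
      rw [add_sub_cancel_right, Real.rpow_natCast]
      linarith
  -- the pieces
  obtain ⟨K, hK⟩ : ∃ K : ℕ, ∀ r ∈ f.support, jj r ∈ Finset.range K :=
    ⟨f.support.sup jj + 1, fun r hr => Finset.mem_range.2
      (Nat.lt_succ_of_le (Finset.le_sup (f := jj) hr))⟩
  set vj : ℕ → V := fun j => ∑ r ∈ f.support with jj r = j, f r with hvj
  set w : V := f.sum fun r x => (((1 + r) ^ (s / 2) : ℝ) : ℂ) • x with hw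
  have hsum : (f.sum fun _ x => x) = ∑ j ∈ Finset.range K, vj j := by
    rw [hvj, Finsupp.sum]
    exact (Finset.sum_fiberwise_of_maps_to hK _).symm
  have hmem : ∀ j, vj j ∈ Vle (casK c L) (2 ^ j) := by
    intro j
    refine Submodule.sum_mem _ fun r hr => ?_
    rw [Finset.mem_filter] at hr
    have h1 : r ≤ ((2 : ℝ) ^ j) ^ 2 := by
      have h2 := hj1 r
      rw [hr.2] at h2
      have h3 : ((2 : ℝ) ^ j) ^ 2 = 4 ^ j := by
        rw [← pow_mul, mul_comm, pow_mul]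
        norm_num
      rw [h3]
      exact h2
    have h4 : f r ∈ Module.End.eigenspace (casK c L) (r : ℂ) :=
      Module.End.mem_eigenspace_iff.2 (hf r)
    exact Submodule.mem_iSup_of_mem r (Submodule.mem_iSup_of_mem h1 h4)
  have hQj : ∀ j, Q (vj j) ≤ 2 ^ s * (2 ^ (-s)) ^ j * Q w := by
    intro j
    have hp : (0 : ℝ) < 2 ^ s * (2 ^ (-s)) ^ j := by positivity
    refine hQ.sup _ _ (mul_nonneg hp.le (apply_nonneg Q w)) fun i => ?_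
    have h1 := (hT i).mult_le f hf (fun r => if jj r = j then 1 else 0)
      (fun r => 2 ^ s * (2 ^ (-s)) ^ j * (1 + r) ^ (s / 2)) (by
      intro r hr
      have hr0 : 0 ≤ r := hn r (f r) (hf r) (Finsupp.mem_support_iff.1 hr)
      have hpos : 0 < 1 + r := by linarith
      have hp2 : 0 < 2 ^ s * (2 ^ (-s)) ^ j * (1 + r) ^ (s / 2) :=
        mul_pos hp (Real.rpow_pos_of_pos hpos _)
      by_cases hjr : jj r = j
      · simp only [hjr, if_true, abs_one]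
        rw [abs_of_pos hp2]
        have h2 := hj2 r hr0
        rw [hjr] at h2
        have h3 : ((4 : ℝ) ^ ((j : ℝ) - 1)) ^ (s / 2) ≤ (1 + r) ^ (s / 2) :=
          Real.rpow_le_rpow (by positivity) h2 (by linarith)
        have h4 : ((4 : ℝ) ^ ((j : ℝ) - 1)) ^ (s / 2) = 2 ^ (((j : ℝ) - 1) * s) := by
          have h5 : (4 : ℝ) = 2 ^ (2 : ℝ) := by norm_num
          rw [h5, ← Real.rpow_mul (by norm_num), ← Real.rpow_mul (by norm_num)]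
          congr 1
          ring
        have h6 : (2 : ℝ) ^ s * (2 ^ (-s)) ^ j * 2 ^ (((j : ℝ) - 1) * s) = 1 := by
          rw [← Real.rpow_natCast, ← Real.rpow_mul (by norm_num), ← Real.rpow_add (by norm_num),
            ← Real.rpow_add (by norm_num)]
          have : s + -s * (j : ℝ) + ((j : ℝ) - 1) * s = 0 := by ring
          rw [this, Real.rpow_zero]
        rw [h4] at h3
        calc (1 : ℝ) = 2 ^ s * (2 ^ (-s)) ^ j * 2 ^ (((j : ℝ) - 1) * s) := h6.symm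
          _ ≤ 2 ^ s * (2 ^ (-s)) ^ j * (1 + r) ^ (s / 2) := by gcongr
      · simp only [hjr, if_false, abs_zero]
        exact abs_nonneg _)
    have h2 : (f.sum fun r x => (((if jj r = j then (1 : ℝ) else 0 : ℝ)) : ℂ) • x) = vj j := by
      rw [hvj, Finsupp.sum]
      simp only
      rw [Finset.sum_filter]
      refine Finset.sum_congr rfl fun r _ => ?_
      by_cases hjr : jj r = j
      · simp [hjr]
      · simp [hjr]
    have h3 : (f.sum fun r x => ((2 ^ s * (2 ^ (-s)) ^ j * (1 + r) ^ (s / 2) : ℝ) : ℂ) • x) =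
        ((2 ^ s * (2 ^ (-s)) ^ j : ℝ) : ℂ) • w := by
      rw [hw, Finsupp.sum, Finsupp.sum, Finset.smul_sum]
      refine Finset.sum_congr rfl fun r _ => ?_
      rw [smul_smul, ← Complex.ofReal_mul]
    rw [h2, h3, map_smul, norm_smul, Complex.norm_real, Real.norm_of_nonneg hp.le] at h1
    exact h1.trans (mul_le_mul_of_nonneg_left (hQ.le i w) hp.le)
  have hx0 : 0 ≤ b * 2 ^ (-s) := by positivity
  have hx1 : b * 2 ^ (-s) ≤ 1 / 2 := by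
    rw [Real.rpow_neg (by norm_num), ← div_eq_mul_inv, div_le_iff₀ (by positivity)]
    linarith
  rw [hsum]
  calc N (∑ j ∈ Finset.range K, vj j) ≤ ∑ j ∈ Finset.range K, N (vj j) := H4_sum_le N _ _
    _ ≤ ∑ j ∈ Finset.range K, (C * 2 ^ s * Q w) * (b * 2 ^ (-s)) ^ j := by
        refine Finset.sum_le_sum fun j _ => (hN j _ (hmem j)).trans ?_
        calc C * b ^ j * Q (vj j) ≤ C * b ^ j * (2 ^ s * (2 ^ (-s)) ^ j * Q w) :=
              mul_le_mul_of_nonneg_left (hQj j) (by positivity)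
          _ = (C * 2 ^ s * Q w) * (b * 2 ^ (-s)) ^ j := by rw [mul_pow]; ring
    _ = (C * 2 ^ s * Q w) * ∑ j ∈ Finset.range K, (b * 2 ^ (-s)) ^ j := by
        rw [Finset.mul_sum]
    _ ≤ (C * 2 ^ s * Q w) * 2 := by
        refine mul_le_mul_of_nonneg_left (H4_geo K hx0 hx1) ?_
        have := apply_nonneg Q w
        positivity
    _ = 2 * C * 2 ^ s * Q w := by ring

end Pool.Agent.RG
end
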