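import Pool.Agent.Lib.MP_496a9e_al.Mg.G014
import Pool.Agent.Lib.MP_496a9e_al.Q.H1b
import Pool.Agent.Lib.MP_496a9e_al.Mg.G008
import Pool.Agent.Lib.MP_496a9e_al.Mg.G006
import Pool.Agent.Lib.MP_496a9e_al.Mg.G004
import Pool.Agent.Lib.MP_496a9e_al.Mg.G009
import Pool.Agent.Lib.MP_496a9e_al.Mg.G010
import Pool.Agent.Lib.MP_496a9e_al.Mg.G001

section

/-! H1: one step: `V_{≤ n}` is generated from `V_{≤ n/2}` -/
end

section

/-!
# H5: the main theorem in coordinates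
-/

namespace Pool.Agent.RG

open MeasureTheory Topology Filter Set

universe u v

/-- THE SOBOLEV INEQUALITY in coordinates; the exponent `s` depends only on `c, A, A₁`.
PROOF. `C₂` from `one_step hc A A₁`; `b = 2^d (2 C₂ + 1)`; `s ≥ 0` with `2 b ≤ 2^s`. Given the data: `ζ` from `exists_zeta`; `PV, PV'` from `exists_PV` (`fam_of_J`); `q_side` for `E'` gives `I, lam, Q, Cz, B`; `p_side` for `E` gives `P, Cz'`.
`IsStep c A A₁ L act π' ι' PV' (fun i => J' (lam i)) Q Cz`; `one_step` gives `n₁`. Apply `growth` with `T = casK`, `P`, `Q ∘ ι'` (`Seminorm.comp`), the given `n₁`: for `u ∈ Vle n` take `a j = M (x j)^A`, `s j = PV' n (π' (x j) (ι' (w j)))` (`P_act`); `PV' n (Σ ..) = Σ s j`. Result: `P v ≤ C (2 C₂ + 1)^j Q (ι' v)` on `Vle (2^j)`.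
`sobolev` for `E`: `‖ι v‖ ≤ C_S S` if `‖J λ (ι (wd L β v))‖ ≤ S` for `‖λ‖ ≤ 1`, `|β| ≤ d`; `‖J λ (ι w)‖ ≤ P w` (index `(λ, 0)`, `ζ 0 = id`); `scaled_bound` for `P` with `k = d`: for `v ∈ Vle n`, `n ≥ 1`, `n² ≥ Cz' 2`: `P (wd L β v) ≤ M n^|β| P v ≤ M n^d P v`; so `‖ι v‖ ≤ C_S M (2^j)^d P v` for `v ∈ Vle (2^j)`, `j ≥ j₀`; for `j < j₀`, `Vle (2^j) ≤ Vle (2^j₀)`, enlarge the constant
by `(2^j₀)^d`. Together `‖ι v‖ ≤ C' b^j Q (ι' v)` on `Vle (2^j)` for all `j`. `dyadic` with `N = ‖ι ·‖` (the seminorm `(normSeminorm ℂ E).comp ι`), `T i = J' (lam i) ∘ ι'` (`Ksk` by `fam_ksk` or `Cal.ksk`; `IsSup` for the composition), and `Q (ι' w) ≤ B ‖ι' w‖`. -/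
theorem key {G : Type u} [Group G] [TopologicalSpace G] {d : ℕ} {c : Core G d} (hc : IsCore c)
    (A A₁ : ℕ) :
    ∃ s : ℝ, 0 ≤ s ∧ ∀ (V E E' : Type v) (H : Type u) [AddCommGroup V] [Module ℂ V]
      [NormedAddCommGroup E] [NormedSpace ℂ E] [CompleteSpace E] [NormedAddCommGroup E']
      [NormedSpace ℂ E'] [CompleteSpace E'] [NormedAddCommGroup H]
      [InnerProductSpace ℂ H] [CompleteSpace H] (L : Ed d →ₗ[ℝ] (V →ₗ[ℂ] V))
      (act : G → V →ₗ[ℂ] V) (π : G → E →L[ℂ] E) (ι : V →ₗ[ℂ] E) (π' : G → E' →L[ℂ] E')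
      (ι' : V →ₗ[ℂ] E') (J : (E →L[ℂ] ℂ) → E →L[ℂ] H) (J' : (E' →L[ℂ] ℂ) → E' →L[ℂ] H),
      IsMd c L act → (∃ s : Finset V, ∀ U : Submodule ℂ V, (∀ v ∈ s, v ∈ U) →
        (∀ (Y : Ed d), ∀ u ∈ U, L Y u ∈ U) → U = ⊤) →
      IsGl c A₁ L act π ι → IsGl c A₁ L act π' ι' → IsJ c A π J → IsJ c A π' J' →
      ∃ C : ℝ, ∀ f : ℝ →₀ V, (∀ r : ℝ, casK c L (f r) = (r : ℂ) • f r) →
        ‖ι (f.sum fun _ x => x)‖ ≤
          C * ‖ι' (f.sum fun r x => (((1 + r) ^ (s / 2) : ℝ) : ℂ) • x)‖ := by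
  obtain ⟨C₂, hC₂, hone⟩ := one_step.{u, v} hc A A₁
  have hb1 : (1 : ℝ) ≤ 2 ^ d * (2 * C₂ + 1) := by
    have h1 : (1 : ℝ) ≤ 2 ^ d := one_le_pow₀ (by norm_num)
    nlinarith
  refine ⟨Real.logb 2 (2 * (2 ^ d * (2 * C₂ + 1))), Real.logb_nonneg (by norm_num) (by linarith), ?_⟩
  intro V E E' H _ _ _ _ _ _ _ _ _ _ _ L act π ι π' ι' J J' hM hfg hG hG' hJ hJ'
  obtain ⟨m, ζ, hζ0, hζE, hζs⟩ := exists_zeta hM hfg
  have hfam := fam_of_J hG hJ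
  have hfam' := fam_of_J hG' hJ'
  obtain ⟨PV, hPV⟩ := exists_PV hc hM hG hfam
  obtain ⟨PV', hPV'⟩ := exists_PV hc hM hG' hfam'
  obtain ⟨I, lam, Q, Cz, B, hQsup, hQB, hQpos, hQz⟩ := q_side hc hM hG' hPV' hJ' hζ0 hζE hζs
  obtain ⟨P, Cz', hPsup, hPen, hPcas, hPz⟩ := p_side hc hM hG hJ hζE hζs
  have hst : IsStep c A A₁ L act π' ι' PV' (fun i => J' (lam i)) Q Cz :=
    ⟨hM, hG', hPV', fun i => hJ'.tp _, hQsup, hQz⟩
  obtain ⟨n₁, hn₁⟩ := hone V E' I H L act π' ι' PV' (fun i => J' (lam i)) Q Cz hst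
  obtain ⟨Cg, hCg, hg⟩ := growth (casK c L) hM.fin P (Q.comp ι') (fun v hv => hQpos v hv)
    C₂ n₁ hC₂ (by
      intro n hn u hu
      obtain ⟨q, x, w, hw, hs, he⟩ := hn₁ n hn u hu
      refine ⟨q, fun j => c.M (x j) ^ A, w, fun j => PV' n (π' (x j) (ι' (w j))), ?_, hw, ?_, ?_,
        hs, ?_⟩
      · intro j
        have := hc.M_ge (x j)
        positivity
      · intro j
        exact hPV'.mem n _
      · intro j
        exact P_act hc hM hG hPV hJ hG' hPV' hJ' hζE hPsup n (x j) (w j)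
      · have h1 : ∑ j, PV' n (π' (x j) (ι' (w j))) = PV' n (∑ j, π' (x j) (ι' (w j))) :=
          (map_sum _ _ _).symm
        simp only [Seminorm.comp_apply]
        rw [h1]
        exact he)
  obtain ⟨CS, hCS, hsob⟩ := sobolev hc hG hJ
  have hC1 : (0 : ℝ) ≤ 4 * A * d + 1 := by positivity
  obtain ⟨M, hM0, hsc⟩ := scaled_bound.{u, v} hc hC1 d
  -- the index from which the scaled bounds hold
  obtain ⟨j₀, hj₀⟩ : ∃ j₀ : ℕ, Cz' 2 ≤ ((2 : ℝ) ^ j₀) ^ 2 := by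
    obtain ⟨k, hk⟩ := pow_unbounded_of_one_lt (Cz' 2) (by norm_num : (1 : ℝ) < 2)
    refine ⟨k, hk.le.trans ?_⟩
    have h1 : (1 : ℝ) ≤ 2 ^ k := one_le_pow₀ (by norm_num)
    nlinarith
  have hlarge : ∀ j : ℕ, j₀ ≤ j → ∀ v ∈ Vle (casK c L) (2 ^ j),
      ‖ι v‖ ≤ CS * (M * (2 ^ j) ^ d * P v) := by
    intro j hj v hv
    refine hsob v _ fun l hl β hβ => ?_
    have h1 : (1 : ℝ) ≤ 2 ^ j := one_le_pow₀ (by norm_num)
    have h2 : ((2 : ℝ) ^ j₀) ≤ 2 ^ j := pow_le_pow_right₀ (by norm_num) hj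
    have h3 : Cz' 2 ≤ ((2 : ℝ) ^ j) ^ 2 := hj₀.trans (pow_le_pow_left₀ (by positivity) h2 2)
    have h4 := hsc V L act hM P hPen hPcas (Cz' 2) (hPz 2) (2 ^ j) h1 h3 v hv β hβ
    have h5 := hPsup.le (⟨l, hl⟩, 0) (wd L β v)
    have h6 : ‖J l (ι (wd L β v))‖ ≤ P (wd L β v) := by
      simpa [hζ0] using h5
    refine h6.trans (h4.trans ?_)
    have h7 : ((2 : ℝ) ^ j) ^ β.length ≤ (2 ^ j) ^ d := pow_le_pow_right₀ h1 hβ
    have h8 : 0 ≤ P v := apply_nonneg _ _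
    gcongr
  have hall : ∀ j : ℕ, ∀ v ∈ Vle (casK c L) (2 ^ j),
      ‖ι v‖ ≤ (CS * M * (2 ^ j₀) ^ d * Cg) * (2 ^ d * (2 * C₂ + 1)) ^ j * Q (ι' v) := by
    intro j v hv
    have hP0 : 0 ≤ P v := apply_nonneg _ _
    have hQ0 : 0 ≤ Q (ι' v) := apply_nonneg _ _
    have h1 : (1 : ℝ) ≤ 2 ^ j := one_le_pow₀ (by norm_num)
    have h10 : (1 : ℝ) ≤ 2 ^ j₀ := one_le_pow₀ (by norm_num)
    have h1d : (1 : ℝ) ≤ (2 ^ j) ^ d := one_le_pow₀ h1
    have h10d : (1 : ℝ) ≤ (2 ^ j₀) ^ d := one_le_pow₀ h10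
    have hP : ‖ι v‖ ≤ CS * (M * ((2 ^ j₀) ^ d * (2 ^ j) ^ d) * P v) := by
      rcases le_total j₀ j with hj | hj
      · refine (hlarge j hj v hv).trans ?_
        gcongr
        exact le_mul_of_one_le_left (by positivity) h10d
      · have hv' : v ∈ Vle (casK c L) (2 ^ j₀) :=
          Vle_mono (by positivity) (pow_le_pow_right₀ (by norm_num) hj) hv
        refine (hlarge j₀ le_rfl v hv').trans ?_
        gcongr
        exact le_mul_of_one_le_right (by positivity) h1d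
    have hgv : P v ≤ Cg * (2 * C₂ + 1) ^ j * Q (ι' v) := hg j v hv
    have hb0 : 0 ≤ 2 * C₂ + 1 := by linarith
    calc ‖ι v‖ ≤ CS * (M * ((2 ^ j₀) ^ d * (2 ^ j) ^ d) * P v) := hP
      _ ≤ CS * (M * ((2 ^ j₀) ^ d * (2 ^ j) ^ d) * (Cg * (2 * C₂ + 1) ^ j * Q (ι' v))) := by
          gcongr
      _ = (CS * M * (2 ^ j₀) ^ d * Cg) * (2 ^ d * (2 * C₂ + 1)) ^ j * Q (ι' v) := by
          have h20 : ((2 : ℝ) ^ d) ^ j = (2 ^ j) ^ d := by
            rw [← pow_mul, ← pow_mul, mul_comm]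
          rw [mul_pow, h20]
          ring
  have hksk : ∀ i : I, Ksk c L ((J' (lam i)).toLinearMap.comp ι') := by
    intro i
    exact Cal.ksk hc (⟨V, E', H, π', L, ι', J' (lam i), hG'.rp.one, hG'.rp.mul, hG'.rp.cont,
      hG'.der, hJ'.tp _⟩ : Cal.{u, v} c A)
  have hsup2 : IsSup (fun i : I => (J' (lam i)).toLinearMap.comp ι') (Q.comp ι') :=
    ⟨fun i x => hQsup.le i (ι' x), fun x r hr h => hQsup.sup (ι' x) r hr h⟩
  refine ⟨2 * (CS * M * (2 ^ j₀) ^ d * Cg) *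
    2 ^ (Real.logb 2 (2 * (2 ^ d * (2 * C₂ + 1)))) * B, fun f hf => ?_⟩
  have hdy := dyadic hM.nonneg hksk (Q.comp ι') ((normSeminorm ℂ E).comp ι) hsup2
    (CS * M * (2 ^ j₀) ^ d * Cg) (2 ^ d * (2 * C₂ + 1))
    (Real.logb 2 (2 * (2 ^ d * (2 * C₂ + 1)))) (by positivity) (by linarith)
    (le_of_eq (Real.rpow_logb (by norm_num) (by norm_num) (by linarith)).symm)
    (Real.logb_nonneg (by norm_num) (by linarith)) hall f hf
  simp only [Seminorm.comp_apply, coe_normSeminorm] at hdy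
  refine hdy.trans ?_
  have hfin := hQB (ι' (f.sum fun r x => (((1 + r) ^
    (Real.logb 2 (2 * (2 ^ d * (2 * C₂ + 1))) / 2) : ℝ) : ℂ) • x))
  have hnn : 0 ≤ 2 * (CS * M * (2 ^ j₀) ^ d * Cg) *
    2 ^ (Real.logb 2 (2 * (2 ^ d * (2 * C₂ + 1)))) := by positivity
  rw [mul_assoc _ B]
  exact mul_le_mul_of_nonneg_left hfin hnn

end Pool.Agent.RG
end

section

/-!
# H6a: the main theorem
-/

namespace Pool.Agent.RG

open MeasureTheory Topology Filter Set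

universe u v

/-- A `G`-continuous norm with growth `w` gives a globalization in coordinates.
PROOF. `rp.bound`: `‖π x e‖ ≤ C w x ‖e‖ ≤ |C| C' M(x)^A₁ ‖e‖`. `der`: `ex (t • Y) = exp (t • hat Y)`, `lieOf_eq`. The rest from `hK`. -/
theorem isGl_of {G : Type u} [Group G] [TopologicalSpace G] [IsTopologicalGroup G] [T2Space G]
    {N : ℕ} {S : RData G N} {d : ℕ} {e : Fin d → Mat N} {kI : Finset (Fin d)} {V E : Type v}
    [AddCommGroup V] [Module ℂ V] [NormedAddCommGroup E] [NormedSpace ℂ E] {M : GK G N V}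
    (h : IsAd S e kI) (hM : IsGK S M) {w : G → ℝ} {A₁ : ℕ} {C' : ℝ}
    (hw : IsWeight w) (hw' : ∀ x, w x ≤ C' * (coreOf S e kI).M x ^ A₁)
    {π : G → E →L[ℂ] E} {ι : V →ₗ[ℂ] E} (hπ : IsNormRep π w) (hK : IsKFinitePart S M π ι) :
    IsGl (coreOf S e kI) A₁ (lieOf M e) M.act π ι where
  rp :=
    { one := hπ.one
      mul := hπ.mul
      cont := hπ.cont
      bound := by
        obtain ⟨C, hC⟩ := hπ.bound
        refine ⟨|C| * C', fun x v => (hC x v).trans ?_⟩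
        have h1 : C * w x ≤ |C| * C' * (coreOf S e kI).M x ^ A₁ := by
          calc C * w x ≤ |C| * w x := mul_le_mul_of_nonneg_right (le_abs_self C) (hw.pos x).le
            _ ≤ |C| * (C' * (coreOf S e kI).M x ^ A₁) :=
              mul_le_mul_of_nonneg_left (hw' x) (abs_nonneg C)
            _ = |C| * C' * (coreOf S e kI).M x ^ A₁ := by ring
        exact mul_le_mul_of_nonneg_right h1 (norm_nonneg v) }
  der := by
    intro Y v
    have h1 := hK.der (hat e Y) (hat_mem h Y) v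
    have h2 : (fun t : ℝ => π ((coreOf S e kI).ex (t • Y)) (ι v)) =
        fun t : ℝ => π (S.exp (t • hat e Y)) (ι v) := by
      funext t
      show π (S.exp (hat e (t • Y))) (ι v) = _
      rw [hat_smul]
    rw [h2, lieOf_eq hM h Y]
    exact h1
  inj := hK.inj
  dense := hK.dense
  eqv := hK.eqv

end Pool.Agent.RG
end

section

/-!
# I5: the Sobolev inequality in coordinates, for every Laplace operator of `K`
-/

namespace Pool.Agent.RG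

open MeasureTheory Topology Filter Set

universe u v

/-- THE SOBOLEV INEQUALITY in coordinates for the Laplace operator `lapB B L`; the exponent `s` depends only on `c, A, A₁`, not on `B`.
This is `key` of file H5 with `lapB B L` in place of `casK c L`; the delivered proof of `key` is /team-store/MP_496a9e_SG_H5.lean, copy it (`b`, `s` as there) up to the inequality
`‖ι v‖ ≤ C' b^j Q (ι' v)` for `v ∈ Vle (casK c L) (2^j)` and all `j : ℕ` (`b ≥ 1`).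
NEW STEP. `a` from `exists_Vle_lapB hc hB`, applied to `T i = J' (lam i) ∘ ι'` (`Ksk` by `fam_ksk`/`Cal.ksk`; separating by the `sep` of the family). Let `a ≤ 2^m`. For `v ∈ Vle (lapB B L) (2^j)`: `v ∈ Vle (casK c L) (a 2^j) ≤ Vle (casK c L) (2^(j+m))` (`Vle_mono`), so
`‖ι v‖ ≤ (C' b^m) b^j Q (ι' v)`. Now `dyadic_gen` with `D = lapB B L` (`lapB_nonneg`, `Ksk.symmB`) and `Q (ι' w) ≤ B' ‖ι' w‖` finish the proof as in `key`. -/
theorem key_gen {G : Type u} [Group G] [TopologicalSpace G] {d : ℕ} {c : Core G d}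
    (hc : IsCore c) (A A₁ : ℕ) :
    ∃ s : ℝ, 0 ≤ s ∧ ∀ (D : ℕ) (B : Fin D → Ed d), IsSpB c B → ∀ (V E E' : Type v) (H : Type u)
      [AddCommGroup V] [Module ℂ V]
      [NormedAddCommGroup E] [NormedSpace ℂ E] [CompleteSpace E] [NormedAddCommGroup E']
      [NormedSpace ℂ E'] [CompleteSpace E'] [NormedAddCommGroup H]
      [InnerProductSpace ℂ H] [CompleteSpace H] (L : Ed d →ₗ[ℝ] (V →ₗ[ℂ] V))
      (act : G → V →ₗ[ℂ] V) (π : G → E →L[ℂ] E) (ι : V →ₗ[ℂ] E) (π' : G → E' →L[ℂ] E')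
      (ι' : V →ₗ[ℂ] E') (J : (E →L[ℂ] ℂ) → E →L[ℂ] H) (J' : (E' →L[ℂ] ℂ) → E' →L[ℂ] H),
      IsMd c L act → IsKm c L act → (∃ s : Finset V, ∀ U : Submodule ℂ V, (∀ v ∈ s, v ∈ U) →
        (∀ (Y : Ed d), ∀ u ∈ U, L Y u ∈ U) → U = ⊤) →
      IsGl c A₁ L act π ι → IsGl c A₁ L act π' ι' → IsJ c A π J → IsJ c A π' J' →
      ∃ C : ℝ, ∀ f : ℝ →₀ V, (∀ r : ℝ, lapB B L (f r) = (r : ℂ) • f r) →
        ‖ι (f.sum fun _ x => x)‖ ≤
          C * ‖ι' (f.sum fun r x => (((1 + r) ^ (s / 2) : ℝ) : ℂ) • x)‖ := by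
  obtain ⟨C₂, hC₂, hone⟩ := one_step.{u, v} hc A A₁
  have hb1 : (1 : ℝ) ≤ 2 ^ d * (2 * C₂ + 1) := by
    have h1 : (1 : ℝ) ≤ 2 ^ d := one_le_pow₀ (by norm_num)
    nlinarith
  refine ⟨Real.logb 2 (2 * (2 ^ d * (2 * C₂ + 1))), Real.logb_nonneg (by norm_num) (by linarith), ?_⟩
  intro D B₀ hB₀ V E E' H _ _ _ _ _ _ _ _ _ _ _ L act π ι π' ι' J J' hM hkm hfg hG hG' hJ hJ'
  obtain ⟨m, ζ, hζ0, hζE, hζs⟩ := exists_zeta hM hfg
  have hfam := fam_of_J hG hJ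
  have hfam' := fam_of_J hG' hJ'
  obtain ⟨PV, hPV⟩ := exists_PV hc hM hG hfam
  obtain ⟨PV', hPV'⟩ := exists_PV hc hM hG' hfam'
  obtain ⟨I, lam, Q, Cz, B, hQsup, hQB, hQpos, hQz⟩ := q_side hc hM hG' hPV' hJ' hζ0 hζE hζs
  obtain ⟨P, Cz', hPsup, hPen, hPcas, hPz⟩ := p_side hc hM hG hJ hζE hζs
  have hst : IsStep c A A₁ L act π' ι' PV' (fun i => J' (lam i)) Q Cz :=
    ⟨hM, hG', hPV', fun i => hJ'.tp _, hQsup, hQz⟩
  obtain ⟨n₁, hn₁⟩ := hone V E' I H L act π' ι' PV' (fun i => J' (lam i)) Q Cz hst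
  obtain ⟨Cg, hCg, hg⟩ := growth (casK c L) hM.fin P (Q.comp ι') (fun v hv => hQpos v hv)
    C₂ n₁ hC₂ (by
      intro n hn u hu
      obtain ⟨q, x, w, hw, hs, he⟩ := hn₁ n hn u hu
      refine ⟨q, fun j => c.M (x j) ^ A, w, fun j => PV' n (π' (x j) (ι' (w j))), ?_, hw, ?_, ?_,
        hs, ?_⟩
      · intro j
        have := hc.M_ge (x j)
        positivity
      · intro j
        exact hPV'.mem n _
      · intro j
        exact P_act hc hM hG hPV hJ hG' hPV' hJ' hζE hPsup n (x j) (w j)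
      · have h1 : ∑ j, PV' n (π' (x j) (ι' (w j))) = PV' n (∑ j, π' (x j) (ι' (w j))) :=
          (map_sum _ _ _).symm
        simp only [Seminorm.comp_apply]
        rw [h1]
        exact he)
  obtain ⟨CS, hCS, hsob⟩ := sobolev hc hG hJ
  have hC1 : (0 : ℝ) ≤ 4 * A * d + 1 := by positivity
  obtain ⟨M, hM0, hsc⟩ := scaled_bound.{u, v} hc hC1 d
  -- the index from which the scaled bounds hold
  obtain ⟨j₀, hj₀⟩ : ∃ j₀ : ℕ, Cz' 2 ≤ ((2 : ℝ) ^ j₀) ^ 2 := by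
    obtain ⟨k, hk⟩ := pow_unbounded_of_one_lt (Cz' 2) (by norm_num : (1 : ℝ) < 2)
    refine ⟨k, hk.le.trans ?_⟩
    have h1 : (1 : ℝ) ≤ 2 ^ k := one_le_pow₀ (by norm_num)
    nlinarith
  have hlarge : ∀ j : ℕ, j₀ ≤ j → ∀ v ∈ Vle (casK c L) (2 ^ j),
      ‖ι v‖ ≤ CS * (M * (2 ^ j) ^ d * P v) := by
    intro j hj v hv
    refine hsob v _ fun l hl β hβ => ?_
    have h1 : (1 : ℝ) ≤ 2 ^ j := one_le_pow₀ (by norm_num)
    have h2 : ((2 : ℝ) ^ j₀) ≤ 2 ^ j := pow_le_pow_right₀ (by norm_num) hj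
    have h3 : Cz' 2 ≤ ((2 : ℝ) ^ j) ^ 2 := hj₀.trans (pow_le_pow_left₀ (by positivity) h2 2)
    have h4 := hsc V L act hM P hPen hPcas (Cz' 2) (hPz 2) (2 ^ j) h1 h3 v hv β hβ
    have h5 := hPsup.le (⟨l, hl⟩, 0) (wd L β v)
    have h6 : ‖J l (ι (wd L β v))‖ ≤ P (wd L β v) := by
      simpa [hζ0] using h5
    refine h6.trans (h4.trans ?_)
    have h7 : ((2 : ℝ) ^ j) ^ β.length ≤ (2 ^ j) ^ d := pow_le_pow_right₀ h1 hβ
    have h8 : 0 ≤ P v := apply_nonneg _ _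
    gcongr
  have hall : ∀ j : ℕ, ∀ v ∈ Vle (casK c L) (2 ^ j),
      ‖ι v‖ ≤ (CS * M * (2 ^ j₀) ^ d * Cg) * (2 ^ d * (2 * C₂ + 1)) ^ j * Q (ι' v) := by
    intro j v hv
    have hP0 : 0 ≤ P v := apply_nonneg _ _
    have hQ0 : 0 ≤ Q (ι' v) := apply_nonneg _ _
    have h1 : (1 : ℝ) ≤ 2 ^ j := one_le_pow₀ (by norm_num)
    have h10 : (1 : ℝ) ≤ 2 ^ j₀ := one_le_pow₀ (by norm_num)
    have h1d : (1 : ℝ) ≤ (2 ^ j) ^ d := one_le_pow₀ h1
    have h10d : (1 : ℝ) ≤ (2 ^ j₀) ^ d := one_le_pow₀ h10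
    have hP : ‖ι v‖ ≤ CS * (M * ((2 ^ j₀) ^ d * (2 ^ j) ^ d) * P v) := by
      rcases le_total j₀ j with hj | hj
      · refine (hlarge j hj v hv).trans ?_
        gcongr
        exact le_mul_of_one_le_left (by positivity) h10d
      · have hv' : v ∈ Vle (casK c L) (2 ^ j₀) :=
          Vle_mono (by positivity) (pow_le_pow_right₀ (by norm_num) hj) hv
        refine (hlarge j₀ le_rfl v hv').trans ?_
        gcongr
        exact le_mul_of_one_le_right (by positivity) h1d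
    have hgv : P v ≤ Cg * (2 * C₂ + 1) ^ j * Q (ι' v) := hg j v hv
    have hb0 : 0 ≤ 2 * C₂ + 1 := by linarith
    calc ‖ι v‖ ≤ CS * (M * ((2 ^ j₀) ^ d * (2 ^ j) ^ d) * P v) := hP
      _ ≤ CS * (M * ((2 ^ j₀) ^ d * (2 ^ j) ^ d) * (Cg * (2 * C₂ + 1) ^ j * Q (ι' v))) := by
          gcongr
      _ = (CS * M * (2 ^ j₀) ^ d * Cg) * (2 ^ d * (2 * C₂ + 1)) ^ j * Q (ι' v) := by
          have h20 : ((2 : ℝ) ^ d) ^ j = (2 ^ j) ^ d := by
            rw [← pow_mul, ← pow_mul, mul_comm]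
          rw [mul_pow, h20]
          ring
  have hksk : ∀ i : I, Ksk c L ((J' (lam i)).toLinearMap.comp ι') := by
    intro i
    exact Cal.ksk hc (⟨V, E', H, π', L, ι', J' (lam i), hG'.rp.one, hG'.rp.mul, hG'.rp.cont,
      hG'.der, hJ'.tp _⟩ : Cal.{u, v} c A)
  have hsup2 : IsSup (fun i : I => (J' (lam i)).toLinearMap.comp ι') (Q.comp ι') :=
    ⟨fun i x => hQsup.le i (ι' x), fun x r hr h => hQsup.sup (ι' x) r hr h⟩
  have hsep : ∀ v : V, (∀ i : I, ((J' (lam i)).toLinearMap.comp ι') v = 0) → v = 0 := by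
    intro v hv
    have h1 : Q (ι' v) ≤ 0 := by
      refine hQsup.sup (ι' v) 0 le_rfl fun i => ?_
      have h2 : (J' (lam i)).toLinearMap (ι' v) = 0 := hv i
      rw [h2, norm_zero]
    exact hQpos v (le_antisymm h1 (apply_nonneg _ _))
  obtain ⟨a, ha1, ha⟩ := exists_Vle_lapB.{u, v} hc hB₀
  obtain ⟨m₂, hm₂⟩ := pow_unbounded_of_one_lt a (by norm_num : (1 : ℝ) < 2)
  have hall2 : ∀ j : ℕ, ∀ v ∈ Vle (lapB B₀ L) (2 ^ j),
      ‖ι v‖ ≤ (CS * M * (2 ^ j₀) ^ d * Cg * (2 ^ d * (2 * C₂ + 1)) ^ m₂) *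
        (2 ^ d * (2 * C₂ + 1)) ^ j * Q (ι' v) := by
    intro j v hv
    have h1 : v ∈ Vle (casK c L) (a * 2 ^ j) :=
      ha V I H L act (fun i : I => (J' (lam i)).toLinearMap.comp ι') hM hkm hksk hsep (2 ^ j) hv
    have h2 : a * 2 ^ j ≤ (2 : ℝ) ^ (j + m₂) := by
      rw [pow_add, mul_comm]
      exact mul_le_mul_of_nonneg_left hm₂.le (by positivity)
    have h3 : v ∈ Vle (casK c L) (2 ^ (j + m₂)) := Vle_mono (by positivity) h2 h1
    refine (hall (j + m₂) v h3).trans (le_of_eq ?_)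
    rw [pow_add]
    ring
  have hb0' : (0 : ℝ) ≤ (2 ^ d * (2 * C₂ + 1)) ^ m₂ := pow_nonneg (by linarith) _
  refine ⟨2 * (CS * M * (2 ^ j₀) ^ d * Cg * (2 ^ d * (2 * C₂ + 1)) ^ m₂) *
    2 ^ (Real.logb 2 (2 * (2 ^ d * (2 * C₂ + 1)))) * B, fun f hf => ?_⟩
  have hdy := dyadic_gen (fun r v => lapB_nonneg hksk hsep hB₀ r v)
    (fun i u v => (hksk i).symmB hB₀ u v) (Q.comp ι') ((normSeminorm ℂ E).comp ι) hsup2
    (CS * M * (2 ^ j₀) ^ d * Cg * (2 ^ d * (2 * C₂ + 1)) ^ m₂) (2 ^ d * (2 * C₂ + 1))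
    (Real.logb 2 (2 * (2 ^ d * (2 * C₂ + 1)))) (by positivity) (by linarith)
    (le_of_eq (Real.rpow_logb (by norm_num) (by norm_num) (by linarith)).symm)
    (Real.logb_nonneg (by norm_num) (by linarith)) hall2 f hf
  simp only [Seminorm.comp_apply, coe_normSeminorm] at hdy
  refine hdy.trans ?_
  have hfin := hQB (ι' (f.sum fun r x => (((1 + r) ^
    (Real.logb 2 (2 * (2 ^ d * (2 * C₂ + 1))) / 2) : ℝ) : ℂ) • x))
  have hnn : 0 ≤ 2 * (CS * M * (2 ^ j₀) ^ d * Cg * (2 ^ d * (2 * C₂ + 1)) ^ m₂) *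
    2 ^ (Real.logb 2 (2 * (2 ^ d * (2 * C₂ + 1)))) := by positivity
  rw [mul_assoc _ B]
  exact mul_le_mul_of_nonneg_left hfin hnn

end Pool.Agent.RG
end
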